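import Pool.Agent.R948.ZGb

/-!
# From optimal points to optimal subvarieties, level by level
-/

set_option autoImplicit false
set_option linter.unusedSectionVars false
set_option linter.style.haveILetI false

namespace Pool.Agent.R948.ZP

open MvPolynomial

variable {K : Type} [Field K] [IsAlgClosed K] {ι : Type} [Fintype ι]
  {X : Set (ι → K)} {𝒮 : Set (Set (ι → K))}

/-- the hull of a generic point -/
theorem hull_line {k : Type} [Field k] [Algebra k K] (h𝒮 : SpecialStructure X 𝒮)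
    (hd𝒮 : ∀ S ∈ 𝒮, Def k S) {A : Set (ι → K)} (hA : Subvariety X A) {p : ι → K} (hpA : p ∈ A)
    (hp : ∀ f : MvPolynomial ι k, aeval p f = 0 ↔ f ∈ cont k A) :
    hull 𝒮 (line p) = hull 𝒮 A := by
  refine Set.Subset.antisymm (hull_mono (line_subset hA.closed.1 hpA)) ?_
  intro x hx S' hS'
  refine hx S' ⟨hS'.1, Closed.le_of_van hA.subset (h𝒮.subvariety _ hS'.1).closed
    (van_le_of_cont (hd𝒮 _ hS'.1) ?_)⟩
  intro g hg
  rw [← hp, ← eval_map_eq]
  exact hg p (hS'.2 (mem_line p))

theorem level_of_point [Uncountable K] (hX : QuasiProjective X) (h𝒮 : SpecialStructure X 𝒮)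
    {D : ℤ} (h : LevelPointForm X 𝒮 D) : LevelForm X 𝒮 D := by
  classical
  intro T hT V hV hVT
  by_contra hinf
  rw [← Set.Infinite] at hinf
  have hXc := hX.cone
  -- transcendence bases
  let Q : Finset ι → Set (ι → K) → Prop := fun S A => (Optimal X 𝒮 V A ∧ dim (hull 𝒮 A) = D) ∧
    vd A = S.card ∧ AlgebraicIndependent K (fun i : S => cp (van A) i)
  have hex : ∃ S : Finset ι, {A | Q S A}.Infinite := by
    by_contra hcon
    push Not at hcon
    apply hinf
    have hsub : {A | Optimal X 𝒮 V A ∧ dim (hull 𝒮 A) = D} ⊆ ⋃ S : Finset ι, {A | Q S A} := by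
      intro A hA
      haveI := hA.1.1.prime hXc
      obtain ⟨S, hS, hind, -⟩ := exists_td K (cp (van A))
      exact Set.mem_iUnion.2 ⟨S, hA, by rw [vd_eq, hS]; rfl, hind⟩
    exact (Set.finite_iUnion fun S => hcon S).subset hsub
  obtain ⟨S, hSinf⟩ := hex
  let a : ℕ → Set (ι → K) := fun n => (Set.Infinite.natEmbedding _ hSinf n : Set (ι → K))
  have ha : ∀ n, Q S (a n) := fun n => (Set.Infinite.natEmbedding _ hSinf n).2
  have hainj : Function.Injective a := fun m n hmn =>
    (Set.Infinite.natEmbedding _ hSinf).injective (Subtype.ext hmn)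
  obtain ⟨F, G, hFG⟩ := hX.locallyClosed
  -- polynomials not vanishing on the subvarieties
  have hg : ∀ n, ∃ g ∈ G, g ∉ van (a n) := by
    intro n
    obtain ⟨x, hx⟩ := (ha n).1.1.1.nonempty
    have hxX := (ha n).1.1.1.subset hx
    rw [hFG] at hxX
    have hxG := hxX.2
    simp only [zeros, Set.mem_ofPred_eq, not_forall] at hxG
    obtain ⟨g, hg, hgx⟩ := hxG
    exact ⟨g, hg, fun h1 => hgx (h1 x hx)⟩
  choose g hgG hgv using hg
  -- the field of definition
  obtain ⟨CV, hCV, hCV2⟩ := exists_coeffs (van V)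
  choose CA hCA hCA2 using fun n => exists_coeffs (van (a n))
  choose CS hCS hCS2 using fun S' : Set (ι → K) => exists_coeffs (van S')
  let Call : Set K := CV ∪ (⋃ n, CA n) ∪ (⋃ S' ∈ 𝒮, CS S') ∪ (⋃ n, ((g n).coeffs : Set K))
  have hCall : Call.Countable := by
    refine ((hCV.countable.union (Set.countable_iUnion fun n => (hCA n).countable)).union
      (h𝒮.countable.biUnion fun S' _ => (hCS S').countable)).union
      (Set.countable_iUnion fun n => (Finset.finite_toSet _).countable)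
  obtain ⟨k, _, _, hkc, hkn, hsub⟩ := exists_field Call hCall
  have hVd : Def k V := hCV2 k fun c hc => hsub (Or.inl (Or.inl (Or.inl hc)))
  have hAd : ∀ n, Def k (a n) := fun n => hCA2 n k fun c hc =>
    hsub (Or.inl (Or.inl (Or.inr (Set.mem_iUnion.2 ⟨n, hc⟩))))
  have hSd : ∀ S' ∈ 𝒮, Def k S' := fun S' hS' => hCS2 S' k fun c hc =>
    hsub (Or.inl (Or.inr (Set.mem_biUnion hS' hc)))
  have hgd : ∀ n, ∃ g' : MvPolynomial ι k, MvPolynomial.map (algebraMap k K) g' = g n := by
    intro n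
    have h1 : g n ∈ Set.range (MvPolynomial.map (algebraMap k K)) := by
      rw [mem_range_map_iff_coeffs_subset]
      exact fun c hc => hsub (Or.inr (Set.mem_iUnion.2 ⟨n, hc⟩))
    exact h1
  obtain ⟨t, ht⟩ := exists_indep (k := k) (K := K) S
  -- the generic points
  have hpt : ∀ n, ∃ p : ι → K, (∀ f : MvPolynomial ι k, aeval p f = 0 ↔ f ∈ cont k (a n)) ∧
      ∀ j : S, p j = t j := by
    intro n
    haveI := (ha n).1.1.1.prime hXc
    haveI := cont_prime (k := k) hXc (ha n).1.1.1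
    refine exists_generic (cont k (a n)) S ?_ ?_ t ht
    · rw [algebraicIndependent_iff]
      intro f hf
      have h1 : rename Subtype.val f ∈ cont k (a n) := by
        rw [← aeval_cp_eq_zero, aeval_rename]
        exact hf
      have h2 : MvPolynomial.map (algebraMap k K) (rename Subtype.val f) ∈ van (a n) := h1
      rw [map_rename, ← aeval_cp_eq_zero, aeval_rename] at h2
      have h3 := algebraicIndependent_iff.1 (ha n).2.2 _ h2
      exact MvPolynomial.map_injective _ (algebraMap k K).injective (by rw [h3, map_zero])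
    · rw [← (ha n).2.1, vd_eq]
      exact tdP_le_map _ _ (hAd n).symm
  choose p hp hpt using hpt
  have hpA : ∀ n, p n ∈ a n := by
    intro n
    have h1 : p n ∈ zeros (van (a n) : Set (MvPolynomial ι K)) := by
      intro f hf
      have h2 : (cont k (a n)).map (MvPolynomial.map (algebraMap k K)) ≤
          RingHom.ker (eval (p n)) := by
        rw [Ideal.map_le_iff_le_comap]
        intro f' hf'
        rw [Ideal.mem_comap, RingHom.mem_ker, eval_map_eq]
        exact (hp n f').2 hf'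
      have h3 : f ∈ (cont k (a n)).map (MvPolynomial.map (algebraMap k K)) := by
        rw [hAd n]
        exact hf
      exact h2 h3
    rw [← (ha n).1.1.1.closed.eq]
    refine ⟨?_, h1⟩
    rw [hFG]
    refine ⟨fun f hf => h1 f fun x hx => ?_, fun h2 => ?_⟩
    · have h3 := (ha n).1.1.1.subset hx
      rw [hFG] at h3
      exact h3.1 f hf
    · obtain ⟨g', hg'⟩ := hgd n
      have h3 := h2 (g n) (hgG n)
      rw [← hg', eval_map_eq, hp] at h3
      apply hgv n
      rw [← hg']
      exact h3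
  have hpX : ∀ n, p n ∈ X := fun n => (ha n).1.1.1.subset (hpA n)
  -- the section
  have hZ : Closed X (V ∩ (X ∩ sect t)) := hV.closed.inter (sect_closed hXc t)
  obtain ⟨𝓕, hf, hs, hu⟩ := exists_decomp X hZ
  have hsZ : ∀ W ∈ 𝓕, W ⊆ V ∩ (X ∩ sect t) := by
    intro W hW
    rw [← hu]
    exact Set.subset_sUnion_of_mem hW
  have hfin : (⋃ W ∈ 𝓕, {A | Optimal X 𝒮 W A ∧ dim A = 0 ∧ dim (hull 𝒮 A) = D}).Finite := by
    refine hf.biUnion fun W hW => ?_
    exact h T hT W (hs W hW) (((hsZ W hW).trans Set.inter_subset_left).trans hVT)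
  refine Set.infinite_of_injective_forall_mem (f := fun n => line (p n)) ?_ ?_ hfin
  · intro m n hmn
    obtain ⟨j₀, hj₀⟩ : S.Nonempty := by
      rw [← Finset.card_pos, ← (ha m).2.1]
      have h1 := vd_mono hXc (line_sub hXc hX.zero (hpX m)) (ha m).1.1.1
        (line_subset (ha m).1.1.1.closed.1 (hpA m))
      rw [vd_line hXc hX.zero (hpX m)] at h1
      omega
    have h1 : p m ∈ line (p n) := by
      have h2 : line (p m) = line (p n) := hmn
      rw [← h2]
      exact mem_line _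
    obtain ⟨c, -, hc⟩ := h1
    have h2 := congrFun hc j₀
    rw [Pi.smul_apply, hpt m ⟨j₀, hj₀⟩, hpt n ⟨j₀, hj₀⟩, smul_eq_mul] at h2
    have h3 : c = 1 := by
      have h4 : t ⟨j₀, hj₀⟩ ≠ 0 := ht.ne_zero _
      have h5 : (c - 1) * t ⟨j₀, hj₀⟩ = 0 := by linear_combination -h2
      rcases mul_eq_zero.1 h5 with h6 | h6
      · exact sub_eq_zero.1 h6
      · exact absurd h6 h4
    rw [h3, one_smul] at hc
    have h4 : cont k (a m) = cont k (a n) := by
      ext f
      rw [← hp m, ← hp n, hc]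
    apply hainj
    rw [← (ha m).1.1.1.closed.eq, ← (ha n).1.1.1.closed.eq, ← hAd m, ← hAd n, h4]
  · intro n
    have h1 : line (p n) ⊆ ⋃₀ 𝓕 := by
      rw [hu]
      refine Set.subset_inter (line_subset hV.closed.1 ((ha n).1.1.2.1 (hpA n)))
        (line_subset (sect_closed hXc t).1 ⟨hpX n, fun i j => ?_⟩)
      rw [hpt n i, hpt n j]
      ring
    obtain ⟨W, hW, hpW⟩ := (line_sub hXc hX.zero (hpX n)).mem_of_sUnion hf
      (fun W hW => (hs W hW).closed) h1
    refine Set.mem_biUnion hW ⟨?_, ?_, ?_⟩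
    · exact optimal_line hX h𝒮 hSd hV hVd (ha n).1.1 S (ha n).2.1 t ht (hpA n)
        (hp n) (hpt n) ((hsZ W hW).trans Set.inter_subset_left)
        (((hsZ W hW).trans Set.inter_subset_right).trans Set.inter_subset_right) hpW
    · rw [dim_eq, vd_line hXc hX.zero (hpX n)]
      norm_num
    · rw [hull_line h𝒮 hSd (ha n).1.1.1 (hpA n) (hp n)]
      exact (ha n).1.2


/-- the dimensions are bounded -/
theorem finite_of_levels {T V : Set (ι → K)} (hXc : IsCone X) (h𝒮 : SpecialStructure X 𝒮)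
    (hT : T ∈ 𝒮) (hVT : V ⊆ T)
    (h : ∀ D : ℤ, {A | Optimal X 𝒮 V A ∧ dim (hull 𝒮 A) = D}.Finite) :
    {A | Optimal X 𝒮 V A}.Finite := by
  haveI : Infinite K := IsAlgClosed.instInfinite
  have h1 : {A | Optimal X 𝒮 V A} ⊆ ⋃ n : Fin (Fintype.card ι + 1),
      {A | Optimal X 𝒮 V A ∧ dim (hull 𝒮 A) = ((n : ℕ) : ℤ) - 1} := by
    intro A hA
    have h2 := vd_le_card hXc (h𝒮.subvariety _ (hull_mem hXc h𝒮 hA.1 hT (hA.2.1.trans hVT)))
    exact Set.mem_iUnion.2 ⟨⟨vd (hull 𝒮 A), by omega⟩, hA, rfl⟩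
  exact (Set.finite_iUnion fun n => h _).subset h1

theorem optimal_iff_levels (hXc : IsCone X) (h𝒮 : SpecialStructure X 𝒮) :
    OptimalForm X 𝒮 ↔ ∀ D, LevelForm X 𝒮 D := by
  constructor
  · exact fun h D T hT V hV hVT => (h T hT V hV hVT).subset fun A hA => hA.1
  · exact fun h T hT V hV hVT => finite_of_levels hXc h𝒮 hT hVT fun D => h D T hT V hV hVT

/-- **each level is a statement on just unlikely points** -/
theorem level_iff [Uncountable K] (hX : QuasiProjective X) (h𝒮 : SpecialStructure X 𝒮) (D : ℤ) :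
    LevelForm X 𝒮 D ↔ JustUnlikelyForm X 𝒮 D := by
  constructor
  · exact fun h T hT V hV hVT _ _ => (h T hT V hV hVT).subset fun A hA => ⟨hA.1, hA.2.2⟩
  · exact fun h => level_of_point hX h𝒮 (points_of_justUnlikely hX h𝒮 h)

theorem pink_of_defect [Infinite K] (hX : QuasiProjective X) (h𝒮 : SpecialStructure X 𝒮)
    (h : DefectForm X 𝒮) : PinkForm X 𝒮 := by
  intro T hT V hV hVT hgen
  have hXc := hX.cone
  have hh : hull 𝒮 V = T := by
    by_contra hne
    exact hgen _ (hull_mem hXc h𝒮 hV hT hVT) (Set.ssubset_iff_subset_ne.2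
      ⟨hull_subset hT hVT, hne⟩) (subset_hull V)
  by_contra hcon
  push Not at hcon
  have h1 := h T hT V hV hVT (dim T - dim V - 1) fun W hW hWx => by
    by_contra hVW
    obtain ⟨S, hS, hST, hd, hSW⟩ := hcon W hW hVW
    apply hSW
    intro x hx
    refine hWx x hx.1 ?_
    have hxX : x ∈ X := hV.subset hx.1
    have hl := line_sub hXc hX.zero hxX
    have hxS : line x ⊆ S := line_subset (h𝒮.subvariety _ hS).closed.1 hx.2
    have h2 := vd_mono hXc (h𝒮.subvariety _ (hull_mem hXc h𝒮 hl hS hxS)) (h𝒮.subvariety _ hS)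
      (hull_subset hS hxS)
    rw [defect, dim_eq, dim_eq (line x), vd_line hXc hX.zero hxX]
    rw [dim_eq S] at hd
    push_cast
    omega
  rw [defect, hh] at h1
  omega

theorem defect_of_optimal [Infinite K] (hX : QuasiProjective X) (h𝒮 : SpecialStructure X 𝒮)
    (h : OptimalForm X 𝒮) : DefectForm X 𝒮 := by
  intro T hT Z hZ hZT d hd
  have hXc := hX.cone
  have hfin : ({B | Optimal X 𝒮 Z B} ∩ {B | defect 𝒮 B ≤ d}).Finite :=
    (h T hT Z hZ hZT).inter_of_left _
  have hcl : ∀ B ∈ {B | Optimal X 𝒮 Z B} ∩ {B | defect 𝒮 B ≤ d}, Closed X B :=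
    fun B hB => hB.1.1.closed
  have h1 : Z ⊆ ⋃₀ ({B | Optimal X 𝒮 Z B} ∩ {B | defect 𝒮 B ≤ d}) := by
    refine hd _ (closed_sUnion hfin hcl) fun x hx hxd => ?_
    obtain ⟨B, hB, hxB, hBd⟩ := exists_optimal (𝒮 := 𝒮) hXc
      (line_sub hXc hX.zero (hZ.subset hx)) (line_subset hZ.closed.1 hx)
    exact ⟨B, ⟨hB, hBd.trans hxd⟩, hxB (mem_line x)⟩
  obtain ⟨B, hB, hZB⟩ := hZ.mem_of_sUnion hfin hcl h1
  have h2 : Z = B := Set.Subset.antisymm hZB hB.1.2.1
  rw [h2]
  exact hB.2

/-- **Pink's question is a statement on just unlikely points.** -/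
theorem defect_iff [Uncountable K] (hX : QuasiProjective X) (h𝒮 : SpecialStructure X 𝒮) :
    DefectForm X 𝒮 ↔ ∀ D : ℕ, JustUnlikelyForm X 𝒮 D := by
  haveI : Infinite K := IsAlgClosed.instInfinite
  constructor
  · intro h D
    rw [← level_iff hX h𝒮]
    exact (optimal_iff_levels hX.cone h𝒮).1 (optimal_of_point hX h𝒮
      (point_of_pink hX.cone h𝒮 (pink_of_defect hX h𝒮 h))) D
  · intro h
    refine defect_of_optimal hX h𝒮 ((optimal_iff_levels hX.cone h𝒮).2 fun D => ?_)
    rcases le_or_gt 0 D with hD | hD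
    · obtain ⟨D', rfl⟩ := Int.eq_ofNat_of_zero_le hD
      exact (level_iff hX h𝒮 _).2 (h D')
    · intro T hT V hV hVT
      refine (Set.finite_empty).subset ?_
      rintro A ⟨hA, hAD⟩
      have h2 := h𝒮.subvariety _ (hull_mem hX.cone h𝒮 hA.1 hT (hA.2.1.trans hVT))
      obtain ⟨x, hx⟩ := h2.nonempty
      have h3 := vd_mono hX.cone (line_sub hX.cone hX.zero (h2.subset hx)) h2
        (line_subset h2.closed.1 hx)
      rw [vd_line hX.cone hX.zero (h2.subset hx)] at h3
      rw [dim_eq] at hAD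
      omega

end Pool.Agent.R948.ZP
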