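import Mathlib

/-!
# Relation spaces of families of elements of commutative groups
-/

set_option autoImplicit false
set_option linter.unusedSectionVars false

namespace Pool.Agent.R948

section

variable {ι κ G : Type} [Fintype ι] [Fintype κ] [CommGroup G]

/-- monomial with integral exponents -/
def mon (z : ι → G) (b : ι → ℤ) : G := ∏ i, z i ^ b i

theorem mon_add (z : ι → G) (b c : ι → ℤ) : mon z (b + c) = mon z b * mon z c := by
  simp only [mon, Pi.add_apply, zpow_add, Finset.prod_mul_distrib]

theorem mon_smul (z : ι → G) (n : ℤ) (b : ι → ℤ) : mon z (n • b) = mon z b ^ n := by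
  simp only [mon, Pi.smul_apply, smul_eq_mul, ← Finset.prod_zpow]
  refine Finset.prod_congr rfl fun i _ => ?_
  rw [mul_comm, zpow_mul]

theorem mon_zero (z : ι → G) : mon z 0 = 1 := by
  simp [mon]

theorem mon_neg (z : ι → G) (b : ι → ℤ) : mon z (-b) = (mon z b)⁻¹ := by
  simp [mon]

/-- the space of the multiplicative relations -/
def rel (z : ι → G) : Submodule ℚ (ι → ℚ) where
  carrier := {a | ∃ N : ℕ, 0 < N ∧ ∃ b : ι → ℤ, (∀ i, (b i : ℚ) = N * a i) ∧ mon z b = 1}
  zero_mem' := ⟨1, one_pos, 0, by simp, mon_zero z⟩
  add_mem' := by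
    rintro a a' ⟨N, hN, b, hb, h⟩ ⟨N', hN', b', hb', h'⟩
    refine ⟨N * N', Nat.mul_pos hN hN', (N' : ℤ) • b + (N : ℤ) • b', fun i => ?_, ?_⟩
    · simp only [Pi.add_apply, Pi.smul_apply, smul_eq_mul]
      push_cast
      rw [hb, hb']
      ring
    · rw [mon_add, mon_smul, mon_smul, h, h', one_zpow, one_zpow, one_mul]
  smul_mem' := by
    rintro q a ⟨N, hN, b, hb, h⟩
    refine ⟨N * q.den, Nat.mul_pos hN q.den_pos, q.num • b, fun i => ?_, ?_⟩
    · simp only [Pi.smul_apply, smul_eq_mul]
      push_cast
      rw [hb]
      have h1 : (q.num : ℚ) = q * q.den := (Rat.mul_den_eq_num q).symm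
      rw [h1]
      ring
    · rw [mon_smul, h, one_zpow]

theorem mem_rel_int (z : ι → G) (a : ι → ℤ) :
    (fun i => (a i : ℚ)) ∈ rel z ↔ ∃ N : ℕ, 0 < N ∧ mon z a ^ N = 1 := by
  constructor
  · rintro ⟨N, hN, b, hb, h⟩
    refine ⟨N, hN, ?_⟩
    have h1 : b = (N : ℤ) • a := by
      funext i
      have h2 : (b i : ℚ) = N * (a i : ℚ) := hb i
      simp only [Pi.smul_apply, smul_eq_mul]
      exact_mod_cast h2
    rw [h1, mon_smul, zpow_natCast] at h
    exact h
  · rintro ⟨N, hN, h⟩
    refine ⟨N, hN, (N : ℤ) • a, fun i => ?_, ?_⟩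
    · simp
    · rw [mon_smul, zpow_natCast, h]

/-- every element of the relation space is a multiple of an integral relation -/
theorem exists_int_of_mem_rel {z : ι → G} {a : ι → ℚ} (ha : a ∈ rel z) :
    ∃ N : ℕ, 0 < N ∧ ∃ b : ι → ℤ, (∀ i, (b i : ℚ) = N * a i) ∧ mon z b = 1 := ha

/-- the dimension of the relation space -/
noncomputable def dr (z : ι → G) : ℕ := Module.finrank ℚ (rel z)

theorem dr_le_card (z : ι → G) : dr z ≤ Fintype.card ι := by
  have h := Submodule.finrank_le (rel z)
  rwa [Module.finrank_pi] at h

/-- projection of the relations to the second coordinates -/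
noncomputable def relProj (b : κ → G) (y : ι → G) : Submodule ℚ (ι → ℚ) :=
  (rel (Sum.elim b y)).map (LinearMap.funLeft ℚ ℚ (Sum.inr : ι → κ ⊕ ι))

theorem mon_sum (b : κ → G) (y : ι → G) (c : κ ⊕ ι → ℤ) :
    mon (Sum.elim b y) c = mon b (fun j => c (Sum.inl j)) * mon y (fun i => c (Sum.inr i)) := by
  simp [mon, Fintype.prod_sum_type]

theorem dr_sum (b : κ → G) (y : ι → G) :
    dr (Sum.elim b y) = dr b + Module.finrank ℚ (relProj b y) := by
  let f : rel (Sum.elim b y) →ₗ[ℚ] (ι → ℚ) :=
    (LinearMap.funLeft ℚ ℚ (Sum.inr : ι → κ ⊕ ι)).domRestrict (rel (Sum.elim b y))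
  have h1 := LinearMap.finrank_range_add_finrank_ker f
  have h2 : LinearMap.range f = relProj b y := by
    rw [LinearMap.range_domRestrict]
    rfl
  have h3 : Module.finrank ℚ (LinearMap.ker f) = dr b := by
    let g : rel b →ₗ[ℚ] LinearMap.ker f :=
      { toFun := fun a => ⟨⟨Sum.elim a.1 0, by
          obtain ⟨N, hN, c, hc, h⟩ := a.2
          refine ⟨N, hN, Sum.elim c 0, ?_, ?_⟩
          · rintro (j | i)
            · simpa using hc j
            · simp
          · rw [mon_sum]
            simp only [Sum.elim_inl, Sum.elim_inr]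
            rw [h]
            exact (one_mul _).trans (mon_zero y)⟩, by
          rw [LinearMap.mem_ker]
          rfl⟩
        map_add' := by
          intro a a'
          apply Subtype.ext
          apply Subtype.ext
          funext k
          rcases k with j | i <;> simp
        map_smul' := by
          intro q a
          apply Subtype.ext
          apply Subtype.ext
          funext k
          rcases k with j | i <;> simp }
    have hg : Function.Bijective g := by
      constructor
      · intro a a' haa
        have h4 := congrArg (fun w => (w.1.1 : κ ⊕ ι → ℚ)) haa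
        apply Subtype.ext
        funext j
        exact congrFun h4 (Sum.inl j)
      · rintro ⟨⟨w, hw⟩, hw2⟩
        rw [LinearMap.mem_ker] at hw2
        have hw3 : ∀ i, w (Sum.inr i) = 0 := fun i => congrFun hw2 i
        obtain ⟨N, hN, c, hc, h⟩ := hw
        have hc2 : ∀ i, c (Sum.inr i) = 0 := by
          intro i
          have h5 := hc (Sum.inr i)
          rw [hw3, mul_zero] at h5
          exact_mod_cast h5
        refine ⟨⟨fun j => w (Sum.inl j), N, hN, fun j => c (Sum.inl j),
          fun j => hc (Sum.inl j), ?_⟩, ?_⟩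
        · rw [mon_sum] at h
          have h6 : (fun i => c (Sum.inr i)) = 0 := funext hc2
          rw [h6, mon_zero, mul_one] at h
          exact h
        · apply Subtype.ext
          apply Subtype.ext
          funext k
          rcases k with j | i
          · rfl
          · exact (hw3 i).symm
    exact (LinearEquiv.ofBijective g hg).finrank_eq.symm
  rw [h2, h3] at h1
  rw [dr, ← h1, add_comm]

/-- elements of the group generated by a family up to torsion, added to the family -/
theorem le_dr_sum (y : ι → G) (b : κ → G) (m : κ → ι → ℤ) (t : κ → G)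
    (ht : ∀ j, ∃ N : ℕ, 0 < N ∧ t j ^ N = 1) (hb : ∀ j, b j = t j * mon y (m j)) :
    dr y + Fintype.card κ ≤ dr (Sum.elim y b) := by
  classical
  let g : (rel y × (κ → ℚ)) →ₗ[ℚ] rel (Sum.elim y b) :=
    { toFun := fun p => ⟨Sum.elim (fun i => p.1.1 i - ∑ j, p.2 j * m j i) p.2, by
        have h1 : ∀ j, (Sum.elim (fun i => -(m j i : ℚ)) (Pi.single j 1) : ι ⊕ κ → ℚ) ∈
            rel (Sum.elim y b) := by
          intro j
          have h2 : (Sum.elim (fun i => -(m j i : ℚ)) (Pi.single j 1) : ι ⊕ κ → ℚ) =
              fun k => (((Sum.elim (fun i => -(m j i)) (Pi.single j 1) : ι ⊕ κ → ℤ) k : ℤ) : ℚ) := by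
            funext k
            rcases k with i | j'
            · simp
            · by_cases hj : j' = j
              · subst hj
                simp
              · simp [Pi.single_eq_of_ne hj]
          rw [h2, mem_rel_int, mon_sum]
          obtain ⟨N, hN, h⟩ := ht j
          refine ⟨N, hN, ?_⟩
          simp only [Sum.elim_inl, Sum.elim_inr]
          have h3 : mon b (Pi.single j 1 : κ → ℤ) = b j := by
            rw [mon, Finset.prod_eq_single j]
            · simp
            · intro j' _ hj'
              rw [Pi.single_eq_of_ne hj', zpow_zero]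
            · intro h
              exact absurd (Finset.mem_univ j) h
          have h4 : mon y (fun i => -(m j i)) = (mon y (m j))⁻¹ := mon_neg y (m j)
          rw [h3, h4, hb j]
          rw [mul_comm, mul_assoc, mul_inv_cancel, mul_one, h]
        have h2 : (Sum.elim p.1.1 0 : ι ⊕ κ → ℚ) ∈ rel (Sum.elim y b) := by
          obtain ⟨N, hN, c, hc, h⟩ := p.1.2
          refine ⟨N, hN, Sum.elim c 0, ?_, ?_⟩
          · rintro (j | i)
            · simpa using hc j
            · simp
          · rw [mon_sum]
            simp only [Sum.elim_inl, Sum.elim_inr]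
            rw [h]
            exact (one_mul _).trans (mon_zero b)
        have h3 := (rel (Sum.elim y b)).add_mem h2
          (Submodule.sum_mem _ fun j (_ : j ∈ Finset.univ) =>
            (rel (Sum.elim y b)).smul_mem (p.2 j) (h1 j))
        convert h3 using 1
        funext k
        rcases k with i | j
        · simp [Finset.sum_apply, sub_eq_add_neg]
        · simp [Finset.sum_apply, Pi.single_apply]⟩
      map_add' := by
        intro a a'
        apply Subtype.ext
        funext k
        rcases k with i | j
        · simp only [Prod.fst_add, Prod.snd_add, Submodule.coe_add, Pi.add_apply, Sum.elim_inl,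
            add_mul, Finset.sum_add_distrib]
          ring
        · simp
      map_smul' := by
        intro q a
        apply Subtype.ext
        funext k
        rcases k with i | j
        · simp [mul_sub, Finset.mul_sum, mul_assoc]
        · simp }
  have hg : Function.Injective g := by
    rw [injective_iff_map_eq_zero]
    rintro ⟨a, c⟩ h
    have h1 := congrArg (fun w => (w.1 : ι ⊕ κ → ℚ)) h
    have hc : c = 0 := by
      funext j
      exact congrFun h1 (Sum.inr j)
    subst hc
    have ha : a = 0 := by
      apply Subtype.ext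
      funext i
      have h2 := congrFun h1 (Sum.inl i)
      simpa [g] using h2
    rw [ha]
    rfl
  have h1 := LinearMap.finrank_le_finrank_of_injective hg
  rw [Module.finrank_prod, Module.finrank_pi] at h1
  exact h1

theorem rank_ext (b : κ → G) (y : ι → G) : ∃ J : Finset ι,
    J.card + Module.finrank ℚ (relProj b y) = Fintype.card ι ∧
    ∀ i, ∃ N : ℕ, 0 < N ∧ ∃ c : κ ⊕ J → ℤ,
      y i ^ N = mon (Sum.elim b (fun j : J => y j) : κ ⊕ J → G) c := by
  classical
  let W := relProj b y
  let e : ι → ((ι → ℚ) ⧸ W) := fun i => W.mkQ (Pi.single i 1)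
  obtain ⟨κ', a, ha, hspan, hli⟩ := exists_linearIndependent' ℚ e
  have hκ' : Finite κ' := Finite.of_injective a ha
  have : Fintype κ' := Fintype.ofFinite κ'
  have htop : Submodule.span ℚ (Set.range e) = ⊤ := by
    have h1 : Set.range e = W.mkQ '' Set.range (fun i => (Pi.single i 1 : ι → ℚ)) := by
      rw [← Set.range_comp]
      rfl
    have h2 : Submodule.span ℚ (Set.range (fun i => (Pi.single i 1 : ι → ℚ))) = ⊤ := by
      have := (Pi.basisFun ℚ ι).span_eq
      rw [← this]
      congr 1
    rw [h1, ← Submodule.map_span, h2, Submodule.map_top, Submodule.range_mkQ]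
  rw [htop] at hspan
  have hcard : Fintype.card κ' + Module.finrank ℚ W = Fintype.card ι := by
    have h1 : Module.finrank ℚ ((ι → ℚ) ⧸ W) = Fintype.card κ' :=
      Module.finrank_eq_card_basis (Module.Basis.mk hli hspan.ge)
    have h2 := W.finrank_quotient_add_finrank
    rw [h1, Module.finrank_pi] at h2
    exact h2
  refine ⟨Finset.univ.image a, ?_, ?_⟩
  · rw [Finset.card_image_of_injective _ ha, Finset.card_univ]
    exact hcard
  · intro i
    have h1 : e i ∈ Submodule.span ℚ (Set.range (e ∘ a)) := by
      rw [hspan]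
      trivial
    rw [Submodule.mem_span_range_iff_exists_fun] at h1
    obtain ⟨c, hc⟩ := h1
    have h2 : (Pi.single i 1 : ι → ℚ) - ∑ k, c k • (Pi.single (a k) 1 : ι → ℚ) ∈ W := by
      rw [← Submodule.Quotient.mk_eq_zero]
      have h3 : W.mkQ ((Pi.single i 1 : ι → ℚ) - ∑ k, c k • (Pi.single (a k) 1 : ι → ℚ)) =
          e i - ∑ k, c k • e (a k) := by
        rw [map_sub, map_sum]
        simp only [map_smul]
        rfl
      have h4 : e i - ∑ k, c k • e (a k) = 0 := by
        rw [← hc]
        simp
      rw [h4] at h3
      exact h3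
    obtain ⟨w, hw, hw2⟩ := h2
    obtain ⟨N, hN, d, hd, h⟩ := hw
    rw [mon_sum] at h
    have hd2 : ∀ i', (d (Sum.inr i') : ℚ) = N * ((Pi.single i 1 : ι → ℚ) i' -
        ∑ k, c k * (Pi.single (a k) 1 : ι → ℚ) i') := by
      intro i'
      rw [hd]
      have h5 := congrFun hw2 i'
      rw [LinearMap.funLeft_apply] at h5
      rw [h5]
      simp [Finset.sum_apply]
    -- the exponents away from the image of `a`
    let g : ι → ℤ := fun i' => (N : ℤ) * (Pi.single i 1 : ι → ℤ) i' - d (Sum.inr i')
    have hg : ∀ i', i' ∉ Finset.univ.image a → g i' = 0 := by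
      intro i' hi'
      have h6 : (g i' : ℚ) = 0 := by
        simp only [g]
        push_cast
        rw [hd2]
        have h7 : ∀ k, (Pi.single (a k) 1 : ι → ℚ) i' = 0 := by
          intro k
          rw [Pi.single_eq_of_ne]
          intro h8
          exact hi' (Finset.mem_image.2 ⟨k, Finset.mem_univ _, h8.symm⟩)
        simp only [h7, mul_zero, Finset.sum_const_zero, sub_zero]
        by_cases h9 : i' = i
        · subst h9
          simp
        · simp [Pi.single_eq_of_ne h9]
      exact_mod_cast h6
    refine ⟨N, hN, Sum.elim (fun j => - d (Sum.inl j)) (fun j => g j), ?_⟩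
    rw [mon_sum]
    simp only [Sum.elim_inl, Sum.elim_inr]
    have h10 : mon (fun j : ((Finset.univ.image a : Finset ι)) => y j) (fun j => g j) = mon y g := by
      rw [mon, mon]
      rw [Finset.prod_coe_sort (Finset.univ.image a) (fun i' => y i' ^ g i')]
      refine Finset.prod_subset (Finset.subset_univ _) fun i' _ hi' => ?_
      rw [hg i' hi', zpow_zero]
    have h11 : mon y g = y i ^ N * (mon y (fun i' => d (Sum.inr i')))⁻¹ := by
      have h12 : g = (N : ℤ) • (Pi.single i 1 : ι → ℤ) + -(fun i' => d (Sum.inr i')) := by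
        funext i'
        simp [g, sub_eq_add_neg]
      have h13 : mon y (Pi.single i 1 : ι → ℤ) = y i := by
        rw [mon, Finset.prod_eq_single i]
        · simp
        · intro j' _ hj'
          rw [Pi.single_eq_of_ne hj', zpow_zero]
        · intro h
          exact absurd (Finset.mem_univ i) h
      rw [h12, mon_add, mon_smul, mon_neg, h13, zpow_natCast]
    have h14 : mon b (fun j => -d (Sum.inl j)) = (mon b (fun j => d (Sum.inl j)))⁻¹ :=
      mon_neg b (fun j => d (Sum.inl j))
    rw [h10, h11, h14]
    have h15 : mon y (fun i' => d (Sum.inr i')) = (mon b (fun j => d (Sum.inl j)))⁻¹ :=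
      eq_inv_of_mul_eq_one_right h
    rw [h15, inv_inv]
    rw [mul_comm (y i ^ N), ← mul_assoc, inv_mul_cancel, one_mul]

end

end Pool.Agent.R948
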