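import Pool.Agent.R948.Pr
import Pool.Agent.R948.Rk

/-!
# The defect of a point and intersections with subtori
-/

set_option autoImplicit false
set_option linter.unusedSectionVars false

namespace Pool.Agent.R948

open MvPolynomial

section

variable {F : Type} [Field F] {ι κ : Type} [Fintype ι] [Fintype κ] {K L : Type} [Field K]
  [Field L] [Algebra F K] [Algebra F L]

/-- the underlying elements of a family of units -/
def un (z : ι → Kˣ) : ι → K := fun i => (z i : K)

/-- the defect of a point of a torus -/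
noncomputable def df (F : Type) [Field F] [Algebra F K] (z : ι → Kˣ) : ℤ :=
  Fintype.card ι - dr z - td F (un z)

/-- binomials -/
noncomputable def binom (ξ : F) (b : ι → ℤ) : MvPolynomial ι F :=
  ∏ i, X i ^ (b i).toNat - C ξ * ∏ i, X i ^ (-b i).toNat

theorem aeval_binom (z : ι → Kˣ) (ξ : F) (b : ι → ℤ) :
    aeval (un z) (binom ξ b) = 0 ↔ ((mon z b : Kˣ) : K) = algebraMap F K ξ := by
  have h1 : mon z b = (∏ i, z i ^ (b i).toNat) * (∏ i, z i ^ (-b i).toNat)⁻¹ := by
    rw [mon, ← Finset.prod_inv_distrib, ← Finset.prod_mul_distrib]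
    refine Finset.prod_congr rfl fun i _ => ?_
    have h2 : b i = ((b i).toNat : ℤ) - ((-b i).toNat : ℤ) := (Int.toNat_sub_toNat_neg (b i)).symm
    conv_lhs => rw [h2]
    rw [zpow_sub, zpow_natCast, zpow_natCast]
  have h2 : aeval (un z) (binom ξ b) = ((∏ i, z i ^ (b i).toNat : Kˣ) : K) -
      algebraMap F K ξ * ((∏ i, z i ^ (-b i).toNat : Kˣ) : K) := by
    rw [binom, map_sub, map_mul, map_prod, map_prod, aeval_C]
    simp [un]
  rw [h2, sub_eq_zero, h1, Units.val_mul, Units.val_inv_eq_inv_val, ← div_eq_mul_inv,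
    div_eq_iff (Units.ne_zero _)]

/-- specialisation of points -/
def Spec (F : Type) [Field F] [Algebra F K] [Algebra F L] (z : ι → Kˣ) (z' : ι → Lˣ) : Prop :=
  ∀ f : MvPolynomial ι F, aeval (un z) f = 0 → aeval (un z') f = 0

theorem Spec.mon {z : ι → Kˣ} {z' : ι → Lˣ} (h : Spec F z z') {b : ι → ℤ} {ξ : F}
    (hb : ((R948.mon z b : Kˣ) : K) = algebraMap F K ξ) :
    ((R948.mon z' b : Lˣ) : L) = algebraMap F L ξ :=
  (aeval_binom z' ξ b).1 (h _ ((aeval_binom z ξ b).2 hb))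

theorem Spec.rel_le {z : ι → Kˣ} {z' : ι → Lˣ} (h : Spec F z z') : rel z ≤ rel z' := by
  rintro a ⟨N, hN, b, hb, h1⟩
  refine ⟨N, hN, b, hb, ?_⟩
  have h2 := h.mon (b := b) (ξ := 1) (by rw [h1, map_one, Units.val_one])
  rw [map_one] at h2
  exact Units.ext h2

theorem Spec.dr_le {z : ι → Kˣ} {z' : ι → Lˣ} (h : Spec F z z') : dr z ≤ dr z' :=
  Submodule.finrank_mono h.rel_le

theorem Spec.td_le {z : ι → Kˣ} {z' : ι → Lˣ} (h : Spec F z z') : td F (un z') ≤ td F (un z) :=
  td_le_of_ker F h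

/-- torus points of the spectrum -/
structure TP (F ι : Type) [Field F] where
  I : Ideal (MvPolynomial ι F)
  prime : I.IsPrime
  tor : ∀ i, X i ∉ I

namespace TP

instance (P : TP F ι) : P.I.IsPrime := P.prime

/-- the field of a prime ideal -/
abbrev fld (P : TP F ι) : Type := FractionRing (MvPolynomial ι F ⧸ P.I)

theorem aux (P : TP F ι) (i : ι) :
    algebraMap (MvPolynomial ι F ⧸ P.I) P.fld (cp P.I i) ≠ 0 := by
  rw [Ne, map_eq_zero_iff _ (IsFractionRing.injective _ _)]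
  have h : cp P.I i = Ideal.Quotient.mk P.I (X i) := rfl
  rw [h, Ideal.Quotient.eq_zero_iff_mem]
  exact P.tor i

/-- the generic point -/
noncomputable def pt (P : TP F ι) : ι → P.fldˣ := fun i => Units.mk0 _ (P.aux i)

theorem aeval_pt (P : TP F ι) (f : MvPolynomial ι F) :
    aeval (un P.pt) f = algebraMap (MvPolynomial ι F ⧸ P.I) P.fld (Ideal.Quotient.mk P.I f) := by
  rw [← aeval_cp]
  have h : un P.pt = fun i => algebraMap (MvPolynomial ι F ⧸ P.I) P.fld (cp P.I i) := rfl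
  rw [h]
  exact aeval_algebraMap_apply _ _ _

theorem aeval_pt_eq_zero (P : TP F ι) (f : MvPolynomial ι F) :
    aeval (un P.pt) f = 0 ↔ f ∈ P.I := by
  rw [aeval_pt, map_eq_zero_iff _ (IsFractionRing.injective _ _), Ideal.Quotient.eq_zero_iff_mem]

theorem td_pt (P : TP F ι) : td F (un P.pt) = tdP P.I :=
  le_antisymm (td_le_tdP P.I _ fun f hf => (P.aeval_pt_eq_zero f).2 hf)
    (tdP_le_td P.I _ fun f hf => (P.aeval_pt_eq_zero f).1 hf)

/-- the defect -/
noncomputable def df (P : TP F ι) : ℤ := R948.df F P.pt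

/-- the prime of a point -/
noncomputable def ofPt (z : ι → Kˣ) : TP F ι where
  I := RingHom.ker (aeval (un z) : MvPolynomial ι F →ₐ[F] K)
  prime := RingHom.ker_isPrime _
  tor := fun i hi => by
    rw [RingHom.mem_ker] at hi
    simp only [aeval_X] at hi
    exact (z i).ne_zero hi

theorem mem_ofPt (z : ι → Kˣ) (f : MvPolynomial ι F) :
    f ∈ (ofPt z : TP F ι).I ↔ aeval (un z) f = 0 := Iff.rfl

/-- the defect of a point only depends on its prime -/
theorem df_eq_of_spec {z : ι → Kˣ} {z' : ι → Lˣ} (h : Spec F z z') (h' : Spec F z' z) :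
    R948.df F z = R948.df F z' := by
  rw [R948.df, R948.df, le_antisymm h.dr_le h'.dr_le, le_antisymm h.td_le h'.td_le]

theorem df_ofPt (z : ι → Kˣ) : (ofPt z : TP F ι).df = R948.df F z :=
  df_eq_of_spec (fun f hf => by
    rwa [aeval_pt_eq_zero, mem_ofPt] at hf) (fun f hf => by
    rwa [aeval_pt_eq_zero, mem_ofPt])

theorem spec_of_le {P Q : TP F ι} (h : P.I ≤ Q.I) : Spec F P.pt Q.pt := fun f hf => by
  rw [aeval_pt_eq_zero] at hf ⊢
  exact h hf

end TP

/-- the binomial is in the ideal -/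
theorem binom_mem (P : TP F ι) (ξ : F) (b : ι → ℤ) :
    binom ξ b ∈ P.I ↔ ((mon P.pt b : P.fldˣ) : P.fld) = algebraMap F P.fld ξ := by
  rw [← aeval_binom, P.aeval_pt_eq_zero]

theorem mem_range_of_integral [IsAlgClosed F] {x : K} (hx : IsIntegral F x) :
    ∃ ξ : F, x = algebraMap F K ξ := by
  refine ⟨-(minpoly F x).coeff 0, ?_⟩
  have hq : (minpoly F x).leadingCoeff = 1 := minpoly.monic hx
  have h : (minpoly F x).degree = 1 :=
    IsAlgClosed.degree_eq_one_of_irreducible F (minpoly.irreducible hx)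
  have h2 : Polynomial.aeval x (minpoly F x) = 0 := minpoly.aeval F x
  rw [Polynomial.eq_X_add_C_of_degree_eq_one h, hq, Polynomial.C_1, one_mul, Polynomial.aeval_add,
    Polynomial.aeval_X, Polynomial.aeval_C, add_eq_zero_iff_eq_neg] at h2
  rw [map_neg]
  exact h2

/-- roots of unity in extensions of algebraically closed fields -/
theorem root_mem [IsAlgClosed F] {x : K} {N : ℕ} (hN : 0 < N) (hx : x ^ N = 1) :
    ∃ ξ : F, ξ ^ N = 1 ∧ x = algebraMap F K ξ := by
  have h1 : IsIntegral F x := ⟨Polynomial.X ^ N - 1, Polynomial.monic_X_pow_sub_C 1 hN.ne', by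
    simp [hx]⟩
  obtain ⟨ξ, rfl⟩ := mem_range_of_integral h1
  refine ⟨ξ, ?_, rfl⟩
  rw [← map_pow, ← map_one (algebraMap F K)] at hx
  exact (algebraMap F K).injective hx

theorem cut_step [IsAlgClosed F] (P Q₀ : TP F ι) (hle : P.I ≤ Q₀.I) (b : ι → ℤ) (ξ : F)
    (hξ : ∃ N : ℕ, 0 < N ∧ ξ ^ N = 1) (hf : binom ξ b ∈ Q₀.I) :
    ∃ Q : TP F ι, Q.I ∈ (P.I ⊔ Ideal.span {binom ξ b}).minimalPrimes ∧ Q.I ≤ Q₀.I ∧
      Q.df ≤ P.df := by
  have hsup : P.I ⊔ Ideal.span {binom ξ b} ≤ Q₀.I :=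
    sup_le hle ((Ideal.span_singleton_le_iff_mem _).2 hf)
  obtain ⟨J, hJ, hJle⟩ := Ideal.exists_minimalPrimes_le hsup
  obtain ⟨Q, rfl⟩ : ∃ Q : TP F ι, Q.I = J :=
    ⟨⟨J, hJ.1.1, fun i hi => Q₀.tor i (hJle hi)⟩, rfl⟩
  refine ⟨Q, hJ, hJle, ?_⟩
  have hPQ : P.I ≤ Q.I := le_sup_left.trans hJ.1.2
  have hs := TP.spec_of_le hPQ
  by_cases hbP : binom ξ b ∈ P.I
  · have h1 : P.I ⊔ Ideal.span {binom ξ b} = P.I :=
      sup_eq_left.2 ((Ideal.span_singleton_le_iff_mem _).2 hbP)
    have h2 : Q.I ∈ ({P.I} : Set (Ideal (MvPolynomial ι F))) := by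
      rw [← Ideal.minimalPrimes_eq_subsingleton_self, ← h1]
      exact hJ
    have h3 : Q = P := by
      cases P
      cases Q
      simp only [Set.mem_singleton_iff] at h2
      subst h2
      rfl
    rw [h3]
  · have hbQ : binom ξ b ∈ Q.I := hJ.1.2 (le_sup_right (a := P.I)
      (Ideal.mem_span_singleton_self _))
    obtain ⟨N, hN, hξN⟩ := hξ
    have h1 : (fun i => (b i : ℚ)) ∈ rel Q.pt := by
      rw [mem_rel_int]
      refine ⟨N, hN, ?_⟩
      rw [binom_mem] at hbQ
      apply Units.ext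
      rw [Units.val_pow_eq_pow_val, hbQ, ← map_pow, hξN, map_one, Units.val_one]
    have h2 : (fun i => (b i : ℚ)) ∉ rel P.pt := by
      intro h3
      rw [mem_rel_int] at h3
      obtain ⟨M, hM, h4⟩ := h3
      have h5 : ((mon P.pt b : P.fldˣ) : P.fld) ^ M = 1 := by
        rw [← Units.val_pow_eq_pow_val, h4, Units.val_one]
      obtain ⟨ξ', -, hξ'⟩ := root_mem (F := F) hM h5
      have h6 : binom ξ' b ∈ P.I := (binom_mem P ξ' b).2 hξ'
      have h7 := (binom_mem Q₀ ξ' b).1 (hle h6)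
      have h8 := (binom_mem Q₀ ξ b).1 hf
      rw [h7] at h8
      rw [(algebraMap F Q₀.fld).injective h8] at h6
      exact hbP h6
    have h3 : dr P.pt < dr Q.pt := by
      refine Submodule.finrank_lt_finrank_of_lt (lt_of_le_of_ne hs.rel_le fun h4 => h2 ?_)
      rw [h4]
      exact h1
    have h4 : tdP P.I ≤ tdP Q.I + 1 := tdP_drop _ hJ
    rw [TP.df, TP.df, df, df, TP.td_pt, TP.td_pt]
    omega

end

end Pool.Agent.R948
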