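import Pool.Agent.R948.Cut

/-!
# Properties of the defect
-/

set_option autoImplicit false
set_option linter.unusedSectionVars false

namespace Pool.Agent.R948

open MvPolynomial

section

variable {F : Type} [Field F] {ι κ : Type} [Fintype ι] [Fintype κ] {K L : Type} [Field K]
  [Field L] [Algebra F K] [Algebra F L]

/-- components of iterated sections by binomials -/
noncomputable def cutset : Ideal (MvPolynomial ι F) → List ((ι → ℤ) × F) →
    Set (Ideal (MvPolynomial ι F))
  | P, [] => {P}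
  | P, e :: l => ⋃ Q ∈ (P ⊔ Ideal.span {binom e.2 e.1}).minimalPrimes, cutset Q l

theorem cutset_finite (l : List ((ι → ℤ) × F)) :
    ∀ P : Ideal (MvPolynomial ι F), (cutset P l).Finite := by
  induction l with
  | nil => intro P; exact Set.finite_singleton P
  | cons e l ih =>
    intro P
    exact (Ideal.finite_minimalPrimes_of_isNoetherianRing _ _).biUnion fun Q _ => ih Q

theorem cut [IsAlgClosed F] (l : List ((ι → ℤ) × F)) : ∀ (P Q₀ : TP F ι), P.I ≤ Q₀.I →
    (∀ e ∈ l, (∃ N : ℕ, 0 < N ∧ e.2 ^ N = 1) ∧ binom e.2 e.1 ∈ Q₀.I) →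
    ∃ Q : TP F ι, Q.I ∈ cutset P.I l ∧ P.I ≤ Q.I ∧ Q.I ≤ Q₀.I ∧
      (∀ e ∈ l, binom e.2 e.1 ∈ Q.I) ∧ Q.df ≤ P.df := by
  induction l with
  | nil =>
    intro P Q₀ h _
    exact ⟨P, rfl, le_rfl, h, by simp, le_rfl⟩
  | cons e l ih =>
    intro P Q₀ h he
    obtain ⟨Q₁, h1, h2, h3⟩ := cut_step P Q₀ h e.1 e.2 (he e (by simp)).1 (he e (by simp)).2
    have hPQ₁ : P.I ≤ Q₁.I := le_sup_left.trans h1.1.2
    obtain ⟨Q, h4, h5, h6, h7, h8⟩ := ih Q₁ Q₀ h2 (fun e' he' => he e' (by simp [he']))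
    refine ⟨Q, ?_, hPQ₁.trans h5, h6, ?_, h8.trans h3⟩
    · exact Set.mem_biUnion h1 h4
    · intro e' he'
      rcases List.mem_cons.1 he' with rfl | he'
      · exact h5 (h1.1.2 (le_sup_right (a := P.I) (Ideal.mem_span_singleton_self _)))
      · exact h7 e' he'

theorem un_sum (b : κ → Kˣ) (y : ι → Kˣ) : un (Sum.elim b y) = Sum.elim (un b) (un y) := by
  funext k
  rcases k with j | i <;> rfl

theorem alg_of_zpow (w : κ → Kˣ) (y : Kˣ) (N : ℕ) (hN : 0 < N) (c : κ → ℤ)
    (h : y ^ N = mon w c) : IsAlgebraic (Algebra.adjoin F (Set.range (un w))) (y : K) := by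
  have hmem : ∀ g : κ → ℕ, ∏ i, un w i ^ g i ∈ Algebra.adjoin F (Set.range (un w)) := fun g =>
    Subalgebra.prod_mem _ fun i _ => Subalgebra.pow_mem _
      (Algebra.subset_adjoin (Set.mem_range_self i)) _
  let P : Algebra.adjoin F (Set.range (un w)) := ⟨∏ i, un w i ^ (-c i).toNat, hmem _⟩
  let Q : Algebra.adjoin F (Set.range (un w)) := ⟨∏ i, un w i ^ (c i).toNat, hmem _⟩
  have hP0 : P ≠ 0 := by
    intro h0
    have h1 : (∏ i, un w i ^ (-c i).toNat : K) = 0 := congrArg Subtype.val h0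
    rw [Finset.prod_eq_zero_iff] at h1
    obtain ⟨i, -, hi⟩ := h1
    exact (w i).ne_zero (eq_zero_of_pow_eq_zero hi)
  have h1 : mon w c = (∏ i, w i ^ (c i).toNat) * (∏ i, w i ^ (-c i).toNat)⁻¹ := by
    rw [mon, ← Finset.prod_inv_distrib, ← Finset.prod_mul_distrib]
    refine Finset.prod_congr rfl fun i _ => ?_
    have h2 : c i = ((c i).toNat : ℤ) - ((-c i).toNat : ℤ) := (Int.toNat_sub_toNat_neg (c i)).symm
    conv_lhs => rw [h2]
    rw [zpow_sub, zpow_natCast, zpow_natCast]
  have h2 : (y : K) ^ N * (P : K) = (Q : K) := by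
    rw [h1] at h
    have h3 : y ^ N * (∏ i, w i ^ (-c i).toNat) = ∏ i, w i ^ (c i).toNat := by
      rw [h, mul_assoc, inv_mul_cancel, mul_one]
    have h4 := congrArg (fun u : Kˣ => (u : K)) h3
    simpa [P, Q, un] using h4
  refine ⟨Polynomial.C P * Polynomial.X ^ N - Polynomial.C Q, ?_, ?_⟩
  · intro h0
    have h3 := congrArg (fun p => Polynomial.coeff p N) h0
    simp only [Polynomial.coeff_sub, Polynomial.coeff_C_mul, Polynomial.coeff_X_pow, if_true,
      mul_one, Polynomial.coeff_zero, Polynomial.coeff_C_of_ne_zero hN.ne', sub_zero] at h3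
    exact hP0 h3
  · simp only [map_sub, map_mul, map_pow, Polynomial.aeval_X, Polynomial.aeval_C]
    have h3 : (algebraMap (Algebra.adjoin F (Set.range (un w))) K) P * (y : K) ^ N -
        (algebraMap (Algebra.adjoin F (Set.range (un w))) K) Q = (P : K) * (y : K) ^ N - (Q : K) :=
      rfl
    rw [h3, mul_comm, h2, sub_self]

/-- forgetting coordinates does not increase the defect -/
theorem df_le_sum (b : κ → Kˣ) (y : ι → Kˣ) : df F b ≤ df F (Sum.elim b y) := by
  classical
  obtain ⟨J, hJ, hJ2⟩ := rank_ext b y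
  let w : κ ⊕ J → Kˣ := Sum.elim b (fun j : J => y j)
  have h1 : td F (un (Sum.elim b y)) ≤ td F (un w) := by
    refine td_le_of_alg F fun k => ?_
    rcases k with j | i
    · have h2 : un (Sum.elim b y) (Sum.inl j) ∈ Algebra.adjoin F (Set.range (un w)) :=
        Algebra.subset_adjoin ⟨Sum.inl j, rfl⟩
      exact isAlgebraic_algebraMap (A := K)
        (⟨_, h2⟩ : Algebra.adjoin F (Set.range (un w)))
    · obtain ⟨N, hN, c, hc⟩ := hJ2 i
      exact alg_of_zpow w (y i) N hN c hc
  have h2 : td F (un w) ≤ td F (un b) + J.card := by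
    have h3 : Set.range (un w) = Set.range (un b) ∪ (un y '' J) := by
      ext a
      constructor
      · rintro ⟨k, rfl⟩
        rcases k with j | j
        · exact Or.inl ⟨j, rfl⟩
        · exact Or.inr ⟨j, j.2, rfl⟩
      · rintro (⟨j, rfl⟩ | ⟨j, hj, rfl⟩)
        · exact ⟨Sum.inl j, rfl⟩
        · exact ⟨Sum.inr ⟨j, hj⟩, rfl⟩
    have h4 := (AlgebraicIndependent.matroid F K).eRk_union_le_eRk_add_encard
      (Set.range (un b)) (un y '' J)
    rw [← h3, ← td_spec, ← td_spec] at h4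
    have h5 : (un y '' (J : Set ι)).encard ≤ J.card := by
      refine (Set.encard_image_le _ _).trans ?_
      rw [Set.encard_coe_eq_coe_finsetCard]
    have h6 := h4.trans (add_le_add_right h5 _)
    exact_mod_cast h6
  have h3 := dr_sum b y
  rw [df, df, Fintype.card_sum]
  omega

/-- adding coordinates which are torsion multiples of monomials -/
theorem df_sum_le (y : ι → Kˣ) (b : κ → Kˣ) (m : κ → ι → ℤ) (t : κ → Kˣ)
    (ht : ∀ j, ∃ N : ℕ, 0 < N ∧ t j ^ N = 1) (hb : ∀ j, b j = t j * mon y (m j)) :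
    df F (Sum.elim y b) ≤ df F y := by
  have h1 := le_dr_sum y b m t ht hb
  have h2 : td F (un y) ≤ td F (un (Sum.elim y b)) := by
    refine td_le_of_alg F fun i => ?_
    have h2 : un y i ∈ Algebra.adjoin F (Set.range (un (Sum.elim y b))) :=
      Algebra.subset_adjoin ⟨Sum.inl i, rfl⟩
    exact isAlgebraic_algebraMap (A := K)
      (⟨_, h2⟩ : Algebra.adjoin F (Set.range (un (Sum.elim y b))))
  rw [df, df, Fintype.card_sum]
  omega

/-- projections and specialisations -/
theorem df_proj (x : ι → Kˣ) (t : κ → Kˣ) (x' : ι → Lˣ) (t' : κ → Lˣ)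
    (hs : Spec F (Sum.elim x t) (Sum.elim x' t'))
    (ht : ∀ j, IsAlgebraic (Algebra.adjoin F (Set.range (un x))) (un t j))
    (h : df F (Sum.elim x t) ≤ df F (Sum.elim x' t')) : df F x ≤ df F x' := by
  have h1 := dr_sum x t
  have h2 := dr_sum x' t'
  have h3 : Module.finrank ℚ (relProj x t) ≤ Module.finrank ℚ (relProj x' t') :=
    Submodule.finrank_mono (Submodule.map_mono hs.rel_le)
  have h4 : td F (un (Sum.elim x t)) ≤ td F (un x) := by
    refine td_le_of_alg F fun k => ?_
    rcases k with i | j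
    · have h5 : un x i ∈ Algebra.adjoin F (Set.range (un x)) := Algebra.subset_adjoin ⟨i, rfl⟩
      exact isAlgebraic_algebraMap (A := K) (⟨_, h5⟩ : Algebra.adjoin F (Set.range (un x)))
    · exact ht j
  have h5 : td F (un x') ≤ td F (un (Sum.elim x' t')) := by
    refine td_le_of_alg F fun i => ?_
    have h6 : un x' i ∈ Algebra.adjoin F (Set.range (un (Sum.elim x' t'))) :=
      Algebra.subset_adjoin ⟨Sum.inl i, rfl⟩
    exact isAlgebraic_algebraMap (A := L)
      (⟨_, h6⟩ : Algebra.adjoin F (Set.range (un (Sum.elim x' t'))))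
  rw [df, df, Fintype.card_sum] at h
  rw [df, df]
  omega

end

end Pool.Agent.R948
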