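import Mathlib

/-!
# The dimension of the components of a principal section drops by at most one
-/

set_option autoImplicit false
set_option linter.style.haveILetI false

namespace Pool.Agent.R948

open MvPolynomial

/-- the quotient of a polynomial ring by a nonzero principal prime ideal -/
theorem trdeg_quot_span {F : Type} [Field F] {s : ℕ} (h : MvPolynomial (Fin s) F) (h0 : h ≠ 0)
    (hp : (Ideal.span {h}).IsPrime) :
    (s : Cardinal) ≤ Algebra.trdeg F (MvPolynomial (Fin s) F ⧸ Ideal.span {h}) + 1 := by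
  classical
  have hvars : ∃ i, i ∈ h.vars := by
    by_contra hcon
    push Not at hcon
    have h1 : h.vars = ∅ := Finset.eq_empty_of_forall_notMem hcon
    rw [vars_eq_empty_iff_eq_C] at h1
    apply hp.ne_top
    rw [Ideal.span_singleton_eq_top, h1]
    refine IsUnit.map C (isUnit_iff_ne_zero.2 ?_)
    intro h2
    rw [h2, C_0] at h1
    exact h0 h1
  obtain ⟨i, hi⟩ := hvars
  have hdeg : h.degreeOf i ≠ 0 := mem_vars_iff_degreeOf_ne_zero.1 hi
  have hai : AlgebraicIndependent F (fun j : {j : Fin s // j ≠ i} =>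
      (Ideal.Quotient.mk (Ideal.span {h}) (X j.1) : MvPolynomial (Fin s) F ⧸ Ideal.span {h})) := by
    rw [algebraicIndependent_iff]
    intro p hp0
    have h1 : aeval (fun j : {j : Fin s // j ≠ i} =>
      (Ideal.Quotient.mk (Ideal.span {h}) (X j.1) : MvPolynomial (Fin s) F ⧸ Ideal.span {h})) p =
        Ideal.Quotient.mk (Ideal.span {h}) (rename Subtype.val p) := by
      rw [← Ideal.Quotient.mkₐ_eq_mk F, rename_eq_aeval, ← AlgHom.comp_apply]
      congr 1
      ext j
      simp
    rw [h1, Ideal.Quotient.eq_zero_iff_mem, Ideal.mem_span_singleton] at hp0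
    obtain ⟨r, hr⟩ := hp0
    by_contra hne
    have h2 : rename Subtype.val p ≠ (0 : MvPolynomial (Fin s) F) := fun h3 =>
      hne (rename_injective _ Subtype.val_injective (by rw [h3, map_zero]))
    have hr0 : r ≠ 0 := by
      rintro rfl
      rw [mul_zero] at hr
      exact h2 hr
    have h3 := degreeOf_mul_eq (n := i) h0 hr0
    rw [← hr] at h3
    have h4 : degreeOf i (rename Subtype.val p : MvPolynomial (Fin s) F) = 0 := by
      by_contra h5
      have h6 := mem_vars_iff_degreeOf_ne_zero.2 h5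
      have h7 := vars_rename _ _ h6
      rw [Finset.mem_image] at h7
      obtain ⟨j, -, hj⟩ := h7
      exact j.2 hj
    omega
  have h1 := hai.cardinalMk_le_trdeg
  have h2 : Cardinal.mk {j : Fin s // j ≠ i} = ((s - 1 : ℕ) : Cardinal) := by
    rw [Cardinal.mk_fintype, Fintype.card_subtype_compl, Fintype.card_fin,
      Fintype.card_subtype_eq]
  rw [h2] at h1
  have hs : 0 < s := i.pos
  calc (s : Cardinal) = ((s - 1 : ℕ) : Cardinal) + 1 := by
        rw [← Nat.cast_succ]
        congr 1
        omega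
    _ ≤ _ := by gcongr

theorem trdeg_le_of_minimal {F A : Type} [Field F] [CommRing A] [IsDomain A] [Algebra F A]
    [Algebra.FiniteType F A] (f : A) (Q : Ideal A) (hQ : Q ∈ (Ideal.span {f}).minimalPrimes) :
    Algebra.trdeg F A ≤ Algebra.trdeg F (A ⧸ Q) + 1 := by
  classical
  have hQp : Q.IsPrime := hQ.1.1
  obtain ⟨s, g, hg1, hg2⟩ := exists_integral_inj_algHom_of_fg F A
  letI : Algebra (MvPolynomial (Fin s) F) A := g.toRingHom.toAlgebra
  haveI : IsScalarTower F (MvPolynomial (Fin s) F) A :=
    IsScalarTower.of_algebraMap_eq fun x => (g.commutes x).symm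
  haveI : Algebra.IsIntegral (MvPolynomial (Fin s) F) A := ⟨hg2⟩
  haveI hft : FaithfulSMul (MvPolynomial (Fin s) F) A :=
    (faithfulSMul_iff_algebraMap_injective _ _).2 hg1
  haveI : IsNoetherianRing A := Algebra.FiniteType.isNoetherianRing F A
  -- the transcendence degree of `A`
  have hA : Algebra.trdeg F A = s := by
    have h1 : Algebra.trdeg F (MvPolynomial (Fin s) F) + Algebra.trdeg (MvPolynomial (Fin s) F) A =
      Algebra.trdeg F A := trdeg_add_eq F (MvPolynomial (Fin s) F)
    have h2 : Algebra.trdeg (MvPolynomial (Fin s) F) A = 0 := trdeg_eq_zero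
    rw [← h1, h2, add_zero, MvPolynomial.trdeg_of_isDomain]
    simp
  by_cases hbot : Q = ⊥
  · subst hbot
    have e := (AlgEquiv.quotientBot F A).trdeg_eq
    rw [e]
    exact le_self_add
  have hht : Q.height ≤ 1 := Ideal.height_le_one_of_isPrincipal_of_mem_minimalPrimes _ Q hQ
  let p : Ideal (MvPolynomial (Fin s) F) := Q.comap (algebraMap _ A)
  have hpp : p.IsPrime := Ideal.comap_isPrime _ _
  have hlo : Q.LiesOver p := ⟨rfl⟩
  have hgd := Ideal.height_eq_height_add_of_liesOver_of_hasGoingDown p Q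
  have hp1 : p.height ≤ 1 := by
    refine le_trans ?_ hht
    rw [hgd]
    exact le_self_add
  have hpb : p ≠ ⊥ := by
    obtain ⟨x, hx, hx0⟩ := Submodule.exists_mem_ne_zero_of_ne_bot hbot
    exact Ideal.comap_ne_bot_of_integral_mem hx0 hx (Algebra.IsIntegral.isIntegral x)
  have hp2 : p.height = 1 := by
    refine le_antisymm hp1 ?_
    rw [Order.one_le_iff_pos, pos_iff_ne_zero, Ne, Ideal.height_eq_zero_iff_eq_bot]
    exact hpb
  have hpr := UniqueFactorizationMonoid.isPrincipal_of_height_eq_one hp2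
  obtain ⟨h, hh⟩ := hpr
  have hh : p = Ideal.span {h} := hh
  have hmem : ∀ a, a ∈ Ideal.span {h} ↔ g a ∈ Q := by
    intro a
    rw [← hh]
    rfl
  have h0 : h ≠ 0 := by
    rintro rfl
    apply hpb
    rw [hh]
    simp
  have hpp' : (Ideal.span {h}).IsPrime := by
    rw [← hh]
    exact hpp
  have h1 := trdeg_quot_span h h0 hpp'
  let φ : (MvPolynomial (Fin s) F ⧸ Ideal.span {h}) →ₐ[F] (A ⧸ Q) :=
    Ideal.Quotient.liftₐ (Ideal.span {h}) ((Ideal.Quotient.mkₐ F Q).comp g) (by
      intro a ha
      rw [AlgHom.comp_apply, Ideal.Quotient.mkₐ_eq_mk, Ideal.Quotient.eq_zero_iff_mem]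
      exact (hmem a).1 ha)
  have hφ : Function.Injective φ := by
    rw [injective_iff_map_eq_zero]
    intro a
    obtain ⟨a, rfl⟩ := Ideal.Quotient.mk_surjective a
    intro ha
    have h2 : φ (Ideal.Quotient.mk _ a) = Ideal.Quotient.mk Q (g a) := rfl
    rw [h2, Ideal.Quotient.eq_zero_iff_mem] at ha
    rw [Ideal.Quotient.eq_zero_iff_mem]
    exact (hmem a).2 ha
  have h2 := trdeg_le_of_injective φ hφ
  rw [hA]
  refine h1.trans ?_
  gcongr

end Pool.Agent.R948
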