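import Pool.Agent.R948.Z

/-!
# Encoding of systems of equations in powers of the line `x + y = 1`
-/

set_option autoImplicit false
set_option linter.unusedSectionVars false
set_option linter.style.haveILetI false

namespace Pool.Agent.R948

open MvPolynomial

section

variable {F : Type} [Field F] {ι κ : Type} [Fintype ι] [Fintype κ] {K L : Type} [Field K]
  [Field L] [Algebra F K] [Algebra F L]

/-- Laurent polynomials as lists -/
noncomputable def lev (l : List ((ι → ℤ) × F)) (y : ι → Kˣ) : K :=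
  (l.map fun e => algebraMap F K e.2 * ((mon y e.1 : Kˣ) : K)).sum

theorem lev_nil (y : ι → Kˣ) : lev ([] : List ((ι → ℤ) × F)) y = 0 := rfl

theorem lev_cons (e : (ι → ℤ) × F) (l : List ((ι → ℤ) × F)) (y : ι → Kˣ) :
    lev (e :: l) y = algebraMap F K e.2 * ((mon y e.1 : Kˣ) : K) + lev l y := by
  simp [lev]

theorem exists_bound (l : List ((ι → ℤ) × F)) : ∃ N : ℕ, ∀ e ∈ l, ∀ i, 0 ≤ e.1 i + N := by
  classical
  induction l with
  | nil => exact ⟨0, by simp⟩
  | cons e l ih =>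
    obtain ⟨N, hN⟩ := ih
    refine ⟨N + ∑ i, (e.1 i).natAbs, fun e' he' i => ?_⟩
    push_cast
    rcases List.mem_cons.1 he' with rfl | he'
    · have h1 : |e'.1 i| ≤ ∑ i, |e'.1 i| :=
        Finset.single_le_sum (f := fun i => |e'.1 i|) (fun _ _ => abs_nonneg _)
          (Finset.mem_univ i)
      have h3 := neg_abs_le (e'.1 i)
      have h4 : (0 : ℤ) ≤ N := by positivity
      linarith
    · have h1 := hN e' he' i
      have h2 : (0 : ℤ) ≤ ∑ i, |e.1 i| := Finset.sum_nonneg fun _ _ => abs_nonneg _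
      linarith

/-- the polynomial of a Laurent polynomial -/
noncomputable def lpol (N : ℕ) (l : List ((ι → ℤ) × F)) : MvPolynomial ι F :=
  (l.map fun e => C e.2 * ∏ i, X i ^ (e.1 i + (N : ℤ)).toNat).sum

theorem aeval_lpol (N : ℕ) (l : List ((ι → ℤ) × F)) (hN : ∀ e ∈ l, ∀ i, 0 ≤ e.1 i + N)
    (y : ι → Kˣ) :
    aeval (un y) (lpol N l) = ((mon y (fun _ => (N : ℤ)) : Kˣ) : K) * lev l y := by
  induction l with
  | nil => simp [lpol, lev]
  | cons e l ih =>
    have h1 : lpol N (e :: l) = C e.2 * ∏ i, X i ^ (e.1 i + (N : ℤ)).toNat + lpol N l := by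
      simp [lpol]
    have h2 : aeval (un y) (∏ i, X i ^ (e.1 i + (N : ℤ)).toNat : MvPolynomial ι F) =
        ((mon y (fun _ => (N : ℤ)) : Kˣ) : K) * ((mon y e.1 : Kˣ) : K) := by
      rw [← Units.val_mul, ← mon_add, map_prod]
      rw [mon, Units.coe_prod]
      refine Finset.prod_congr rfl fun i _ => ?_
      have h3 := hN e (by simp) i
      rw [map_pow, aeval_X]
      have h4 : ((fun _ : ι => (N : ℤ)) + e.1) i = (((e.1 i + (N : ℤ)).toNat : ℕ) : ℤ) := by
        rw [Pi.add_apply, Int.toNat_of_nonneg h3, add_comm]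
      rw [h4, zpow_natCast]
      rfl
    rw [h1, map_add, map_mul, aeval_C, ih (fun e' he' => hN e' (by simp [he'])), lev_cons, h2]
    ring

theorem Spec.lev {z : ι → Kˣ} {z' : ι → Lˣ} (h : Spec F z z') {l : List ((ι → ℤ) × F)}
    (hl : R948.lev l z = 0) : R948.lev l z' = 0 := by
  obtain ⟨N, hN⟩ := exists_bound l
  have h1 := h (lpol N l) (by rw [aeval_lpol N l hN, hl, mul_zero])
  rw [aeval_lpol N l hN] at h1
  exact (mul_eq_zero.1 h1).resolve_left (Units.ne_zero _)

/-- a system of equations: Laurent polynomials all of whose coefficients are roots of unity,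
binomials, and three term equations -/
structure Sys (F ι : Type) [Field F] where
  /-- three term equations `a y ^ m + b y ^ n = 1` -/
  three : List (((ι → ℤ) × Fˣ) × ((ι → ℤ) × Fˣ))
  /-- binomials -/
  two : List ((ι → ℤ) × Fˣ)
  /-- other equations -/
  rest : List (List ((ι → ℤ) × Fˣ))

/-- torsion coefficients -/
def Tor (t : Fˣ) : Prop := ∃ N : ℕ, 0 < N ∧ t ^ N = 1

theorem Tor.inv {t : Fˣ} (h : Tor t) : Tor t⁻¹ := by
  obtain ⟨N, hN, h⟩ := h
  exact ⟨N, hN, by rw [inv_pow, h, inv_one]⟩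

theorem Tor.mul {s t : Fˣ} (h : Tor s) (h' : Tor t) : Tor (s * t) := by
  obtain ⟨N, hN, h⟩ := h
  obtain ⟨N', hN', h'⟩ := h'
  exact ⟨N * N', Nat.mul_pos hN hN', by rw [mul_pow, pow_mul, h, mul_comm N, pow_mul, h']; simp⟩

theorem Tor.neg {t : Fˣ} (h : Tor t) : Tor (-t) := by
  rw [← neg_one_mul]
  exact Tor.mul ⟨2, two_pos, by simp⟩ h

/-- forgetting that coefficients are units -/
def fc (l : List ((ι → ℤ) × Fˣ)) : List ((ι → ℤ) × F) := l.map fun e => (e.1, (e.2 : F))

/-- all coefficients are roots of unity -/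
def Sys.Good (S : Sys F ι) : Prop :=
  (∀ e ∈ S.three, Tor e.1.2 ∧ Tor e.2.2) ∧ (∀ e ∈ S.two, Tor e.2) ∧
    ∀ l ∈ S.rest, ∀ e ∈ l, Tor e.2

/-- solutions of a system -/
def Sys.Sat (S : Sys F ι) (y : ι → Kˣ) : Prop :=
  (∀ e ∈ S.three, algebraMap F K e.1.2 * ((mon y e.1.1 : Kˣ) : K) +
    algebraMap F K e.2.2 * ((mon y e.2.1 : Kˣ) : K) = 1) ∧
  (∀ e ∈ S.two, ((mon y e.1 : Kˣ) : K) = algebraMap F K e.2) ∧
  ∀ l ∈ S.rest, lev (fc l) y = 0

theorem Sys.Sat.spec {S : Sys F ι} {z : ι → Kˣ} {z' : ι → Lˣ} (hS : S.Sat z) (h : Spec F z z') :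
    S.Sat z' := by
  obtain ⟨h1, h2, h3⟩ := hS
  refine ⟨fun e he => ?_, fun e he => h.mon (h2 e he), fun l hl => h.lev (h3 l hl)⟩
  have h4 : ∀ (K : Type) [Field K] [Algebra F K] (y : ι → Kˣ),
      lev [(e.1.1, (e.1.2 : F)), (e.2.1, (e.2.2 : F)), (0, (-1 : F))] y =
      algebraMap F K e.1.2 * ((mon y e.1.1 : Kˣ) : K) +
        algebraMap F K e.2.2 * ((mon y e.2.1 : Kˣ) : K) - 1 := by
    intro K _ _ y
    rw [lev_cons, lev_cons, lev_cons, lev_nil, mon_zero]
    simp only [map_neg, map_one, Units.val_one, mul_one, add_zero]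
    ring
  have h5 := h.lev (l := [(e.1.1, (e.1.2 : F)), (e.2.1, (e.2.2 : F)), (0, (-1 : F))])
    (by rw [h4, h1 e he, sub_self])
  rw [h4] at h5
  exact sub_eq_zero.1 h5

/-- finiteness for systems -/
def FinS (S : Sys F ι) : Prop :=
  ∃ B : Set (Ideal (MvPolynomial ι F)), B.Finite ∧
    ∀ (K : Type) [Field K] [Algebra F K] (y : ι → Kˣ), S.Sat y →
      ∃ Q : TP F ι, Q.I ∈ B ∧ Spec F Q.pt y ∧ S.Sat Q.pt ∧ Q.df ≤ df F y

/-- the ideal of the power of the line -/
noncomputable def lineI (F : Type) [Field F] (M : ℕ) : Ideal (MvPolynomial (Fin M ⊕ Fin M) F) :=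
  Ideal.span (Set.range fun i : Fin M => X (Sum.inl i) + X (Sum.inr i) - 1)

/-- systems without other equations -/
theorem fin_base [IsAlgClosed F] (hF : ∀ M, Fin' (lineI F M)) (S : Sys F ι) (hS : S.Good)
    (hr : S.rest = []) : FinS S := by
  classical
  obtain ⟨E, l, r⟩ := S
  simp only at hr
  subst hr
  obtain ⟨hE, hl, -⟩ := hS
  simp only at hE hl
  let m : Fin E.length ⊕ Fin E.length → ι → ℤ :=
    Sum.elim (fun i => (E.get i).1.1) (fun i => (E.get i).2.1)
  let t : Fin E.length ⊕ Fin E.length → Fˣ :=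
    Sum.elim (fun i => (E.get i).1.2) (fun i => (E.get i).2.2)
  have hmem : ∀ i : Fin E.length, E.get i ∈ E := fun i => List.get_mem E i
  obtain ⟨B, hB, hB2⟩ := claimZ (lineI F E.length) (hF _) m t
    (by
      rintro (i | i)
      · exact (hE _ (hmem i)).1
      · exact (hE _ (hmem i)).2) (fc l)
    (by
      intro e he
      obtain ⟨e', he', rfl⟩ := List.mem_map.1 he
      obtain ⟨N, hN, h⟩ := hl e' he'
      exact ⟨N, hN, by rw [← Units.val_pow_eq_pow_val, h, Units.val_one]⟩)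
  -- the equations of the line
  have hline : ∀ (K : Type) [Field K] [Algebra F K] (y : ι → Kˣ),
      (∀ f ∈ lineI F E.length, aeval (un fun j => uo K (t j) * mon y (m j)) f = 0) ↔
      ∀ e ∈ E, algebraMap F K e.1.2 * ((mon y e.1.1 : Kˣ) : K) +
        algebraMap F K e.2.2 * ((mon y e.2.1 : Kˣ) : K) = 1 := by
    intro K _ _ y
    have h1 : ∀ i : Fin E.length, aeval (un fun j => uo K (t j) * mon y (m j))
        (X (Sum.inl i) + X (Sum.inr i) - 1 : MvPolynomial (Fin E.length ⊕ Fin E.length) F) =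
        algebraMap F K (E.get i).1.2 * ((mon y (E.get i).1.1 : Kˣ) : K) +
        algebraMap F K (E.get i).2.2 * ((mon y (E.get i).2.1 : Kˣ) : K) - 1 := by
      intro i
      simp only [map_sub, map_add, aeval_X, map_one, un, Units.val_mul, val_uo]
      rfl
    constructor
    · intro h e he
      obtain ⟨i, rfl⟩ := List.get_of_mem he
      have h2 := h _ (Ideal.subset_span ⟨i, rfl⟩)
      rw [h1] at h2
      exact sub_eq_zero.1 h2
    · intro h f hf
      refine Submodule.span_induction (p := fun f _ =>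
        aeval (un fun j => uo K (t j) * mon y (m j)) f = 0) ?_ ?_ ?_ ?_ hf
      · rintro _ ⟨i, rfl⟩
        rw [h1, h _ (hmem i), sub_self]
      · exact map_zero _
      · intro a b _ _ ha hb
        rw [map_add, ha, hb, add_zero]
      · intro a b _ hb
        rw [smul_eq_mul, map_mul, hb, mul_zero]
  have hfc : ∀ (K : Type) [Field K] [Algebra F K] (y : ι → Kˣ),
      (∀ e ∈ fc l, ((mon y e.1 : Kˣ) : K) = algebraMap F K e.2) ↔
      ∀ e ∈ l, ((mon y e.1 : Kˣ) : K) = algebraMap F K e.2 := by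
    intro K _ _ y
    constructor
    · intro h e he
      exact h _ (List.mem_map.2 ⟨e, he, rfl⟩)
    · intro h e he
      obtain ⟨e', he', rfl⟩ := List.mem_map.1 he
      exact h e' he'
  refine ⟨B, hB, ?_⟩
  intro K _ _ y hy
  obtain ⟨hy1, hy2, -⟩ := hy
  obtain ⟨Q, h1, h2, h3, K', _, _, z, h4, h5, h6, h7⟩ := hB2 K y ((hline K y).2 hy1)
    ((hfc K y).2 hy2)
  refine ⟨Q, h1, fun f hf => h2 f ((Q.aeval_pt_eq_zero f).1 hf), ?_, h3⟩
  have h8 : Sys.Sat (F := F) ⟨E, l, []⟩ z := ⟨(hline K' z).1 h6, (hfc K' z).1 h7, by simp⟩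
  exact h8.spec h5

end

end Pool.Agent.R948
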