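import Pool.Agent.R948.Enc

/-!
# Finiteness for all systems of equations whose coefficients are roots of unity
-/

set_option autoImplicit false
set_option linter.unusedSectionVars false
set_option linter.style.haveILetI false

namespace Pool.Agent.R948

open MvPolynomial

section

variable {F : Type} [Field F] {ι κ : Type} [Fintype ι] [Fintype κ] {K L : Type} [Field K]
  [Field L] [Algebra F K] [Algebra F L]

/-- exponents on a bigger set of coordinates -/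
def ex (a : ι → ℤ) (c : ℤ) : ι ⊕ Unit → ℤ := Sum.elim a (fun _ => c)

/-- lift of a list -/
def lft (l : List ((ι → ℤ) × Fˣ)) : List ((ι ⊕ Unit → ℤ) × Fˣ) := l.map fun e => (ex e.1 0, e.2)

theorem mon_ex (y : ι → Kˣ) (w : Kˣ) (a : ι → ℤ) (c : ℤ) :
    mon (Sum.elim y (fun _ : Unit => w)) (ex a c) = mon y a * w ^ c := by
  rw [mon_sum]
  simp [ex, mon]

theorem mon_ex0 (y : ι → Kˣ) (w : Kˣ) (a : ι → ℤ) :
    mon (Sum.elim y (fun _ : Unit => w)) (ex a 0) = mon y a := by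
  rw [mon_ex, zpow_zero, mul_one]

theorem lev_lft (l : List ((ι → ℤ) × Fˣ)) (y : ι → Kˣ) (w : Kˣ) :
    lev (fc (lft l)) (Sum.elim y (fun _ : Unit => w)) = lev (fc l) y := by
  induction l with
  | nil => rfl
  | cons e l ih =>
    have h1 : fc (lft (e :: l)) = (ex e.1 0, (e.2 : F)) :: fc (lft l) := rfl
    have h2 : fc (e :: l) = (e.1, (e.2 : F)) :: fc l := rfl
    rw [h1, h2, lev_cons, lev_cons, ih, mon_ex0]

/-- the system with the first two terms of the first equation cancelling -/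
def Sys.sysA (E : List (((ι → ℤ) × Fˣ) × ((ι → ℤ) × Fˣ))) (T : List ((ι → ℤ) × Fˣ))
    (r : List (List ((ι → ℤ) × Fˣ))) (e₁ e₂ : (ι → ℤ) × Fˣ) (l : List ((ι → ℤ) × Fˣ)) :
    Sys F ι :=
  ⟨E, (e₁.1 - e₂.1, -(e₂.2 * e₁.2⁻¹)) :: T, l :: r⟩

/-- the system with a new coordinate for the sum of the first two terms of the first equation -/
def Sys.sysB (E : List (((ι → ℤ) × Fˣ) × ((ι → ℤ) × Fˣ))) (T : List ((ι → ℤ) × Fˣ))
    (r : List (List ((ι → ℤ) × Fˣ))) (e₁ e₂ : (ι → ℤ) × Fˣ) (l : List ((ι → ℤ) × Fˣ)) :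
    Sys F (ι ⊕ Unit) :=
  ⟨((ex e₁.1 (-1), e₁.2), (ex e₂.1 (-1), e₂.2)) ::
      E.map (fun e => ((ex e.1.1 0, e.1.2), (ex e.2.1 0, e.2.2))),
    lft T, ((ex 0 1, 1) :: lft l) :: r.map lft⟩

theorem sat_sysA (E : List (((ι → ℤ) × Fˣ) × ((ι → ℤ) × Fˣ))) (T : List ((ι → ℤ) × Fˣ))
    (r : List (List ((ι → ℤ) × Fˣ))) (e₁ e₂ : (ι → ℤ) × Fˣ) (l : List ((ι → ℤ) × Fˣ))
    (y : ι → Kˣ) : (Sys.sysA E T r e₁ e₂ l).Sat y ↔ (Sys.Sat (F := F) ⟨E, T, (e₁ :: e₂ :: l) :: r⟩ y ∧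
      algebraMap F K e₁.2 * ((mon y e₁.1 : Kˣ) : K) +
        algebraMap F K e₂.2 * ((mon y e₂.1 : Kˣ) : K) = 0) := by
  have hfc : fc (e₁ :: e₂ :: l) = (e₁.1, (e₁.2 : F)) :: (e₂.1, (e₂.2 : F)) :: fc l := rfl
  have hkey : ((mon y (e₁.1 - e₂.1) : Kˣ) : K) = algebraMap F K ((-(e₂.2 * e₁.2⁻¹) : Fˣ) : F) ↔
      algebraMap F K e₁.2 * ((mon y e₁.1 : Kˣ) : K) +
        algebraMap F K e₂.2 * ((mon y e₂.1 : Kˣ) : K) = 0 := by
    have h1 : mon y (e₁.1 - e₂.1) = mon y e₁.1 * (mon y e₂.1)⁻¹ := by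
      rw [sub_eq_add_neg, mon_add, mon_neg]
    have hu : algebraMap F K (e₁.2 : F) ≠ 0 := by
      rw [Ne, map_eq_zero_iff _ (algebraMap F K).injective]
      exact e₁.2.ne_zero
    have hm : ((mon y e₂.1 : Kˣ) : K) ≠ 0 := Units.ne_zero _
    rw [h1]
    simp only [Units.val_neg, Units.val_mul, Units.val_inv_eq_inv_val]
    rw [map_neg, map_mul, map_inv₀, ← div_eq_mul_inv, ← div_eq_mul_inv, ← neg_div,
      div_eq_div_iff hm hu, ← sub_eq_zero]
    constructor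
    · intro h
      rw [← h]
      ring
    · intro h
      rw [← h]
      ring
  constructor
  · rintro ⟨h1, h2, h3⟩
    have h4 := hkey.1 (h2 _ List.mem_cons_self)
    refine ⟨⟨h1, fun e he => h2 e (by simp [Sys.sysA, he]), fun l' hl' => ?_⟩, h4⟩
    rcases List.mem_cons.1 hl' with rfl | hl'
    · rw [hfc, lev_cons, lev_cons, h3 l (by simp [Sys.sysA]), add_zero]
      exact h4
    · exact h3 l' (by simp [Sys.sysA, hl'])
  · rintro ⟨⟨h1, h2, h3⟩, h4⟩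
    refine ⟨h1, fun e he => ?_, fun l' hl' => ?_⟩
    · rcases List.mem_cons.1 he with rfl | he
      · exact hkey.2 h4
      · exact h2 e he
    · rcases List.mem_cons.1 hl' with rfl | hl'
      · have h5 := h3 (e₁ :: e₂ :: l') (by simp)
        rw [hfc, lev_cons, lev_cons, ← add_assoc, h4, zero_add] at h5
        exact h5
      · exact h3 l' (by simp [hl'])

theorem sat_sysB (E : List (((ι → ℤ) × Fˣ) × ((ι → ℤ) × Fˣ))) (T : List ((ι → ℤ) × Fˣ))
    (r : List (List ((ι → ℤ) × Fˣ))) (e₁ e₂ : (ι → ℤ) × Fˣ) (l : List ((ι → ℤ) × Fˣ))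
    (y : ι → Kˣ) (w : Kˣ) : (Sys.sysB E T r e₁ e₂ l).Sat (Sum.elim y (fun _ : Unit => w)) ↔
      (Sys.Sat (F := F) ⟨E, T, (e₁ :: e₂ :: l) :: r⟩ y ∧
      algebraMap F K e₁.2 * ((mon y e₁.1 : Kˣ) : K) +
        algebraMap F K e₂.2 * ((mon y e₂.1 : Kˣ) : K) = w) := by
  have hfc : fc (e₁ :: e₂ :: l) = (e₁.1, (e₁.2 : F)) :: (e₂.1, (e₂.2 : F)) :: fc l := rfl
  have hkey : algebraMap F K e₁.2 * ((mon (Sum.elim y (fun _ : Unit => w)) (ex e₁.1 (-1)) : Kˣ) : K) +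
      algebraMap F K e₂.2 * ((mon (Sum.elim y (fun _ : Unit => w)) (ex e₂.1 (-1)) : Kˣ) : K) = 1 ↔
      algebraMap F K e₁.2 * ((mon y e₁.1 : Kˣ) : K) +
        algebraMap F K e₂.2 * ((mon y e₂.1 : Kˣ) : K) = w := by
    rw [mon_ex, mon_ex, zpow_neg_one]
    push_cast
    have hw : (w : K) ≠ 0 := w.ne_zero
    rw [← mul_assoc, ← mul_assoc, ← add_mul, ← div_eq_mul_inv, div_eq_one_iff_eq hw]
  have hE : (∀ e ∈ E.map (fun e => (((ex e.1.1 0, e.1.2), (ex e.2.1 0, e.2.2)) :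
      ((ι ⊕ Unit → ℤ) × Fˣ) × ((ι ⊕ Unit → ℤ) × Fˣ))),
      algebraMap F K e.1.2 * ((mon (Sum.elim y (fun _ : Unit => w)) e.1.1 : Kˣ) : K) +
      algebraMap F K e.2.2 * ((mon (Sum.elim y (fun _ : Unit => w)) e.2.1 : Kˣ) : K) = 1) ↔
      ∀ e ∈ E, algebraMap F K e.1.2 * ((mon y e.1.1 : Kˣ) : K) +
      algebraMap F K e.2.2 * ((mon y e.2.1 : Kˣ) : K) = 1 := by
    constructor
    · intro h e he
      have h1 := h _ (List.mem_map.2 ⟨e, he, rfl⟩)
      rw [mon_ex0, mon_ex0] at h1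
      exact h1
    · intro h e he
      obtain ⟨e', he', rfl⟩ := List.mem_map.1 he
      rw [mon_ex0, mon_ex0]
      exact h e' he'
  have hT : (∀ e ∈ lft T, ((mon (Sum.elim y (fun _ : Unit => w)) e.1 : Kˣ) : K) =
      algebraMap F K e.2) ↔ ∀ e ∈ T, ((mon y e.1 : Kˣ) : K) = algebraMap F K e.2 := by
    constructor
    · intro h e he
      have h1 := h _ (List.mem_map.2 ⟨e, he, rfl⟩)
      rw [mon_ex0] at h1
      exact h1
    · intro h e he
      obtain ⟨e', he', rfl⟩ := List.mem_map.1 he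
      rw [mon_ex0]
      exact h e' he'
  have hl : lev (fc ((ex 0 1, 1) :: lft l)) (Sum.elim y (fun _ : Unit => w)) =
      (w : K) + lev (fc l) y := by
    have h1 : fc (((ex 0 1, 1) : (ι ⊕ Unit → ℤ) × Fˣ) :: lft l) = (ex 0 1, ((1 : Fˣ) : F)) :: fc (lft l) :=
      rfl
    rw [h1, lev_cons, lev_lft, mon_ex, mon_zero]
    simp
  constructor
  · rintro ⟨h1, h2, h3⟩
    have h4 := hkey.1 (h1 _ List.mem_cons_self)
    refine ⟨⟨hE.1 fun e he => h1 e (List.mem_cons_of_mem _ he), hT.1 h2, fun l' hl' => ?_⟩, h4⟩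
    rcases List.mem_cons.1 hl' with rfl | hl'
    · have h5 := h3 ((ex 0 1, 1) :: lft l) (by simp [Sys.sysB])
      rw [hl] at h5
      rw [hfc, lev_cons, lev_cons, ← add_assoc, h4]
      exact h5
    · have h5 := h3 (lft l') (by
        refine List.mem_cons_of_mem _ (List.mem_map.2 ⟨l', hl', rfl⟩))
      rw [lev_lft] at h5
      exact h5
  · rintro ⟨⟨h1, h2, h3⟩, h4⟩
    refine ⟨fun e he => ?_, hT.2 h2, fun l' hl' => ?_⟩
    · rcases List.mem_cons.1 he with rfl | he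
      · exact hkey.2 h4
      · exact hE.2 h1 e he
    · rcases List.mem_cons.1 hl' with rfl | hl'
      · have h5 := h3 (e₁ :: e₂ :: l) (by simp)
        rw [hfc, lev_cons, lev_cons, ← add_assoc, h4] at h5
        rw [hl]
        exact h5
      · obtain ⟨l'', hl'', rfl⟩ := List.mem_map.1 hl'
        rw [lev_lft]
        exact h3 l'' (by simp [hl''])

end

end Pool.Agent.R948
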