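import Pool.Agent.R948.EncB

/-!
# Finiteness for all systems of equations whose coefficients are roots of unity, II
-/

set_option autoImplicit false
set_option linter.unusedSectionVars false
set_option linter.style.haveILetI false

namespace Pool.Agent.R948

open MvPolynomial

section

variable {F : Type} [Field F] {ι κ : Type} [Fintype ι] [Fintype κ] {K L : Type} [Field K]
  [Field L] [Algebra F K] [Algebra F L]

theorem alg_mon (y : ι → Kˣ) (a : ι → ℤ) (c : F) :
    IsAlgebraic (Algebra.adjoin F (Set.range (un y))) (algebraMap F K c * ((mon y a : Kˣ) : K)) := by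
  have h1 : IsAlgebraic (Algebra.adjoin F (Set.range (un y))) ((mon y a : Kˣ) : K) :=
    alg_of_zpow y (mon y a) 1 one_pos a (pow_one _)
  refine IsAlgebraic.mul ?_ h1
  exact isAlgebraic_algebraMap (A := K)
    (algebraMap F (Algebra.adjoin F (Set.range (un y))) c)

theorem fin_step (E : List (((ι → ℤ) × Fˣ) × ((ι → ℤ) × Fˣ))) (T : List ((ι → ℤ) × Fˣ))
    (r : List (List ((ι → ℤ) × Fˣ))) (e₁ e₂ : (ι → ℤ) × Fˣ) (l : List ((ι → ℤ) × Fˣ))
    (hA : FinS (Sys.sysA E T r e₁ e₂ l)) (hB : FinS (Sys.sysB E T r e₁ e₂ l)) :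
    FinS (⟨E, T, (e₁ :: e₂ :: l) :: r⟩ : Sys F ι) := by
  obtain ⟨BA, hBA, hA⟩ := hA
  obtain ⟨BB, hBB, hB⟩ := hB
  refine ⟨BA ∪ (Ideal.comap (rename Sum.inl : MvPolynomial ι F →ₐ[F]
    MvPolynomial (ι ⊕ Unit) F)) '' BB, hBA.union (hBB.image _), ?_⟩
  intro K _ _ y hy
  by_cases hc : algebraMap F K e₁.2 * ((mon y e₁.1 : Kˣ) : K) +
        algebraMap F K e₂.2 * ((mon y e₂.1 : Kˣ) : K) = 0
  · obtain ⟨Q, h1, h2, h3, h4⟩ := hA K y ((sat_sysA E T r e₁ e₂ l y).2 ⟨hy, hc⟩)
    exact ⟨Q, Or.inl h1, h2, ((sat_sysA E T r e₁ e₂ l Q.pt).1 h3).1, h4⟩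
  · let w : Kˣ := Units.mk0 _ hc
    obtain ⟨Q', h1, h2, h3, h4⟩ := hB K (Sum.elim y (fun _ : Unit => w))
      ((sat_sysB E T r e₁ e₂ l y w).2 ⟨hy, rfl⟩)
    let z : ι → Q'.fldˣ := fun i => Q'.pt (Sum.inl i)
    let w' : Q'.fldˣ := Q'.pt (Sum.inr ())
    have hpt : Q'.pt = Sum.elim z (fun _ : Unit => w') := by
      funext k
      rcases k with j | i <;> rfl
    rw [hpt, sat_sysB] at h3
    obtain ⟨h5, h6⟩ := h3
    have hdf : df F z ≤ df F y := by
      refine df_proj z (fun _ : Unit => w') y (fun _ : Unit => w) ?_ ?_ ?_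
      · rw [← hpt]
        exact h2
      · intro _
        change IsAlgebraic _ (w' : Q'.fld)
        rw [← h6]
        exact (alg_mon z e₁.1 (e₁.2 : F)).add (alg_mon z e₂.1 (e₂.2 : F))
      · rw [← hpt]
        exact h4
    obtain ⟨Q, hQ⟩ : ∃ Q : TP F ι, Q = TP.ofPt z := ⟨_, rfl⟩
    have hs1 : Spec F Q.pt z := fun f hf => by
      rw [TP.aeval_pt_eq_zero, hQ] at hf
      exact hf
    have hs2 : Spec F z Q.pt := fun f hf => by
      rw [TP.aeval_pt_eq_zero, hQ]
      exact hf
    have hs3 : Spec F z y := by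
      intro f hf
      have h7 := h2 (rename Sum.inl f) (by rw [aeval_rename]; exact hf)
      rw [aeval_rename] at h7
      exact h7
    refine ⟨Q, Or.inr ⟨Q'.I, h1, ?_⟩, fun f hf => hs3 f (hs1 f hf), h5.spec hs2, ?_⟩
    · rw [hQ]
      ext f
      rw [Ideal.mem_comap, TP.mem_ofPt, ← TP.aeval_pt_eq_zero, aeval_rename]
      rfl
    · rw [hQ, TP.df_ofPt]
      exact hdf

/-- the measure for the induction -/
def msr (r : List (List ((ι → ℤ) × Fˣ))) : ℕ := (r.map fun l => l.length + 1).sum

theorem fin_sys [IsAlgClosed F] (hF : ∀ M, Fin' (lineI F M)) : ∀ (n : ℕ) (ι : Type) [Fintype ι]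
    (S : Sys F ι), S.Good → msr S.rest ≤ n → FinS S := by
  intro n
  induction n with
  | zero =>
    intro ι _ S hS hn
    obtain ⟨E, T, r⟩ := S
    rcases r with _ | ⟨l, r⟩
    · exact fin_base hF _ hS rfl
    · simp [msr] at hn
  | succ n ih =>
    intro ι _ S hS hn
    obtain ⟨E, T, r⟩ := S
    rcases r with _ | ⟨l, r⟩
    · exact fin_base hF _ hS rfl
    · obtain ⟨hE, hT, hr⟩ := hS
      simp only at hE hT hr hn
      rcases l with _ | ⟨e₁, _ | ⟨e₂, l⟩⟩
      · -- trivial equation
        have h1 : FinS (⟨E, T, r⟩ : Sys F ι) := ih ι ⟨E, T, r⟩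
          ⟨hE, hT, fun l hl => hr l (List.mem_cons_of_mem _ hl)⟩ (by
            simp only [msr, List.map_cons, List.sum_cons, List.length_nil] at hn ⊢
            omega)
        obtain ⟨B, hB, hB2⟩ := h1
        refine ⟨B, hB, fun K _ _ y hy => ?_⟩
        obtain ⟨Q, h2, h3, h4, h5⟩ := hB2 K y ⟨hy.1, hy.2.1, fun l hl =>
          hy.2.2 l (List.mem_cons_of_mem _ hl)⟩
        refine ⟨Q, h2, h3, ⟨h4.1, h4.2.1, fun l hl => ?_⟩, h5⟩
        rcases List.mem_cons.1 hl with rfl | hl
        · rfl
        · exact h4.2.2 l hl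
      · -- no solutions
        refine ⟨∅, Set.finite_empty, fun K _ _ y hy => ?_⟩
        exfalso
        have h1 := hy.2.2 [e₁] List.mem_cons_self
        have h2 : fc [e₁] = [(e₁.1, (e₁.2 : F))] := rfl
        rw [h2, lev_cons, lev_nil, add_zero] at h1
        have hu : algebraMap F K (e₁.2 : F) ≠ 0 := by
          rw [Ne, map_eq_zero_iff _ (algebraMap F K).injective]
          exact e₁.2.ne_zero
        exact (mul_ne_zero hu (Units.ne_zero _)) h1
      · have hl : ∀ e ∈ e₁ :: e₂ :: l, Tor e.2 := hr _ List.mem_cons_self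
        have hr' : ∀ l' ∈ r, ∀ e ∈ l', Tor e.2 := fun l' hl' => hr l' (List.mem_cons_of_mem _ hl')
        have h1 : Tor e₁.2 := hl _ List.mem_cons_self
        have h2 : Tor e₂.2 := hl _ (List.mem_cons_of_mem _ List.mem_cons_self)
        refine fin_step E T r e₁ e₂ l ?_ ?_
        · refine ih ι _ ⟨hE, ?_, ?_⟩ ?_
          · intro e he
            rcases List.mem_cons.1 he with rfl | he
            · exact (h2.mul h1.inv).neg
            · exact hT e he
          · intro l' hl' e he
            rcases List.mem_cons.1 hl' with rfl | hl'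
            · exact hl e (List.mem_cons_of_mem _ (List.mem_cons_of_mem _ he))
            · exact hr' l' hl' e he
          · simp only [msr, Sys.sysA, List.map_cons, List.sum_cons, List.length_cons] at hn ⊢
            omega
        · refine ih (ι ⊕ Unit) _ ⟨?_, ?_, ?_⟩ ?_
          · intro e he
            rcases List.mem_cons.1 he with rfl | he
            · exact ⟨h1, h2⟩
            · obtain ⟨e', he', rfl⟩ := List.mem_map.1 he
              exact hE e' he'
          · intro e he
            obtain ⟨e', he', rfl⟩ := List.mem_map.1 he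
            exact hT e' he'
          · intro l' hl' e he
            rcases List.mem_cons.1 hl' with rfl | hl'
            · rcases List.mem_cons.1 he with rfl | he
              · exact ⟨1, one_pos, by simp⟩
              · obtain ⟨e', he', rfl⟩ := List.mem_map.1 he
                exact hl e' (List.mem_cons_of_mem _ (List.mem_cons_of_mem _ he'))
            · obtain ⟨l'', hl'', rfl⟩ := List.mem_map.1 hl'
              obtain ⟨e', he', rfl⟩ := List.mem_map.1 he
              exact hr' l'' hl'' e' he'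
          · have h3 : msr (r.map lft) = msr r := by
              simp [msr, lft, Function.comp_def]
            have h4 : msr (((ex 0 1, 1) :: lft l) :: r.map lft : List (List ((ι ⊕ Unit → ℤ) × Fˣ)))
                = (l.length + 1 + 1) + msr (r.map lft) := by
              simp [msr, lft]
            have h5 : msr ((e₁ :: e₂ :: l) :: r) = (l.length + 1 + 1 + 1) + msr r := by
              simp [msr]
            change msr (((ex 0 1, 1) :: lft l) :: r.map lft : List (List ((ι ⊕ Unit → ℤ) × Fˣ))) ≤ n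
            rw [h4, h3]
            rw [h5] at hn
            omega

end

end Pool.Agent.R948
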