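import Pool.Agent.TH133.SH.GenMain

/-!
# Homomorphisms on `Γ₀(N)` which vanish on parabolic elements: growth along closed geodesics
-/

set_option autoImplicit false

open Complex Matrix.SpecialLinearGroup MatrixGroups ModularGroup
open Pool.Agent.TH133.SH

namespace Pool.Agent.R948.GE

/-- The trace of an element of the modular group. -/
def tr (γ : SL(2, ℤ)) : ℤ := γ 0 0 + γ 1 1

lemma mul_ij (g h : SL(2, ℤ)) (i j : Fin 2) : (g * h) i j = g i 0 * h 0 j + g i 1 * h 1 j := by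
  rw [coe_mul, Matrix.mul_apply, Fin.sum_univ_two]

lemma entry_rec (γ : SL(2, ℤ)) (k : ℕ) (i j : Fin 2) :
    (γ ^ (k + 2)) i j = tr γ * (γ ^ (k + 1)) i j - (γ ^ k) i j := by
  have h := det_eq γ
  have e1 : γ ^ (k + 2) = γ ^ k * (γ * γ) := by rw [pow_add, pow_two]
  have e2 : γ ^ (k + 1) = γ ^ k * γ := pow_succ γ k
  rw [e1, e2, mul_ij, mul_ij (γ ^ k) γ, mul_ij γ γ, mul_ij γ γ]
  unfold tr
  fin_cases j
  · show (γ ^ k) i 0 * (γ 0 0 * γ 0 0 + γ 0 1 * γ 1 0) + (γ ^ k) i 1 * (γ 1 0 * γ 0 0 +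
      γ 1 1 * γ 1 0) = (γ 0 0 + γ 1 1) * ((γ ^ k) i 0 * γ 0 0 + (γ ^ k) i 1 * γ 1 0) - (γ ^ k) i 0
    linear_combination -(γ ^ k) i 0 * h
  · show (γ ^ k) i 0 * (γ 0 0 * γ 0 1 + γ 0 1 * γ 1 1) + (γ ^ k) i 1 * (γ 1 0 * γ 0 1 +
      γ 1 1 * γ 1 1) = (γ 0 0 + γ 1 1) * ((γ ^ k) i 0 * γ 0 1 + (γ ^ k) i 1 * γ 1 1) - (γ ^ k) i 1
    linear_combination -(γ ^ k) i 1 * h

lemma tr_rec (γ : SL(2, ℤ)) (k : ℕ) :
    tr (γ ^ (k + 2)) = tr γ * tr (γ ^ (k + 1)) - tr (γ ^ k) := by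
  unfold tr
  have h0 := entry_rec γ k 0 0
  have h1 := entry_rec γ k 1 1
  unfold tr at h0 h1
  rw [h0, h1]
  ring

lemma tr_conj (g γ : SL(2, ℤ)) : tr (g * γ * g⁻¹) = tr γ := by
  have h := det_eq g
  unfold tr
  rw [mul00, mul11, mul00, mul01, mul10, mul11, inv00, inv01, inv10, inv11]
  linear_combination (γ 0 0 + γ 1 1) * h

section rec
variable {t : ℤ} {u : ℕ → ℤ}

lemma rec_lower (ht : 2 < |t|) (hu : ∀ k, u (k + 2) = t * u (k + 1) - u k) (h0 : |u 0| < |u 1|)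
    (k : ℕ) : |u k| < |u (k + 1)| := by
  induction k with
  | zero => exact h0
  | succ k ih =>
    have h1 : |t| * |u (k + 1)| ≤ |u (k + 2)| + |u k| := by
      rw [← abs_mul]
      have : t * u (k + 1) = u (k + 2) + u k := by rw [hu]; ring
      rw [this]
      exact abs_add_le _ _
    have h2 := abs_nonneg (u k)
    show |u (k + 1)| < |u (k + 2)|
    nlinarith

lemma rec_upper (hu : ∀ k, u (k + 2) = t * u (k + 1) - u k) {A : ℤ} (h0 : |u 0| ≤ A)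
    (h1 : |u 1| ≤ A * (|t| + 1)) (k : ℕ) : |u k| ≤ A * (|t| + 1) ^ k := by
  have hA : 0 ≤ A := (abs_nonneg _).trans h0
  have key : ∀ k, |u k| ≤ A * (|t| + 1) ^ k ∧ |u (k + 1)| ≤ A * (|t| + 1) ^ (k + 1) := by
    intro k
    induction k with
    | zero => exact ⟨by simpa using h0, by simpa using h1⟩
    | succ k ih =>
      refine ⟨ih.2, ?_⟩
      show |u (k + 2)| ≤ _
      have h3 : |u (k + 2)| ≤ |t| * |u (k + 1)| + |u k| := by
        rw [hu, ← abs_mul]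
        exact abs_sub _ _
      have ht := abs_nonneg t
      have hp : 0 ≤ A * (|t| + 1) ^ k := by positivity
      calc |u (k + 2)| ≤ |t| * |u (k + 1)| + |u k| := h3
        _ ≤ |t| * (A * (|t| + 1) ^ (k + 1)) + A * (|t| + 1) ^ k := by
          gcongr
          · exact ih.2
          · exact ih.1
        _ ≤ A * (|t| + 1) ^ (k + 1 + 1) := by
          have e1 : A * (|t| + 1) ^ (k + 1 + 1) = |t| * (A * (|t| + 1) ^ (k + 1)) +
            (A * (|t| + 1) ^ k) * (|t| + 1) := by ring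
          rw [e1]
          nlinarith
  exact (key k).1

end rec

lemma tr_lower {γ : SL(2, ℤ)} (ht : 2 < |tr γ|) (k : ℕ) : (k : ℤ) + 2 ≤ |tr (γ ^ k)| := by
  induction k with
  | zero => simp [tr]
  | succ k ih =>
    have h1 : |tr (γ ^ k)| < |tr (γ ^ (k + 1))| :=
      rec_lower (u := fun k => tr (γ ^ k)) ht (tr_rec γ) (by simpa [tr] using ht) k
    push_cast
    linarith

lemma tr_upper (γ : SL(2, ℤ)) (k : ℕ) : |tr (γ ^ k)| ≤ 2 * (|tr γ| + 1) ^ k := by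
  refine rec_upper (u := fun k => tr (γ ^ k)) (tr_rec γ) (by simp [tr]) ?_ k
  simp only [pow_one]
  have := abs_nonneg (tr γ)
  linarith

lemma lower_ne {γ : SL(2, ℤ)} (ht : 2 < |tr γ|) : γ 1 0 ≠ 0 := by
  intro h
  have hd := det_eq γ
  rw [h, mul_zero, sub_zero] at hd
  have h1 : (tr γ) ^ 2 = (γ 0 0 - γ 1 1) ^ 2 + 4 := by unfold tr; linear_combination 4 * hd
  rcases Int.eq_one_or_neg_one_of_mul_eq_one' hd with ⟨h2, h3⟩ | ⟨h2, h3⟩
  · rw [tr, h2, h3] at ht; norm_num at ht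
  · rw [tr, h2, h3] at ht; norm_num at ht

lemma lower_pow_ne {γ : SL(2, ℤ)} (ht : 2 < |tr γ|) (k : ℕ) : (γ ^ (k + 1)) 1 0 ≠ 0 := by
  have h0 := lower_ne ht
  have h1 : |(γ ^ k) 1 0| < |(γ ^ (k + 1)) 1 0| :=
    rec_lower (u := fun k => (γ ^ k) 1 0) ht (fun k => entry_rec γ k 1 0) (by simpa using h0) k
  intro h
  rw [h, abs_zero] at h1
  exact absurd h1 (not_lt.2 (abs_nonneg _))

lemma lower_pow_le (γ : SL(2, ℤ)) (k : ℕ) : |(γ ^ k) 1 0| ≤ |γ 1 0| * (|tr γ| + 1) ^ k := by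
  refine rec_upper (u := fun k => (γ ^ k) 1 0) (fun k => entry_rec γ k 1 0) (by simp) ?_ k
  simp only [pow_one]
  have h1 := abs_nonneg (tr γ)
  have h2 := abs_nonneg (γ 1 0)
  nlinarith

lemma inG_pow {N : ℕ} {γ : SL(2, ℤ)} (h : InG N γ) (k : ℕ) : InG N (γ ^ k) := by
  induction k with
  | zero => simpa using inG_one
  | succ k ih => rw [pow_succ]; exact ih.mul h

section hom
variable {N : ℕ} {φ : SL(2, ℤ) → ℝ}

lemma map_pow (h : IsCuspHom N φ) {γ : SL(2, ℤ)} (hγ : InG N γ) (k : ℕ) :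
    φ (γ ^ k) = k * φ γ := by
  induction k with
  | zero => simpa using h.one
  | succ k ih =>
    rw [pow_succ, h.map_mul _ _ (inG_pow hγ k) hγ, ih]
    push_cast
    ring

lemma map_conj (h : IsCuspHom N φ) {g γ : SL(2, ℤ)} (hg : InG N g) (hγ : InG N γ) :
    φ (g * γ * g⁻¹) = φ γ := by
  have h1 : φ (g * g⁻¹) = φ g + φ g⁻¹ := h.map_mul _ _ hg hg.inv
  rw [mul_inv_cancel, h.one] at h1
  rw [h.map_mul _ _ (hg.mul hγ) hg.inv, h.map_mul _ _ hg hγ]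
  linarith

lemma log_add_one {t : ℤ} (ht : 2 < |t|) :
    Real.log ((|t| : ℝ) + 1) ≤ 2 * Real.log |(t : ℝ)| ∧ 1 ≤ Real.log |(t : ℝ)| := by
  have h3 : (3 : ℝ) ≤ |(t : ℝ)| := by
    have : (3 : ℤ) ≤ |t| := by omega
    exact_mod_cast this
  constructor
  · have h4 : 2 * Real.log |(t : ℝ)| = Real.log (|(t : ℝ)| ^ 2) := by
      rw [Real.log_pow]; norm_num
    rw [h4]
    apply Real.log_le_log
    · positivity
    · nlinarith
  · rw [Real.le_log_iff_exp_le (by linarith)]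
    have := Real.exp_one_lt_d9
    linarith

/-- Logarithmic growth in the lower left entry gives linear growth in the length of closed
geodesics. -/
lemma geodesic_of_log (h : IsCuspHom N φ) {X : ℝ} (hX : 0 ≤ X)
    (hl : ∀ g : SL(2, ℤ), InG N g → g 1 0 ≠ 0 → |φ g| ≤ X * (1 + Real.log |((g 1 0 : ℤ) : ℝ)|))
    {γ : SL(2, ℤ)} (hγ : InG N γ) (ht : 2 < |tr γ|) :
    |φ γ| ≤ 2 * X * Real.log |((tr γ : ℤ) : ℝ)| := by
  obtain ⟨h1, h2⟩ := log_add_one ht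
  by_contra hc
  push Not at hc
  set δ : ℝ := |φ γ| - 2 * X * Real.log |((tr γ : ℤ) : ℝ)| with hδ
  have hδ0 : 0 < δ := by rw [hδ]; linarith
  set Y : ℝ := X * (1 + Real.log |((γ 1 0 : ℤ) : ℝ)|) with hY
  obtain ⟨k, hk⟩ := exists_nat_gt (Y / δ)
  have hc0 := lower_ne ht
  have hk1 := hl (γ ^ (k + 1)) (inG_pow hγ _) (lower_pow_ne ht k)
  rw [map_pow h hγ, abs_mul, Nat.abs_cast] at hk1
  have hcr : (0 : ℝ) < |((γ 1 0 : ℤ) : ℝ)| := by
    rw [abs_pos]; exact_mod_cast hc0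
  have htr : (0 : ℝ) < (|((tr γ : ℤ) : ℝ)| + 1) := by positivity
  have hk2 : Real.log |(((γ ^ (k + 1)) 1 0 : ℤ) : ℝ)| ≤
      Real.log |((γ 1 0 : ℤ) : ℝ)| + (k + 1 : ℕ) * Real.log (|((tr γ : ℤ) : ℝ)| + 1) := by
    rw [← Real.log_pow, ← Real.log_mul hcr.ne' (by positivity)]
    apply Real.log_le_log
    · rw [abs_pos]; exact_mod_cast lower_pow_ne ht k
    · have := lower_pow_le γ (k + 1)
      have h5 : ((|(γ ^ (k + 1)) 1 0| : ℤ) : ℝ) ≤ ((|γ 1 0| * (|tr γ| + 1) ^ (k + 1) : ℤ) : ℝ) := by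
        exact_mod_cast this
      push_cast at h5
      exact h5
  have hk3 : ((k + 1 : ℕ) : ℝ) * |φ γ| ≤
      Y + (k + 1 : ℕ) * (2 * X * Real.log |((tr γ : ℤ) : ℝ)|) := by
    have h6 : (0 : ℝ) ≤ ((k + 1 : ℕ) : ℝ) := Nat.cast_nonneg _
    calc ((k + 1 : ℕ) : ℝ) * |φ γ|
        ≤ X * (1 + Real.log |(((γ ^ (k + 1)) 1 0 : ℤ) : ℝ)|) := hk1
      _ ≤ X * (1 + (Real.log |((γ 1 0 : ℤ) : ℝ)| + (k + 1 : ℕ) *
            (2 * Real.log |((tr γ : ℤ) : ℝ)|))) := by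
          gcongr
          exact hk2.trans (by gcongr)
      _ = Y + (k + 1 : ℕ) * (2 * X * Real.log |((tr γ : ℤ) : ℝ)|) := by rw [hY]; ring
  have hk4 : ((k + 1 : ℕ) : ℝ) * δ ≤ Y := by
    rw [hδ, mul_sub]
    linarith
  rw [div_lt_iff₀ hδ0] at hk
  push_cast at hk4
  nlinarith

/-- It is enough to bound `φ` on a set which contains a conjugate of a power of every hyperbolic
element. -/
lemma geodesic_of_set (h : IsCuspHom N φ) {X : ℝ} (hX : 0 ≤ X) (S : Set SL(2, ℤ))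
    (hS : ∀ γ : SL(2, ℤ), InG N γ → 2 < |tr γ| →
      ∃ g : SL(2, ℤ), InG N g ∧ ∃ k : ℕ, 0 < k ∧ (g * γ * g⁻¹) ^ k ∈ S)
    (hb : ∀ g : SL(2, ℤ), InG N g → g ∈ S → 2 < |tr g| →
      |φ g| ≤ X * Real.log |((tr g : ℤ) : ℝ)|)
    {γ : SL(2, ℤ)} (hγ : InG N γ) (ht : 2 < |tr γ|) :
    |φ γ| ≤ 3 * X * Real.log |((tr γ : ℤ) : ℝ)| := by
  obtain ⟨h1, h2⟩ := log_add_one ht
  obtain ⟨g, hg, k, hk, hkS⟩ := hS γ hγ ht
  have hc : InG N (g * γ * g⁻¹) := (hg.mul hγ).mul hg.inv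
  have htc : 2 < |tr (g * γ * g⁻¹)| := by rwa [tr_conj]
  have hlow := tr_lower htc k
  have hlow' : 2 < |tr ((g * γ * g⁻¹) ^ k)| := by
    have : (0 : ℤ) < k := by exact_mod_cast hk
    linarith
  have h3 := hb _ (inG_pow hc k) hkS hlow'
  rw [map_pow h hc, map_conj h hg hγ, abs_mul, Nat.abs_cast] at h3
  have hup := tr_upper (g * γ * g⁻¹) k
  rw [tr_conj] at hup
  have h4 : Real.log |((tr ((g * γ * g⁻¹) ^ k) : ℤ) : ℝ)| ≤
      Real.log 2 + k * Real.log (|((tr γ : ℤ) : ℝ)| + 1) := by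
    rw [← Real.log_pow, ← Real.log_mul (by norm_num) (by positivity)]
    apply Real.log_le_log
    · have : (0 : ℤ) < |tr ((g * γ * g⁻¹) ^ k)| := by linarith
      exact_mod_cast this
    · have h5 : ((|tr ((g * γ * g⁻¹) ^ k)| : ℤ) : ℝ) ≤ ((2 * (|tr γ| + 1) ^ k : ℤ) : ℝ) := by
        exact_mod_cast hup
      push_cast at h5
      exact h5
  have hk0 : (0 : ℝ) < k := by exact_mod_cast hk
  have hk1 : (1 : ℝ) ≤ k := by exact_mod_cast hk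
  have h5 : Real.log 2 ≤ 1 := by
    have := Real.log_two_lt_d9
    linarith
  have h6 : Real.log |((tr ((g * γ * g⁻¹) ^ k) : ℤ) : ℝ)| ≤
      k * (3 * Real.log |((tr γ : ℤ) : ℝ)|) := by
    calc Real.log |((tr ((g * γ * g⁻¹) ^ k) : ℤ) : ℝ)|
        ≤ Real.log 2 + k * Real.log (|((tr γ : ℤ) : ℝ)| + 1) := h4
      _ ≤ k * Real.log |((tr γ : ℤ) : ℝ)| + k * (2 * Real.log |((tr γ : ℤ) : ℝ)|) := by
          gcongr
          nlinarith
      _ = k * (3 * Real.log |((tr γ : ℤ) : ℝ)|) := by ring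
  have h7 : (k : ℝ) * |φ γ| ≤ k * (3 * X * Real.log |((tr γ : ℤ) : ℝ)|) := by
    calc (k : ℝ) * |φ γ| ≤ X * Real.log |((tr ((g * γ * g⁻¹) ^ k) : ℤ) : ℝ)| := h3
      _ ≤ X * (k * (3 * Real.log |((tr γ : ℤ) : ℝ)|)) := by gcongr
      _ = k * (3 * X * Real.log |((tr γ : ℤ) : ℝ)|) := by ring
  exact le_of_mul_le_mul_left h7 hk0

/-- Multiplying by a power of `T` an element which does not fix `∞` becomes hyperbolic, with a trace
which is at most the lower left entry plus two. -/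
lemma exists_hyperbolic (h : IsCuspHom N φ) {γ : SL(2, ℤ)} (hγ : InG N γ) (h0 : γ 1 0 ≠ 0) :
    ∃ δ : SL(2, ℤ), InG N δ ∧ 2 < |tr δ| ∧ |tr δ| ≤ |γ 1 0| + 2 ∧ φ δ = φ γ := by
  set c := γ 1 0 with hc
  set t' : ℤ := 3 + (tr γ - 3) % |c| with ht'
  have hc' : 0 < |c| := abs_pos.2 h0
  have h1 : 0 ≤ (tr γ - 3) % |c| := Int.emod_nonneg _ hc'.ne'
  have h2 : (tr γ - 3) % |c| < |c| := Int.emod_lt_of_pos _ hc'
  obtain ⟨j, hj⟩ : ∃ j : ℤ, t' = tr γ + c * j := by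
    have h3 : |c| ∣ tr γ - 3 - (tr γ - 3) % |c| := Int.dvd_self_sub_emod
    have h4 : c ∣ tr γ - 3 - (tr γ - 3) % |c| := (abs_dvd _ _).1 h3
    obtain ⟨j, hj⟩ := h4
    exact ⟨-j, by rw [ht']; linear_combination -hj⟩
  obtain ⟨e1, e2, e3, e4⟩ := T_pow j
  have htr : tr (γ * ModularGroup.T ^ j) = t' := by
    unfold tr
    rw [mul00, mul11, e1, e2, e3, e4, hj, ← hc]
    unfold tr
    ring
  refine ⟨γ * ModularGroup.T ^ j, hγ.mul (inG_T j), ?_, ?_, ?_⟩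
  · rw [htr, abs_of_nonneg (by omega)]
    omega
  · rw [htr, abs_of_nonneg (by omega)]
    omega
  · rw [h.map_mul _ _ hγ (inG_T j), h.zero_of_lower e3, add_zero]

lemma log_of_geodesic (h : IsCuspHom N φ) {X : ℝ} (hX : 0 ≤ X)
    (hb : ∀ g : SL(2, ℤ), InG N g → 2 < |tr g| → |φ g| ≤ X * Real.log |((tr g : ℤ) : ℝ)|)
    {γ : SL(2, ℤ)} (hγ : InG N γ) (h0 : γ 1 0 ≠ 0) :
    |φ γ| ≤ 2 * X * (1 + Real.log |((γ 1 0 : ℤ) : ℝ)|) := by
  obtain ⟨δ, hδ, hδ1, hδ2, hδ3⟩ := exists_hyperbolic h hγ h0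
  rw [← hδ3]
  refine (hb δ hδ hδ1).trans ?_
  have habs : (1 : ℝ) ≤ |((γ 1 0 : ℤ) : ℝ)| := by
    exact_mod_cast Int.one_le_abs h0
  have hlog : 0 ≤ Real.log |((γ 1 0 : ℤ) : ℝ)| := Real.log_nonneg habs
  have h1 : Real.log |((tr δ : ℤ) : ℝ)| ≤ Real.log 3 + Real.log |((γ 1 0 : ℤ) : ℝ)| := by
    rw [← Real.log_mul (by norm_num) (by positivity)]
    apply Real.log_le_log
    · have : (0 : ℤ) < |tr δ| := by linarith
      exact_mod_cast this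
    · have h5 : ((|tr δ| : ℤ) : ℝ) ≤ ((|γ 1 0| + 2 : ℤ) : ℝ) := by exact_mod_cast hδ2
      push_cast at h5
      linarith
  have h3 : Real.log 3 ≤ 2 := by
    have := Real.log_le_sub_one_of_pos (x := 3) (by norm_num)
    linarith
  calc X * Real.log |((tr δ : ℤ) : ℝ)| ≤ X * (2 * (1 + Real.log |((γ 1 0 : ℤ) : ℝ)|)) := by
        gcongr
        linarith
    _ = 2 * X * (1 + Real.log |((γ 1 0 : ℤ) : ℝ)|) := by ring

lemma small_of_short (h : IsCuspHom N φ) {X : ℝ} (hX : 0 ≤ X) {K : ℤ}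
    (hb : ∀ g : SL(2, ℤ), InG N g → 2 < |tr g| → |tr g| ≤ K + 2 → |φ g| ≤ X)
    {γ : SL(2, ℤ)} (hγ : InG N γ) (h0 : |γ 1 0| ≤ K) : |φ γ| ≤ X := by
  by_cases hc : γ 1 0 = 0
  · rw [h.zero_of_lower hc, abs_zero]; exact hX
  · obtain ⟨δ, hδ, hδ1, hδ2, hδ3⟩ := exists_hyperbolic h hγ hc
    rw [← hδ3]
    exact hb δ hδ hδ1 (by linarith)

end hom

end Pool.Agent.R948.GE
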