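import Pool.Agent.R948.GEa

/-!
# The Shimura map and closed geodesics
-/

set_option autoImplicit false

open Complex Matrix.SpecialLinearGroup MatrixGroups ModularGroup
open Pool.Agent.TH133.SH

namespace Pool.Agent.R948.GE

/-- There are constants `κ`, `C` such that the coordinates of `H(γ)` are at most
`C N ^ κ log |tr γ|`, for all newforms of all levels `N` and all hyperbolic `γ ∈ Γ₀(N)` (those with
`|tr γ| > 2`) which lie in the set `S N`. -/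
def GeodesicBoundOn (S : ℕ → Set SL(2, ℤ)) : Prop :=
  ∃ κ : ℝ, 0 < κ ∧ ∃ C : ℝ, 0 < C ∧ ∀ N : ℕ, 1 ≤ N → ∀ a : ℕ → ℤ, IsNewform N a →
    ∀ Ω₁ Ω₂ : ℂ, IsBasis N a Ω₁ Ω₂ → ∀ γ : SL(2, ℤ), (N : ℤ) ∣ γ 1 0 → 2 < |tr γ| → γ ∈ S N →
      CoordBound a Ω₁ Ω₂ (γ 0 0) (γ 0 1) (γ 1 0) (γ 1 1)
        (C * (N : ℝ) ^ κ * Real.log |((tr γ : ℤ) : ℝ)|)

/-- There are constants `κ`, `C` such that the coordinates of `H(γ)` are at most `C N ^ κ`, for all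
newforms of all levels `N` and all hyperbolic `γ ∈ Γ₀(M N)` whose trace has absolute value at most
`17 * 64 ^ ω(M N) * M N + 2`, where `ω` is the number of prime divisors. -/
def ShortGeodesics (M : ℕ → ℕ) : Prop :=
  ∃ κ : ℝ, 0 < κ ∧ ∃ C : ℝ, 0 < C ∧ ∀ N : ℕ, 1 ≤ N → ∀ a : ℕ → ℤ, IsNewform N a →
    ∀ Ω₁ Ω₂ : ℂ, IsBasis N a Ω₁ Ω₂ → ∀ γ : SL(2, ℤ), (M N : ℤ) ∣ γ 1 0 → 2 < |tr γ| →
      |tr γ| ≤ 17 * 64 ^ (M N).primeFactors.card * M N + 2 →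
      CoordBound a Ω₁ Ω₂ (γ 0 0) (γ 0 1) (γ 1 0) (γ 1 1) (C * (N : ℝ) ^ κ)

/-- There are constants `κ`, `C` such that the coordinates of `H(γ)` are at most
`C (N |tr γ|) ^ κ`, for all newforms of all levels `N` and all hyperbolic `γ ∈ Γ₀(N)`. -/
def PolynomialInTrace : Prop :=
  ∃ κ : ℝ, 0 < κ ∧ ∃ C : ℝ, 0 < C ∧ ∀ N : ℕ, 1 ≤ N → ∀ a : ℕ → ℤ, IsNewform N a →
    ∀ Ω₁ Ω₂ : ℂ, IsBasis N a Ω₁ Ω₂ → ∀ γ : SL(2, ℤ), (N : ℤ) ∣ γ 1 0 → 2 < |tr γ| →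
      CoordBound a Ω₁ Ω₂ (γ 0 0) (γ 0 1) (γ 1 0) (γ 1 1)
        (C * ((N : ℝ) * |((tr γ : ℤ) : ℝ)|) ^ κ)

/-- `M N` is a positive multiple of `N` which is at most `N ^ A`, for some `A` and all `N ≥ 1`. -/
def PolyLevels (M : ℕ → ℕ) : Prop :=
  ∃ A : ℕ, ∀ N : ℕ, 1 ≤ N → N ∣ M N ∧ 0 < M N ∧ M N ≤ N ^ A

/-- For every `N ≥ 1` and every hyperbolic `γ ∈ Γ₀(N)` some positive power of some
`Γ₀(N)`-conjugate of `γ` lies in `S N`. -/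
def Meets (S : ℕ → Set SL(2, ℤ)) : Prop :=
  ∀ N : ℕ, 1 ≤ N → ∀ γ : SL(2, ℤ), (N : ℤ) ∣ γ 1 0 → 2 < |tr γ| →
    ∃ g : SL(2, ℤ), (N : ℤ) ∣ g 1 0 ∧ ∃ k : ℕ, 0 < k ∧ (g * γ * g⁻¹) ^ k ∈ S N

/-- The elements of the principal congruence subgroup `Γ(M N)` whose trace has absolute value at
least `L N`. -/
def Deep (M L : ℕ → ℕ) (N : ℕ) : Set SL(2, ℤ) :=
  {γ | γ ∈ CongruenceSubgroup.Gamma (M N) ∧ (L N : ℤ) ≤ |tr γ|}

lemma meets_deep (M L : ℕ → ℕ) (hM : ∀ N, M N ≠ 0) : Meets (Deep M L) := by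
  intro N _ γ _ ht
  refine ⟨1, by simp, ?_⟩
  have : NeZero (M N) := ⟨hM N⟩
  obtain ⟨k, hk, -, hkΓ⟩ := Subgroup.exists_pow_mem_of_index_ne_zero
    (H := CongruenceSubgroup.Gamma (M N)) (Subgroup.FiniteIndex.index_ne_zero) γ
  refine ⟨k * (L N + 1), by positivity, ?_⟩
  have e : (1 * γ * (1 : SL(2, ℤ))⁻¹) = γ := by group
  rw [e]
  refine ⟨by rw [pow_mul]; exact Subgroup.pow_mem _ hkΓ _, ?_⟩
  have h1 := tr_lower ht (k * (L N + 1))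
  have h2 : (L N : ℤ) ≤ ((k * (L N + 1) : ℕ) : ℤ) := by
    have : L N ≤ k * (L N + 1) := by nlinarith
    exact_mod_cast this
  linarith

variable {N : ℕ} {a : ℕ → ℤ} {Ω₁ Ω₂ : ℂ}

lemma coord_iff (ha : IsForm N a) (hb : IsBasis N a Ω₁ Ω₂) {γ : SL(2, ℤ)} (hγ : InG N γ) (X : ℝ) :
    CoordBound a Ω₁ Ω₂ (γ 0 0) (γ 0 1) (γ 1 0) (γ 1 1) X ↔
      |L₁ Ω₁ Ω₂ (Hs a γ)| ≤ X ∧ |L₂ Ω₂ (Hs a γ)| ≤ X := by
  constructor
  · intro h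
    obtain ⟨m, n, hmn⟩ := lattice ha hb (z := Hs a γ) ⟨γ, hγ, rfl⟩
    rw [hmn, L₁_apply hb, L₂_apply hb]
    exact h m n hmn
  · rintro ⟨h1, h2⟩ m n hmn
    have hmn' : Hs a γ = (m : ℂ) * Ω₁ + (n : ℂ) * Ω₂ := hmn
    rw [hmn', L₁_apply hb] at h1
    rw [hmn', L₂_apply hb] at h2
    exact ⟨h1, h2⟩

lemma log_of_geodesicBound (h : GeodesicBoundOn fun _ => Set.univ) : LogarithmicGrowth := by
  obtain ⟨κ, hκ, C, hC, h⟩ := h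
  refine ⟨κ, hκ, 2 * C, by positivity, ?_⟩
  intro N hN a ha Ω₁ Ω₂ hb p q r s hdet hr hr0
  have hN0 : (0 : ℝ) < N := by exact_mod_cast hN
  have hφ₁ := isCuspHom ha.toIsForm (L₁ Ω₁ Ω₂)
  have hφ₂ := isCuspHom ha.toIsForm (L₂ Ω₂)
  have hX : 0 ≤ C * (N : ℝ) ^ κ := by positivity
  have key : ∀ g : SL(2, ℤ), InG N g → 2 < |tr g| →
      |L₁ Ω₁ Ω₂ (Hs a g)| ≤ C * (N : ℝ) ^ κ * Real.log |((tr g : ℤ) : ℝ)| ∧
      |L₂ Ω₂ (Hs a g)| ≤ C * (N : ℝ) ^ κ * Real.log |((tr g : ℤ) : ℝ)| := fun g hg hg' =>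
    (coord_iff ha.toIsForm hb hg _).1 (h N hN a ha Ω₁ Ω₂ hb g hg hg' (Set.mem_univ _))
  have hγ : InG N (mk p q r s hdet) := hr
  have h1 := log_of_geodesic hφ₁ hX (fun g hg hg' => (key g hg hg').1) hγ hr0
  have h2 := log_of_geodesic hφ₂ hX (fun g hg hg' => (key g hg hg').2) hγ hr0
  have h3 := (coord_iff ha.toIsForm hb hγ _).2 ⟨h1, h2⟩
  have e : 2 * (C * (N : ℝ) ^ κ) = 2 * C * (N : ℝ) ^ κ := by ring
  rw [e] at h3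
  exact h3

lemma geodesicBound_of_log (h : LogarithmicGrowth) : GeodesicBoundOn fun _ => Set.univ := by
  obtain ⟨κ, hκ, C, hC, h⟩ := h
  refine ⟨κ, hκ, 2 * C, by positivity, ?_⟩
  intro N hN a ha Ω₁ Ω₂ hb γ hγ ht _
  have hN0 : (0 : ℝ) < N := by exact_mod_cast hN
  have hφ₁ := isCuspHom ha.toIsForm (L₁ Ω₁ Ω₂)
  have hφ₂ := isCuspHom ha.toIsForm (L₂ Ω₂)
  have hX : 0 ≤ C * (N : ℝ) ^ κ := by positivity
  have key : ∀ g : SL(2, ℤ), InG N g → g 1 0 ≠ 0 →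
      |L₁ Ω₁ Ω₂ (Hs a g)| ≤ C * (N : ℝ) ^ κ * (1 + Real.log |((g 1 0 : ℤ) : ℝ)|) ∧
      |L₂ Ω₂ (Hs a g)| ≤ C * (N : ℝ) ^ κ * (1 + Real.log |((g 1 0 : ℤ) : ℝ)|) := fun g hg hg' =>
    (coord_iff ha.toIsForm hb hg _).1
      (h N hN a ha Ω₁ Ω₂ hb (g 0 0) (g 0 1) (g 1 0) (g 1 1) (det_eq g) hg hg')
  have h1 := geodesic_of_log hφ₁ hX (fun g hg hg' => (key g hg hg').1) hγ ht
  have h2 := geodesic_of_log hφ₂ hX (fun g hg hg' => (key g hg hg').2) hγ ht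
  have h3 := (coord_iff ha.toIsForm hb hγ _).2 ⟨h1, h2⟩
  have e : 2 * (C * (N : ℝ) ^ κ) = 2 * C * (N : ℝ) ^ κ := by ring
  rw [e] at h3
  exact h3

lemma geodesicBound_of_on (S : ℕ → Set SL(2, ℤ)) (hS : Meets S) (h : GeodesicBoundOn S) :
    GeodesicBoundOn fun _ => Set.univ := by
  obtain ⟨κ, hκ, C, hC, h⟩ := h
  refine ⟨κ, hκ, 3 * C, by positivity, ?_⟩
  intro N hN a ha Ω₁ Ω₂ hb γ hγ ht _
  have hN0 : (0 : ℝ) < N := by exact_mod_cast hN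
  have hφ₁ := isCuspHom ha.toIsForm (L₁ Ω₁ Ω₂)
  have hφ₂ := isCuspHom ha.toIsForm (L₂ Ω₂)
  have hX : 0 ≤ C * (N : ℝ) ^ κ := by positivity
  have key : ∀ g : SL(2, ℤ), InG N g → g ∈ S N → 2 < |tr g| →
      |L₁ Ω₁ Ω₂ (Hs a g)| ≤ C * (N : ℝ) ^ κ * Real.log |((tr g : ℤ) : ℝ)| ∧
      |L₂ Ω₂ (Hs a g)| ≤ C * (N : ℝ) ^ κ * Real.log |((tr g : ℤ) : ℝ)| := fun g hg hgS hg' =>
    (coord_iff ha.toIsForm hb hg _).1 (h N hN a ha Ω₁ Ω₂ hb g hg hg' hgS)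
  have h1 := geodesic_of_set hφ₁ hX (S N) (hS N hN) (fun g hg hgS hg' => (key g hg hgS hg').1)
    hγ ht
  have h2 := geodesic_of_set hφ₂ hX (S N) (hS N hN) (fun g hg hgS hg' => (key g hg hgS hg').2)
    hγ ht
  have h3 := (coord_iff ha.toIsForm hb hγ _).2 ⟨h1, h2⟩
  have e : 3 * (C * (N : ℝ) ^ κ) = 3 * C * (N : ℝ) ^ κ := by ring
  rw [e] at h3
  exact h3

lemma two_pow_omega {N : ℕ} (hN : 1 ≤ N) : 64 ^ N.primeFactors.card ≤ N ^ 6 := by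
  have h1 : 2 ^ N.primeFactors.card ≤ N := by
    calc 2 ^ N.primeFactors.card ≤ ∏ p ∈ N.primeFactors, p :=
          Finset.pow_card_le_prod _ _ _ fun p hp => (Nat.prime_of_mem_primeFactors hp).two_le
      _ ≤ N := Nat.le_of_dvd hN (Nat.prod_primeFactors_dvd N)
  calc 64 ^ N.primeFactors.card = (2 ^ N.primeFactors.card) ^ 6 := by
        rw [← pow_mul, mul_comm, pow_mul]; norm_num
    _ ≤ N ^ 6 := Nat.pow_le_pow_left h1 6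

lemma polynomial_of_geodesicBound (h : GeodesicBoundOn fun _ => Set.univ) :
    PolynomialInTrace := by
  obtain ⟨κ, hκ, C, hC, h⟩ := h
  refine ⟨κ + 1, by positivity, C, hC, ?_⟩
  intro N hN a ha Ω₁ Ω₂ hb γ hγ ht
  have hN1 : (1 : ℝ) ≤ N := by exact_mod_cast hN
  have hN0 : (0 : ℝ) < N := by linarith
  obtain ⟨h1, h2⟩ := (coord_iff ha.toIsForm hb hγ _).1
    (h N hN a ha Ω₁ Ω₂ hb γ hγ ht (Set.mem_univ _))
  have ht1 : (1 : ℝ) ≤ |((tr γ : ℤ) : ℝ)| := by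
    have : (1 : ℤ) ≤ |tr γ| := by linarith
    exact_mod_cast this
  have h3 : C * (N : ℝ) ^ κ * Real.log |((tr γ : ℤ) : ℝ)| ≤
      C * ((N : ℝ) * |((tr γ : ℤ) : ℝ)|) ^ (κ + 1) := by
    have e1 : Real.log |((tr γ : ℤ) : ℝ)| ≤ |((tr γ : ℤ) : ℝ)| :=
      Real.log_le_self (by linarith)
    have e2 : (N : ℝ) ^ κ ≤ ((N : ℝ) * |((tr γ : ℤ) : ℝ)|) ^ κ :=
      Real.rpow_le_rpow hN0.le (by nlinarith) hκ.le
    have e3 : |((tr γ : ℤ) : ℝ)| ≤ (N : ℝ) * |((tr γ : ℤ) : ℝ)| := by nlinarith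
    rw [Real.rpow_add (by positivity), Real.rpow_one, mul_assoc]
    have e4 : (0 : ℝ) ≤ Real.log |((tr γ : ℤ) : ℝ)| := Real.log_nonneg ht1
    gcongr
    exact e1.trans e3
  exact (coord_iff ha.toIsForm hb hγ _).2 ⟨h1.trans h3, h2.trans h3⟩

lemma short_of_polynomial (h : PolynomialInTrace) (M : ℕ → ℕ) (hM : PolyLevels M) :
    ShortGeodesics M := by
  obtain ⟨κ, hκ, C, hC, h⟩ := h
  obtain ⟨A, hA⟩ := hM
  refine ⟨(7 * A + 1) * κ, by positivity, C * 19 ^ κ, by positivity, ?_⟩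
  intro N hN a ha Ω₁ Ω₂ hb γ hγ ht ht'
  obtain ⟨hdvd, hM0, hMA⟩ := hA N hN
  have hγ' : InG N γ := (Int.natCast_dvd_natCast.2 hdvd).trans hγ
  have hN1 : (1 : ℝ) ≤ N := by exact_mod_cast hN
  have hN0 : (0 : ℝ) < N := by linarith
  obtain ⟨h1, h2⟩ := (coord_iff ha.toIsForm hb hγ' _).1 (h N hN a ha Ω₁ Ω₂ hb γ hγ' ht)
  have h3 : |((tr γ : ℤ) : ℝ)| ≤ 19 * (N : ℝ) ^ (7 * A) := by
    have h4 : |((tr γ : ℤ) : ℝ)| ≤ 17 * 64 ^ (M N).primeFactors.card * (M N : ℝ) + 2 := by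
      exact_mod_cast ht'
    have h5 : (64 : ℝ) ^ (M N).primeFactors.card ≤ (M N : ℝ) ^ 6 := by
      exact_mod_cast two_pow_omega hM0
    have h6 : (1 : ℝ) ≤ (M N : ℝ) := by exact_mod_cast hM0
    have h7 : (M N : ℝ) ≤ (N : ℝ) ^ A := by exact_mod_cast hMA
    have h8 : (1 : ℝ) ≤ (M N : ℝ) ^ 7 := one_le_pow₀ h6
    calc |((tr γ : ℤ) : ℝ)| ≤ 17 * 64 ^ (M N).primeFactors.card * (M N : ℝ) + 2 := h4
      _ ≤ 17 * (M N : ℝ) ^ 6 * (M N : ℝ) + 2 * (M N : ℝ) ^ 7 := by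
          gcongr
          linarith
      _ = 19 * (M N : ℝ) ^ 7 := by ring
      _ ≤ 19 * ((N : ℝ) ^ A) ^ 7 := by gcongr
      _ = 19 * (N : ℝ) ^ (7 * A) := by rw [← pow_mul, mul_comm A 7]
  have h4 : C * ((N : ℝ) * |((tr γ : ℤ) : ℝ)|) ^ κ ≤ C * 19 ^ κ * (N : ℝ) ^ ((7 * A + 1) * κ) := by
    have e1 : (N : ℝ) * |((tr γ : ℤ) : ℝ)| ≤ 19 * (N : ℝ) ^ (7 * A + 1 : ℝ) := by
      have e2 : (N : ℝ) ^ (7 * A + 1 : ℝ) = (N : ℝ) ^ (7 * A + 1 : ℕ) := by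
        rw [← Real.rpow_natCast]; push_cast; rfl
      rw [e2, pow_succ]
      nlinarith
    calc C * ((N : ℝ) * |((tr γ : ℤ) : ℝ)|) ^ κ ≤ C * (19 * (N : ℝ) ^ (7 * A + 1 : ℝ)) ^ κ := by
          gcongr
      _ = C * 19 ^ κ * (N : ℝ) ^ ((7 * A + 1) * κ) := by
          rw [Real.mul_rpow (by norm_num) (by positivity), ← Real.rpow_mul hN0.le]
          ring
  exact (coord_iff ha.toIsForm hb hγ' _).2 ⟨h1.trans h4, h2.trans h4⟩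

lemma geodesicBound_of_short (M : ℕ → ℕ) (hM : PolyLevels M) (h : ShortGeodesics M) :
    GeodesicBoundOn fun _ => Set.univ := by
  obtain ⟨κ, hκ, C, hC, h⟩ := h
  obtain ⟨A, hA⟩ := hM
  refine ⟨κ + A, by positivity, 24 * C, by positivity, ?_⟩
  intro N hN a ha Ω₁ Ω₂ hb γ hγ ht _
  obtain ⟨hdvd, hM0, hMA⟩ := hA N hN
  have hN0 : (0 : ℝ) < N := by exact_mod_cast hN
  have hX : 0 ≤ C * (N : ℝ) ^ κ := by positivity
  have hsub : ∀ g : SL(2, ℤ), InG (M N) g → InG N g := fun g hg =>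
    (Int.natCast_dvd_natCast.2 hdvd).trans hg
  have h7 : ((smallEntry (M N) : ℕ) : ℤ) = 17 * 64 ^ (M N).primeFactors.card * (M N) := by
    unfold smallEntry; push_cast; ring
  have hMR : (M N : ℝ) ≤ (N : ℝ) ^ (A : ℝ) := by
    rw [Real.rpow_natCast]; exact_mod_cast hMA
  have main : ∀ L : ℂ →ₗ[ℝ] ℝ, (∀ g : SL(2, ℤ), InG (M N) g → 2 < |tr g| →
      |tr g| ≤ (smallEntry (M N) : ℤ) + 2 → |L (Hs a g)| ≤ C * (N : ℝ) ^ κ) →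
      |L (Hs a γ)| ≤ 24 * C * (N : ℝ) ^ (κ + A) * Real.log |((tr γ : ℤ) : ℝ)| := by
    intro L hL
    have hφ := isCuspHom ha.toIsForm L
    have hφM : IsCuspHom (M N) (fun g => L (Hs a g)) :=
      ⟨fun g g' hg hg' => hφ.map_mul g g' (hsub g hg) (hsub g' hg'),
        fun g hg hp => hφ.parabolic g (hsub g hg) hp⟩
    have s1 : ∀ g : SL(2, ℤ), InG (M N) g → |g 1 0| ≤ smallEntry (M N) →
        |L (Hs a g)| ≤ C * (N : ℝ) ^ κ := fun g hg hg' =>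
      small_of_short hφM hX (K := smallEntry (M N)) hL hg hg'
    have s2 : ∀ g : SL(2, ℤ), InG (M N) g → g 1 0 ≠ 0 → |L (Hs a g)| ≤
        4 * (C * (N : ℝ) ^ κ) * (M N) * (1 + Real.log |((g 1 0 : ℤ) : ℝ)|) := fun g hg hg' =>
      growth_small hφM hM0 s1 hg hg'
    have s3 : ∀ g : SL(2, ℤ), InG (M N) g → 2 < |tr g| → |L (Hs a g)| ≤
        2 * (4 * (C * (N : ℝ) ^ κ) * (M N)) * Real.log |((tr g : ℤ) : ℝ)| := fun g hg hg' =>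
      geodesic_of_log hφM (by positivity) s2 hg hg'
    have s4 := geodesic_of_set hφ (X := 2 * (4 * (C * (N : ℝ) ^ κ) * (M N))) (by positivity)
      {g | InG (M N) g} (fun g hg hg' => by
        have : NeZero (M N) := ⟨hM0.ne'⟩
        obtain ⟨k, hk, -, hkΓ⟩ := Subgroup.exists_pow_mem_of_index_ne_zero
          (H := CongruenceSubgroup.Gamma (M N)) (Subgroup.FiniteIndex.index_ne_zero) g
        refine ⟨1, inG_one, k, hk, ?_⟩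
        have e : (1 * g * (1 : SL(2, ℤ))⁻¹) = g := by group
        rw [e]
        have := (CongruenceSubgroup.Gamma_mem.1 hkΓ).2.2.1
        exact (ZMod.intCast_zmod_eq_zero_iff_dvd _ _).1 this)
      (fun g _ hgS hg' => s3 g hgS hg') hγ ht
    refine s4.trans ?_
    have hlog : 0 ≤ Real.log |((tr γ : ℤ) : ℝ)| := (zero_le_one).trans (log_add_one ht).2
    have e : 3 * (2 * (4 * (C * (N : ℝ) ^ κ) * (M N))) ≤ 24 * C * (N : ℝ) ^ (κ + A) := by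
      rw [Real.rpow_add hN0]
      calc 3 * (2 * (4 * (C * (N : ℝ) ^ κ) * (M N))) = 24 * C * ((N : ℝ) ^ κ * (M N)) := by ring
        _ ≤ 24 * C * ((N : ℝ) ^ κ * (N : ℝ) ^ (A : ℝ)) := by gcongr
    gcongr
  have key : ∀ g : SL(2, ℤ), InG (M N) g → 2 < |tr g| → |tr g| ≤ (smallEntry (M N) : ℤ) + 2 →
      |L₁ Ω₁ Ω₂ (Hs a g)| ≤ C * (N : ℝ) ^ κ ∧ |L₂ Ω₂ (Hs a g)| ≤ C * (N : ℝ) ^ κ :=
    fun g hg hg' hg'' => (coord_iff ha.toIsForm hb (hsub g hg) _).1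
      (h N hN a ha Ω₁ Ω₂ hb g hg hg' (by rw [h7] at hg''; exact hg''))
  exact (coord_iff ha.toIsForm hb hγ _).2
    ⟨main _ fun g h1 h2 h3 => (key g h1 h2 h3).1, main _ fun g h1 h2 h3 => (key g h1 h2 h3).2⟩

lemma GeodesicBoundOn.mono {S S' : ℕ → Set SL(2, ℤ)} (h : ∀ N, S' N ⊆ S N)
    (hS : GeodesicBoundOn S) : GeodesicBoundOn S' := by
  obtain ⟨κ, hκ, C, hC, hS⟩ := hS
  exact ⟨κ, hκ, C, hC, fun N hN a ha Ω₁ Ω₂ hb γ hγ ht hγS =>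
    hS N hN a ha Ω₁ Ω₂ hb γ hγ ht (h N hγS)⟩

lemma polyLevels_id : PolyLevels id :=
  ⟨1, fun N hN => ⟨dvd_rfl, hN, by simp⟩⟩

theorem geodesic_tfae : List.TFAE [EntriesAtMost 2,
    GeodesicBoundOn fun _ => Set.univ,
    PolynomialInTrace,
    ∀ M : ℕ → ℕ, PolyLevels M → ShortGeodesics M,
    ∃ M : ℕ → ℕ, PolyLevels M ∧ ShortGeodesics M,
    ∀ M L : ℕ → ℕ, (∀ N, M N ≠ 0) → GeodesicBoundOn (Deep M L),
    ∃ S : ℕ → Set SL(2, ℤ), Meets S ∧ GeodesicBoundOn S] := by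
  have h0 := shimura_tfae_small
  tfae_have 1 → 2 := fun h => geodesicBound_of_log ((h0.out 0 3).1 h)
  tfae_have 2 → 1 := fun h => (h0.out 0 3).2 (log_of_geodesicBound h)
  tfae_have 2 → 3 := polynomial_of_geodesicBound
  tfae_have 3 → 4 := short_of_polynomial
  tfae_have 4 → 5 := fun h => ⟨id, polyLevels_id, h id polyLevels_id⟩
  tfae_have 5 → 2 := by
    rintro ⟨M, hM, h⟩
    exact geodesicBound_of_short M hM h
  tfae_have 2 → 6 := fun h M L _ => h.mono fun N => Set.subset_univ _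
  tfae_have 6 → 7 := fun h => ⟨Deep (fun _ => 1) (fun _ => 0),
    meets_deep _ _ (fun _ => one_ne_zero), h _ _ fun _ => one_ne_zero⟩
  tfae_have 7 → 2 := by
    rintro ⟨S, hS, h⟩
    exact geodesicBound_of_on S hS h
  tfae_finish

end Pool.Agent.R948.GE
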