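import Pool.Agent.R948.GEb

set_option autoImplicit false

open Pool.Agent.TH133.SH

namespace Pool.Agent.R948.GE

/-- The frozen statement `S18337`, word for word. -/
def Q1 : Prop :=
  ∃ κ : ℝ, 0 < κ ∧ ∃ C : ℝ, 0 < C ∧
  ∀ N : ℕ, 1 ≤ N → ∀ a : ℕ → ℤ,
    a 0 = 0 → a 1 = 1 →
    (∀ τ : ℂ, 0 < τ.im → Summable (fun k : ℕ => (a k : ℂ) * Complex.exp (2 * (Real.pi : ℂ) * Complex.I * (k : ℂ) * τ))) →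
    (∀ τ : ℂ, 0 < τ.im → ∀ p q r s : ℤ, p * s - q * r = 1 → (N : ℤ) ∣ r →
      ∑' k : ℕ, (a k : ℂ) * Complex.exp (2 * (Real.pi : ℂ) * Complex.I * (k : ℂ) * (((p : ℂ) * τ + (q : ℂ)) / ((r : ℂ) * τ + (s : ℂ))))
        = ((r : ℂ) * τ + (s : ℂ)) ^ 2 * ∑' k : ℕ, (a k : ℂ) * Complex.exp (2 * (Real.pi : ℂ) * Complex.I * (k : ℂ) * τ)) →
    (∃ B : ℝ, ∀ τ : ℂ, 0 < τ.im →
      τ.im * ‖∑' k : ℕ, (a k : ℂ) * Complex.exp (2 * (Real.pi : ℂ) * Complex.I * (k : ℂ) * τ)‖ ≤ B) →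
    (∀ ℓ : ℕ, ℓ.Prime → ¬ ℓ ∣ N → ∀ n : ℕ,
      a (ℓ * n) + (if ℓ ∣ n then (ℓ : ℤ) * a (n / ℓ) else 0) = a ℓ * a n) →
    (∀ M : ℕ, 0 < M → M ∣ N → M < N → ∀ b : ℕ → ℂ,
      (∀ τ : ℂ, 0 < τ.im → Summable (fun k : ℕ => b k * Complex.exp (2 * (Real.pi : ℂ) * Complex.I * (k : ℂ) * τ))) →
      (∀ τ : ℂ, 0 < τ.im → ∀ p q r s : ℤ, p * s - q * r = 1 → (M : ℤ) ∣ r →
        ∑' k : ℕ, b k * Complex.exp (2 * (Real.pi : ℂ) * Complex.I * (k : ℂ) * (((p : ℂ) * τ + (q : ℂ)) / ((r : ℂ) * τ + (s : ℂ))))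
          = ((r : ℂ) * τ + (s : ℂ)) ^ 2 * ∑' k : ℕ, b k * Complex.exp (2 * (Real.pi : ℂ) * Complex.I * (k : ℂ) * τ)) →
      (∃ B : ℝ, ∀ τ : ℂ, 0 < τ.im →
        τ.im * ‖∑' k : ℕ, b k * Complex.exp (2 * (Real.pi : ℂ) * Complex.I * (k : ℂ) * τ)‖ ≤ B) →
      (∀ ℓ : ℕ, ℓ.Prime → ¬ ℓ ∣ N → ∀ n : ℕ,
        b (ℓ * n) + (if ℓ ∣ n then (ℓ : ℂ) * b (n / ℓ) else 0) = (a ℓ : ℂ) * b n) →
      ∀ n : ℕ, b n = 0) →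
    ∀ Ω₁ Ω₂ : ℂ,
      Ω₁.im = 0 → 0 < Ω₁.re →
      (∃ p q r s : ℤ, p * s - q * r = 1 ∧ (N : ℤ) ∣ r ∧
        Ω₁ = (∑' k : ℕ, (a k : ℂ) / (k : ℂ) * Complex.exp (2 * (Real.pi : ℂ) * Complex.I * (k : ℂ) * (((p : ℂ) * Complex.I + (q : ℂ)) / ((r : ℂ) * Complex.I + (s : ℂ)))))
          - ∑' k : ℕ, (a k : ℂ) / (k : ℂ) * Complex.exp (2 * (Real.pi : ℂ) * Complex.I * (k : ℂ) * Complex.I)) →
      (∀ p q r s : ℤ, p * s - q * r = 1 → (N : ℤ) ∣ r →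
        ((∑' k : ℕ, (a k : ℂ) / (k : ℂ) * Complex.exp (2 * (Real.pi : ℂ) * Complex.I * (k : ℂ) * (((p : ℂ) * Complex.I + (q : ℂ)) / ((r : ℂ) * Complex.I + (s : ℂ)))))
          - ∑' k : ℕ, (a k : ℂ) / (k : ℂ) * Complex.exp (2 * (Real.pi : ℂ) * Complex.I * (k : ℂ) * Complex.I)).im = 0 →
        0 < ((∑' k : ℕ, (a k : ℂ) / (k : ℂ) * Complex.exp (2 * (Real.pi : ℂ) * Complex.I * (k : ℂ) * (((p : ℂ) * Complex.I + (q : ℂ)) / ((r : ℂ) * Complex.I + (s : ℂ)))))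
          - ∑' k : ℕ, (a k : ℂ) / (k : ℂ) * Complex.exp (2 * (Real.pi : ℂ) * Complex.I * (k : ℂ) * Complex.I)).re →
        Ω₁.re ≤ ((∑' k : ℕ, (a k : ℂ) / (k : ℂ) * Complex.exp (2 * (Real.pi : ℂ) * Complex.I * (k : ℂ) * (((p : ℂ) * Complex.I + (q : ℂ)) / ((r : ℂ) * Complex.I + (s : ℂ)))))
          - ∑' k : ℕ, (a k : ℂ) / (k : ℂ) * Complex.exp (2 * (Real.pi : ℂ) * Complex.I * (k : ℂ) * Complex.I)).re) →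
      0 < Ω₂.im → 0 ≤ Ω₂.re → Ω₂.re < Ω₁.re →
      (∃ p q r s : ℤ, p * s - q * r = 1 ∧ (N : ℤ) ∣ r ∧
        Ω₂ = (∑' k : ℕ, (a k : ℂ) / (k : ℂ) * Complex.exp (2 * (Real.pi : ℂ) * Complex.I * (k : ℂ) * (((p : ℂ) * Complex.I + (q : ℂ)) / ((r : ℂ) * Complex.I + (s : ℂ)))))
          - ∑' k : ℕ, (a k : ℂ) / (k : ℂ) * Complex.exp (2 * (Real.pi : ℂ) * Complex.I * (k : ℂ) * Complex.I)) →
      (∀ p q r s : ℤ, p * s - q * r = 1 → (N : ℤ) ∣ r →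
        0 < ((∑' k : ℕ, (a k : ℂ) / (k : ℂ) * Complex.exp (2 * (Real.pi : ℂ) * Complex.I * (k : ℂ) * (((p : ℂ) * Complex.I + (q : ℂ)) / ((r : ℂ) * Complex.I + (s : ℂ)))))
          - ∑' k : ℕ, (a k : ℂ) / (k : ℂ) * Complex.exp (2 * (Real.pi : ℂ) * Complex.I * (k : ℂ) * Complex.I)).im →
        Ω₂.im ≤ ((∑' k : ℕ, (a k : ℂ) / (k : ℂ) * Complex.exp (2 * (Real.pi : ℂ) * Complex.I * (k : ℂ) * (((p : ℂ) * Complex.I + (q : ℂ)) / ((r : ℂ) * Complex.I + (s : ℂ)))))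
          - ∑' k : ℕ, (a k : ℂ) / (k : ℂ) * Complex.exp (2 * (Real.pi : ℂ) * Complex.I * (k : ℂ) * Complex.I)).im) →
      ∀ α β γ δ : ℤ, α * δ - β * γ = 1 → (N : ℤ) ∣ γ →
        |α| ≤ (N : ℤ) ^ 2 → |β| ≤ (N : ℤ) ^ 2 → |γ| ≤ (N : ℤ) ^ 2 → |δ| ≤ (N : ℤ) ^ 2 →
        ∀ m n : ℤ,
          (∑' k : ℕ, (a k : ℂ) / (k : ℂ) * Complex.exp (2 * (Real.pi : ℂ) * Complex.I * (k : ℂ) * (((α : ℂ) * Complex.I + (β : ℂ)) / ((γ : ℂ) * Complex.I + (δ : ℂ)))))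
            - ∑' k : ℕ, (a k : ℂ) / (k : ℂ) * Complex.exp (2 * (Real.pi : ℂ) * Complex.I * (k : ℂ) * Complex.I)
            = (m : ℂ) * Ω₁ + (n : ℂ) * Ω₂ →
          |(m : ℝ)| ≤ C * (N : ℝ) ^ κ ∧ |(n : ℝ)| ≤ C * (N : ℝ) ^ κ

lemma q1_iff : Q1 ↔ EntriesAtMost 2 := by
  constructor
  · rintro ⟨κ, hκ, C, hC, h⟩
    refine ⟨κ, hκ, C, hC, ?_⟩
    intro N hN a ha Ω₁ Ω₂ hb p q r s hdet hr h1 h2 h3 h4 m n hmn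
    exact h N hN a ha.zero ha.one ha.summable ha.modular ha.bounded ha.hecke ha.new Ω₁ Ω₂ hb.im₁
      hb.re₁ hb.mem₁ hb.min₁ hb.im₂ hb.re₂ hb.re₂' hb.mem₂ hb.min₂ p q r s hdet hr h1 h2 h3 h4 m n
      hmn
  · rintro ⟨κ, hκ, C, hC, h⟩
    refine ⟨κ, hκ, C, hC, ?_⟩
    intro N hN a h0 h1 hs hm hb hh hn Ω₁ Ω₂ b1 b2 b3 b4 b5 b6 b7 b8 b9 p q r s hdet hr e1 e2 e3 e4
      m n hmn
    exact h N hN a ⟨⟨h0, hs, hm, hb⟩, h1, hh, hn⟩ Ω₁ Ω₂ ⟨b1, b2, b3, b4, b5, b6, b7, b8, b9⟩ p q r s hdet hr e1 e2 e3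
      e4 m n hmn

end Pool.Agent.R948.GE
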