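import Pool.Agent.R948.GEc

/-!
# Homomorphisms on `Γ₀(N)` which vanish on parabolic elements: small matrices in `Γ(M)`
-/

set_option autoImplicit false

open Complex Matrix.SpecialLinearGroup MatrixGroups ModularGroup
open Pool.Agent.TH133.SH

namespace Pool.Agent.R948.GE

/-- Lower triangular matrices. -/
def Lo (y : ℤ) : SL(2, ℤ) := mk 1 0 y 1 (by ring)

lemma Lo_ent (y : ℤ) : Lo y 0 0 = 1 ∧ Lo y 0 1 = 0 ∧ Lo y 1 0 = y ∧ Lo y 1 1 = 1 :=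
  ⟨rfl, rfl, rfl, rfl⟩

lemma bd_of {m : ℤ} {g : SL(2, ℤ)} (h0 : |g 0 0| ≤ m) (h1 : |g 0 1| ≤ m) (h2 : |g 1 0| ≤ m)
    (h3 : |g 1 1| ≤ m) : Bounded m g := by
  intro i j
  fin_cases i <;> fin_cases j
  · exact h0
  · exact h1
  · exact h2
  · exact h3

lemma bd_mul {a b : ℤ} {g h : SL(2, ℤ)} (ha : Bounded a g) (hb : Bounded b h) :
    Bounded (2 * a * b) (g * h) := by
  intro i j
  rw [mul_ij]
  have h1 := ha i 0
  have h2 := ha i 1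
  have h3 := hb 0 j
  have h4 := hb 1 j
  have ha0 : 0 ≤ a := (abs_nonneg _).trans h1
  calc |g i 0 * h 0 j + g i 1 * h 1 j| ≤ |g i 0 * h 0 j| + |g i 1 * h 1 j| := abs_add_le _ _
    _ = |g i 0| * |h 0 j| + |g i 1| * |h 1 j| := by rw [abs_mul, abs_mul]
    _ ≤ a * b + a * b := by gcongr
    _ = 2 * a * b := by ring

lemma bd_inv {a : ℤ} {g : SL(2, ℤ)} (ha : Bounded a g) : Bounded a g⁻¹ := by
  refine bd_of ?_ ?_ ?_ ?_
  · rw [inv00]; exact ha 1 1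
  · rw [inv01, abs_neg]; exact ha 0 1
  · rw [inv10, abs_neg]; exact ha 1 0
  · rw [inv11]; exact ha 0 0

lemma bd_mono {a b : ℤ} (hab : a ≤ b) {g : SL(2, ℤ)} (ha : Bounded a g) : Bounded b g :=
  fun i j => (ha i j).trans hab

lemma bd_T {k m : ℤ} (hk : |k| ≤ m) (hm : 1 ≤ m) : Bounded m (ModularGroup.T ^ k) := by
  obtain ⟨e1, e2, e3, e4⟩ := T_pow k
  refine bd_of ?_ ?_ ?_ ?_
  · rw [e1]; simpa using hm
  · rw [e2]; exact hk
  · rw [e3]; simp; linarith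
  · rw [e4]; simpa using hm

lemma bd_Lo {k m : ℤ} (hk : |k| ≤ m) (hm : 1 ≤ m) : Bounded m (Lo k) := by
  obtain ⟨e1, e2, e3, e4⟩ := Lo_ent k
  refine bd_of ?_ ?_ ?_ ?_
  · rw [e1]; simpa using hm
  · rw [e2]; simp; linarith
  · rw [e3]; exact hk
  · rw [e4]; simpa using hm

lemma bd_S : Bounded 1 ModularGroup.S := by
  obtain ⟨e1, e2, e3, e4⟩ := S_ent
  refine bd_of ?_ ?_ ?_ ?_ <;> simp [e1, e2, e3, e4]

lemma gamma_iff {M : ℕ} {g : SL(2, ℤ)} : g ∈ CongruenceSubgroup.Gamma M ↔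
    ((g 0 0 : ℤ) : ZMod M) = 1 ∧ ((g 0 1 : ℤ) : ZMod M) = 0 ∧ ((g 1 0 : ℤ) : ZMod M) = 0 ∧
      ((g 1 1 : ℤ) : ZMod M) = 1 := CongruenceSubgroup.Gamma_mem

/-- Every element is congruent modulo `M` to one with entries at most `16 M ^ 4`. -/
lemma small_lift {M : ℕ} (hM : 0 < M) (h : SL(2, ℤ)) :
    ∃ r : SL(2, ℤ), Bounded (16 * (M : ℤ) ^ 4) r ∧ h * r⁻¹ ∈ CongruenceSubgroup.Gamma M := by
  have : NeZero M := ⟨hM.ne'⟩
  have hM1 : (1 : ℤ) ≤ M := by exact_mod_cast hM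
  have hdet := det_eq h
  obtain ⟨k₀, -, u, v, huv⟩ := exists_coprime_term hM.ne' (h 1 1) (h 1 0)
    ⟨h 0 0, -h 0 1, by linear_combination hdet⟩
  -- in `ZMod M`
  have huv' : ((u : ℤ) : ZMod M) * (((h 1 1 : ℤ) : ZMod M) + (k₀ : ZMod M) * ((h 1 0 : ℤ) : ZMod M))
      = 1 := by
    have := congrArg (fun z : ℤ => (z : ZMod M)) huv
    push_cast at this
    simpa using this
  set c : ZMod M := ((h 1 0 : ℤ) : ZMod M) with hc
  set d : ZMod M := ((h 1 1 : ℤ) : ZMod M) with hd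
  set kk : ZMod M := (k₀ : ZMod M) with hkk
  set y : ZMod M := (1 - c) * (u : ZMod M) with hy
  set z : ZMod M := 1 - (d + kk * c) with hz
  have hval : ∀ x : ZMod M, (((x.val : ℕ) : ℤ) : ZMod M) = x := by
    intro x
    rw [Int.cast_natCast, ZMod.natCast_val, ZMod.cast_id', id]
  have hvb : ∀ x : ZMod M, |((x.val : ℕ) : ℤ)| ≤ (M : ℤ) := by
    intro x
    rw [Nat.abs_cast]
    exact_mod_cast (ZMod.val_lt x).le
  set g₁ := h * ModularGroup.T ^ ((kk.val : ℕ) : ℤ) with hg₁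
  set g₂ := g₁ * Lo ((y.val : ℕ) : ℤ) with hg₂
  set g₃ := g₂ * ModularGroup.T ^ ((z.val : ℕ) : ℤ) with hg₃
  set g₄ := g₃ * Lo (-1) with hg₄
  set w : ZMod M := -((g₄ 0 1 : ℤ) : ZMod M) with hw
  set g₅ := g₄ * ModularGroup.T ^ ((w.val : ℕ) : ℤ) with hg₅
  have hT : ∀ (g : SL(2, ℤ)) (k : ℤ) (i : Fin 2), (g * ModularGroup.T ^ k) i 0 = g i 0 ∧
      (g * ModularGroup.T ^ k) i 1 = k * g i 0 + g i 1 := by
    intro g k i
    obtain ⟨e1, e2, e3, e4⟩ := T_pow k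
    constructor
    · rw [mul_ij, e1, e3]; ring
    · rw [mul_ij, e2, e4]; ring
  have hLo : ∀ (g : SL(2, ℤ)) (k : ℤ) (i : Fin 2), (g * Lo k) i 0 = g i 0 + k * g i 1 ∧
      (g * Lo k) i 1 = g i 1 := by
    intro g k i
    obtain ⟨e1, e2, e3, e4⟩ := Lo_ent k
    constructor
    · rw [mul_ij, e1, e3]; ring
    · rw [mul_ij, e2, e4]; ring
  have a1 : ((g₁ 1 0 : ℤ) : ZMod M) = c := by rw [hg₁, (hT _ _ _).1]
  have a2 : ((g₁ 1 1 : ℤ) : ZMod M) = d + kk * c := by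
    rw [hg₁, (hT _ _ _).2]
    push_cast
    rw [← Int.cast_natCast (R := ZMod M), hval]
    ring
  have b1 : ((g₂ 1 0 : ℤ) : ZMod M) = 1 := by
    rw [hg₂, (hLo _ _ _).1]
    push_cast
    rw [← Int.cast_natCast (R := ZMod M), hval, a1, a2, hy]
    linear_combination (1 - c) * huv'
  have b2 : ((g₂ 1 1 : ℤ) : ZMod M) = d + kk * c := by rw [hg₂, (hLo _ _ _).2, a2]
  have c1 : ((g₃ 1 0 : ℤ) : ZMod M) = 1 := by rw [hg₃, (hT _ _ _).1, b1]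
  have c2 : ((g₃ 1 1 : ℤ) : ZMod M) = 1 := by
    rw [hg₃, (hT _ _ _).2]
    push_cast
    rw [← Int.cast_natCast (R := ZMod M), hval, b1, b2, hz]
    ring
  have d1 : ((g₄ 1 0 : ℤ) : ZMod M) = 0 := by
    rw [hg₄, (hLo _ _ _).1]
    push_cast
    rw [c1, c2]
    ring
  have d2 : ((g₄ 1 1 : ℤ) : ZMod M) = 1 := by rw [hg₄, (hLo _ _ _).2, c2]
  have d3 : ((g₄ 0 0 : ℤ) : ZMod M) = 1 := by
    have h1 := congrArg (fun z : ℤ => (z : ZMod M)) (det_eq g₄)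
    push_cast at h1
    rw [d1, d2] at h1
    simpa using h1
  have hmem : g₅ ∈ CongruenceSubgroup.Gamma M := by
    rw [gamma_iff, hg₅, (hT _ _ _).1, (hT _ _ _).1, (hT _ _ _).2, (hT _ _ _).2]
    push_cast
    rw [← Int.cast_natCast (R := ZMod M), hval, d1, d2, d3, hw]
    refine ⟨rfl, by ring, rfl, by ring⟩
  set s := ModularGroup.T ^ ((kk.val : ℕ) : ℤ) * Lo ((y.val : ℕ) : ℤ) *
    ModularGroup.T ^ ((z.val : ℕ) : ℤ) * Lo (-1) * ModularGroup.T ^ ((w.val : ℕ) : ℤ) with hs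
  have hsb : Bounded (16 * (M : ℤ) ^ 4) s := by
    have h1 := bd_mul (bd_mul (bd_mul (bd_mul (bd_T (hvb kk) hM1) (bd_Lo (hvb y) hM1))
      (bd_T (hvb z) hM1)) (bd_Lo (k := -1) (m := 1) (by norm_num) le_rfl)) (bd_T (hvb w) hM1)
    refine bd_mono (le_of_eq ?_) h1
    ring
  refine ⟨s⁻¹, bd_inv hsb, ?_⟩
  have e : h * (s⁻¹)⁻¹ = g₅ := by
    rw [inv_inv, hs, hg₅, hg₄, hg₃, hg₂, hg₁]
    simp only [mul_assoc]
  rw [e]
  exact hmem

end Pool.Agent.R948.GE
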