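import Pool.Agent.R948.GEd

/-!
# Logarithmic growth on `Γ(M)` from small matrices in `Γ(M)`
-/

set_option autoImplicit false

open Complex Matrix.SpecialLinearGroup MatrixGroups ModularGroup
open Pool.Agent.TH133.SH

namespace Pool.Agent.R948.GE

variable {N M : ℕ} {φ : SL(2, ℤ) → ℝ}

lemma inG_of_gamma (hNM : N ∣ M) {g : SL(2, ℤ)} (hg : g ∈ CongruenceSubgroup.Gamma M) :
    InG N g := by
  have h1 := (gamma_iff.1 hg).2.2.1
  exact (Int.natCast_dvd_natCast.2 hNM).trans ((ZMod.intCast_zmod_eq_zero_iff_dvd _ _).1 h1)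

/-- `g` is the product of an element of `Γ(M)` at which `φ` is at most `Y` and of a small element. -/
def PP (M : ℕ) (φ : SL(2, ℤ) → ℝ) (g : SL(2, ℤ)) (Y : ℝ) : Prop :=
  ∃ γ r : SL(2, ℤ), γ ∈ CongruenceSubgroup.Gamma M ∧ Bounded (16 * (M : ℤ) ^ 4) r ∧ g = γ * r ∧
    |φ γ| ≤ Y

lemma PP.mono {g : SL(2, ℤ)} {Y Z : ℝ} (h : PP M φ g Y) (hYZ : Y ≤ Z) : PP M φ g Z := by
  obtain ⟨γ, r, h1, h2, h3, h4⟩ := h
  exact ⟨γ, r, h1, h2, h3, h4.trans hYZ⟩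

lemma PP.step (h : IsCuspHom N φ) (hNM : N ∣ M) (hM : 0 < M) {X : ℝ}
    (hX : ∀ γ ∈ CongruenceSubgroup.Gamma M, Bounded (1024 * (M : ℤ) ^ 9) γ → |φ γ| ≤ X)
    {g : SL(2, ℤ)} {Y : ℝ} (hg : PP M φ g Y) {s : SL(2, ℤ)} (hs : Bounded (M : ℤ) s) :
    PP M φ (g * s) (Y + X) := by
  obtain ⟨γ, r, h1, h2, h3, h4⟩ := hg
  obtain ⟨r', h5, h6⟩ := small_lift hM (r * s)
  have h7 : Bounded (1024 * (M : ℤ) ^ 9) (r * s * r'⁻¹) := by
    refine bd_mono (le_of_eq ?_) (bd_mul (bd_mul h2 hs) (bd_inv h5))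
    ring
  refine ⟨γ * (r * s * r'⁻¹), r', Subgroup.mul_mem _ h1 h6, h5, ?_, ?_⟩
  · rw [h3]; group
  · rw [h.map_mul _ _ (inG_of_gamma hNM h1) (inG_of_gamma hNM h6)]
    exact (abs_add_le _ _).trans (add_le_add h4 (hX _ h6 h7))

lemma PP.stepT (h : IsCuspHom N φ) (hNM : N ∣ M) (hM : 0 < M) {X : ℝ}
    (hX : ∀ γ ∈ CongruenceSubgroup.Gamma M, Bounded (1024 * (M : ℤ) ^ 9) γ → |φ γ| ≤ X)
    {g : SL(2, ℤ)} {Y : ℝ} (hg : PP M φ g Y) (k : ℤ) :
    PP M φ (g * ModularGroup.T ^ k) (Y + X) := by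
  have hM0 : (0 : ℤ) < M := by exact_mod_cast hM
  set q := k / M with hq
  set k₀ := k % M with hk₀
  have hk : k = M * q + k₀ := (Int.mul_ediv_add_emod k M).symm
  have hk0 : 0 ≤ k₀ := Int.emod_nonneg _ hM0.ne'
  have hk1 : k₀ < M := Int.emod_lt_of_pos _ hM0
  have hTm : ModularGroup.T ^ ((M : ℤ) * q) ∈ CongruenceSubgroup.Gamma M := by
    obtain ⟨e1, e2, e3, e4⟩ := T_pow ((M : ℤ) * q)
    rw [gamma_iff, e1, e2, e3, e4]
    push_cast
    simp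
  have h1 : PP M φ (g * ModularGroup.T ^ ((M : ℤ) * q)) Y := by
    obtain ⟨γ, r, h1, h2, h3, h4⟩ := hg
    have hn : r * ModularGroup.T ^ ((M : ℤ) * q) * r⁻¹ ∈ CongruenceSubgroup.Gamma M :=
      (CongruenceSubgroup.Gamma_normal M).conj_mem _ hTm r
    refine ⟨γ * (r * ModularGroup.T ^ ((M : ℤ) * q) * r⁻¹), r, Subgroup.mul_mem _ h1 hn, h2, ?_, ?_⟩
    · rw [h3]; group
    · rw [h.map_mul _ _ (inG_of_gamma hNM h1) (inG_of_gamma hNM hn)]
      have h5 : φ (r * ModularGroup.T ^ ((M : ℤ) * q) * r⁻¹) = 0 := by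
        apply h.parabolic _ (inG_of_gamma hNM hn)
        have h6 : tr (r * ModularGroup.T ^ ((M : ℤ) * q) * r⁻¹) = 2 := by
          rw [tr_conj]
          obtain ⟨e1, e2, e3, e4⟩ := T_pow ((M : ℤ) * q)
          unfold tr
          rw [e1, e4]
          norm_num
        unfold tr at h6
        rw [h6]
        norm_num
      rw [h5, add_zero]
      exact h4
  have h2 := h1.step h hNM hM hX (s := ModularGroup.T ^ k₀)
    (bd_T (by rw [abs_of_nonneg hk0]; exact hk1.le) (by omega))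
  have e : g * ModularGroup.T ^ ((M : ℤ) * q) * ModularGroup.T ^ k₀ = g * ModularGroup.T ^ k := by
    rw [mul_assoc, ← zpow_add, ← hk]
  rwa [e] at h2

lemma lower_zero {g : SL(2, ℤ)} (hg : g 1 0 = 0) :
    g = ModularGroup.T ^ (g 0 1) ∨ g = ModularGroup.S * ModularGroup.S *
      ModularGroup.T ^ (-g 0 1) := by
  have hd := det_eq g
  rw [hg, mul_zero, sub_zero] at hd
  rcases Int.eq_one_or_neg_one_of_mul_eq_one' hd with ⟨h2, h3⟩ | ⟨h2, h3⟩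
  · left
    obtain ⟨e1, e2, e3, e4⟩ := T_pow (g 0 1)
    ext i j
    fin_cases i <;> fin_cases j
    · show g 0 0 = _; rw [h2]; exact e1.symm
    · exact e2.symm
    · show g 1 0 = _; rw [hg]; exact e3.symm
    · show g 1 1 = _; rw [h3]; exact e4.symm
  · right
    obtain ⟨e1, e2, e3, e4⟩ := T_pow (-g 0 1)
    obtain ⟨s1, s2, s3, s4⟩ := S_ent
    ext i j
    fin_cases i <;> fin_cases j
    · show g 0 0 = (ModularGroup.S * ModularGroup.S * ModularGroup.T ^ (-g 0 1)) 0 0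
      rw [mul_ij, mul_ij, mul_ij, s1, s2, s3, s4, e1, e3, h2]; norm_num
    · show g 0 1 = (ModularGroup.S * ModularGroup.S * ModularGroup.T ^ (-g 0 1)) 0 1
      rw [mul_ij, mul_ij, mul_ij, s1, s2, s3, s4, e2, e4]; ring
    · show g 1 0 = (ModularGroup.S * ModularGroup.S * ModularGroup.T ^ (-g 0 1)) 1 0
      rw [mul_ij, mul_ij, mul_ij, s1, s2, s3, s4, e1, e3, hg]; norm_num
    · show g 1 1 = (ModularGroup.S * ModularGroup.S * ModularGroup.T ^ (-g 0 1)) 1 1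
      rw [mul_ij, mul_ij, mul_ij, s1, s2, s3, s4, e2, e4, h3]; ring

lemma PP_one (h : IsCuspHom N φ) (hM : 0 < M) : PP M φ 1 0 := by
  refine ⟨1, 1, Subgroup.one_mem _, ?_, by group, by rw [h.one, abs_zero]⟩
  have hM1 : (1 : ℤ) ≤ M := by exact_mod_cast hM
  have h1 : (1 : ℤ) ≤ 16 * (M : ℤ) ^ 4 := by
    have := one_le_pow₀ (n := 4) hM1
    linarith
  refine bd_of ?_ ?_ ?_ ?_ <;> simp <;> linarith

lemma PP_all (h : IsCuspHom N φ) (hNM : N ∣ M) (hM : 0 < M) {X : ℝ}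
    (hX : ∀ γ ∈ CongruenceSubgroup.Gamma M, Bounded (1024 * (M : ℤ) ^ 9) γ → |φ γ| ≤ X)
    (n : ℕ) : ∀ g : SL(2, ℤ), |g 1 0| < 2 ^ n → PP M φ g ((2 * n + 3) * X) := by
  have hM1 : (1 : ℤ) ≤ M := by exact_mod_cast hM
  have hX0 : 0 ≤ X := by
    refine (abs_nonneg _).trans (hX 1 (Subgroup.one_mem _) ?_)
    have h1 : (1 : ℤ) ≤ 1024 * (M : ℤ) ^ 9 := by
      have := one_le_pow₀ (n := 9) hM1
      linarith
    refine bd_of ?_ ?_ ?_ ?_ <;> simp <;> linarith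
  have hS : Bounded (M : ℤ) ModularGroup.S := bd_mono hM1 bd_S
  have hSi : Bounded (M : ℤ) (ModularGroup.S)⁻¹ := bd_inv hS
  have base : ∀ g : SL(2, ℤ), g 1 0 = 0 → PP M φ g (3 * X) := by
    intro g hg
    rcases lower_zero hg with h1 | h1
    · have h2 := (PP_one h hM).stepT h hNM hM hX (g 0 1)
      rw [one_mul, ← h1] at h2
      exact h2.mono (by linarith)
    · have h2 := (((PP_one h hM).step h hNM hM hX hS).step h hNM hM hX hS).stepT h hNM hM hX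
        (-g 0 1)
      rw [one_mul, ← h1] at h2
      exact h2.mono (by linarith)
  induction n with
  | zero =>
    intro g hg
    have h1 : g 1 0 = 0 := by
      rw [pow_zero] at hg
      exact Int.abs_lt_one_iff.1 hg
    exact (base g h1).mono (by push_cast; linarith)
  | succ n ih =>
    intro g hg
    by_cases hc : g 1 0 = 0
    · refine (base g hc).mono ?_
      push_cast
      have : (0 : ℝ) ≤ n := Nat.cast_nonneg _
      nlinarith
    · obtain ⟨k, hk⟩ := exists_near (g 1 1) (g 1 0) hc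
      set g' := g * ModularGroup.T ^ k * ModularGroup.S with hg'
      have e1 : g' 1 0 = g 1 1 + k * g 1 0 := by
        obtain ⟨e1, e2, e3, e4⟩ := T_pow k
        obtain ⟨s1, s2, s3, s4⟩ := S_ent
        rw [hg', mul_ij, mul_ij, mul_ij, s1, s3, e1, e2, e3, e4]
        ring
      have h2 : |g' 1 0| < 2 ^ n := by
        rw [e1]
        rw [pow_succ] at hg
        linarith
      have h3 := ((ih g' h2).step h hNM hM hX hSi).stepT h hNM hM hX (-k)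
      have e2 : g' * (ModularGroup.S)⁻¹ * ModularGroup.T ^ (-k) = g := by
        rw [hg']; group
      rw [e2] at h3
      exact h3.mono (by push_cast; linarith)

lemma growth_gamma (h : IsCuspHom N φ) (hNM : N ∣ M) (hM : 0 < M) {X : ℝ}
    (hX : ∀ γ ∈ CongruenceSubgroup.Gamma M, Bounded (1024 * (M : ℤ) ^ 9) γ → |φ γ| ≤ X)
    {g : SL(2, ℤ)} (hg : g ∈ CongruenceSubgroup.Gamma M) (h0 : g 1 0 ≠ 0) :
    |φ g| ≤ 6 * X * (1 + Real.log |((g 1 0 : ℤ) : ℝ)|) := by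
  have hM1 : (1 : ℤ) ≤ M := by exact_mod_cast hM
  have hX0 : 0 ≤ X := by
    refine (abs_nonneg _).trans (hX 1 (Subgroup.one_mem _) ?_)
    have h1 : (1 : ℤ) ≤ 1024 * (M : ℤ) ^ 9 := by
      have := one_le_pow₀ (n := 9) hM1
      linarith
    refine bd_of ?_ ?_ ?_ ?_ <;> simp <;> linarith
  obtain ⟨γ, r, h1, h2, h3, h4⟩ := PP_all h hNM hM hX (Nat.log 2 (g 1 0).natAbs + 1) g (by
    rw [Int.abs_eq_natAbs]
    exact_mod_cast Nat.lt_pow_succ_log_self (by norm_num) _)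
  have hr : r ∈ CongruenceSubgroup.Gamma M := by
    have e : r = γ⁻¹ * g := by rw [h3]; group
    rw [e]
    exact Subgroup.mul_mem _ (Subgroup.inv_mem _ h1) hg
  have h5 : |φ r| ≤ X := by
    refine hX r hr (bd_mono ?_ h2)
    have h6 : (1 : ℤ) ≤ (M : ℤ) ^ 5 := one_le_pow₀ hM1
    have h7 : (0 : ℤ) ≤ (M : ℤ) ^ 4 := by positivity
    calc 16 * (M : ℤ) ^ 4 = 16 * ((M : ℤ) ^ 4 * 1) := by ring
      _ ≤ 1024 * ((M : ℤ) ^ 4 * (M : ℤ) ^ 5) := by gcongr; norm_num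
      _ = 1024 * (M : ℤ) ^ 9 := by ring
  have h6 : |φ g| ≤ (2 * ((Nat.log 2 (g 1 0).natAbs + 1 : ℕ) : ℝ) + 3) * X + X := by
    rw [h3, h.map_mul _ _ (inG_of_gamma hNM h1) (inG_of_gamma hNM hr)]
    rw [← h3]
    exact (abs_add_le _ _).trans (add_le_add h4 h5)
  refine h6.trans ?_
  have h7 : (Nat.log 2 (g 1 0).natAbs : ℝ) ≤ 2 * Real.log |((g 1 0 : ℤ) : ℝ)| := by
    have h3 : (2 : ℝ) ^ Nat.log 2 (g 1 0).natAbs ≤ |((g 1 0 : ℤ) : ℝ)| := by
      have h4 : 2 ^ Nat.log 2 (g 1 0).natAbs ≤ (g 1 0).natAbs :=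
        Nat.pow_log_le_self 2 (Int.natAbs_ne_zero.2 h0)
      have h5 : (((g 1 0).natAbs : ℕ) : ℝ) = |((g 1 0 : ℤ) : ℝ)| := by
        rw [Nat.cast_natAbs, Int.cast_abs]
      rw [← h5]
      exact_mod_cast h4
    have h6 := Real.log_le_log (by positivity) h3
    rw [Real.log_pow] at h6
    have h7 : (0.5 : ℝ) ≤ Real.log 2 := by
      have := Real.log_two_gt_d9
      linarith
    have h8 : (0 : ℝ) ≤ Nat.log 2 (g 1 0).natAbs := Nat.cast_nonneg _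
    nlinarith
  push_cast
  calc (2 * ((Nat.log 2 (g 1 0).natAbs : ℝ) + 1) + 3) * X + X
      ≤ (2 * (2 * Real.log |((g 1 0 : ℤ) : ℝ)| + 1) + 3) * X + X := by gcongr
    _ ≤ 6 * X * (1 + Real.log |((g 1 0 : ℤ) : ℝ)|) := by
      have habs : (1 : ℝ) ≤ |((g 1 0 : ℤ) : ℝ)| := by
        exact_mod_cast Int.one_le_abs h0
      have hlog : 0 ≤ Real.log |((g 1 0 : ℤ) : ℝ)| := Real.log_nonneg habs
      nlinarith

/-- Logarithmic growth along the powers of one element. -/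
lemma geodesic_of_powers (h : IsCuspHom N φ) {X : ℝ} (hX : 0 ≤ X) {γ : SL(2, ℤ)}
    (hγ : InG N γ) (ht : 2 < |tr γ|)
    (hl : ∀ k : ℕ, |φ (γ ^ (k + 1))| ≤
      X * (1 + Real.log |(((γ ^ (k + 1)) 1 0 : ℤ) : ℝ)|)) :
    |φ γ| ≤ 2 * X * Real.log |((tr γ : ℤ) : ℝ)| := by
  obtain ⟨h1, h2⟩ := log_add_one ht
  by_contra hc
  push Not at hc
  set δ : ℝ := |φ γ| - 2 * X * Real.log |((tr γ : ℤ) : ℝ)| with hδ
  have hδ0 : 0 < δ := by rw [hδ]; linarith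
  set Y : ℝ := X * (1 + Real.log |((γ 1 0 : ℤ) : ℝ)|) with hY
  obtain ⟨k, hk⟩ := exists_nat_gt (Y / δ)
  have hc0 := lower_ne ht
  have hk1 := hl k
  rw [map_pow h hγ, abs_mul, Nat.abs_cast] at hk1
  have hcr : (0 : ℝ) < |((γ 1 0 : ℤ) : ℝ)| := by
    rw [abs_pos]; exact_mod_cast hc0
  have htr : (0 : ℝ) < (|((tr γ : ℤ) : ℝ)| + 1) := by positivity
  have hk2 : Real.log |(((γ ^ (k + 1)) 1 0 : ℤ) : ℝ)| ≤
      Real.log |((γ 1 0 : ℤ) : ℝ)| + (k + 1 : ℕ) * Real.log (|((tr γ : ℤ) : ℝ)| + 1) := by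
    rw [← Real.log_pow, ← Real.log_mul hcr.ne' (by positivity)]
    apply Real.log_le_log
    · rw [abs_pos]; exact_mod_cast lower_pow_ne ht k
    · have := lower_pow_le γ (k + 1)
      have h5 : ((|(γ ^ (k + 1)) 1 0| : ℤ) : ℝ) ≤ ((|γ 1 0| * (|tr γ| + 1) ^ (k + 1) : ℤ) : ℝ) := by
        exact_mod_cast this
      push_cast at h5
      exact h5
  have hk3 : ((k + 1 : ℕ) : ℝ) * |φ γ| ≤
      Y + (k + 1 : ℕ) * (2 * X * Real.log |((tr γ : ℤ) : ℝ)|) := by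
    have h6 : (0 : ℝ) ≤ ((k + 1 : ℕ) : ℝ) := Nat.cast_nonneg _
    calc ((k + 1 : ℕ) : ℝ) * |φ γ|
        ≤ X * (1 + Real.log |(((γ ^ (k + 1)) 1 0 : ℤ) : ℝ)|) := hk1
      _ ≤ X * (1 + (Real.log |((γ 1 0 : ℤ) : ℝ)| + (k + 1 : ℕ) *
            (2 * Real.log |((tr γ : ℤ) : ℝ)|))) := by
          gcongr
          exact hk2.trans (by gcongr)
      _ = Y + (k + 1 : ℕ) * (2 * X * Real.log |((tr γ : ℤ) : ℝ)|) := by rw [hY]; ring
  have hk4 : ((k + 1 : ℕ) : ℝ) * δ ≤ Y := by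
    rw [hδ, mul_sub]
    linarith
  rw [div_lt_iff₀ hδ0] at hk
  push_cast at hk4
  nlinarith

end Pool.Agent.R948.GE
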