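import Pool.Agent.R948.GEe

/-!
# The Shimura map on small matrices congruent to the identity
-/

set_option autoImplicit false

open Complex Matrix.SpecialLinearGroup MatrixGroups ModularGroup
open Pool.Agent.TH133.SH

namespace Pool.Agent.R948.GE

/-- There are constants `κ`, `C` such that the coordinates of `H(γ)` are at most `C N ^ κ`, for all
newforms of all levels `N` and all `γ ∈ Γ₀(N)` in the principal congruence subgroup `Γ(M N)` with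
entries at most `1024 (M N) ^ 9`. -/
def SmallDeep (M : ℕ → ℕ) : Prop :=
  ∃ κ : ℝ, 0 < κ ∧ ∃ C : ℝ, 0 < C ∧ ∀ N : ℕ, 1 ≤ N → ∀ a : ℕ → ℤ, IsNewform N a →
    ∀ Ω₁ Ω₂ : ℂ, IsBasis N a Ω₁ Ω₂ → ∀ γ : SL(2, ℤ), γ ∈ CongruenceSubgroup.Gamma (M N) →
      (∀ i j, |γ i j| ≤ 1024 * (M N : ℤ) ^ 9) →
      CoordBound a Ω₁ Ω₂ (γ 0 0) (γ 0 1) (γ 1 0) (γ 1 1) (C * (N : ℝ) ^ κ)

lemma smallDeep_of_log (h : LogarithmicGrowth) (M : ℕ → ℕ) (hM : PolyLevels M) :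
    SmallDeep M := by
  obtain ⟨κ, hκ, C, hC, h⟩ := h
  obtain ⟨A, hA⟩ := hM
  refine ⟨κ + 1, by positivity, C * (9 * A + 1025), by positivity, ?_⟩
  intro N hN a ha Ω₁ Ω₂ hb γ hγ hsmall
  obtain ⟨hdvd, hM0, hMA⟩ := hA N hN
  have hγ' : InG N γ := inG_of_gamma hdvd hγ
  have hN1 : (1 : ℝ) ≤ N := by exact_mod_cast hN
  have hN0 : (0 : ℝ) < N := by linarith
  by_cases hr0 : γ 1 0 = 0
  · refine (coord_iff ha.toIsForm hb hγ' _).2 ?_
    have h1 := (isCuspHom ha.toIsForm (L₁ Ω₁ Ω₂)).zero_of_lower (g := γ) hr0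
    have h2 := (isCuspHom ha.toIsForm (L₂ Ω₂)).zero_of_lower (g := γ) hr0
    rw [h1, h2, abs_zero]
    constructor <;> positivity
  · obtain ⟨h1, h2⟩ := (coord_iff ha.toIsForm hb hγ' _).1
      (h N hN a ha Ω₁ Ω₂ hb (γ 0 0) (γ 0 1) (γ 1 0) (γ 1 1) (det_eq γ) hγ' hr0)
    have h3 : Real.log |((γ 1 0 : ℤ) : ℝ)| ≤ (9 * A + 1024) * N := by
      have h4 : |((γ 1 0 : ℤ) : ℝ)| ≤ 1024 * (M N : ℝ) ^ 9 := by exact_mod_cast hsmall 1 0
      have h5 : (M N : ℝ) ≤ (N : ℝ) ^ A := by exact_mod_cast hMA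
      have h6 : |((γ 1 0 : ℤ) : ℝ)| ≤ 1024 * (N : ℝ) ^ (9 * A) := by
        calc |((γ 1 0 : ℤ) : ℝ)| ≤ 1024 * (M N : ℝ) ^ 9 := h4
          _ ≤ 1024 * ((N : ℝ) ^ A) ^ 9 := by gcongr
          _ = 1024 * (N : ℝ) ^ (9 * A) := by rw [← pow_mul, mul_comm A 9]
      have h7 : 0 < |((γ 1 0 : ℤ) : ℝ)| := by
        rw [abs_pos]; exact_mod_cast hr0
      have h8 := Real.log_le_log h7 h6
      rw [Real.log_mul (by norm_num) (by positivity), Real.log_pow] at h8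
      have h9 := Real.log_le_self hN0.le
      have h10 : Real.log 1024 ≤ 1024 := Real.log_le_self (by norm_num)
      have h11 : (0 : ℝ) ≤ A := Nat.cast_nonneg _
      push_cast at h8
      nlinarith
    have h4 : C * (N : ℝ) ^ κ * (1 + Real.log |((γ 1 0 : ℤ) : ℝ)|) ≤
        C * (9 * A + 1025) * (N : ℝ) ^ (κ + 1) := by
      rw [Real.rpow_add hN0, Real.rpow_one]
      have h11 : (0 : ℝ) ≤ A := Nat.cast_nonneg _
      calc C * (N : ℝ) ^ κ * (1 + Real.log |((γ 1 0 : ℤ) : ℝ)|)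
          ≤ C * (N : ℝ) ^ κ * (N + (9 * A + 1024) * N) := by gcongr
        _ = C * (9 * A + 1025) * ((N : ℝ) ^ κ * N) := by ring
    exact (coord_iff ha.toIsForm hb hγ' _).2 ⟨h1.trans h4, h2.trans h4⟩

lemma geodesicBound_of_smallDeep (M : ℕ → ℕ) (hM : PolyLevels M) (h : SmallDeep M) :
    GeodesicBoundOn fun _ => Set.univ := by
  obtain ⟨κ, hκ, C, hC, h⟩ := h
  obtain ⟨A, -⟩ := id hM
  refine ⟨κ, hκ, 36 * C, by positivity, ?_⟩
  intro N hN a ha Ω₁ Ω₂ hb γ hγ ht _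
  obtain ⟨A', hA⟩ := hM
  obtain ⟨hdvd, hM0, -⟩ := hA N hN
  have hN0 : (0 : ℝ) < N := by exact_mod_cast hN
  have hX : 0 ≤ C * (N : ℝ) ^ κ := by positivity
  have main : ∀ L : ℂ →ₗ[ℝ] ℝ, (∀ g ∈ CongruenceSubgroup.Gamma (M N),
      Bounded (1024 * (M N : ℤ) ^ 9) g → |L (Hs a g)| ≤ C * (N : ℝ) ^ κ) →
      |L (Hs a γ)| ≤ 36 * C * (N : ℝ) ^ κ * Real.log |((tr γ : ℤ) : ℝ)| := by
    intro L hL
    have hφ := isCuspHom ha.toIsForm L
    have s3 : ∀ g : SL(2, ℤ), InG N g → g ∈ CongruenceSubgroup.Gamma (M N) → 2 < |tr g| →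
        |L (Hs a g)| ≤ (2 * (6 * (C * (N : ℝ) ^ κ))) * Real.log |((tr g : ℤ) : ℝ)| := by
      intro g hgN hgM hgt
      exact geodesic_of_powers hφ (by positivity) hgN hgt fun k =>
        growth_gamma hφ hdvd hM0 hL (Subgroup.pow_mem _ hgM _) (lower_pow_ne hgt k)
    have s4 := geodesic_of_set hφ (X := 2 * (6 * (C * (N : ℝ) ^ κ))) (by positivity)
      {g | g ∈ CongruenceSubgroup.Gamma (M N)} (fun g hg hg' => by
        have : NeZero (M N) := ⟨hM0.ne'⟩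
        obtain ⟨k, hk, -, hkΓ⟩ := Subgroup.exists_pow_mem_of_index_ne_zero
          (H := CongruenceSubgroup.Gamma (M N)) (Subgroup.FiniteIndex.index_ne_zero) g
        refine ⟨1, inG_one, k, hk, ?_⟩
        have e : (1 * g * (1 : SL(2, ℤ))⁻¹) = g := by group
        rw [e]
        exact hkΓ)
      (fun g hgN hgS hg' => s3 g hgN hgS hg') hγ ht
    refine s4.trans (le_of_eq ?_)
    ring
  have key : ∀ g ∈ CongruenceSubgroup.Gamma (M N), Bounded (1024 * (M N : ℤ) ^ 9) g →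
      |L₁ Ω₁ Ω₂ (Hs a g)| ≤ C * (N : ℝ) ^ κ ∧ |L₂ Ω₂ (Hs a g)| ≤ C * (N : ℝ) ^ κ :=
    fun g hg hg' => (coord_iff ha.toIsForm hb (inG_of_gamma hdvd hg) _).1
      (h N hN a ha Ω₁ Ω₂ hb g hg hg')
  exact (coord_iff ha.toIsForm hb hγ _).2
    ⟨main _ fun g h1 h2 => (key g h1 h2).1, main _ fun g h1 h2 => (key g h1 h2).2⟩

theorem q1_iff_smallDeep (M : ℕ → ℕ) (hM : PolyLevels M) : Q1 ↔ SmallDeep M := by
  have h0 := shimura_tfae_small
  have h := geodesic_tfae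
  have h1 : EntriesAtMost 2 ↔ LogarithmicGrowth := h0.out 0 3
  have h2 : EntriesAtMost 2 ↔ GeodesicBoundOn fun _ => Set.univ := h.out 0 1
  rw [q1_iff]
  exact ⟨fun hq => smallDeep_of_log (h1.1 hq) M hM,
    fun hd => h2.2 (geodesicBound_of_smallDeep M hM hd)⟩

end Pool.Agent.R948.GE

namespace Pool.Agent.R948.GE

/-- A homomorphism on `Γ₀(N)` which vanishes on the parabolic elements is bounded along the closed
geodesics by its values at the small elements of `Γ(M)`. -/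
theorem hom_bound {N M : ℕ} (hNM : N ∣ M) (hM : 0 < M) {φ : SL(2, ℤ) → ℝ}
    (h : IsCuspHom N φ) {X : ℝ}
    (hX : ∀ γ ∈ CongruenceSubgroup.Gamma M, (∀ i j, |γ i j| ≤ 1024 * (M : ℤ) ^ 9) → |φ γ| ≤ X)
    {γ : SL(2, ℤ)} (hγ : InG N γ) (ht : 2 < |tr γ|) :
    |φ γ| ≤ 36 * X * Real.log |((tr γ : ℤ) : ℝ)| := by
  have hM1 : (1 : ℤ) ≤ M := by exact_mod_cast hM
  have hX0 : 0 ≤ X := by
    refine (abs_nonneg _).trans (hX 1 (Subgroup.one_mem _) ?_)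
    have h1 : (1 : ℤ) ≤ 1024 * (M : ℤ) ^ 9 := by
      have := one_le_pow₀ (n := 9) hM1
      linarith
    refine bd_of ?_ ?_ ?_ ?_ <;> simp <;> linarith
  have s4 := geodesic_of_set h (X := 2 * (6 * X)) (by positivity)
    {g | g ∈ CongruenceSubgroup.Gamma M} (fun g hg hg' => by
      have : NeZero M := ⟨hM.ne'⟩
      obtain ⟨k, hk, -, hkΓ⟩ := Subgroup.exists_pow_mem_of_index_ne_zero
        (H := CongruenceSubgroup.Gamma M) (Subgroup.FiniteIndex.index_ne_zero) g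
      refine ⟨1, inG_one, k, hk, ?_⟩
      have e : (1 * g * (1 : SL(2, ℤ))⁻¹) = g := by group
      rw [e]
      exact hkΓ)
    (fun g hgN hgS hg' => geodesic_of_powers h (by positivity) hgN hg' fun k =>
      growth_gamma h hNM hM hX (Subgroup.pow_mem _ hgS _) (lower_pow_ne hg' k)) hγ ht
  refine s4.trans (le_of_eq ?_)
  ring

end Pool.Agent.R948.GE
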