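import Pool.Agent.R948.GEf
import Mathlib.Analysis.Complex.UpperHalfPlane.Metric

/-!
# The Shimura map and Lipschitz functions on the hyperbolic plane
-/

set_option autoImplicit false

open Complex Matrix.SpecialLinearGroup MatrixGroups ModularGroup UpperHalfPlane
open Pool.Agent.TH133.SH

namespace Pool.Agent.R948.GE

lemma dist_smul_int (γ : SL(2, ℤ)) (τ τ' : ℍ) : dist (γ • τ) (γ • τ') = dist τ τ' := by
  have h1 : ∀ z : ℍ, γ • z = ((γ : SL(2, ℝ))) • z := fun z => rfl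
  rw [h1, h1]
  exact dist_smul _ _ _

lemma cosh_dist_I (γ : SL(2, ℤ)) : Real.cosh (dist UpperHalfPlane.I (γ • UpperHalfPlane.I)) =
    ((γ 0 0 : ℝ) ^ 2 + (γ 0 1 : ℝ) ^ 2 + (γ 1 0 : ℝ) ^ 2 + (γ 1 1 : ℝ) ^ 2) / 2 := by
  have hdet : ((γ 0 0 : ℤ) : ℝ) * γ 1 1 - γ 0 1 * γ 1 0 = 1 := by exact_mod_cast det_eq γ
  have hpos : 0 < ((γ 1 0 : ℤ) : ℝ) ^ 2 + ((γ 1 1 : ℤ) : ℝ) ^ 2 := by
    rcases eq_or_ne ((γ 1 0 : ℤ) : ℝ) 0 with h | h
    · have : ((γ 1 1 : ℤ) : ℝ) ≠ 0 := by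
        intro h2
        rw [h, h2] at hdet
        norm_num at hdet
      positivity
    · positivity
  have hco : ((γ • UpperHalfPlane.I : ℍ) : ℂ) =
      (((γ 0 0 : ℤ) : ℂ) * Complex.I + ((γ 0 1 : ℤ) : ℂ)) /
        (((γ 1 0 : ℤ) : ℂ) * Complex.I + ((γ 1 1 : ℤ) : ℂ)) := by
    rw [UpperHalfPlane.coe_specialLinearGroup_apply]
    simp
  set D : ℝ := ((γ 1 0 : ℤ) : ℝ) ^ 2 + ((γ 1 1 : ℤ) : ℝ) ^ 2 with hD
  have h2 : ((γ 1 1 : ℤ) : ℝ) * γ 1 1 + ((γ 1 0 : ℤ) : ℝ) * γ 1 0 = D := by rw [hD]; ring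
  have kre : ((((γ 0 0 : ℤ) : ℂ) * Complex.I + ((γ 0 1 : ℤ) : ℂ)) /
      (((γ 1 0 : ℤ) : ℂ) * Complex.I + ((γ 1 1 : ℤ) : ℂ))).re =
      (((γ 0 0 : ℤ) : ℝ) * γ 1 0 + ((γ 0 1 : ℤ) : ℝ) * γ 1 1) / D := by
    rw [Complex.div_re]
    simp only [Complex.normSq_apply, Complex.add_re, Complex.mul_re, Complex.intCast_re,
      Complex.I_re, Complex.intCast_im, Complex.I_im, Complex.add_im, Complex.mul_im, mul_zero,
      mul_one, zero_mul, sub_zero, zero_add, add_zero, sub_self]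
    rw [h2]
    ring
  have kim : ((((γ 0 0 : ℤ) : ℂ) * Complex.I + ((γ 0 1 : ℤ) : ℂ)) /
      (((γ 1 0 : ℤ) : ℂ) * Complex.I + ((γ 1 1 : ℤ) : ℂ))).im = 1 / D := by
    rw [Complex.div_im]
    simp only [Complex.normSq_apply, Complex.add_re, Complex.mul_re, Complex.intCast_re,
      Complex.I_re, Complex.intCast_im, Complex.I_im, Complex.add_im, Complex.mul_im, mul_zero,
      mul_one, zero_mul, sub_zero, zero_add, add_zero, sub_self]
    rw [h2, ← sub_div]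
    congr 1
    all_goals linear_combination hdet
  have hre : (γ • UpperHalfPlane.I : ℍ).re =
      (((γ 0 0 : ℤ) : ℝ) * γ 1 0 + ((γ 0 1 : ℤ) : ℝ) * γ 1 1) / D := by
    rw [← UpperHalfPlane.coe_re, hco, kre]
  have him : (γ • UpperHalfPlane.I : ℍ).im = 1 / D := by
    rw [← UpperHalfPlane.coe_im, hco, kim]
  rw [UpperHalfPlane.cosh_dist', hre, him]
  simp only [UpperHalfPlane.I_re, UpperHalfPlane.I_im]
  field_simp
  have hdet2 : (((γ 0 0 : ℤ) : ℝ) * γ 1 0 + ((γ 0 1 : ℤ) : ℝ) * γ 1 1) ^ 2 + 1 =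
      (((γ 0 0 : ℤ) : ℝ) ^ 2 + ((γ 0 1 : ℤ) : ℝ) ^ 2) * D := by
    rw [hD]
    linear_combination (-1 - (((γ 0 0 : ℤ) : ℝ) * γ 1 1 - γ 0 1 * γ 1 0)) * hdet
  linear_combination hdet2

variable {N : ℕ} {φ : SL(2, ℤ) → ℝ}

lemma exists_lipschitz (h : IsCuspHom N φ) {X : ℝ} (hX : 0 ≤ X)
    (hl : ∀ g : SL(2, ℤ), InG N g → g 1 0 ≠ 0 → |φ g| ≤ X * (1 + Real.log |((g 1 0 : ℤ) : ℝ)|)) :
    ∃ u : ℍ → ℝ, (∀ τ τ', |u τ - u τ'| ≤ X * dist τ τ') ∧
      ∀ γ : SL(2, ℤ), InG N γ → ∀ τ, u (γ • τ) - u τ = φ γ := by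
  have hlow : ∀ g : SL(2, ℤ), InG N g →
      |φ g| ≤ X * dist UpperHalfPlane.I (g • UpperHalfPlane.I) + 2 * X := by
    intro g hg
    have hd : 0 ≤ dist UpperHalfPlane.I (g • UpperHalfPlane.I) := dist_nonneg
    by_cases h0 : g 1 0 = 0
    · rw [h.zero_of_lower h0, abs_zero]
      positivity
    · refine (hl g hg h0).trans ?_
      have h1 := cosh_dist_I g
      have h2 : Real.cosh (dist UpperHalfPlane.I (g • UpperHalfPlane.I)) ≤
          Real.exp (dist UpperHalfPlane.I (g • UpperHalfPlane.I)) := by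
        rw [Real.cosh_eq]
        have : Real.exp (-dist UpperHalfPlane.I (g • UpperHalfPlane.I)) ≤
            Real.exp (dist UpperHalfPlane.I (g • UpperHalfPlane.I)) :=
          Real.exp_le_exp.2 (by linarith)
        linarith
      have h3 : |((g 1 0 : ℤ) : ℝ)| ^ 2 / 2 ≤
          Real.exp (dist UpperHalfPlane.I (g • UpperHalfPlane.I)) := by
        rw [sq_abs]
        refine le_trans ?_ h2
        rw [h1]
        have e1 := sq_nonneg ((g 0 0 : ℤ) : ℝ)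
        have e2 := sq_nonneg ((g 0 1 : ℤ) : ℝ)
        have e3 := sq_nonneg ((g 1 1 : ℤ) : ℝ)
        linarith
      have hc : 0 < |((g 1 0 : ℤ) : ℝ)| := by
        rw [abs_pos]; exact_mod_cast h0
      have h4 := Real.log_le_log (by positivity) h3
      rw [Real.log_exp, Real.log_div (by positivity) (by norm_num), Real.log_pow] at h4
      have h5 := Real.log_two_lt_d9
      push_cast at h4
      have h6 : Real.log |((g 1 0 : ℤ) : ℝ)| ≤
          dist UpperHalfPlane.I (g • UpperHalfPlane.I) + 1 := by linarith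
      calc X * (1 + Real.log |((g 1 0 : ℤ) : ℝ)|)
          ≤ X * (1 + (dist UpperHalfPlane.I (g • UpperHalfPlane.I) + 1)) := by gcongr
        _ = X * dist UpperHalfPlane.I (g • UpperHalfPlane.I) + 2 * X := by ring
  set ι := {g : SL(2, ℤ) // InG N g} with hι
  have : Nonempty ι := ⟨⟨1, inG_one⟩⟩
  set F : ℍ → ι → ℝ := fun τ g => φ g.1 + X * dist τ (g.1 • UpperHalfPlane.I) with hF
  have hbdd : ∀ τ, BddBelow (Set.range (F τ)) := by
    intro τ
    refine ⟨-(2 * X) - X * dist τ UpperHalfPlane.I, ?_⟩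
    rintro _ ⟨g, rfl⟩
    have h1 := (abs_le.1 (hlow g.1 g.2)).1
    have h2 : dist UpperHalfPlane.I (g.1 • UpperHalfPlane.I) ≤
        dist UpperHalfPlane.I τ + dist τ (g.1 • UpperHalfPlane.I) := dist_triangle _ _ _
    have h3 : X * dist UpperHalfPlane.I (g.1 • UpperHalfPlane.I) ≤
        X * (dist UpperHalfPlane.I τ + dist τ (g.1 • UpperHalfPlane.I)) := by gcongr
    rw [dist_comm UpperHalfPlane.I τ] at h3
    simp only [hF]
    linarith
  set u : ℍ → ℝ := fun τ => ⨅ g : ι, F τ g with hu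
  have hLip : ∀ τ τ', u τ ≤ u τ' + X * dist τ τ' := by
    intro τ τ'
    have h1 : u τ - X * dist τ τ' ≤ u τ' := by
      refine le_ciInf fun g => ?_
      have h2 : u τ ≤ F τ g := ciInf_le (hbdd τ) g
      have h3 : dist τ (g.1 • UpperHalfPlane.I) ≤ dist τ τ' + dist τ' (g.1 • UpperHalfPlane.I) :=
        dist_triangle _ _ _
      have h4 : X * dist τ (g.1 • UpperHalfPlane.I) ≤
          X * (dist τ τ' + dist τ' (g.1 • UpperHalfPlane.I)) := by gcongr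
      simp only [hF] at h2 ⊢
      linarith
    linarith
  have hEq : ∀ δ : SL(2, ℤ), InG N δ → ∀ τ, u (δ • τ) ≤ φ δ + u τ := by
    intro δ hδ τ
    have h1 : u (δ • τ) - φ δ ≤ u τ := by
      refine le_ciInf fun g => ?_
      have h2 : u (δ • τ) ≤ F (δ • τ) ⟨δ * g.1, hδ.mul g.2⟩ := ciInf_le (hbdd _) _
      simp only [hF] at h2 ⊢
      rw [mul_smul, dist_smul_int, h.map_mul _ _ hδ g.2] at h2
      linarith
    linarith
  refine ⟨u, ?_, ?_⟩
  · intro τ τ'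
    rw [abs_le]
    have h1 := hLip τ τ'
    have h2 := hLip τ' τ
    rw [dist_comm τ' τ] at h2
    constructor <;> linarith
  · intro γ hγ τ
    have h1 := hEq γ hγ τ
    have h2 := hEq γ⁻¹ hγ.inv (γ • τ)
    rw [inv_smul_smul] at h2
    have h3 : φ (γ * γ⁻¹) = φ γ + φ γ⁻¹ := h.map_mul _ _ hγ hγ.inv
    rw [mul_inv_cancel, h.one] at h3
    linarith

end Pool.Agent.R948.GE
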