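import Pool.Agent.R948.GEg
import Pool.Agent.R948.GEc

/-!
# The Shimura map and Lipschitz maps of the hyperbolic plane: the equivalence
-/

set_option autoImplicit false

open Complex Matrix.SpecialLinearGroup MatrixGroups ModularGroup UpperHalfPlane
open Pool.Agent.TH133.SH

namespace Pool.Agent.R948.GE

/-- There are constants `κ`, `C` such that for all newforms of all levels `N` there are real
functions `u`, `v` on the hyperbolic plane, Lipschitz with constant `C N ^ κ`, such that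
`H(γ) = (u (γ τ) - u τ) Ω₁ + (v (γ τ) - v τ) Ω₂` for all `γ ∈ Γ₀(N)` and all `τ`. -/
def LipschitzForm : Prop :=
  ∃ κ : ℝ, 0 < κ ∧ ∃ C : ℝ, 0 < C ∧ ∀ N : ℕ, 1 ≤ N → ∀ a : ℕ → ℤ, IsNewform N a →
    ∀ Ω₁ Ω₂ : ℂ, IsBasis N a Ω₁ Ω₂ → ∃ u v : ℍ → ℝ,
      (∀ τ τ' : ℍ, |u τ - u τ'| ≤ C * (N : ℝ) ^ κ * dist τ τ') ∧
      (∀ τ τ' : ℍ, |v τ - v τ'| ≤ C * (N : ℝ) ^ κ * dist τ τ') ∧
      ∀ γ : SL(2, ℤ), (N : ℤ) ∣ γ 1 0 → ∀ τ : ℍ,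
        Hval a (γ 0 0) (γ 0 1) (γ 1 0) (γ 1 1) =
          ((u (γ • τ) - u τ : ℝ) : ℂ) * Ω₁ + ((v (γ • τ) - v τ : ℝ) : ℂ) * Ω₂

variable {N : ℕ} {a : ℕ → ℤ} {Ω₁ Ω₂ : ℂ}

lemma L₂_real (hb : IsBasis N a Ω₁ Ω₂) (x y : ℝ) :
    L₂ Ω₂ ((x : ℂ) * Ω₁ + (y : ℂ) * Ω₂) = y := by
  have := hb.im₂.ne'
  simp [L₂, hb.im₁]
  field_simp

lemma L₁_real (hb : IsBasis N a Ω₁ Ω₂) (x y : ℝ) :
    L₁ Ω₁ Ω₂ ((x : ℂ) * Ω₁ + (y : ℂ) * Ω₂) = x := by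
  have h1 := hb.re₁.ne'
  have h2 := L₂_real hb x y
  rw [L₁, LinearMap.smul_apply, LinearMap.sub_apply, LinearMap.smul_apply, h2]
  simp
  field_simp
  ring

lemma lipschitz_of_log (h : LogarithmicGrowth) : LipschitzForm := by
  obtain ⟨κ, hκ, C, hC, h⟩ := h
  refine ⟨κ, hκ, C, hC, ?_⟩
  intro N hN a ha Ω₁ Ω₂ hb
  have hN0 : (0 : ℝ) < N := by exact_mod_cast hN
  have hX : 0 ≤ C * (N : ℝ) ^ κ := by positivity
  have key : ∀ g : SL(2, ℤ), InG N g → g 1 0 ≠ 0 →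
      |L₁ Ω₁ Ω₂ (Hs a g)| ≤ C * (N : ℝ) ^ κ * (1 + Real.log |((g 1 0 : ℤ) : ℝ)|) ∧
      |L₂ Ω₂ (Hs a g)| ≤ C * (N : ℝ) ^ κ * (1 + Real.log |((g 1 0 : ℤ) : ℝ)|) := fun g hg hg' =>
    (coord_iff ha.toIsForm hb hg _).1
      (h N hN a ha Ω₁ Ω₂ hb (g 0 0) (g 0 1) (g 1 0) (g 1 1) (det_eq g) hg hg')
  obtain ⟨u, hu1, hu2⟩ := exists_lipschitz (isCuspHom ha.toIsForm (L₁ Ω₁ Ω₂)) hX
    fun g hg hg' => (key g hg hg').1
  obtain ⟨v, hv1, hv2⟩ := exists_lipschitz (isCuspHom ha.toIsForm (L₂ Ω₂)) hX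
    fun g hg hg' => (key g hg hg').2
  refine ⟨u, v, hu1, hv1, ?_⟩
  intro γ hγ τ
  obtain ⟨m, n, hmn⟩ := lattice ha.toIsForm hb (z := Hs a γ) ⟨γ, hγ, rfl⟩
  have h1 := hu2 γ hγ τ
  have h2 := hv2 γ hγ τ
  rw [hmn, L₁_apply hb] at h1
  rw [hmn, L₂_apply hb] at h2
  rw [h1, h2]
  change Hs a γ = _
  rw [hmn]
  push_cast
  rfl

lemma dist_I_le {γ : SL(2, ℤ)} {Y : ℝ} (h0 : |((γ 0 0 : ℤ) : ℝ)| ≤ Y)
    (h1 : |((γ 0 1 : ℤ) : ℝ)| ≤ Y) (h2 : |((γ 1 0 : ℤ) : ℝ)| ≤ Y) (h3 : |((γ 1 1 : ℤ) : ℝ)| ≤ Y) :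
    dist (γ • UpperHalfPlane.I) UpperHalfPlane.I ≤ 2 * Y ^ 2 := by
  have hsq : ∀ x : ℝ, |x| ≤ Y → x ^ 2 ≤ Y ^ 2 := fun x hx => by
    rw [← sq_abs]
    exact pow_le_pow_left₀ (abs_nonneg _) hx 2
  have e1 := cosh_dist_I γ
  have e2 : dist UpperHalfPlane.I (γ • UpperHalfPlane.I) ≤
      Real.sinh (dist UpperHalfPlane.I (γ • UpperHalfPlane.I)) :=
    Real.self_le_sinh_iff.2 dist_nonneg
  have e3 := (Real.sinh_lt_cosh (dist UpperHalfPlane.I (γ • UpperHalfPlane.I))).le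
  have a0 := hsq _ h0
  have a1 := hsq _ h1
  have a2 := hsq _ h2
  have a3 := hsq _ h3
  rw [dist_comm]
  linarith

lemma entries_of_lipschitz (h : LipschitzForm) : EntriesAtMost 2 := by
  obtain ⟨κ, hκ, C, hC, h⟩ := h
  refine ⟨κ + 4, by positivity, 2 * C, by positivity, ?_⟩
  intro N hN a ha Ω₁ Ω₂ hb p q r s hdet hr hp hq hr' hs
  have hN0 : (0 : ℝ) < N := by exact_mod_cast hN
  obtain ⟨u, v, hu, hv, huv⟩ := h N hN a ha Ω₁ Ω₂ hb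
  set γ : SL(2, ℤ) := mk p q r s hdet with hγd
  have hγ : InG N γ := hr
  have hd : dist (γ • UpperHalfPlane.I) UpperHalfPlane.I ≤ 2 * ((N : ℝ) ^ 2) ^ 2 := by
    refine dist_I_le ?_ ?_ ?_ ?_
    · change |((p : ℤ) : ℝ)| ≤ _
      exact_mod_cast hp
    · change |((q : ℤ) : ℝ)| ≤ _
      exact_mod_cast hq
    · change |((r : ℤ) : ℝ)| ≤ _
      exact_mod_cast hr'
    · change |((s : ℤ) : ℝ)| ≤ _
      exact_mod_cast hs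
  have hH : Hs a γ = ((u (γ • UpperHalfPlane.I) - u UpperHalfPlane.I : ℝ) : ℂ) * Ω₁ +
      ((v (γ • UpperHalfPlane.I) - v UpperHalfPlane.I : ℝ) : ℂ) * Ω₂ :=
    huv γ hγ UpperHalfPlane.I
  have hle : C * (N : ℝ) ^ κ * dist (γ • UpperHalfPlane.I) UpperHalfPlane.I ≤
      2 * C * (N : ℝ) ^ (κ + 4) := by
    have e : (N : ℝ) ^ (κ + 4) = (N : ℝ) ^ κ * (N : ℝ) ^ 4 := by
      rw [Real.rpow_add hN0]
      congr 1
      exact_mod_cast Real.rpow_natCast (N : ℝ) 4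
    rw [e]
    calc C * (N : ℝ) ^ κ * dist (γ • UpperHalfPlane.I) UpperHalfPlane.I
        ≤ C * (N : ℝ) ^ κ * (2 * ((N : ℝ) ^ 2) ^ 2) := by gcongr
      _ = 2 * C * ((N : ℝ) ^ κ * (N : ℝ) ^ 4) := by ring
  refine (coord_iff ha.toIsForm hb hγ _).2 ⟨?_, ?_⟩
  · rw [hH, L₁_real hb]
    exact (hu _ _).trans hle
  · rw [hH, L₂_real hb]
    exact (hv _ _).trans hle

theorem q1_iff_lipschitz : Q1 ↔ LipschitzForm := by
  have h0 := shimura_tfae_small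
  have h1 : EntriesAtMost 2 ↔ LogarithmicGrowth := h0.out 0 3
  rw [q1_iff]
  exact ⟨fun hq => lipschitz_of_log (h1.1 hq), entries_of_lipschitz⟩

/-- There are constants `κ`, `C` such that for all newforms of all levels `N` there are real
functions `u`, `v` on the hyperbolic plane, which vary by at most `C N ^ κ exp (κ d)` between two
points at distance `d`, such that `H(γ) = (u (γ τ) - u τ) Ω₁ + (v (γ τ) - v τ) Ω₂` for all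
`γ ∈ Γ₀(N)` and all `τ`. -/
def ExponentialForm : Prop :=
  ∃ κ : ℝ, 0 < κ ∧ ∃ C : ℝ, 0 < C ∧ ∀ N : ℕ, 1 ≤ N → ∀ a : ℕ → ℤ, IsNewform N a →
    ∀ Ω₁ Ω₂ : ℂ, IsBasis N a Ω₁ Ω₂ → ∃ u v : ℍ → ℝ,
      (∀ τ τ' : ℍ, |u τ - u τ'| ≤ C * (N : ℝ) ^ κ * Real.exp (κ * dist τ τ')) ∧
      (∀ τ τ' : ℍ, |v τ - v τ'| ≤ C * (N : ℝ) ^ κ * Real.exp (κ * dist τ τ')) ∧
      ∀ γ : SL(2, ℤ), (N : ℤ) ∣ γ 1 0 → ∀ τ : ℍ,
        Hval a (γ 0 0) (γ 0 1) (γ 1 0) (γ 1 1) =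
          ((u (γ • τ) - u τ : ℝ) : ℂ) * Ω₁ + ((v (γ • τ) - v τ : ℝ) : ℂ) * Ω₂

lemma exponential_of_lipschitz (h : LipschitzForm) : ExponentialForm := by
  obtain ⟨κ, hκ, C, hC, h⟩ := h
  refine ⟨κ + 1, by positivity, C, hC, ?_⟩
  intro N hN a ha Ω₁ Ω₂ hb
  have hN1 : (1 : ℝ) ≤ N := by exact_mod_cast hN
  have hN0 : (0 : ℝ) < N := by linarith
  obtain ⟨u, v, hu, hv, huv⟩ := h N hN a ha Ω₁ Ω₂ hb
  have hle : ∀ τ τ' : ℍ, C * (N : ℝ) ^ κ * dist τ τ' ≤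
      C * (N : ℝ) ^ (κ + 1) * Real.exp ((κ + 1) * dist τ τ') := by
    intro τ τ'
    have hd : 0 ≤ dist τ τ' := dist_nonneg
    have h1 : dist τ τ' ≤ Real.exp ((κ + 1) * dist τ τ') := by
      have h2 := Real.add_one_le_exp ((κ + 1) * dist τ τ')
      have h3 : 0 ≤ κ * dist τ τ' := by positivity
      linarith
    have h4 : (N : ℝ) ^ κ ≤ (N : ℝ) ^ (κ + 1) :=
      Real.rpow_le_rpow_of_exponent_le hN1 (by linarith)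
    gcongr
  exact ⟨u, v, fun τ τ' => (hu τ τ').trans (hle τ τ'), fun τ τ' => (hv τ τ').trans (hle τ τ'), huv⟩

lemma exp_dist_I_le {γ : SL(2, ℤ)} {Y : ℝ} (h0 : |((γ 0 0 : ℤ) : ℝ)| ≤ Y)
    (h1 : |((γ 0 1 : ℤ) : ℝ)| ≤ Y) (h2 : |((γ 1 0 : ℤ) : ℝ)| ≤ Y) (h3 : |((γ 1 1 : ℤ) : ℝ)| ≤ Y) :
    Real.exp (dist (γ • UpperHalfPlane.I) UpperHalfPlane.I) ≤ 4 * Y ^ 2 := by
  have hsq : ∀ x : ℝ, |x| ≤ Y → x ^ 2 ≤ Y ^ 2 := fun x hx => by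
    rw [← sq_abs]
    exact pow_le_pow_left₀ (abs_nonneg _) hx 2
  have e1 := cosh_dist_I γ
  rw [Real.cosh_eq] at e1
  have e2 := Real.exp_pos (-dist UpperHalfPlane.I (γ • UpperHalfPlane.I))
  have a0 := hsq _ h0
  have a1 := hsq _ h1
  have a2 := hsq _ h2
  have a3 := hsq _ h3
  rw [dist_comm]
  linarith

lemma entries_of_exponential (h : ExponentialForm) : EntriesAtMost 2 := by
  obtain ⟨κ, hκ, C, hC, h⟩ := h
  refine ⟨κ + 4 * κ, by positivity, C * 4 ^ κ, by positivity, ?_⟩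
  intro N hN a ha Ω₁ Ω₂ hb p q r s hdet hr hp hq hr' hs
  have hN0 : (0 : ℝ) < N := by exact_mod_cast hN
  obtain ⟨u, v, hu, hv, huv⟩ := h N hN a ha Ω₁ Ω₂ hb
  set γ : SL(2, ℤ) := mk p q r s hdet with hγd
  have hγ : InG N γ := hr
  have hd : Real.exp (dist (γ • UpperHalfPlane.I) UpperHalfPlane.I) ≤ 4 * ((N : ℝ) ^ 2) ^ 2 := by
    refine exp_dist_I_le ?_ ?_ ?_ ?_
    · change |((p : ℤ) : ℝ)| ≤ _
      exact_mod_cast hp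
    · change |((q : ℤ) : ℝ)| ≤ _
      exact_mod_cast hq
    · change |((r : ℤ) : ℝ)| ≤ _
      exact_mod_cast hr'
    · change |((s : ℤ) : ℝ)| ≤ _
      exact_mod_cast hs
  have hH : Hs a γ = ((u (γ • UpperHalfPlane.I) - u UpperHalfPlane.I : ℝ) : ℂ) * Ω₁ +
      ((v (γ • UpperHalfPlane.I) - v UpperHalfPlane.I : ℝ) : ℂ) * Ω₂ :=
    huv γ hγ UpperHalfPlane.I
  have hle : C * (N : ℝ) ^ κ * Real.exp (κ * dist (γ • UpperHalfPlane.I) UpperHalfPlane.I) ≤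
      C * 4 ^ κ * (N : ℝ) ^ (κ + 4 * κ) := by
    have e : (N : ℝ) ^ (κ + 4 * κ) = (N : ℝ) ^ κ * ((N : ℝ) ^ 4) ^ κ := by
      rw [Real.rpow_add hN0, Real.rpow_mul hN0.le]
      congr 2
      exact_mod_cast Real.rpow_natCast (N : ℝ) 4
    have e2 : Real.exp (κ * dist (γ • UpperHalfPlane.I) UpperHalfPlane.I) ≤
        (4 * ((N : ℝ) ^ 2) ^ 2) ^ κ := by
      rw [mul_comm κ, Real.exp_mul]
      exact Real.rpow_le_rpow (Real.exp_pos _).le hd hκ.le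
    have e3 : (4 * ((N : ℝ) ^ 2) ^ 2) ^ κ = 4 ^ κ * ((N : ℝ) ^ 4) ^ κ := by
      rw [← pow_mul, Real.mul_rpow (by norm_num) (by positivity)]
    rw [e]
    rw [e3] at e2
    calc C * (N : ℝ) ^ κ * Real.exp (κ * dist (γ • UpperHalfPlane.I) UpperHalfPlane.I)
        ≤ C * (N : ℝ) ^ κ * (4 ^ κ * ((N : ℝ) ^ 4) ^ κ) := by gcongr
      _ = C * 4 ^ κ * ((N : ℝ) ^ κ * ((N : ℝ) ^ 4) ^ κ) := by ring
  refine (coord_iff ha.toIsForm hb hγ _).2 ⟨?_, ?_⟩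
  · rw [hH, L₁_real hb]
    exact (hu _ _).trans hle
  · rw [hH, L₂_real hb]
    exact (hv _ _).trans hle

theorem q1_iff_exponential : Q1 ↔ ExponentialForm :=
  ⟨fun h => exponential_of_lipschitz (q1_iff_lipschitz.1 h),
    fun h => q1_iff.2 (entries_of_exponential h)⟩

end Pool.Agent.R948.GE
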