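import Pool.Agent.R948.Ht
import Pool.Agent.R948.EncC

/-!
# Tools for the passage to larger fields
-/

set_option autoImplicit false
set_option linter.unusedSectionVars false
set_option linter.style.haveILetI false

namespace Pool.Agent.R948

open MvPolynomial

section

variable {F : Type} [Field F] {ι κ : Type} [Fintype ι] [Fintype κ] {K L : Type} [Field K]
  [Field L] [Algebra F K] [Algebra F L]

/-- integral polynomials as lists -/
theorem exists_list (F : Type) [Field F] (G : MvPolynomial ι ℤ) :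
    ∃ l : List ((ι → ℤ) × Fˣ), (∀ e ∈ l, Tor e.2) ∧
    ∀ (K : Type) [Field K] [Algebra F K] (y : ι → Kˣ), lev (fc l) y = aeval (un y) G := by
  classical
  induction G using MvPolynomial.induction_on with
  | C n =>
    refine ⟨List.replicate n.natAbs (0, if 0 ≤ n then 1 else -1), ?_, ?_⟩
    · intro e he
      rw [List.eq_of_mem_replicate he]
      by_cases h : 0 ≤ n
      · rw [if_pos h]
        exact ⟨1, one_pos, by simp⟩
      · rw [if_neg h]
        exact ⟨2, two_pos, by simp⟩
    · intro K _ _ y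
      rw [lev, fc, List.map_replicate, List.map_replicate, List.sum_replicate]
      simp only [mon_zero, Units.val_one, mul_one, aeval_C]
      by_cases h : 0 ≤ n
      · rw [if_pos h]
        have h1 : ((n.natAbs : ℕ) : ℤ) = n := Int.natAbs_of_nonneg h
        conv_rhs => rw [← h1]
        simp
      · rw [if_neg h]
        have h1 : ((n.natAbs : ℕ) : ℤ) = -n := Int.ofNat_natAbs_of_nonpos (by omega)
        have h2 : n = -((n.natAbs : ℕ) : ℤ) := by omega
        conv_rhs => rw [h2]
        simp
  | add p q hp hq =>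
    obtain ⟨l, hl, h⟩ := hp
    obtain ⟨l', hl', h'⟩ := hq
    refine ⟨l ++ l', fun e he => ?_, fun K _ _ y => ?_⟩
    · rcases List.mem_append.1 he with he | he
      · exact hl e he
      · exact hl' e he
    · rw [map_add, ← h K y, ← h' K y]
      simp [lev, fc]
  | mul_X p i hp =>
    obtain ⟨l, hl, h⟩ := hp
    refine ⟨l.map fun e => (e.1 + Pi.single i 1, e.2), fun e he => ?_, fun K _ _ y => ?_⟩
    · obtain ⟨e', he', rfl⟩ := List.mem_map.1 he
      exact hl e' he'
    · rw [map_mul, ← h K y, aeval_X]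
      clear h
      induction l with
      | nil => simp [lev, fc]
      | cons e l ih =>
        have h1 := ih fun e' he' => hl e' (List.mem_cons_of_mem _ he')
        have h2 : mon y (Pi.single i 1 : ι → ℤ) = y i := by
          rw [mon, Finset.prod_eq_single i]
          · simp
          · intro j' _ hj'
            rw [Pi.single_eq_of_ne hj', zpow_zero]
          · intro h
            exact absurd (Finset.mem_univ i) h
        have h3 : fc ((e :: l).map fun e => ((e.1 + Pi.single i 1, e.2) : (ι → ℤ) × Fˣ)) =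
          (e.1 + Pi.single i 1, (e.2 : F)) :: fc (l.map fun e => (e.1 + Pi.single i 1, e.2)) := rfl
        have h4 : fc (e :: l) = (e.1, (e.2 : F)) :: fc l := rfl
        rw [h3, h4, lev_cons, lev_cons, h1, mon_add, h2, Units.val_mul, un]
        ring

/-- the list of an integral polynomial -/
noncomputable def plist (F : Type) [Field F] (G : MvPolynomial ι ℤ) : List ((ι → ℤ) × Fˣ) :=
  (exists_list F G).choose

theorem plist_tor (G : MvPolynomial ι ℤ) : ∀ e ∈ plist F G, Tor e.2 :=
  (exists_list F G).choose_spec.1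

theorem lev_plist (G : MvPolynomial ι ℤ) (y : ι → Kˣ) :
    lev (fc (plist F G)) y = aeval (un y) G :=
  (exists_list F G).choose_spec.2 K y

/-- the system of a list of integral polynomials -/
noncomputable def sysZ (F : Type) [Field F] (LL : List (MvPolynomial ι ℤ)) : Sys F ι :=
  ⟨[], [], LL.map (plist F)⟩

theorem good_sysZ (LL : List (MvPolynomial ι ℤ)) : (sysZ F LL).Good := by
  refine ⟨?_, ?_, ?_⟩
  · intro e he
    simp [sysZ] at he
  · intro e he
    simp [sysZ] at he
  · intro l hl
    obtain ⟨H, -, rfl⟩ := List.mem_map.1 hl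
    exact plist_tor H

theorem sat_sysZ (LL : List (MvPolynomial ι ℤ)) (y : ι → Kˣ) :
    (sysZ F LL).Sat y ↔ ∀ H ∈ LL, aeval (un y) H = 0 := by
  constructor
  · rintro ⟨-, -, h⟩ H hH
    rw [← lev_plist (F := F)]
    exact h _ (List.mem_map.2 ⟨H, hH, rfl⟩)
  · intro h
    refine ⟨by simp [sysZ], by simp [sysZ], fun l hl => ?_⟩
    obtain ⟨H, hH, rfl⟩ := List.mem_map.1 hl
    rw [lev_plist]
    exact h H hH

theorem td_le_of_int [CharZero F] [Algebra.IsAlgebraic ℤ F] {z : ι → K} {z' : ι → L}
    (h : ∀ G : MvPolynomial ι ℤ, aeval z G = 0 → aeval z' G = 0) : td F z' ≤ td F z := by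
  classical
  obtain ⟨S, hS, hind, -⟩ := exists_td F z'
  rw [← hS]
  apply le_td
  have h1 : AlgebraicIndependent ℤ (fun i : S => z' i) :=
    hind.restrictScalars (RingHom.injective_int (algebraMap ℤ F))
  have h2 : AlgebraicIndependent ℤ (fun i : S => z i) := by
    rw [algebraicIndependent_iff]
    intro p hp
    refine algebraicIndependent_iff.1 h1 p ?_
    have h1 := h (rename Subtype.val p) (by rw [aeval_rename]; exact hp)
    rw [aeval_rename] at h1
    exact h1
  exact h2.extendScalars F

/-- points with the same integral relations -/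
theorem spec_of_int [CharZero F] [Algebra.IsAlgebraic ℤ F] {z : κ → Kˣ} {z' : κ → Lˣ}
    (h : Spec F z' z)
    (h' : ∀ G : MvPolynomial κ ℤ, aeval (un z) G = 0 → aeval (un z') G = 0) : Spec F z z' := by
  have h1 : (TP.ofPt z' : TP F κ).I ≤ (TP.ofPt z : TP F κ).I := h
  have h2 : td F (un z') ≤ td F (un z) := td_le_of_int h'
  have h3 : ∀ (K : Type) [Field K] [Algebra F K] (z : κ → Kˣ),
      tdP (TP.ofPt z : TP F κ).I = td F (un z) := by
    intro K _ _ z
    exact le_antisymm (tdP_le_td _ _ fun f hf => hf) (td_le_tdP _ _ fun f hf => hf)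
  have h4 : (TP.ofPt z' : TP F κ).I = (TP.ofPt z : TP F κ).I := by
    by_contra hne
    have h5 := tdP_strict (lt_of_le_of_ne h1 hne)
    rw [h3, h3] at h5
    omega
  intro f hf
  have h5 : f ∈ (TP.ofPt z : TP F κ).I := hf
  rw [← h4] at h5
  exact h5

theorem exists_fldHom (P : TP F κ) (z : κ → Kˣ) (h : ∀ f, aeval (un z) f = 0 ↔ f ∈ P.I) :
    ∃ φ : P.fld →ₐ[F] K, ∀ j, φ (P.pt j) = z j := by
  let g : (MvPolynomial κ F ⧸ P.I) →ₐ[F] K :=
    Ideal.Quotient.liftₐ P.I (aeval (un z)) (fun f hf => (h f).2 hf)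
  have hg : Function.Injective g := by
    rw [injective_iff_map_eq_zero]
    intro a ha
    obtain ⟨a, rfl⟩ := Ideal.Quotient.mk_surjective a
    exact Ideal.Quotient.eq_zero_iff_mem.2 ((h a).1 ha)
  refine ⟨IsFractionRing.liftAlgHom (K := P.fld) hg, fun j => ?_⟩
  have h1 : ((P.pt j : P.fldˣ) : P.fld) = algebraMap _ _ (cp P.I j) := rfl
  rw [h1, IsFractionRing.liftAlgHom_apply, IsFractionRing.lift_algebraMap]
  have h2 : g (Ideal.Quotient.mk P.I (X j)) = aeval (un z) (X j) := rfl
  rw [aeval_X] at h2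
  exact h2

/-- elements of the field of a prime ideal -/
theorem alg_fld (P : TP F ι) (A : Type) [CommRing A] [IsDomain A] [Algebra A P.fld]
    (h : ∀ f : MvPolynomial ι F, ∃ r : A, algebraMap A P.fld r = aeval (un P.pt) f) (a : P.fld) :
    IsAlgebraic A a := by
  obtain ⟨x, y, hy, rfl⟩ := IsFractionRing.div_surjective (A := MvPolynomial ι F ⧸ P.I) a
  obtain ⟨f, rfl⟩ := Ideal.Quotient.mk_surjective x
  obtain ⟨g, rfl⟩ := Ideal.Quotient.mk_surjective y
  rw [← TP.aeval_pt, ← TP.aeval_pt]
  obtain ⟨r, hr⟩ := h f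
  obtain ⟨s, hs⟩ := h g
  rw [← hr, ← hs, div_eq_mul_inv]
  exact (isAlgebraic_algebraMap (A := P.fld) r).mul
    (IsAlgebraic.inv_iff.2 (isAlgebraic_algebraMap (A := P.fld) s))

theorem td_pt_eq (P : TP F ι) : (td F (un P.pt) : Cardinal) = Algebra.trdeg F P.fld := by
  refine td_eq_trdeg F _ fun a => alg_fld P _ (fun f => ?_) a
  refine ⟨⟨aeval (un P.pt) f, ?_⟩, rfl⟩
  rw [Algebra.adjoin_range_eq_range_aeval]
  exact ⟨f, rfl⟩

theorem td_add_le {k : Type} [Field k] [Algebra F k] [Algebra k K] [IsScalarTower F k K]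
    (x : ι → K) (c : κ → k) :
    td k x + td F c ≤ td F (Sum.elim x (fun j => algebraMap k K (c j))) := by
  obtain ⟨S, hS, hS2, -⟩ := exists_td k x
  obtain ⟨T, hT, hT2, -⟩ := exists_td F c
  have h := hT2.sumElim_comp hS2
  have h3 := card_le_td h
  rw [Fintype.card_sum, Fintype.card_coe, Fintype.card_coe, hS, hT] at h3
  refine h3.trans (td_le_of_alg F fun k => ?_)
  rcases k with i | j
  · exact alg_of_range (F := F) (Sum.elim x (fun j => algebraMap _ K (c j))) (Sum.inl i.1)
  · exact alg_of_range (F := F) (Sum.elim x (fun j => algebraMap _ K (c j))) (Sum.inr j.1)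

end

end Pool.Agent.R948
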