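import Pool.Agent.R948.Pr

/-!
# Heights and transcendence degrees in polynomial rings, and extension of the base field
-/

set_option autoImplicit false
set_option linter.unusedSectionVars false
set_option linter.style.haveILetI false

namespace Pool.Agent.R948

open MvPolynomial

section

variable {F : Type} [Field F] {ι : Type} [Fintype ι]

theorem height_add_le (P : Ideal (MvPolynomial ι F)) [P.IsPrime] :
    P.height + tdP P ≤ Fintype.card ι := by
  obtain ⟨l, hl, hlen⟩ := P.exists_ltSeries_length_eq_height
  have key : ∀ (n : ℕ) (l : LTSeries (PrimeSpectrum (MvPolynomial ι F))), l.length = n →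
      n + tdP (RelSeries.last l).asIdeal ≤ Fintype.card ι := by
    intro n
    induction n with
    | zero =>
      intro l _
      have := tdP_le_card (RelSeries.last l).asIdeal
      omega
    | succ n ih =>
      intro l hl
      have h0 : l.length ≠ 0 := by omega
      have h1 := ih l.eraseLast (by simp [hl])
      have h2 : l.eraseLast.last < l.last := l.eraseLast_last_rel_last h0
      have h3 : tdP (RelSeries.last l).asIdeal < tdP (RelSeries.last l.eraseLast).asIdeal :=
        tdP_strict h2
      omega
  have h1 := key l.length l rfl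
  have h2 : tdP (RelSeries.last l).asIdeal = tdP P := by
    simp only [hl]
  rw [← hlen]
  rw [h2] at h1
  exact_mod_cast h1

theorem tdP_le_of_minimal (s : List (MvPolynomial ι F)) : ∀ (P₀ p : Ideal (MvPolynomial ι F))
    [P₀.IsPrime] [p.IsPrime], p ∈ (P₀ ⊔ Ideal.span {f | f ∈ s}).minimalPrimes →
    tdP P₀ ≤ tdP p + s.length := by
  induction s with
  | nil =>
    intro P₀ p _ _ hp
    have h1 : P₀ ⊔ Ideal.span {f | f ∈ ([] : List (MvPolynomial ι F))} = P₀ := by
      simp
    rw [h1, Ideal.minimalPrimes_eq_subsingleton_self, Set.mem_singleton_iff] at hp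
    subst hp
    simp
  | cons f s ih =>
    intro P₀ p _ _ hp
    have hspan : Ideal.span {g | g ∈ f :: s} = Ideal.span {f} ⊔ Ideal.span {g | g ∈ s} := by
      rw [← Ideal.span_union]
      congr 1
      ext g
      simp
    have h1 : P₀ ⊔ Ideal.span {f} ≤ p := by
      refine le_trans ?_ hp.1.2
      rw [hspan]
      exact sup_le_sup_left le_sup_left _
    obtain ⟨P₁, hP₁, hP₁p⟩ := Ideal.exists_minimalPrimes_le h1
    have : P₁.IsPrime := hP₁.1.1
    have h2 : p ∈ (P₁ ⊔ Ideal.span {g | g ∈ s}).minimalPrimes := by
      refine ⟨⟨inferInstance, sup_le hP₁p ?_⟩, fun q hq hqp => ?_⟩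
      · refine le_trans ?_ hp.1.2
        rw [hspan]
        exact le_sup_right.trans le_sup_right
      · refine hp.2 ⟨hq.1, ?_⟩ hqp
        rw [hspan]
        refine sup_le ?_ (sup_le ?_ ?_)
        · exact (le_sup_left.trans hP₁.1.2).trans (le_sup_left.trans hq.2)
        · exact (le_sup_right.trans hP₁.1.2).trans (le_sup_left.trans hq.2)
        · exact le_sup_right.trans hq.2
    have h3 := ih P₁ p h2
    have h4 := tdP_drop f hP₁
    rw [List.length_cons]
    omega

theorem tdP_bot : tdP (⊥ : Ideal (MvPolynomial ι F)) = Fintype.card ι := by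
  refine le_antisymm (tdP_le_card _) ?_
  have h1 : AlgebraicIndependent F (cp (⊥ : Ideal (MvPolynomial ι F))) := by
    rw [algebraicIndependent_iff]
    intro p hp
    rw [aeval_cp_eq_zero] at hp
    exact (Submodule.mem_bot _).1 hp
  have h2 := le_td F (z := cp (⊥ : Ideal (MvPolynomial ι F))) (S := Finset.univ)
    (h1.comp Subtype.val Subtype.val_injective)
  rwa [Finset.card_univ] at h2

theorem card_le_height_add (P : Ideal (MvPolynomial ι F)) [P.IsPrime] :
    (Fintype.card ι : ℕ∞) ≤ P.height + tdP P := by
  obtain ⟨s, hs, hcard⟩ := P.exists_finset_card_eq_height_of_isNoetherianRing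
  have h1 : P ∈ ((⊥ : Ideal (MvPolynomial ι F)) ⊔ Ideal.span {f | f ∈ s.toList}).minimalPrimes := by
    rw [bot_sup_eq]
    have : {f | f ∈ s.toList} = (s : Set (MvPolynomial ι F)) := by
      ext f
      simp
    rw [this]
    exact hs
  have h2 := tdP_le_of_minimal s.toList ⊥ P h1
  rw [tdP_bot, Finset.length_toList] at h2
  rw [← hcard, add_comm]
  exact_mod_cast h2

attribute [local instance] MvPolynomial.algebraMvPolynomial

/-- extension of the base field: the components have at least the same dimension -/
theorem base_change {K : Type} [Field K] [Algebra F K] (q : Ideal (MvPolynomial ι F)) [q.IsPrime]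
    (b : Ideal (MvPolynomial ι K)) [b.IsPrime]
    (hb : b ∈ (q.map (algebraMap (MvPolynomial ι F) (MvPolynomial ι K))).minimalPrimes) :
    tdP q ≤ tdP b := by
  have hflat : Module.Flat (MvPolynomial ι F) (MvPolynomial ι K) := by
    have h1 : Algebra.IsPushout F (MvPolynomial ι F) K (MvPolynomial ι K) := inferInstance
    exact Module.Flat.isBaseChange F (MvPolynomial ι F) K (MvPolynomial ι K) h1.out
  have hgd : Algebra.HasGoingDown (MvPolynomial ι F) (MvPolynomial ι K) := inferInstance
  have hle : q ≤ b.under (MvPolynomial ι F) := Ideal.map_le_iff_le_comap.1 hb.1.2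
  have hlies : b.LiesOver q := by
    obtain ⟨p, hp1, hp2, hp3⟩ := Ideal.exists_ideal_le_liesOver_of_le (p := q)
      (q := b.under (MvPolynomial ι F)) b hle
    have h1 : q.map (algebraMap (MvPolynomial ι F) (MvPolynomial ι K)) ≤ p := by
      rw [Ideal.map_le_iff_le_comap, hp3.over]
    have h2 : b ≤ p := hb.2 ⟨hp2, h1⟩ hp1
    have h3 : p = b := le_antisymm hp1 h2
    rw [← h3]
    exact hp3
  have h1 := Ideal.height_le_height_add_of_liesOver q b
  have h2 : (b.map (Ideal.Quotient.mk (q.map (algebraMap (MvPolynomial ι F)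
      (MvPolynomial ι K))))).height = 0 := by
    have h3 : b.map (Ideal.Quotient.mk (q.map (algebraMap (MvPolynomial ι F)
      (MvPolynomial ι K)))) ∈ minimalPrimes (MvPolynomial ι K ⧸
        (q.map (algebraMap (MvPolynomial ι F) (MvPolynomial ι K)))) := by
      have h4 := Ideal.minimalPrimes_map_of_surjective (f := Ideal.Quotient.mk
        (q.map (algebraMap (MvPolynomial ι F) (MvPolynomial ι K)))) Ideal.Quotient.mk_surjective
        (q.map (algebraMap (MvPolynomial ι F) (MvPolynomial ι K)))
      rw [Ideal.map_quotient_self, Ideal.mk_ker, sup_idem] at h4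
      have h5 : b.map (Ideal.Quotient.mk (q.map (algebraMap (MvPolynomial ι F)
          (MvPolynomial ι K)))) ∈ (⊥ : Ideal (MvPolynomial ι K ⧸
          (q.map (algebraMap (MvPolynomial ι F) (MvPolynomial ι K))))).minimalPrimes := by
        rw [h4]
        exact ⟨b, hb, rfl⟩
      exact h5
    have : (b.map (Ideal.Quotient.mk (q.map (algebraMap (MvPolynomial ι F)
      (MvPolynomial ι K))))).IsPrime := h3.1.1
    rw [Ideal.height_eq_zero_iff]
    exact h3
  rw [h2, add_zero] at h1
  have h3 := height_add_le q
  have h4 := card_le_height_add b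
  have h5 : q.height + tdP q ≤ q.height + tdP b := h3.trans (h4.trans (by gcongr))
  have h6 : q.height ≠ ⊤ := Ideal.height_ne_top_of_isPrime
  have h7 := (ENat.add_le_add_iff_left h6).1 h5
  exact_mod_cast h7

end

end Pool.Agent.R948
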