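import Pool.Agent.R948.JLat
import Pool.Agent.H294ZP.TA1
import Pool.Agent.H294ZP.TBproof
import Pool.Agent.H294ZP.TaskTA2

/-!
# `j` is injective modulo `SL(2, ℤ)` and surjective
-/

set_option autoImplicit false

open Filter Topology UpperHalfPlane ModularForm H294ZP EisensteinSeries MatrixGroups

namespace Pool.Agent.R948.JJ

/-- the lattice `lam (ℤ τ + ℤ)` -/
noncomputable def lat (τ : ℍ) (lam : ℂ) (h : lam ≠ 0) : PeriodPair where
  ω₁ := lam * τ
  ω₂ := lam
  indep := by
    rw [LinearIndependent.pair_iff]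
    intro s t hst
    have h1 : lam * (s * τ + t) = 0 := by
      rw [← hst, Complex.real_smul, Complex.real_smul]
      ring
    have h2 := (mul_eq_zero.1 h1).resolve_left h
    have h3 : s * τ.im = 0 := by
      have h4 := congrArg Complex.im h2
      simpa using h4
    have h5 : s = 0 := (mul_eq_zero.1 h3).resolve_right τ.im_pos.ne'
    subst h5
    refine ⟨rfl, ?_⟩
    simpa using h2

theorem lat_G (τ : ℍ) (lam : ℂ) (h : lam ≠ 0) {k : ℕ} (hk : 3 ≤ k) :
    (lat τ lam h).G k = (lam ^ k)⁻¹ * (2 * riemannZeta k * E hk τ) := by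
  have h1 := tsum_eisSummand_eq_riemannZeta_mul_eisensteinSeries hk τ
  have h2 : E hk τ = (1 / 2 : ℂ) * eisensteinSeries (N := 1) 0 k τ := by
    rw [show E hk τ = (1 / 2 : ℂ) • eisensteinSeriesSIF (N := 1) 0 k τ from rfl,
      eisensteinSeriesSIF_apply 0 k τ, smul_eq_mul]
  have h3 : 2 * riemannZeta k * E hk τ = ∑' v : Fin 2 → ℤ, eisSummand k v τ := by
    rw [h1, h2]
    ring
  rw [h3, ← tsum_mul_left, PeriodPair.G, ← (lat τ lam h).latticeEquivProd.symm.toEquiv.tsum_eq,
    ← (finTwoArrowEquiv ℤ).tsum_eq]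
  refine tsum_congr fun v => ?_
  have h4 : (((lat τ lam h).latticeEquivProd.symm (finTwoArrowEquiv ℤ v) :
      (lat τ lam h).lattice) : ℂ) = lam * (v 0 * τ + v 1) := by
    rw [PeriodPair.latticeEquiv_symm_apply]
    change (v 0 : ℂ) * (lam * τ) + (v 1 : ℂ) * lam = _
    ring
  change ((((lat τ lam h).latticeEquivProd.symm (finTwoArrowEquiv ℤ v) :
      (lat τ lam h).lattice) : ℂ) ^ k)⁻¹ = _
  rw [h4, eisSummand, mul_pow, mul_inv, zpow_neg, zpow_natCast]

theorem exists_matrix (τ w : ℍ) (lam : ℂ) (h : lam ≠ 0)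
    (hl : (lat τ 1 one_ne_zero).lattice = (lat w lam h).lattice) :
    ∃ a b c d : ℤ, a * d - b * c = 1 ∧ (τ : ℂ) * (c * w + d) = a * w + b := by
  have h1 : (τ : ℂ) ∈ (lat w lam h).lattice := by
    rw [← hl, PeriodPair.mem_lattice]
    exact ⟨1, 0, by simp [lat]⟩
  have h2 : (1 : ℂ) ∈ (lat w lam h).lattice := by
    rw [← hl, PeriodPair.mem_lattice]
    exact ⟨0, 1, by simp [lat]⟩
  have h3 : lam * w ∈ (lat τ 1 one_ne_zero).lattice := by
    rw [hl, PeriodPair.mem_lattice]
    exact ⟨1, 0, by simp [lat]⟩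
  have h4 : lam ∈ (lat τ 1 one_ne_zero).lattice := by
    rw [hl, PeriodPair.mem_lattice]
    exact ⟨0, 1, by simp [lat]⟩
  rw [PeriodPair.mem_lattice] at h1 h2 h3 h4
  obtain ⟨a, b, h1⟩ := h1
  obtain ⟨c, d, h2⟩ := h2
  obtain ⟨p, q, h3⟩ := h3
  obtain ⟨r, s, h4⟩ := h4
  simp only [lat, one_mul, mul_one] at h1 h2 h3 h4
  -- `τ = lam (a w + b)`, `1 = lam (c w + d)`, `lam w = p τ + q`, `lam = r τ + s`
  have e1 : (τ : ℂ) = lam * (a * w + b) := by rw [← h1]; ring
  have e2 : (1 : ℂ) = lam * (c * w + d) := by rw [← h2]; ring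
  have hrel : (τ : ℂ) * (c * w + d) = a * w + b := by
    apply mul_left_cancel₀ h
    linear_combination (lam * (c * w + d)) * e1 - (lam * (a * w + b)) * e2
  -- the imaginary part
  have key : ∀ (x : ℍ) (α β : ℤ), (α : ℂ) * x + β = 0 → α = 0 ∧ β = 0 := by
    intro x α β h5
    have h6 : (α : ℝ) * x.im = 0 := by
      have h7 := congrArg Complex.im h5
      simpa using h7
    have h7 : α = 0 := by exact_mod_cast (mul_eq_zero.1 h6).resolve_right x.im_pos.ne'
    subst h7
    refine ⟨rfl, ?_⟩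
    have h8 : (β : ℂ) = 0 := by simpa using h5
    exact_mod_cast h8
  -- the product of the matrices is the identity
  have f1 : ((a * p + b * r - 1 : ℤ) : ℂ) * τ + ((a * q + b * s : ℤ) : ℂ) = 0 := by
    push_cast
    linear_combination a * h3 + b * h4 - e1
  have f2 : ((c * p + d * r : ℤ) : ℂ) * τ + ((c * q + d * s - 1 : ℤ) : ℂ) = 0 := by
    push_cast
    linear_combination c * h3 + d * h4 - e2
  obtain ⟨g1, g2⟩ := key τ _ _ f1
  obtain ⟨g3, g4⟩ := key τ _ _ f2
  have hdet : (a * d - b * c) * (p * s - q * r) = 1 := by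
    have i1 : a * p + b * r = 1 := by omega
    have i4 : c * q + d * s = 1 := by omega
    linear_combination (c * q + d * s) * i1 + i4 - (c * p + d * r) * g2
  -- positivity
  have hpos : 0 < a * d - b * c := by
    have h5 : ((c : ℂ) * w + d) ≠ 0 := by
      intro h6
      rw [h6, mul_zero] at e2
      exact one_ne_zero e2
    have h6 : τ.im * Complex.normSq ((c : ℂ) * w + d) = ((a * d - b * c : ℤ) : ℝ) * w.im := by
      have h7 : (τ : ℂ) * Complex.normSq ((c : ℂ) * w + d) =
          (a * w + b) * (starRingEnd ℂ) ((c : ℂ) * w + d) := by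
        rw [← hrel, ← Complex.mul_conj]
        ring
      have h8 := congrArg Complex.im h7
      simp only [Complex.mul_im, Complex.ofReal_re, Complex.ofReal_im, Complex.add_re,
        Complex.add_im, Complex.mul_re, Complex.intCast_re, Complex.intCast_im, Complex.conj_re,
        Complex.conj_im, UpperHalfPlane.coe_re, UpperHalfPlane.coe_im] at h8
      push_cast
      linear_combination h8
    have h7 : 0 < Complex.normSq ((c : ℂ) * w + d) := Complex.normSq_pos.2 h5
    have h8 : 0 < ((a * d - b * c : ℤ) : ℝ) := by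
      by_contra h9
      push Not at h9
      have h10 : ((a * d - b * c : ℤ) : ℝ) * w.im ≤ 0 :=
        mul_nonpos_of_nonpos_of_nonneg h9 w.im_pos.le
      have h11 : 0 < τ.im * Complex.normSq ((c : ℂ) * w + d) := mul_pos τ.im_pos h7
      linarith
    exact_mod_cast h8
  refine ⟨a, b, c, d, ?_, hrel⟩
  rcases Int.eq_one_or_neg_one_of_mul_eq_one hdet with h5 | h5
  · exact h5
  · omega

/-- `j` is injective modulo `SL(2, ℤ)`. -/
theorem jj_inj {τ w : ℍ} (h : jj τ = jj w) :
    ∃ a b c d : ℤ, a * d - b * c = 1 ∧ (τ : ℂ) * (c * w + d) = a * w + b := by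
  have hΔ := discriminant_ne_zero τ
  have hΔ' := discriminant_ne_zero w
  have h1728 := discriminant_eq_E₄_cube_sub_E₆_sq τ
  have h1728' := discriminant_eq_E₄_cube_sub_E₆_sq w
  have h1 : E₄ τ ^ 3 * discriminant w = E₄ w ^ 3 * discriminant τ := by
    rw [jj, jj, div_eq_div_iff hΔ hΔ'] at h
    exact h
  have h2 : E₄ τ ^ 3 * E₆ w ^ 2 = E₄ w ^ 3 * E₆ τ ^ 2 := by
    rw [h1728, h1728'] at h1
    linear_combination -1728 * h1
  -- the scaling
  obtain ⟨m, hm, hm4, hm6⟩ : ∃ m : ℂ, m ≠ 0 ∧ m ^ 4 * E₄ w = E₄ τ ∧ m ^ 6 * E₆ w = E₆ τ := by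
    by_cases h4 : E₄ τ = 0
    · have h4' : E₄ w = 0 := by
        rw [h4] at h1
        have h5 : E₄ w ^ 3 * discriminant τ = 0 := by rw [← h1]; ring
        exact pow_eq_zero_iff (by norm_num) |>.1 ((mul_eq_zero.1 h5).resolve_right hΔ)
      have h6 : E₆ τ ≠ 0 := by
        intro h7
        apply hΔ
        rw [h1728, h4, h7]
        norm_num
      have h6' : E₆ w ≠ 0 := by
        intro h7
        apply hΔ'
        rw [h1728', h4', h7]
        norm_num
      obtain ⟨m, hm⟩ := IsAlgClosed.exists_pow_nat_eq (E₆ τ / E₆ w) (n := 6) (by norm_num)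
      refine ⟨m, ?_, by rw [h4, h4', mul_zero], by rw [hm, div_mul_cancel₀ _ h6']⟩
      rintro rfl
      have h7 : E₆ τ / E₆ w = 0 := by rw [← hm]; norm_num
      exact (div_ne_zero h6 h6') h7
    · have h4' : E₄ w ≠ 0 := by
        intro h5
        rw [h5] at h1
        have h6 : E₄ τ ^ 3 * discriminant w = 0 := by rw [h1]; ring
        exact h4 (pow_eq_zero_iff (by norm_num) |>.1 ((mul_eq_zero.1 h6).resolve_right hΔ'))
      by_cases h6 : E₆ τ = 0
      · have h6' : E₆ w = 0 := by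
          rw [h6] at h2
          have h7 : E₄ τ ^ 3 * E₆ w ^ 2 = 0 := by rw [h2]; ring
          exact pow_eq_zero_iff (by norm_num) |>.1 ((mul_eq_zero.1 h7).resolve_left
            (pow_ne_zero _ h4))
        obtain ⟨m, hm⟩ := IsAlgClosed.exists_pow_nat_eq (E₄ τ / E₄ w) (n := 4) (by norm_num)
        refine ⟨m, ?_, by rw [hm, div_mul_cancel₀ _ h4'], by rw [h6, h6', mul_zero]⟩
        rintro rfl
        have h7 : E₄ τ / E₄ w = 0 := by rw [← hm]; norm_num
        exact (div_ne_zero h4 h4') h7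
      · have h6' : E₆ w ≠ 0 := by
          intro h5
          rw [h5] at h2
          have h7 : E₄ w ^ 3 * E₆ τ ^ 2 = 0 := by rw [← h2]; ring
          rcases mul_eq_zero.1 h7 with h8 | h8
          · exact h4' (pow_eq_zero_iff (by norm_num) |>.1 h8)
          · exact h6 (pow_eq_zero_iff (by norm_num) |>.1 h8)
        obtain ⟨m, hm⟩ := IsAlgClosed.exists_pow_nat_eq ((E₆ τ / E₆ w) / (E₄ τ / E₄ w))
          (n := 2) (by norm_num)
        have hm0 : m ≠ 0 := by
          rintro rfl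
          have h7 : (E₆ τ / E₆ w) / (E₄ τ / E₄ w) = 0 := by rw [← hm]; norm_num
          exact (div_ne_zero (div_ne_zero h6 h6') (div_ne_zero h4 h4')) h7
        have e4 : m ^ 4 = E₄ τ / E₄ w := by
          have e : m ^ 4 = (m ^ 2) ^ 2 := by ring
          rw [e, hm]
          field_simp
          linear_combination -h2
        have e6 : m ^ 6 = E₆ τ / E₆ w := by
          have e : m ^ 6 = m ^ 4 * m ^ 2 := by ring
          rw [e, hm, e4]
          field_simp
        exact ⟨m, hm0, by rw [e4, div_mul_cancel₀ _ h4'], by rw [e6, div_mul_cancel₀ _ h6']⟩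
  have hl : (lat τ 1 one_ne_zero).lattice = (lat w m⁻¹ (inv_ne_zero hm)).lattice := by
    apply lattice_eq
    · rw [PeriodPair.g₂, PeriodPair.g₂, lat_G _ _ _ (by norm_num : 3 ≤ 4),
        lat_G _ _ _ (by norm_num : 3 ≤ 4)]
      have h3 : E (by norm_num : 3 ≤ 4) τ = m ^ 4 * E (by norm_num : 3 ≤ 4) w := hm4.symm
      rw [h3]
      simp only [one_pow, inv_one, one_mul, inv_pow, inv_inv]
      ring
    · rw [PeriodPair.g₃, PeriodPair.g₃, lat_G _ _ _ (by norm_num : 3 ≤ 6),
        lat_G _ _ _ (by norm_num : 3 ≤ 6)]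
      have h3 : E (by norm_num : 3 ≤ 6) τ = m ^ 6 * E (by norm_num : 3 ≤ 6) w := hm6.symm
      rw [h3]
      simp only [one_pow, inv_one, one_mul, inv_pow, inv_inv]
      ring
  exact exists_matrix τ w _ _ hl

/-- an invariant holomorphic function with limit `0` at infinity vanishes -/
theorem eq_zero_of_limit (f : ℍ → ℂ) (hI : Inv f) (hH : Hol f)
    (hlim : Tendsto f atImInfty (𝓝 0)) : ∀ τ, f τ = 0 := by
  have hslash : ∀ γ : SL(2, ℤ), f ∣[(0 : ℤ)] γ = f := by
    intro γ
    ext τ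
    rw [SL_slash_apply]
    simp only [neg_zero, zpow_zero, mul_one]
    have hdet := γ.det_coe
    rw [Matrix.det_fin_two] at hdet
    apply hI (γ 0 0) (γ 0 1) (γ 1 0) (γ 1 1) hdet τ (γ • τ)
    rw [coe_specialLinearGroup_apply]
    have hd : ((γ 1 0 : ℤ) : ℂ) * (τ : ℂ) + ((γ 1 1 : ℤ) : ℂ) ≠ 0 := by
      have := denom_ne_zero γ τ
      simpa [denom] using this
    simp only [eq_intCast, Complex.ofReal_intCast]
    rw [div_mul_cancel₀ _ hd]
  let g : ModularForm 𝒮ℒ 0 :=
    { toFun := f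
      slash_action_eq' := by
        rintro _ ⟨γ, rfl⟩
        exact hslash γ
      holo' := mdifferentiable_iff.2 hH
      bdd_at_cusps' := by
        intro c hc
        rw [OnePoint.isBoundedAt_iff_forall_SL2Z hc]
        intro γ _
        rw [hslash γ]
        exact hlim.isBigO_one ℝ }
  obtain ⟨c, hc⟩ := ModularFormClass.levelOne_weight_zero_const g
  have hf : f = Function.const ℍ c := hc
  have hcA : c = 0 := by
    rw [hf] at hlim
    exact tendsto_nhds_unique tendsto_const_nhds hlim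
  intro τ
  rw [hf, hcA]; rfl

/-- `j` is surjective. -/
theorem jj_surj (c : ℂ) : ∃ τ : ℍ, jj τ = c := by
  by_contra hne
  push Not at hne
  have h0 : ∀ τ, jj τ - c ≠ 0 := fun τ => sub_ne_zero.2 (hne τ)
  have h1 : ∀ τ, (jj τ - c)⁻¹ = 0 := by
    refine eq_zero_of_limit (fun τ => (jj τ - c)⁻¹) ?_ ?_ ?_
    · intro a b p q h τ w hw
      change (jj w - c)⁻¹ = (jj τ - c)⁻¹
      rw [inv_jj a b p q h τ w hw]
    · have h2 : DifferentiableOn ℂ (jj ∘ ofComplex) {z | 0 < z.im} := hol_jj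
      change DifferentiableOn ℂ ((fun τ => (jj τ - c)⁻¹) ∘ ofComplex) {z | 0 < z.im}
      exact (h2.sub_const c).inv fun z _ => h0 _
    · have h2 : Tendsto (fun τ => qq 1 τ ^ 1 * jj τ) atImInfty (𝓝 1) :=
        TBproof.lau_limit 1 1 1 jj one_pos ta2
      have h3 := TBproof.tendsto_qq 1 one_pos
      have h4 : Tendsto (fun τ => qq 1 τ / (qq 1 τ ^ 1 * jj τ - c * qq 1 τ)) atImInfty
          (𝓝 (0 / (1 - c * 0))) := h3.div (h2.sub (h3.const_mul c)) (by simp)
      simp only [mul_zero, sub_zero, div_one] at h4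
      refine h4.congr fun τ => ?_
      have h5 := TBproof.qq_ne_zero 1 τ
      have h6 : qq 1 τ ^ 1 * jj τ - c * qq 1 τ = qq 1 τ * (jj τ - c) := by ring
      rw [h6, div_mul_eq_div_div, div_self h5, one_div]
  exact (inv_ne_zero (h0 UpperHalfPlane.I)) (h1 _)

end Pool.Agent.R948.JJ
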