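import Mathlib

/-!
# A lattice is determined by its invariants `g₂`, `g₃`
-/

set_option autoImplicit false

open Filter Topology PeriodPair

namespace Pool.Agent.R948.JJ

section

variable (L : PeriodPair)

theorem wp_eq {z : ℂ} : L.weierstrassP z = L.weierstrassPExcept 0 z + 1 / z ^ 2 := by
  have h := L.weierstrassPExcept_add ⟨0, L.lattice.zero_mem⟩ z
  simp only [sub_zero] at h
  rw [← h]
  simp

theorem wpd_eq {z : ℂ} : L.derivWeierstrassP z = L.derivWeierstrassPExcept 0 z - 2 / z ^ 3 := by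
  have h := L.derivWeierstrassPExcept_sub ⟨0, L.lattice.zero_mem⟩ z
  simp only [sub_zero] at h
  rw [← h]

end

/-- the function `℘ - 1 / z ^ 2` near `0` is determined by the invariants -/
theorem except_eventuallyEq (L L' : PeriodPair) (h2 : L.g₂ = L'.g₂) (h3 : L.g₃ = L'.g₃) :
    L.weierstrassPExcept 0 =ᶠ[𝓝 0] L'.weierstrassPExcept 0 := by
  have ha := L.analyticAt_weierstrassPExcept 0
  have ha' := L'.analyticAt_weierstrassPExcept 0
  have hb := L.analyticAt_derivWeierstrassPExcept 0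
  have hb' := L'.analyticAt_derivWeierstrassPExcept 0
  by_contra hne
  have hd : AnalyticAt ℂ (fun z => L.weierstrassPExcept 0 z - L'.weierstrassPExcept 0 z) 0 :=
    ha.sub ha'
  have hd0 : ¬ ∀ᶠ z in 𝓝 0, L.weierstrassPExcept 0 z - L'.weierstrassPExcept 0 z = 0 := by
    intro h
    apply hne
    filter_upwards [h] with z hz
    exact sub_eq_zero.1 hz
  obtain ⟨n, g, hg, hg0, hgz⟩ := hd.exists_eventuallyEq_pow_smul_nonzero_iff.2 hd0
  -- the punctured neighbourhood
  have hn := L.compl_lattice_sdiff_singleton_mem_nhds 0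
  have hn' := L'.compl_lattice_sdiff_singleton_mem_nhds 0
  have hderiv : ∀ᶠ z in 𝓝 (0 : ℂ), L.derivWeierstrassPExcept 0 z - L'.derivWeierstrassPExcept 0 z =
      n * z ^ (n - 1) * g z + z ^ n * deriv g z := by
    have h1 : (fun z => L.weierstrassPExcept 0 z - L'.weierstrassPExcept 0 z) =ᶠ[𝓝 0]
        fun z => z ^ n * g z := by
      filter_upwards [hgz] with z hz
      rw [hz, sub_zero, smul_eq_mul]
    have h2 := h1.deriv
    filter_upwards [h2, hn, hn', hg.eventually_analyticAt] with z hz hz1 hz2 hz3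
    have e1 : deriv (L.weierstrassPExcept 0) z = L.derivWeierstrassPExcept 0 z :=
      L.eqOn_deriv_weierstrassPExcept_derivWeierstrassPExcept 0 hz1
    have e2 : deriv (L'.weierstrassPExcept 0) z = L'.derivWeierstrassPExcept 0 z :=
      L'.eqOn_deriv_weierstrassPExcept_derivWeierstrassPExcept 0 hz2
    have d1 : DifferentiableAt ℂ (L.weierstrassPExcept 0) z :=
      (L.differentiableOn_weierstrassPExcept 0).differentiableAt
        (L.isOpen_compl_lattice_sdiff.mem_nhds hz1)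
    have d2 : DifferentiableAt ℂ (L'.weierstrassPExcept 0) z :=
      (L'.differentiableOn_weierstrassPExcept 0).differentiableAt
        (L'.isOpen_compl_lattice_sdiff.mem_nhds hz2)
    have e3 : deriv (fun z => L.weierstrassPExcept 0 z - L'.weierstrassPExcept 0 z) z =
        deriv (L.weierstrassPExcept 0) z - deriv (L'.weierstrassPExcept 0) z := deriv_fun_sub d1 d2
    rw [e3, e1, e2] at hz
    rw [hz, deriv_fun_mul (by fun_prop) hz3.differentiableAt]
    simp
  -- the relation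
  have key : ∀ᶠ z in 𝓝[≠] (0 : ℂ), (n * g z + z * deriv g z) *
      ((-2 + z ^ 3 * L.derivWeierstrassPExcept 0 z) + (-2 + z ^ 3 * L'.derivWeierstrassPExcept 0 z))
      = g z * (4 * ((1 + z ^ 2 * L.weierstrassPExcept 0 z) ^ 2 +
        (1 + z ^ 2 * L.weierstrassPExcept 0 z) * (1 + z ^ 2 * L'.weierstrassPExcept 0 z) +
        (1 + z ^ 2 * L'.weierstrassPExcept 0 z) ^ 2) - L.g₂ * z ^ 4) := by
    filter_upwards [nhdsWithin_le_nhds hderiv, nhdsWithin_le_nhds hgz, nhdsWithin_le_nhds hn,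
      nhdsWithin_le_nhds hn', self_mem_nhdsWithin] with z hz1 hz2 hz3 hz4 hz5
    have hz0 : z ≠ 0 := hz5
    have m1 : z ∉ L.lattice := fun h => hz3 ⟨h, hz0⟩
    have m2 : z ∉ L'.lattice := fun h => hz4 ⟨h, hz0⟩
    have r1 := L.derivWeierstrassP_sq z m1
    have r2 := L'.derivWeierstrassP_sq z m2
    rw [wp_eq, wpd_eq] at r1 r2
    rw [← h2, ← h3] at r2
    rw [sub_zero, smul_eq_mul] at hz2
    set a := L.weierstrassPExcept 0 z
    set a' := L'.weierstrassPExcept 0 z
    set b := L.derivWeierstrassPExcept 0 z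
    set b' := L'.derivWeierstrassPExcept 0 z
    have r3 : (-2 + z ^ 3 * b) ^ 2 = 4 * (1 + z ^ 2 * a) ^ 3 - L.g₂ * z ^ 4 * (1 + z ^ 2 * a) -
        L.g₃ * z ^ 6 := by
      have e1 : -2 + z ^ 3 * b = z ^ 3 * (b - 2 / z ^ 3) := by field_simp; ring
      have e2 : 1 + z ^ 2 * a = z ^ 2 * (a + 1 / z ^ 2) := by field_simp; ring
      rw [e1, e2, mul_pow, r1]
      ring
    have r4 : (-2 + z ^ 3 * b') ^ 2 = 4 * (1 + z ^ 2 * a') ^ 3 -
        L.g₂ * z ^ 4 * (1 + z ^ 2 * a') - L.g₃ * z ^ 6 := by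
      have e1 : -2 + z ^ 3 * b' = z ^ 3 * (b' - 2 / z ^ 3) := by field_simp; ring
      have e2 : 1 + z ^ 2 * a' = z ^ 2 * (a' + 1 / z ^ 2) := by field_simp; ring
      rw [e1, e2, mul_pow, r2]
      ring
    have r5 : z * (b - b') = z ^ n * (n * g z + z * deriv g z) := by
      rw [hz1]
      rcases Nat.eq_zero_or_pos n with h | h
      · subst h
        simp
      · obtain ⟨m, rfl⟩ : ∃ m, n = m + 1 := ⟨n - 1, by omega⟩
        simp only [Nat.add_sub_cancel]
        ring
    have r6 : z ^ (n + 2) ≠ 0 := pow_ne_zero _ hz0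
    apply mul_left_cancel₀ r6
    have r7 : z ^ (n + 2) * ((n * g z + z * deriv g z) *
        ((-2 + z ^ 3 * b) + (-2 + z ^ 3 * b'))) =
        ((-2 + z ^ 3 * b) - (-2 + z ^ 3 * b')) * ((-2 + z ^ 3 * b) + (-2 + z ^ 3 * b')) := by
      have e : (-2 + z ^ 3 * b) - (-2 + z ^ 3 * b') = z ^ 2 * (z * (b - b')) := by ring
      rw [e, r5]
      ring
    rw [r7]
    have r8 : z ^ (n + 2) * g z = (1 + z ^ 2 * a) - (1 + z ^ 2 * a') := by
      have e : (1 + z ^ 2 * a) - (1 + z ^ 2 * a') = z ^ 2 * (a - a') := by ring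
      rw [e, hz2]
      ring
    rw [← mul_assoc, r8]
    linear_combination r3 - r4
  -- the limit at `0`
  have hc : ContinuousAt (fun z => (n * g z + z * deriv g z) *
      ((-2 + z ^ 3 * L.derivWeierstrassPExcept 0 z) + (-2 + z ^ 3 * L'.derivWeierstrassPExcept 0 z))
      - g z * (4 * ((1 + z ^ 2 * L.weierstrassPExcept 0 z) ^ 2 +
        (1 + z ^ 2 * L.weierstrassPExcept 0 z) * (1 + z ^ 2 * L'.weierstrassPExcept 0 z) +
        (1 + z ^ 2 * L'.weierstrassPExcept 0 z) ^ 2) - L.g₂ * z ^ 4)) 0 := by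
    have c1 := ha.continuousAt
    have c2 := ha'.continuousAt
    have c3 := hb.continuousAt
    have c4 := hb'.continuousAt
    have c5 := hg.continuousAt
    have c6 := hg.deriv.continuousAt
    fun_prop
  have hlim := hc.tendsto.mono_left (nhdsWithin_le_nhds (s := {(0 : ℂ)}ᶜ))
  have hlim2 : Tendsto (fun z => (n * g z + z * deriv g z) *
      ((-2 + z ^ 3 * L.derivWeierstrassPExcept 0 z) + (-2 + z ^ 3 * L'.derivWeierstrassPExcept 0 z))
      - g z * (4 * ((1 + z ^ 2 * L.weierstrassPExcept 0 z) ^ 2 +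
        (1 + z ^ 2 * L.weierstrassPExcept 0 z) * (1 + z ^ 2 * L'.weierstrassPExcept 0 z) +
        (1 + z ^ 2 * L'.weierstrassPExcept 0 z) ^ 2) - L.g₂ * z ^ 4)) (𝓝[≠] 0) (𝓝 0) := by
    refine tendsto_const_nhds.congr' ?_
    filter_upwards [key] with z hz
    rw [hz, sub_self]
  have h0 := tendsto_nhds_unique hlim hlim2
  simp only [zero_mul, add_zero, ne_eq, OfNat.ofNat_ne_zero, not_false_eq_true, zero_pow, mul_zero,
    one_pow, mul_one, sub_zero] at h0
  have h4 : g 0 * (-(4 * (n : ℂ)) - 12) = 0 := by linear_combination h0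
  rcases mul_eq_zero.1 h4 with h5 | h5
  · exact hg0 h5
  · have h6 : (4 * (n : ℂ)) + 12 = 0 := by linear_combination -h5
    have h7 : ((4 * n + 12 : ℕ) : ℂ) = 0 := by push_cast; exact h6
    rw [Nat.cast_eq_zero] at h7
    omega

theorem lattice_sub (L L' : PeriodPair) (h2 : L.g₂ = L'.g₂) (h3 : L.g₃ = L'.g₃) :
    L.lattice ≤ L'.lattice := by
  intro l hl
  by_contra hl'
  have h := except_eventuallyEq L L' h2 h3
  -- the complement of the two lattices
  have hcount : ∀ M : PeriodPair, (M.lattice : Set ℂ).Countable := by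
    intro M
    have : Countable M.lattice := M.latticeEquivProd.toEquiv.countable_iff.2 inferInstance
    exact Set.to_countable _
  have hU : IsPreconnected ((L.lattice ∪ L'.lattice : Set ℂ)ᶜ) := by
    refine (Set.Countable.isPathConnected_compl_of_one_lt_rank ?_
      ((hcount L).union (hcount L'))).isConnected.isPreconnected
    rw [Complex.rank_real_complex]
    exact Cardinal.one_lt_two
  have hopen : IsOpen ((L.lattice ∪ L'.lattice : Set ℂ)ᶜ) :=
    (L.isClosed_lattice.union L'.isClosed_lattice).isOpen_compl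
  have hA : AnalyticOnNhd ℂ L.weierstrassP (L.lattice ∪ L'.lattice : Set ℂ)ᶜ :=
    L.analyticOnNhd_weierstrassP.mono fun z hz hz' => hz (Or.inl hz')
  have hA' : AnalyticOnNhd ℂ L'.weierstrassP (L.lattice ∪ L'.lattice : Set ℂ)ᶜ :=
    L'.analyticOnNhd_weierstrassP.mono fun z hz hz' => hz (Or.inr hz')
  have hpunct : ∀ x : ℂ, ∀ᶠ z in 𝓝[≠] x, z ∈ (L.lattice ∪ L'.lattice : Set ℂ)ᶜ := by
    intro x
    filter_upwards [nhdsWithin_le_nhds (L.compl_lattice_sdiff_singleton_mem_nhds x),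
      nhdsWithin_le_nhds (L'.compl_lattice_sdiff_singleton_mem_nhds x), self_mem_nhdsWithin]
      with z hz1 hz2 hz3
    rintro (h1 | h1)
    · exact hz1 ⟨h1, hz3⟩
    · exact hz2 ⟨h1, hz3⟩
  have h1 : ∀ᶠ z in 𝓝[≠] (0 : ℂ), L.weierstrassP =ᶠ[𝓝 z] L'.weierstrassP := by
    have h2 : ∀ᶠ z in 𝓝[≠] (0 : ℂ), ∀ᶠ w in 𝓝 z,
        L.weierstrassPExcept 0 w = L'.weierstrassPExcept 0 w :=
      nhdsWithin_le_nhds h.eventually_nhds
    filter_upwards [h2] with z hz
    filter_upwards [hz] with w hw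
    rw [wp_eq, wp_eq, hw]
  obtain ⟨z₀, hz₀, hz₁⟩ := (h1.and (hpunct 0)).exists
  have h4 := hA.eqOn_of_preconnected_of_eventuallyEq hA' hU hz₁ hz₀
  -- the point `l`
  have h5 : L.weierstrassP =ᶠ[𝓝[≠] l] L'.weierstrassP := by
    filter_upwards [hpunct l] with z hz
    exact h4 hz
  have h6 := meromorphicOrderAt_congr h5
  rw [L.order_weierstrassP l hl] at h6
  have h7 := (L'.analyticOnNhd_weierstrassP l hl').meromorphicOrderAt_nonneg
  rw [← h6] at h7
  exact absurd h7 (by decide)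

theorem lattice_eq (L L' : PeriodPair) (h2 : L.g₂ = L'.g₂) (h3 : L.g₃ = L'.g₃) :
    L.lattice = L'.lattice :=
  le_antisymm (lattice_sub L L' h2 h3) (lattice_sub L' L h2.symm h3.symm)

end Pool.Agent.R948.JJ
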