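import Pool.Agent.R948.Pr

/-!
# Isogeny structures on the affine line
-/

set_option autoImplicit false
set_option linter.unusedSectionVars false
set_option linter.style.haveILetI false

namespace Pool.Agent.R948.YY

open MvPolynomial

section

variable {F : Type} [Field F] {ι κ σ : Type} {K L : Type} [Field K] [Field L] [Algebra F K]
  [Algebra F L]

/-- the value of a polynomial in two variables -/
noncomputable def ev (x y : K) (Φ : Polynomial (Polynomial F)) : K :=
  Polynomial.eval₂ (Polynomial.aeval x : Polynomial F →ₐ[F] K).toRingHom y Φ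

/-- the polynomial `Φ (X i, X j)` -/
noncomputable def rp (i j : ι) (Φ : Polynomial (Polynomial F)) : MvPolynomial ι F :=
  Polynomial.eval₂ (Polynomial.aeval (X i) : Polynomial F →ₐ[F] MvPolynomial ι F).toRingHom
    (X j) Φ

theorem aeval_rp (i j : ι) (Φ : Polynomial (Polynomial F)) (z : ι → K) :
    aeval z (rp i j Φ) = ev (z i) (z j) Φ := by
  have h := Polynomial.hom_eval₂ Φ
    (Polynomial.aeval (X i) : Polynomial F →ₐ[F] MvPolynomial ι F).toRingHom
    (aeval z : MvPolynomial ι F →ₐ[F] K).toRingHom (X j)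
  change aeval z (rp i j Φ) = _ at h
  rw [h]
  have h2 : ((aeval z : MvPolynomial ι F →ₐ[F] K).toRingHom.comp
      (Polynomial.aeval (X i) : Polynomial F →ₐ[F] MvPolynomial ι F).toRingHom) =
      (Polynomial.aeval (z i) : Polynomial F →ₐ[F] K).toRingHom := by
    have h3 : ((aeval z : MvPolynomial ι F →ₐ[F] K).comp
      (Polynomial.aeval (X i) : Polynomial F →ₐ[F] MvPolynomial ι F)) =
      (Polynomial.aeval (z i) : Polynomial F →ₐ[F] K) := by
      apply Polynomial.algHom_ext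
      simp
    exact congrArg AlgHom.toRingHom h3
  rw [h2]
  unfold ev
  congr 1
  exact aeval_X z j

theorem eval_rp (i j : ι) (Φ : Polynomial (Polynomial F)) (z : ι → F) :
    eval z (rp i j Φ) = ev (z i) (z j) Φ := by
  rw [← aeval_rp i j Φ z, aeval_eq_eval]

/-- relations between polynomials at the points over `F` hold at all points -/
theorem transfer [IsAlgClosed F] [Finite σ] (S : Set (MvPolynomial σ F)) (q : MvPolynomial σ F)
    (h : ∀ x : σ → F, (∀ p ∈ S, eval x p = 0) → eval x q = 0) (x : σ → K)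
    (hx : ∀ p ∈ S, aeval x p = 0) : aeval x q = 0 := by
  have h1 : q ∈ (Ideal.span S).radical := by
    rw [← MvPolynomial.vanishingIdeal_zeroLocus_eq_radical (K := F), MvPolynomial.mem_vanishingIdeal_iff]
    intro y hy
    rw [aeval_eq_eval]
    refine h y fun p hp => ?_
    rw [← aeval_eq_eval]
    exact hy p (Ideal.subset_span hp)
  obtain ⟨n, hn⟩ := h1
  have h2 : Ideal.span S ≤ RingHom.ker (aeval x : MvPolynomial σ F →ₐ[F] K) :=
    Ideal.span_le.2 hx
  have h3 : aeval x (q ^ n) = 0 := h2 hn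
  rw [map_pow] at h3
  exact eq_zero_of_pow_eq_zero h3

end

/-- An isogeny structure on the affine line over `F`: special points and correspondences. -/
structure IsoStr (F : Type) [Field F] where
  /-- the special points -/
  C : Set F
  /-- the correspondences -/
  R : Set (Polynomial (Polynomial F))
  monic : ∀ Φ ∈ R, Φ.Monic
  refl : ∃ Φ ∈ R, ∀ x : F, ev x x Φ = 0
  symm : ∀ Φ ∈ R, ∃ Ψ ∈ R, ∀ x y : F, ev x y Φ = 0 → ev y x Ψ = 0
  trans : ∀ Φ ∈ R, ∀ Ψ ∈ R, ∃ Θ ∈ R, ∀ x y z : F, ev x y Φ = 0 → ev y z Ψ = 0 → ev x z Θ = 0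
  special : ∀ Φ ∈ R, ∀ x ∈ C, ∀ y : F, ev x y Φ = 0 → y ∈ C
  fix : ∀ Φ ∈ R, ∃ Φ' : Polynomial (Polynomial F),
    (∀ x y : F, ev x y Φ = 0 → x = y ∨ ev x y Φ' = 0) ∧ ∀ x : F, ev x x Φ' = 0 → x ∈ C
  ne : ∃ x, x ∉ C

section

variable {F : Type} [Field F] [IsAlgClosed F] (𝓘 : IsoStr F) {K L : Type} [Field K] [Field L]
  [Algebra F K] [Algebra F L] {ι κ : Type}

/-- isogenous elements -/
def rel (x y : K) : Prop := ∃ Φ ∈ 𝓘.R, ev x y Φ = 0

/-- special elements -/
def sp (x : K) : Prop := ∃ c ∈ 𝓘.C, algebraMap F K c = x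

theorem rel_refl (x : K) : rel 𝓘 x x := by
  obtain ⟨Φ, h1, h2⟩ := 𝓘.refl
  refine ⟨Φ, h1, ?_⟩
  have h3 := transfer (σ := Unit) (K := K) ∅ (rp () () Φ) (fun y _ => by
    rw [eval_rp]
    exact h2 _) (fun _ => x) (by simp)
  rwa [aeval_rp] at h3

theorem rel_symm {x y : K} (h : rel 𝓘 x y) : rel 𝓘 y x := by
  obtain ⟨Φ, h1, h2⟩ := h
  obtain ⟨Ψ, h3, h4⟩ := 𝓘.symm Φ h1
  refine ⟨Ψ, h3, ?_⟩
  have h5 := transfer (σ := Fin 2) (K := K) {rp 0 1 Φ} (rp 1 0 Ψ) (fun z hz => by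
    have h6 := hz _ rfl
    rw [eval_rp] at h6 ⊢
    exact h4 _ _ h6) ![x, y] (by
      rintro p rfl
      rw [aeval_rp]
      exact h2)
  rwa [aeval_rp] at h5

theorem rel_trans {x y z : K} (h : rel 𝓘 x y) (h' : rel 𝓘 y z) : rel 𝓘 x z := by
  obtain ⟨Φ, h1, h2⟩ := h
  obtain ⟨Ψ, h3, h4⟩ := h'
  obtain ⟨Θ, h5, h6⟩ := 𝓘.trans Φ h1 Ψ h3
  refine ⟨Θ, h5, ?_⟩
  have h7 := transfer (σ := Fin 3) (K := K) {rp 0 1 Φ, rp 1 2 Ψ} (rp 0 2 Θ) (fun w hw => by
    have h8 := hw _ (Or.inl rfl)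
    have h9 := hw _ (Or.inr rfl)
    rw [eval_rp] at h8 h9 ⊢
    exact h6 _ _ _ h8 h9) ![x, y, z] (by
      rintro p (rfl | rfl)
      · rw [aeval_rp]
        exact h2
      · rw [aeval_rp]
        exact h4)
  rwa [aeval_rp] at h7

theorem rel_alg {x y : K} (h : rel 𝓘 x y) : IsAlgebraic (Algebra.adjoin F {x}) y := by
  obtain ⟨Φ, h1, h2⟩ := h
  have h3 := 𝓘.monic Φ h1
  let φ : Polynomial F →+* Algebra.adjoin F {x} :=
    (Polynomial.aeval (⟨x, Algebra.subset_adjoin rfl⟩ : Algebra.adjoin F {x}) :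
      Polynomial F →ₐ[F] Algebra.adjoin F {x}).toRingHom
  have h4 : (algebraMap (Algebra.adjoin F {x}) K).comp φ =
      (Polynomial.aeval x : Polynomial F →ₐ[F] K).toRingHom := by
    have h5 : (Algebra.adjoin F {x}).val.comp
        (Polynomial.aeval (⟨x, Algebra.subset_adjoin rfl⟩ : Algebra.adjoin F {x})) =
        (Polynomial.aeval x : Polynomial F →ₐ[F] K) := by
      apply Polynomial.algHom_ext
      simp
    exact congrArg AlgHom.toRingHom h5
  refine ⟨Φ.map φ, (h3.map φ).ne_zero, ?_⟩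
  rw [Polynomial.aeval_def, Polynomial.eval₂_map, h4]
  exact h2

/-- roots in extensions of polynomials over an algebraically closed field -/
theorem root_mem_range {p : Polynomial F} (hp : p ≠ 0) {x : K} (hx : Polynomial.aeval x p = 0) :
    ∃ c : F, p.eval c = 0 ∧ algebraMap F K c = x := by
  have h1 : p.roots.map (algebraMap F K) = (p.map (algebraMap F K)).roots :=
    (IsAlgClosed.splits p).roots_map (algebraMap F K) |>.symm
  have h2 : x ∈ (p.map (algebraMap F K)).roots := by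
    rw [Polynomial.mem_roots (Polynomial.map_ne_zero hp), Polynomial.IsRoot,
      Polynomial.eval_map_algebraMap]
    exact hx
  rw [← h1, Multiset.mem_map] at h2
  obtain ⟨c, hc, hcx⟩ := h2
  exact ⟨c, (Polynomial.mem_roots hp).1 hc, hcx⟩

theorem sp_rel {x y : K} (hx : sp 𝓘 x) (h : rel 𝓘 x y) : sp 𝓘 y := by
  obtain ⟨c, hc, rfl⟩ := hx
  obtain ⟨Φ, h1, h2⟩ := h
  have h3 := 𝓘.monic Φ h1
  have h4 : ev (algebraMap F K c) y Φ =
      Polynomial.aeval y (Φ.map (Polynomial.evalRingHom c)) := by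
    rw [Polynomial.aeval_def, Polynomial.eval₂_map]
    unfold ev
    congr 1
    have h5 : (Polynomial.aeval (algebraMap F K c) : Polynomial F →ₐ[F] K) =
        (Algebra.ofId F K).comp (Polynomial.aeval c : Polynomial F →ₐ[F] F) := by
      apply Polynomial.algHom_ext
      simp [Algebra.ofId_apply]
    have h6 := congrArg AlgHom.toRingHom h5
    rw [h6]
    ext a
    · simp [Algebra.ofId_apply]
    · simp [Algebra.ofId_apply]
  rw [h4] at h2
  obtain ⟨d, hd, rfl⟩ := root_mem_range (h3.map _).ne_zero h2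
  refine ⟨d, 𝓘.special Φ h1 c hc d ?_, rfl⟩
  rw [Polynomial.eval_map] at hd
  have h7 : (Polynomial.aeval c : Polynomial F →ₐ[F] F).toRingHom = Polynomial.evalRingHom c := by
    ext a
    · simp
    · simp
  unfold ev
  rw [h7]
  exact hd

theorem sp_iff_rel {x y : K} (h : rel 𝓘 x y) : sp 𝓘 x ↔ sp 𝓘 y :=
  ⟨fun h1 => sp_rel 𝓘 h1 h, fun h1 => sp_rel 𝓘 h1 (rel_symm 𝓘 h)⟩

/-- specialisation -/
def Sp (F : Type) [Field F] {ι K L : Type} [Field K] [Field L] [Algebra F K] [Algebra F L]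
    (z : ι → K) (z' : ι → L) : Prop :=
  ∀ f : MvPolynomial ι F, aeval z f = 0 → aeval z' f = 0

variable {𝓘}

theorem Sp.rel {z : ι → K} {z' : ι → L} (h : Sp F z z') {i j : ι} (hr : rel 𝓘 (z i) (z j)) :
    rel 𝓘 (z' i) (z' j) := by
  obtain ⟨Φ, h1, h2⟩ := hr
  refine ⟨Φ, h1, ?_⟩
  have h3 := h (rp i j Φ) (by rw [aeval_rp]; exact h2)
  rwa [aeval_rp] at h3

theorem Sp.eq_const {z : ι → K} {z' : ι → L} (h : Sp F z z') {i : ι} {c : F}
    (hc : algebraMap F K c = z i) : algebraMap F L c = z' i := by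
  have h3 := h (X i - C c) (by rw [map_sub, aeval_X, aeval_C, ← hc, sub_self])
  rw [map_sub, aeval_X, aeval_C, sub_eq_zero] at h3
  exact h3.symm

theorem Sp.sp {z : ι → K} {z' : ι → L} (h : Sp F z z') {i : ι} (hs : sp 𝓘 (z i)) :
    sp 𝓘 (z' i) := by
  obtain ⟨c, h1, h2⟩ := hs
  exact ⟨c, h1, h.eq_const h2⟩

/-- isogenous elements which become equal become special -/
theorem Sp.fix {z : ι → K} {z' : ι → L} (h : Sp F z z') {i j : ι} (hr : YY.rel 𝓘 (z i) (z j))
    (hne : z i ≠ z j) (he : z' i = z' j) : YY.sp 𝓘 (z' i) := by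
  obtain ⟨Φ, h1, h2⟩ := hr
  obtain ⟨Ψ, h3, h4⟩ := 𝓘.fix Φ h1
  -- the relation
  have h5 : ev (z i) (z j) Ψ = 0 := by
    have h6 := transfer (σ := Fin 2) (K := K) {rp 0 1 Φ} ((X 0 - X 1) * rp 0 1 Ψ) (fun w hw => by
      have h7 := hw _ rfl
      rw [eval_rp] at h7
      rw [map_mul, map_sub, eval_X, eval_X, eval_rp]
      rcases h3 _ _ h7 with h8 | h8
      · rw [h8, sub_self, zero_mul]
      · rw [h8, mul_zero]) ![z i, z j] (by
        rintro p rfl
        rw [aeval_rp]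
        exact h2)
    rw [map_mul, map_sub, aeval_X, aeval_X, aeval_rp] at h6
    exact (mul_eq_zero.1 h6).resolve_left (sub_ne_zero.2 hne)
  have h6 := h (rp i j Ψ) (by rw [aeval_rp]; exact h5)
  rw [aeval_rp, ← he] at h6
  -- the polynomial in one variable
  let p : Polynomial F := Polynomial.eval₂ (RingHom.id (Polynomial F)) Polynomial.X Ψ
  have hp : ∀ {E : Type} [Field E] [Algebra F E] (x : E), Polynomial.aeval x p = ev x x Ψ := by
    intro E _ _ x
    have h7 := Polynomial.hom_eval₂ Ψ (RingHom.id (Polynomial F))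
      (Polynomial.aeval x : Polynomial F →ₐ[F] E).toRingHom Polynomial.X
    change Polynomial.aeval x p = _ at h7
    rw [h7, RingHom.comp_id]
    unfold ev
    congr 1
    exact Polynomial.aeval_X x
  have hp0 : p ≠ 0 := by
    intro h7
    obtain ⟨x, hx⟩ := 𝓘.ne
    apply hx
    apply h4
    rw [← hp, h7, map_zero]
  obtain ⟨c, hc, hc2⟩ := root_mem_range hp0 ((hp (z' i)).trans h6)
  refine ⟨c, h4 c ?_, hc2⟩
  rw [← hp, Polynomial.coe_aeval_eq_eval]
  exact hc

end

end Pool.Agent.R948.YY
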