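import Pool.Agent.R948.JInj
import Pool.Agent.R948.YA
import Pool.Agent.H294ZP.Main

/-!
# The modular correspondences as an isogeny structure on the affine line
-/

set_option autoImplicit false

open Polynomial UpperHalfPlane
open H294ZP hiding ev

namespace Pool.Agent.R948.JJ

open Pool.Agent.R948.YY (ev IsoStr)

/-- `y = j(w)`, `x = j(τ)`, `w` is the image of `τ` under an integral matrix of determinant `N` -/
def IsoN (N : ℕ) (x y : ℂ) : Prop :=
  ∃ (τ w : ℍ) (a b c d : ℤ), a * d - b * c = N ∧ (w : ℂ) * (c * τ + d) = a * τ + b ∧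
    x = jj τ ∧ y = jj w

theorem ev_eq (x y : ℂ) (Φ : ℂ[X][X]) : ev x y Φ = (Φ.map (evalRingHom x)).eval y := by
  have h7 : (Polynomial.aeval x : Polynomial ℂ →ₐ[ℂ] ℂ).toRingHom = Polynomial.evalRingHom x := by
    ext a
    · simp
    · simp
  rw [ev, h7, Polynomial.eval_map]

theorem hTA : TA := ⟨ta1.1, ta1.2, ta2⟩

theorem hTB : TB := TBproof.tb hTA tc

theorem exists_poly {N : ℕ} (hN : 0 < N) {ι : Type} [DecidableEq ι] (a d : ι → ℕ)
    (b : ι → ℤ) (h : ι → ℍ → ℍ) (h1 : ∀ k, 0 < a k ∧ 0 < d k ∧ a k * d k = N)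
    (h2 : ∀ k τ, (h k τ : ℂ) * d k = a k * τ + b k) (s : Finset ι)
    (hinv : ∀ p q r t : ℤ, p * t - q * r = 1 → ∀ τ w : ℍ, (w : ℂ) * (r * τ + t) = p * τ + q →
      ∏ k ∈ s, (X - C (jj (h k w))) = ∏ k ∈ s, (X - C (jj (h k τ)))) :
    ∃ Φ : ℂ[X][X], Φ.Monic ∧
      ∀ τ, Φ.map (evalRingHom (jj τ)) = ∏ k ∈ s, (X - C (jj (h k τ))) := by
  classical
  have hG : ∀ k, TDaux.Lx N (fun τ => jj (h k τ)) := by
    intro k
    obtain ⟨ha, hd, had⟩ := h1 k
    have := tc.2.2.2.2 hTA.2.1 hTA.2.2 (a k) (d k) (b k) ha hd (h k) (h2 k)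
    rw [had] at this
    exact ⟨⟨_, _, this.1⟩, this.2⟩
  have hco := TDaux.coeff_prod tc hN (fun k τ => jj (h k τ)) hG s
  have hP : ∀ j, ∃ P : ℂ[X], ∀ τ, (∏ k ∈ s, (X - C (jj (h k τ)))).coeff j = P.eval (jj τ) := by
    intro j
    obtain ⟨⟨m, A, hL⟩, hH⟩ := hco j
    obtain ⟨P, -, hP2, -⟩ := hTB N hN m A _ (by
      intro p q r t hpt τ w hw
      change (∏ k ∈ s, (X - C (jj (h k w)))).coeff j = (∏ k ∈ s, (X - C (jj (h k τ)))).coeff j
      rw [hinv p q r t hpt τ w hw]) hH hL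
    exact ⟨P, hP2⟩
  choose P hP using hP
  have hmon : ∀ τ, (∏ k ∈ s, (X - C (jj (h k τ)))).Monic := fun τ =>
    monic_prod_of_monic _ _ fun k _ => monic_X_sub_C _
  have hdeg : ∀ τ, (∏ k ∈ s, (X - C (jj (h k τ)))).natDegree = s.card := by
    intro τ
    rw [natDegree_prod_of_monic _ _ fun k _ => monic_X_sub_C _]
    simp
  refine ⟨X ^ s.card + ∑ j ∈ Finset.range s.card, C (P j) * X ^ j, ?_, ?_⟩
  · refine monic_X_pow_add ?_
    refine lt_of_le_of_lt (degree_sum_le _ _) ?_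
    rw [Finset.sup_lt_iff (by exact_mod_cast WithBot.bot_lt_coe s.card)]
    intro m hm
    refine lt_of_le_of_lt (degree_C_mul_X_pow_le _ _) ?_
    exact_mod_cast Finset.mem_range.1 hm
  · intro τ
    rw [(hmon τ).as_sum, hdeg τ]
    simp only [Polynomial.map_add, Polynomial.map_pow, Polynomial.map_X, Polynomial.map_sum,
      Polynomial.map_mul, Polynomial.map_C, coe_evalRingHom, hP]

theorem int_lin {x : ℍ} {α β : ℤ} (h : (α : ℂ) * x + β = 0) : α = 0 ∧ β = 0 := by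
  have h6 : (α : ℝ) * x.im = 0 := by
    have h7 := congrArg Complex.im h
    simpa using h7
  have h7 : α = 0 := by exact_mod_cast (mul_eq_zero.1 h6).resolve_right x.im_pos.ne'
  subst h7
  refine ⟨rfl, ?_⟩
  have h8 : (β : ℂ) = 0 := by simpa using h
  exact_mod_cast h8

/-- fixed points of non-scalar matrices -/
theorem cm_of_fix {τ : ℍ} {p q r s : ℤ} (h : (τ : ℂ) * (r * τ + s) = p * τ + q)
    (hne : ¬ (r = 0 ∧ p = s ∧ q = 0)) : IsCM τ := by
  by_cases hr : r = 0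
  · exfalso
    subst hr
    have h1 : ((s - p : ℤ) : ℂ) * τ + ((-q : ℤ) : ℂ) = 0 := by
      push_cast at h ⊢
      linear_combination h
    have h2 : ((s - p : ℤ) : ℝ) * τ.im = 0 := by
      have h7 := congrArg Complex.im h1
      simpa using h7
    have h3 : s - p = 0 := by exact_mod_cast (mul_eq_zero.1 h2).resolve_right τ.im_pos.ne'
    rw [h3] at h1
    have h4 : ((-q : ℤ) : ℂ) = 0 := by simpa using h1
    have h5 : -q = 0 := by exact_mod_cast h4
    exact hne ⟨rfl, by omega, by omega⟩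
  · refine ⟨r, s - p, -q, hr, ?_⟩
    push_cast
    linear_combination h

/-- images of CM points -/
theorem cm_smul {τ w : ℍ} {p q r s : ℤ} (hdet : p * s - q * r ≠ 0)
    (h : (w : ℂ) * (r * τ + s) = p * τ + q) (hτ : IsCM τ) : IsCM w := by
  obtain ⟨a, b, c, ha, hq⟩ := hτ
  have hA : ((a * s ^ 2 - b * s * r + c * r ^ 2 : ℤ) : ℂ) * (w : ℂ) ^ 2 +
      ((-2 * a * s * q + b * (s * p + q * r) - 2 * c * p * r : ℤ) : ℂ) * w +
      ((a * q ^ 2 - b * q * p + c * p ^ 2 : ℤ) : ℂ) = 0 := by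
    have h1 : (τ : ℂ) * (p - r * w) = s * w - q := by linear_combination -h
    push_cast
    linear_combination ((p : ℂ) - r * w) ^ 2 * hq -
      (a * ((s : ℂ) * w - q + τ * (p - r * w)) + b * (p - r * w)) * h1
  by_cases h0 : a * s ^ 2 - b * s * r + c * r ^ 2 = 0
  · exfalso
    rw [h0] at hA
    have h1 : ((-2 * a * s * q + b * (s * p + q * r) - 2 * c * p * r : ℤ) : ℂ) * w +
      ((a * q ^ 2 - b * q * p + c * p ^ 2 : ℤ) : ℂ) = 0 := by
      rw [← hA]
      push_cast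
      ring
    have h3 : -2 * a * s * q + b * (s * p + q * r) - 2 * c * p * r = 0 := (int_lin h1).1
    have h4 : (b ^ 2 - 4 * a * c) * (p * s - q * r) ^ 2 = 0 := by
      linear_combination (-2 * a * s * q + b * (s * p + q * r) - 2 * c * p * r) * h3 -
        4 * (a * q ^ 2 - b * q * p + c * p ^ 2) * h0
    have h5 : b ^ 2 - 4 * a * c = 0 := (mul_eq_zero.1 h4).resolve_right (pow_ne_zero _ hdet)
    have h6 : (2 * (a : ℂ) * τ + b) ^ 2 = 0 := by
      have h7 : ((b ^ 2 - 4 * a * c : ℤ) : ℂ) = 0 := by rw [h5]; norm_num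
      push_cast at h7
      linear_combination 4 * (a : ℂ) * hq + h7
    have h7 : 2 * (a : ℂ) * τ + b = 0 := eq_zero_of_pow_eq_zero h6
    have h8 : 2 * (a : ℝ) * τ.im = 0 := by
      have h9 := congrArg Complex.im h7
      simpa using h9
    have h9 : 2 * (a : ℝ) = 0 := (mul_eq_zero.1 h8).resolve_right τ.im_pos.ne'
    have h10 : (a : ℝ) = 0 := by linarith
    exact ha (by exact_mod_cast h10)
  · exact ⟨_, _, _, h0, hA⟩

theorem comp_rel {τ w w' : ℂ} {a b c d a' b' c' d' : ℤ} (h : w * (c * τ + d) = a * τ + b)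
    (h' : w' * (c' * w + d') = a' * w + b') :
    w' * (((c' * a + d' * c : ℤ) : ℂ) * τ + ((c' * b + d' * d : ℤ) : ℂ)) =
      ((a' * a + b' * c : ℤ) : ℂ) * τ + ((a' * b + b' * d : ℤ) : ℂ) := by
  push_cast
  linear_combination (c * τ + d) * h' + (a' - w' * c') * h

/-- the modular polynomials -/
theorem modular {N : ℕ} (hN : 0 < N) : ∃ Φ Φ' : ℂ[X][X], Φ.Monic ∧
    (∀ x y : ℂ, ev x y Φ = 0 ↔ IsoN N x y) ∧
    (∀ x y : ℂ, ev x y Φ = 0 → x = y ∨ ev x y Φ' = 0) ∧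
    ∀ x : ℂ, ev x x Φ' = 0 → ∃ τ : ℍ, IsCM τ ∧ x = jj τ := by
  classical
  obtain ⟨ι, _, _, a, d, b, h, h1, h2, h3, h4⟩ := TF676.tf ta1.1 N hN
  -- the scalar matrices
  let S : Finset ι := Finset.univ.filter fun k => a k = d k ∧ (d k : ℤ) ∣ b k
  have hS : ∀ k ∈ S, ∀ τ, jj (h k τ) = jj τ := by
    intro k hk τ
    obtain ⟨h5, e, h6⟩ := (Finset.mem_filter.1 hk).2
    refine inv_jj 1 e 0 1 (by ring) τ (h k τ) ?_
    have h7 := h2 k τ
    have h8 : (d k : ℂ) ≠ 0 := by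
      have := (h1 k).2.1
      exact_mod_cast this.ne'
    rw [h5, h6] at h7
    push_cast at h7 ⊢
    apply mul_right_cancel₀ h8
    linear_combination h7
  have hprod : ∀ τ, ∏ k, (X - C (jj (h k τ))) =
      (X - C (jj τ)) ^ S.card * ∏ k ∈ Sᶜ, (X - C (jj (h k τ))) := by
    intro τ
    rw [← Finset.prod_mul_prod_compl S (fun k => (X - C (jj (h k τ)))),
      Finset.prod_congr rfl fun k hk => by rw [hS k hk τ], Finset.prod_const]
  have hinv1 : ∀ p q r t : ℤ, p * t - q * r = 1 → ∀ τ w : ℍ,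
      (w : ℂ) * (r * τ + t) = p * τ + q →
      ∏ k, (X - C (jj (h k w))) = ∏ k, (X - C (jj (h k τ))) := by
    intro p q r t hpt τ w hw
    obtain ⟨σ, hσ⟩ := h3 p q r t hpt τ w hw
    rw [← Equiv.prod_comp σ (fun k => (X - C (jj (h k τ))))]
    exact Finset.prod_congr rfl fun k _ => by rw [hσ k]
  have hinv2 : ∀ p q r t : ℤ, p * t - q * r = 1 → ∀ τ w : ℍ,
      (w : ℂ) * (r * τ + t) = p * τ + q →
      ∏ k ∈ Sᶜ, (X - C (jj (h k w))) = ∏ k ∈ Sᶜ, (X - C (jj (h k τ))) := by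
    intro p q r t hpt τ w hw
    have h5 := hinv1 p q r t hpt τ w hw
    rw [hprod w, hprod τ, inv_jj p q r t hpt τ w hw] at h5
    exact mul_left_cancel₀ (pow_ne_zero _ (X_sub_C_ne_zero _)) h5
  obtain ⟨Φ, hΦ1, hΦ2⟩ := exists_poly hN a d b h h1 h2 Finset.univ hinv1
  obtain ⟨Φ', hΦ1', hΦ2'⟩ := exists_poly hN a d b h h1 h2 Sᶜ hinv2
  have hiff : ∀ x y, ev x y Φ = 0 ↔ IsoN N x y := by
    intro x y
    constructor
    · intro h5
      obtain ⟨τ, rfl⟩ := jj_surj x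
      rw [ev_eq, hΦ2, eval_prod] at h5
      obtain ⟨k, -, h6⟩ := Finset.prod_eq_zero_iff.1 h5
      rw [eval_sub, eval_X, eval_C, sub_eq_zero] at h6
      refine ⟨τ, h k τ, a k, b k, 0, d k, ?_, ?_, rfl, h6⟩
      · have h7 := (h1 k).2.2
        push_cast [← h7]
        ring
      · have h7 := h2 k τ
        push_cast
        linear_combination h7
    · rintro ⟨τ, w, p, q, r, s, h5, h6, rfl, rfl⟩
      obtain ⟨k, hk⟩ := h4 p q r s h5 τ w h6
      rw [ev_eq, hΦ2, eval_prod]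
      refine Finset.prod_eq_zero (Finset.mem_univ k) ?_
      rw [hk]
      simp
  refine ⟨Φ, Φ', hΦ1, hiff, ?_, ?_⟩
  · intro x y h5
    obtain ⟨τ, rfl⟩ := jj_surj x
    rw [ev_eq, hΦ2, hprod τ, eval_mul, eval_pow, eval_sub, eval_X, eval_C] at h5
    rcases mul_eq_zero.1 h5 with h6 | h6
    · left
      exact (sub_eq_zero.1 (eq_zero_of_pow_eq_zero h6)).symm
    · right
      rw [ev_eq, hΦ2']
      exact h6
  · intro x h5
    obtain ⟨τ, rfl⟩ := jj_surj x
    refine ⟨τ, ?_, rfl⟩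
    rw [ev_eq, hΦ2', eval_prod] at h5
    obtain ⟨k, hk, h6⟩ := Finset.prod_eq_zero_iff.1 h5
    rw [eval_sub, eval_X, eval_C, sub_eq_zero] at h6
    obtain ⟨p, q, r, s, h7, h8⟩ := jj_inj h6
    -- `τ = γ (h k τ)`
    have h9 : ((h k τ : ℍ) : ℂ) * (((0 : ℤ) : ℂ) * τ + ((d k : ℤ) : ℂ)) =
        ((a k : ℤ) : ℂ) * τ + ((b k : ℤ) : ℂ) := by
      have h10 := h2 k τ
      push_cast
      linear_combination h10
    have h10 := comp_rel h9 h8
    refine cm_of_fix h10 ?_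
    rintro ⟨g1, g2, g3⟩
    -- the matrix is scalar
    obtain ⟨ha, hd, had⟩ := h1 k
    have hr : r = 0 := by
      have h11 : r * (a k : ℤ) = 0 := by linear_combination g1
      rcases mul_eq_zero.1 h11 with h12 | h12
      · exact h12
      · exfalso
        have : a k = 0 := by exact_mod_cast h12
        omega
    subst hr
    have hps : p * s = 1 := by linear_combination h7
    have h11 : p * (a k : ℤ) = s * d k := by linear_combination g2
    have h12 : p * b k + q * d k = 0 := g3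
    have hk2 : ¬ (a k = d k ∧ (d k : ℤ) ∣ b k) := by
      intro h13
      rw [Finset.mem_compl] at hk
      exact hk (Finset.mem_filter.2 ⟨Finset.mem_univ k, h13⟩)
    apply hk2
    rcases Int.eq_one_or_neg_one_of_mul_eq_one hps with h13 | h13
    · subst h13
      have h14 : s = 1 := by omega
      subst h14
      refine ⟨by omega, -q, by linear_combination h12⟩
    · subst h13
      have h14 : s = -1 := by omega
      subst h14
      refine ⟨by omega, q, by linear_combination -h12⟩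

/-- the modular polynomial of level `N` -/
noncomputable def Phi (N : ℕ) : ℂ[X][X] := if h : 0 < N then (modular h).choose else 1

/-- the special points -/
def CMval : Set ℂ := {x | ∃ τ : ℍ, IsCM τ ∧ x = jj τ}

theorem half_notMem : (1 / 2 : ℂ) ∉ CMval := by
  rintro ⟨τ, hτ, h⟩
  have h1 := singular_modulus_integral τ hτ
  rw [← h] at h1
  have h2 : IsIntegral ℤ (1 / 2 : ℚ) := by
    rw [← isIntegral_algebraMap_iff (R := ℤ) (A := ℚ) (B := ℂ) (algebraMap ℚ ℂ).injective]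
    simpa using h1
  obtain ⟨n, hn⟩ := IsIntegrallyClosed.isIntegral_iff.1 h2
  have h3 : (n : ℚ) * 2 = 1 := by
    have h4 : (n : ℚ) = 1 / 2 := hn
    rw [h4]
    norm_num
  have h4 : n * 2 = 1 := by exact_mod_cast h3
  omega

theorem isoN_symm {N : ℕ} {x y : ℂ} (h : IsoN N x y) : IsoN N y x := by
  obtain ⟨τ, w, a, b, c, d, h1, h2, h3, h4⟩ := h
  refine ⟨w, τ, d, -b, -c, a, by linear_combination h1, ?_, h4, h3⟩
  push_cast
  linear_combination -h2

theorem isoN_trans {N M : ℕ} {x y z : ℂ} (h : IsoN N x y) (h' : IsoN M y z) :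
    IsoN (N * M) x z := by
  obtain ⟨τ, w, a, b, c, d, h1, h2, h3, h4⟩ := h
  obtain ⟨τ', w', a', b', c', d', h1', h2', h3', h4'⟩ := h'
  obtain ⟨p, q, r, s, h5, h6⟩ := jj_inj (h3'.symm.trans h4)
  have h7 := comp_rel h2 h6
  have h8 := comp_rel h7 h2'
  refine ⟨τ, w', _, _, _, _, ?_, h8, h3, h4'⟩
  push_cast
  linear_combination ((a' * d' - b' * c') * (a * d - b * c)) * h5 + (a * d - b * c) * h1' +
    (M : ℤ) * h1

theorem isoN_refl (x : ℂ) : IsoN 1 x x := by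
  obtain ⟨τ, rfl⟩ := jj_surj x
  exact ⟨τ, τ, 1, 0, 0, 1, by norm_num, by push_cast; ring, rfl, rfl⟩

theorem isoN_cm {N : ℕ} (hN : 0 < N) {x y : ℂ} (h : IsoN N x y) (hx : x ∈ CMval) :
    y ∈ CMval := by
  obtain ⟨τ, w, a, b, c, d, h1, h2, h3, h4⟩ := h
  obtain ⟨τ₀, h5, h6⟩ := hx
  obtain ⟨p, q, r, s, h7, h8⟩ := jj_inj (h3.symm.trans h6)
  have h9 : IsCM τ := cm_smul (by rw [h7]; norm_num) h8 h5
  exact ⟨w, cm_smul (by rw [h1]; exact_mod_cast hN.ne') h2 h9, h4⟩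

theorem phi_iff {N : ℕ} (hN : 0 < N) (x y : ℂ) : ev x y (Phi N) = 0 ↔ IsoN N x y := by
  rw [Phi, dif_pos hN]
  exact (modular hN).choose_spec.choose_spec.2.1 x y

theorem phi_monic {N : ℕ} (hN : 0 < N) : (Phi N).Monic := by
  rw [Phi, dif_pos hN]
  exact (modular hN).choose_spec.choose_spec.1

theorem phi_fix {N : ℕ} (hN : 0 < N) : ∃ Φ' : ℂ[X][X],
    (∀ x y : ℂ, ev x y (Phi N) = 0 → x = y ∨ ev x y Φ' = 0) ∧
    ∀ x : ℂ, ev x x Φ' = 0 → x ∈ CMval := by
  rw [Phi, dif_pos hN]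
  exact ⟨_, (modular hN).choose_spec.choose_spec.2.2⟩

/-- the isogeny structure of `Y(1)` -/
noncomputable def yStr : IsoStr ℂ where
  C := CMval
  R := {Φ | ∃ N : ℕ, 0 < N ∧ Φ = Phi N}
  monic := by
    rintro _ ⟨N, hN, rfl⟩
    exact phi_monic hN
  refl := ⟨Phi 1, ⟨1, one_pos, rfl⟩, fun x => (phi_iff one_pos x x).2 (isoN_refl x)⟩
  symm := by
    rintro _ ⟨N, hN, rfl⟩
    exact ⟨Phi N, ⟨N, hN, rfl⟩, fun x y h => (phi_iff hN y x).2 (isoN_symm ((phi_iff hN x y).1 h))⟩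
  trans := by
    rintro _ ⟨N, hN, rfl⟩ _ ⟨M, hM, rfl⟩
    exact ⟨Phi (N * M), ⟨N * M, Nat.mul_pos hN hM, rfl⟩, fun x y z h h' =>
      (phi_iff (Nat.mul_pos hN hM) x z).2 (isoN_trans ((phi_iff hN x y).1 h)
        ((phi_iff hM y z).1 h'))⟩
  special := by
    rintro _ ⟨N, hN, rfl⟩ x hx y h
    exact isoN_cm hN ((phi_iff hN x y).1 h) hx
  fix := by
    rintro _ ⟨N, hN, rfl⟩
    exact phi_fix hN
  ne := ⟨1 / 2, half_notMem⟩

end Pool.Agent.R948.JJ
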