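import Pool.Agent.H618R2.GR.Main

/-!
# Squares plus squares: long runs of composite numbers
-/

set_option autoImplicit false

namespace Pool.Agent.R948.NS

open Filter Real

/-- Uniform form: rectangles without primes among the `m ^ 2 + b ^ 2`. -/
theorem rectangles_nat :
    ∃ c : ℝ, 0 < c ∧ ∃ Y₀ : ℝ, ∀ Y : ℝ, Y₀ ≤ Y → ∀ M : ℕ, Y ≤ M → ∀ H K : ℕ, 1 ≤ H → 1 ≤ K →
      (H : ℝ) * K ≤ c * Real.log Y * Real.log (Real.log Y) →
      ∃ n : ℕ, M < n ∧ (n : ℝ) ≤ M + Y ∧ ∀ m : ℕ, |(m : ℤ) - n| ≤ H → ∀ b : ℕ, 1 ≤ b → b ≤ K →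
        ∃ p : ℕ, p.Prime ∧ (p : ℝ) ≤ Y ^ (1 / 10 : ℝ) ∧ p ∣ m ^ 2 + b ^ 2 ∧ p < m ^ 2 + b ^ 2 := by
  obtain ⟨c, hc, Y₀, h⟩ := Pool.Agent.H618R2.GR.rectangles
  refine ⟨c, hc, Y₀, ?_⟩
  intro Y hY M hM H K hH hK hHK
  obtain ⟨x, hx1, hx2, hx⟩ := h Y hY M (by exact_mod_cast hM) 1 H K le_rfl hH hK (by
    rw [Nat.cast_one, one_mul]; exact hHK)
  have hx0 : 0 ≤ x := le_trans (Int.natCast_nonneg M) hx1.le
  obtain ⟨n, rfl⟩ := Int.eq_ofNat_of_zero_le hx0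
  refine ⟨n, by exact_mod_cast hx1, by exact_mod_cast hx2, ?_⟩
  intro m hm b hb hbK
  obtain ⟨p, hp, hpY, hpd, hpl⟩ := hx 1 le_rfl le_rfl ((m : ℤ) - n) hm b hb hbK
  have e : (((1 : ℕ) : ℤ) * (n : ℤ) + ((m : ℤ) - n)) ^ 2 + (b : ℤ) ^ 2 =
      ((m ^ 2 + b ^ 2 : ℕ) : ℤ) := by push_cast; ring
  have e' : (((1 : ℕ) : ℤ) * ((n : ℕ) : ℤ) + ((m : ℤ) - n)) ^ 2 + (b : ℤ) ^ 2 =
      ((m ^ 2 + b ^ 2 : ℕ) : ℤ) := e
  refine ⟨p, hp, hpY, ?_, ?_⟩
  · have := hpd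
    simp only [e'] at this
    exact_mod_cast this
  · have := hpl
    simp only [e'] at this
    exact_mod_cast this

/-- Every interval `(M, M + M ^ δ]` contains an `n` such that for all `m` with
`|m - n| ≤ c δ log log n` no number `m ^ 2 + b ^ 2` with `1 ≤ b ≤ log m / log 2` is prime. -/
theorem runs : ∃ c : ℝ, 0 < c ∧ ∀ δ : ℝ, 0 < δ → δ ≤ 1 → ∃ M₀ : ℕ, ∀ M : ℕ, M₀ ≤ M →
    ∃ n : ℕ, M < n ∧ (n : ℝ) ≤ M + (M : ℝ) ^ δ ∧
      ∀ m : ℕ, |(m : ℝ) - n| ≤ c * δ * Real.log (Real.log n) →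
        ∀ b : ℕ, 1 ≤ b → (b : ℝ) ≤ Real.log m / Real.log 2 → ¬ (m ^ 2 + b ^ 2).Prime := by
  obtain ⟨c, hc, Y₀, h⟩ := rectangles_nat
  set c₁ : ℝ := c / 8 with hc₁
  have hc₁0 : 0 < c₁ := by positivity
  refine ⟨c₁ / 2, by positivity, ?_⟩
  intro δ hδ hδ1
  have tM : Tendsto (fun M : ℕ => (M : ℝ)) atTop atTop := tendsto_natCast_atTop_atTop
  have t1 : Tendsto (fun M : ℕ => Real.log (M : ℝ)) atTop atTop := Real.tendsto_log_atTop.comp tM
  have t2 : Tendsto (fun M : ℕ => Real.log (Real.log (M : ℝ))) atTop atTop :=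
    Real.tendsto_log_atTop.comp t1
  have t3 : Tendsto (fun M : ℕ => (M : ℝ) ^ δ) atTop atTop := (tendsto_rpow_atTop hδ).comp tM
  have t4 : Tendsto (fun M : ℕ => c₁ * δ * Real.log (Real.log (M : ℝ))) atTop atTop :=
    t2.const_mul_atTop (by positivity)
  have ev := (t3.eventually_ge_atTop Y₀).and ((t1.eventually_ge_atTop 10).and
    ((t2.eventually_ge_atTop (-2 * Real.log δ)).and ((t4.eventually_ge_atTop 1).and
      ((t2.eventually_ge_atTop 2).and ((eventually_ge_atTop 10).and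
        (t1.eventually_ge_atTop (10 * Real.log (2 + c₁))))))))
  obtain ⟨M₀, hM₀⟩ := eventually_atTop.1 ev
  refine ⟨M₀, ?_⟩
  intro M hM
  obtain ⟨e1, e2, e3, e4, e5, e6, e7⟩ := hM₀ M hM
  have hM1 : (1 : ℝ) ≤ M := by
    have : 1 ≤ M := by omega
    exact_mod_cast this
  have hM0 : (0 : ℝ) < M := by linarith
  set L := Real.log (M : ℝ) with hL
  set LL := Real.log L with hLL
  have hYM : (M : ℝ) ^ δ ≤ M := by
    calc (M : ℝ) ^ δ ≤ (M : ℝ) ^ (1 : ℝ) := Real.rpow_le_rpow_of_exponent_le hM1 hδ1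
      _ = M := Real.rpow_one _
  have hlogY : Real.log ((M : ℝ) ^ δ) = δ * L := Real.log_rpow hM0 δ
  have hloglogY : LL / 2 ≤ Real.log (Real.log ((M : ℝ) ^ δ)) := by
    rw [hlogY, Real.log_mul hδ.ne' (by linarith)]
    linarith
  set H := ⌊c₁ * δ * LL⌋₊ with hH
  set K := ⌊2 * L⌋₊ with hK
  have hH1 : 1 ≤ H := Nat.le_floor (by exact_mod_cast e4)
  have hK1 : 1 ≤ K := Nat.le_floor (by push_cast; linarith)
  have hHle : (H : ℝ) ≤ c₁ * δ * LL := Nat.floor_le (by linarith)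
  have hKle : (K : ℝ) ≤ 2 * L := Nat.floor_le (by linarith)
  obtain ⟨n, hn1, hn2, hn⟩ := h ((M : ℝ) ^ δ) e1 M hYM H K hH1 hK1 (by
    calc (H : ℝ) * K ≤ (c₁ * δ * LL) * (2 * L) := by gcongr
      _ ≤ c * (δ * L) * (LL / 2) := by
          rw [hc₁]
          have : 0 ≤ c * δ * LL * L := by
            have : 0 ≤ L := by linarith
            have : 0 ≤ LL := by linarith
            positivity
          nlinarith
      _ ≤ c * Real.log ((M : ℝ) ^ δ) * Real.log (Real.log ((M : ℝ) ^ δ)) := by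
          rw [hlogY]
          rw [hlogY] at hloglogY
          have : 0 ≤ L := by linarith
          gcongr)
  refine ⟨n, hn1, hn2, ?_⟩
  intro m hm b hb hbm hprime
  have hn2M : (n : ℝ) ≤ 2 * M := by linarith
  have hnM : (M : ℝ) < n := by exact_mod_cast hn1
  have hn0 : (0 : ℝ) < n := by linarith
  -- log log n ≤ 2 log log M
  have hlogn : Real.log (n : ℝ) ≤ 1 + L := by
    calc Real.log (n : ℝ) ≤ Real.log (2 * M) := Real.log_le_log hn0 hn2M
      _ = Real.log 2 + L := Real.log_mul (by norm_num) hM0.ne'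
      _ ≤ 1 + L := by
          have := Real.log_two_lt_d9
          linarith
  have hlogn0 : L ≤ Real.log (n : ℝ) := Real.log_le_log hM0 hnM.le
  have hloglogn : Real.log (Real.log (n : ℝ)) ≤ 2 * LL := by
    calc Real.log (Real.log (n : ℝ)) ≤ Real.log (L ^ 2) := by
          apply Real.log_le_log (by linarith)
          nlinarith
      _ = 2 * LL := by rw [Real.log_pow, hLL]; norm_num
  have hmn : |(m : ℝ) - n| ≤ c₁ * δ * LL := by
    calc |(m : ℝ) - n| ≤ c₁ / 2 * δ * Real.log (Real.log n) := hm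
      _ ≤ c₁ / 2 * δ * (2 * LL) := by gcongr
      _ = c₁ * δ * LL := by ring
  have hmH : |(m : ℤ) - n| ≤ H := by
    have h1 : ((|(m : ℤ) - n| : ℤ) : ℝ) ≤ c₁ * δ * LL := by
      push_cast; exact hmn
    have h2 : ((|(m : ℤ) - n|).toNat : ℝ) ≤ c₁ * δ * LL := by
      have h3 : (((|(m : ℤ) - n|).toNat : ℤ) : ℝ) = ((|(m : ℤ) - n| : ℤ) : ℝ) := by
        rw [Int.toNat_of_nonneg (abs_nonneg _)]
      have h4 : (((|(m : ℤ) - n|).toNat : ℤ) : ℝ) = ((|(m : ℤ) - n|).toNat : ℝ) := by norm_cast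
      rw [← h4, h3]; exact h1
    have h5 := Nat.le_floor h2
    rw [← hH] at h5
    have h6 : (((|(m : ℤ) - n|).toNat : ℕ) : ℤ) = |(m : ℤ) - n| :=
      Int.toNat_of_nonneg (abs_nonneg _)
    rw [← h6]
    exact_mod_cast h5
  -- the size of m
  have hLL_le : LL ≤ L := Real.log_le_self (by linarith)
  have hmle : (m : ℝ) ≤ (2 + c₁) * M := by
    have h1 : (m : ℝ) ≤ n + c₁ * δ * LL := by
      have := (abs_le.1 hmn).2
      linarith
    have h2 : L ≤ M := Real.log_le_self hM0.le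
    have h3 : c₁ * δ * LL ≤ c₁ * 1 * M := by
      have : 0 ≤ LL := by linarith
      gcongr
      linarith
    nlinarith
  have hlogm : Real.log (m : ℝ) ≤ Real.log (2 + c₁) + L := by
    rcases Nat.eq_zero_or_pos m with h0 | h0
    · subst h0
      have h1 : 0 ≤ Real.log (2 + c₁) := Real.log_nonneg (by linarith)
      simp only [Nat.cast_zero, Real.log_zero]
      linarith
    · have h1 : (0 : ℝ) < m := by exact_mod_cast h0
      calc Real.log (m : ℝ) ≤ Real.log ((2 + c₁) * M) := Real.log_le_log h1 hmle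
        _ = Real.log (2 + c₁) + L := Real.log_mul (by positivity) hM0.ne'
  have hbK : b ≤ K := by
    apply Nat.le_floor
    have h2 := Real.log_two_gt_d9
    have h3 : Real.log (m : ℝ) / Real.log 2 ≤ 2 * L := by
      rw [div_le_iff₀ (by linarith)]
      nlinarith
    linarith
  obtain ⟨p, hp, -, hpd, hpl⟩ := hn m hmH b hb hbK
  rcases (Nat.dvd_prime hprime).1 hpd with h1 | h1
  · exact hp.one_lt.ne' h1
  · omega

end Pool.Agent.R948.NS
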