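import Pool.Agent.R948.Td

/-!
# The dimension of prime ideals of polynomial rings
-/

set_option autoImplicit false
set_option linter.style.haveILetI false
set_option linter.unusedSectionVars false

namespace Pool.Agent.R948

open MvPolynomial

section

variable {F : Type} [Field F] {ι : Type} [Fintype ι]

/-- the canonical point of an ideal -/
noncomputable def cp (P : Ideal (MvPolynomial ι F)) : ι → MvPolynomial ι F ⧸ P :=
  fun i => Ideal.Quotient.mk P (X i)

theorem aeval_cp (P : Ideal (MvPolynomial ι F)) (f : MvPolynomial ι F) :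
    aeval (cp P) f = Ideal.Quotient.mk P f := by
  have h : (aeval (cp P) : MvPolynomial ι F →ₐ[F] _) = Ideal.Quotient.mkₐ F P := by
    ext i
    simp [cp]
  rw [h]
  rfl

theorem aeval_cp_eq_zero (P : Ideal (MvPolynomial ι F)) (f : MvPolynomial ι F) :
    aeval (cp P) f = 0 ↔ f ∈ P := by
  rw [aeval_cp, Ideal.Quotient.eq_zero_iff_mem]

/-- the dimension of a prime ideal -/
noncomputable def tdP (P : Ideal (MvPolynomial ι F)) [P.IsPrime] : ℕ := td F (cp P)

theorem tdP_eq (P : Ideal (MvPolynomial ι F)) [P.IsPrime] :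
    (tdP P : Cardinal) = Algebra.trdeg F (MvPolynomial ι F ⧸ P) := by
  refine td_eq_trdeg F _ fun a => ?_
  obtain ⟨a, rfl⟩ := Ideal.Quotient.mk_surjective a
  rw [← aeval_cp]
  refine isAlgebraic_algebraMap (A := MvPolynomial ι F ⧸ P)
    (⟨aeval (cp P) a, ?_⟩ : Algebra.adjoin F (Set.range (cp P)))
  rw [Algebra.adjoin_range_eq_range_aeval]
  exact ⟨a, rfl⟩

theorem tdP_le_card (P : Ideal (MvPolynomial ι F)) [P.IsPrime] : tdP P ≤ Fintype.card ι :=
  td_le_card F _

/-- comparison with points -/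
theorem td_le_tdP {A : Type} [CommRing A] [IsDomain A] [Algebra F A] (P : Ideal (MvPolynomial ι F))
    [P.IsPrime] (z : ι → A) (h : ∀ f ∈ P, aeval z f = 0) : td F z ≤ tdP P :=
  td_le_of_ker F fun f hf => h f ((aeval_cp_eq_zero P f).1 hf)

theorem tdP_le_td {A : Type} [CommRing A] [IsDomain A] [Algebra F A] (P : Ideal (MvPolynomial ι F))
    [P.IsPrime] (z : ι → A) (h : ∀ f, aeval z f = 0 → f ∈ P) : tdP P ≤ td F z :=
  td_le_of_ker F fun f hf => (aeval_cp_eq_zero P f).2 (h f hf)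

theorem tdP_mono {P Q : Ideal (MvPolynomial ι F)} [P.IsPrime] [Q.IsPrime] (h : P ≤ Q) :
    tdP Q ≤ tdP P :=
  td_le_tdP P (cp Q) fun f hf => (aeval_cp_eq_zero Q f).2 (h hf)

theorem tdP_strict {P Q : Ideal (MvPolynomial ι F)} [P.IsPrime] [Q.IsPrime] (h : P < Q) :
    tdP Q < tdP P := by
  classical
  refine lt_of_le_of_ne (tdP_mono h.le) fun heq => ?_
  obtain ⟨f, hfQ, hfP⟩ := Set.exists_of_ssubset h
  obtain ⟨S, hS, hind, -⟩ := exists_td F (cp Q)
  have hindP : AlgebraicIndependent F (fun i : S => cp P i) := by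
    rw [algebraicIndependent_iff]
    intro p hp
    refine algebraicIndependent_iff.1 hind p ?_
    have h1 : aeval (cp P) (rename Subtype.val p) = 0 := by rw [aeval_rename]; exact hp
    rw [aeval_cp_eq_zero] at h1
    have h2 := (aeval_cp_eq_zero Q _).2 (h.le h1)
    rw [aeval_rename] at h2
    exact h2
  have hb : IsTranscendenceBasis F (fun i : S => cp P i) := by
    refine hindP.isTranscendenceBasis_of_trdeg_le_of_finite ?_
    rw [← tdP_eq, ← heq, tdP, ← hS]
    simp
  have halg := hb.isAlgebraic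
  have h0 : aeval (cp P) f ≠ 0 := fun h1 => hfP ((aeval_cp_eq_zero P f).1 h1)
  obtain ⟨r, hr0, hr⟩ := (halg.1 (aeval (cp P) f)).exists_nonzero_dvd
    (mem_nonZeroDivisors_of_ne_zero h0)
  obtain ⟨g, hg⟩ := (le_of_eq (Algebra.adjoin_range_eq_range_aeval F
    (fun i : S => cp P i))) r.2
  have hg' : aeval (cp P) (rename Subtype.val g) = (r : MvPolynomial ι F ⧸ P) := by
    rw [aeval_rename]
    exact hg
  have hdvd : (Ideal.Quotient.mk P f) ∣ Ideal.Quotient.mk P (rename Subtype.val g) := by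
    rw [← aeval_cp, ← aeval_cp, hg']
    exact hr
  obtain ⟨c, hc⟩ := hdvd
  obtain ⟨c, rfl⟩ := Ideal.Quotient.mk_surjective c
  rw [← map_mul, Ideal.Quotient.eq] at hc
  have hgQ : rename Subtype.val g ∈ Q := by
    have h3 := Q.add_mem (h.le hc) (Q.mul_mem_right c hfQ)
    rwa [sub_add_cancel] at h3
  have h4 := (aeval_cp_eq_zero Q _).2 hgQ
  rw [aeval_rename] at h4
  have h5 := algebraicIndependent_iff.1 hind g h4
  rw [h5] at hg
  apply hr0
  apply Subtype.ext
  rw [← hg]
  simp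

theorem drop_aux {A C : Type} [CommRing A] [IsDomain A] [Algebra F A] [Algebra.FiniteType F A]
    [CommRing C] [Algebra F C] (f : A) (Q' : Ideal A) (hQ' : Q' ∈ (Ideal.span {f}).minimalPrimes)
    (φ : C →ₐ[F] A) (hφ : Function.Surjective φ) (Q : Ideal C) (hQ : ∀ c ∈ Q, φ c ∈ Q') :
    Algebra.trdeg F A ≤ Algebra.trdeg F (C ⧸ Q) + 1 := by
  let ψ : (C ⧸ Q) →ₐ[F] (A ⧸ Q') :=
    Ideal.Quotient.liftₐ Q ((Ideal.Quotient.mkₐ F Q').comp φ) (by
      intro a ha
      rw [AlgHom.comp_apply, Ideal.Quotient.mkₐ_eq_mk, Ideal.Quotient.eq_zero_iff_mem]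
      exact hQ a ha)
  have hψ : Function.Surjective ψ := by
    intro b
    obtain ⟨b, rfl⟩ := Ideal.Quotient.mk_surjective b
    obtain ⟨b, rfl⟩ := hφ b
    exact ⟨Ideal.Quotient.mk Q b, rfl⟩
  have h3 := trdeg_le_of_surjective ψ hψ
  exact (trdeg_le_of_minimal f Q' hQ').trans (by gcongr)

/-- the components of a principal section -/
theorem tdP_drop {P Q : Ideal (MvPolynomial ι F)} [P.IsPrime] [Q.IsPrime] (f : MvPolynomial ι F)
    (hQ : Q ∈ (P ⊔ Ideal.span {f}).minimalPrimes) : tdP P ≤ tdP Q + 1 := by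
  have h1 : Q.map (Ideal.Quotient.mk P) ∈
      (Ideal.span {Ideal.Quotient.mk P f}).minimalPrimes := by
    have h2 := Ideal.minimalPrimes_map_of_surjective (f := Ideal.Quotient.mk P)
      Ideal.Quotient.mk_surjective (Ideal.span {f})
    rw [Ideal.map_span, Set.image_singleton, Ideal.mk_ker, sup_comm] at h2
    rw [h2]
    exact ⟨Q, hQ, rfl⟩
  have h2 := drop_aux (F := F) _ _ h1 (Ideal.Quotient.mkₐ F P) Ideal.Quotient.mk_surjective Q
    (fun c hc => Ideal.mem_map_of_mem _ hc)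
  rw [← tdP_eq, ← tdP_eq] at h2
  exact_mod_cast h2

end

end Pool.Agent.R948
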