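import Mathlib

/-!
# From quadratic networks to scalar quadratic recurrences

The values of a network `x (n+1) i = ∑_{(a,b) ∈ E i} x n a * x n b` are written in a sparse sequence.
-/

set_option autoImplicit false
set_option linter.unusedSectionVars false

namespace Pool.Agent.R948.QR

open Finset

lemma two_pow_dbl {a b : ℕ} (h : a < b) : 2 * 2 ^ a ≤ 2 ^ b := by
  calc 2 * 2 ^ a = 2 ^ (a + 1) := by ring
    _ ≤ 2 ^ b := Nat.pow_le_pow_right (by norm_num) h

/-- differences of powers of two determine the exponents -/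
lemma golomb {a b a' b' : ℕ} (hab : a ≠ b) (h : 2 ^ a + 2 ^ b' = 2 ^ b + 2 ^ a') :
    a = a' ∧ b = b' := by
  have hinj : ∀ {x y : ℕ}, (2 : ℕ) ^ x = 2 ^ y → x = y := fun {x y} hxy =>
    Nat.pow_right_injective (le_refl 2) hxy
  have pa : 0 < 2 ^ a := Nat.two_pow_pos a
  have pb : 0 < 2 ^ b := Nat.two_pow_pos b
  have pa' : 0 < 2 ^ a' := Nat.two_pow_pos a'
  have pb' : 0 < 2 ^ b' := Nat.two_pow_pos b'
  rcases lt_trichotomy a a' with h1 | h1 | h1
  · exfalso
    have e1 := two_pow_dbl h1
    rcases lt_trichotomy a' b' with h2 | h2 | h2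
    · have e2 := two_pow_dbl h2
      rcases lt_trichotomy b b' with h3 | h3 | h3
      · have e3 := two_pow_dbl h3
        omega
      · subst h3; omega
      · have e3 := two_pow_dbl h3
        omega
    · subst h2
      exact hab (hinj (by omega))
    · have e2 := two_pow_dbl h2
      omega
  · subst h1
    exact ⟨rfl, hinj (by omega)⟩
  · exfalso
    have e1 := two_pow_dbl h1
    rcases lt_trichotomy a b with h2 | h2 | h2
    · have e2 := two_pow_dbl h2
      rcases lt_trichotomy b b' with h3 | h3 | h3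
      · have e3 := two_pow_dbl h3
        omega
      · subst h3; omega
      · have e3 := two_pow_dbl h3
        omega
    · exact hab h2
    · have e2 := two_pow_dbl h2
      omega

variable {ι : Type} [Fintype ι] [DecidableEq ι]

/-- the positions of the two copies of the coordinates -/
noncomputable def pos (p : Bool × ι) : ℕ :=
  2 ^ (if p.1 then Fintype.card ι + (Fintype.equivFin ι p.2 : ℕ) else (Fintype.equivFin ι p.2 : ℕ))

/-- the block length -/
noncomputable def blk (ι : Type) [Fintype ι] : ℕ := 2 ^ (2 * Fintype.card ι + 1)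

lemma blk_pos : 0 < blk ι := Nat.two_pow_pos _

/-- the exponent -/
noncomputable def ex (p : Bool × ι) : ℕ :=
  if p.1 then Fintype.card ι + (Fintype.equivFin ι p.2 : ℕ) else (Fintype.equivFin ι p.2 : ℕ)

lemma pos_eq (p : Bool × ι) : pos p = 2 ^ ex p := rfl

lemma ex_lt (p : Bool × ι) : ex p < 2 * Fintype.card ι := by
  have := (Fintype.equivFin ι p.2).2
  unfold ex
  split_ifs <;> omega

lemma ex_inj {p p' : Bool × ι} (h : ex p = ex p') : p = p' := by
  have h1 := (Fintype.equivFin ι p.2).2
  have h2 := (Fintype.equivFin ι p'.2).2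
  obtain ⟨c, i⟩ := p
  obtain ⟨c', i'⟩ := p'
  unfold ex at h
  cases c <;> cases c' <;> simp at h h1 h2 ⊢
  · exact (Fintype.equivFin ι).injective (Fin.ext h)
  · omega
  · omega
  · exact (Fintype.equivFin ι).injective (Fin.ext h)

lemma pos_two_lt (p : Bool × ι) : 2 * pos p ≤ 2 ^ (2 * Fintype.card ι) := two_pow_dbl (ex_lt p)

lemma pos_lt (p : Bool × ι) : 4 * pos p ≤ blk ι := by
  have h1 := pos_two_lt p
  have h2 : blk ι = 2 * 2 ^ (2 * Fintype.card ι) := by unfold blk; ring
  omega

lemma pos_pos (p : Bool × ι) : 0 < pos p := Nat.two_pow_pos _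

lemma pos_inj {p p' : Bool × ι} (h : pos p = pos p') : p = p' :=
  ex_inj (Nat.pow_right_injective (le_refl 2) h)

lemma pos_false_lt_true (a b : ι) : pos (false, a) < pos (true, b) := by
  have h1 := (Fintype.equivFin ι a).2
  have : ex (false, a) < ex (true, b) := by
    unfold ex
    simp
    omega
  have h2 := two_pow_dbl this
  have h3 := pos_pos (false, a)
  rw [pos_eq] at h3 ⊢
  rw [pos_eq]
  omega

lemma pos_golomb {a b a' b' : Bool × ι} (hab : a ≠ b) (h : pos a + pos b' = pos b + pos a') :
    a = a' ∧ b = b' := by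
  have := golomb (a := ex a) (b := ex b) (a' := ex a') (b' := ex b')
    (fun h => hab (ex_inj h)) h
  exact ⟨ex_inj this.1, ex_inj this.2⟩

/-- the scalar sequence -/
noncomputable def seq (x : ℕ → ι → ℂ) (t : ℕ) : ℂ :=
  ∑ p : Bool × ι, if t % blk ι = pos p then x (t / blk ι) p.2 else 0

lemma seq_pos (x : ℕ → ι → ℂ) (n : ℕ) (p : Bool × ι) : seq x (blk ι * n + pos p) = x n p.2 := by
  have hp := pos_lt p
  have hp' := pos_pos p
  have h1 : (blk ι * n + pos p) % blk ι = pos p := by
    rw [Nat.mul_add_mod, Nat.mod_eq_of_lt (by omega)]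
  have h2 : (blk ι * n + pos p) / blk ι = n := by
    rw [Nat.mul_add_div (blk_pos (ι := ι)), Nat.div_eq_of_lt (by omega), add_zero]
  unfold seq
  rw [h1, h2, Finset.sum_eq_single p]
  · simp
  · intro b _ hb
    rw [if_neg]
    intro h
    exact hb (pos_inj h).symm
  · simp

lemma exists_of_seq_ne {x : ℕ → ι → ℂ} {t : ℕ} (h : seq x t ≠ 0) :
    ∃ p : Bool × ι, t % blk ι = pos p := by
  by_contra hcon
  push Not at hcon
  apply h
  unfold seq
  exact Finset.sum_eq_zero fun p _ => if_neg (hcon p)

/-- the product of the entries aligned with two positions -/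
lemma seq_mul (x : ℕ → ι → ℂ) (n : ℕ) (j : Bool × ι) (a b : Bool × ι) (hab : a ≠ b) :
    seq x (n + (blk ι - pos j + pos a)) * seq x (n + (blk ι - pos j + pos b)) =
      if n % blk ι = pos j then x (n / blk ι + 1) a.2 * x (n / blk ι + 1) b.2 else 0 := by
  have hj := pos_lt j
  have hj' := pos_pos j
  have ha := pos_lt a
  have hb := pos_lt b
  split_ifs with h
  · have key : ∀ c : Bool × ι, n + (blk ι - pos j + pos c) = blk ι * (n / blk ι + 1) + pos c := by
      intro c
      have h1 := Nat.div_add_mod n (blk ι)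
      rw [mul_add, mul_one]
      omega
    rw [key a, key b, seq_pos, seq_pos]
  · by_contra hne
    obtain ⟨ha1, hb1⟩ := mul_ne_zero_iff.1 hne
    obtain ⟨a', ha'⟩ := exists_of_seq_ne ha1
    obtain ⟨b', hb'⟩ := exists_of_seq_ne hb1
    have hla' := pos_lt a'
    have hlb' := pos_lt b'
    have h1 : pos a' ≡ n + (blk ι - pos j + pos a) [MOD blk ι] := by
      rw [← ha']
      exact Nat.mod_modEq _ _
    have h2 : pos b' ≡ n + (blk ι - pos j + pos b) [MOD blk ι] := by
      rw [← hb']
      exact Nat.mod_modEq _ _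
    have h3 : pos a + pos b' ≡ pos b + pos a' [MOD blk ι] := by
      have e1 : pos a + pos b' ≡ pos a + (n + (blk ι - pos j + pos b)) [MOD blk ι] :=
        Nat.ModEq.add_left _ h2
      have e2 : pos b + pos a' ≡ pos b + (n + (blk ι - pos j + pos a)) [MOD blk ι] :=
        Nat.ModEq.add_left _ h1
      refine e1.trans ?_
      refine Nat.ModEq.trans ?_ e2.symm
      rw [show pos a + (n + (blk ι - pos j + pos b)) = pos b + (n + (blk ι - pos j + pos a)) by ring]
    have h4 : pos a + pos b' = pos b + pos a' :=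
      Nat.ModEq.eq_of_lt_of_lt h3 (by omega) (by omega)
    obtain ⟨rfl, rfl⟩ := pos_golomb hab h4
    apply h
    have h5 : n + (blk ι - pos j) ≡ 0 [MOD blk ι] := by
      have e1 : 0 + pos a ≡ (n + (blk ι - pos j)) + pos a [MOD blk ι] := by
        rw [zero_add, add_assoc]
        exact h1
      exact (Nat.ModEq.add_right_cancel' _ e1).symm
    have h6 : n + blk ι ≡ pos j [MOD blk ι] := by
      have e1 := Nat.ModEq.add_right (pos j) h5
      rw [zero_add] at e1
      rwa [show n + (blk ι - pos j) + pos j = n + blk ι by omega] at e1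
    have h7 : n ≡ pos j [MOD blk ι] := by
      have : n + blk ι ≡ n [MOD blk ι] := by simp [Nat.ModEq]
      exact this.symm.trans h6
    rw [h7, Nat.mod_eq_of_lt (by omega)]

/-- **from networks to scalar recurrences** -/
theorem exists_scalar (E : ι → Finset (ι × ι)) (x : ℕ → ι → ℂ)
    (hx : ∀ n i, x (n + 1) i = ∑ e ∈ E i, x n e.1 * x n e.2) :
    ∃ (m : ℕ) (S : Finset (ℕ × ℕ)) (u : ℕ → ℂ) (k : ℕ) (c : ι → ℕ), 0 < k ∧
      (∀ e ∈ S, e.1 < e.2 ∧ e.2 < m) ∧
      (∀ n, u (n + m) = ∑ e ∈ S, u (n + e.1) * u (n + e.2)) ∧ ∀ n i, u (k * n + c i) = x n i := by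
  classical
  let φ : (Σ _ : Bool × ι, ι × ι) → ℕ × ℕ := fun s =>
    (blk ι - pos s.1 + pos (false, s.2.1), blk ι - pos s.1 + pos (true, s.2.2))
  let F : Finset (Σ _ : Bool × ι, ι × ι) := (Finset.univ : Finset (Bool × ι)).sigma fun j => E j.2
  have hφ : Set.InjOn φ (F : Set (Σ _ : Bool × ι, ι × ι)) := by
    rintro ⟨j, a, b⟩ - ⟨j', a', b'⟩ - h
    have hj := pos_lt j
    have hj' := pos_lt j'
    have h1 : blk ι - pos j + pos (false, a) = blk ι - pos j' + pos (false, a') :=
      congrArg Prod.fst h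
    have h2 : blk ι - pos j + pos (true, b) = blk ι - pos j' + pos (true, b') :=
      congrArg Prod.snd h
    obtain ⟨h3, h4⟩ := pos_golomb (a := (false, a)) (b := (true, b)) (a' := (false, a'))
      (b' := (true, b')) (by simp) (by omega)
    have h5 : a = a' := congrArg Prod.snd h3
    have h6 : b = b' := congrArg Prod.snd h4
    subst h5 h6
    have h7 : j = j' := pos_inj (by omega)
    subst h7
    rfl
  refine ⟨2 * blk ι, F.image φ, seq x, blk ι, fun i => pos (false, i), blk_pos, ?_, ?_,
    fun n i => seq_pos x n (false, i)⟩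
  · intro e he
    obtain ⟨⟨j, a, b⟩, -, rfl⟩ := Finset.mem_image.1 he
    have h1 := pos_false_lt_true a b
    have h2 := pos_lt (true, b)
    have h3 := pos_lt j
    have h4 := pos_pos j
    constructor
    · change blk ι - pos j + pos (false, a) < blk ι - pos j + pos (true, b)
      omega
    · change blk ι - pos j + pos (true, b) < 2 * blk ι
      omega
  · intro n
    rw [Finset.sum_image hφ, Finset.sum_sigma]
    have h1 : (n + 2 * blk ι) % blk ι = n % blk ι := by simp [Nat.add_mod]
    have h2 : (n + 2 * blk ι) / blk ι = n / blk ι + 1 + 1 := by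
      rw [Nat.add_mul_div_right _ _ blk_pos]
    unfold seq
    rw [h1, h2]
    change _ = ∑ j : Bool × ι, ∑ e ∈ E j.2, seq x (n + (blk ι - pos j + pos (false, e.1))) *
      seq x (n + (blk ι - pos j + pos (true, e.2)))
    refine Finset.sum_congr rfl fun j _ => ?_
    rw [Finset.sum_congr rfl fun e _ => seq_mul x n j (false, e.1) (true, e.2) (by simp)]
    split_ifs with h
    · rw [hx]
    · simp

end Pool.Agent.R948.QR
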