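import Pool.Agent.R948.QRa

/-!
# From polynomial maps to quadratic networks
-/

set_option autoImplicit false
set_option linter.unusedSectionVars false

namespace Pool.Agent.R948.QR

open Finset MvPolynomial

/-- the self-map given by polynomials -/
noncomputable def pm {κ : Type} (f : κ → MvPolynomial κ ℂ) (z : κ → ℂ) : κ → ℂ := fun i => eval z (f i)

lemma prod_getD {Λ : Type} (X : Λ → ℂ) (e : Λ) (he : X e = 1) (l : List Λ) (M : ℕ)
    (h : l.length ≤ M) : ∏ j ∈ range M, X (l.getD j e) = (l.map X).prod := by
  induction l generalizing M with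
  | nil => simp [he]
  | cons a l ih =>
    obtain ⟨M, rfl⟩ : ∃ M', M = M' + 1 := ⟨M - 1, by simp at h; omega⟩
    rw [Finset.prod_range_succ']
    simp only [List.getD_cons_succ, List.getD_cons_zero, List.map_cons, List.prod_cons]
    rw [ih M (by simpa using h), mul_comm]

lemma exists_list {κ : Type} (α : κ →₀ ℕ) : ∃ l : List κ, ∀ Y : κ → ℂ,
    (l.map Y).prod = ∏ i ∈ α.support, Y i ^ α i := by
  classical
  refine ⟨(Finsupp.toMultiset α).toList, fun Y => ?_⟩
  have h1 : (((Finsupp.toMultiset α).toList.map Y).prod) = ((Finsupp.toMultiset α).map Y).prod := by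
    conv_rhs => rw [← Multiset.coe_toList (Finsupp.toMultiset α)]
    rw [Multiset.map_coe, Multiset.prod_coe]
  rw [h1, Finsupp.toMultiset_map, Finsupp.prod_toMultiset, Finsupp.prod_mapDomain_index]
  · rfl
  · exact fun _ => pow_zero _
  · exact fun _ _ _ => pow_add _ _ _

section

variable {κ : Type} [Fintype κ] [DecidableEq κ]

/-- letters: the unit, the variables, the coefficients -/
abbrev Letter (f : κ → MvPolynomial κ ℂ) : Type := Option (κ ⊕ (Σ i : κ, (f i).support))

variable (f : κ → MvPolynomial κ ℂ)

/-- the word of a term, as a list -/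
noncomputable def tlist (i : κ) (α : (f i).support) : List (Letter f) :=
  some (Sum.inr ⟨i, α⟩) :: ((exists_list α.1).choose.map fun a => some (Sum.inl a))

/-- all words are shorter than `2 ^ lev` -/
noncomputable def lev : ℕ := ∑ i : κ, ∑ α : (f i).support, (tlist f i α).length

lemma length_le (i : κ) (α : (f i).support) : (tlist f i α).length ≤ 2 ^ lev f := by
  have h1 : (tlist f i α).length ≤ lev f := by
    unfold lev
    refine le_trans ?_ (Finset.single_le_sum (f := fun i => ∑ α : (f i).support,
      (tlist f i α).length) (fun _ _ => Nat.zero_le _) (Finset.mem_univ i))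
    exact Finset.single_le_sum (f := fun α : (f i).support => (tlist f i α).length)
      (fun _ _ => Nat.zero_le _) (Finset.mem_univ α)
  exact h1.trans Nat.lt_two_pow_self.le

/-- words -/
abbrev Word : Type := Fin (2 ^ lev f) → Letter f

/-- letters of a word, cyclically -/
noncomputable def at' (w : Word f) (j : ℕ) : Letter f := w (Fin.ofNat (2 ^ lev f) j)

/-- shifted word -/
noncomputable def sh (t : ℕ) (w : Word f) : Word f := fun i => at' f w (i + 2 ^ t)

lemma at_sh (t : ℕ) (w : Word f) (j : ℕ) : at' f (sh f t w) j = at' f w (2 ^ t + j) := by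
  unfold sh
  simp only [at']
  congr 1
  ext
  simp [Fin.ofNat, Nat.add_mod, add_comm]

/-- the word of a term -/
noncomputable def tword (i : κ) (α : (f i).support) : Word f := fun j => (tlist f i α).getD j none

lemma tword_zero (i : κ) (α : (f i).support) : tword f i α 0 = some (Sum.inr ⟨i, α⟩) := by
  unfold tword tlist
  simp

lemma tword_inj (i : κ) : Function.Injective (tword f i) := by
  intro α β h
  have h1 := congrFun h 0
  rw [tword_zero, tword_zero] at h1
  simpa using h1

lemma prod_tword (X : Letter f → ℂ) (he : X none = 1) (i : κ) (α : (f i).support) :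
    ∏ j ∈ range (2 ^ lev f), X (at' f (tword f i α) j) =
      X (some (Sum.inr ⟨i, α⟩)) * ∏ a ∈ α.1.support, X (some (Sum.inl a)) ^ α.1 a := by
  have h1 : ∏ j ∈ range (2 ^ lev f), X (at' f (tword f i α) j) =
      ∏ j ∈ range (2 ^ lev f), X ((tlist f i α).getD j none) := by
    refine Finset.prod_congr rfl fun j hj => ?_
    unfold at' tword
    rw [Fin.val_ofNat, Nat.mod_eq_of_lt (Finset.mem_range.1 hj)]
  rw [h1, prod_getD X none he _ _ (length_le f i α)]
  unfold tlist
  rw [List.map_cons, List.prod_cons, List.map_map]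
  congr 1
  exact (exists_list α.1).choose_spec fun a => X (some (Sum.inl a))

/-- index set of the network -/
abbrev Ind : Type := Fin (lev f + 1) × Word f

noncomputable instance : DecidableEq (Ind f) := Classical.decEq _

/-- a letter at level zero -/
noncomputable def ld (a : Letter f) : Ind f := (0, fun _ => a)

/-- the equations at level zero -/
noncomputable def eq0 : Letter f → Finset (Ind f × Ind f)
  | none => {(ld f none, ld f none)}
  | some (Sum.inr c) => {(ld f (some (Sum.inr c)), ld f none)}
  | some (Sum.inl i) => (Finset.univ : Finset (f i).support).image fun α =>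
      ((Fin.last _, tword f i α), ld f none)

/-- the network -/
noncomputable def net (p : Ind f) : Finset (Ind f × Ind f) :=
  if p.1 = 0 then eq0 f (p.2 0)
  else {((⟨p.1.1 - 1, by omega⟩, p.2), (⟨p.1.1 - 1, by omega⟩, sh f (p.1.1 - 1) p.2))}

/-- initial values of the letters -/
noncomputable def ini (z : κ → ℂ) : Letter f → ℂ
  | none => 1
  | some (Sum.inr c) => coeff c.2.1 (f c.1)
  | some (Sum.inl i) => z i

/-- the values of the network -/
noncomputable def val (z : κ → ℂ) : ℕ → Ind f → ℂ
  | 0 => fun p => ini f z (p.2 0)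
  | n + 1 => fun p => ∑ e ∈ net f p, val z n e.1 * val z n e.2

/-- the values of the letters -/
noncomputable def X' (z : κ → ℂ) (n : ℕ) (a : Letter f) : ℂ := val f z n (ld f a)

lemma val_zero_level (z : κ → ℂ) (n : ℕ) (w : Word f) : val f z n (0, w) = X' f z n (w 0) := by
  unfold X'
  cases n with
  | zero => rfl
  | succ n => rfl

lemma X_none (z : κ → ℂ) (n : ℕ) : X' f z n none = 1 := by
  induction n with
  | zero => rfl
  | succ n ih =>
    have : X' f z (n + 1) none = ∑ e ∈ ({(ld f none, ld f none)} : Finset (Ind f × Ind f)),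
      val f z n e.1 * val f z n e.2 := rfl
    rw [this, Finset.sum_singleton]
    change X' f z n none * X' f z n none = 1
    rw [ih, one_mul]

lemma X_coeff (z : κ → ℂ) (n : ℕ) (c : Σ i : κ, (f i).support) :
    X' f z n (some (Sum.inr c)) = coeff c.2.1 (f c.1) := by
  induction n with
  | zero => rfl
  | succ n ih =>
    have : X' f z (n + 1) (some (Sum.inr c)) =
      ∑ e ∈ ({(ld f (some (Sum.inr c)), ld f none)} : Finset (Ind f × Ind f)),
      val f z n e.1 * val f z n e.2 := rfl
    rw [this, Finset.sum_singleton]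
    change X' f z n (some (Sum.inr c)) * X' f z n none = _
    rw [ih, X_none, mul_one]

lemma X_var (z : κ → ℂ) (n : ℕ) (i : κ) : X' f z (n + 1) (some (Sum.inl i)) =
    ∑ α : (f i).support, val f z n (Fin.last _, tword f i α) := by
  have : X' f z (n + 1) (some (Sum.inl i)) =
    ∑ e ∈ (Finset.univ : Finset (f i).support).image fun α =>
      (((Fin.last _, tword f i α), ld f none) : Ind f × Ind f),
      val f z n e.1 * val f z n e.2 := rfl
  rw [this, Finset.sum_image]
  · refine Finset.sum_congr rfl fun α _ => ?_
    change val f z n (Fin.last _, tword f i α) * X' f z n none = _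
    rw [X_none, mul_one]
  · intro α _ β _ h
    exact tword_inj f i (congrArg Prod.snd (congrArg Prod.fst h))

lemma val_level (z : κ → ℂ) (n : ℕ) (t : ℕ) (ht : t < lev f + 1) (w : Word f) :
    val f z (n + t) (⟨t, ht⟩, w) = ∏ j ∈ range (2 ^ t), X' f z n (at' f w j) := by
  induction t generalizing w with
  | zero =>
    have h1 : val f z (n + 0) ((⟨0, ht⟩ : Fin (lev f + 1)), w) = X' f z n (w 0) :=
      val_zero_level f z n w
    rw [h1]
    simp [at']
  | succ t ih =>
    have hne : (⟨t + 1, ht⟩ : Fin (lev f + 1)) ≠ 0 := by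
      intro h
      simpa using congrArg Fin.val h
    have h1 : val f z (n + (t + 1)) ((⟨t + 1, ht⟩ : Fin (lev f + 1)), w) =
        ∑ e ∈ net f ((⟨t + 1, ht⟩ : Fin (lev f + 1)), w), val f z (n + t) e.1 *
          val f z (n + t) e.2 := rfl
    rw [h1]
    unfold net
    rw [if_neg hne, Finset.sum_singleton]
    change val f z (n + t) ((⟨t, by omega⟩ : Fin (lev f + 1)), w) *
      val f z (n + t) ((⟨t, by omega⟩ : Fin (lev f + 1)), sh f t w) = _
    rw [ih (by omega), ih (by omega), pow_succ, mul_two, Finset.prod_range_add]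
    congr 1
    refine Finset.prod_congr rfl fun j _ => ?_
    rw [at_sh]

lemma X_step (z : κ → ℂ) (n : ℕ) (i : κ) : X' f z (n + lev f + 1) (some (Sum.inl i)) =
    eval (fun a => X' f z n (some (Sum.inl a))) (f i) := by
  rw [X_var, eval_eq]
  rw [← Finset.sum_coe_sort (f i).support]
  refine Finset.sum_congr rfl fun α _ => ?_
  have h1 := val_level f z n (lev f) (Nat.lt_succ_self _) (tword f i α)
  have h2 : (Fin.last (lev f)) = ⟨lev f, Nat.lt_succ_self _⟩ := rfl
  rw [h2, h1, prod_tword f _ (X_none f z n), X_coeff]

/-- **from polynomial maps to networks** -/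
theorem exists_network (z : κ → ℂ) :
    ∃ (ι : Type) (_ : Fintype ι) (_ : DecidableEq ι) (E : ι → Finset (ι × ι)) (x : ℕ → ι → ℂ)
      (k : ℕ) (c : κ → ι), 0 < k ∧ (∀ n i, x (n + 1) i = ∑ e ∈ E i, x n e.1 * x n e.2) ∧
      ∀ n i, x (k * n) (c i) = (pm f)^[n] z i := by
  classical
  refine ⟨Ind f, inferInstance, inferInstance, net f, val f z, lev f + 1,
    fun i => ld f (some (Sum.inl i)), by omega, fun n i => rfl, ?_⟩
  intro n
  induction n with
  | zero => exact fun i => rfl
  | succ n ih =>
    intro i
    rw [Function.iterate_succ_apply']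
    have h1 : (lev f + 1) * (n + 1) = (lev f + 1) * n + lev f + 1 := by ring
    rw [h1]
    change X' f z ((lev f + 1) * n + lev f + 1) (some (Sum.inl i)) = _
    rw [X_step]
    unfold pm
    congr 1
    congr 1
    funext a
    exact ih a

end

end Pool.Agent.R948.QR
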