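import Pool.Agent.R948.QRb
import Pool.Agent.R847.QP.Lift

/-!
# Return sets and zero sets of quadratic recurrences
-/

set_option autoImplicit false
set_option linter.unusedSectionVars false

namespace Pool.Agent.R948.QR

open MvPolynomial Pool.Agent.H936R2 Pool.Agent.R847.QP

/-- A finite union of arithmetic progressions `{a + r k}`, where `r = 0` is allowed. -/
def FinAP (A : Set ℕ) : Prop :=
  ∃ T : Finset (ℕ × ℕ), A = {n : ℕ | ∃ t ∈ T, ∃ k : ℕ, n = t.1 + t.2 * k}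

/-- eventually periodic sets -/
def EvPer (A : Set ℕ) : Prop := ∃ N d : ℕ, 0 < d ∧ ∀ n, N ≤ n → (n ∈ A ↔ n + d ∈ A)

lemma per_mul {A : Set ℕ} {N d : ℕ} (h : ∀ n, N ≤ n → (n ∈ A ↔ n + d ∈ A)) (j : ℕ) :
    ∀ n, N ≤ n → (n ∈ A ↔ n + d * j ∈ A) := by
  induction j with
  | zero => simp
  | succ j ih =>
    intro n hn
    rw [ih n hn, h _ (by omega), mul_add, mul_one, add_assoc]

lemma EvPer.union {A B : Set ℕ} (hA : EvPer A) (hB : EvPer B) : EvPer (A ∪ B) := by
  obtain ⟨N, d, hd, h⟩ := hA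
  obtain ⟨N', d', hd', h'⟩ := hB
  refine ⟨N + N', d * d', Nat.mul_pos hd hd', fun n hn => ?_⟩
  have h1 := per_mul h d' n (by omega)
  have h2 := per_mul h' d n (by omega)
  rw [mul_comm d' d] at h2
  exact or_congr h1 h2

lemma EvPer.inter {A B : Set ℕ} (hA : EvPer A) (hB : EvPer B) : EvPer (A ∩ B) := by
  obtain ⟨N, d, hd, h⟩ := hA
  obtain ⟨N', d', hd', h'⟩ := hB
  refine ⟨N + N', d * d', Nat.mul_pos hd hd', fun n hn => ?_⟩
  have h1 := per_mul h d' n (by omega)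
  have h2 := per_mul h' d n (by omega)
  rw [mul_comm d' d] at h2
  exact and_congr h1 h2

lemma EvPer.comp {A : Set ℕ} (hA : EvPer A) {k : ℕ} (hk : 0 < k) (c : ℕ) :
    EvPer {n | k * n + c ∈ A} := by
  obtain ⟨N, d, hd, h⟩ := hA
  refine ⟨N, d, hd, fun n hn => ?_⟩
  have h1 : N ≤ k * n + c := by nlinarith
  have h2 := per_mul h k (k * n + c) h1
  change k * n + c ∈ A ↔ k * (n + d) + c ∈ A
  rw [h2, show k * (n + d) + c = k * n + c + d * k by ring]

lemma evPer_biInter {C : Finset ℕ} {A : ℕ → Set ℕ} (h : ∀ c ∈ C, EvPer (A c)) :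
    EvPer {n | ∀ c ∈ C, n ∈ A c} := by
  classical
  induction C using Finset.induction_on with
  | empty => exact ⟨0, 1, one_pos, fun n _ => by simp⟩
  | insert c C hc ih =>
    have h1 := (h c (Finset.mem_insert_self c C)).inter
      (ih fun c' hc' => h c' (Finset.mem_insert_of_mem hc'))
    convert h1 using 1
    ext n
    simp

lemma evPer_of_finAP {A : Set ℕ} (h : FinAP A) : EvPer A := by
  classical
  obtain ⟨T, rfl⟩ := h
  induction T using Finset.induction_on with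
  | empty => exact ⟨0, 1, one_pos, fun n _ => by simp⟩
  | insert t T ht ih =>
    have h1 : {n : ℕ | ∃ t' ∈ insert t T, ∃ k : ℕ, n = t'.1 + t'.2 * k} =
        {n : ℕ | ∃ k : ℕ, n = t.1 + t.2 * k} ∪ {n : ℕ | ∃ t' ∈ T, ∃ k : ℕ, n = t'.1 + t'.2 * k} := by
      ext n
      simp [or_and_right, exists_or]
    rw [h1]
    refine EvPer.union ?_ ih
    rcases Nat.eq_zero_or_pos t.2 with h0 | h0
    · refine ⟨t.1 + 1, 1, one_pos, fun n hn => ?_⟩
      simp only [Set.mem_ofPred_eq, h0, zero_mul, add_zero, exists_const]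
      omega
    · refine ⟨t.1, t.2, h0, fun n hn => ⟨?_, ?_⟩⟩
      · rintro ⟨k, hk⟩
        exact ⟨k + 1, by rw [hk]; ring⟩
      · rintro ⟨k, hk⟩
        obtain ⟨k', rfl⟩ : ∃ k', k = k' + 1 := by
          refine ⟨k - 1, ?_⟩
          rcases Nat.eq_zero_or_pos k with rfl | hk0
          · omega
          · omega
        exact ⟨k', by rw [mul_add, mul_one] at hk; omega⟩

lemma finAP_of_evPer {A : Set ℕ} (h : EvPer A) : FinAP A := by
  classical
  obtain ⟨N, d, hd, h⟩ := h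
  refine ⟨((Finset.range N).filter (· ∈ A)).image (fun n => (n, 0)) ∪
    ((Finset.Ico N (N + d)).filter (· ∈ A)).image (fun n => (n, d)), ?_⟩
  ext n
  simp only [Set.mem_ofPred_eq, Finset.mem_union, Finset.mem_image, Finset.mem_filter,
    Finset.mem_range, Finset.mem_Ico]
  constructor
  · intro hn
    rcases lt_or_ge n N with h1 | h1
    · exact ⟨(n, 0), Or.inl ⟨n, ⟨h1, hn⟩, rfl⟩, 0, by simp⟩
    · refine ⟨(N + (n - N) % d, d), Or.inr ⟨N + (n - N) % d, ⟨⟨by omega, ?_⟩, ?_⟩, rfl⟩,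
        (n - N) / d, ?_⟩
      · have := Nat.mod_lt (n - N) hd
        omega
      · have h2 := per_mul h ((n - N) / d) (N + (n - N) % d) (by omega)
        rw [h2]
        have h3 := Nat.mod_add_div (n - N) d
        rw [show N + (n - N) % d + d * ((n - N) / d) = n by omega]
        exact hn
      · have h3 := Nat.mod_add_div (n - N) d
        change n = N + (n - N) % d + d * ((n - N) / d)
        omega
  · rintro ⟨t, (⟨a, ⟨ha, haA⟩, rfl⟩ | ⟨a, ⟨⟨ha, ha'⟩, haA⟩, rfl⟩), k, rfl⟩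
    · simpa using haA
    · exact (per_mul h k a ha).1 haA

lemma finAP_iff {A : Set ℕ} : FinAP A ↔ EvPer A := ⟨evPer_of_finAP, finAP_of_evPer⟩

/-- The sequence `u` satisfies `u (n + m) = ∑ u (n + i) * u (n + j)`, the sum over the pairs `(i, j)`
of a set `S` of pairs with `i < j < m`. -/
def IsQuadratic (m : ℕ) (S : Finset (ℕ × ℕ)) (u : ℕ → ℂ) : Prop :=
  (∀ e ∈ S, e.1 < e.2 ∧ e.2 < m) ∧ ∀ n, u (n + m) = ∑ e ∈ S, u (n + e.1) * u (n + e.2)

/-- return sets of polynomial maps -/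
theorem affine_return {κ : Type} [Fintype κ] [DecidableEq κ] (f : κ → MvPolynomial κ ℂ) (z : κ → ℂ)
    (B : Finset (MvPolynomial κ ℂ)) : ∃ (m : ℕ) (S : Finset (ℕ × ℕ)) (u : ℕ → ℂ) (k : ℕ)
      (C : Finset ℕ), IsQuadratic m S u ∧ 0 < k ∧
      ∀ n, (∀ g ∈ B, eval ((pt f)^[n] z) g = 0) ↔ ∀ c ∈ C, u (k * n + c) = 0 := by
  classical
  let f' : κ ⊕ B → MvPolynomial (κ ⊕ B) ℂ :=
    Sum.elim (fun i => rename Sum.inl (f i)) (fun g => rename Sum.inl (bind₁ f g.1))
  let z' : κ ⊕ B → ℂ := Sum.elim z (fun g => eval z g.1)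
  have hit : ∀ n, (pm f')^[n] z' = Sum.elim ((pt f)^[n] z) (fun g => eval ((pt f)^[n] z) g.1) := by
    intro n
    induction n with
    | zero => rfl
    | succ n ih =>
      rw [Function.iterate_succ_apply', Function.iterate_succ_apply', ih]
      funext i
      rcases i with i | g
      · change eval _ (rename Sum.inl (f i)) = eval _ (f i)
        rw [eval_rename]
        rfl
      · change eval _ (rename Sum.inl (bind₁ f g.1)) = eval _ g.1
        rw [eval_rename, ev_bind]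
        rfl
  obtain ⟨ι, _, _, E, x, k₁, c₁, hk₁, hx, hc₁⟩ := exists_network f' z'
  obtain ⟨m, S, u, k₂, c₂, hk₂, hS, hu, hc₂⟩ := exists_scalar E x hx
  refine ⟨m, S, u, k₂ * k₁, (Finset.univ : Finset B).image fun g => c₂ (c₁ (Sum.inr g)),
    ⟨hS, hu⟩, Nat.mul_pos hk₂ hk₁, fun n => ?_⟩
  have key : ∀ g : B, u (k₂ * k₁ * n + c₂ (c₁ (Sum.inr g))) = eval ((pt f)^[n] z) g.1 := by
    intro g
    rw [mul_assoc, hc₂, hc₁, hit]
    rfl
  constructor
  · intro h c hc
    obtain ⟨g, -, rfl⟩ := Finset.mem_image.1 hc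
    rw [key]
    exact h g.1 g.2
  · intro h g hg
    rw [← key ⟨g, hg⟩]
    exact h _ (Finset.mem_image_of_mem _ (Finset.mem_univ _))

/-- **return sets of quasiprojective varieties** -/
theorem return_set {N : ℕ} (D : Reg N) (C : Set (MvPolynomial (Fin (N + 1)) ℂ))
    (hC : ∀ F ∈ C, ∃ d : ℕ, F.IsHomogeneous d)
    (p : Projectivization ℂ (Fin (N + 1) → ℂ)) (hp : p ∈ D.X) :
    ∃ (m : ℕ) (S : Finset (ℕ × ℕ)) (u : ℕ → ℂ) (k : ℕ) (C' : Finset ℕ), IsQuadratic m S u ∧ 0 < k ∧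
      ∀ n, (∀ F ∈ C, eval (D.Φ^[n] p).rep F = 0) ↔ ∀ c ∈ C', u (k * n + c) = 0 := by
  classical
  obtain ⟨κ, i1, i2, f, Y, M, ha, hb, hc, hd⟩ := D.exists_lift
  let V : Set (MvPolynomial κ ℂ) := {g | ∃ F ∈ C, ∃ j, g = bind₁ (fun i => MvPolynomial.X (M i j)) F}
  have hV : ∀ (z : κ → ℂ) (p : Projectivization ℂ (Fin (N + 1) → ℂ)),
      Over (fun i j => z (M i j)) p →
      ((∀ g ∈ V, eval z g = 0) ↔ ∀ F ∈ C, eval p.rep F = 0) := by
    intro z p hov
    constructor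
    · intro h F hF
      by_contra hne
      obtain ⟨e, he⟩ := hC F hF
      obtain ⟨j, hj⟩ := (hov.eval F e he).2 hne
      apply hj
      have := h _ ⟨F, hF, j, rfl⟩
      rw [ev_bind] at this
      simpa only [eval_X] using this
    · rintro h g ⟨F, hF, j, rfl⟩
      obtain ⟨e, he⟩ := hC F hF
      rw [ev_bind]
      simp only [eval_X]
      exact (hov.eval F e he).1 (h F hF) j
  obtain ⟨z, hz, hov⟩ := hd p hp
  have hiter : ∀ l, (∀ g ∈ Y, eval ((pt f)^[l] z) g = 0) ∧ D.Φ^[l] p ∈ D.X ∧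
        Over (fun i j => (pt f)^[l] z (M i j)) (D.Φ^[l] p) := by
    intro l
    induction l with
    | zero => exact ⟨hz, hp, hov⟩
    | succ l ih =>
      obtain ⟨h1, h2, h3⟩ := ih
      rw [Function.iterate_succ_apply', Function.iterate_succ_apply']
      exact ⟨hb _ h1, D.hΦ _ h2, hc _ h1 _ h2 h3⟩
  obtain ⟨B, hBV, hB⟩ := finite_sub V
  obtain ⟨m, S, u, k, C', hu, hk, h⟩ := affine_return f z B
  refine ⟨m, S, u, k, C', hu, hk, fun n => ?_⟩
  rw [← h, ← hV _ _ (hiter n).2.2]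
  constructor
  · exact fun h g hg => h g (hBV hg)
  · intro h1 g hg
    by_contra hne
    obtain ⟨g', hg', hne'⟩ := hB _ ⟨g, hg, hne⟩
    exact hne' (h1 g' hg')

end Pool.Agent.R948.QR
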