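import Pool.Agent.R948.QRc

/-!
# The shift map of a quadratic recurrence
-/

set_option autoImplicit false
set_option linter.unusedSectionVars false

namespace Pool.Agent.R948.QR

open MvPolynomial Pool.Agent.R847.QP

/-- The statement of Q1 (dynamical Mordell-Lang conjecture for quasiprojective varieties over `ℂ`),
word for word the frozen statement `S00091`. -/
def DynamicalMordellLang : Prop :=
  ∀ (N : ℕ) (X : Set (Projectivization ℂ (Fin (N + 1) → ℂ))),
    (∃ A B : Set (MvPolynomial (Fin (N + 1)) ℂ),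
      (∀ F ∈ A, ∃ d : ℕ, F.IsHomogeneous d) ∧ (∀ F ∈ B, ∃ d : ℕ, F.IsHomogeneous d) ∧
      ∀ p : Projectivization ℂ (Fin (N + 1) → ℂ), p ∈ X ↔
        ((∀ F ∈ A, MvPolynomial.eval p.rep F = 0) ∧ ∃ F ∈ B, MvPolynomial.eval p.rep F ≠ 0)) →
    ∀ Φ : Projectivization ℂ (Fin (N + 1) → ℂ) → Projectivization ℂ (Fin (N + 1) → ℂ),
      (∀ x ∈ X, Φ x ∈ X) →
      (∀ x ∈ X, ∃ (d e : ℕ) (F : Fin (N + 1) → MvPolynomial (Fin (N + 1)) ℂ)
          (g : MvPolynomial (Fin (N + 1)) ℂ),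
          (∀ i, (F i).IsHomogeneous d) ∧ g.IsHomogeneous e ∧ MvPolynomial.eval x.rep g ≠ 0 ∧
          ∀ y ∈ X, MvPolynomial.eval y.rep g ≠ 0 →
            (fun i : Fin (N + 1) => MvPolynomial.eval y.rep (F i)) ≠ 0 ∧
            (fun i : Fin (N + 1) => MvPolynomial.eval y.rep (F i)) ∈ (Φ y).submodule) →
      ∀ α ∈ X, ∀ V : Set (Projectivization ℂ (Fin (N + 1) → ℂ)),
        (∃ C : Set (MvPolynomial (Fin (N + 1)) ℂ),
          (∀ F ∈ C, ∃ d : ℕ, F.IsHomogeneous d) ∧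
          ∀ p : Projectivization ℂ (Fin (N + 1) → ℂ), p ∈ V ↔ ∀ F ∈ C, MvPolynomial.eval p.rep F = 0) →
        ∃ T : Finset (ℕ × ℕ),
          {n : ℕ | Φ^[n] α ∈ V} = {n : ℕ | ∃ t ∈ T, ∃ k : ℕ, n = t.1 + t.2 * k}

/-- The Skolem-Mahler-Lech statement for quadratic recurrences with coefficients `0` and `1`. -/
def QuadraticSML : Prop :=
  ∀ (m : ℕ) (S : Finset (ℕ × ℕ)) (u : ℕ → ℂ), IsQuadratic m S u → FinAP {n | u n = 0}

section shift

variable (m : ℕ) (S : Finset (ℕ × ℕ)) (u : ℕ → ℂ)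

/-- the state -/
noncomputable def st (n : ℕ) : Fin (m + 1) → ℂ := Fin.cons 1 fun i : Fin m => u (n + i)

/-- the shift map -/
noncomputable def sF : Fin (m + 1) → MvPolynomial (Fin (m + 1)) ℂ :=
  Fin.cons (X 0 * X 0) fun i : Fin m =>
    if (i : ℕ) + 1 < m then X 0 * X (Fin.ofNat (m + 1) (i + 2))
    else ∑ e ∈ S, X (Fin.ofNat (m + 1) (e.1 + 1)) * X (Fin.ofNat (m + 1) (e.2 + 1))

lemma st_zero (n : ℕ) : st m u n 0 = 1 := rfl

lemma st_succ (n j : ℕ) (hj : j < m) : st m u n (Fin.ofNat (m + 1) (j + 1)) = u (n + j) := by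
  have h1 : Fin.ofNat (m + 1) (j + 1) = Fin.succ (⟨j, hj⟩ : Fin m) := by
    ext
    simp [Fin.ofNat, Nat.mod_eq_of_lt (show j + 1 < m + 1 by omega)]
  rw [h1]
  unfold st
  rw [Fin.cons_succ]

lemma sF_hom (j : Fin (m + 1)) : (sF m S j).IsHomogeneous 2 := by
  refine Fin.cases ?_ (fun i => ?_) j
  · exact (isHomogeneous_X _ _).mul (isHomogeneous_X _ _)
  · unfold sF
    rw [Fin.cons_succ]
    split_ifs
    · exact (isHomogeneous_X _ _).mul (isHomogeneous_X _ _)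
    · exact IsHomogeneous.sum _ _ _ fun e _ => (isHomogeneous_X _ _).mul (isHomogeneous_X _ _)

lemma eval_sF (hu : IsQuadratic m S u) (n : ℕ) (j : Fin (m + 1)) :
    eval (st m u n) (sF m S j) = st m u (n + 1) j := by
  refine Fin.cases ?_ (fun i => ?_) j
  · unfold sF
    rw [Fin.cons_zero, eval_mul, eval_X, st_zero, st_zero, one_mul]
  · unfold sF
    rw [Fin.cons_succ]
    have h0 : st m u (n + 1) i.succ = u (n + 1 + i) := by
      unfold st
      rw [Fin.cons_succ]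
    rw [h0]
    split_ifs with h
    · rw [eval_mul, eval_X, eval_X, st_zero, one_mul]
      have h1 := st_succ m u n (i + 1) h
      rw [show (i : ℕ) + 2 = (i : ℕ) + 1 + 1 by ring, h1]
      congr 1
      ring
    · have h1 : n + 1 + (i : ℕ) = n + m := by
        have := i.2
        omega
      rw [h1, hu.2, map_sum]
      refine Finset.sum_congr rfl fun e he => ?_
      obtain ⟨h2, h3⟩ := hu.1 e he
      rw [eval_mul, eval_X, eval_X, st_succ m u n e.1 (by omega), st_succ m u n e.2 (by omega)]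

open Classical in
/-- the shift map on the projective space -/
noncomputable def sΦ (p : Projectivization ℂ (Fin (m + 1) → ℂ)) :
    Projectivization ℂ (Fin (m + 1) → ℂ) :=
  if h : (fun i => eval p.rep (sF m S i)) ≠ 0 then Projectivization.mk ℂ _ h else p

lemma st_ne (n : ℕ) : st m u n ≠ 0 := fun h => one_ne_zero (congrFun h 0)

lemma sΦ_mk (hu : IsQuadratic m S u) (n : ℕ) :
    sΦ m S (Projectivization.mk ℂ (st m u n) (st_ne m u n)) =
      Projectivization.mk ℂ (st m u (n + 1)) (st_ne m u (n + 1)) := by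
  obtain ⟨a, ha⟩ := Projectivization.exists_smul_eq_mk_rep ℂ (st m u n) (st_ne m u n)
  have ha0 : (a : ℂ) ≠ 0 := a.ne_zero
  have h1 : (fun i => eval (Projectivization.mk ℂ (st m u n) (st_ne m u n)).rep (sF m S i)) =
      (a : ℂ) ^ 2 • st m u (n + 1) := by
    funext i
    rw [← ha, Units.smul_def, hom_scale _ 2 (sF_hom m S i), eval_sF m S u hu]
    rfl
  have h2 : (fun i => eval (Projectivization.mk ℂ (st m u n) (st_ne m u n)).rep (sF m S i)) ≠ 0 := by
    rw [h1]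
    exact smul_ne_zero (pow_ne_zero _ ha0) (st_ne m u _)
  unfold sΦ
  rw [dif_pos h2, Projectivization.mk_eq_mk_iff']
  exact ⟨(a : ℂ) ^ 2, h1.symm⟩

lemma sΦ_iter (hu : IsQuadratic m S u) (n : ℕ) :
    (sΦ m S)^[n] (Projectivization.mk ℂ (st m u 0) (st_ne m u 0)) =
      Projectivization.mk ℂ (st m u n) (st_ne m u n) := by
  induction n with
  | zero => rfl
  | succ n ih => rw [Function.iterate_succ_apply', ih, sΦ_mk m S u hu]

lemma rep_iff (n : ℕ) (i : Fin (m + 1)) :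
    (Projectivization.mk ℂ (st m u n) (st_ne m u n)).rep i = 0 ↔ st m u n i = 0 := by
  obtain ⟨a, ha⟩ := Projectivization.exists_smul_eq_mk_rep ℂ (st m u n) (st_ne m u n)
  rw [← ha, Units.smul_def, Pi.smul_apply, smul_eq_mul, mul_eq_zero]
  constructor
  · rintro (h | h)
    · exact absurd h a.ne_zero
    · exact h
  · exact Or.inr

theorem quadratic_of_dml (h : DynamicalMordellLang) (hu : IsQuadratic m S u) :
    FinAP {n | u n = 0} := by
  classical
  rcases Nat.eq_zero_or_pos m with rfl | hm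
  · have h0 : ∀ n, u n = 0 := by
      intro n
      have h1 := hu.2 n
      rw [add_zero] at h1
      rw [h1]
      exact Finset.sum_eq_zero fun e he => absurd (hu.1 e he).2 (Nat.not_lt_zero _)
    refine ⟨{(0, 1)}, ?_⟩
    ext n
    simp [h0]
  have hX0 : ∀ p : Projectivization ℂ (Fin (m + 1) → ℂ), p.rep 0 ≠ 0 →
      (fun i => eval p.rep (sF m S i)) ≠ 0 := by
    intro p hp h0
    have h1 : eval p.rep (sF m S 0) = 0 := congrFun h0 0
    have h2 : sF m S 0 = X 0 * X 0 := rfl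
    rw [h2, eval_mul, eval_X] at h1
    exact hp (mul_self_eq_zero.1 h1)
  have key := h m {p | p.rep 0 ≠ 0} ⟨∅, {X 0}, by simp, by
      intro F hF
      rw [Set.mem_singleton_iff.1 hF]
      exact ⟨1, isHomogeneous_X _ _⟩, by
      intro p
      simp⟩ (sΦ m S) (by
      intro p hp
      have h1 := hX0 p hp
      unfold sΦ
      rw [dif_pos h1]
      obtain ⟨a, ha⟩ := Projectivization.exists_smul_eq_mk_rep ℂ _ h1
      change (Projectivization.mk ℂ _ h1).rep 0 ≠ 0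
      rw [← ha, Units.smul_def, Pi.smul_apply, smul_eq_mul]
      refine mul_ne_zero a.ne_zero ?_
      have h2 : sF m S 0 = X 0 * X 0 := rfl
      rw [h2, eval_mul, eval_X]
      exact mul_ne_zero hp hp) (by
      intro p hp
      refine ⟨2, 1, sF m S, X 0, sF_hom m S, isHomogeneous_X _ _, by rw [eval_X]; exact hp, ?_⟩
      intro y hy _
      have h1 := hX0 y hy
      refine ⟨h1, ?_⟩
      unfold sΦ
      rw [dif_pos h1, Projectivization.submodule_mk]
      exact Submodule.mem_span_singleton_self _)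
    (Projectivization.mk ℂ (st m u 0) (st_ne m u 0)) (by
      change (Projectivization.mk ℂ (st m u 0) (st_ne m u 0)).rep 0 ≠ 0
      rw [Ne, rep_iff, st_zero]
      exact one_ne_zero)
    {p | p.rep (Fin.ofNat (m + 1) 1) = 0} ⟨{X (Fin.ofNat (m + 1) 1)}, by
      intro F hF
      rw [Set.mem_singleton_iff.1 hF]
      exact ⟨1, isHomogeneous_X _ _⟩, by
      intro p
      simp⟩
  obtain ⟨T, hT⟩ := key
  refine ⟨T, ?_⟩
  rw [← hT]
  ext n
  change u n = 0 ↔ ((sΦ m S)^[n] _).rep _ = 0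
  rw [sΦ_iter m S u hu, rep_iff]
  have h1 := st_succ m u n 0 hm
  rw [zero_add, add_zero] at h1
  rw [h1]

end shift

/-- **the dynamical Mordell-Lang conjecture and quadratic recurrences** -/
theorem dml_iff : DynamicalMordellLang ↔ QuadraticSML := by
  constructor
  · exact fun h m S u hu => quadratic_of_dml m S u h hu
  · rintro h N X ⟨A, B, hA, hB, hX⟩ Φ hΦ hreg α hα V ⟨C, hC, hV⟩
    obtain ⟨m, S, u, k, C', hu, hk, hr⟩ := return_set ⟨X, A, B, hA, hB, hX, Φ, hΦ, hreg⟩ C hC α hα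
    have h1 : FinAP {n : ℕ | ∀ c ∈ C', n ∈ {n | k * n + c ∈ {n | u n = 0}}} :=
      finAP_of_evPer (evPer_biInter fun c _ => (evPer_of_finAP (h m S u hu)).comp hk c)
    obtain ⟨T, hT⟩ := h1
    refine ⟨T, ?_⟩
    rw [← hT]
    ext n
    exact (hV _).trans (hr n)

/-- **return sets** -/
theorem return_sets (N : ℕ) (X : Set (Projectivization ℂ (Fin (N + 1) → ℂ)))
    (hX : ∃ A B : Set (MvPolynomial (Fin (N + 1)) ℂ),
      (∀ F ∈ A, ∃ d : ℕ, F.IsHomogeneous d) ∧ (∀ F ∈ B, ∃ d : ℕ, F.IsHomogeneous d) ∧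
      ∀ p : Projectivization ℂ (Fin (N + 1) → ℂ), p ∈ X ↔
        ((∀ F ∈ A, MvPolynomial.eval p.rep F = 0) ∧ ∃ F ∈ B, MvPolynomial.eval p.rep F ≠ 0))
    (Φ : Projectivization ℂ (Fin (N + 1) → ℂ) → Projectivization ℂ (Fin (N + 1) → ℂ))
    (hΦ : ∀ x ∈ X, Φ x ∈ X)
    (hreg : ∀ x ∈ X, ∃ (d e : ℕ) (F : Fin (N + 1) → MvPolynomial (Fin (N + 1)) ℂ)
          (g : MvPolynomial (Fin (N + 1)) ℂ),
          (∀ i, (F i).IsHomogeneous d) ∧ g.IsHomogeneous e ∧ MvPolynomial.eval x.rep g ≠ 0 ∧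
          ∀ y ∈ X, MvPolynomial.eval y.rep g ≠ 0 →
            (fun i : Fin (N + 1) => MvPolynomial.eval y.rep (F i)) ≠ 0 ∧
            (fun i : Fin (N + 1) => MvPolynomial.eval y.rep (F i)) ∈ (Φ y).submodule)
    (α : Projectivization ℂ (Fin (N + 1) → ℂ)) (hα : α ∈ X)
    (V : Set (Projectivization ℂ (Fin (N + 1) → ℂ)))
    (hV : ∃ C : Set (MvPolynomial (Fin (N + 1)) ℂ),
          (∀ F ∈ C, ∃ d : ℕ, F.IsHomogeneous d) ∧
          ∀ p : Projectivization ℂ (Fin (N + 1) → ℂ), p ∈ V ↔ ∀ F ∈ C, MvPolynomial.eval p.rep F = 0) :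
    ∃ (m : ℕ) (S : Finset (ℕ × ℕ)) (u : ℕ → ℂ) (k : ℕ) (C : Finset ℕ), IsQuadratic m S u ∧ 0 < k ∧
      {n : ℕ | Φ^[n] α ∈ V} = {n : ℕ | ∀ c ∈ C, u (k * n + c) = 0} := by
  obtain ⟨A, B, hA, hB, hX⟩ := hX
  obtain ⟨C, hC, hV⟩ := hV
  obtain ⟨m, S, u, k, C', hu, hk, hr⟩ := return_set ⟨X, A, B, hA, hB, hX, Φ, hΦ, hreg⟩ C hC α hα
  refine ⟨m, S, u, k, C', hu, hk, ?_⟩
  ext n
  exact (hV _).trans (hr n)

end Pool.Agent.R948.QR
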