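import Pool.Agent.R948.Def

/-!
# Products with a torus
-/

set_option autoImplicit false
set_option linter.unusedSectionVars false
set_option linter.style.haveILetI false

namespace Pool.Agent.R948

open MvPolynomial

section

variable {F : Type} [Field F] {ι κ : Type} [Fintype ι] [Fintype κ] {K L : Type} [Field K]
  [Field L] [Algebra F K] [Algebra F L]

theorem mon_comp_equiv (e : κ ≃ ι) (z : ι → Kˣ) (b : ι → ℤ) : mon (z ∘ e) (b ∘ e) = mon z b := by
  rw [mon, mon]
  exact Equiv.prod_comp e (fun i => z i ^ b i)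

theorem dr_comp_equiv_le (e : κ ≃ ι) (z : ι → Kˣ) : dr z ≤ dr (z ∘ e) := by
  let g : rel z →ₗ[ℚ] rel (z ∘ e) :=
    { toFun := fun a => ⟨a.1 ∘ e, by
        obtain ⟨N, hN, b, hb, h⟩ := a.2
        exact ⟨N, hN, b ∘ e, fun i => hb (e i), by rw [mon_comp_equiv, h]⟩⟩
      map_add' := fun a b => rfl
      map_smul' := fun a b => rfl }
  have hg : Function.Injective g := by
    rw [injective_iff_map_eq_zero]
    intro a ha
    have h1 : (a.1 ∘ e : κ → ℚ) = 0 := congrArg Subtype.val ha
    apply Subtype.ext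
    funext i
    have h2 := congrFun h1 (e.symm i)
    simpa using h2
  exact LinearMap.finrank_le_finrank_of_injective hg

theorem df_comp_equiv (e : κ ≃ ι) (z : ι → Kˣ) : df F (z ∘ e) = df F z := by
  have h1 : dr (z ∘ e) = dr z := by
    refine le_antisymm ?_ (dr_comp_equiv_le e z)
    have h := dr_comp_equiv_le e.symm (z ∘ e)
    have h2 : (z ∘ e) ∘ e.symm = z := by
      funext i
      simp
    rwa [h2] at h
  have h2 : td F (un (z ∘ e)) = td F (un z) := by
    have h3 : Set.range (un (z ∘ e)) = Set.range (un z) := by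
      have h4 : un (z ∘ e) = un z ∘ e := rfl
      rw [h4, e.surjective.range_comp]
    rw [td, td, h3]
  rw [df, df, h1, h2, Fintype.card_congr e]

theorem df_sum_comm (b : κ → Kˣ) (y : ι → Kˣ) : df F (Sum.elim b y) = df F (Sum.elim y b) := by
  rw [← df_comp_equiv (Equiv.sumComm κ ι) (Sum.elim y b)]
  congr 1
  funext k
  rcases k with j | i <;> rfl

theorem df_le_sum' (b : κ → Kˣ) (y : ι → Kˣ) : df F y ≤ df F (Sum.elim b y) := by
  rw [df_sum_comm]
  exact df_le_sum y b

theorem card_le_td {A : Type} [CommRing A] [IsDomain A] [Algebra F A] {z : ι → A}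
    (h : AlgebraicIndependent F z) : Fintype.card ι ≤ td F z := by
  have h1 := le_td F (z := z) (S := Finset.univ) (h.comp Subtype.val Subtype.val_injective)
  rwa [Finset.card_univ] at h1

theorem alg_of_range {A : Type} [CommRing A] [IsDomain A] [Algebra F A] (z : ι → A) (i : ι) :
    IsAlgebraic (Algebra.adjoin F (Set.range z)) (z i) :=
  isAlgebraic_algebraMap (A := A)
    (⟨_, Algebra.subset_adjoin (Set.mem_range_self i)⟩ : Algebra.adjoin F (Set.range z))

/-- evaluation in the polynomial ring over the coordinate ring -/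
noncomputable def shEv (ι : Type) (I : Ideal (MvPolynomial κ F)) :
    MvPolynomial (κ ⊕ ι) F →ₐ[F] MvPolynomial ι (MvPolynomial κ F ⧸ I) :=
  aeval (Sum.elim (fun j => C (cp I j)) X)

/-- the ideal of the product of a closed subset with a torus -/
noncomputable def shI (ι : Type) (I : Ideal (MvPolynomial κ F)) :
    Ideal (MvPolynomial (κ ⊕ ι) F) := RingHom.ker (shEv ι I)

instance shI_prime (I : Ideal (MvPolynomial κ F)) [I.IsPrime] : (shI ι I).IsPrime :=
  RingHom.ker_isPrime _

/-- the product with a torus -/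
noncomputable def sharp (ι : Type) (P : TP F κ) : TP F (κ ⊕ ι) where
  I := shI ι P.I
  prime := inferInstance
  tor := by
    intro k hk
    rw [shI, RingHom.mem_ker, shEv, aeval_X] at hk
    rcases k with j | i
    · rw [Sum.elim_inl, map_eq_zero_iff _ (C_injective _ _)] at hk
      have h : cp P.I j = Ideal.Quotient.mk P.I (X j) := rfl
      rw [h, Ideal.Quotient.eq_zero_iff_mem] at hk
      exact P.tor j hk
    · exact X_ne_zero i hk

theorem shEv_rename_inl (P : TP F κ) (f : MvPolynomial κ F) :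
    shEv ι P.I (rename Sum.inl f) = C (Ideal.Quotient.mk P.I f) := by
  rw [shEv, aeval_rename, ← aeval_cp]
  have h : (Sum.elim (fun j => C (cp P.I j)) X : κ ⊕ ι → MvPolynomial ι (MvPolynomial κ F ⧸ P.I)) ∘
      Sum.inl = fun j => algebraMap (MvPolynomial κ F ⧸ P.I) _ (cp P.I j) := rfl
  rw [h]
  exact aeval_algebraMap_apply _ _ _

theorem rename_inl_mem_sharp (P : TP F κ) (f : MvPolynomial κ F) :
    rename Sum.inl f ∈ (sharp ι P).I ↔ f ∈ P.I := by
  rw [← Ideal.Quotient.eq_zero_iff_mem (I := P.I)]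
  change shEv ι P.I (rename Sum.inl f) = 0 ↔ _
  rw [shEv_rename_inl, map_eq_zero_iff _ (C_injective _ _)]

/-- points of the product -/
theorem sharp_le (P : TP F κ) (b : κ → Kˣ) (y : ι → Kˣ) (h : ∀ f ∈ P.I, aeval (un b) f = 0)
    (f : MvPolynomial (κ ⊕ ι) F) (hf : f ∈ (sharp ι P).I) :
    aeval (un (Sum.elim b y)) f = 0 := by
  let φ : (MvPolynomial κ F ⧸ P.I) →ₐ[F] K := Ideal.Quotient.liftₐ P.I (aeval (un b)) h
  letI : Algebra (MvPolynomial κ F ⧸ P.I) K := φ.toRingHom.toAlgebra
  haveI : IsScalarTower F (MvPolynomial κ F ⧸ P.I) K :=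
    IsScalarTower.of_algebraMap_eq fun x => (φ.commutes x).symm
  let ψ : MvPolynomial ι (MvPolynomial κ F ⧸ P.I) →ₐ[MvPolynomial κ F ⧸ P.I] K := aeval (un y)
  have h1 : ((ψ.restrictScalars F).comp (shEv ι P.I)) = aeval (un (Sum.elim b y)) := by
    ext k
    rcases k with j | i
    · simp only [AlgHom.comp_apply, shEv, aeval_X, Sum.elim_inl, AlgHom.restrictScalars_apply, ψ]
      rw [aeval_C]
      have h2 : φ (Ideal.Quotient.mk P.I (X j)) = aeval (un b) (X j) := rfl
      rw [aeval_X] at h2
      exact h2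
    · simp [shEv, ψ, un]
  have h2 : shEv ι P.I f = 0 := hf
  rw [← h1, AlgHom.comp_apply, h2, map_zero]

/-- the dimension of the product -/
theorem le_td_sharp (P : TP F κ) : tdP P.I + Fintype.card ι ≤ td F (un (sharp ι P).pt) := by
  classical
  obtain ⟨S, hS, hind, -⟩ := exists_td F (cp P.I)
  have hX : AlgebraicIndependent (MvPolynomial κ F ⧸ P.I)
      (X : ι → MvPolynomial ι (MvPolynomial κ F ⧸ P.I)) :=
    MvPolynomial.algebraicIndependent_X _ _
  have h1 := hind.sumElim_comp hX
  -- the point of the product in the polynomial ring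
  have h2 : td F (Sum.elim X (algebraMap (MvPolynomial κ F ⧸ P.I)
      (MvPolynomial ι (MvPolynomial κ F ⧸ P.I)) ∘ fun i : S => cp P.I i)) ≤
      td F (Sum.elim (fun j => C (cp P.I j)) X :
        κ ⊕ ι → MvPolynomial ι (MvPolynomial κ F ⧸ P.I)) := by
    refine td_le_of_alg F fun k => ?_
    rcases k with i | j
    · exact alg_of_range (F := F) (Sum.elim (fun j => C (cp P.I j)) X :
        κ ⊕ ι → MvPolynomial ι (MvPolynomial κ F ⧸ P.I)) (Sum.inr i)
    · exact alg_of_range (F := F) (Sum.elim (fun j => C (cp P.I j)) X :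
        κ ⊕ ι → MvPolynomial ι (MvPolynomial κ F ⧸ P.I)) (Sum.inl j.1)
  have h3 := card_le_td h1
  rw [Fintype.card_sum, Fintype.card_coe, hS] at h3
  have h4 : td F (Sum.elim (fun j => C (cp P.I j)) X :
        κ ⊕ ι → MvPolynomial ι (MvPolynomial κ F ⧸ P.I)) ≤ td F (un (sharp ι P).pt) := by
    refine td_le_of_ker F fun f hf => ?_
    rw [TP.aeval_pt_eq_zero] at hf
    exact hf
  rw [tdP]
  omega

/-- the defect of the product -/
theorem df_sharp_le (P : TP F κ) : (sharp ι P).df ≤ P.df := by
  have h1 : dr P.pt ≤ dr (sharp ι P).pt := by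
    have h2 : (sharp ι P).pt = Sum.elim (fun j => (sharp ι P).pt (Sum.inl j))
        (fun i => (sharp ι P).pt (Sum.inr i)) := by
      funext k
      rcases k with j | i <;> rfl
    have h3 : Spec F P.pt (fun j => (sharp ι P).pt (Sum.inl j)) := by
      intro f hf
      rw [TP.aeval_pt_eq_zero, ← rename_inl_mem_sharp (ι := ι), ← TP.aeval_pt_eq_zero,
        aeval_rename] at hf
      exact hf
    rw [h2, dr_sum]
    exact h3.dr_le.trans (Nat.le_add_right _ _)
  have h2 := le_td_sharp (ι := ι) P
  rw [TP.df, TP.df, df, df, TP.td_pt P, Fintype.card_sum]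
  omega

end

end Pool.Agent.R948
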