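import Pool.Agent.R948.Sz1

/-!
# Families of abc triples to which the abc conjecture can be reduced
-/

set_option autoImplicit false

namespace Pool.Agent.R948.Sp

open Finset Pool.Agent.R948.Sz

/-- the abc conjecture for the triples in `S` -/
def AbcFor (S : ℕ → ℕ → ℕ → Prop) : Prop := ∀ ε : ℝ, 0 < ε → ∃ K : ℝ, 0 < K ∧
  ∀ a b c : ℕ, 0 < a → 0 < b → a + b = c → Nat.Coprime a b → S a b c →
    (c : ℝ) ≤ K * (rad (a * b * c) : ℝ) ^ (1 + ε)

/-- the members of the triple are `α x ^ p`, `β y ^ q`, `γ z ^ r` in some order -/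
def Members (α p β q γ r : ℕ) (a b c : ℕ) : Prop :=
  ∃ x y z : ℕ, ({a, b, c} : Multiset ℕ) = {α * x ^ p, β * y ^ q, γ * z ^ r}

lemma rad_le_of {N M w : ℕ} (hM : M ≠ 0) (hw : w ≠ 0)
    (h : ∀ p : ℕ, p.Prime → p ∣ N → p ∣ M * w) : rad N ≤ rad M * w := by
  unfold rad
  have hsub : N.primeFactors ⊆ M.primeFactors ∪ w.primeFactors := by
    intro p hp
    obtain ⟨h1, h2, -⟩ := Nat.mem_primeFactors.mp hp
    rcases (h1.dvd_mul).mp (h p h1 h2) with h3 | h3
    · exact mem_union_left _ (Nat.mem_primeFactors.mpr ⟨h1, h3, hM⟩)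
    · exact mem_union_right _ (Nat.mem_primeFactors.mpr ⟨h1, h3, hw⟩)
  have hone : ∀ {s t : Finset ℕ}, s ⊆ t → (∀ p ∈ t, 1 ≤ p) → ∏ p ∈ s, p ≤ ∏ p ∈ t, p :=
    fun hst ht => prod_le_prod_of_subset_of_one_le' hst fun p hp _ => ht p hp
  have hp1 : ∀ p ∈ M.primeFactors ∪ w.primeFactors, 1 ≤ p := by
    intro p hp
    rcases mem_union.mp hp with hp | hp <;> exact (Nat.prime_of_mem_primeFactors hp).one_le
  calc ∏ p ∈ N.primeFactors, p ≤ ∏ p ∈ M.primeFactors ∪ w.primeFactors, p := hone hsub hp1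
    _ ≤ (∏ p ∈ M.primeFactors ∪ w.primeFactors, p) * ∏ p ∈ M.primeFactors ∩ w.primeFactors, p := by
        refine Nat.le_mul_of_pos_right _ (prod_pos fun p hp => ?_)
        exact (Nat.prime_of_mem_primeFactors (mem_inter.mp hp).1).pos
    _ = (∏ p ∈ M.primeFactors, p) * ∏ p ∈ w.primeFactors, p := prod_union_inter
    _ ≤ (∏ p ∈ M.primeFactors, p) * w :=
        Nat.mul_le_mul_left _ (Nat.le_of_dvd (Nat.pos_of_ne_zero hw)
          (Nat.prod_primeFactors_dvd w))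

/-- the same with integers -/
lemma rad_le_int {N : ℕ} {g w : ℤ} (hg : g ≠ 0) (hw : w ≠ 0)
    (h : ∀ p : ℕ, p.Prime → p ∣ N → (p : ℤ) ∣ g * w) : rad N ≤ rad g.natAbs * w.natAbs := by
  refine rad_le_of (Int.natAbs_ne_zero.mpr hg) (Int.natAbs_ne_zero.mpr hw) fun p hp hN => ?_
  rw [← Int.natAbs_mul]
  exact Int.natCast_dvd.mp (h p hp hN)

/-- **The criterion.** If every triple `(a, b, c)` gives rise to a triple `(A, B, C)` in `S` with
`C ≫ c ^ n` and `rad (A B C) ≪ rad (a b c) c ^ (n - 1)`, then the abc conjecture for `S` implies the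
abc conjecture. -/
theorem univ {S : ℕ → ℕ → ℕ → Prop} (n K0 : ℕ) (hn : 1 ≤ n) (hK : 1 ≤ K0)
    (h : ∀ a b c : ℕ, 0 < a → 0 < b → a + b = c → Nat.Coprime a b → c ≤ K0 ∨
      ∃ A B C : ℕ, 0 < A ∧ 0 < B ∧ A + B = C ∧ Nat.Coprime A B ∧ S A B C ∧ c ^ n ≤ K0 * C ∧
        rad (A * B * C) ≤ K0 * rad (a * b * c) * c ^ (n - 1)) (hS : AbcFor S) : ABC := by
  intro ε hε
  set w : ℝ := (n : ℝ) - 1 with hw
  have hnR : (1 : ℝ) ≤ n := by exact_mod_cast hn
  have hw0 : 0 ≤ w := by linarith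
  obtain ⟨δ, hδ⟩ : ∃ δ : ℝ, δ = ε / (1 + (1 + ε) * w) := ⟨_, rfl⟩
  have hden : 0 < 1 + (1 + ε) * w := by positivity
  have hδ0 : 0 < δ := by rw [hδ]; positivity
  obtain ⟨K, hK0, habc⟩ := hS δ hδ0
  set θ : ℝ := 1 - w * δ with hθ
  have hθe : θ * (1 + ε) = 1 + δ := by
    have : δ * (1 + (1 + ε) * w) = ε := by rw [hδ]; field_simp
    rw [hθ]
    linear_combination -this
  have hθ0 : 0 < θ := by
    by_contra hcon
    push Not at hcon
    have : θ * (1 + ε) ≤ 0 := mul_nonpos_of_nonpos_of_nonneg hcon (by linarith)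
    rw [hθe] at this
    linarith
  have hKR : (1 : ℝ) ≤ K0 := by exact_mod_cast hK
  have hKR0 : (0 : ℝ) < K0 := by linarith
  set C' : ℝ := K0 * (K * (K0 : ℝ) ^ (1 + δ)) with hC'
  have hC'0 : 0 < C' := by positivity
  refine ⟨C' ^ (1 / θ) + K0, by positivity, ?_⟩
  intro a b c ha hb habc' hcop
  have hr1 : (1 : ℝ) ≤ rad (a * b * c) := by exact_mod_cast rad_pos _
  have hr0 : (0 : ℝ) < rad (a * b * c) := by linarith
  have hrε : (1 : ℝ) ≤ (rad (a * b * c) : ℝ) ^ (1 + ε) := Real.one_le_rpow hr1 (by linarith)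
  have hc0 : (0 : ℝ) < c := by
    have : 0 < c := by omega
    exact_mod_cast this
  rcases h a b c ha hb habc' hcop with hsm | ⟨A, B, C, hA, hB, hABC, hco, hSm, hsz, hrd⟩
  · calc (c : ℝ) ≤ K0 := by exact_mod_cast hsm
      _ ≤ C' ^ (1 / θ) + K0 := by
          have : 0 ≤ C' ^ (1 / θ) := by positivity
          linarith
      _ ≤ _ := le_mul_of_one_le_right (by positivity) hrε
  · have h1 := habc A B C hA hB hABC hco hSm
    have hsz' : (c : ℝ) ^ (n : ℝ) ≤ K0 * C := by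
      rw [Real.rpow_natCast]
      exact_mod_cast hsz
    have hrd' : (rad (A * B * C) : ℝ) ≤ K0 * rad (a * b * c) * (c : ℝ) ^ w := by
      have e1 : (c : ℝ) ^ w = (c : ℝ) ^ (n - 1) := by
        rw [← Real.rpow_natCast]
        congr 1
        rw [hw, Nat.cast_sub hn]
        push_cast
        ring
      rw [e1]
      exact_mod_cast hrd
    have hrA : (0 : ℝ) ≤ rad (A * B * C) := Nat.cast_nonneg _
    have key : (c : ℝ) ^ (n : ℝ) ≤ C' * (rad (a * b * c) : ℝ) ^ (1 + δ) *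
        (c : ℝ) ^ (w * (1 + δ)) := by
      calc (c : ℝ) ^ (n : ℝ) ≤ K0 * C := hsz'
        _ ≤ K0 * (K * (rad (A * B * C) : ℝ) ^ (1 + δ)) := by gcongr
        _ ≤ K0 * (K * (K0 * rad (a * b * c) * (c : ℝ) ^ w) ^ (1 + δ)) := by
            gcongr
        _ = _ := by
            rw [Real.mul_rpow (by positivity) (by positivity),
              Real.mul_rpow (by positivity) hr0.le, ← Real.rpow_mul hc0.le, hC']
            ring
    have key2 : (c : ℝ) ^ θ ≤ C' * (rad (a * b * c) : ℝ) ^ (1 + δ) := by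
      have e1 : (c : ℝ) ^ θ * (c : ℝ) ^ (w * (1 + δ)) = (c : ℝ) ^ (n : ℝ) := by
        rw [← Real.rpow_add hc0]
        congr 1
        rw [hθ, hw]
        ring
      have e2 : 0 < (c : ℝ) ^ (w * (1 + δ)) := Real.rpow_pos_of_pos hc0 _
      refine le_of_mul_le_mul_right ?_ e2
      rw [e1]
      exact key
    have e1 : (c : ℝ) = ((c : ℝ) ^ θ) ^ (1 / θ) := by
      rw [← Real.rpow_mul hc0.le, mul_one_div_cancel hθ0.ne', Real.rpow_one]
    calc (c : ℝ) = ((c : ℝ) ^ θ) ^ (1 / θ) := e1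
      _ ≤ (C' * (rad (a * b * c) : ℝ) ^ (1 + δ)) ^ (1 / θ) :=
          Real.rpow_le_rpow (by positivity) key2 (by positivity)
      _ = C' ^ (1 / θ) * (rad (a * b * c) : ℝ) ^ (1 + ε) := by
          rw [Real.mul_rpow hC'0.le (by positivity), ← Real.rpow_mul hr0.le]
          congr 2
          rw [← hθe]
          field_simp
      _ ≤ (C' ^ (1 / θ) + K0) * (rad (a * b * c) : ℝ) ^ (1 + ε) := by
          refine mul_le_mul_of_nonneg_right ?_ (by positivity)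
          linarith

lemma abc_for {S : ℕ → ℕ → ℕ → Prop} (h : ABC) : AbcFor S := by
  intro ε hε
  obtain ⟨K, hK, h1⟩ := h ε hε
  exact ⟨K, hK, fun a b c ha hb hc hco _ => h1 a b c ha hb hc hco⟩

/-- a triple from a relation between integers -/
lemma trip {P Q R : ℤ} (hP : P ≠ 0) (hQ : Q ≠ 0) (hR : R ≠ 0) (hs : P + Q = R)
    (hc : IsCoprime P Q) : ∃ A B C : ℕ, 0 < A ∧ 0 < B ∧ A + B = C ∧ Nat.Coprime A B ∧
      ({A, B, C} : Multiset ℕ) = {P.natAbs, Q.natAbs, R.natAbs} ∧ P.natAbs ≤ C ∧ Q.natAbs ≤ C ∧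
      R.natAbs ≤ C ∧ A * B * C = P.natAbs * Q.natAbs * R.natAbs := by
  have hP' : 0 < P.natAbs := Int.natAbs_pos.mpr hP
  have hQ' : 0 < Q.natAbs := Int.natAbs_pos.mpr hQ
  have hR' : 0 < R.natAbs := Int.natAbs_pos.mpr hR
  have hcN : Nat.Coprime P.natAbs Q.natAbs := Int.isCoprime_iff_nat_coprime.mp hc
  have hcase : P.natAbs + Q.natAbs = R.natAbs ∨ P.natAbs + R.natAbs = Q.natAbs ∨
      Q.natAbs + R.natAbs = P.natAbs := by omega
  rcases hcase with h | h | h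
  · exact ⟨_, _, _, hP', hQ', h, hcN, rfl, by omega, by omega, le_rfl, rfl⟩
  · refine ⟨P.natAbs, R.natAbs, Q.natAbs, hP', hR', h, ?_, ?_, by omega, by omega, by omega, by ring⟩
    · rw [← h, Nat.coprime_self_add_right] at hcN
      exact hcN
    · exact congrArg (fun s => P.natAbs ::ₘ s) (Multiset.pair_comm _ _)
  · refine ⟨Q.natAbs, R.natAbs, P.natAbs, hQ', hR', h, ?_, ?_, by omega, by omega, by omega, by ring⟩
    · rw [← h, Nat.coprime_self_add_left] at hcN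
      exact hcN.symm
    · have e1 : ({Q.natAbs, R.natAbs, P.natAbs} : Multiset ℕ) =
          {Q.natAbs, P.natAbs, R.natAbs} :=
        congrArg (fun s => Q.natAbs ::ₘ s) (Multiset.pair_comm _ _)
      rw [e1]
      exact Multiset.cons_swap _ _ _

/-- `(u, v)` and `-(u + v)` are the members of the triple, up to sign and order -/
def Arr (a b c : ℕ) (u v : ℤ) : Prop :=
  IsCoprime u v ∧ (u * v * (u + v)).natAbs = a * b * c ∧ |u| ≤ c ∧ |v| ≤ c ∧
    (c : ℤ) ≤ 2 * max |u| |v|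

lemma arr1 {a b c : ℕ} (h : a + b = c) (hc : Nat.Coprime a b) : Arr a b c a b := by
  have h' : (a : ℤ) + b = c := by exact_mod_cast h
  refine ⟨Nat.isCoprime_iff_coprime.mpr hc, ?_, ?_, ?_, ?_⟩
  · rw [h']
    rw [show (a : ℤ) * b * c = ((a * b * c : ℕ) : ℤ) by push_cast; ring, Int.natAbs_natCast]
  · rw [Nat.abs_cast]; omega
  · rw [Nat.abs_cast]; omega
  · rw [Nat.abs_cast, Nat.abs_cast]; omega

lemma arr2 {a b c : ℕ} (h : a + b = c) (hc : Nat.Coprime a b) : Arr a b c a (-c) := by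
  have h' : (a : ℤ) + b = c := by exact_mod_cast h
  refine ⟨?_, ?_, ?_, ?_, ?_⟩
  · rw [← h']
    have : IsCoprime (a : ℤ) (b : ℤ) := Nat.isCoprime_iff_coprime.mpr hc
    rw [IsCoprime.neg_right_iff]
    obtain ⟨s, t, hst⟩ := this
    exact ⟨s - t, t, by linear_combination hst⟩
  · have : (a : ℤ) * (-c) * (a + -c) = ((a * b * c : ℕ) : ℤ) := by
      push_cast
      rw [← h']
      ring
    rw [this, Int.natAbs_natCast]
  · rw [Nat.abs_cast]; omega
  · rw [abs_neg, Nat.abs_cast]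
  · rw [abs_neg, Nat.abs_cast, Nat.abs_cast]; omega

lemma Arr.swap {a b c : ℕ} {u v : ℤ} (h : Arr a b c u v) : Arr a b c v u := by
  obtain ⟨h1, h2, h3, h4, h5⟩ := h
  refine ⟨h1.symm, ?_, h4, h3, by rwa [max_comm]⟩
  rw [← h2]
  congr 1
  ring

lemma Arr.comm {a b c : ℕ} {u v : ℤ} (h : Arr b a c u v) : Arr a b c u v := by
  obtain ⟨h1, h2, h3, h4, h5⟩ := h
  exact ⟨h1, by rw [h2]; ring, h3, h4, h5⟩

/-- the criterion, for relations between integers -/
theorem univZ {α p β q γ r : ℕ} (n K0 : ℕ) (hn : 1 ≤ n) (hK : 1 ≤ K0)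
    (h : ∀ a b c : ℕ, 0 < a → 0 < b → a + b = c → Nat.Coprime a b → c ≤ K0 ∨
      ∃ P Q R u v w : ℤ, P ≠ 0 ∧ Q ≠ 0 ∧ R ≠ 0 ∧ P + Q = R ∧ IsCoprime P Q ∧
        (∃ x y z : ℕ, P.natAbs = α * x ^ p ∧ Q.natAbs = β * y ^ q ∧ R.natAbs = γ * z ^ r) ∧
        Arr a b c u v ∧ u * v * (u + v) ≠ 0 ∧
        (∀ l : ℕ, l.Prime → (l : ℤ) ∣ P * Q * R → (l : ℤ) ∣ u * v * (u + v) * w) ∧
        w ≠ 0 ∧ |w| ≤ K0 * (c : ℤ) ^ (n - 1) ∧
        (c : ℤ) ^ n ≤ K0 * max (max |P| |Q|) |R|) :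
    ABC ↔ AbcFor (Members α p β q γ r) := by
  refine ⟨abc_for, univ n K0 hn hK fun a b c ha hb hs hc => ?_⟩
  rcases h a b c ha hb hs hc with h1 | ⟨P, Q, R, u, v, w, hP, hQ, hR, hPQ, hco, ⟨x, y, z, hx, hy,
    hz⟩, harr, huv, hdiv, hw0, hw, hsize⟩
  · exact Or.inl h1
  · right
    obtain ⟨A, B, C, hA, hB, hABC, hcop, hms, l1, l2, l3, hprod⟩ := trip hP hQ hR hPQ hco
    refine ⟨A, B, C, hA, hB, hABC, hcop, ⟨x, y, z, by rw [hms, hx, hy, hz]⟩, ?_, ?_⟩
    · have : max (max |P| |Q|) |R| ≤ (C : ℤ) := by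
        refine max_le (max_le ?_ ?_) ?_
        · rw [Int.abs_eq_natAbs]; exact_mod_cast l1
        · rw [Int.abs_eq_natAbs]; exact_mod_cast l2
        · rw [Int.abs_eq_natAbs]; exact_mod_cast l3
      have h2 : (c : ℤ) ^ n ≤ K0 * (C : ℤ) :=
        hsize.trans (mul_le_mul_of_nonneg_left this (by positivity))
      exact_mod_cast h2
    · have h3 : rad (A * B * C) ≤ rad (u * v * (u + v)).natAbs * w.natAbs := by
        refine rad_le_int huv hw0 fun l hl hd => hdiv l hl ?_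
        rw [hprod, ← Int.natAbs_mul, ← Int.natAbs_mul] at hd
        exact Int.natCast_dvd.mpr hd
      rw [harr.2.1] at h3
      have h4 : w.natAbs ≤ K0 * c ^ (n - 1) := by
        have : ((w.natAbs : ℕ) : ℤ) ≤ K0 * (c : ℤ) ^ (n - 1) := by
          rw [Int.natCast_natAbs]; exact hw
        exact_mod_cast this
      calc rad (A * B * C) ≤ rad (a * b * c) * w.natAbs := h3
        _ ≤ rad (a * b * c) * (K0 * c ^ (n - 1)) := Nat.mul_le_mul_left _ h4
        _ = _ := by ring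

end Pool.Agent.R948.Sp
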