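import Pool.Agent.R948.Sp1

/-!
# The signatures `(1, q, r)`, `(2, 2, n)`, `(2, 3, 3)`, `(2, 3, 4)`
-/

set_option autoImplicit false

namespace Pool.Agent.R948.Sp

open Finset Pool.Agent.R948.Sz

lemma cop_primes {P Q : ℤ} (h : ∀ l : ℕ, l.Prime → (l : ℤ) ∣ P → (l : ℤ) ∣ Q → False) :
    IsCoprime P Q := by
  rw [Int.isCoprime_iff_nat_coprime]
  refine Nat.coprime_of_dvd fun l hl h1 h2 => ?_
  exact h l hl (Int.natCast_dvd.mpr h1) (Int.natCast_dvd.mpr h2)

lemma not_both {u v : ℤ} (h : IsCoprime u v) {l : ℕ} (hl : l.Prime) (h1 : (l : ℤ) ∣ u)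
    (h2 : (l : ℤ) ∣ v) : False := by
  have h3 := h.isUnit_of_dvd' h1 h2
  rw [Int.isUnit_iff] at h3
  have := hl.two_le
  omega

lemma arr_ne {a b c : ℕ} {u v : ℤ} (ha : 0 < a) (hb : 0 < b) (hc : a + b = c)
    (h : Arr a b c u v) : u * v * (u + v) ≠ 0 := by
  intro h0
  have h1 := h.2.1
  rw [h0, Int.natAbs_zero] at h1
  have : 0 < a * b * c := by
    have : 0 < c := by omega
    positivity
  omega

lemma par {a b : ℕ} (hc : Nat.Coprime a b) : a % 2 = 1 ∨ b % 2 = 1 := by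
  by_contra h
  push Not at h
  have h1 : 2 ∣ a := by omega
  have h2 : 2 ∣ b := by omega
  exact Nat.not_coprime_of_dvd_of_dvd (by norm_num) h1 h2 hc

lemma thr {a b : ℕ} (hc : Nat.Coprime a b) : ¬ 3 ∣ a ∨ ¬ 3 ∣ b := by
  by_contra h
  push Not at h
  exact Nat.not_coprime_of_dvd_of_dvd (by norm_num) h.1 h.2 hc

/-- an arrangement with `u + v` odd -/
lemma arr_odd {a b c : ℕ} (hs : a + b = c) (hc : Nat.Coprime a b) :
    ∃ u v : ℤ, Arr a b c u v ∧ (u + v) % 2 = 1 := by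
  have hp := par hc
  by_cases h : c % 2 = 1
  · exact ⟨a, b, arr1 hs hc, by omega⟩
  · exact ⟨a, -c, arr2 hs hc, by omega⟩

/-- an arrangement with `u`, `v` odd -/
lemma arr_oo {a b c : ℕ} (hs : a + b = c) (hc : Nat.Coprime a b) :
    ∃ u v : ℤ, Arr a b c u v ∧ u % 2 = 1 ∧ v % 2 = 1 := by
  have hp := par hc
  by_cases h : c % 2 = 1
  · by_cases ha : a % 2 = 1
    · exact ⟨a, -c, arr2 hs hc, by omega, by omega⟩
    · exact ⟨b, -c, (arr2 (by omega) hc.symm).comm, by omega, by omega⟩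
  · exact ⟨a, b, arr1 hs hc, by omega, by omega⟩

/-- an arrangement with `u` odd and `u + v` not divisible by three -/
lemma arr_33 {a b c : ℕ} (hs : a + b = c) (hc : Nat.Coprime a b) :
    ∃ u v : ℤ, Arr a b c u v ∧ u % 2 = 1 ∧ (u + v) % 3 ≠ 0 := by
  have hp := par hc
  have ht := thr hc
  by_cases ha : a % 2 = 1
  · by_cases h3 : c % 3 = 0
    · exact ⟨a, -c, arr2 hs hc, by omega, by omega⟩
    · exact ⟨a, b, arr1 hs hc, by omega, by omega⟩
  · have hb : b % 2 = 1 := by omega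
    by_cases h3 : c % 3 = 0
    · exact ⟨b, -c, (arr2 (by omega) hc.symm).comm, by omega, by omega⟩
    · exact ⟨b, a, (arr1 (by omega) hc.symm).comm, by omega, by omega⟩

lemma geom_bound {x y : ℤ} {M : ℤ} (hx : |x| ≤ M) (hy : |y| ≤ M) (m : ℕ) :
    |∑ i ∈ range m, x ^ i * y ^ (m - 1 - i)| ≤ m * M ^ (m - 1) := by
  have hM : 0 ≤ M := (abs_nonneg x).trans hx
  calc |∑ i ∈ range m, x ^ i * y ^ (m - 1 - i)| ≤ ∑ i ∈ range m, |x ^ i * y ^ (m - 1 - i)| :=
        abs_sum_le_sum_abs _ _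
    _ ≤ ∑ _i ∈ range m, M ^ (m - 1) := by
        refine sum_le_sum fun i hi => ?_
        rw [mem_range] at hi
        rw [abs_mul, abs_pow, abs_pow]
        calc |x| ^ i * |y| ^ (m - 1 - i) ≤ M ^ i * M ^ (m - 1 - i) := by
              gcongr
          _ = M ^ (m - 1) := by
              rw [← pow_add]
              congr 1
              omega
    _ = m * M ^ (m - 1) := by rw [sum_const, card_range, nsmul_eq_mul]

/-- triples two members of which are perfect powers -/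
theorem case1 (q r : ℕ) (hq : 1 ≤ q) (hr : 1 ≤ r) : ABC ↔ AbcFor (Members 1 1 1 q 1 r) := by
  have hm : 1 ≤ q * r := Nat.mul_pos hq hr
  refine univZ (q * r) (q * r) hm hm fun a b c ha hb hs hc => Or.inr ?_
  have hs' : (a : ℤ) + b = c := by exact_mod_cast hs
  have haZ : (0 : ℤ) < a := by exact_mod_cast ha
  have hbZ : (0 : ℤ) < b := by exact_mod_cast hb
  have hcZ : (0 : ℤ) < c := by omega
  have hlt : (a : ℤ) ^ (q * r) < (c : ℤ) ^ (q * r) :=
    pow_lt_pow_left₀ (by omega) haZ.le (by omega)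
  have harr := arr2 hs hc
  obtain ⟨w, hw⟩ : ∃ w : ℤ, w = ∑ i ∈ range (q * r), (c : ℤ) ^ i * (a : ℤ) ^ (q * r - 1 - i) :=
    ⟨_, rfl⟩
  have hgeo : w * ((c : ℤ) - a) = (c : ℤ) ^ (q * r) - (a : ℤ) ^ (q * r) := by
    rw [hw]
    exact (Commute.all (c : ℤ) (a : ℤ)).geom_sum₂_mul _
  have hcop : IsCoprime (a : ℤ) (c : ℤ) := by
    have := harr.1
    rwa [IsCoprime.neg_right_iff] at this
  refine ⟨(c : ℤ) ^ (q * r) - (a : ℤ) ^ (q * r), (a : ℤ) ^ (q * r), (c : ℤ) ^ (q * r), a, -c, w,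
    by omega, (pow_pos haZ _).ne', (pow_pos hcZ _).ne', by ring, ?_, ?_, harr,
    arr_ne ha hb hs harr, ?_, ?_, ?_, ?_⟩
  · have h1 : IsCoprime ((c : ℤ) ^ (q * r)) ((a : ℤ) ^ (q * r)) := (hcop.symm).pow
    have h2 : (c : ℤ) ^ (q * r) - (a : ℤ) ^ (q * r) =
        (c : ℤ) ^ (q * r) + (a : ℤ) ^ (q * r) * (-1) := by ring
    rw [h2]
    exact IsCoprime.add_mul_left_left h1 (-1)
  · refine ⟨((c : ℤ) ^ (q * r) - (a : ℤ) ^ (q * r)).natAbs, a ^ r, c ^ q, by ring, ?_, ?_⟩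
    · rw [Int.natAbs_pow, Int.natAbs_natCast, one_mul, ← pow_mul]
      congr 1
      ring
    · rw [Int.natAbs_pow, Int.natAbs_natCast, one_mul, ← pow_mul]
  · intro l hl hd
    have hlZ := Nat.prime_iff_prime_int.mp hl
    rcases hlZ.dvd_or_dvd hd with hd | hd
    · rcases hlZ.dvd_or_dvd hd with hd | hd
      · rw [← hgeo] at hd
        have e : (a : ℤ) * -c * (a + -c) * w = (a * c) * (w * (c - a)) := by ring
        rw [e]
        exact Dvd.dvd.mul_left hd _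
      · have h1 := hlZ.dvd_of_dvd_pow hd
        exact Dvd.dvd.mul_right (Dvd.dvd.mul_right (Dvd.dvd.mul_right h1 _) _) _
    · have h1 := hlZ.dvd_of_dvd_pow hd
      exact Dvd.dvd.mul_right (Dvd.dvd.mul_right (Dvd.dvd.mul_left (dvd_neg.mpr h1) _) _) _
  · rintro rfl
    rw [zero_mul] at hgeo
    omega
  · have h1 := geom_bound (x := (c : ℤ)) (y := (a : ℤ)) (M := (c : ℤ)) (by rw [Nat.abs_cast])
      (by rw [Nat.abs_cast]; omega) (q * r)
    rw [← hw] at h1
    push_cast at h1 ⊢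
    exact h1
  · have h1 : (c : ℤ) ^ (q * r) ≤ max (max |(c : ℤ) ^ (q * r) - (a : ℤ) ^ (q * r)|
        |(a : ℤ) ^ (q * r)|) |(c : ℤ) ^ (q * r)| := by
      refine le_max_of_le_right ?_
      exact le_abs_self _
    have h2 : (1 : ℤ) ≤ ((q * r : ℕ) : ℤ) := by exact_mod_cast hm
    have h3 : (0 : ℤ) ≤ (c : ℤ) ^ (q * r) := by positivity
    nlinarith

/-- two squares and an `n`-th power -/
theorem case22 (n : ℕ) (hn : 1 ≤ n) : ABC ↔ AbcFor (Members 1 2 1 n 1 2) := by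
  have h4n : 2 * n ≤ 4 ^ (n + 1) := by
    have : n < 4 ^ n := Nat.lt_pow_self (by norm_num)
    rw [pow_succ]
    omega
  refine univZ (2 * n) (4 ^ (n + 1)) (by omega) (Nat.one_le_pow _ _ (by norm_num))
    fun a b c ha hb hs hc => ?_
  by_cases hc2 : c ≤ 4 ^ (n + 1)
  · exact Or.inl hc2
  right
  have hc4 : 4 < c := by
    have : 4 ^ 1 ≤ 4 ^ (n + 1) := Nat.pow_le_pow_right (by norm_num) (by omega)
    omega
  obtain ⟨u, v, harr, hu, hv⟩ := arr_oo hs hc
  obtain ⟨hcop, -, hub, hvb, hmax⟩ := id harr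
  have hun : (u ^ n) % 2 = 1 := Int.odd_iff.mp ((Int.odd_iff.mpr hu).pow)
  have hvn : (v ^ n) % 2 = 1 := Int.odd_iff.mp ((Int.odd_iff.mpr hv).pow)
  obtain ⟨x, hx⟩ : ∃ x, u ^ n - v ^ n = 2 * x := ⟨(u ^ n - v ^ n) / 2, by omega⟩
  obtain ⟨z, hz⟩ : ∃ z, u ^ n + v ^ n = 2 * z := ⟨(u ^ n + v ^ n) / 2, by omega⟩
  have hU : u ^ n = x + z := by omega
  have hV : v ^ n = z - x := by omega
  have hne : |u| ≠ |v| := by
    intro he
    have h1 : u.natAbs = v.natAbs := by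
      rw [Int.abs_eq_natAbs, Int.abs_eq_natAbs] at he
      exact_mod_cast he
    have h2 : Nat.Coprime u.natAbs v.natAbs := Int.isCoprime_iff_nat_coprime.mp hcop
    rw [h1, Nat.coprime_self] at h2
    rw [Int.abs_eq_natAbs, Int.abs_eq_natAbs, h1, h2] at hmax
    simp at hmax
    omega
  have hnen : |u| ^ n ≠ |v| ^ n := fun h =>
    hne ((pow_left_inj₀ (abs_nonneg u) (abs_nonneg v) (by omega)).mp h)
  have hx0 : x ≠ 0 := by
    rintro rfl
    apply hnen
    rw [← abs_pow, ← abs_pow]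
    congr 1
    omega
  have hz0 : z ≠ 0 := by
    rintro rfl
    apply hnen
    rw [← abs_pow, ← abs_pow, show u ^ n = -(v ^ n) by omega, abs_neg]
  have hu0 : u ≠ 0 := by rintro rfl; omega
  have hv0 : v ≠ 0 := by rintro rfl; omega
  have hxz : IsCoprime x z := by
    have h1 : IsCoprime (u ^ n) (v ^ n) := hcop.pow
    rw [hU, hV] at h1
    obtain ⟨s, t, hst⟩ := h1
    exact ⟨s - t, s + t, by linear_combination hst⟩
  have hrel : x ^ 2 + (u * v) ^ n = z ^ 2 := by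
    rw [mul_pow, hU, hV]; ring
  obtain ⟨w, hw⟩ : ∃ w : ℤ, w = ∑ i ∈ range (2 * n), u ^ i * (-v) ^ (2 * n - 1 - i) := ⟨_, rfl⟩
  have hgeo : w * (u + v) = 4 * (x * z) := by
    have h1 := (Commute.all u (-v)).geom_sum₂_mul (2 * n)
    rw [← hw, sub_neg_eq_add] at h1
    rw [h1, Even.neg_pow (even_two_mul n), mul_comm 2 n, pow_mul, pow_mul, hU, hV]
    ring
  refine ⟨x ^ 2, (u * v) ^ n, z ^ 2, u, v, w, pow_ne_zero _ hx0, pow_ne_zero _ (mul_ne_zero hu0 hv0),
    pow_ne_zero _ hz0, hrel, ?_, ?_, harr, arr_ne ha hb hs harr, ?_, ?_, ?_, ?_⟩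
  · have e : (u * v) ^ n = z ^ 2 + x ^ 2 * (-1) := by linear_combination hrel
    rw [e]
    exact IsCoprime.add_mul_left_right hxz.pow (-1)
  · exact ⟨x.natAbs, (u * v).natAbs, z.natAbs, by rw [Int.natAbs_pow, one_mul],
      by rw [Int.natAbs_pow, one_mul], by rw [Int.natAbs_pow, one_mul]⟩
  · intro l hl hd
    have hlZ := Nat.prime_iff_prime_int.mp hl
    have e : u * v * (u + v) * w = (u * v) * (4 * (x * z)) := by rw [← hgeo]; ring
    rw [e]
    rcases hlZ.dvd_or_dvd hd with hd | hd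
    · rcases hlZ.dvd_or_dvd hd with hd | hd
      · have h1 := hlZ.dvd_of_dvd_pow hd
        exact Dvd.dvd.mul_left (Dvd.dvd.mul_left (Dvd.dvd.mul_right h1 _) _) _
      · have h1 := hlZ.dvd_of_dvd_pow hd
        exact Dvd.dvd.mul_right h1 _
    · have h1 := hlZ.dvd_of_dvd_pow hd
      exact Dvd.dvd.mul_left (Dvd.dvd.mul_left (Dvd.dvd.mul_left h1 _) _) _
  · rintro rfl
    rw [zero_mul] at hgeo
    have := mul_ne_zero hx0 hz0
    omega
  · have h1 := geom_bound (x := u) (y := -v) (M := (c : ℤ)) hub (by rw [abs_neg]; exact hvb)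
      (2 * n)
    rw [← hw] at h1
    refine h1.trans ?_
    have h2 : ((2 * n : ℕ) : ℤ) ≤ ((4 ^ (n + 1) : ℕ) : ℤ) := by exact_mod_cast h4n
    exact mul_le_mul_of_nonneg_right h2 (by positivity)
  · -- the size
    have hM0 : 0 ≤ max |u| |v| := le_max_of_le_left (abs_nonneg u)
    have h1 : (max |u| |v|) ^ n ≤ |x| + |z| := by
      rcases max_choice |u| |v| with h | h
      · rw [h, ← abs_pow, hU]
        exact abs_add_le x z
      · rw [h, ← abs_pow, hV]
        have := abs_sub z x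
        linarith
    have h2 : |x| + |z| ≤ 2 * max |x| |z| := by
      have := le_max_left |x| |z|
      have := le_max_right |x| |z|
      omega
    have h3 : (max |x| |z|) ^ 2 ≤ max (max |x ^ 2| |(u * v) ^ n|) |z ^ 2| := by
      rcases max_choice |x| |z| with h | h
      · rw [h, ← abs_pow]
        exact le_max_of_le_left (le_max_left _ _)
      · rw [h, ← abs_pow]
        exact le_max_right _ _
    calc (c : ℤ) ^ (2 * n) ≤ (2 * max |u| |v|) ^ (2 * n) :=
          pow_le_pow_left₀ (by positivity) hmax _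
      _ = 4 ^ n * ((max |u| |v|) ^ n) ^ 2 := by
          rw [mul_pow, pow_mul, ← pow_mul (max |u| |v|), mul_comm n 2]
          norm_num
      _ ≤ 4 ^ n * (2 * max |x| |z|) ^ 2 := by
          gcongr
          exact h1.trans h2
      _ = 4 ^ (n + 1) * (max |x| |z|) ^ 2 := by ring
      _ ≤ ((4 ^ (n + 1) : ℕ) : ℤ) * max (max |x ^ 2| |(u * v) ^ n|) |z ^ 2| := by
          push_cast
          gcongr

end Pool.Agent.R948.Sp
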