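import Pool.Agent.R948.Sp2

/-!
# The signatures `(2, 3, 3)` and `(2, 3, 4)`
-/

set_option autoImplicit false

namespace Pool.Agent.R948.Sp

open Finset Pool.Agent.R948.Sz

/-- two cubes and a square -/
theorem case33 : ABC ↔ AbcFor (Members 1 3 1 3 1 2) := by
  refine univZ 12 262144 (by norm_num) (by norm_num) fun a b c ha hb hs hc => Or.inr ?_
  obtain ⟨x, y, harr, hx2, h3⟩ := arr_33 hs hc
  obtain ⟨hcop, -, hxb, hyb, hmax⟩ := id harr
  have hne := arr_ne ha hb hs harr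
  have hc0 : (0 : ℤ) < c := by omega
  obtain ⟨A, hA⟩ : ∃ A : ℤ, A = x * (x ^ 3 - 8 * y ^ 3) := ⟨_, rfl⟩
  obtain ⟨B, hB⟩ : ∃ B : ℤ, B = 4 * y * (x ^ 3 + y ^ 3) := ⟨_, rfl⟩
  obtain ⟨C, hC⟩ : ∃ C : ℤ, C = x ^ 6 + 20 * x ^ 3 * y ^ 3 - 8 * y ^ 6 := ⟨_, rfl⟩
  have hrel : A ^ 3 + B ^ 3 = C ^ 2 := by rw [hA, hB, hC]; ring
  have hxo : Odd x := Int.odd_iff.mpr hx2
  have hCo : Odd C := by
    rw [hC]
    have e1 : Odd (x ^ 6) := hxo.pow
    have e2 : Even (20 * x ^ 3 * y ^ 3 - 8 * y ^ 6) := ⟨10 * x ^ 3 * y ^ 3 - 4 * y ^ 6, by ring⟩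
    rw [show x ^ 6 + 20 * x ^ 3 * y ^ 3 - 8 * y ^ 6 =
      x ^ 6 + (20 * x ^ 3 * y ^ 3 - 8 * y ^ 6) by ring]
    exact e1.add_even e2
  have hAo : Odd A := by
    rw [hA]
    refine hxo.mul ?_
    have e2 : Even (8 * y ^ 3) := ⟨4 * y ^ 3, by ring⟩
    exact hxo.pow.sub_even e2
  have hC0 : C ≠ 0 := by rintro rfl; simp at hCo
  have hA0 : A ≠ 0 := by intro h; rw [h] at hAo; simp at hAo
  have hx0 : x ≠ 0 := by rintro rfl; omega
  have hy0 : y ≠ 0 := by rintro rfl; simp at hne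
  have hs0 : x + y ≠ 0 := by intro h; rw [h] at hne; simp at hne
  have hq1 : x ^ 2 - x * y + y ^ 2 ≠ 0 := by
    intro h
    have h1 : (2 * x - y) ^ 2 + 3 * y ^ 2 = 0 := by linear_combination 4 * h
    have h2 : 0 < y ^ 2 := by positivity
    nlinarith [sq_nonneg (2 * x - y)]
  have hB0 : B ≠ 0 := by
    rw [hB, show x ^ 3 + y ^ 3 = (x + y) * (x ^ 2 - x * y + y ^ 2) by ring]
    exact mul_ne_zero (mul_ne_zero (by norm_num) hy0) (mul_ne_zero hs0 hq1)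
  have hd0 : x ^ 3 - 8 * y ^ 3 ≠ 0 := by
    intro h
    apply hA0
    rw [hA, h, mul_zero]
  have hcAB : IsCoprime A B := by
    refine cop_primes fun l hl h1 h2 => ?_
    have hlZ := Nat.prime_iff_prime_int.mp hl
    have hl2 : l ≠ 2 := by
      rintro rfl
      have : Even A := even_iff_two_dvd.mpr (by exact_mod_cast h1)
      exact (Int.not_even_iff_odd.mpr hAo) this
    rw [hA] at h1
    rw [hB, mul_assoc] at h2
    have h4 : ¬ (l : ℤ) ∣ 4 := by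
      intro h
      have h' : l ∣ 2 ^ 2 := by exact_mod_cast h
      exact hl2 ((Nat.prime_dvd_prime_iff_eq hl Nat.prime_two).mp (hl.dvd_of_dvd_pow h'))
    have h2' := (hlZ.dvd_or_dvd h2).resolve_left h4
    rcases hlZ.dvd_or_dvd h1 with hx | hx
    · rcases hlZ.dvd_or_dvd h2' with hy | hy
      · exact not_both hcop hl hx hy
      · have : (l : ℤ) ∣ y ^ 3 := by
          have := dvd_sub hy (dvd_pow hx (by norm_num : (3 : ℕ) ≠ 0))
          rwa [add_sub_cancel_left] at this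
        exact not_both hcop hl hx (hlZ.dvd_of_dvd_pow this)
    · rcases hlZ.dvd_or_dvd h2' with hy | hy
      · have : (l : ℤ) ∣ x ^ 3 := by
          have := dvd_add hx (Dvd.dvd.mul_left (dvd_pow hy (by norm_num : (3 : ℕ) ≠ 0)) 8)
          rwa [sub_add_cancel] at this
        exact not_both hcop hl (hlZ.dvd_of_dvd_pow this) hy
      · have h9 : (l : ℤ) ∣ 9 * y ^ 3 := by
          have := dvd_sub hy hx
          rwa [show x ^ 3 + y ^ 3 - (x ^ 3 - 8 * y ^ 3) = 9 * y ^ 3 by ring] at this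
        rcases hlZ.dvd_or_dvd h9 with h9 | h9
        · have hl3 : l = 3 := by
            have h' : l ∣ 3 ^ 2 := by exact_mod_cast h9
            exact (Nat.prime_dvd_prime_iff_eq hl Nat.prime_three).mp (hl.dvd_of_dvd_pow h')
          subst hl3
          apply h3
          have e : (x + y) ^ 3 = (x ^ 3 + y ^ 3) + 3 * (x ^ 2 * y + x * y ^ 2) := by ring
          have : (3 : ℤ) ∣ (x + y) ^ 3 := by
            rw [e]
            exact dvd_add (by exact_mod_cast hy) (Dvd.intro _ rfl)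
          exact Int.emod_eq_zero_of_dvd (Int.prime_three.dvd_of_dvd_pow this)
        · have hy' := hlZ.dvd_of_dvd_pow h9
          have : (l : ℤ) ∣ x ^ 3 := by
            have := dvd_add hx (Dvd.dvd.mul_left (dvd_pow hy' (by norm_num : (3 : ℕ) ≠ 0)) 8)
            rwa [sub_add_cancel] at this
          exact not_both hcop hl (hlZ.dvd_of_dvd_pow this) hy'
  refine ⟨A ^ 3, B ^ 3, C ^ 2, x, y, 2 * (x ^ 3 - 8 * y ^ 3) * (x ^ 2 - x * y + y ^ 2) * C,
    pow_ne_zero _ hA0, pow_ne_zero _ hB0, pow_ne_zero _ hC0, hrel, hcAB.pow,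
    ⟨A.natAbs, B.natAbs, C.natAbs, by rw [Int.natAbs_pow, one_mul],
      by rw [Int.natAbs_pow, one_mul], by rw [Int.natAbs_pow, one_mul]⟩, harr, hne, ?_, ?_, ?_, ?_⟩
  · intro l hl hd
    have hlZ := Nat.prime_iff_prime_int.mp hl
    have hd' : (l : ℤ) ∣ A * B * C := by
      rcases hlZ.dvd_or_dvd hd with hd | hd
      · rcases hlZ.dvd_or_dvd hd with hd | hd
        · exact Dvd.dvd.mul_right (Dvd.dvd.mul_right (hlZ.dvd_of_dvd_pow hd) _) _
        · exact Dvd.dvd.mul_right (Dvd.dvd.mul_left (hlZ.dvd_of_dvd_pow hd) _) _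
      · exact Dvd.dvd.mul_left (hlZ.dvd_of_dvd_pow hd) _
    have e : x * y * (x + y) * (2 * (x ^ 3 - 8 * y ^ 3) * (x ^ 2 - x * y + y ^ 2) * C) * 2 =
        A * B * C := by rw [hA, hB]; ring
    rw [← e] at hd'
    rcases hlZ.dvd_or_dvd hd' with h | h
    · exact h
    · have : (2 : ℤ) ∣ x * y * (x + y) * (2 * (x ^ 3 - 8 * y ^ 3) * (x ^ 2 - x * y + y ^ 2) * C) :=
        ⟨x * y * (x + y) * ((x ^ 3 - 8 * y ^ 3) * (x ^ 2 - x * y + y ^ 2) * C), by ring⟩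
      exact h.trans this
  · exact mul_ne_zero (mul_ne_zero (mul_ne_zero (by norm_num) hd0) hq1) hC0
  · have b1 : |x ^ 3 - 8 * y ^ 3| ≤ 9 * (c : ℤ) ^ 3 := by
      calc |x ^ 3 - 8 * y ^ 3| ≤ |x ^ 3| + |8 * y ^ 3| := abs_sub _ _
        _ = |x| ^ 3 + 8 * |y| ^ 3 := by rw [abs_mul, abs_pow, abs_pow]; norm_num
        _ ≤ (c : ℤ) ^ 3 + 8 * (c : ℤ) ^ 3 := by gcongr
        _ = _ := by ring
    have b2 : |x ^ 2 - x * y + y ^ 2| ≤ 3 * (c : ℤ) ^ 2 := by
      calc |x ^ 2 - x * y + y ^ 2| ≤ |x ^ 2 - x * y| + |y ^ 2| := abs_add_le _ _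
        _ ≤ |x ^ 2| + |x * y| + |y ^ 2| := by gcongr; exact abs_sub _ _
        _ = |x| ^ 2 + |x| * |y| + |y| ^ 2 := by rw [abs_mul, abs_pow, abs_pow]
        _ ≤ (c : ℤ) ^ 2 + (c : ℤ) * c + (c : ℤ) ^ 2 := by gcongr
        _ = _ := by ring
    have b3 : |C| ≤ 29 * (c : ℤ) ^ 6 := by
      rw [hC]
      calc |x ^ 6 + 20 * x ^ 3 * y ^ 3 - 8 * y ^ 6| ≤ |x ^ 6 + 20 * x ^ 3 * y ^ 3| + |8 * y ^ 6| :=
            abs_sub _ _
        _ ≤ |x ^ 6| + |20 * x ^ 3 * y ^ 3| + |8 * y ^ 6| := by gcongr; exact abs_add_le _ _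
        _ = |x| ^ 6 + 20 * |x| ^ 3 * |y| ^ 3 + 8 * |y| ^ 6 := by
            rw [abs_mul, abs_mul, abs_mul, abs_pow, abs_pow, abs_pow, abs_pow]; norm_num
        _ ≤ (c : ℤ) ^ 6 + 20 * (c : ℤ) ^ 3 * (c : ℤ) ^ 3 + 8 * (c : ℤ) ^ 6 := by gcongr
        _ = _ := by ring
    rw [abs_mul, abs_mul, abs_mul]
    calc |(2 : ℤ)| * |x ^ 3 - 8 * y ^ 3| * |x ^ 2 - x * y + y ^ 2| * |C|
        ≤ 2 * (9 * (c : ℤ) ^ 3) * (3 * (c : ℤ) ^ 2) * (29 * (c : ℤ) ^ 6) := by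
          gcongr
          norm_num
      _ = 1566 * (c : ℤ) ^ 11 := by ring
      _ ≤ ((262144 : ℕ) : ℤ) * (c : ℤ) ^ (12 - 1) := by
          norm_num
          have : (0 : ℤ) ≤ (c : ℤ) ^ 11 := by positivity
          linarith
  · -- the size
    obtain ⟨m, hm⟩ : ∃ m : ℤ, m = max |A| |B| := ⟨_, rfl⟩
    obtain ⟨M, hM⟩ : ∃ M : ℤ, M = max |x| |y| := ⟨_, rfl⟩
    have hM1 : 1 ≤ M := by
      rw [hM]
      exact le_max_of_le_left (Int.one_le_abs hx0)
    have hxM : |x| ≤ M := hM ▸ le_max_left _ _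
    have hyM : |y| ≤ M := hM ▸ le_max_right _ _
    have hAm : |A| ≤ m := hm ▸ le_max_left _ _
    have hBm : |B| ≤ m := hm ▸ le_max_right _ _
    have hm0 : 0 ≤ m := (abs_nonneg A).trans hAm
    have k1 : 9 * |x| ^ 7 ≤ 36 * (M ^ 3 * m) := by
      have e : 9 * x ^ 7 = (9 * x ^ 3 + 8 * y ^ 3) * A + 16 * (x * y ^ 2) * B := by
        rw [hA, hB]; ring
      calc 9 * |x| ^ 7 = |9 * x ^ 7| := by rw [abs_mul, abs_pow]; norm_num
        _ = |(9 * x ^ 3 + 8 * y ^ 3) * A + 16 * (x * y ^ 2) * B| := by rw [e]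
        _ ≤ |(9 * x ^ 3 + 8 * y ^ 3) * A| + |16 * (x * y ^ 2) * B| := abs_add_le _ _
        _ = |9 * x ^ 3 + 8 * y ^ 3| * |A| + 16 * (|x| * |y| ^ 2) * |B| := by
            rw [abs_mul, abs_mul, abs_mul, abs_mul, abs_pow]; norm_num
        _ ≤ (|9 * x ^ 3| + |8 * y ^ 3|) * |A| + 16 * (|x| * |y| ^ 2) * |B| := by
            gcongr; exact abs_add_le _ _
        _ = (9 * |x| ^ 3 + 8 * |y| ^ 3) * |A| + 16 * (|x| * |y| ^ 2) * |B| := by
            rw [abs_mul, abs_mul, abs_pow, abs_pow]; norm_num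
        _ ≤ (9 * M ^ 3 + 8 * M ^ 3) * m + 16 * (M * M ^ 2) * m := by gcongr
        _ = 33 * (M ^ 3 * m) := by ring
        _ ≤ 36 * (M ^ 3 * m) := by
            have : 0 ≤ M ^ 3 * m := by positivity
            linarith
    have k2 : 36 * |y| ^ 7 ≤ 36 * (M ^ 3 * m) := by
      have e : 36 * y ^ 7 = (9 * y ^ 3 - x ^ 3) * B + 4 * (x ^ 2 * y) * A := by
        rw [hA, hB]; ring
      calc 36 * |y| ^ 7 = |36 * y ^ 7| := by rw [abs_mul, abs_pow]; norm_num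
        _ = |(9 * y ^ 3 - x ^ 3) * B + 4 * (x ^ 2 * y) * A| := by rw [e]
        _ ≤ |(9 * y ^ 3 - x ^ 3) * B| + |4 * (x ^ 2 * y) * A| := abs_add_le _ _
        _ = |9 * y ^ 3 - x ^ 3| * |B| + 4 * (|x| ^ 2 * |y|) * |A| := by
            rw [abs_mul, abs_mul, abs_mul, abs_mul, abs_pow]; norm_num
        _ ≤ (|9 * y ^ 3| + |x ^ 3|) * |B| + 4 * (|x| ^ 2 * |y|) * |A| := by
            gcongr; exact abs_sub _ _
        _ = (9 * |y| ^ 3 + |x| ^ 3) * |B| + 4 * (|x| ^ 2 * |y|) * |A| := by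
            rw [abs_mul, abs_pow, abs_pow]; norm_num
        _ ≤ (9 * M ^ 3 + M ^ 3) * m + 4 * (M ^ 2 * M) * m := by gcongr
        _ = 14 * (M ^ 3 * m) := by ring
        _ ≤ 36 * (M ^ 3 * m) := by
            have : 0 ≤ M ^ 3 * m := by positivity
            linarith
    have k3 : M ^ 7 ≤ 4 * (M ^ 3 * m) := by
      have h36 : 0 ≤ M ^ 3 * m := by positivity
      rcases max_choice |x| |y| with h | h
      · have e : M = |x| := hM.trans h
        rw [← e] at k1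
        linarith
      · have e : M = |y| := hM.trans h
        rw [← e] at k2
        linarith
    have k4 : M ^ 4 ≤ 4 * m := by
      have h0 : 0 < M ^ 3 := by positivity
      have e1 : M ^ 3 * M ^ 4 ≤ M ^ 3 * (4 * m) := by
        calc M ^ 3 * M ^ 4 = M ^ 7 := by ring
          _ ≤ 4 * (M ^ 3 * m) := k3
          _ = _ := by ring
      exact le_of_mul_le_mul_left e1 h0
    have k5 : m ^ 3 ≤ max (max |A ^ 3| |B ^ 3|) |C ^ 2| := by
      refine le_max_of_le_left ?_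
      rcases max_choice |A| |B| with h | h
      · rw [hm.trans h, ← abs_pow]
        exact le_max_left _ _
      · rw [hm.trans h, ← abs_pow]
        exact le_max_right _ _
    calc (c : ℤ) ^ 12 ≤ (2 * M) ^ 12 := pow_le_pow_left₀ (by positivity) (hM ▸ hmax) _
      _ = 4096 * (M ^ 4) ^ 3 := by ring
      _ ≤ 4096 * (4 * m) ^ 3 := by gcongr
      _ = 262144 * m ^ 3 := by ring
      _ ≤ ((262144 : ℕ) : ℤ) * max (max |A ^ 3| |B ^ 3|) |C ^ 2| := by
          push_cast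
          gcongr

/-- `X² + 108 Y⁴ = Z³` -/
theorem case34 : ABC ↔ AbcFor (Members 1 2 108 4 1 3) := by
  refine univZ 24 16777216 (by norm_num) (by norm_num) fun a b c ha hb hs hc => Or.inr ?_
  obtain ⟨x, y, harr, hxy2⟩ := arr_odd hs hc
  obtain ⟨hcop, -, hxb, hyb, hmax⟩ := id harr
  have hne := arr_ne ha hb hs harr
  have hc0 : (0 : ℤ) < c := by omega
  obtain ⟨K, hK⟩ : ∃ K : ℤ, K = x ^ 12 - 33 * x ^ 8 * y ^ 4 - 33 * x ^ 4 * y ^ 8 + y ^ 12 :=
    ⟨_, rfl⟩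
  obtain ⟨t, ht⟩ : ∃ t : ℤ, t = x * y * (x ^ 4 - y ^ 4) := ⟨_, rfl⟩
  obtain ⟨W, hW⟩ : ∃ W : ℤ, W = x ^ 8 + 14 * x ^ 4 * y ^ 4 + y ^ 8 := ⟨_, rfl⟩
  have hrel : K ^ 2 + 108 * t ^ 4 = W ^ 3 := by rw [hK, ht, hW]; ring
  have hx0 : x ≠ 0 := by rintro rfl; simp at hne
  have hy0 : y ≠ 0 := by rintro rfl; simp at hne
  have hs0 : x + y ≠ 0 := by intro h; rw [h] at hne; simp at hne
  have hd0 : x - y ≠ 0 := by intro h; omega
  have hq0 : 0 < x ^ 2 + y ^ 2 := by positivity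
  have hW0 : 0 < W := by rw [hW]; positivity
  have ht0 : t ≠ 0 := by
    rw [ht, show x ^ 4 - y ^ 4 = (x - y) * (x + y) * (x ^ 2 + y ^ 2) by ring]
    exact mul_ne_zero (mul_ne_zero hx0 hy0) (mul_ne_zero (mul_ne_zero hd0 hs0) hq0.ne')
  have hsum : Odd (x + y) := Int.odd_iff.mpr hxy2
  have hKo : Odd K := by
    have e : K = (x + y) ^ 12 + 2 * (-(6 * x ^ 11 * y + 33 * x ^ 10 * y ^ 2 + 110 * x ^ 9 * y ^ 3 +
      264 * x ^ 8 * y ^ 4 + 396 * x ^ 7 * y ^ 5 + 462 * x ^ 6 * y ^ 6 + 396 * x ^ 5 * y ^ 7 +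
      264 * x ^ 4 * y ^ 8 + 110 * x ^ 3 * y ^ 9 + 33 * x ^ 2 * y ^ 10 + 6 * x * y ^ 11)) := by
      rw [hK]; ring
    rw [e]
    exact hsum.pow.add_even (even_two_mul _)
  have hWo : Odd W := by
    have e : W = (x + y) ^ 8 + 2 * (-(4 * x ^ 7 * y + 14 * x ^ 6 * y ^ 2 + 28 * x ^ 5 * y ^ 3 +
      28 * x ^ 4 * y ^ 4 + 28 * x ^ 3 * y ^ 5 + 14 * x ^ 2 * y ^ 6 + 4 * x * y ^ 7)) := by
      rw [hW]; ring
    rw [e]
    exact hsum.pow.add_even (even_two_mul _)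
  have hK0 : K ≠ 0 := by intro h; rw [h] at hKo; simp at hKo
  have hW3 : ¬ (3 : ℤ) ∣ W := by
    intro h
    have e : (x ^ 4 + y ^ 4) ^ 2 = W - 3 * (4 * x ^ 4 * y ^ 4) := by rw [hW]; ring
    have h1 : (3 : ℤ) ∣ (x ^ 4 + y ^ 4) ^ 2 := by
      rw [e]
      exact dvd_sub h (Dvd.intro _ rfl)
    have h2 := Int.prime_three.dvd_of_dvd_pow h1
    have hx4 : x ^ 4 % 3 = 0 ∨ x ^ 4 % 3 = 1 := by
      have : x % 3 = 0 ∨ x % 3 = 1 ∨ x % 3 = 2 := by omega
      rcases this with h | h | h <;> simp [pow_succ, Int.mul_emod, h]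
    have hy4 : y ^ 4 % 3 = 0 ∨ y ^ 4 % 3 = 1 := by
      have : y % 3 = 0 ∨ y % 3 = 1 ∨ y % 3 = 2 := by omega
      rcases this with h | h | h <;> simp [pow_succ, Int.mul_emod, h]
    have h3 : x ^ 4 % 3 = 0 ∧ y ^ 4 % 3 = 0 := by omega
    exact not_both hcop Nat.prime_three
      (by exact_mod_cast Int.prime_three.dvd_of_dvd_pow (Int.dvd_of_emod_eq_zero h3.1))
      (by exact_mod_cast Int.prime_three.dvd_of_dvd_pow (Int.dvd_of_emod_eq_zero h3.2))
  have hcop2 : IsCoprime (K ^ 2) (108 * t ^ 4) := by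
    have h1 : IsCoprime (W ^ 3) (108 * t ^ 4) := by
      refine cop_primes fun l hl h1 h2 => ?_
      have hlZ := Nat.prime_iff_prime_int.mp hl
      have hlW := hlZ.dvd_of_dvd_pow h1
      have hl2 : l ≠ 2 := by
        rintro rfl
        have : Even W := even_iff_two_dvd.mpr (by exact_mod_cast hlW)
        exact (Int.not_even_iff_odd.mpr hWo) this
      have hl3 : l ≠ 3 := by
        rintro rfl
        exact hW3 (by exact_mod_cast hlW)
      rcases hlZ.dvd_or_dvd h2 with h3 | h3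
      · have h' : l ∣ 2 ^ 2 * 3 ^ 3 := by exact_mod_cast h3
        rcases (hl.dvd_mul).mp h' with h | h
        · exact hl2 ((Nat.prime_dvd_prime_iff_eq hl Nat.prime_two).mp (hl.dvd_of_dvd_pow h))
        · exact hl3 ((Nat.prime_dvd_prime_iff_eq hl Nat.prime_three).mp (hl.dvd_of_dvd_pow h))
      · have h4 := hlZ.dvd_of_dvd_pow h3
        rw [ht] at h4
        rw [hW] at hlW
        rcases hlZ.dvd_or_dvd h4 with h5 | h5
        · rcases hlZ.dvd_or_dvd h5 with h6 | h6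
          · have : (l : ℤ) ∣ y ^ 8 := by
              have h7 : (l : ℤ) ∣ x ^ 8 + 14 * x ^ 4 * y ^ 4 :=
                ⟨(x ^ 7 + 14 * x ^ 3 * y ^ 4) * (x / l), by
                  obtain ⟨k, hk⟩ := h6
                  have hl0 : (l : ℤ) ≠ 0 := by exact_mod_cast hl.ne_zero
                  have : x / l = k := by rw [hk, Int.mul_ediv_cancel_left _ hl0]
                  rw [this]
                  linear_combination (x ^ 7 + 14 * x ^ 3 * y ^ 4) * hk⟩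
              have := dvd_sub hlW h7
              rwa [add_sub_cancel_left] at this
            exact not_both hcop hl h6 (hlZ.dvd_of_dvd_pow this)
          · have : (l : ℤ) ∣ x ^ 8 := by
              have h7 : (l : ℤ) ∣ 14 * x ^ 4 * y ^ 4 + y ^ 8 := by
                have e : 14 * x ^ 4 * y ^ 4 + y ^ 8 = y * (14 * x ^ 4 * y ^ 3 + y ^ 7) := by ring
                rw [e]
                exact Dvd.dvd.mul_right h6 _
              have := dvd_sub hlW h7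
              rwa [show x ^ 8 + 14 * x ^ 4 * y ^ 4 + y ^ 8 - (14 * x ^ 4 * y ^ 4 + y ^ 8) =
                x ^ 8 by ring] at this
            exact not_both hcop hl (hlZ.dvd_of_dvd_pow this) h6
        · have h7 : (l : ℤ) ∣ 16 * x ^ 8 := by
            have e : 16 * x ^ 8 = x ^ 8 + 14 * x ^ 4 * y ^ 4 + y ^ 8 +
                (x ^ 4 - y ^ 4) * (15 * x ^ 4 + y ^ 4) := by ring
            rw [e]
            exact dvd_add hlW (Dvd.dvd.mul_right h5 _)
          rcases hlZ.dvd_or_dvd h7 with h8 | h8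
          · have h' : l ∣ 2 ^ 4 := by exact_mod_cast h8
            exact hl2 ((Nat.prime_dvd_prime_iff_eq hl Nat.prime_two).mp (hl.dvd_of_dvd_pow h'))
          · have h9 := hlZ.dvd_of_dvd_pow h8
            have : (l : ℤ) ∣ y ^ 4 := by
              have := dvd_sub (dvd_pow h9 (by norm_num : (4 : ℕ) ≠ 0)) h5
              rwa [sub_sub_cancel] at this
            exact not_both hcop hl h9 (hlZ.dvd_of_dvd_pow this)
    have e : K ^ 2 = W ^ 3 + (108 * t ^ 4) * (-1) := by linear_combination hrel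
    rw [e]
    exact IsCoprime.add_mul_left_left h1 (-1)
  refine ⟨K ^ 2, 108 * t ^ 4, W ^ 3, x, y, 6 * (x - y) * (x ^ 2 + y ^ 2) * W * K,
    pow_ne_zero _ hK0, mul_ne_zero (by norm_num) (pow_ne_zero _ ht0), pow_ne_zero _ hW0.ne',
    hrel, hcop2,
    ⟨K.natAbs, t.natAbs, W.natAbs, by rw [Int.natAbs_pow, one_mul],
      by rw [Int.natAbs_mul, Int.natAbs_pow]; rfl, by rw [Int.natAbs_pow, one_mul]⟩,
    harr, hne, ?_, ?_, ?_, ?_⟩
  · intro l hl hd
    have hlZ := Nat.prime_iff_prime_int.mp hl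
    have hd' : (l : ℤ) ∣ 6 * t * W * K := by
      rcases hlZ.dvd_or_dvd hd with hd | hd
      · rcases hlZ.dvd_or_dvd hd with hd | hd
        · exact Dvd.dvd.mul_left (hlZ.dvd_of_dvd_pow hd) _
        · rcases hlZ.dvd_or_dvd hd with hd | hd
          · have h6 : (l : ℤ) ∣ 6 := by
              have h' : l ∣ 2 ^ 2 * 3 ^ 3 := by exact_mod_cast hd
              rcases (hl.dvd_mul).mp h' with h | h
              · rw [(Nat.prime_dvd_prime_iff_eq hl Nat.prime_two).mp (hl.dvd_of_dvd_pow h)]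
                norm_num
              · rw [(Nat.prime_dvd_prime_iff_eq hl Nat.prime_three).mp (hl.dvd_of_dvd_pow h)]
                norm_num
            exact Dvd.dvd.mul_right (Dvd.dvd.mul_right (Dvd.dvd.mul_right h6 _) _) _
          · exact Dvd.dvd.mul_right (Dvd.dvd.mul_right (Dvd.dvd.mul_left
              (hlZ.dvd_of_dvd_pow hd) _) _) _
      · exact Dvd.dvd.mul_right (Dvd.dvd.mul_left (hlZ.dvd_of_dvd_pow hd) _) _
    have e : x * y * (x + y) * (6 * (x - y) * (x ^ 2 + y ^ 2) * W * K) = 6 * t * W * K := by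
      rw [ht]; ring
    rw [e]
    exact hd'
  · exact mul_ne_zero (mul_ne_zero (mul_ne_zero (mul_ne_zero (by norm_num) hd0) hq0.ne') hW0.ne')
      hK0
  · have b1 : |x - y| ≤ 2 * (c : ℤ) := by
      calc |x - y| ≤ |x| + |y| := abs_sub _ _
        _ ≤ _ := by linarith
    have b2 : |x ^ 2 + y ^ 2| ≤ 2 * (c : ℤ) ^ 2 := by
      calc |x ^ 2 + y ^ 2| ≤ |x ^ 2| + |y ^ 2| := abs_add_le _ _
        _ = |x| ^ 2 + |y| ^ 2 := by rw [abs_pow, abs_pow]
        _ ≤ (c : ℤ) ^ 2 + (c : ℤ) ^ 2 := by gcongr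
        _ = _ := by ring
    have b3 : |W| ≤ 16 * (c : ℤ) ^ 8 := by
      rw [hW]
      calc |x ^ 8 + 14 * x ^ 4 * y ^ 4 + y ^ 8| ≤ |x ^ 8 + 14 * x ^ 4 * y ^ 4| + |y ^ 8| :=
            abs_add_le _ _
        _ ≤ |x ^ 8| + |14 * x ^ 4 * y ^ 4| + |y ^ 8| := by gcongr; exact abs_add_le _ _
        _ = |x| ^ 8 + 14 * |x| ^ 4 * |y| ^ 4 + |y| ^ 8 := by
            rw [abs_mul, abs_mul, abs_pow, abs_pow, abs_pow, abs_pow]; norm_num
        _ ≤ (c : ℤ) ^ 8 + 14 * (c : ℤ) ^ 4 * (c : ℤ) ^ 4 + (c : ℤ) ^ 8 := by gcongr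
        _ = _ := by ring
    have b4 : |K| ≤ 68 * (c : ℤ) ^ 12 := by
      rw [hK]
      calc |x ^ 12 - 33 * x ^ 8 * y ^ 4 - 33 * x ^ 4 * y ^ 8 + y ^ 12|
          ≤ |x ^ 12 - 33 * x ^ 8 * y ^ 4 - 33 * x ^ 4 * y ^ 8| + |y ^ 12| := abs_add_le _ _
        _ ≤ |x ^ 12 - 33 * x ^ 8 * y ^ 4| + |33 * x ^ 4 * y ^ 8| + |y ^ 12| := by
            gcongr; exact abs_sub _ _
        _ ≤ |x ^ 12| + |33 * x ^ 8 * y ^ 4| + |33 * x ^ 4 * y ^ 8| + |y ^ 12| := by
            gcongr; exact abs_sub _ _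
        _ = |x| ^ 12 + 33 * |x| ^ 8 * |y| ^ 4 + 33 * |x| ^ 4 * |y| ^ 8 + |y| ^ 12 := by
            rw [abs_mul, abs_mul, abs_mul, abs_mul, abs_pow, abs_pow, abs_pow, abs_pow, abs_pow,
              abs_pow]
            norm_num
        _ ≤ (c : ℤ) ^ 12 + 33 * (c : ℤ) ^ 8 * (c : ℤ) ^ 4 + 33 * (c : ℤ) ^ 4 * (c : ℤ) ^ 8 +
            (c : ℤ) ^ 12 := by gcongr
        _ = _ := by ring
    rw [abs_mul, abs_mul, abs_mul, abs_mul]
    calc |(6 : ℤ)| * |x - y| * |x ^ 2 + y ^ 2| * |W| * |K|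
        ≤ 6 * (2 * (c : ℤ)) * (2 * (c : ℤ) ^ 2) * (16 * (c : ℤ) ^ 8) * (68 * (c : ℤ) ^ 12) := by
          gcongr
          norm_num
      _ = 26112 * (c : ℤ) ^ 23 := by ring
      _ ≤ ((16777216 : ℕ) : ℤ) * (c : ℤ) ^ (24 - 1) := by
          norm_num
          have : (0 : ℤ) ≤ (c : ℤ) ^ 23 := by positivity
          linarith
  · obtain ⟨M, hM⟩ : ∃ M : ℤ, M = max |x| |y| := ⟨_, rfl⟩
    have k1 : M ^ 8 ≤ W := by
      have e1 : 0 ≤ 14 * x ^ 4 * y ^ 4 := by positivity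
      have e2 : 0 ≤ x ^ 8 := by positivity
      have e3 : 0 ≤ y ^ 8 := by positivity
      rcases max_choice |x| |y| with h | h
      · rw [hM.trans h, hW, show |x| ^ 8 = x ^ 8 from Even.pow_abs (by decide) x]
        linarith
      · rw [hM.trans h, hW, show |y| ^ 8 = y ^ 8 from Even.pow_abs (by decide) y]
        linarith
    calc (c : ℤ) ^ 24 ≤ (2 * M) ^ 24 := pow_le_pow_left₀ (by positivity) (hM ▸ hmax) _
      _ = 16777216 * (M ^ 8) ^ 3 := by ring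
      _ ≤ 16777216 * W ^ 3 := by gcongr
      _ ≤ ((16777216 : ℕ) : ℤ) * max (max |K ^ 2| |108 * t ^ 4|) |W ^ 3| := by
          push_cast
          gcongr
          exact le_max_of_le_right (le_abs_self _)

end Pool.Agent.R948.Sp
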