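import Pool.Agent.R948.Sp3

/-!
# The signature `(2, 3, 5)`
-/

set_option autoImplicit false

namespace Pool.Agent.R948.Sp

open Finset Pool.Agent.R948.Sz

/-- an arrangement with `u + v` odd and `u - 2 v` not divisible by five -/
lemma arr_35 {a b c : ℕ} (hs : a + b = c) (hc : Nat.Coprime a b) :
    ∃ u v : ℤ, Arr a b c u v ∧ (u + v) % 2 = 1 ∧ (u - 2 * v) % 5 ≠ 0 := by
  obtain ⟨u, v, h, h2⟩ := arr_odd hs hc
  by_cases h5 : (u - 2 * v) % 5 = 0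
  · refine ⟨v, u, h.swap, by omega, fun h5' => ?_⟩
    have h1 : v % 5 = 0 := by omega
    have h3 : u % 5 = 0 := by omega
    exact not_both h.1 Nat.prime_five (by exact_mod_cast Int.dvd_of_emod_eq_zero h3)
      (by exact_mod_cast Int.dvd_of_emod_eq_zero h1)
  · exact ⟨u, v, h, h2, h5⟩

/-- the form of degree `20`, up to sign -/
def fA {R : Type*} [CommRing R] (x y : R) : R :=
  ((x ^ 5) ^ 2 - (y ^ 5) ^ 2) ^ 2 - 228 * (x ^ 5 * y ^ 5) * ((x ^ 5) ^ 2 - (y ^ 5) ^ 2) +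
    496 * (x ^ 5 * y ^ 5) ^ 2

lemma fA2 : ∀ u v : ZMod 2, u + v = 1 → fA (2 * u * v) (v ^ 2 - u ^ 2) ≠ 0 := by
  unfold fA; decide

lemma fA3 : ∀ u v : ZMod 3, ¬ (u = 0 ∧ v = 0) → fA (2 * u * v) (v ^ 2 - u ^ 2) ≠ 0 := by
  unfold fA; decide

lemma fA5 : ∀ u v : ZMod 5, u - 2 * v ≠ 0 → fA (2 * u * v) (v ^ 2 - u ^ 2) ≠ 0 := by
  unfold fA; decide

lemma fA_cast (n : ℕ) (u v : ℤ) : ((fA (2 * u * v) (v ^ 2 - u ^ 2) : ℤ) : ZMod n) =
    fA (2 * (u : ZMod n) * v) ((v : ZMod n) ^ 2 - (u : ZMod n) ^ 2) := by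
  unfold fA
  push_cast
  ring

lemma fA_not {u v : ℤ} (hco : IsCoprime u v) (h2 : (u + v) % 2 = 1) (h5 : (u - 2 * v) % 5 ≠ 0)
    {l : ℕ} (hl : l = 2 ∨ l = 3 ∨ l = 5) : ¬ (l : ℤ) ∣ fA (2 * u * v) (v ^ 2 - u ^ 2) := by
  intro h
  rw [← ZMod.intCast_zmod_eq_zero_iff_dvd, fA_cast] at h
  rcases hl with rfl | rfl | rfl
  · refine fA2 _ _ ?_ h
    have : ((u + v : ℤ) : ZMod 2) = ((1 : ℤ) : ZMod 2) := by
      rw [ZMod.intCast_eq_intCast_iff_dvd_sub]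
      push_cast
      omega
    push_cast at this
    exact this
  · refine fA3 _ _ ?_ h
    rintro ⟨h1, h3⟩
    rw [ZMod.intCast_zmod_eq_zero_iff_dvd] at h1 h3
    exact not_both hco Nat.prime_three h1 h3
  · refine fA5 _ _ ?_ h
    intro h0
    apply h5
    have : ((u - 2 * v : ℤ) : ZMod 5) = 0 := by
      push_cast
      exact h0
    rw [ZMod.intCast_zmod_eq_zero_iff_dvd] at this
    exact Int.emod_eq_zero_of_dvd (by exact_mod_cast this)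

/-- the lower bound for the two forms -/
lemma low {P s A B E N : ℤ} (hA : A = P ^ 2 - 228 * s * P + 496 * s ^ 2)
    (hB : B = P ^ 2 + 522 * s * P - 10004 * s ^ 2) (hE : E ^ 2 = P ^ 2 + 4 * s ^ 2)
    (hAN : |A| ≤ N) (hBN : |B| ≤ N) : E ^ 2 ≤ 275 * N := by
  obtain ⟨D, hD⟩ : ∃ D : ℤ, D = s * (P - 14 * s) := ⟨_, rfl⟩
  obtain ⟨F, hF⟩ : ∃ F : ℤ, F = P ^ 2 - 2696 * s ^ 2 := ⟨_, rfl⟩
  obtain ⟨M, hM⟩ : ∃ M : ℤ, M = max |P| |s| := ⟨_, rfl⟩
  have hPM : |P| ≤ M := hM ▸ le_max_left _ _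
  have hsM : |s| ≤ M := hM ▸ le_max_right _ _
  have hM0 : 0 ≤ M := (abs_nonneg P).trans hPM
  have hN0 : 0 ≤ N := (abs_nonneg A).trans hAN
  have hD1 : 375 * |D| ≤ N := by
    have e : 750 * D = B - A := by rw [hD, hA, hB]; ring
    have : |750 * D| ≤ |B| + |A| := by rw [e]; exact abs_sub _ _
    rw [abs_mul] at this
    norm_num at this
    linarith
  have hD0 : 0 ≤ |D| := abs_nonneg D
  have hF1 : |F| ≤ 2 * N := by
    have e : F = A + 228 * D := by rw [hF, hA, hD]; ring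
    have : |F| ≤ |A| + |228 * D| := by rw [e]; exact abs_add_le _ _
    rw [abs_mul] at this
    norm_num at this
    linarith
  have hMN : 0 ≤ M * N := mul_nonneg hM0 hN0
  have hMD : 375 * (M * |D|) ≤ M * N := by
    calc 375 * (M * |D|) = M * (375 * |D|) := by ring
      _ ≤ M * N := mul_le_mul_of_nonneg_left hD1 hM0
  have k1 : 2500 * |s| ^ 3 ≤ 3 * (M * N) := by
    have e : 2500 * s ^ 3 = (P + 14 * s) * D - s * F := by rw [hD, hF]; ring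
    calc 2500 * |s| ^ 3 = |2500 * s ^ 3| := by rw [abs_mul, abs_pow]; norm_num
      _ = |(P + 14 * s) * D - s * F| := by rw [e]
      _ ≤ |(P + 14 * s) * D| + |s * F| := abs_sub _ _
      _ = |P + 14 * s| * |D| + |s| * |F| := by rw [abs_mul, abs_mul]
      _ ≤ (|P| + |14 * s|) * |D| + |s| * |F| := by gcongr; exact abs_add_le _ _
      _ = (|P| + 14 * |s|) * |D| + |s| * |F| := by rw [abs_mul]; norm_num
      _ ≤ (M + 14 * M) * |D| + M * (2 * N) := by gcongr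
      _ = 15 * (M * |D|) + 2 * (M * N) := by ring
      _ ≤ 3 * (M * N) := by linarith
  have k2 : |P| ^ 3 ≤ 55 * (M * N) := by
    have e : P ^ 3 = P * F + 2696 * s * D + 37744 * s ^ 3 := by rw [hD, hF]; ring
    calc |P| ^ 3 = |P ^ 3| := by rw [abs_pow]
      _ = |P * F + 2696 * s * D + 37744 * s ^ 3| := by rw [e]
      _ ≤ |P * F + 2696 * s * D| + |37744 * s ^ 3| := abs_add_le _ _
      _ ≤ |P * F| + |2696 * s * D| + |37744 * s ^ 3| := by gcongr; exact abs_add_le _ _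
      _ = |P| * |F| + 2696 * |s| * |D| + 37744 * |s| ^ 3 := by
          rw [abs_mul, abs_mul, abs_mul, abs_mul, abs_pow]; norm_num
      _ ≤ M * (2 * N) + 2696 * M * |D| + 37744 * |s| ^ 3 := by gcongr
      _ = 2 * (M * N) + 2696 * (M * |D|) + 37744 * |s| ^ 3 := by ring
      _ ≤ 55 * (M * N) := by linarith
  have k3 : M ^ 3 ≤ 55 * (M * N) := by
    rcases max_choice |P| |s| with h | h
    · rw [← hM.trans h] at k2
      exact k2
    · rw [← hM.trans h] at k1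
      linarith
  have k4 : M ^ 2 ≤ 55 * N := by
    rcases hM0.lt_or_eq with h | h
    · refine le_of_mul_le_mul_left ?_ h
      calc M * M ^ 2 = M ^ 3 := by ring
        _ ≤ 55 * (M * N) := k3
        _ = _ := by ring
    · rw [← h]
      simpa using hN0
  have k5 : P ^ 2 ≤ M ^ 2 := sq_le_sq' (by linarith [abs_le.mp hPM]) (by linarith [abs_le.mp hPM])
  have k6 : s ^ 2 ≤ M ^ 2 := sq_le_sq' (by linarith [abs_le.mp hsM]) (by linarith [abs_le.mp hsM])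
  rw [hE]
  linarith

/-- `X² + Y³ = 1728 Z⁵` -/
theorem case35 : ABC ↔ AbcFor (Members 1 2 1 3 1728 5) := by
  refine univZ 120 (2 ^ 120 * (16 ^ 6 * 275 ^ 3)) (by norm_num) (by norm_num)
    fun a b c ha hb hs hc => Or.inr ?_
  obtain ⟨u, v, harr, hodd, hfive⟩ := arr_35 hs hc
  obtain ⟨hcop, -, hub, hvb, hmax⟩ := id harr
  have hne := arr_ne ha hb hs harr
  have hc0 : (0 : ℤ) < c := by omega
  have hu0 : u ≠ 0 := by rintro rfl; simp at hne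
  have hv0 : v ≠ 0 := by rintro rfl; simp at hne
  have hs0 : u + v ≠ 0 := by intro h; rw [h] at hne; simp at hne
  have hd0 : v - u ≠ 0 := by intro h; omega
  obtain ⟨x, hx⟩ : ∃ x : ℤ, x = 2 * u * v := ⟨_, rfl⟩
  obtain ⟨y, hy⟩ : ∃ y : ℤ, y = v ^ 2 - u ^ 2 := ⟨_, rfl⟩
  have hx0 : x ≠ 0 := by
    rw [hx]; exact mul_ne_zero (mul_ne_zero (by norm_num) hu0) hv0
  have hyf : y = (v - u) * (u + v) := by rw [hy]; ring
  have hy0 : y ≠ 0 := by rw [hyf]; exact mul_ne_zero hd0 hs0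
  have hyo : Odd y := by
    rw [hyf]
    exact (Int.odd_iff.mpr (by omega)).mul (Int.odd_iff.mpr hodd)
  have hxe : Even x := ⟨u * v, by rw [hx]; ring⟩
  have hxy : IsCoprime x y := by
    refine cop_primes fun l hl h1 h2 => ?_
    have hlZ := Nat.prime_iff_prime_int.mp hl
    have hl2 : ¬ (l : ℤ) ∣ 2 := by
      intro h
      have h' : l ∣ 2 := by exact_mod_cast h
      have h'' := (Nat.prime_dvd_prime_iff_eq hl Nat.prime_two).mp h'
      subst h''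
      exact (Int.not_even_iff_odd.mpr hyo) (even_iff_two_dvd.mpr (by exact_mod_cast h2))
    rw [hx] at h1
    rw [hy] at h2
    rcases hlZ.dvd_or_dvd h1 with h3 | h3
    · have h4 := (hlZ.dvd_or_dvd h3).resolve_left hl2
      have : (l : ℤ) ∣ v ^ 2 := by
        have := dvd_add h2 (dvd_pow h4 (by norm_num : (2 : ℕ) ≠ 0))
        rwa [sub_add_cancel] at this
      exact not_both hcop hl h4 (hlZ.dvd_of_dvd_pow this)
    · have : (l : ℤ) ∣ u ^ 2 := by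
        have := dvd_sub (dvd_pow h3 (by norm_num : (2 : ℕ) ≠ 0)) h2
        rwa [sub_sub_cancel] at this
      exact not_both hcop hl (hlZ.dvd_of_dvd_pow this) h3
  have hq2 : x ^ 2 + y ^ 2 = (u ^ 2 + v ^ 2) ^ 2 := by rw [hx, hy]; ring
  have huv0 : 0 < u ^ 2 + v ^ 2 := by positivity
  obtain ⟨P, hP⟩ : ∃ P : ℤ, P = (x ^ 5) ^ 2 - (y ^ 5) ^ 2 := ⟨_, rfl⟩
  obtain ⟨s, hsd⟩ : ∃ s : ℤ, s = x ^ 5 * y ^ 5 := ⟨_, rfl⟩
  obtain ⟨E, hE⟩ : ∃ E : ℤ, E = (x ^ 5) ^ 2 + (y ^ 5) ^ 2 := ⟨_, rfl⟩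
  obtain ⟨G, hG⟩ : ∃ G : ℤ, G = x ^ 8 - x ^ 6 * y ^ 2 + x ^ 4 * y ^ 4 - x ^ 2 * y ^ 6 + y ^ 8 :=
    ⟨_, rfl⟩
  obtain ⟨A, hA⟩ : ∃ A : ℤ, A = P ^ 2 - 228 * s * P + 496 * s ^ 2 := ⟨_, rfl⟩
  obtain ⟨B, hB⟩ : ∃ B : ℤ, B = P ^ 2 + 522 * s * P - 10004 * s ^ 2 := ⟨_, rfl⟩
  obtain ⟨Q, hQ⟩ : ∃ Q : ℤ, Q = P + 11 * s := ⟨_, rfl⟩
  have hEG : E = (u ^ 2 + v ^ 2) ^ 2 * G := by
    rw [← hq2, hE, hG]; ring
  have hE2 : E ^ 2 = P ^ 2 + 4 * s ^ 2 := by rw [hE, hP, hsd]; ring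
  have hfA : A = fA (2 * u * v) (v ^ 2 - u ^ 2) := by
    rw [hA, hP, hsd, hx, hy]
    unfold fA
    ring
  have hA235 : ∀ l : ℕ, (l = 2 ∨ l = 3 ∨ l = 5) → ¬ (l : ℤ) ∣ A := fun l hl => by
    rw [hfA]
    exact fA_not hcop hodd hfive hl
  have hse : Even s := by
    rw [hsd]
    exact (hxe.pow_of_ne_zero (by norm_num)).mul_right _
  have hPo : Odd P := by
    rw [hP]
    have h1 : Even ((x ^ 5) ^ 2) := (hxe.pow_of_ne_zero (by norm_num)).pow_of_ne_zero (by norm_num)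
    exact h1.sub_odd hyo.pow.pow
  have hBo : Odd B := by
    rw [hB, show P ^ 2 + 522 * s * P - 10004 * s ^ 2 = P ^ 2 + 2 * (261 * s * P - 5002 * s ^ 2) by
      ring]
    exact hPo.pow.add_even (even_two_mul _)
  have hQo : Odd Q := by
    rw [hQ]
    exact hPo.add_even (hse.mul_left _)
  have hEo : Odd E := by
    rw [hE]
    have h1 : Even ((x ^ 5) ^ 2) := (hxe.pow_of_ne_zero (by norm_num)).pow_of_ne_zero (by norm_num)
    exact h1.add_odd hyo.pow.pow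
  have ne_of_odd : ∀ z : ℤ, Odd z → z ≠ 0 := by
    rintro z hz rfl
    simp at hz
  have hB0 := ne_of_odd B hBo
  have hQ0 := ne_of_odd Q hQo
  have hE0 := ne_of_odd E hEo
  have hA0 : A ≠ 0 := by
    intro h
    exact hA235 2 (Or.inl rfl) (h ▸ dvd_zero _)
  have hG0 : G ≠ 0 := by
    rintro rfl
    rw [mul_zero] at hEG
    exact hE0 hEG
  have hrel : (E * B) ^ 2 + (-A) ^ 3 = 1728 * (x * y * Q) ^ 5 := by
    have e1 : (E * B) ^ 2 = (P ^ 2 + 4 * s ^ 2) * B ^ 2 := by rw [mul_pow, hE2]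
    have e2 : (x * y * Q) ^ 5 = s * Q ^ 5 := by rw [hsd]; ring
    rw [e1, e2, hA, hB, hQ]
    ring
  have hAid : A = Q * (P - 239 * s) + 3125 * s ^ 2 := by rw [hA, hQ]; ring
  have hcop2 : IsCoprime (1728 * (x * y * Q) ^ 5) ((-A) ^ 3) := by
    refine cop_primes fun l hl h1 h2 => ?_
    have hlZ := Nat.prime_iff_prime_int.mp hl
    have hlA : (l : ℤ) ∣ A := by
      have := hlZ.dvd_of_dvd_pow h2
      rwa [dvd_neg] at this
    have hl235 : ¬ (l = 2 ∨ l = 3 ∨ l = 5) := fun h => hA235 l h hlA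
    push Not at hl235
    have hsP : (l : ℤ) ∣ s → (l : ℤ) ∣ P → False := by
      intro h3 h4
      rw [hsd] at h3
      rw [hP] at h4
      rcases hlZ.dvd_or_dvd h3 with h5 | h5
      · have : (l : ℤ) ∣ (y ^ 5) ^ 2 := by
          have := dvd_sub (dvd_pow h5 (by norm_num : (2 : ℕ) ≠ 0)) h4
          rwa [sub_sub_cancel] at this
        exact not_both hxy hl (hlZ.dvd_of_dvd_pow h5)
          (hlZ.dvd_of_dvd_pow (hlZ.dvd_of_dvd_pow this))
      · have : (l : ℤ) ∣ (x ^ 5) ^ 2 := by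
          have := dvd_add h4 (dvd_pow h5 (by norm_num : (2 : ℕ) ≠ 0))
          rwa [sub_add_cancel] at this
        exact not_both hxy hl (hlZ.dvd_of_dvd_pow (hlZ.dvd_of_dvd_pow this))
          (hlZ.dvd_of_dvd_pow h5)
    have hsA : (l : ℤ) ∣ s → False := by
      intro h3
      refine hsP h3 ?_
      have : (l : ℤ) ∣ P ^ 2 := by
        have h4 : (l : ℤ) ∣ -228 * s * P + 496 * s ^ 2 := by
          rw [show -228 * s * P + 496 * s ^ 2 = s * (-228 * P + 496 * s) by ring]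
          exact Dvd.dvd.mul_right h3 _
        have := dvd_sub hlA h4
        rw [hA] at this
        rwa [show P ^ 2 - 228 * s * P + 496 * s ^ 2 - (-228 * s * P + 496 * s ^ 2) = P ^ 2 by
          ring] at this
      exact hlZ.dvd_of_dvd_pow this
    rcases hlZ.dvd_or_dvd h1 with h3 | h3
    · have h' : l ∣ 2 ^ 6 * 3 ^ 3 := by exact_mod_cast h3
      rcases (hl.dvd_mul).mp h' with h | h
      · exact hl235.1 ((Nat.prime_dvd_prime_iff_eq hl Nat.prime_two).mp (hl.dvd_of_dvd_pow h))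
      · exact hl235.2.1 ((Nat.prime_dvd_prime_iff_eq hl Nat.prime_three).mp
          (hl.dvd_of_dvd_pow h))
    · have h4 := hlZ.dvd_of_dvd_pow h3
      rcases hlZ.dvd_or_dvd h4 with h5 | h5
      · apply hsA
        rw [hsd]
        rcases hlZ.dvd_or_dvd h5 with h6 | h6
        · exact Dvd.dvd.mul_right (dvd_pow h6 (by norm_num)) _
        · exact Dvd.dvd.mul_left (dvd_pow h6 (by norm_num)) _
      · have h6 : (l : ℤ) ∣ 3125 * s ^ 2 := by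
          have := dvd_sub hlA (Dvd.dvd.mul_right h5 (P - 239 * s))
          rwa [hAid, add_sub_cancel_left] at this
        rcases hlZ.dvd_or_dvd h6 with h7 | h7
        · have h' : l ∣ 5 ^ 5 := by exact_mod_cast h7
          exact hl235.2.2 ((Nat.prime_dvd_prime_iff_eq hl Nat.prime_five).mp
            (hl.dvd_of_dvd_pow h'))
        · exact hsA (hlZ.dvd_of_dvd_pow h7)
  have hcop3 : IsCoprime ((E * B) ^ 2) ((-A) ^ 3) := by
    have e : (E * B) ^ 2 = 1728 * (x * y * Q) ^ 5 + (-A) ^ 3 * (-1) := by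
      linear_combination hrel
    rw [e]
    exact IsCoprime.add_mul_left_left hcop2 (-1)
  have hxb : |x| ≤ 2 * (c : ℤ) ^ 2 := by
    rw [hx, abs_mul, abs_mul]
    calc |(2 : ℤ)| * |u| * |v| ≤ 2 * c * c := by gcongr; norm_num
      _ = _ := by ring
  have hyb : |y| ≤ 2 * (c : ℤ) ^ 2 := by
    rw [hy]
    calc |v ^ 2 - u ^ 2| ≤ |v ^ 2| + |u ^ 2| := abs_sub _ _
      _ = |v| ^ 2 + |u| ^ 2 := by rw [abs_pow, abs_pow]
      _ ≤ (c : ℤ) ^ 2 + (c : ℤ) ^ 2 := by gcongr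
      _ = _ := by ring
  obtain ⟨L, hL⟩ : ∃ L : ℤ, L = 2 * (c : ℤ) ^ 2 := ⟨_, rfl⟩
  have hL0 : 0 ≤ L := by rw [hL]; positivity
  rw [← hL] at hxb hyb
  obtain ⟨N, hN⟩ : ∃ N : ℤ, N = L ^ 10 := ⟨_, rfl⟩
  have hN0 : 0 ≤ N := by rw [hN]; positivity
  have bX : |(x ^ 5) ^ 2| ≤ N := by
    rw [abs_pow, abs_pow, hN]
    calc (|x| ^ 5) ^ 2 ≤ (L ^ 5) ^ 2 := by gcongr
      _ = _ := by ring
  have bY : |(y ^ 5) ^ 2| ≤ N := by
    rw [abs_pow, abs_pow, hN]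
    calc (|y| ^ 5) ^ 2 ≤ (L ^ 5) ^ 2 := by gcongr
      _ = _ := by ring
  have bP : |P| ≤ 2 * N := by
    rw [hP]
    calc |(x ^ 5) ^ 2 - (y ^ 5) ^ 2| ≤ |(x ^ 5) ^ 2| + |(y ^ 5) ^ 2| := abs_sub _ _
      _ ≤ _ := by linarith
  have bs : |s| ≤ N := by
    rw [hsd, abs_mul, abs_pow, abs_pow, hN]
    calc |x| ^ 5 * |y| ^ 5 ≤ L ^ 5 * L ^ 5 := by gcongr
      _ = _ := by ring
  have bA : |A| ≤ 956 * N ^ 2 := by
    rw [hA]
    calc |P ^ 2 - 228 * s * P + 496 * s ^ 2| ≤ |P ^ 2 - 228 * s * P| + |496 * s ^ 2| :=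
          abs_add_le _ _
      _ ≤ |P ^ 2| + |228 * s * P| + |496 * s ^ 2| := by gcongr; exact abs_sub _ _
      _ = |P| ^ 2 + 228 * |s| * |P| + 496 * |s| ^ 2 := by
          rw [abs_mul, abs_mul, abs_mul, abs_pow, abs_pow]; norm_num
      _ ≤ (2 * N) ^ 2 + 228 * N * (2 * N) + 496 * N ^ 2 := by gcongr
      _ = _ := by ring
  have bB : |B| ≤ 11052 * N ^ 2 := by
    rw [hB]
    calc |P ^ 2 + 522 * s * P - 10004 * s ^ 2| ≤ |P ^ 2 + 522 * s * P| + |10004 * s ^ 2| :=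
          abs_sub _ _
      _ ≤ |P ^ 2| + |522 * s * P| + |10004 * s ^ 2| := by gcongr; exact abs_add_le _ _
      _ = |P| ^ 2 + 522 * |s| * |P| + 10004 * |s| ^ 2 := by
          rw [abs_mul, abs_mul, abs_mul, abs_pow, abs_pow]; norm_num
      _ ≤ (2 * N) ^ 2 + 522 * N * (2 * N) + 10004 * N ^ 2 := by gcongr
      _ = _ := by ring
  have bQ : |Q| ≤ 13 * N := by
    rw [hQ]
    calc |P + 11 * s| ≤ |P| + |11 * s| := abs_add_le _ _
      _ = |P| + 11 * |s| := by rw [abs_mul]; norm_num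
      _ ≤ _ := by linarith
  have bG : |G| ≤ 5 * L ^ 8 := by
    rw [hG]
    calc |x ^ 8 - x ^ 6 * y ^ 2 + x ^ 4 * y ^ 4 - x ^ 2 * y ^ 6 + y ^ 8|
        ≤ |x ^ 8 - x ^ 6 * y ^ 2 + x ^ 4 * y ^ 4 - x ^ 2 * y ^ 6| + |y ^ 8| := abs_add_le _ _
      _ ≤ |x ^ 8 - x ^ 6 * y ^ 2 + x ^ 4 * y ^ 4| + |x ^ 2 * y ^ 6| + |y ^ 8| := by
          gcongr; exact abs_sub _ _
      _ ≤ |x ^ 8 - x ^ 6 * y ^ 2| + |x ^ 4 * y ^ 4| + |x ^ 2 * y ^ 6| + |y ^ 8| := by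
          gcongr; exact abs_add_le _ _
      _ ≤ |x ^ 8| + |x ^ 6 * y ^ 2| + |x ^ 4 * y ^ 4| + |x ^ 2 * y ^ 6| + |y ^ 8| := by
          gcongr; exact abs_sub _ _
      _ = |x| ^ 8 + |x| ^ 6 * |y| ^ 2 + |x| ^ 4 * |y| ^ 4 + |x| ^ 2 * |y| ^ 6 + |y| ^ 8 := by
          simp only [abs_mul, abs_pow]
      _ ≤ L ^ 8 + L ^ 6 * L ^ 2 + L ^ 4 * L ^ 4 + L ^ 2 * L ^ 6 + L ^ 8 := by gcongr
      _ = _ := by ring
  have bd : |v - u| ≤ 2 * (c : ℤ) := by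
    calc |v - u| ≤ |v| + |u| := abs_sub _ _
      _ ≤ _ := by linarith
  have bq : |u ^ 2 + v ^ 2| ≤ 2 * (c : ℤ) ^ 2 := by
    calc |u ^ 2 + v ^ 2| ≤ |u ^ 2| + |v ^ 2| := abs_add_le _ _
      _ = |u| ^ 2 + |v| ^ 2 := by rw [abs_pow, abs_pow]
      _ ≤ (c : ℤ) ^ 2 + (c : ℤ) ^ 2 := by gcongr
      _ = _ := by ring
  refine ⟨(E * B) ^ 2, (-A) ^ 3, 1728 * (x * y * Q) ^ 5, u, v,
    6 * (v - u) * (u ^ 2 + v ^ 2) * G * B * A * Q,
    pow_ne_zero _ (mul_ne_zero hE0 hB0), pow_ne_zero _ (neg_ne_zero.mpr hA0),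
    mul_ne_zero (by norm_num) (pow_ne_zero _ (mul_ne_zero (mul_ne_zero hx0 hy0) hQ0)), hrel,
    hcop3, ⟨(E * B).natAbs, (-A).natAbs, (x * y * Q).natAbs, by rw [Int.natAbs_pow, one_mul],
      by rw [Int.natAbs_pow, one_mul], by rw [Int.natAbs_mul, Int.natAbs_pow]; rfl⟩,
    harr, hne, ?_, ?_, ?_, ?_⟩
  · intro l hl hd
    have hlZ := Nat.prime_iff_prime_int.mp hl
    have e : u * v * (u + v) * (6 * (v - u) * (u ^ 2 + v ^ 2) * G * B * A * Q) =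
        3 * (x * y * Q) * ((u ^ 2 + v ^ 2) * G * B) * A := by
      rw [hyf, hx]; ring
    rw [e]
    rcases hlZ.dvd_or_dvd hd with hd | hd
    · rcases hlZ.dvd_or_dvd hd with hd | hd
      · have h1 := hlZ.dvd_of_dvd_pow hd
        have h2 : (l : ℤ) ∣ (u ^ 2 + v ^ 2) * G * B := by
          rw [hEG] at h1
          rcases hlZ.dvd_or_dvd h1 with h2 | h2
          · rcases hlZ.dvd_or_dvd h2 with h3 | h3
            · exact Dvd.dvd.mul_right (Dvd.dvd.mul_right (hlZ.dvd_of_dvd_pow h3) _) _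
            · exact Dvd.dvd.mul_right (Dvd.dvd.mul_left h3 _) _
          · exact Dvd.dvd.mul_left h2 _
        exact Dvd.dvd.mul_right (Dvd.dvd.mul_left h2 _) _
      · have h1 := hlZ.dvd_of_dvd_pow hd
        rw [dvd_neg] at h1
        exact Dvd.dvd.mul_left h1 _
    · refine Dvd.dvd.mul_right (Dvd.dvd.mul_right ?_ _) _
      rcases hlZ.dvd_or_dvd hd with hd | hd
      · have h' : l ∣ 2 ^ 6 * 3 ^ 3 := by exact_mod_cast hd
        rcases (hl.dvd_mul).mp h' with h | h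
        · rw [(Nat.prime_dvd_prime_iff_eq hl Nat.prime_two).mp (hl.dvd_of_dvd_pow h)]
          have h2 : ((2 : ℕ) : ℤ) ∣ x := by exact_mod_cast hxe.two_dvd
          exact Dvd.dvd.mul_left (Dvd.dvd.mul_right (Dvd.dvd.mul_right h2 _) _) _
        · rw [(Nat.prime_dvd_prime_iff_eq hl Nat.prime_three).mp (hl.dvd_of_dvd_pow h)]
          exact Dvd.dvd.mul_right (by norm_num) _
      · exact Dvd.dvd.mul_left (hlZ.dvd_of_dvd_pow hd) _
  · exact mul_ne_zero (mul_ne_zero (mul_ne_zero (mul_ne_zero (mul_ne_zero (mul_ne_zero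
      (by norm_num) hd0) huv0.ne') hG0) hB0) hA0) hQ0
  · rw [abs_mul, abs_mul, abs_mul, abs_mul, abs_mul, abs_mul]
    calc |(6 : ℤ)| * |v - u| * |u ^ 2 + v ^ 2| * |G| * |B| * |A| * |Q|
        ≤ 6 * (2 * (c : ℤ)) * (2 * (c : ℤ) ^ 2) * (5 * L ^ 8) * (11052 * N ^ 2) * (956 * N ^ 2) *
          (13 * N) := by
          gcongr
          norm_num
      _ = 16482510720 * 2 ^ 58 * (c : ℤ) ^ 119 := by
          rw [hN, hL]; ring
      _ ≤ ((2 ^ 120 * (16 ^ 6 * 275 ^ 3) : ℕ) : ℤ) * (c : ℤ) ^ (120 - 1) := by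
          refine mul_le_mul_of_nonneg_right ?_ (by positivity)
          norm_num
  · obtain ⟨M, hM⟩ : ∃ M : ℤ, M = max |u| |v| := ⟨_, rfl⟩
    have hM0 : 0 ≤ M := hM ▸ le_max_of_le_left (abs_nonneg u)
    have k1 : M ^ 2 ≤ u ^ 2 + v ^ 2 := by
      have e2 : 0 ≤ u ^ 2 := by positivity
      have e3 : 0 ≤ v ^ 2 := by positivity
      rcases max_choice |u| |v| with h | h
      · rw [hM.trans h, sq_abs]; linarith
      · rw [hM.trans h, sq_abs]; linarith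
    have k2 : M ^ 20 ≤ 16 * E := by
      have h1 : (x ^ 2 + y ^ 2) ^ 5 ≤ 2 ^ (5 - 1) * ((x ^ 2) ^ 5 + (y ^ 2) ^ 5) :=
        add_pow_le (sq_nonneg x) (sq_nonneg y) 5
      calc M ^ 20 = (M ^ 2) ^ 10 := by ring
        _ ≤ (u ^ 2 + v ^ 2) ^ 10 := by gcongr
        _ = (x ^ 2 + y ^ 2) ^ 5 := by rw [hq2]; ring
        _ ≤ 2 ^ (5 - 1) * ((x ^ 2) ^ 5 + (y ^ 2) ^ 5) := h1
        _ = 16 * E := by rw [hE]; ring
    have hE0' : 0 ≤ E := by
      have : 0 ≤ M ^ 20 := by positivity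
      linarith
    have k3 : E ^ 6 ≤ 275 ^ 3 * max |(E * B) ^ 2| |(-A) ^ 3| := by
      rcases le_total |A| |B| with h | h
      · have h1 := low hA hB hE2 h le_rfl
        have h2 : (E ^ 2) ^ 2 ≤ (275 * |B|) ^ 2 := by gcongr
        have h3 : E ^ 6 ≤ 275 ^ 2 * (E * B) ^ 2 := by
          calc E ^ 6 = E ^ 2 * (E ^ 2) ^ 2 := by ring
            _ ≤ E ^ 2 * (275 * |B|) ^ 2 := by gcongr
            _ = 275 ^ 2 * (E * B) ^ 2 := by rw [mul_pow, sq_abs]; ring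
        calc E ^ 6 ≤ 275 ^ 2 * (E * B) ^ 2 := h3
          _ ≤ 275 ^ 3 * (E * B) ^ 2 := by
              have : 0 ≤ (E * B) ^ 2 := by positivity
              linarith
          _ ≤ 275 ^ 3 * max |(E * B) ^ 2| |(-A) ^ 3| := by
              gcongr
              exact le_max_of_le_left (le_abs_self _)
      · have h1 := low hA hB hE2 le_rfl h
        calc E ^ 6 = (E ^ 2) ^ 3 := by ring
          _ ≤ (275 * |A|) ^ 3 := by gcongr
          _ = 275 ^ 3 * |(-A) ^ 3| := by rw [mul_pow, abs_pow, abs_neg]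
          _ ≤ 275 ^ 3 * max |(E * B) ^ 2| |(-A) ^ 3| := by
              gcongr
              exact le_max_right _ _
    calc (c : ℤ) ^ 120 ≤ (2 * M) ^ 120 := pow_le_pow_left₀ (by positivity) (hM ▸ hmax) _
      _ = 2 ^ 120 * (M ^ 20) ^ 6 := by ring
      _ ≤ 2 ^ 120 * (16 * E) ^ 6 := by gcongr
      _ = 2 ^ 120 * (16 ^ 6 * E ^ 6) := by ring
      _ ≤ 2 ^ 120 * (16 ^ 6 * (275 ^ 3 * max |(E * B) ^ 2| |(-A) ^ 3|)) := by gcongr
      _ = 2 ^ 120 * (16 ^ 6 * 275 ^ 3) * max |(E * B) ^ 2| |(-A) ^ 3| := by ring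
      _ ≤ ((2 ^ 120 * (16 ^ 6 * 275 ^ 3) : ℕ) : ℤ) *
          max (max |(E * B) ^ 2| |(-A) ^ 3|) |1728 * (x * y * Q) ^ 5| := by
          push_cast
          exact mul_le_mul_of_nonneg_left (le_max_left _ _) (by norm_num)

end Pool.Agent.R948.Sp
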