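import Pool.Agent.R948.Sp4

/-!
# All spherical signatures
-/

set_option autoImplicit false

namespace Pool.Agent.R948.Sp

open Finset Pool.Agent.R948.Sz

lemma for_congr {S S' : ℕ → ℕ → ℕ → Prop} (h : ∀ a b c, S a b c ↔ S' a b c) :
    AbcFor S ↔ AbcFor S' := by
  have : S = S' := by
    funext a b c
    exact propext (h a b c)
  rw [this]

lemma mem12 (α p β q γ r a b c : ℕ) : Members α p β q γ r a b c → Members β q α p γ r a b c := by
  rintro ⟨x, y, z, h⟩
  refine ⟨y, x, z, ?_⟩
  rw [h]
  exact Multiset.cons_swap _ _ _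

lemma mem23 (α p β q γ r a b c : ℕ) : Members α p β q γ r a b c → Members α p γ r β q a b c := by
  rintro ⟨x, y, z, h⟩
  refine ⟨x, z, y, ?_⟩
  rw [h]
  exact congrArg (fun s => (α * x ^ p) ::ₘ s) (Multiset.pair_comm _ _)

lemma sw12 {α p β q γ r : ℕ} (h : ABC ↔ AbcFor (Members α p β q γ r)) :
    ABC ↔ AbcFor (Members β q α p γ r) :=
  h.trans (for_congr fun _ _ _ => ⟨mem12 _ _ _ _ _ _ _ _ _, mem12 _ _ _ _ _ _ _ _ _⟩)

lemma sw23 {α p β q γ r : ℕ} (h : ABC ↔ AbcFor (Members α p β q γ r)) :
    ABC ↔ AbcFor (Members α p γ r β q) :=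
  h.trans (for_congr fun _ _ _ => ⟨mem23 _ _ _ _ _ _ _ _ _, mem23 _ _ _ _ _ _ _ _ _⟩)

/-- there is a universal equation of the signature `(p, q, r)` -/
def Good (p q r : ℕ) : Prop :=
  ∃ α β γ : ℕ, 0 < α ∧ 0 < β ∧ 0 < γ ∧ (ABC ↔ AbcFor (Members α p β q γ r))

lemma Good.s12 {p q r : ℕ} (h : Good p q r) : Good q p r := by
  obtain ⟨α, β, γ, h1, h2, h3, h4⟩ := h
  exact ⟨β, α, γ, h2, h1, h3, sw12 h4⟩

lemma Good.s23 {p q r : ℕ} (h : Good p q r) : Good p r q := by
  obtain ⟨α, β, γ, h1, h2, h3, h4⟩ := h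
  exact ⟨α, γ, β, h1, h3, h2, sw23 h4⟩

lemma inv_le {m n : ℕ} (hm : 0 < m) (h : m ≤ n) : (1 : ℚ) / n ≤ 1 / m :=
  one_div_le_one_div_of_le (by exact_mod_cast hm) (by exact_mod_cast h)

/-- sorted signatures -/
theorem good_sorted {p q r : ℕ} (hp : 0 < p) (hpq : p ≤ q) (hqr : q ≤ r)
    (h : 1 < (1 : ℚ) / p + 1 / q + 1 / r) : Good p q r := by
  rcases Nat.lt_or_ge p 3 with h3 | h3
  · interval_cases p
    · exact ⟨1, 1, 1, one_pos, one_pos, one_pos, case1 q r (by omega) (by omega)⟩
    · rcases Nat.lt_or_ge q 4 with h4 | h4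
      · interval_cases q
        · have h1 : Good 2 r 2 := ⟨1, 1, 1, one_pos, one_pos, one_pos, case22 r (by omega)⟩
          exact h1.s23
        · rcases Nat.lt_or_ge r 6 with h6 | h6
          · interval_cases r
            · have h1 : Good 3 3 2 := ⟨1, 1, 1, one_pos, one_pos, one_pos, case33⟩
              exact h1.s23.s12
            · have h1 : Good 2 4 3 := ⟨1, 108, 1, one_pos, by norm_num, one_pos, case34⟩
              exact h1.s23
            · exact ⟨1, 1, 1728, one_pos, one_pos, by norm_num, case35⟩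
          · exfalso
            have := inv_le (by norm_num) h6
            norm_num at this h
            linarith
      · exfalso
        have h1 := inv_le (by norm_num) h4
        have h2 := inv_le (by norm_num) (h4.trans hqr)
        norm_num at h1 h2 h
        linarith
  · exfalso
    have h1 := inv_le (by norm_num) h3
    have h2 := inv_le (by norm_num) (h3.trans hpq)
    have h4 := inv_le (by norm_num) ((h3.trans hpq).trans hqr)
    norm_num at h1 h2 h4 h
    linarith

/-- **All spherical signatures** -/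
theorem good_all {p q r : ℕ} (hp : 0 < p) (hq : 0 < q) (hr : 0 < r)
    (h : 1 < (1 : ℚ) / p + 1 / q + 1 / r) : Good p q r := by
  rcases le_total p q with h1 | h1 <;> rcases le_total q r with h2 | h2 <;>
    rcases le_total p r with h3 | h3
  · exact good_sorted hp h1 h2 h
  · exact good_sorted hp h1 h2 h
  · exact (good_sorted hp h3 h2 (by linarith)).s23
  · exact (good_sorted hr h3 h1 (by linarith)).s12.s23
  · exact (good_sorted hq h1 h3 (by linarith)).s12
  · exact (good_sorted hq h2 h3 (by linarith)).s23.s12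
  · exact (good_sorted hr h2 h1 (by linarith)).s12.s23.s12
  · exact (good_sorted hr h2 h1 (by linarith)).s12.s23.s12

end Pool.Agent.R948.Sp
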