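import Mathlib

/-!
# The abc conjecture implies the modified Szpiro conjecture: the arithmetic part
-/

set_option autoImplicit false

namespace Pool.Agent.R948.Sz

open Finset

/-- the radical -/
def rad (n : ℕ) : ℕ := ∏ p ∈ n.primeFactors, p

/-- the abc conjecture -/
def ABC : Prop := ∀ ε : ℝ, 0 < ε → ∃ K : ℝ, 0 < K ∧ ∀ a b c : ℕ, 0 < a → 0 < b → a + b = c →
  Nat.Coprime a b → (c : ℝ) ≤ K * (rad (a * b * c) : ℝ) ^ (1 + ε)

/-- the prime-to-6 part of the conductor, as a function of `Δ` and `c₄` -/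
def cnd (D c : ℤ) : ℕ :=
  ∏ p ∈ D.natAbs.primeFactors.filter (fun p => 5 ≤ p), if (p : ℤ) ∣ c then p ^ 2 else p

lemma rad_pos (n : ℕ) : 0 < rad n :=
  prod_pos fun _ hp => (Nat.prime_of_mem_primeFactors hp).pos

lemma rad_fac (n p : ℕ) (_hp : p.Prime) : (rad n).factorization p ≤ if p ∣ n then 1 else 0 := by
  unfold rad
  rw [Nat.factorization_prod (fun q hq => (Nat.prime_of_mem_primeFactors hq).ne_zero)]
  rw [Finset.sum_apply']
  have h1 : ∀ q ∈ n.primeFactors, q.factorization p = if q = p then 1 else 0 := by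
    intro q hq
    rw [(Nat.prime_of_mem_primeFactors hq).factorization, Finsupp.single_apply]
  rw [sum_congr rfl h1, sum_ite_eq']
  split_ifs with h2 h3 h3
  · exact le_rfl
  · exact absurd (Nat.dvd_of_mem_primeFactors h2) h3
  · exact Nat.zero_le _
  · exact le_rfl

lemma cnd_pos (D c : ℤ) : 0 < cnd D c := by
  unfold cnd
  refine prod_pos fun p hp => ?_
  have := (Nat.prime_of_mem_primeFactors (mem_filter.mp hp).1).pos
  split_ifs <;> positivity

lemma cnd_one {D c : ℤ} (hD : D ≠ 0) {p : ℕ} (hp : p.Prime) (h5 : 5 ≤ p) (h : (p : ℤ) ∣ D) :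
    1 ≤ (cnd D c).factorization p := by
  have hmem : p ∈ D.natAbs.primeFactors.filter (fun p => 5 ≤ p) := by
    rw [mem_filter, Nat.mem_primeFactors]
    exact ⟨⟨hp, Int.natCast_dvd.mp h, Int.natAbs_ne_zero.mpr hD⟩, h5⟩
  have h1 := dvd_prod_of_mem (fun p : ℕ => if (p : ℤ) ∣ c then p ^ 2 else p) hmem
  have h2 : p ∣ cnd D c := by
    refine dvd_trans ?_ h1
    change p ∣ (if (p : ℤ) ∣ c then p ^ 2 else p)
    split_ifs
    · exact dvd_pow_self _ (by norm_num)
    · exact dvd_rfl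
  exact (hp.dvd_iff_one_le_factorization (cnd_pos D c).ne').mp h2

lemma cnd_two {D c : ℤ} (hD : D ≠ 0) {p : ℕ} (hp : p.Prime) (h5 : 5 ≤ p) (h : (p : ℤ) ∣ D)
    (hc : (p : ℤ) ∣ c) : 2 ≤ (cnd D c).factorization p := by
  have hmem : p ∈ D.natAbs.primeFactors.filter (fun p => 5 ≤ p) := by
    rw [mem_filter, Nat.mem_primeFactors]
    exact ⟨⟨hp, Int.natCast_dvd.mp h, Int.natAbs_ne_zero.mpr hD⟩, h5⟩
  have h1 := dvd_prod_of_mem (fun p : ℕ => if (p : ℤ) ∣ c then p ^ 2 else p) hmem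
  simp only [if_pos hc] at h1
  exact (hp.pow_dvd_iff_le_factorization (cnd_pos D c).ne').mp h1

lemma fac_pow_dvd {n : ℤ} {p : ℕ} {k : ℕ} (h : k ≤ n.natAbs.factorization p) :
    (p : ℤ) ^ k ∣ n := by
  have h1 : p ^ k ∣ n.natAbs := (pow_dvd_pow p h).trans (Nat.ordProj_dvd _ _)
  have h2 : ((p ^ k : ℕ) : ℤ) ∣ n := Int.natCast_dvd.mpr h1
  push_cast at h2
  exact h2

lemma one_le_fac {n : ℤ} {p : ℕ} (hp : p.Prime) (hn : n ≠ 0) (h : (p : ℤ) ∣ n) :
    1 ≤ n.natAbs.factorization p :=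
  (hp.dvd_iff_one_le_factorization (Int.natAbs_ne_zero.mpr hn)).mp (Int.natCast_dvd.mp h)

/-- the exponents of a big prime -/
lemma big_exp {c4 c6 : ℤ} (hprim : ∀ r : ℤ, r ^ 4 ∣ 27 * c4 → r ^ 6 ∣ 54 * c6 → |r| ≤ (6 : ℕ))
    {p : ℕ} (h7 : 7 ≤ p) (h4 : (p : ℤ) ^ 4 ∣ c4) (h6 : (p : ℤ) ^ 6 ∣ c6) : False := by
  have h1 := hprim p (h4.mul_left 27) (h6.mul_left 54)
  rw [Nat.abs_cast] at h1
  push_cast at h1
  omega

/-- the exponents of a small prime -/
lemma small_exp {c4 c6 : ℤ} (hprim : ∀ r : ℤ, r ^ 4 ∣ 27 * c4 → r ^ 6 ∣ 54 * c6 → |r| ≤ (6 : ℕ))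
    {p : ℕ} (h2 : 2 ≤ p) (h4 : (p : ℤ) ^ 12 ∣ c4) (h6 : (p : ℤ) ^ 18 ∣ c6) : False := by
  have h1 := hprim ((p : ℤ) ^ 3) (by
    rw [← pow_mul]; exact h4.mul_left 27) (by
    rw [← pow_mul]; exact h6.mul_left 54)
  rw [abs_pow, Nat.abs_cast] at h1
  have h3 : (2 : ℤ) ^ 3 ≤ (p : ℤ) ^ 3 := pow_le_pow_left₀ (by norm_num) (by exact_mod_cast h2) 3
  push_cast at h1
  omega

lemma small_list {p : ℕ} (hp : p.Prime) (h : ¬ 7 ≤ p) : p = 2 ∨ p = 3 ∨ p = 5 := by
  have h2 := hp.two_le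
  interval_cases p
  · exact Or.inl rfl
  · exact Or.inr (Or.inl rfl)
  · exact absurd hp (by norm_num)
  · exact Or.inr (Or.inr rfl)
  · exact absurd hp (by norm_num)

lemma fac30 {p : ℕ} (hp : p.Prime) (h : ¬ 7 ≤ p) : 35 ≤ (30 ^ 35 : ℕ).factorization p := by
  refine (hp.pow_dvd_iff_le_factorization (by norm_num)).mp (pow_dvd_pow_of_dvd ?_ 35)
  rcases small_list hp h with rfl | rfl | rfl <;> norm_num

lemma not_dvd_1728 {p : ℕ} (hp : p.Prime) (h7 : 7 ≤ p) : ¬ (p : ℤ) ∣ 1728 := by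
  intro h
  have h1 : p ∣ 1728 := by exact_mod_cast h
  have h2 : (1728 : ℕ) = 2 ^ 6 * 3 ^ 3 := by norm_num
  rw [h2] at h1
  rcases (hp.dvd_mul).mp h1 with h | h
  · have := Nat.le_of_dvd (by norm_num) (hp.dvd_of_dvd_pow h)
    omega
  · have := Nat.le_of_dvd (by norm_num) (hp.dvd_of_dvd_pow h)
    omega

/-- the prime-by-prime estimate, both invariants different from zero -/
theorem dvd_main {c4 c6 D : ℤ} (hD : D ≠ 0) (hrel : c4 ^ 3 - c6 ^ 2 = 1728 * D)
    (hprim : ∀ r : ℤ, r ^ 4 ∣ 27 * c4 → r ^ 6 ∣ 54 * c6 → |r| ≤ (6 : ℕ))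
    (h4 : c4 ≠ 0) (h6 : c6 ≠ 0) (g : ℕ) (hg : g = Nat.gcd (c4.natAbs ^ 3) (c6.natAbs ^ 2)) :
    g * rad ((c4.natAbs ^ 3 / g) * (c6.natAbs ^ 2 / g) * ((1728 * D).natAbs / g)) ∣
      30 ^ 35 * (c4.natAbs * c6.natAbs * cnd D c4) := by
  set a := c4.natAbs with ha
  set b := c6.natAbs with hb
  have ha0 : a ≠ 0 := Int.natAbs_ne_zero.mpr h4
  have hb0 : b ≠ 0 := Int.natAbs_ne_zero.mpr h6
  have hg0 : g ≠ 0 := by
    rw [hg]
    exact Nat.gcd_ne_zero_left (pow_ne_zero _ ha0)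
  have hga : g ∣ a ^ 3 := hg ▸ Nat.gcd_dvd_left _ _
  have hgb : g ∣ b ^ 2 := hg ▸ Nat.gcd_dvd_right _ _
  have hN0 := (cnd_pos D c4).ne'
  have hr0 := (rad_pos ((a ^ 3 / g) * (b ^ 2 / g) * ((1728 * D).natAbs / g))).ne'
  rw [← Nat.factorization_prime_le_iff_dvd (mul_ne_zero hg0 hr0)
    (mul_ne_zero (by norm_num) (mul_ne_zero (mul_ne_zero ha0 hb0) hN0))]
  intro p hp
  rw [Nat.factorization_mul hg0 hr0, Nat.factorization_mul (by norm_num)
    (mul_ne_zero (mul_ne_zero ha0 hb0) hN0), Nat.factorization_mul (mul_ne_zero ha0 hb0) hN0,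
    Nat.factorization_mul ha0 hb0]
  simp only [Finsupp.add_apply]
  have hvg : g.factorization p = min (3 * a.factorization p) (2 * b.factorization p) := by
    rw [hg, Nat.factorization_gcd (pow_ne_zero _ ha0) (pow_ne_zero _ hb0), Finsupp.inf_apply,
      Nat.factorization_pow, Nat.factorization_pow]
    rfl
  have hrad := rad_fac ((a ^ 3 / g) * (b ^ 2 / g) * ((1728 * D).natAbs / g)) p hp
  by_cases h7 : 7 ≤ p
  · have hbig : ¬ (4 ≤ a.factorization p ∧ 6 ≤ b.factorization p) := fun h =>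
      big_exp hprim h7 (fac_pow_dvd h.1) (fac_pow_dvd h.2)
    by_cases hab : 1 ≤ a.factorization p ∧ 1 ≤ b.factorization p
    · have hpa : (p : ℤ) ∣ c4 := by simpa using fac_pow_dvd hab.1
      have hpb : (p : ℤ) ∣ c6 := by simpa using fac_pow_dvd hab.2
      have hpD : (p : ℤ) ∣ D := by
        have h1 : (p : ℤ) ∣ 1728 * D := by
          rw [← hrel]
          exact dvd_sub (dvd_pow hpa (by norm_num)) (dvd_pow hpb (by norm_num))
        exact ((Nat.prime_iff_prime_int.mp hp).dvd_or_dvd h1).resolve_left (not_dvd_1728 hp h7)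
      have h2 := cnd_two hD hp (by omega) hpD hpa
      have hrad1 : (rad ((a ^ 3 / g) * (b ^ 2 / g) * ((1728 * D).natAbs / g))).factorization p
          ≤ 1 := by
        refine hrad.trans ?_
        split_ifs <;> omega
      rw [hvg]
      omega
    · have hg1 : g.factorization p = 0 := by
        rw [hvg]
        omega
      split_ifs at hrad with hdv
      · rcases (hp.dvd_mul).mp hdv with hdv | hdv
        · rcases (hp.dvd_mul).mp hdv with hdv | hdv
          · have h1 : p ∣ a := hp.dvd_of_dvd_pow (hdv.trans (Nat.div_dvd_of_dvd hga))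
            have h2 := (hp.dvd_iff_one_le_factorization ha0).mp h1
            omega
          · have h1 : p ∣ b := hp.dvd_of_dvd_pow (hdv.trans (Nat.div_dvd_of_dvd hgb))
            have h2 := (hp.dvd_iff_one_le_factorization hb0).mp h1
            omega
        · have hgD : g ∣ (1728 * D).natAbs := by
            rw [← hrel]
            apply Int.natCast_dvd.mp
            have e1 : (g : ℤ) ∣ c4 ^ 3 := by
              rw [Int.natCast_dvd, Int.natAbs_pow]; exact hga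
            have e2 : (g : ℤ) ∣ c6 ^ 2 := by
              rw [Int.natCast_dvd, Int.natAbs_pow]; exact hgb
            exact dvd_sub e1 e2
          have h1 : p ∣ (1728 * D).natAbs := hdv.trans (Nat.div_dvd_of_dvd hgD)
          have hpD : (p : ℤ) ∣ D :=
            ((Nat.prime_iff_prime_int.mp hp).dvd_or_dvd (Int.natCast_dvd.mpr h1)).resolve_left
              (not_dvd_1728 hp h7)
          have h2 := cnd_one (c := c4) hD hp (by omega) hpD
          omega
      · omega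
  · have hsm : ¬ (12 ≤ a.factorization p ∧ 18 ≤ b.factorization p) := fun h =>
      small_exp hprim hp.two_le (fac_pow_dvd h.1) (fac_pow_dvd h.2)
    have h30 := fac30 hp h7
    have hrad1 : (rad ((a ^ 3 / g) * (b ^ 2 / g) * ((1728 * D).natAbs / g))).factorization p
        ≤ 1 := by
      refine hrad.trans ?_
      split_ifs <;> omega
    rw [hvg]
    omega

/-- the case `c₄ = 0` -/
theorem dvd_c4 {c6 D : ℤ} (hD : D ≠ 0) (hrel : (0 : ℤ) ^ 3 - c6 ^ 2 = 1728 * D)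
    (hprim : ∀ r : ℤ, r ^ 4 ∣ 27 * (0 : ℤ) → r ^ 6 ∣ 54 * c6 → |r| ≤ (6 : ℕ)) :
    c6.natAbs ^ 2 ∣ 30 ^ 35 * cnd D 0 ^ 5 := by
  have h6 : c6 ≠ 0 := by
    rintro rfl
    apply hD
    have : 1728 * D = 0 := by rw [← hrel]; norm_num
    omega
  set b := c6.natAbs with hb
  have hb0 : b ≠ 0 := Int.natAbs_ne_zero.mpr h6
  have hN0 := (cnd_pos D 0).ne'
  rw [← Nat.factorization_prime_le_iff_dvd (pow_ne_zero _ hb0)
    (mul_ne_zero (by norm_num) (pow_ne_zero _ hN0))]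
  intro p hp
  rw [Nat.factorization_mul (by norm_num) (pow_ne_zero _ hN0), Nat.factorization_pow b,
    Nat.factorization_pow (cnd D 0)]
  simp only [Finsupp.add_apply, Finsupp.smul_apply, smul_eq_mul]
  by_cases h7 : 7 ≤ p
  · have hbig : ¬ (6 ≤ b.factorization p) := fun h =>
      big_exp hprim h7 (dvd_zero _) (fac_pow_dvd h)
    by_cases hpb : 1 ≤ b.factorization p
    · have hpb' : (p : ℤ) ∣ c6 := by simpa using fac_pow_dvd hpb
      have hpD : (p : ℤ) ∣ D := by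
        have h1 : (p : ℤ) ∣ 1728 * D := by
          rw [← hrel]
          exact dvd_sub (by norm_num) (dvd_pow hpb' (by norm_num))
        exact ((Nat.prime_iff_prime_int.mp hp).dvd_or_dvd h1).resolve_left (not_dvd_1728 hp h7)
      have h2 := cnd_two (c := 0) hD hp (by omega) hpD (dvd_zero _)
      omega
    · omega
  · have hsm : ¬ (18 ≤ b.factorization p) := fun h =>
      small_exp hprim hp.two_le (dvd_zero _) (fac_pow_dvd h)
    have h30 := fac30 hp h7
    omega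

/-- the case `c₆ = 0` -/
theorem dvd_c6 {c4 D : ℤ} (hD : D ≠ 0) (hrel : c4 ^ 3 - (0 : ℤ) ^ 2 = 1728 * D)
    (hprim : ∀ r : ℤ, r ^ 4 ∣ 27 * c4 → r ^ 6 ∣ 54 * (0 : ℤ) → |r| ≤ (6 : ℕ)) :
    c4.natAbs ^ 3 ∣ 30 ^ 35 * cnd D c4 ^ 5 := by
  have h4 : c4 ≠ 0 := by
    rintro rfl
    apply hD
    have : 1728 * D = 0 := by rw [← hrel]; norm_num
    omega
  set a := c4.natAbs with ha
  have ha0 : a ≠ 0 := Int.natAbs_ne_zero.mpr h4
  have hN0 := (cnd_pos D c4).ne'
  rw [← Nat.factorization_prime_le_iff_dvd (pow_ne_zero _ ha0)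
    (mul_ne_zero (by norm_num) (pow_ne_zero _ hN0))]
  intro p hp
  rw [Nat.factorization_mul (by norm_num) (pow_ne_zero _ hN0), Nat.factorization_pow a,
    Nat.factorization_pow (cnd D c4)]
  simp only [Finsupp.add_apply, Finsupp.smul_apply, smul_eq_mul]
  by_cases h7 : 7 ≤ p
  · have hbig : ¬ (4 ≤ a.factorization p) := fun h =>
      big_exp hprim h7 (fac_pow_dvd h) (dvd_zero _)
    by_cases hpa : 1 ≤ a.factorization p
    · have hpa' : (p : ℤ) ∣ c4 := by simpa using fac_pow_dvd hpa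
      have hpD : (p : ℤ) ∣ D := by
        have h1 : (p : ℤ) ∣ 1728 * D := by
          rw [← hrel]
          exact dvd_sub (dvd_pow hpa' (by norm_num)) (by norm_num)
        exact ((Nat.prime_iff_prime_int.mp hp).dvd_or_dvd h1).resolve_left (not_dvd_1728 hp h7)
      have h2 := cnd_two hD hp (by omega) hpD hpa'
      omega
    · omega
  · have hsm : ¬ (12 ≤ a.factorization p) := fun h =>
      small_exp hprim hp.two_le (fac_pow_dvd h) (dvd_zero _)
    have h30 := fac30 hp h7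
    omega

end Pool.Agent.R948.Sz
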