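import Pool.Agent.R948.Drop

/-!
# The dimension of the locus of a point
-/

set_option autoImplicit false

namespace Pool.Agent.R948

open MvPolynomial

section

variable (F : Type) [Field F] {ι κ A B : Type} [Fintype ι] [Fintype κ] [CommRing A] [IsDomain A]
  [Algebra F A] [CommRing B] [IsDomain B] [Algebra F B]

/-- the transcendence degree of a family of elements of a domain -/
noncomputable def td (z : ι → A) : ℕ :=
  ((AlgebraicIndependent.matroid F A).eRk (Set.range z)).toNat

theorem eRk_le_card (z : ι → A) :
    (AlgebraicIndependent.matroid F A).eRk (Set.range z) ≤ Fintype.card ι := by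
  have h1 := (AlgebraicIndependent.matroid F A).eRk_le_encard (Set.range z)
  have h2 : (Set.range z).encard ≤ Fintype.card ι := by
    rw [← Set.image_univ]
    refine (Set.encard_image_le _ _).trans ?_
    rw [Set.encard_univ, ENat.card_eq_coe_fintype_card]
  exact h1.trans h2

theorem td_spec (z : ι → A) :
    (td F z : ℕ∞) = (AlgebraicIndependent.matroid F A).eRk (Set.range z) :=
  ENat.natCast_toNat (ne_top_of_le_ne_top (ENat.natCast_ne_top _) (eRk_le_card F z))

theorem td_le_card (z : ι → A) : td F z ≤ Fintype.card ι := by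
  have h := eRk_le_card F z
  rw [← td_spec] at h
  exact_mod_cast h

theorem le_td {z : ι → A} {S : Finset ι} (h : AlgebraicIndependent F (fun i : S => z i)) :
    S.card ≤ td F z := by
  have h1 : AlgebraicIndepOn F id (Set.range (fun i : S => z i)) := h.to_subtype_range
  have h2 := Matroid.Indep.encard_le_eRk_of_subset (M := AlgebraicIndependent.matroid F A)
    (X := Set.range z) h1 (by
      rintro _ ⟨i, rfl⟩
      exact ⟨i, rfl⟩)
  rw [← td_spec, ← Set.image_univ, h.injective.encard_image, Set.encard_univ,
    ENat.card_eq_coe_fintype_card, Fintype.card_coe] at h2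
  exact_mod_cast h2

theorem exists_td (z : ι → A) : ∃ S : Finset ι, S.card = td F z ∧
    AlgebraicIndependent F (fun i : S => z i) ∧
    ∀ i, IsAlgebraic (Algebra.adjoin F (z '' S)) (z i) := by
  classical
  obtain ⟨I, hI⟩ := (AlgebraicIndependent.matroid F A).exists_isBasis (Set.range z)
    (by simp)
  have hI2 := hI.eRk_eq_encard
  rw [AlgebraicIndependent.matroid_isBasis_iff] at hI
  obtain ⟨h1, h2, h3⟩ := hI
  choose g hg using fun a : I => h2 a.2
  have hginj : Function.Injective g := by
    intro a b hab
    apply Subtype.ext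
    rw [← hg a, ← hg b, hab]
  have hfin : (Set.range g).Finite := Set.toFinite _
  have him : z '' (hfin.toFinset : Set ι) = I := by
    ext a
    constructor
    · rintro ⟨i, hi, rfl⟩
      rw [Set.Finite.coe_toFinset] at hi
      obtain ⟨b, rfl⟩ := hi
      rw [hg b]
      exact b.2
    · intro ha
      exact ⟨g ⟨a, ha⟩, by rw [Set.Finite.coe_toFinset]; exact ⟨_, rfl⟩, hg ⟨a, ha⟩⟩
  refine ⟨hfin.toFinset, ?_, ?_, ?_⟩
  · have h4 : ((hfin.toFinset.card : ℕ) : ℕ∞) = (td F z : ℕ∞) := by
      rw [td_spec, hI2, ← hfin.encard_eq_coe_toFinset_card, ← Set.image_univ, hginj.encard_image,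
        Set.encard_univ]
      rfl
    exact_mod_cast h4
  · have e : ∀ i : hfin.toFinset, ∃ a : I, g a = i := by
      intro i
      have := i.2
      rw [Set.Finite.mem_toFinset] at this
      exact this
    choose e he using e
    have heinj : Function.Injective e := by
      intro a b hab
      apply Subtype.ext
      rw [← he a, ← he b, hab]
    have h5 : (fun i : hfin.toFinset => z i) = (fun a : I => (a : A)) ∘ e := by
      funext i
      rw [Function.comp_apply, ← hg (e i), he i]
    rw [h5]
    exact AlgebraicIndependent.comp h1 e heinj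
  · intro i
    rw [him]
    exact h3 _ ⟨i, rfl⟩

theorem td_le_of_alg {z : ι → A} {w : κ → A}
    (h : ∀ i, IsAlgebraic (Algebra.adjoin F (Set.range w)) (z i)) : td F z ≤ td F w := by
  have h1 : Set.range z ⊆ (AlgebraicIndependent.matroid F A).closure (Set.range w) := by
    rintro _ ⟨i, rfl⟩
    rw [AlgebraicIndependent.matroid_closure_eq]
    exact h i
  have h2 := (AlgebraicIndependent.matroid F A).eRk_mono h1
  rw [Matroid.eRk_closure_eq, ← td_spec, ← td_spec] at h2
  exact_mod_cast h2

theorem td_le_of_ker {z : ι → A} {z' : ι → B}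
    (h : ∀ f : MvPolynomial ι F, aeval z f = 0 → aeval z' f = 0) : td F z' ≤ td F z := by
  classical
  obtain ⟨S, hS, hind, -⟩ := exists_td F z'
  rw [← hS]
  apply le_td
  rw [algebraicIndependent_iff]
  intro p hp
  refine algebraicIndependent_iff.1 hind p ?_
  have h1 := h (rename Subtype.val p) (by rw [aeval_rename]; exact hp)
  rw [aeval_rename] at h1
  exact h1

/-- the transcendence degree of a domain generated by a family (up to algebraic elements) -/
theorem td_eq_trdeg (z : ι → A) (h : ∀ a : A, IsAlgebraic (Algebra.adjoin F (Set.range z)) a) :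
    (td F z : Cardinal) = Algebra.trdeg F A := by
  obtain ⟨S, hS, hind, hS2⟩ := exists_td F z
  have hb : IsTranscendenceBasis F (fun i : S => z i) := by
    rw [hind.isTranscendenceBasis_iff_isAlgebraic]
    refine ⟨fun a => ?_⟩
    have h1 : Set.range (fun i : S => z i) = z '' S := by
      ext b
      simp
    rw [h1]
    refine (h a).adjoin_of_forall_isAlgebraic ?_
    rintro x ⟨⟨i, rfl⟩, -⟩
    exact hS2 i
  have h2 := hb.cardinalMk_eq_trdeg
  rw [← h2, ← hS]
  simp

end

end Pool.Agent.R948
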