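import Pool.Agent.R948.ZPb

/-!
# Extension of self-maps of closed subsets of projective spaces
-/

set_option autoImplicit false
set_option linter.unusedSectionVars false
set_option linter.style.haveILetI false

namespace Pool.Agent.R948.UB

open MvPolynomial Pool.Agent.R948.ZP

variable {ι : Type} [Fintype ι] [DecidableEq ι]

/-- the projective space -/
def PX (ι K : Type) [Field K] : Set (ι → K) := {x | x ≠ 0}

lemma PX_cone {K : Type} [Field K] : IsCone (PX ι K) := fun _ hx _ hc => smul_ne_zero hc hx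

/-- avoiding finitely many conditions over an infinite subfield -/
lemma exists_avoid {k K α : Type} [Field k] [Infinite k] [Field K] [Algebra k K] {β : Type}
    [DecidableEq β] (H : Finset β) (T : Set α) (hT : T.Finite) (u : α → K) (v : α → β → K)
    (h : ∀ a ∈ T, ∃ b ∈ H, v a b ≠ 0) :
    ∃ c : β → k, ∀ a ∈ T, u a + ∑ b ∈ H, algebraMap k K (c b) * v a b ≠ 0 := by
  classical
  let m : β → ℕ := fun b => if hb : b ∈ H then (H.equivFin ⟨b, hb⟩ : ℕ) + 1 else 0
  have hm0 : ∀ b ∈ H, m b ≠ 0 := by
    intro b hb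
    simp only [m, dif_pos hb]
    omega
  have hm : ∀ b ∈ H, ∀ b' ∈ H, m b = m b' → b = b' := by
    intro b hb b' hb' hbb
    simp only [m, dif_pos hb, dif_pos hb'] at hbb
    have h1 : H.equivFin ⟨b, hb⟩ = H.equivFin ⟨b', hb'⟩ := Fin.ext (by omega)
    have h2 := H.equivFin.injective h1
    exact congrArg Subtype.val h2
  let q : α → Polynomial K := fun a => Polynomial.C (u a) +
    ∑ b ∈ H, Polynomial.C (v a b) * Polynomial.X ^ m b
  have hq : ∀ a ∈ T, q a ≠ 0 := by
    intro a ha h0
    obtain ⟨b, hb, hvb⟩ := h a ha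
    have h1 : (q a).coeff (m b) = v a b := by
      simp only [q, Polynomial.coeff_add, Polynomial.finsetSum_coeff,
        Polynomial.coeff_C_mul_X_pow, Polynomial.coeff_C, if_neg (hm0 b hb), zero_add]
      rw [Finset.sum_eq_single b]
      · simp
      · intro b' hb' hne
        rw [if_neg]
        intro heq
        exact hne (hm b' hb' b hb heq.symm)
      · exact fun hb' => absurd hb hb'
    rw [h0, Polynomial.coeff_zero] at h1
    exact hvb h1.symm
  have hfin : (⋃ a ∈ T, {t : k | (q a).eval (algebraMap k K t) = 0}).Finite := by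
    refine hT.biUnion fun a ha => ?_
    have h1 : ((q a).roots.toFinset : Set K).Finite := Finset.finite_toSet _
    refine (h1.preimage ((algebraMap k K).injective.injOn)).subset ?_
    intro t ht
    rw [Set.mem_preimage, Finset.mem_coe, Multiset.mem_toFinset, Polynomial.mem_roots (hq a ha)]
    exact ht
  obtain ⟨t, ht⟩ := hfin.exists_notMem
  refine ⟨fun b => t ^ m b, fun a ha h0 => ht ?_⟩
  refine Set.mem_biUnion ha ?_
  change (q a).eval (algebraMap k K t) = 0
  rw [← h0]
  simp only [q, Polynomial.eval_add, Polynomial.eval_C, Polynomial.eval_finsetSum,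
    Polynomial.eval_mul, Polynomial.eval_pow, Polynomial.eval_X, map_pow]
  congr 1
  exact Finset.sum_congr rfl fun b _ => mul_comm _ _

variable {k K : Type} [Field k] [Infinite k] [Field K] [Algebra k K] [IsAlgClosed K]

lemma closed_form {d : ℕ} {g : MvPolynomial ι k} (hg : g.IsHomogeneous d) :
    Closed (PX ι K) (PX ι K ∩ {x | aeval x g = 0}) := by
  have key : ∀ x : ι → K, aeval x g = eval x (map (algebraMap k K) g) := fun x =>
    (aeval_def x g).trans (eval_map (algebraMap k K) x g).symm
  refine ⟨?_, {map (algebraMap k K) g}, ?_⟩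
  · rintro x ⟨hx, hx2⟩ c hc
    refine ⟨PX_cone x hx c hc, ?_⟩
    change aeval (c • x) g = 0
    change aeval x g = 0 at hx2
    rw [key] at hx2 ⊢
    rw [eval_smul_of_hom (hg.map _), hx2, mul_zero]
  · ext x
    constructor
    · rintro ⟨hx, hx2⟩
      refine ⟨hx, fun f hf => ?_⟩
      rw [Set.mem_singleton_iff.1 hf, ← key]
      exact hx2
    · rintro ⟨hx, hx2⟩
      refine ⟨hx, ?_⟩
      change aeval x g = 0
      rw [key]
      exact hx2 _ rfl

/-- **extension**: forms without common zero on the set defined by forms of the same degree can be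
modified to forms without common zero -/
theorem exists_extension {d : ℕ} (H : Finset (MvPolynomial ι k)) (hH : ∀ h ∈ H, h.IsHomogeneous d)
    (F : ι → MvPolynomial ι k) (hF : ∀ i, (F i).IsHomogeneous d)
    (hz : ∀ x : ι → K, (∀ h ∈ H, aeval x h = 0) → (∀ i, aeval x (F i) = 0) → x = 0) :
    ∃ G : ι → MvPolynomial ι k, (∀ i, (G i).IsHomogeneous d) ∧
      (∀ x : ι → K, (∀ i, aeval x (G i) = 0) → x = 0) ∧
      ∀ i, ∃ a : MvPolynomial ι k → k, G i = F i + ∑ h ∈ H, C (a h) * h := by
  classical
  haveI : Infinite K := IsAlgClosed.instInfinite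
  have hcone : IsCone (PX ι K) := PX_cone
  have h0X : (0 : ι → K) ∉ PX ι K := fun h => h rfl
  have main : ∀ s : Finset ι, ∃ (A : ι → MvPolynomial ι k → k) (𝓕 : Set (Set (ι → K))), 𝓕.Finite ∧
      (∀ V ∈ 𝓕, Subvariety (PX ι K) V ∧ vd V + s.card ≤ Fintype.card ι) ∧
      ∀ x : ι → K, x ≠ 0 → (∀ i ∈ s, aeval x (F i + ∑ h ∈ H, C (A i h) * h) = 0) →
        (∀ h ∈ H, aeval x h = 0) ∨ ∃ V ∈ 𝓕, x ∈ V := by
    intro s
    induction s using Finset.induction_on with
    | empty =>
      obtain ⟨𝓕, hf, hs, hu⟩ := exists_decomp (PX ι K) (closed_self hcone)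
      refine ⟨fun _ _ => 0, 𝓕, hf, fun V hV => ⟨hs V hV, ?_⟩, fun x hx _ => Or.inr ?_⟩
      · rw [Finset.card_empty, add_zero]
        exact vd_le_card hcone (hs V hV)
      · have h1 : x ∈ ⋃₀ 𝓕 := by
          rw [hu]
          exact hx
        exact h1
    | insert j s hj ih =>
      obtain ⟨A, 𝓕, hf, hs, hcov⟩ := ih
      let 𝓖 : Set (Set (ι → K)) := {V | V ∈ 𝓕 ∧ ∃ p ∈ V, ∃ h ∈ H, aeval p h ≠ 0}
      have hG : 𝓖.Finite := hf.subset fun V hV => hV.1
      have hex : ∀ V : Set (ι → K), ∃ p : ι → K, V ∈ 𝓖 → p ∈ V ∧ ∃ h ∈ H, aeval p h ≠ 0 := by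
        intro V
        by_cases hV : V ∈ 𝓖
        · obtain ⟨p, hp, hph⟩ := hV.2
          exact ⟨p, fun _ => ⟨hp, hph⟩⟩
        · exact ⟨0, fun h => absurd h hV⟩
      choose p hp using hex
      obtain ⟨c, hc⟩ := exists_avoid (k := k) (K := K) H 𝓖 hG (fun V => aeval (p V) (F j))
        (fun V h => aeval (p V) h) (fun V hV => (hp V hV).2)
      let g : MvPolynomial ι k := F j + ∑ h ∈ H, C (c h) * h
      have hgh : g.IsHomogeneous d := by
        refine (hF j).add (IsHomogeneous.sum _ _ _ fun h hh => ?_)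
        have := (isHomogeneous_C ι (c h)).mul (hH h hh)
        rwa [zero_add] at this
      have hgp : ∀ V ∈ 𝓖, aeval (p V) g ≠ 0 := by
        intro V hV
        have h1 := hc V hV
        simp only [g, map_add, map_sum, map_mul, aeval_C]
        exact h1
      have hdec : ∀ V : Set (ι → K), ∃ 𝓗 : Set (Set (ι → K)), V ∈ 𝓖 → 𝓗.Finite ∧
          (∀ W ∈ 𝓗, Subvariety (PX ι K) W) ∧
          ⋃₀ 𝓗 = V ∩ (PX ι K ∩ {x | aeval x g = 0}) := by
        intro V
        by_cases hV : V ∈ 𝓖
        · obtain ⟨𝓗, h1, h2, h3⟩ := exists_decomp (PX ι K)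
            (((hs V hV.1).1.closed).inter (closed_form (K := K) hgh))
          exact ⟨𝓗, fun _ => ⟨h1, h2, h3⟩⟩
        · exact ⟨∅, fun h => absurd h hV⟩
      choose 𝓗 h𝓗 using hdec
      refine ⟨Function.update A j c, ⋃ V ∈ 𝓖, 𝓗 V, ?_, ?_, ?_⟩
      · exact hG.biUnion fun V hV => (h𝓗 V hV).1
      · intro W hW
        obtain ⟨V, hV, hWV⟩ := Set.mem_iUnion₂.1 hW
        obtain ⟨h1, h2, h3⟩ := h𝓗 V hV
        have hWsub : W ⊆ V ∩ (PX ι K ∩ {x | aeval x g = 0}) := by
          rw [← h3]
          exact Set.subset_sUnion_of_mem hWV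
        refine ⟨h2 W hWV, ?_⟩
        have h4 : W ⊂ V := by
          refine Set.ssubset_iff_subset_ne.2 ⟨hWsub.trans Set.inter_subset_left, ?_⟩
          intro heq
          apply hgp V hV
          have h5 : p V ∈ W := by
            rw [heq]
            exact (hp V hV).1
          exact (hWsub h5).2.2
        have h6 := vd_strict hcone (h2 W hWV) (hs V hV.1).1 h4
        have h7 := (hs V hV.1).2
        rw [Finset.card_insert_of_notMem hj]
        omega
      · intro x hx hxs
        have hxs' : ∀ i ∈ s, aeval x (F i + ∑ h ∈ H, C (A i h) * h) = 0 := by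
          intro i hi
          have h1 := hxs i (Finset.mem_insert_of_mem hi)
          have hij : i ≠ j := fun h => hj (h ▸ hi)
          rwa [Function.update_of_ne hij] at h1
        rcases hcov x hx hxs' with h1 | ⟨V, hV, hxV⟩
        · exact Or.inl h1
        · by_cases hVG : V ∈ 𝓖
          · right
            have h2 : x ∈ ⋃₀ 𝓗 V := by
              rw [(h𝓗 V hVG).2.2]
              refine ⟨hxV, hx, ?_⟩
              have h3 := hxs j (Finset.mem_insert_self _ _)
              rw [Function.update_self] at h3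
              exact h3
            obtain ⟨W, hW, hxW⟩ := h2
            exact ⟨W, Set.mem_biUnion hVG hW, hxW⟩
          · left
            intro h hh
            by_contra hne
            exact hVG ⟨hV, x, hxV, h, hh, hne⟩
  obtain ⟨A, 𝓕, hf, hs, hcov⟩ := main Finset.univ
  refine ⟨fun i => F i + ∑ h ∈ H, C (A i h) * h, fun i => ?_, fun x hx => ?_, fun i => ⟨A i, rfl⟩⟩
  · refine (hF i).add (IsHomogeneous.sum _ _ _ fun h hh => ?_)
    have := (isHomogeneous_C ι (A i h)).mul (hH h hh)
    rwa [zero_add] at this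
  · by_contra hx0
    rcases hcov x hx0 (fun i _ => hx i) with h1 | ⟨V, hV, hxV⟩
    · apply hx0
      refine hz x h1 fun i => ?_
      have h2 := hx i
      simp only [map_add, map_sum, map_mul] at h2
      rw [Finset.sum_eq_zero (fun h hh => by rw [h1 h hh, mul_zero]), add_zero] at h2
      exact h2
    · obtain ⟨h1, h2⟩ := hs V hV
      have h3 := vd_mono hcone (line_sub hcone h0X (h1.subset hxV)) h1
        (line_subset h1.closed.1 hxV)
      rw [vd_line hcone h0X (h1.subset hxV)] at h3
      rw [Finset.card_univ] at h2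
      omega

end Pool.Agent.R948.UB
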