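import Pool.Agent.R948.UBa

/-!
# Cyclic towers of Veronese embeddings
-/

set_option autoImplicit false
set_option linter.unusedSectionVars false
set_option linter.style.haveILetI false

namespace Pool.Agent.R948.UB

open MvPolynomial

section exponents

variable {σ : Type} [Fintype σ] [DecidableEq σ]

lemma sum_single (l : σ) (n : ℕ) : ∑ j, (Pi.single l n : σ → ℕ) j = n := by
  rw [Finset.sum_pi_single']
  simp

lemma sum_add' (a b : σ → ℕ) : ∑ l, (a + b) l = ∑ l, a l + ∑ l, b l := Finset.sum_add_distrib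

lemma eq_single {n : ℕ} {a : σ → ℕ} {l : σ} (ha : ∑ j, a j = n) (hl : n ≤ a l) :
    a = Pi.single l n := by
  have h1 : a l + ∑ j ∈ Finset.univ.erase l, a j = n := by
    rw [Finset.add_sum_erase _ _ (Finset.mem_univ l), ha]
  funext j
  by_cases hj : j = l
  · subst hj
    rw [Pi.single_eq_same]
    omega
  · rw [Pi.single_eq_of_ne hj]
    have h2 : ∑ j ∈ Finset.univ.erase l, a j = 0 := by omega
    rw [Finset.sum_eq_zero_iff] at h2
    exact h2 j (Finset.mem_erase.2 ⟨hj, Finset.mem_univ j⟩)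

lemma exists_pos {n : ℕ} {a : σ → ℕ} (ha : ∑ j, a j = n) (hn : 0 < n) : ∃ l, 0 < a l := by
  by_contra hcon
  push Not at hcon
  have : ∑ j, a j = 0 := Finset.sum_eq_zero fun j _ => Nat.le_zero.1 (hcon j)
  omega

lemma exists_other {n : ℕ} {a : σ → ℕ} {l : σ} (ha : ∑ j, a j = n) (hl : a l < n) :
    ∃ j, j ≠ l ∧ 0 < a j := by
  by_contra hcon
  push Not at hcon
  have : ∑ j, a j = a l := Finset.sum_eq_single l
    (fun j _ hj => Nat.le_zero.1 (hcon j hj)) (fun h => absurd (Finset.mem_univ l) h)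
  omega

lemma exists_sub {a : σ → ℕ} {l : σ} (h : 0 < a l) :
    ∃ a' : σ → ℕ, a = a' + Pi.single l 1 := by
  refine ⟨a - Pi.single l 1, ?_⟩
  rw [tsub_add_cancel_of_le]
  intro j
  by_cases hj : j = l
  · subst hj
    rw [Pi.single_eq_same]
    exact h
  · rw [Pi.single_eq_of_ne hj]
    exact Nat.zero_le _

/-- monomials -/
def mon {R : Type} [CommMonoid R] (x : σ → R) (a : σ → ℕ) : R := ∏ l, x l ^ a l

lemma mon_add {R : Type} [CommMonoid R] (x : σ → R) (a b : σ → ℕ) :
    mon x (a + b) = mon x a * mon x b := by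
  unfold mon
  rw [← Finset.prod_mul_distrib]
  exact Finset.prod_congr rfl fun l _ => pow_add _ _ _

lemma mon_single {R : Type} [CommMonoid R] (x : σ → R) (l : σ) (n : ℕ) :
    mon x (Pi.single l n) = x l ^ n := by
  unfold mon
  rw [Finset.prod_eq_single l]
  · rw [Pi.single_eq_same]
  · intro j _ hj
    rw [Pi.single_eq_of_ne hj, pow_zero]
  · exact fun h => absurd (Finset.mem_univ l) h

/-- **the equations of the Veronese embedding** -/
lemma rank_one {K : Type} [Field K] [IsAlgClosed K] {n : ℕ} (hn : 0 < n) (Z : (σ → ℕ) → K)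
    (hrel : ∀ a b c e : σ → ℕ, ∑ l, a l = n → ∑ l, b l = n → ∑ l, c l = n → ∑ l, e l = n →
      a + b = c + e → Z a * Z b = Z c * Z e)
    (hne : ∃ a, ∑ l, a l = n ∧ Z a ≠ 0) :
    ∃ x : σ → K, ∀ a, ∑ l, a l = n → Z a = mon x a := by
  obtain ⟨a₀, ha₀, hZ₀⟩ := hne
  obtain ⟨l, hl⟩ := exists_pos ha₀ hn
  have climb : ∀ t : ℕ, ∀ a : σ → ℕ, n - a l = t → ∑ j, a j = n → 0 < a l → Z a ≠ 0 →
      Z (Pi.single l n) ≠ 0 := by
    intro t
    induction t with
    | zero =>
      intro a ht ha _ hZ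
      rwa [eq_single (l := l) ha (by omega)] at hZ
    | succ t ih =>
      intro a ht ha hal hZ
      obtain ⟨l', hne, hl'⟩ := exists_other (l := l) ha (by omega)
      obtain ⟨a', ha'⟩ := exists_sub hl'
      obtain ⟨a'', ha''⟩ := exists_sub hal
      have s1 : ∑ j, a' j + 1 = n := by
        rw [← ha, ha', sum_add', sum_single]
      have s2 : ∑ j, a'' j + 1 = n := by
        rw [← ha, ha'', sum_add', sum_single]
      have h1 := hrel a a (a' + Pi.single l 1) (a'' + Pi.single l' 1) ha ha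
        (by rw [sum_add', sum_single, s1]) (by rw [sum_add', sum_single, s2]) (by
          calc a + a = (a' + Pi.single l' 1) + (a'' + Pi.single l 1) := by rw [← ha', ← ha'']
            _ = _ := by abel)
      have h2 : Z (a' + Pi.single l 1) ≠ 0 := by
        intro h0
        rw [h0, zero_mul] at h1
        exact hZ (mul_self_eq_zero.1 h1)
      have h3 : (a' + Pi.single l 1 : σ → ℕ) l = a l + 1 := by
        have h4 := congrFun ha' l
        rw [Pi.add_apply, Pi.single_eq_of_ne hne.symm, add_zero] at h4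
        rw [Pi.add_apply, Pi.single_eq_same, h4]
      exact ih _ (by omega) (by rw [sum_add', sum_single, s1]) (by omega) h2
  have hZn : Z (Pi.single l n) ≠ 0 := climb _ a₀ rfl ha₀ hl hZ₀
  obtain ⟨ζ, hζ⟩ := IsAlgClosed.exists_pow_nat_eq (Z (Pi.single l n)) hn
  have hζ0 : ζ ≠ 0 := by
    rintro rfl
    rw [zero_pow hn.ne'] at hζ
    exact hZn hζ.symm
  obtain ⟨n', rfl⟩ : ∃ n', n = n' + 1 := ⟨n - 1, by omega⟩
  refine ⟨fun j => Z (Pi.single l n' + Pi.single j 1) / ζ ^ n', ?_⟩
  set x : σ → K := fun j => Z (Pi.single l n' + Pi.single j 1) / ζ ^ n' with hx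
  have hxl : x l = ζ := by
    rw [hx]
    change Z (Pi.single l n' + Pi.single l 1) / ζ ^ n' = ζ
    rw [← Pi.single_add, ← hζ, pow_succ]
    field_simp
  have hxj : ∀ j, Z (Pi.single l n' + Pi.single j 1) = x j * ζ ^ n' := by
    intro j
    rw [hx]
    field_simp
  have key : ∀ t : ℕ, ∀ a : σ → ℕ, n' + 1 - a l = t → ∑ j, a j = n' + 1 → Z a = mon x a := by
    intro t
    induction t with
    | zero =>
      intro a ht ha
      rw [eq_single (l := l) ha (by omega), mon_single, hxl, hζ]
    | succ t ih =>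
      intro a ht ha
      obtain ⟨l', hne, hl'⟩ := exists_other (l := l) ha (by omega)
      obtain ⟨a', ha'⟩ := exists_sub hl'
      have s1 : ∑ j, a' j + 1 = n' + 1 := by
        rw [← ha, ha', sum_add', sum_single]
      have s3 : ∑ j, (a' + Pi.single l 1 : σ → ℕ) j = n' + 1 := by rw [sum_add', sum_single, s1]
      have h1 := hrel a (Pi.single l (n' + 1)) (a' + Pi.single l 1)
        (Pi.single l n' + Pi.single l' 1) ha (sum_single l _) s3
        (by rw [sum_add', sum_single, sum_single]) (by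
          rw [Pi.single_add]
          conv_lhs => rw [ha']
          abel)
      have h3 : (a' + Pi.single l 1 : σ → ℕ) l = a l + 1 := by
        have h4 := congrFun ha' l
        rw [Pi.add_apply, Pi.single_eq_of_ne hne.symm, add_zero] at h4
        rw [Pi.add_apply, Pi.single_eq_same, h4]
      rw [ih _ (by omega) s3, hxj, ← hζ, mon_add, mon_single, hxl, pow_one] at h1
      have h5 : mon x a = mon x a' * x l' := by
        conv_lhs => rw [ha']
        rw [mon_add, mon_single, pow_one]
      rw [h5]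
      apply mul_right_cancel₀ (pow_ne_zero (n' + 1) hζ0)
      rw [h1]
      ring
  exact fun a ha => key _ a rfl ha

lemma exists_le {n : ℕ} {α : σ → ℕ} (h : n ≤ ∑ l, α l) : ∃ β : σ → ℕ, β ≤ α ∧ ∑ l, β l = n := by
  induction n with
  | zero => exact ⟨0, fun _ => Nat.zero_le _, by simp⟩
  | succ n ih =>
    obtain ⟨β, hβ, hs⟩ := ih (by omega)
    have h1 : ∃ l, β l < α l := by
      by_contra hcon
      push Not at hcon
      have := Finset.sum_le_sum fun l (_ : l ∈ Finset.univ) => hcon l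
      omega
    obtain ⟨l, hl⟩ := h1
    refine ⟨β + Pi.single l 1, fun j => ?_, by rw [sum_add', sum_single, hs]⟩
    by_cases hj : j = l
    · subst hj
      rw [Pi.add_apply, Pi.single_eq_same]
      exact hl
    · rw [Pi.add_apply, Pi.single_eq_of_ne hj]
      exact hβ j

lemma exists_parts (d n : ℕ) (α : σ → ℕ) (h : ∑ l, α l = d * n) :
    ∃ P : Fin d → σ → ℕ, (∀ b, ∑ l, P b l = n) ∧ ∑ b, P b = α := by
  induction d generalizing α with
  | zero =>
    refine ⟨fun b => b.elim0, fun b => b.elim0, ?_⟩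
    rw [zero_mul, Finset.sum_eq_zero_iff] at h
    funext l
    simpa using (h l (Finset.mem_univ l)).symm
  | succ d ih =>
    obtain ⟨β, hβ, hs⟩ := exists_le (n := n) (α := α) (by rw [h]; nlinarith)
    have h1 : β + (α - β) = α := add_tsub_cancel_of_le hβ
    have h2 : ∑ l, (α - β) l = d * n := by
      have h3 : ∑ l, (β + (α - β)) l = (d + 1) * n := by rw [h1, h]
      rw [sum_add', hs, add_mul, one_mul] at h3
      omega
    obtain ⟨P, hP, hPs⟩ := ih (α - β) h2
    refine ⟨Fin.cons β P, fun b => ?_, ?_⟩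
    · refine Fin.cases ?_ (fun i => ?_) b
      · exact hs
      · exact hP i
    · rw [Fin.sum_univ_succ]
      simp only [Fin.cons_zero, Fin.cons_succ]
      rw [hPs, h1]

lemma mon_sum {R : Type} [CommMonoid R] (x : σ → R) {d : ℕ} (P : Fin d → σ → ℕ) :
    ∏ b, mon x (P b) = mon x (∑ b, P b) := by
  unfold mon
  rw [Finset.prod_comm]
  refine Finset.prod_congr rfl fun l _ => ?_
  rw [Finset.prod_pow_eq_pow_sum, Finset.sum_apply]

end exponents

section tower

variable (σ : Type) [Fintype σ] [DecidableEq σ] (s d : ℕ)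

/-- the coordinates: stages and exponents -/
abbrev J : Type := {p : Fin s × (σ → Fin (d ^ s + 1)) // ∑ l, (p.2 l : ℕ) = d ^ (p.1 : ℕ)}

variable {σ s d}

/-- the exponent of a coordinate -/
def ex (p : J σ s d) : σ → ℕ := fun l => p.1.2 l

/-- the stage of a coordinate -/
def stg (p : J σ s d) : ℕ := p.1.1

lemma sum_ex (p : J σ s d) : ∑ l, ex p l = d ^ stg p := p.2

lemma stg_lt (p : J σ s d) : stg p < s := p.1.1.2

lemma J_ext {p p' : J σ s d} (h : stg p = stg p') (h2 : ex p = ex p') : p = p' := by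
  apply Subtype.ext
  refine Prod.ext (Fin.ext h) ?_
  funext l
  exact Fin.ext (congrFun h2 l)

/-- coordinates from stages and exponents -/
def mkJ (hd : 0 < d) (i : ℕ) (hi : i < s) (a : σ → ℕ) (ha : ∑ l, a l = d ^ i) : J σ s d :=
  ⟨(⟨i, hi⟩, fun l => ⟨a l, Nat.lt_succ_of_le (le_trans
    (Finset.single_le_sum (fun _ _ => Nat.zero_le _) (Finset.mem_univ l))
    (ha.le.trans (Nat.pow_le_pow_right hd hi.le)))⟩), ha⟩

lemma stg_mk (hd : 0 < d) (i : ℕ) (hi : i < s) (a : σ → ℕ) (ha : ∑ l, a l = d ^ i) :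
    stg (mkJ (s := s) hd i hi a ha) = i := rfl

lemma ex_mk (hd : 0 < d) (i : ℕ) (hi : i < s) (a : σ → ℕ) (ha : ∑ l, a l = d ^ i) :
    ex (mkJ (s := s) hd i hi a ha) = a := rfl

/-- the point of stage `i` over `x` -/
def vS {R : Type} [CommSemiring R] (i : ℕ) (x : σ → R) : J σ s d → R :=
  fun p => if stg p = i then mon x (ex p) else 0

variable {k : Type} [Field k]

open Classical in
/-- the equations -/
noncomputable def eqs (k : Type) [Field k] (σ : Type) [Fintype σ] [DecidableEq σ] (s d : ℕ) :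
    Finset (MvPolynomial (J σ s d) k) :=
  (Finset.univ : Finset (J σ s d × J σ s d)).image (fun q =>
    if stg q.1 ≠ stg q.2 then X q.1 ^ (d - 1) * X q.2 else 0) ∪
  (Finset.univ : Finset ((J σ s d × J σ s d) × (J σ s d × J σ s d) × J σ s d)).image (fun q =>
    if stg q.1.1 = stg q.1.2 ∧ stg q.1.1 = stg q.2.1.1 ∧ stg q.1.1 = stg q.2.1.2 ∧
        ex q.1.1 + ex q.1.2 = ex q.2.1.1 + ex q.2.1.2 then
      (X q.1.1 * X q.1.2 - X q.2.1.1 * X q.2.1.2) * X q.2.2 ^ (d - 2) else 0)

lemma eqs_hom (hd : 2 ≤ d) : ∀ h ∈ eqs k σ s d, h.IsHomogeneous d := by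
  classical
  intro h hh
  unfold eqs at hh
  rcases Finset.mem_union.1 hh with hh | hh
  · obtain ⟨q, -, rfl⟩ := Finset.mem_image.1 hh
    split_ifs
    · have h1 := ((isHomogeneous_X k q.1).pow (d - 1)).mul (isHomogeneous_X k q.2)
      rwa [show 1 * (d - 1) + 1 = d by omega] at h1
    · exact isHomogeneous_zero _ _ _
  · obtain ⟨q, -, rfl⟩ := Finset.mem_image.1 hh
    split_ifs
    · have h1 := (((isHomogeneous_X k q.1.1).mul (isHomogeneous_X k q.1.2)).sub
        ((isHomogeneous_X k q.2.1.1).mul (isHomogeneous_X k q.2.1.2))).mul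
        ((isHomogeneous_X k q.2.2).pow (d - 2))
      rwa [show 1 + 1 + 1 * (d - 2) = d by omega] at h1
    · exact isHomogeneous_zero _ _ _

lemma eqs_vS {L : Type} [Field L] [Algebra k L] (hd : 2 ≤ d) (i : ℕ) (x : σ → L) :
    ∀ h ∈ eqs k σ s d, aeval (vS i x : J σ s d → L) h = 0 := by
  classical
  intro h hh
  unfold eqs at hh
  rcases Finset.mem_union.1 hh with hh | hh
  · obtain ⟨q, -, rfl⟩ := Finset.mem_image.1 hh
    split_ifs with hq
    · rw [map_mul, map_pow, aeval_X, aeval_X]
      unfold vS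
      split_ifs with h1 h2
      · exact absurd (h1.trans h2.symm) hq
      · rw [mul_zero]
      · rw [zero_pow (by omega), zero_mul]
      · rw [mul_zero]
    · exact map_zero _
  · obtain ⟨q, -, rfl⟩ := Finset.mem_image.1 hh
    split_ifs with hq
    · obtain ⟨h1, h2, h3, h4⟩ := hq
      rw [map_mul, map_sub, map_mul, map_mul, aeval_X, aeval_X, aeval_X, aeval_X]
      unfold vS
      rw [← h1, ← h2, ← h3]
      split_ifs with h5
      · rw [← mon_add, ← mon_add, h4, sub_self, zero_mul]
      · ring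
    · exact map_zero _

/-- **the equations define the union of the stages** -/
lemma eq_vS {K : Type} [Field K] [Algebra k K] [IsAlgClosed K] (hd : 2 ≤ d) (z : J σ s d → K)
    (hz : z ≠ 0) (h : ∀ h ∈ eqs k σ s d, aeval z h = 0) : ∃ i < s, ∃ x : σ → K, z = vS i x := by
  classical
  obtain ⟨c, hc⟩ := Function.ne_iff.1 hz
  have hc : z c ≠ 0 := hc
  have h1 : ∀ b : J σ s d, stg c ≠ stg b → z b = 0 := by
    intro b hb
    have h2 := h _ (Finset.mem_union_left _ (Finset.mem_image_of_mem _ (Finset.mem_univ (c, b))))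
    rw [if_pos hb, map_mul, map_pow, aeval_X, aeval_X] at h2
    exact (mul_eq_zero.1 h2).resolve_left (pow_ne_zero _ hc)
  have h2 : ∀ a b e f : J σ s d, stg a = stg b → stg a = stg e → stg a = stg f →
      ex a + ex b = ex e + ex f → z a * z b = z e * z f := by
    intro a b e f hab hae haf hex
    have h3 := h _ (Finset.mem_union_right _ (Finset.mem_image_of_mem _
      (Finset.mem_univ ((a, b), (e, f), c))))
    rw [if_pos ⟨hab, hae, haf, hex⟩, map_mul, map_sub, map_mul, map_mul, map_pow, aeval_X, aeval_X,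
      aeval_X, aeval_X, aeval_X] at h3
    exact sub_eq_zero.1 ((mul_eq_zero.1 h3).resolve_right (pow_ne_zero _ hc))
  have hd0 : 0 < d := by omega
  let Z : (σ → ℕ) → K := fun a =>
    if ha : ∑ l, a l = d ^ stg c then z (mkJ hd0 (stg c) (stg_lt c) a ha) else 0
  have hZ : ∀ a (ha : ∑ l, a l = d ^ stg c), Z a = z (mkJ hd0 (stg c) (stg_lt c) a ha) :=
    fun a ha => dif_pos ha
  obtain ⟨x, hx⟩ := rank_one (K := K) (n := d ^ stg c) (Nat.pow_pos hd0) Z (by
      intro a b e f ha hb he hf hab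
      rw [hZ a ha, hZ b hb, hZ e he, hZ f hf]
      exact h2 _ _ _ _ rfl rfl rfl hab)
    ⟨ex c, sum_ex c, by
      rw [hZ _ (sum_ex c)]
      have : mkJ hd0 (stg c) (stg_lt c) (ex c) (sum_ex c) = c := J_ext rfl rfl
      rw [this]
      exact hc⟩
  refine ⟨stg c, stg_lt c, x, ?_⟩
  funext p
  unfold vS
  split_ifs with hp
  · have h3 : ∑ l, ex p l = d ^ stg c := by rw [sum_ex, hp]
    rw [← hx _ h3, hZ _ h3]
    congr 1
    exact J_ext hp rfl
  · exact h1 p fun h => hp h.symm

/-- products of coordinates of stage `i` -/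
noncomputable def Wm (k : Type) [Field k] (s d : ℕ) (i : ℕ) (α : σ → ℕ) :
    MvPolynomial (J σ s d) k :=
  if h : 0 < d ∧ i < s ∧ ∑ l, α l = d * d ^ i then
    ∏ b, X (mkJ h.1 i h.2.1 ((exists_parts d (d ^ i) α h.2.2).choose b)
      ((exists_parts d (d ^ i) α h.2.2).choose_spec.1 b)) else 0

lemma Wm_hom (i : ℕ) (α : σ → ℕ) : (Wm k s d i α).IsHomogeneous d := by
  unfold Wm
  split_ifs with h
  · have h1 := IsHomogeneous.prod (Finset.univ : Finset (Fin d))
      (fun b => (X (mkJ h.1 i h.2.1 ((exists_parts d (d ^ i) α h.2.2).choose b)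
      ((exists_parts d (d ^ i) α h.2.2).choose_spec.1 b)) : MvPolynomial (J σ s d) k)) (fun _ => 1)
      (fun b _ => isHomogeneous_X _ _)
    simpa using h1
  · exact isHomogeneous_zero _ _ _

lemma Wm_vS {L : Type} [Field L] [Algebra k L] (hd : 0 < d) (i : ℕ) (hi : i < s) (α : σ → ℕ)
    (hα : ∑ l, α l = d * d ^ i) (j : ℕ) (x : σ → L) :
    aeval (vS j x : J σ s d → L) (Wm k s d i α) = if i = j then mon x α else 0 := by
  have h : 0 < d ∧ i < s ∧ ∑ l, α l = d * d ^ i := ⟨hd, hi, hα⟩
  unfold Wm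
  rw [dif_pos h, map_prod]
  simp only [aeval_X]
  have h1 : ∀ b, (vS j x : J σ s d → L) (mkJ h.1 i h.2.1
      ((exists_parts d (d ^ i) α h.2.2).choose b)
      ((exists_parts d (d ^ i) α h.2.2).choose_spec.1 b)) =
      if i = j then mon x ((exists_parts d (d ^ i) α h.2.2).choose b) else 0 := fun b => rfl
  rw [Finset.prod_congr rfl fun b _ => h1 b]
  split_ifs with hij
  · rw [mon_sum, (exists_parts d (d ^ i) α h.2.2).choose_spec.2]
  · rw [Finset.prod_const, Finset.card_univ, Fintype.card_fin, zero_pow hd.ne']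

/-- the tower map -/
noncomputable def tF (f : σ → MvPolynomial σ k) (p : J σ s d) : MvPolynomial (J σ s d) k :=
  if stg p = 0 then ∑ l, C ((ex p l : ℕ) : k) *
    ∑ α ∈ (f l).support, C (coeff α (f l)) * Wm k s d (s - 1) α
  else Wm k s d (stg p - 1) (ex p)

lemma tF_hom (f : σ → MvPolynomial σ k) (p : J σ s d) : (tF f p).IsHomogeneous d := by
  unfold tF
  split_ifs
  · refine IsHomogeneous.sum _ _ _ fun l _ => ?_
    have h1 : (∑ α ∈ (f l).support, C (coeff α (f l)) * Wm k s d (s - 1) α).IsHomogeneous d := by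
      refine IsHomogeneous.sum _ _ _ fun α _ => ?_
      have := (isHomogeneous_C (J σ s d) (coeff α (f l))).mul (Wm_hom (k := k) (s := s) (s - 1) ⇑α)
      rwa [zero_add] at this
    have := (isHomogeneous_C (J σ s d) ((ex p l : ℕ) : k)).mul h1
    rwa [zero_add] at this
  · exact Wm_hom _ _

lemma exists_one {a : σ → ℕ} (h : ∑ l, a l = 1) : ∃ l, a = Pi.single l 1 := by
  obtain ⟨l, hl⟩ := exists_pos h one_pos
  exact ⟨l, eq_single h hl⟩

lemma tF_vS {L : Type} [Field L] [Algebra k L] (hd : 0 < d) (hs : 0 < s)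
    (f : σ → MvPolynomial σ k) (hf : ∀ l, (f l).IsHomogeneous (d ^ s)) (i : ℕ) (hi : i < s)
    (x : σ → L) (p : J σ s d) : aeval (vS i x : J σ s d → L) (tF f p) =
      if i + 1 < s then vS (i + 1) x p else vS 0 (fun l => aeval x (f l)) p := by
  unfold tF
  split_ifs with h0 h1 h1
  · -- stage zero, `i + 1 < s`
    rw [map_sum]
    have hv : vS (i + 1) x p = 0 := if_neg (by omega)
    rw [hv]
    refine Finset.sum_eq_zero fun l _ => ?_
    rw [map_mul, map_sum]
    rw [Finset.sum_eq_zero, mul_zero]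
    intro α hα
    have hαs : ∑ l, α l = d * d ^ (s - 1) := by
      have h2 := (hf l) (mem_support_iff.1 hα)
      rw [Finsupp.weight_apply, Finsupp.sum_fintype _ _ (by simp)] at h2
      rw [← pow_succ', show s - 1 + 1 = s by omega, ← h2]
      simp
    rw [map_mul, Wm_vS hd (s - 1) (by omega) α hαs, if_neg (by omega), mul_zero]
  · -- stage zero, `i = s - 1`
    have his : s - 1 = i := by omega
    obtain ⟨l, hl⟩ := exists_one (a := ex p) (by rw [sum_ex, h0, pow_zero])
    rw [map_sum, Finset.sum_eq_single l]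
    · have hv : vS 0 (fun l => aeval x (f l)) p = aeval x (f l) := by
        unfold vS
        rw [if_pos h0, hl, mon_single, pow_one]
      rw [hv, map_mul, hl, Pi.single_eq_same, Nat.cast_one, C_1, map_one, one_mul, map_sum]
      conv_rhs => rw [(f l).as_sum, map_sum]
      refine Finset.sum_congr rfl fun α hα => ?_
      have hαs : ∑ l, α l = d * d ^ (s - 1) := by
        have h2 := (hf l) (mem_support_iff.1 hα)
        rw [Finsupp.weight_apply, Finsupp.sum_fintype _ _ (by simp)] at h2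
        rw [← pow_succ', show s - 1 + 1 = s by omega, ← h2]
        simp
      rw [map_mul, Wm_vS hd (s - 1) (by omega) α hαs, if_pos his, aeval_C, aeval_monomial,
        Finsupp.prod_fintype _ _ (by simp)]
      rfl
    · intro l' _ hl'
      rw [hl, Pi.single_eq_of_ne hl', Nat.cast_zero, C_0, zero_mul, map_zero]
    · exact fun h => absurd (Finset.mem_univ l) h
  · -- positive stage, `i + 1 < s`
    rw [Wm_vS hd (stg p - 1) (by have := stg_lt p; omega) (ex p)
      (by rw [sum_ex, ← pow_succ']; congr 1; omega)]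
    unfold vS
    by_cases h2 : stg p = i + 1
    · rw [if_pos (by omega), if_pos h2]
    · rw [if_neg (by omega), if_neg h2]
  · rw [Wm_vS hd (stg p - 1) (by have := stg_lt p; omega) (ex p)
      (by rw [sum_ex, ← pow_succ']; congr 1; omega)]
    unfold vS
    have := stg_lt p
    rw [if_neg (by omega), if_neg h0]

end tower

end Pool.Agent.R948.UB
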