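import Pool.Agent.R948.UBb

/-!
# Uniform boundedness for degrees which are powers of each other
-/

set_option autoImplicit false
set_option linter.unusedSectionVars false
set_option linter.style.haveILetI false

namespace Pool.Agent.R948.UB

open MvPolynomial

/-- The uniform boundedness conjecture of Morton and Silverman for endomorphisms of degree `d` of
projective spaces of all dimensions, over all number fields: the statement of `S16101` with `d`
fixed. -/
def UBCdeg (d : ℕ) : Prop :=
  ∀ D N : ℕ, 1 ≤ D → 1 ≤ N → ∃ C : ℕ,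
    ∀ (K : Type) [Field K] [NumberField K], Module.finrank ℚ K ≤ D →
      ∀ f : Fin (N + 1) → MvPolynomial (Fin (N + 1)) K,
        (∀ i, (f i).IsHomogeneous d) →
        (∀ x : Fin (N + 1) → AlgebraicClosure K,
            (∀ i, MvPolynomial.aeval x (f i) = 0) → x = 0) →
        ∀ S : Finset (Fin (N + 1) → K),
          (∀ x ∈ S, x ≠ 0) →
          (∀ x ∈ S, ∀ y ∈ S, ∀ c : K, x = c • y → x = y) →
          (∀ x ∈ S, ∃ m n : ℕ, m < n ∧ ∃ c : K, c ≠ 0 ∧
              (fun v : Fin (N + 1) → K => fun i => MvPolynomial.eval v (f i))^[n] x =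
                c • (fun v : Fin (N + 1) → K => fun i => MvPolynomial.eval v (f i))^[m] x) →
          S.card ≤ C

/-- The statement of Q1, word for word the frozen statement `S16101`. -/
def MortonSilverman : Prop :=
    ∀ D N d : ℕ, 1 ≤ D → 1 ≤ N → 2 ≤ d → ∃ C : ℕ,
      ∀ (K : Type) [Field K] [NumberField K], Module.finrank ℚ K ≤ D →
        ∀ f : Fin (N + 1) → MvPolynomial (Fin (N + 1)) K,
          (∀ i, (f i).IsHomogeneous d) →
          (∀ x : Fin (N + 1) → AlgebraicClosure K,
              (∀ i, MvPolynomial.aeval x (f i) = 0) → x = 0) →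
          ∀ S : Finset (Fin (N + 1) → K),
            (∀ x ∈ S, x ≠ 0) →
            (∀ x ∈ S, ∀ y ∈ S, ∀ c : K, x = c • y → x = y) →
            (∀ x ∈ S, ∃ m n : ℕ, m < n ∧ ∃ c : K, c ≠ 0 ∧
                (fun v : Fin (N + 1) → K => fun i => MvPolynomial.eval v (f i))^[n] x =
                  c • (fun v : Fin (N + 1) → K => fun i => MvPolynomial.eval v (f i))^[m] x) →
            S.card ≤ C

lemma ev_eq {ι k : Type} [Field k] (v : ι → k) (g : MvPolynomial ι k) : eval v g = aeval v g := by
  rw [aeval_def, Algebra.algebraMap_self]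
  rfl

section tower

variable {σ : Type} [Fintype σ] [DecidableEq σ] {s d : ℕ} {k : Type} [Field k]

lemma mon_zero {R : Type} [CommSemiring R] {a : σ → ℕ} {n : ℕ} (h : ∑ l, a l = n) (hn : 0 < n) :
    mon (0 : σ → R) a = 0 := by
  obtain ⟨l, hl⟩ := exists_pos h hn
  unfold mon
  refine Finset.prod_eq_zero (Finset.mem_univ l) ?_
  rw [Pi.zero_apply, zero_pow hl.ne']

lemma vS_mk {R : Type} [CommSemiring R] (hd : 0 < d) (i : ℕ) (hi : i < s) (a : σ → ℕ)
    (ha : ∑ l, a l = d ^ i) (x : σ → R) : (vS i x : J σ s d → R) (mkJ hd i hi a ha) = mon x a :=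
  if_pos rfl

lemma vS_mk0 {R : Type} [CommSemiring R] (hd : 0 < d) (hs : 0 < s) (l : σ)
    (ha : ∑ j, (Pi.single l 1 : σ → ℕ) j = d ^ 0) (x : σ → R) :
    (vS 0 x : J σ s d → R) (mkJ hd 0 hs (Pi.single l 1) ha) = x l := by
  rw [vS_mk, mon_single, pow_one]

lemma vS_zero {R : Type} [CommSemiring R] (hd : 0 < d) (i : ℕ) :
    (vS i (0 : σ → R) : J σ s d → R) = 0 := by
  funext p
  unfold vS
  split_ifs
  · exact mon_zero (sum_ex p) (Nat.pow_pos hd)
  · rfl

/-- **the tower of an endomorphism** -/
theorem exists_tower [Infinite k] (hd : 2 ≤ d) (hs : 0 < s) (f : σ → MvPolynomial σ k)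
    (hf : ∀ l, (f l).IsHomogeneous (d ^ s))
    (h0 : ∀ x : σ → AlgebraicClosure k, (∀ l, aeval x (f l) = 0) → x = 0) :
    ∃ G : J σ s d → MvPolynomial (J σ s d) k, (∀ p, (G p).IsHomogeneous d) ∧
      (∀ z : J σ s d → AlgebraicClosure k, (∀ p, aeval z (G p) = 0) → z = 0) ∧
      ∀ x : σ → k, (fun v : J σ s d → k => fun p => eval v (G p))^[s] (vS 0 x) =
        vS 0 (fun l => eval x (f l)) := by
  classical
  have hd0 : 0 < d := by omega
  obtain ⟨G, hG, hG0, hGF⟩ := exists_extension (K := AlgebraicClosure k) (eqs k σ s d)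
    (eqs_hom hd) (tF f) (tF_hom f) (by
      intro z hz hFz
      by_contra hne
      obtain ⟨i, hi, y, rfl⟩ := eq_vS hd z hne hz
      apply hne
      have hy : y = 0 := by
        by_cases his : i + 1 < s
        · funext l
          have h1 := hFz (mkJ hd0 (i + 1) his (Pi.single l (d ^ (i + 1))) (sum_single l _))
          rw [tF_vS hd0 hs f hf i hi, if_pos his] at h1
          have h2 : (vS (i + 1) y : J σ s d → AlgebraicClosure k)
              (mkJ hd0 (i + 1) his (Pi.single l (d ^ (i + 1))) (sum_single l _)) =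
              y l ^ (d ^ (i + 1)) := by
            rw [vS_mk, mon_single]
          rw [h2] at h1
          exact pow_eq_zero_iff (Nat.pow_pos hd0).ne' |>.1 h1
        · refine h0 y fun l => ?_
          have h1 := hFz (mkJ hd0 0 hs (Pi.single l 1) (by rw [sum_single, pow_zero]))
          rw [tF_vS hd0 hs f hf i hi, if_neg his] at h1
          rw [vS_mk0] at h1
          exact h1
      rw [hy, vS_zero hd0])
  refine ⟨G, hG, hG0, fun x => ?_⟩
  have hstep : ∀ i, i < s → ∀ p, eval (vS i x : J σ s d → k) (G p) =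
      if i + 1 < s then vS (i + 1) x p else vS 0 (fun l => eval x (f l)) p := by
    intro i hi p
    obtain ⟨a, ha⟩ := hGF p
    rw [ha, map_add, map_sum, Finset.sum_eq_zero, add_zero, ev_eq, tF_vS hd0 hs f hf i hi]
    · simp only [← ev_eq]
    · intro h hh
      rw [map_mul, ev_eq _ h, eqs_vS hd i x h hh, mul_zero]
  have hit : ∀ i, i < s → (fun v : J σ s d → k => fun p => eval v (G p))^[i] (vS 0 x) = vS i x := by
    intro i
    induction i with
    | zero => exact fun _ => rfl
    | succ i ih =>
      intro hi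
      rw [Function.iterate_succ_apply', ih (by omega)]
      funext p
      rw [hstep i (by omega), if_pos hi]
  obtain ⟨s', rfl⟩ : ∃ s', s = s' + 1 := ⟨s - 1, by omega⟩
  rw [Function.iterate_succ_apply', hit s' (by omega)]
  funext p
  rw [hstep s' (by omega), if_neg (by omega)]

end tower

/-- the bound for degree `d` implies the bound for degree `d ^ s` -/
theorem UBCdeg.pow {d s : ℕ} (hd : 2 ≤ d) (hs : 0 < s) (h : UBCdeg d) : UBCdeg (d ^ s) := by
  classical
  intro D N hD hN
  have hd0 : 0 < d := by omega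
  let JJ := J (Fin (N + 1)) s d
  have hcard : 1 < Fintype.card JJ := by
    rw [Fintype.one_lt_card_iff]
    refine ⟨mkJ hd0 0 hs (Pi.single 0 1) (by rw [sum_single, pow_zero]),
      mkJ hd0 0 hs (Pi.single (Fin.last N) 1) (by rw [sum_single, pow_zero]), fun heq => ?_⟩
    have h1 := congrArg ex heq
    rw [ex_mk, ex_mk] at h1
    have h2 := congrFun h1 0
    have h3 : (0 : Fin (N + 1)) ≠ Fin.last N := by
      intro h4
      have := congrArg Fin.val h4
      simp at this
      omega
    rw [Pi.single_eq_same, Pi.single_eq_of_ne h3] at h2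
    exact one_ne_zero h2
  obtain ⟨C, hC⟩ := h D (Fintype.card JJ - 1) hD (by omega)
  refine ⟨C, ?_⟩
  intro K _ _ hK f hf h0 S hS0 hSd hSp
  let e : JJ ≃ Fin (Fintype.card JJ - 1 + 1) := Fintype.equivFinOfCardEq (by omega)
  haveI : Infinite K := by
    haveI := CharZero.infinite K
    exact this
  obtain ⟨G, hG, hG0, hGf⟩ := exists_tower hd hs f hf h0
  have key := hC K hK (fun j => rename e (G (e.symm j)))
    (fun j => (hG _).rename_isHomogeneous) (by
      intro z hz
      have h1 : z ∘ e = 0 := by
        refine hG0 _ fun p => ?_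
        have h2 := hz (e p)
        rw [aeval_rename, e.symm_apply_apply] at h2
        exact h2
      funext j
      have h2 := congrFun h1 (e.symm j)
      simpa using h2)
    (S.image fun x => (vS 0 x : JJ → K) ∘ e.symm) ?_ ?_ ?_
  · rw [Finset.card_image_of_injective] at key
    · exact key
    · intro x y hxy
      funext l
      have h1 := congrFun hxy (e (mkJ hd0 0 hs (Pi.single l 1) (by rw [sum_single, pow_zero])))
      simp only [Function.comp_apply, e.symm_apply_apply] at h1
      rw [vS_mk0, vS_mk0] at h1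
      exact h1
  · intro z hz
    obtain ⟨x, hx, rfl⟩ := Finset.mem_image.1 hz
    intro h1
    apply hS0 x hx
    funext l
    have h2 := congrFun h1 (e (mkJ hd0 0 hs (Pi.single l 1) (by rw [sum_single, pow_zero])))
    simp only [Function.comp_apply, e.symm_apply_apply] at h2
    rw [vS_mk0] at h2
    exact h2
  · intro z hz z' hz' c hzz
    obtain ⟨x, hx, rfl⟩ := Finset.mem_image.1 hz
    obtain ⟨y, hy, rfl⟩ := Finset.mem_image.1 hz'
    have hxy : x = c • y := by
      funext l
      have h2 := congrFun hzz (e (mkJ hd0 0 hs (Pi.single l 1) (by rw [sum_single, pow_zero])))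
      simp only [Function.comp_apply, Pi.smul_apply, e.symm_apply_apply] at h2
      rw [vS_mk0, vS_mk0] at h2
      exact h2
    rw [hSd x hx y hy c hxy]
  · intro z hz
    obtain ⟨x, hx, rfl⟩ := Finset.mem_image.1 hz
    obtain ⟨m, n, hmn, c, hc, hcx⟩ := hSp x hx
    have hconj : ∀ (t : ℕ) (w : JJ → K),
        (fun v : Fin (Fintype.card JJ - 1 + 1) → K => fun i => eval v (rename e (G (e.symm i))))^[t]
          (w ∘ e.symm) = ((fun v : JJ → K => fun p => eval v (G p))^[t] w) ∘ e.symm := by
      intro t
      induction t with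
      | zero => exact fun w => rfl
      | succ t ih =>
        intro w
        rw [Function.iterate_succ_apply, Function.iterate_succ_apply, ← ih]
        congr 1
        funext j
        rw [eval_rename]
        change eval ((w ∘ e.symm) ∘ e) _ = eval w _
        rw [Function.comp_assoc, e.symm_comp_self, Function.comp_id]
    have hit : ∀ t : ℕ, (fun v : JJ → K => fun p => eval v (G p))^[s * t] (vS 0 x) =
        vS 0 ((fun v : Fin (N + 1) → K => fun i => eval v (f i))^[t] x) := by
      intro t
      induction t with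
      | zero => rfl
      | succ t ih =>
        rw [mul_add, mul_one, add_comm, Function.iterate_add_apply, ih, hGf,
          Function.iterate_succ_apply']
    refine ⟨s * m, s * n, Nat.mul_lt_mul_of_pos_left hmn hs, c, hc, ?_⟩
    rw [hconj, hconj, hit, hit, hcx]
    funext j
    simp only [Function.comp_apply, Pi.smul_apply, smul_eq_mul]
    unfold vS
    split_ifs with hj
    · obtain ⟨l, hl⟩ := exists_one (a := ex (e.symm j)) (by rw [sum_ex, hj, pow_zero])
      rw [hl, mon_single, mon_single, pow_one, pow_one]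
      rfl
    · rw [mul_zero]

section iterate

variable {ι : Type} {k : Type} [Field k] (f : ι → MvPolynomial ι k)

/-- iterates as forms -/
noncomputable def itf : ℕ → ι → MvPolynomial ι k
  | 0 => X
  | n + 1 => fun i => aeval (itf n) (f i)

lemma itf_hom {d : ℕ} (hf : ∀ i, (f i).IsHomogeneous d) (n : ℕ) (i : ι) :
    (itf f n i).IsHomogeneous (d ^ n) := by
  induction n generalizing i with
  | zero => exact isHomogeneous_X _ _
  | succ n ih =>
    rw [pow_succ]
    exact (hf i).aeval _ ih

lemma aeval_itf {L : Type} [Field L] [Algebra k L] (n : ℕ) (x : ι → L) (i : ι) :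
    aeval x (itf f n i) = (fun v : ι → L => fun i => aeval v (f i))^[n] x i := by
  induction n generalizing i with
  | zero => exact aeval_X _ _
  | succ n ih =>
    rw [Function.iterate_succ_apply']
    change aeval x (aeval (itf f n) (f i)) = aeval _ (f i)
    rw [comp_aeval_apply]
    congr 2
    funext j
    exact ih j

lemma itf_zero {L : Type} [Field L] [Algebra k L]
    (h0 : ∀ x : ι → L, (∀ i, aeval x (f i) = 0) → x = 0) (n : ℕ) (x : ι → L)
    (h : ∀ i, aeval x (itf f n i) = 0) : x = 0 := by
  have h1 : (fun v : ι → L => fun i => aeval v (f i))^[n] x = 0 := by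
    funext i
    rw [← aeval_itf]
    exact h i
  clear h
  induction n with
  | zero => exact h1
  | succ n ih =>
    rw [Function.iterate_succ_apply'] at h1
    exact ih (h0 _ fun i => congrFun h1 i)

lemma map_smul' {d : ℕ} (hf : ∀ i, (f i).IsHomogeneous d) [Fintype ι] (c : k) (x : ι → k) :
    (fun v : ι → k => fun i => eval v (f i)) (c • x) =
      c ^ d • (fun v : ι → k => fun i => eval v (f i)) x := by
  funext i
  exact ZP.eval_smul_of_hom (hf i) c x

lemma preper {d : ℕ} (hf : ∀ i, (f i).IsHomogeneous d) [Fintype ι] {x : ι → k} {m n : ℕ}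
    (hmn : m < n) {c : k} (hc : c ≠ 0)
    (h : (fun v : ι → k => fun i => eval v (f i))^[n] x =
      c • (fun v : ι → k => fun i => eval v (f i))^[m] x) (t : ℕ) (ht : m ≤ t) (j : ℕ) :
    ∃ c' : k, c' ≠ 0 ∧ (fun v : ι → k => fun i => eval v (f i))^[t + j * (n - m)] x =
      c' • (fun v : ι → k => fun i => eval v (f i))^[t] x := by
  have hsm : ∀ (r : ℕ) (c : k), c ≠ 0 → ∀ y : ι → k, ∃ c' : k, c' ≠ 0 ∧
      (fun v : ι → k => fun i => eval v (f i))^[r] (c • y) =
        c' • (fun v : ι → k => fun i => eval v (f i))^[r] y := by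
    intro r
    induction r with
    | zero => exact fun c hc y => ⟨c, hc, rfl⟩
    | succ r ih =>
      intro c hc y
      obtain ⟨c', hc', h'⟩ := ih _ (pow_ne_zero d hc) ((fun v : ι → k => fun i => eval v (f i)) y)
      refine ⟨c', hc', ?_⟩
      rw [Function.iterate_succ_apply, Function.iterate_succ_apply]
      refine Eq.trans ?_ h'
      congr 1
      exact map_smul' f hf c y
  induction j with
  | zero => exact ⟨1, one_ne_zero, by rw [zero_mul, add_zero, one_smul]⟩
  | succ j ih =>
    obtain ⟨c₁, hc₁, h₁⟩ := ih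
    obtain ⟨c₂, hc₂, h₂⟩ := hsm (t + j * (n - m) - m) c hc
      ((fun v : ι → k => fun i => eval v (f i))^[m] x)
    have hm : m ≤ t + j * (n - m) := ht.trans (Nat.le_add_right _ _)
    have e1 : t + (j + 1) * (n - m) = (t + j * (n - m) - m) + n := by
      rw [add_mul, one_mul]
      omega
    have e2 : (fun v : ι → k => fun i => eval v (f i))^[t + j * (n - m) - m]
        ((fun v : ι → k => fun i => eval v (f i))^[m] x) =
        (fun v : ι → k => fun i => eval v (f i))^[t + j * (n - m)] x := by
      rw [← Function.iterate_add_apply]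
      congr 1
      omega
    refine ⟨c₂ * c₁, mul_ne_zero hc₂ hc₁, ?_⟩
    rw [e1, Function.iterate_add_apply, h, h₂, e2, h₁, smul_smul]

end iterate

/-- the bound for degree `d ^ s` implies the bound for degree `d` -/
theorem UBCdeg.of_pow {d s : ℕ} (hs : 0 < s) (h : UBCdeg (d ^ s)) : UBCdeg d := by
  intro D N hD hN
  obtain ⟨C, hC⟩ := h D N hD hN
  refine ⟨C, ?_⟩
  intro K _ _ hK f hf h0 S hS0 hSd hSp
  refine hC K hK (itf f s) (itf_hom f hf s) (itf_zero f h0 s) S hS0 hSd ?_
  intro x hx
  obtain ⟨m, n, hmn, c, hc, hcx⟩ := hSp x hx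
  have hmap : (fun v : Fin (N + 1) → K => fun i => eval v (itf f s i)) =
      (fun v : Fin (N + 1) → K => fun i => eval v (f i))^[s] := by
    funext v i
    rw [ev_eq, aeval_itf]
    simp only [← ev_eq]
  obtain ⟨c', hc', h'⟩ := preper f hf hmn hc hcx (s * m) (Nat.le_mul_of_pos_left m hs) s
  refine ⟨m, n, hmn, c', hc', ?_⟩
  rw [hmap, ← Function.iterate_mul, ← Function.iterate_mul, ← h']
  congr 1
  rw [Nat.mul_sub]
  have := Nat.mul_le_mul_left s hmn.le
  omega

theorem UBCdeg_pow_iff {d s : ℕ} (hd : 2 ≤ d) (hs : 0 < s) : UBCdeg (d ^ s) ↔ UBCdeg d :=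
  ⟨UBCdeg.of_pow hs, UBCdeg.pow hd hs⟩

theorem UBCdeg_iff_of_pow_eq {d e a b : ℕ} (hd : 2 ≤ d) (he : 2 ≤ e) (ha : 0 < a) (hb : 0 < b)
    (h : d ^ a = e ^ b) : UBCdeg d ↔ UBCdeg e := by
  rw [← UBCdeg_pow_iff hd ha, h, UBCdeg_pow_iff he hb]

theorem mortonSilverman_iff : MortonSilverman ↔
    ∀ d : ℕ, 2 ≤ d → (∀ b a : ℕ, 2 ≤ a → d ≠ b ^ a) → UBCdeg d := by
  constructor
  · intro h d hd _ D N hD hN
    exact h D N d hD hN hd
  · intro h
    have key : ∀ d : ℕ, 2 ≤ d → UBCdeg d := by
      intro d
      induction d using Nat.strong_induction_on with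
      | _ d ih =>
        intro hd
        by_cases hp : ∀ b a : ℕ, 2 ≤ a → d ≠ b ^ a
        · exact h d hd hp
        · push Not at hp
          obtain ⟨b, a, ha, rfl⟩ := hp
          have hb : 2 ≤ b := by
            rcases Nat.lt_or_ge b 2 with h1 | h1
            · exfalso
              interval_cases b
              · rw [zero_pow (by omega)] at hd
                omega
              · rw [one_pow] at hd
                omega
            · exact h1
          have hlt : b < b ^ a := by
            calc b = b ^ 1 := (pow_one b).symm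
              _ < b ^ a := Nat.pow_lt_pow_right (by omega) (by omega)
          exact (ih b hlt hb).pow hb (by omega)
    intro D N d hD hN hd
    exact key d hd D N hD hN

end Pool.Agent.R948.UB
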