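import Pool.Agent.R948.UBc

/-!
# Roots of endomorphisms of projective spaces
-/

set_option autoImplicit false
set_option linter.unusedSectionVars false
set_option linter.style.haveILetI false

namespace Pool.Agent.R948.UB

open MvPolynomial

/-- **roots**: an endomorphism of degree `d ^ s` of the projective space of dimension `N` is the
restriction to a linear subspace of the `s`-th iterate of an endomorphism of degree `d` -/
theorem exists_root (N s d : ℕ) (hd : 2 ≤ d) (hs : 0 < s) :
    ∃ (M : ℕ) (e : Fin (N + 1) ↪ Fin (M + 1)), ∀ (k : Type) [Field k] [Infinite k]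
      (f : Fin (N + 1) → MvPolynomial (Fin (N + 1)) k),
      (∀ i, (f i).IsHomogeneous (d ^ s)) →
      (∀ x : Fin (N + 1) → AlgebraicClosure k, (∀ i, aeval x (f i) = 0) → x = 0) →
      ∃ G : Fin (M + 1) → MvPolynomial (Fin (M + 1)) k, (∀ i, (G i).IsHomogeneous d) ∧
        (∀ z : Fin (M + 1) → AlgebraicClosure k, (∀ i, aeval z (G i) = 0) → z = 0) ∧
        ∀ x : Fin (N + 1) → k,
          (fun v : Fin (M + 1) → k => fun i => eval v (G i))^[s] (Function.extend e x 0) =
            Function.extend e (fun i => eval x (f i)) 0 := by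
  classical
  have hd0 : 0 < d := by omega
  let JJ := J (Fin (N + 1)) s d
  have hpt : ∀ l : Fin (N + 1), ∑ j, (Pi.single l 1 : Fin (N + 1) → ℕ) j = d ^ 0 := fun l => by
    rw [sum_single, pow_zero]
  let pt : Fin (N + 1) → JJ := fun l => mkJ hd0 0 hs (Pi.single l 1) (hpt l)
  have hcard : 0 < Fintype.card JJ := Fintype.card_pos_iff.2 ⟨pt 0⟩
  let E : JJ ≃ Fin (Fintype.card JJ - 1 + 1) := Fintype.equivFinOfCardEq (by omega)
  have hinj : Function.Injective fun l => E (pt l) := by
    intro l l' h
    have h1 := congrArg ex (E.injective h)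
    have h2 : (Pi.single l 1 : Fin (N + 1) → ℕ) = Pi.single l' 1 := h1
    by_contra hne
    have h3 := congrFun h2 l
    rw [Pi.single_eq_same, Pi.single_eq_of_ne hne] at h3
    exact one_ne_zero h3
  refine ⟨Fintype.card JJ - 1, ⟨_, hinj⟩, ?_⟩
  intro k _ _ f hf h0
  obtain ⟨G, hG, hG0, hGf⟩ := exists_tower hd hs f hf h0
  have hext : ∀ x : Fin (N + 1) → k,
      Function.extend (fun l => E (pt l)) x 0 = (vS 0 x : JJ → k) ∘ E.symm := by
    intro x
    funext j
    by_cases hj : ∃ l, E (pt l) = j
    · obtain ⟨l, rfl⟩ := hj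
      have h1 := hinj.extend_apply x 0 l
      rw [h1, Function.comp_apply, E.symm_apply_apply, vS_mk0]
    · rw [Function.extend_apply' _ _ _ hj, Function.comp_apply]
      unfold vS
      split_ifs with h2
      · exfalso
        obtain ⟨l, hl⟩ := exists_one (a := ex (E.symm j)) (by rw [sum_ex, h2, pow_zero])
        refine hj ⟨l, ?_⟩
        have h3 : pt l = E.symm j := J_ext h2.symm hl.symm
        rw [h3, E.apply_symm_apply]
      · rfl
  have hconj : ∀ (t : ℕ) (w : JJ → k),
      (fun v : Fin (Fintype.card JJ - 1 + 1) → k => fun i => eval v (rename E (G (E.symm i))))^[t]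
        (w ∘ E.symm) = ((fun v : JJ → k => fun p => eval v (G p))^[t] w) ∘ E.symm := by
    intro t
    induction t with
    | zero => exact fun w => rfl
    | succ t ih =>
      intro w
      rw [Function.iterate_succ_apply, Function.iterate_succ_apply, ← ih]
      congr 1
      funext j
      rw [eval_rename]
      change eval ((w ∘ E.symm) ∘ E) _ = eval w _
      rw [Function.comp_assoc, E.symm_comp_self, Function.comp_id]
  refine ⟨fun j => rename E (G (E.symm j)), fun j => (hG _).rename_isHomogeneous, ?_, fun x => ?_⟩
  · intro z hz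
    have h1 : z ∘ E = 0 := by
      refine hG0 _ fun p => ?_
      have h2 := hz (E p)
      rw [aeval_rename, E.symm_apply_apply] at h2
      exact h2
    funext j
    have h2 := congrFun h1 (E.symm j)
    simpa using h2
  · change (fun v : Fin (Fintype.card JJ - 1 + 1) → k =>
      fun i => eval v (rename E (G (E.symm i))))^[s] (Function.extend (fun l => E (pt l)) x 0) =
      Function.extend (fun l => E (pt l)) (fun i => eval x (f i)) 0
    rw [hext, hext, hconj, hGf]

end Pool.Agent.R948.UB
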