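import Pool.Agent.R948.YA

/-!
# The rank: the number of classes of non-special coordinates
-/

set_option autoImplicit false
set_option linter.unusedSectionVars false
set_option linter.style.haveILetI false

namespace Pool.Agent.R948.YY

open MvPolynomial

section

variable {F : Type} [Field F] [IsAlgClosed F] (𝓘 : IsoStr F) {K L : Type} [Field K] [Field L]
  [Algebra F K] [Algebra F L] {ι κ : Type}

/-- the setoid of isogenous elements -/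
def st (K : Type) [Field K] [Algebra F K] : Setoid K where
  r := rel 𝓘
  iseqv := ⟨rel_refl 𝓘, rel_symm 𝓘, rel_trans 𝓘⟩

/-- the class of an element -/
def cl (x : K) : Quotient (st 𝓘 K) := Quotient.mk (st 𝓘 K) x

theorem cl_eq {x y : K} : cl 𝓘 x = cl 𝓘 y ↔ rel 𝓘 x y := Quotient.eq (r := st 𝓘 K)

/-- the set of the classes of the non-special coordinates -/
def cs (z : ι → K) : Set (Quotient (st 𝓘 K)) := {c | ∃ i, ¬ sp 𝓘 (z i) ∧ cl 𝓘 (z i) = c}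

/-- the rank -/
noncomputable def rk (z : ι → K) : ℕ := (cs 𝓘 z).ncard

variable {𝓘}

theorem cs_finite [Finite ι] (z : ι → K) : (cs 𝓘 z).Finite := by
  refine (Set.finite_range fun i => cl 𝓘 (z i)).subset ?_
  rintro c ⟨i, -, rfl⟩
  exact ⟨i, rfl⟩

theorem cs_comp (z : ι → K) (φ : κ → ι) : cs 𝓘 (z ∘ φ) ⊆ cs 𝓘 z := by
  rintro c ⟨i, h1, rfl⟩
  exact ⟨φ i, h1, rfl⟩

theorem cs_comp_surj (z : ι → K) (φ : κ → ι) (hφ : Function.Surjective φ) :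
    cs 𝓘 (z ∘ φ) = cs 𝓘 z := by
  refine Set.Subset.antisymm (cs_comp z φ) ?_
  rintro c ⟨i, h1, rfl⟩
  obtain ⟨j, rfl⟩ := hφ i
  exact ⟨j, h1, rfl⟩

theorem rk_add [Finite ι] (z : ι → K) (φ : κ → ι) :
    rk 𝓘 z = rk 𝓘 (z ∘ φ) + (cs 𝓘 z \ cs 𝓘 (z ∘ φ)).ncard := by
  have h := Set.ncard_sdiff_add_ncard_of_subset (cs_comp (𝓘 := 𝓘) z φ) (cs_finite z)
  rw [rk, rk]
  omega

theorem rk_comp_le [Finite ι] (z : ι → K) (φ : κ → ι) : rk 𝓘 (z ∘ φ) ≤ rk 𝓘 z := by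
  rw [rk_add z φ]
  omega

/-- relative ranks decrease under specialisation -/
theorem Sp.rel_rank [Finite ι] {z : ι → K} {z' : ι → L} (h : Sp F z z') (φ : κ → ι) :
    (cs 𝓘 z' \ cs 𝓘 (z' ∘ φ)).ncard ≤ (cs 𝓘 z \ cs 𝓘 (z ∘ φ)).ncard := by
  classical
  rcases isEmpty_or_nonempty ι with hem | hem
  · have h0 : cs 𝓘 z' = ∅ := by
      ext c
      simp [cs]
    rw [h0, Set.empty_sdiff, Set.ncard_empty]
    exact Nat.zero_le _
  have h1 : ∀ c ∈ cs 𝓘 z' \ cs 𝓘 (z' ∘ φ), ∃ i, ¬ YY.sp 𝓘 (z' i) ∧ cl 𝓘 (z' i) = c := fun c hc => hc.1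
  choose! g hg1 hg2 using h1
  refine Set.ncard_le_ncard_of_injOn (fun c => cl 𝓘 (z (g c))) ?_ ?_
    ((cs_finite z).subset Set.sdiff_subset)
  · intro c hc
    refine ⟨⟨g c, fun h2 => hg1 c hc (h.sp h2), rfl⟩, ?_⟩
    rintro ⟨j, hj1, hj2⟩
    rw [cl_eq] at hj2
    have h3 : YY.rel 𝓘 (z' (φ j)) (z' (g c)) := h.rel hj2
    apply hc.2
    refine ⟨j, fun h4 => hg1 c hc ((sp_iff_rel 𝓘 h3).1 h4), ?_⟩
    rw [← hg2 c hc, cl_eq]
    exact h3
  · intro c hc c' hc' heq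
    have h2 := (cl_eq 𝓘).1 heq
    rw [← hg2 c hc, ← hg2 c' hc', cl_eq]
    exact h.rel h2

theorem Sp.rk_le [Finite ι] {z : ι → K} {z' : ι → L} (h : Sp F z z') :
    rk 𝓘 z' ≤ rk 𝓘 z := by
  have h1 := h.rel_rank (𝓘 := 𝓘) (κ := Empty) (fun e => e.elim)
  have h2 : cs 𝓘 (z ∘ fun e : Empty => e.elim) = ∅ := by
    ext c
    simp [cs]
  have h3 : cs 𝓘 (z' ∘ fun e : Empty => e.elim) = ∅ := by
    ext c
    simp [cs]
  rw [h2, h3, Set.sdiff_empty, Set.sdiff_empty] at h1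
  exact h1

/-- the rank drops if a class disappears -/
theorem drop_of [Finite ι] {z : ι → K} {z' : ι → L} (h : Sp F z z')
    (c₀ : Quotient (st 𝓘 K)) (hc₀ : c₀ ∈ cs 𝓘 z)
    (h0 : ∀ i, ¬ sp 𝓘 (z' i) → ∃ j, cl 𝓘 (z j) ≠ c₀ ∧ rel 𝓘 (z' j) (z' i)) :
    rk 𝓘 z' < rk 𝓘 z := by
  classical
  have hem : Nonempty ι := ⟨hc₀.choose⟩
  have h1 : ∀ c ∈ cs 𝓘 z', ∃ i, ¬ sp 𝓘 (z' i) ∧ cl 𝓘 (z' i) = c ∧ cl 𝓘 (z i) ≠ c₀ := by
    rintro c ⟨i, hi, rfl⟩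
    obtain ⟨j, hj1, hj2⟩ := h0 i hi
    exact ⟨j, fun h2 => hi ((sp_iff_rel 𝓘 hj2).1 h2), (cl_eq 𝓘).2 hj2, hj1⟩
  choose! g hg1 hg2 hg3 using h1
  have h2 : (cs 𝓘 z').ncard ≤ (cs 𝓘 z \ {c₀}).ncard := by
    refine Set.ncard_le_ncard_of_injOn (fun c => cl 𝓘 (z (g c))) ?_ ?_
      ((cs_finite z).subset Set.sdiff_subset)
    · intro c hc
      exact ⟨⟨g c, fun h2 => hg1 c hc (h.sp h2), rfl⟩, hg3 c hc⟩
    · intro c hc c' hc' heq
      have h2 := (cl_eq 𝓘).1 heq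
      rw [← hg2 c hc, ← hg2 c' hc', cl_eq]
      exact h.rel h2
  refine lt_of_le_of_lt h2 ?_
  have h3 := Set.ncard_sdiff_singleton_lt_of_mem hc₀ (cs_finite z)
  exact h3

/-- the rank drops if different coordinates become equal -/
theorem Sp.drop [Finite ι] {z : ι → K} {z' : ι → L} (h : Sp F z z') {i j : ι}
    (hne : z i ≠ z j) (he : z' i = z' j) : rk 𝓘 z' < rk 𝓘 z := by
  -- a class which becomes special disappears
  have hA : ∀ k, ¬ YY.sp 𝓘 (z k) → YY.sp 𝓘 (z' k) → rk 𝓘 z' < rk 𝓘 z := by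
    intro k h1 h2
    refine drop_of h (cl 𝓘 (z k)) ⟨k, h1, rfl⟩ fun l hl => ⟨l, fun h3 => hl ?_, rel_refl 𝓘 _⟩
    rw [cl_eq] at h3
    exact (sp_iff_rel 𝓘 (h.rel h3)).2 h2
  by_cases hi : YY.sp 𝓘 (z i)
  · by_cases hj : YY.sp 𝓘 (z j)
    · exfalso
      obtain ⟨c, -, hc⟩ := hi
      obtain ⟨d, -, hd⟩ := hj
      have h1 := h.eq_const hc
      have h2 := h.eq_const hd
      rw [he, ← h2] at h1
      apply hne
      rw [← hc, ← hd, (algebraMap F L).injective h1]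
    · refine hA j hj ?_
      rw [← he]
      exact h.sp hi
  · by_cases hj : YY.sp 𝓘 (z j)
    · refine hA i hi ?_
      rw [he]
      exact h.sp hj
    · by_cases hr : YY.rel 𝓘 (z i) (z j)
      · exact hA i hi (h.fix hr hne he)
      · by_cases hs : YY.sp 𝓘 (z' i)
        · exact hA i hi hs
        · refine drop_of h (cl 𝓘 (z j)) ⟨j, hj, rfl⟩ fun l hl => ?_
          by_cases h3 : cl 𝓘 (z l) = cl 𝓘 (z j)
          · refine ⟨i, fun h4 => hr ((cl_eq 𝓘).1 h4), ?_⟩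
            rw [he]
            exact rel_symm 𝓘 (h.rel ((cl_eq 𝓘).1 h3))
          · exact ⟨l, h3, rel_refl 𝓘 _⟩

variable [Fintype ι] [Fintype κ]

/-- the transcendence degree and the rank -/
theorem td_le_add (z : ι → K) (φ : κ → ι) :
    td F z ≤ td F (z ∘ φ) + (cs 𝓘 z \ cs 𝓘 (z ∘ φ)).ncard := by
  classical
  rcases isEmpty_or_nonempty ι with hem | hem
  · have h0 : td F z ≤ Fintype.card ι := td_le_card F z
    rw [Fintype.card_eq_zero] at h0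
    omega
  have h1 : ∀ c ∈ cs 𝓘 z \ cs 𝓘 (z ∘ φ), ∃ i, ¬ sp 𝓘 (z i) ∧ cl 𝓘 (z i) = c := fun c hc => hc.1
  choose! g hg1 hg2 using h1
  have hfin : (cs 𝓘 z \ cs 𝓘 (z ∘ φ)).Finite := (cs_finite z).subset Set.sdiff_subset
  let T : Set K := (fun c => z (g c)) '' (cs 𝓘 z \ cs 𝓘 (z ∘ φ))
  -- all coordinates are algebraic over these
  have h2 : Set.range z ⊆ (AlgebraicIndependent.matroid F K).closure (Set.range (z ∘ φ) ∪ T) := by
    rintro _ ⟨i, rfl⟩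
    rw [AlgebraicIndependent.matroid_closure_eq]
    by_cases hi : sp 𝓘 (z i)
    · obtain ⟨c, -, hc⟩ := hi
      rw [← hc]
      exact isAlgebraic_algebraMap (A := K)
        (algebraMap F (Algebra.adjoin F (Set.range (z ∘ φ) ∪ T)) c)
    · have h3 : ∃ x ∈ Set.range (z ∘ φ) ∪ T, rel 𝓘 x (z i) := by
        by_cases h4 : cl 𝓘 (z i) ∈ cs 𝓘 (z ∘ φ)
        · obtain ⟨j, -, hj⟩ := h4
          exact ⟨z (φ j), Or.inl ⟨j, rfl⟩, (cl_eq 𝓘).1 hj⟩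
        · have h5 : cl 𝓘 (z i) ∈ cs 𝓘 z \ cs 𝓘 (z ∘ φ) := ⟨⟨i, hi, rfl⟩, h4⟩
          exact ⟨_, Or.inr ⟨_, h5, rfl⟩, (cl_eq 𝓘).1 (hg2 _ h5)⟩
      obtain ⟨x, hx, hr⟩ := h3
      have h4 := rel_alg 𝓘 hr
      refine h4.adjoin_of_forall_isAlgebraic ?_
      rintro y ⟨hy, hy2⟩
      rw [Set.mem_singleton_iff] at hy
      subst hy
      exact absurd hx hy2
  have h3 := (AlgebraicIndependent.matroid F K).eRk_mono h2
  rw [Matroid.eRk_closure_eq, ← td_spec] at h3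
  have h4 := (AlgebraicIndependent.matroid F K).eRk_union_le_eRk_add_encard (Set.range (z ∘ φ)) T
  rw [← td_spec] at h4
  have h5 : T.encard ≤ (cs 𝓘 z \ cs 𝓘 (z ∘ φ)).encard := Set.encard_image_le _ _
  rw [← hfin.cast_ncard_eq] at h5
  have h6 := h3.trans (h4.trans (add_le_add_right h5 _))
  exact_mod_cast h6

/-- the defect -/
noncomputable def dg (𝓘 : IsoStr F) (z : ι → K) : ℤ := rk 𝓘 z - td F z

/-- forgetting coordinates does not increase the defect -/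
theorem dg_comp_le (z : ι → K) (φ : κ → ι) : dg 𝓘 (z ∘ φ) ≤ dg 𝓘 z := by
  have h1 := td_le_add (𝓘 := 𝓘) z φ
  have h2 := rk_add (𝓘 := 𝓘) z φ
  rw [dg, dg]
  omega

theorem td_comp_le (z : ι → K) (φ : κ → ι) : td F (z ∘ φ) ≤ td F z := by
  refine td_le_of_alg F fun k => ?_
  exact isAlgebraic_algebraMap (A := K)
    (⟨z (φ k), Algebra.subset_adjoin ⟨φ k, rfl⟩⟩ : Algebra.adjoin F (Set.range z))

/-- repeating coordinates does not change the defect -/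
theorem dg_comp_surj (z : ι → K) (φ : κ → ι) (hφ : Function.Surjective φ) :
    dg 𝓘 (z ∘ φ) = dg 𝓘 z := by
  have h1 : td F (z ∘ φ) = td F z := by
    rw [td, td, Set.range_comp, hφ.range_eq, Set.image_univ]
  rw [dg, dg, rk, rk, cs_comp_surj z φ hφ, h1]

/-- projections and specialisations -/
theorem dg_proj (z : ι → K) (z' : ι → L) (φ : κ → ι) (hs : Sp F z z')
    (ht : ∀ i, IsAlgebraic (Algebra.adjoin F (Set.range (z ∘ φ))) (z i))
    (h : dg 𝓘 z ≤ dg 𝓘 z') : dg 𝓘 (z ∘ φ) ≤ dg 𝓘 (z' ∘ φ) := by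
  have h1 := rk_add (𝓘 := 𝓘) z φ
  have h2 := rk_add (𝓘 := 𝓘) z' φ
  have h3 := hs.rel_rank (𝓘 := 𝓘) φ
  have h4 : td F z ≤ td F (z ∘ φ) := td_le_of_alg F ht
  have h5 := td_comp_le (F := F) z' φ
  rw [dg, dg] at h ⊢
  omega

end

end Pool.Agent.R948.YY
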