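import Pool.Agent.R948.YB
import Pool.Agent.R948.Sharp

/-!
# Pull backs of varieties with finitely many optimal subvarieties
-/

set_option autoImplicit false
set_option linter.unusedSectionVars false
set_option linter.style.haveILetI false

namespace Pool.Agent.R948.YY

open MvPolynomial

section

variable {F : Type} [Field F] [IsAlgClosed F] {𝓘 : IsoStr F} {K L : Type} [Field K] [Field L]
  [Algebra F K] [Algebra F L] {ι κ : Type} [Fintype ι] [Fintype κ]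

/-- prime ideals -/
structure PP (F ι : Type) [Field F] where
  I : Ideal (MvPolynomial ι F)
  prime : I.IsPrime

namespace PP

instance (P : PP F ι) : P.I.IsPrime := P.prime

/-- the field of a prime ideal -/
abbrev fld (P : PP F ι) : Type := FractionRing (MvPolynomial ι F ⧸ P.I)

/-- the generic point -/
noncomputable def pt (P : PP F ι) : ι → P.fld := fun i =>
  algebraMap (MvPolynomial ι F ⧸ P.I) P.fld (cp P.I i)

theorem aeval_pt (P : PP F ι) (f : MvPolynomial ι F) :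
    aeval P.pt f = algebraMap (MvPolynomial ι F ⧸ P.I) P.fld (Ideal.Quotient.mk P.I f) := by
  rw [← aeval_cp]
  exact aeval_algebraMap_apply _ _ _

theorem aeval_pt_eq_zero (P : PP F ι) (f : MvPolynomial ι F) : aeval P.pt f = 0 ↔ f ∈ P.I := by
  rw [aeval_pt, map_eq_zero_iff _ (IsFractionRing.injective _ _), Ideal.Quotient.eq_zero_iff_mem]

theorem td_pt (P : PP F ι) : td F P.pt = tdP P.I :=
  le_antisymm (td_le_tdP P.I _ fun f hf => (P.aeval_pt_eq_zero f).2 hf)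
    (tdP_le_td P.I _ fun f hf => (P.aeval_pt_eq_zero f).1 hf)

/-- the defect -/
noncomputable def df (𝓘 : IsoStr F) (P : PP F ι) : ℤ := dg 𝓘 P.pt

/-- the prime of a point -/
noncomputable def ofPt (z : ι → K) : PP F ι where
  I := RingHom.ker (aeval z : MvPolynomial ι F →ₐ[F] K)
  prime := RingHom.ker_isPrime _

theorem mem_ofPt (z : ι → K) (f : MvPolynomial ι F) : f ∈ (ofPt z : PP F ι).I ↔ aeval z f = 0 :=
  Iff.rfl

theorem dg_eq_of_sp {z : ι → K} {z' : ι → L} (h : Sp F z z') (h' : Sp F z' z) :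
    dg 𝓘 z = dg 𝓘 z' := by
  rw [dg, dg, le_antisymm h.rk_le h'.rk_le, le_antisymm (td_le_of_ker F h) (td_le_of_ker F h')]

theorem df_ofPt (z : ι → K) : (ofPt z : PP F ι).df 𝓘 = dg 𝓘 z :=
  dg_eq_of_sp (fun f hf => by rwa [aeval_pt_eq_zero, mem_ofPt] at hf)
    (fun f hf => by rwa [aeval_pt_eq_zero, mem_ofPt])

theorem sp_of_le {P Q : PP F ι} (h : P.I ≤ Q.I) : Sp F P.pt Q.pt := fun f hf => by
  rw [aeval_pt_eq_zero] at hf ⊢
  exact h hf

theorem ext' {P Q : PP F ι} (h : P.I = Q.I) : P = Q := by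
  cases P
  cases Q
  simp only at h
  subst h
  rfl

end PP

theorem cut_step (P Q₀ : PP F ι) (hle : P.I ≤ Q₀.I) (i j : ι) (hf : X i - X j ∈ Q₀.I) :
    ∃ Q : PP F ι, Q.I ∈ (P.I ⊔ Ideal.span {X i - X j}).minimalPrimes ∧ Q.I ≤ Q₀.I ∧
      Q.df 𝓘 ≤ P.df 𝓘 := by
  have hsup : P.I ⊔ Ideal.span {X i - X j} ≤ Q₀.I :=
    sup_le hle ((Ideal.span_singleton_le_iff_mem _).2 hf)
  obtain ⟨J, hJ, hJle⟩ := Ideal.exists_minimalPrimes_le hsup
  obtain ⟨Q, rfl⟩ : ∃ Q : PP F ι, Q.I = J := ⟨⟨J, hJ.1.1⟩, rfl⟩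
  refine ⟨Q, hJ, hJle, ?_⟩
  have hPQ : P.I ≤ Q.I := le_sup_left.trans hJ.1.2
  have hs := PP.sp_of_le hPQ
  by_cases hbP : X i - X j ∈ P.I
  · have h1 : P.I ⊔ Ideal.span {X i - X j} = P.I :=
      sup_eq_left.2 ((Ideal.span_singleton_le_iff_mem _).2 hbP)
    have h2 : Q.I ∈ ({P.I} : Set (Ideal (MvPolynomial ι F))) := by
      rw [← Ideal.minimalPrimes_eq_subsingleton_self, ← h1]
      exact hJ
    rw [PP.ext' (Set.mem_singleton_iff.1 h2)]
  · have hbQ : X i - X j ∈ Q.I := hJ.1.2 (le_sup_right (a := P.I)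
      (Ideal.mem_span_singleton_self _))
    have h3 : rk 𝓘 Q.pt < rk 𝓘 P.pt := by
      refine hs.drop (i := i) (j := j) ?_ ?_
      · rw [Ne, ← sub_eq_zero]
        intro h4
        apply hbP
        rw [← PP.aeval_pt_eq_zero, map_sub, aeval_X, aeval_X]
        exact h4
      · rw [← PP.aeval_pt_eq_zero, map_sub, aeval_X, aeval_X, sub_eq_zero] at hbQ
        exact hbQ
    have h4 : tdP P.I ≤ tdP Q.I + 1 := tdP_drop _ hJ
    rw [PP.df, PP.df, dg, dg, PP.td_pt, PP.td_pt]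
    omega

/-- components of iterated sections -/
noncomputable def cutset {τ : Type} : Ideal (MvPolynomial τ F) → List (τ × τ) →
    Set (Ideal (MvPolynomial τ F))
  | P, [] => {P}
  | P, e :: l => ⋃ Q ∈ (P ⊔ Ideal.span {X e.1 - X e.2}).minimalPrimes, cutset Q l

theorem cutset_finite {τ : Type} [Finite τ] (l : List (τ × τ)) :
    ∀ P : Ideal (MvPolynomial τ F), (cutset P l).Finite := by
  induction l with
  | nil => intro P; exact Set.finite_singleton P
  | cons e l ih =>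
    intro P
    exact (Ideal.finite_minimalPrimes_of_isNoetherianRing _ _).biUnion fun Q _ => ih Q

theorem cut (l : List (ι × ι)) : ∀ (P Q₀ : PP F ι), P.I ≤ Q₀.I →
    (∀ e ∈ l, X e.1 - X e.2 ∈ Q₀.I) →
    ∃ Q : PP F ι, Q.I ∈ cutset P.I l ∧ P.I ≤ Q.I ∧ Q.I ≤ Q₀.I ∧
      (∀ e ∈ l, X e.1 - X e.2 ∈ Q.I) ∧ Q.df 𝓘 ≤ P.df 𝓘 := by
  induction l with
  | nil =>
    intro P Q₀ h _
    exact ⟨P, rfl, le_rfl, h, by simp, le_rfl⟩
  | cons e l ih =>
    intro P Q₀ h he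
    obtain ⟨Q₁, h1, h2, h3⟩ := cut_step (𝓘 := 𝓘) P Q₀ h e.1 e.2 (he e (by simp))
    have hPQ₁ : P.I ≤ Q₁.I := le_sup_left.trans h1.1.2
    obtain ⟨Q, h4, h5, h6, h7, h8⟩ := ih Q₁ Q₀ h2 (fun e' he' => he e' (by simp [he']))
    refine ⟨Q, ?_, hPQ₁.trans h5, h6, ?_, h8.trans h3⟩
    · exact Set.mem_biUnion h1 h4
    · intro e' he'
      rcases List.mem_cons.1 he' with rfl | he'
      · exact h5 (h1.1.2 (le_sup_right (a := P.I) (Ideal.mem_span_singleton_self _)))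
      · exact h7 e' he'

/-! ### Products with affine spaces -/

/-- evaluation in the polynomial ring over the coordinate ring -/
noncomputable def shEv (ι : Type) (I : Ideal (MvPolynomial κ F)) :
    MvPolynomial (κ ⊕ ι) F →ₐ[F] MvPolynomial ι (MvPolynomial κ F ⧸ I) :=
  aeval (Sum.elim (fun j => C (cp I j)) X)

/-- the product with an affine space -/
noncomputable def sharp (ι : Type) (P : PP F κ) : PP F (κ ⊕ ι) where
  I := RingHom.ker (shEv ι P.I)
  prime := RingHom.ker_isPrime _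

theorem rename_mem_sharp (P : PP F κ) (f : MvPolynomial κ F) :
    rename (Sum.inl : κ → κ ⊕ ι) f ∈ (sharp ι P).I ↔ f ∈ P.I := by
  rw [← Ideal.Quotient.eq_zero_iff_mem (I := P.I)]
  change shEv ι P.I (rename Sum.inl f) = 0 ↔ _
  have h1 : shEv ι P.I (rename Sum.inl f) = C (Ideal.Quotient.mk P.I f) := by
    rw [shEv, aeval_rename, ← aeval_cp]
    exact aeval_algebraMap_apply _ _ _
  rw [h1, map_eq_zero_iff _ (C_injective _ _)]

/-- points of the product -/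
theorem sharp_le (P : PP F κ) (b : κ → K) (y : ι → K) (h : ∀ f ∈ P.I, aeval b f = 0)
    (f : MvPolynomial (κ ⊕ ι) F) (hf : f ∈ (sharp ι P).I) : aeval (Sum.elim b y) f = 0 := by
  let φ : (MvPolynomial κ F ⧸ P.I) →ₐ[F] K := Ideal.Quotient.liftₐ P.I (aeval b) h
  letI : Algebra (MvPolynomial κ F ⧸ P.I) K := φ.toRingHom.toAlgebra
  haveI : IsScalarTower F (MvPolynomial κ F ⧸ P.I) K :=
    IsScalarTower.of_algebraMap_eq fun x => (φ.commutes x).symm
  let ψ : MvPolynomial ι (MvPolynomial κ F ⧸ P.I) →ₐ[MvPolynomial κ F ⧸ P.I] K := aeval y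
  have h1 : ((ψ.restrictScalars F).comp (shEv ι P.I)) = aeval (Sum.elim b y) := by
    ext k
    rcases k with j | i
    · simp only [AlgHom.comp_apply, shEv, aeval_X, Sum.elim_inl, AlgHom.restrictScalars_apply, ψ]
      rw [aeval_C]
      have h2 : φ (Ideal.Quotient.mk P.I (X j)) = aeval b (X j) := rfl
      rw [aeval_X] at h2
      exact h2
    · simp [shEv, ψ]
  have h2 : shEv ι P.I f = 0 := hf
  rw [← h1, AlgHom.comp_apply, h2, map_zero]

/-- the dimension of the product -/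
theorem le_td_sharp (P : PP F κ) : tdP P.I + Fintype.card ι ≤ td F (sharp ι P).pt := by
  classical
  obtain ⟨S, hS, hind, -⟩ := exists_td F (cp P.I)
  have hX : AlgebraicIndependent (MvPolynomial κ F ⧸ P.I)
      (X : ι → MvPolynomial ι (MvPolynomial κ F ⧸ P.I)) :=
    MvPolynomial.algebraicIndependent_X _ _
  have h1 := hind.sumElim_comp hX
  let w : κ ⊕ ι → MvPolynomial ι (MvPolynomial κ F ⧸ P.I) := Sum.elim (fun j => C (cp P.I j)) X
  have h2 : td F (Sum.elim X (algebraMap (MvPolynomial κ F ⧸ P.I)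
      (MvPolynomial ι (MvPolynomial κ F ⧸ P.I)) ∘ fun i : S => cp P.I i)) ≤ td F w := by
    refine td_le_of_alg F fun k => ?_
    rcases k with i | ⟨j, hj⟩
    · exact alg_of_range (F := F) w (Sum.inr i)
    · exact alg_of_range (F := F) w (Sum.inl j)
  have h3 := card_le_td h1
  rw [Fintype.card_sum, Fintype.card_coe, hS] at h3
  have h4 : td F w ≤ td F (sharp ι P).pt := by
    refine td_le_of_ker F fun f hf => ?_
    rw [PP.aeval_pt_eq_zero] at hf
    exact hf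
  rw [tdP]
  omega

/-- the defect of the product -/
theorem df_sharp_le (P : PP F κ) : (sharp ι P).df 𝓘 ≤ P.df 𝓘 := by
  have h3 : Sp F P.pt ((sharp ι P).pt ∘ Sum.inl) := by
    intro f hf
    rw [PP.aeval_pt_eq_zero, ← rename_mem_sharp (ι := ι), ← PP.aeval_pt_eq_zero,
      aeval_rename] at hf
    exact hf
  have h1 := rk_add (𝓘 := 𝓘) (sharp ι P).pt Sum.inl
  have h2 := h3.rk_le (𝓘 := 𝓘)
  have h4 := le_td_sharp (ι := ι) P
  have h5 : (cs 𝓘 (sharp ι P).pt \ cs 𝓘 ((sharp ι P).pt ∘ Sum.inl)).ncard ≤ Fintype.card ι := by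
    have h6 : cs 𝓘 (sharp ι P).pt \ cs 𝓘 ((sharp ι P).pt ∘ Sum.inl) ⊆
        Set.range fun i : ι => cl 𝓘 ((sharp ι P).pt (Sum.inr i)) := by
      rintro c ⟨⟨k, hk, rfl⟩, h7⟩
      rcases k with j | i
      · exact absurd ⟨j, hk, rfl⟩ h7
      · exact ⟨i, rfl⟩
    refine (Set.ncard_le_ncard h6 (Set.finite_range _)).trans ?_
    rw [← Set.image_univ]
    refine (Set.ncard_image_le Set.finite_univ).trans ?_
    rw [Set.ncard_univ, Nat.card_eq_fintype_card]
  rw [PP.df, PP.df, dg, dg, PP.td_pt P]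
  omega

/-- Finiteness in the form: there are finitely many primes `P ⊇ I` such that each prime containing
`I` contains one of them with at most the same defect. -/
def FinY (𝓘 : IsoStr F) (I : Ideal (MvPolynomial ι F)) : Prop :=
  ∃ B : Set (Ideal (MvPolynomial ι F)), B.Finite ∧ ∀ Q₀ : PP F ι, I ≤ Q₀.I →
    ∃ P : PP F ι, P.I ∈ B ∧ I ≤ P.I ∧ P.I ≤ Q₀.I ∧ P.df 𝓘 ≤ Q₀.df 𝓘

/-- the ideal of the product with an affine space -/
noncomputable def shJ (ι : Type) [Fintype ι] (I : Ideal (MvPolynomial κ F)) :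
    Ideal (MvPolynomial (κ ⊕ ι) F) := RingHom.ker (shEv ι I)

/-- the equations of the graph of a selection of coordinates -/
noncomputable def gl (m : κ → ι) : List ((κ ⊕ ι) × (κ ⊕ ι)) :=
  (Finset.univ : Finset κ).toList.map fun j => (Sum.inl j, Sum.inr (m j))

/-- **Main claim.** -/
theorem claimY (I : Ideal (MvPolynomial κ F)) (hI : FinY 𝓘 I) (m : κ → ι) :
    FinY 𝓘 (Ideal.map (rename m : MvPolynomial κ F →ₐ[F] MvPolynomial ι F) I) := by
  classical
  obtain ⟨B, hB, hB2⟩ := hI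
  refine ⟨⋃ J ∈ B, (fun I' => Ideal.comap (rename Sum.inr : MvPolynomial ι F →ₐ[F]
    MvPolynomial (κ ⊕ ι) F) I') '' cutset (shJ ι J) (gl m), ?_, ?_⟩
  · refine hB.biUnion fun J _ => ?_
    exact (cutset_finite (gl m) (shJ ι J)).image _
  intro Q₀ hQ₀
  let y := Q₀.pt
  let b : κ → Q₀.fld := y ∘ m
  have hb : ∀ f ∈ I, aeval b f = 0 := by
    intro f hf
    have h1 := hQ₀ (Ideal.mem_map_of_mem _ hf)
    rw [← PP.aeval_pt_eq_zero] at h1
    rw [show aeval b f = aeval y (rename m f) from (aeval_rename _ _ _).symm]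
    exact h1
  obtain ⟨P, hP1, hP2, hP3, hP4⟩ := hB2 (PP.ofPt b) (fun f hf => hb f hf)
  rw [PP.df_ofPt] at hP4
  -- the point of the graph
  have hPQ₀ : (sharp ι P).I ≤ (PP.ofPt (Sum.elim b y) : PP F (κ ⊕ ι)).I :=
    fun f hf => sharp_le P b y (fun g hg => hP3 hg) f hf
  have hgr : ∀ e ∈ gl m, X e.1 - X e.2 ∈ (PP.ofPt (Sum.elim b y) : PP F (κ ⊕ ι)).I := by
    intro e he
    obtain ⟨j, -, rfl⟩ := List.mem_map.1 he
    rw [PP.mem_ofPt, map_sub, aeval_X, aeval_X]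
    exact sub_self _
  obtain ⟨Q', h1, h2, h3, h4, h5⟩ := cut (𝓘 := 𝓘) (gl m) (sharp ι P) _ hPQ₀ hgr
  -- the prime
  obtain ⟨Q, hQ⟩ : ∃ Q : PP F ι, Q = PP.ofPt (Q'.pt ∘ Sum.inr) := ⟨_, rfl⟩
  have hcomap : Q.I = Q'.I.comap (rename Sum.inr :
      MvPolynomial ι F →ₐ[F] MvPolynomial (κ ⊕ ι) F) := by
    ext f
    rw [Ideal.mem_comap, hQ, PP.mem_ofPt, ← PP.aeval_pt_eq_zero, aeval_rename]
  have hm : ∀ j, Q'.pt (Sum.inl j) = Q'.pt (Sum.inr (m j)) := by
    intro j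
    have h6 := h4 (Sum.inl j, Sum.inr (m j)) (List.mem_map.2 ⟨j, by simp, rfl⟩)
    rw [← PP.aeval_pt_eq_zero, map_sub, aeval_X, aeval_X, sub_eq_zero] at h6
    exact h6
  refine ⟨Q, ?_, ?_, ?_, ?_⟩
  · rw [hcomap]
    exact Set.mem_biUnion hP1 ⟨Q'.I, h1, rfl⟩
  · rw [Ideal.map_le_iff_le_comap]
    intro f hf
    rw [Ideal.mem_comap, hQ, PP.mem_ofPt, aeval_rename]
    have h6 : rename (Sum.inl : κ → κ ⊕ ι) f ∈ Q'.I := h2 ((rename_mem_sharp P f).2 (hP2 hf))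
    rw [← PP.aeval_pt_eq_zero, aeval_rename] at h6
    have h7 : Q'.pt ∘ Sum.inl = (Q'.pt ∘ Sum.inr) ∘ m := funext hm
    rw [← h7]
    exact h6
  · intro f hf
    rw [hcomap, Ideal.mem_comap] at hf
    have h6 : aeval (Sum.elim b y) (rename (Sum.inr : ι → κ ⊕ ι) f) = 0 := h3 hf
    rw [aeval_rename] at h6
    rw [← PP.aeval_pt_eq_zero]
    exact h6
  · calc Q.df 𝓘 = dg 𝓘 (Q'.pt ∘ Sum.inr) := by rw [hQ, PP.df_ofPt]
      _ ≤ dg 𝓘 Q'.pt := dg_comp_le _ _
      _ = Q'.df 𝓘 := rfl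
      _ ≤ (sharp ι P).df 𝓘 := h5
      _ ≤ P.df 𝓘 := df_sharp_le P
      _ ≤ dg 𝓘 b := hP4
      _ ≤ dg 𝓘 y := dg_comp_le _ _
      _ = Q₀.df 𝓘 := rfl

end

end Pool.Agent.R948.YY
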