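import Pool.Agent.R948.YC

/-!
# Reduction of all varieties to powers of the surface `z = x ^ 2 + y`
-/

set_option autoImplicit false
set_option linter.unusedSectionVars false
set_option linter.style.haveILetI false

namespace Pool.Agent.R948.YY

open MvPolynomial

section

variable {F : Type} [Field F] {ι : Type} {K : Type} [Field K] [Algebra F K]

/-- `w` respects the equations `r = p ^ 2 + q` and the constants in the set `G`. -/
def Resp (G : Set (MvPolynomial ι F)) (w : MvPolynomial ι F → K) : Prop :=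
  (∀ p ∈ G, ∀ q ∈ G, ∀ r ∈ G, r = p ^ 2 + q → w r = w p ^ 2 + w q) ∧
    ∀ c, C c ∈ G → w (C c) = algebraMap F K c

theorem Resp.mono {G G' : Set (MvPolynomial ι F)} {w : MvPolynomial ι F → K} (h : Resp G' w)
    (hG : G ⊆ G') : Resp G w :=
  ⟨fun p hp q hq r hr => h.1 p (hG hp) q (hG hq) r (hG hr), fun c hc => h.2 c (hG hc)⟩

/-- finite sets of polynomials which are determined by the equations -/
def Det (G : Set (MvPolynomial ι F)) : Prop :=
  ∀ (K : Type) [Field K] [Algebra F K] (w : MvPolynomial ι F → K), Resp G w →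
    ∀ g ∈ G, w g = aeval (fun i => w (X i)) g

theorem Det.union {G G' : Set (MvPolynomial ι F)} (h : Det G) (h' : Det G') : Det (G ∪ G') := by
  intro K _ _ w hw g hg
  rcases hg with hg | hg
  · exact h K w (hw.mono Set.subset_union_left) g hg
  · exact h' K w (hw.mono Set.subset_union_right) g hg

/-- constructible polynomials -/
def Good (f : MvPolynomial ι F) : Prop := ∃ G : Set (MvPolynomial ι F), G.Finite ∧ f ∈ G ∧ Det G

theorem good_X (i : ι) : Good (X i : MvPolynomial ι F) := by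
  refine ⟨{X i}, Set.finite_singleton _, rfl, ?_⟩
  intro K _ _ w _ g hg
  rw [Set.mem_singleton_iff.1 hg, aeval_X]

theorem good_C (c : F) : Good (C c : MvPolynomial ι F) := by
  refine ⟨{C c}, Set.finite_singleton _, rfl, ?_⟩
  intro K _ _ w hw g hg
  rw [Set.mem_singleton_iff.1 hg, aeval_C]
  exact hw.2 c rfl

theorem good_A {p q : MvPolynomial ι F} (hp : Good p) (hq : Good q) : Good (p ^ 2 + q) := by
  obtain ⟨G, h1, h2, h3⟩ := hp
  obtain ⟨G', h1', h2', h3'⟩ := hq
  refine ⟨insert (p ^ 2 + q) (G ∪ G'), (h1.union h1').insert _, Set.mem_insert _ _, ?_⟩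
  intro K _ _ w hw g hg
  have h4 := (h3.union h3') K w (hw.mono (Set.subset_insert _ _))
  rcases hg with rfl | hg
  · rw [map_add, map_pow, ← h4 p (Or.inl h2), ← h4 q (Or.inr h2')]
    exact hw.1 p (Or.inr (Or.inl h2)) q (Or.inr (Or.inr h2')) _ (Or.inl rfl) rfl
  · exact h4 g hg

theorem good_B {p r : MvPolynomial ι F} (hr : Good r) (hp : Good p) : Good (r - p ^ 2) := by
  obtain ⟨G, h1, h2, h3⟩ := hp
  obtain ⟨G', h1', h2', h3'⟩ := hr
  refine ⟨insert (r - p ^ 2) (G ∪ G'), (h1.union h1').insert _, Set.mem_insert _ _, ?_⟩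
  intro K _ _ w hw g hg
  have h4 := (h3.union h3') K w (hw.mono (Set.subset_insert _ _))
  rcases hg with rfl | hg
  · rw [map_sub, map_pow, ← h4 p (Or.inl h2), ← h4 r (Or.inr h2')]
    have h5 := hw.1 p (Or.inr (Or.inl h2)) (r - p ^ 2) (Or.inl rfl) r (Or.inr (Or.inr h2'))
      (by ring)
    rw [h5]
    ring
  · exact h4 g hg

variable [IsAlgClosed F]

theorem good_add_const {p : MvPolynomial ι F} (hp : Good p) (c : F) : Good (p + C c) := by
  obtain ⟨d, hd⟩ := IsAlgClosed.exists_pow_nat_eq c (n := 2) (by norm_num)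
  have h := good_A (good_C (ι := ι) d) hp
  have h1 : (C d : MvPolynomial ι F) ^ 2 + p = p + C c := by
    rw [← map_pow, hd]
    ring
  rwa [h1] at h

theorem good_sq {p : MvPolynomial ι F} (hp : Good p) : Good (p ^ 2) := by
  have h := good_A hp (good_C (ι := ι) (0 : F))
  rwa [C_0, add_zero] at h

theorem good_mul_const (h2 : (2 : F) ≠ 0) {p : MvPolynomial ι F} (hp : Good p) (c : F) :
    Good (C c * p) := by
  have h := good_add_const (good_B (good_sq (good_add_const hp (c / 2))) hp) (-(c / 2) ^ 2)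
  have h1 : (p + C (c / 2)) ^ 2 - p ^ 2 + C (-(c / 2) ^ 2) = C c * p := by
    have h3 : C c = (2 : MvPolynomial ι F) * C (c / 2) := by
      rw [← map_ofNat (C : F →+* MvPolynomial ι F) 2, ← C_mul, mul_div_cancel₀ _ h2]
    rw [h3, map_neg, map_pow]
    ring
  rwa [h1] at h

theorem good_add (h2 : (2 : F) ≠ 0) {p q : MvPolynomial ι F} (hp : Good p) (hq : Good q) :
    Good (p + q) := by
  have h3 := good_mul_const h2 hp (1 / 2)
  have h := good_add_const (good_B (good_A (good_add_const h3 1) hq) h3) (-1)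
  have h4 : (C (1 / 2) * p + C 1) ^ 2 + q - (C (1 / 2) * p) ^ 2 + C (-1) = p + q := by
    have h5 : (2 : MvPolynomial ι F) * C (1 / 2 : F) = 1 := by
      rw [← map_ofNat (C : F →+* MvPolynomial ι F) 2, ← C_mul, mul_div_cancel₀ _ h2, C_1]
    rw [map_neg, C_1]
    linear_combination p * h5
  rwa [h4] at h

theorem good_mul (h2 : (2 : F) ≠ 0) {p q : MvPolynomial ι F} (hp : Good p) (hq : Good q) :
    Good (p * q) := by
  have h := good_mul_const h2 (good_B (good_B (good_sq (good_add h2 hp hq)) hp) hq) (1 / 2)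
  have h4 : C (1 / 2) * ((p + q) ^ 2 - p ^ 2 - q ^ 2) = p * q := by
    have h5 : (2 : MvPolynomial ι F) * C (1 / 2 : F) = 1 := by
      rw [← map_ofNat (C : F →+* MvPolynomial ι F) 2, ← C_mul, mul_div_cancel₀ _ h2, C_1]
    linear_combination p * q * h5
  rwa [h4] at h

theorem good_all (h2 : (2 : F) ≠ 0) (f : MvPolynomial ι F) : Good f := by
  induction f using MvPolynomial.induction_on with
  | C c => exact good_C c
  | add p q hp hq => exact good_add h2 hp hq
  | mul_X p i hp => exact good_mul h2 hp (good_X i)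

/-- a finite determined set containing given polynomials -/
theorem exists_det (h2 : (2 : F) ≠ 0) (s : Finset (MvPolynomial ι F)) :
    ∃ G : Finset (MvPolynomial ι F), s ⊆ G ∧ Det (G : Set (MvPolynomial ι F)) := by
  classical
  induction s using Finset.induction_on with
  | empty =>
    refine ⟨∅, le_rfl, ?_⟩
    intro K _ _ w _ g hg
    simp at hg
  | insert f s _ ih =>
    obtain ⟨G, hG1, hG2⟩ := ih
    obtain ⟨G', h1, h3, h4⟩ := good_all h2 f
    refine ⟨h1.toFinset ∪ G, ?_, ?_⟩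
    · refine Finset.insert_subset (Finset.mem_union_left _ (h1.mem_toFinset.2 h3)) ?_
      exact hG1.trans Finset.subset_union_right
    · rw [Finset.coe_union, h1.coe_toFinset]
      exact h4.union hG2

end

section

variable {F : Type} [Field F] [IsAlgClosed F] {𝓘 : IsoStr F} {ι κ : Type} [Fintype ι] [Fintype κ]

/-- the equations of the product of a power of the surface `z = x ^ 2 + y` and a point -/
def univS (M : ℕ) (c : κ → F) : Set (MvPolynomial ((Fin M × Fin 3) ⊕ κ) F) :=
  {f | (∃ i : Fin M, f = X (Sum.inl (i, 2)) - X (Sum.inl (i, 0)) ^ 2 - X (Sum.inl (i, 1))) ∨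
    ∃ j : κ, f = X (Sum.inr j) - C (c j)}

/-- the ideal of the product of a power of the surface `z = x ^ 2 + y` and a point -/
noncomputable def univY (M : ℕ) (c : κ → F) : Ideal (MvPolynomial ((Fin M × Fin 3) ⊕ κ) F) :=
  Ideal.span (univS M c)

theorem univY_iff {K : Type} [Field K] [Algebra F K] (M : ℕ) (c : κ → F)
    (z : (Fin M × Fin 3) ⊕ κ → K) :
    (∀ f ∈ univY M c, aeval z f = 0) ↔
      (∀ i, z (Sum.inl (i, 2)) = z (Sum.inl (i, 0)) ^ 2 + z (Sum.inl (i, 1))) ∧
      ∀ j, z (Sum.inr j) = algebraMap F K (c j) := by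
  have h0 : (∀ f ∈ univY M c, aeval z f = 0) ↔ ∀ f ∈ univS M c, aeval z f = 0 := by
    have h1 := Ideal.span_le (s := univS M c)
      (I := RingHom.ker (aeval z : MvPolynomial _ F →ₐ[F] K))
    exact h1
  rw [h0]
  constructor
  · intro h
    refine ⟨fun i => ?_, fun j => ?_⟩
    · have h1 := h _ (Or.inl ⟨i, rfl⟩)
      simp only [map_sub, map_pow, aeval_X] at h1
      linear_combination h1
    · have h1 := h _ (Or.inr ⟨j, rfl⟩)
      simp only [map_sub, aeval_X, aeval_C] at h1
      linear_combination h1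
  · rintro ⟨h1, h2⟩ f (⟨i, rfl⟩ | ⟨j, rfl⟩)
    · simp only [map_sub, map_pow, aeval_X, h1 i]
      ring
    · simp only [map_sub, aeval_X, aeval_C, h2 j, sub_self]

/-- **Finiteness for all subvarieties.** -/
theorem finY_all (h2 : (2 : F) ≠ 0)
    (hU : ∀ (κ : Type) [Fintype κ] (c : κ → F) (M : ℕ), FinY 𝓘 (univY M c))
    (I : Ideal (MvPolynomial ι F)) : FinY 𝓘 I := by
  classical
  obtain ⟨s, hs⟩ := I.fg_of_isNoetherianRing
  obtain ⟨G, hG1, hG2⟩ := exists_det h2 (s ∪ Finset.univ.image (X : ι → MvPolynomial ι F))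
  have hGs : ∀ f ∈ s, f ∈ G := fun f hf => hG1 (Finset.mem_union_left _ hf)
  have hGX : ∀ i, X i ∈ G := fun i =>
    hG1 (Finset.mem_union_right _ (Finset.mem_image_of_mem _ (Finset.mem_univ i)))
  -- the equations
  let T : Finset (G × G × G) := Finset.univ.filter fun t => (t.2.2 : MvPolynomial ι F) =
    (t.1 : MvPolynomial ι F) ^ 2 + t.2.1
  let e : Fin T.card ≃ T := T.equivFin.symm
  let D : Type := {g : G // ∃ c : F, (g : MvPolynomial ι F) = C c}
  let c : D ⊕ s → F := Sum.elim (fun g => g.2.choose) (fun _ => 0)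
  let m : (Fin T.card × Fin 3) ⊕ (D ⊕ s) → G := Sum.elim
    (fun a => ![(e a.1).1.1, (e a.1).1.2.1, (e a.1).1.2.2] a.2)
    (Sum.elim (fun g => g.1) (fun f => ⟨f.1, hGs f.1 f.2⟩))
  have hF := claimY (𝓘 := 𝓘) (univY T.card c) (hU (D ⊕ s) c T.card) m
  obtain ⟨B, hB, hB2⟩ := hF
  -- the meaning of the equations
  have hmean : ∀ (K : Type) [Field K] [Algebra F K] (w : G → K),
      (∀ f ∈ univY T.card c, aeval (w ∘ m) f = 0) ↔
      (∀ p q r : G, (r : MvPolynomial ι F) = (p : MvPolynomial ι F) ^ 2 + q →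
        w r = w p ^ 2 + w q) ∧
      (∀ g : D, w g.1 = algebraMap F K g.2.choose) ∧
      ∀ f : s, w ⟨f.1, hGs f.1 f.2⟩ = 0 := by
    intro K _ _ w
    rw [univY_iff]
    constructor
    · rintro ⟨h3, h4⟩
      refine ⟨?_, fun g => ?_, fun f => ?_⟩
      · intro p q r hr
        have h5 : (p, q, r) ∈ T := by
          rw [Finset.mem_filter]
          exact ⟨Finset.mem_univ _, hr⟩
        have h6 := h3 (e.symm ⟨(p, q, r), h5⟩)
        simpa [m] using h6
      · have h5 := h4 (Sum.inl g)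
        simpa [m, c] using h5
      · have h5 := h4 (Sum.inr f)
        simpa [m, c] using h5
    · rintro ⟨h3, h4, h5⟩
      refine ⟨fun i => ?_, ?_⟩
      · have h6 := (Finset.mem_filter.1 (e i).2).2
        have h7 := h3 _ _ _ h6
        simpa [m] using h7
      · rintro (g | f)
        · simpa [m, c] using h4 g
        · simpa [m, c] using h5 f
  -- solutions are determined
  have hdet : ∀ (K : Type) [Field K] [Algebra F K] (w : G → K),
      (∀ f ∈ univY T.card c, aeval (w ∘ m) f = 0) →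
      ∀ g : G, w g = aeval (fun i => w ⟨X i, hGX i⟩) (g : MvPolynomial ι F) := by
    intro K _ _ w hw g
    rw [hmean] at hw
    obtain ⟨h3, h4, h5⟩ := hw
    let w' : MvPolynomial ι F → K := fun f => if h : f ∈ G then w ⟨f, h⟩ else 0
    have hw' : ∀ f (h : f ∈ G), w' f = w ⟨f, h⟩ := fun f h => dif_pos h
    have h6 : Resp (G : Set (MvPolynomial ι F)) w' := by
      refine ⟨fun p hp q hq r hr hrp => ?_, fun a ha => ?_⟩
      · rw [hw' p hp, hw' q hq, hw' r hr]
        exact h3 ⟨p, hp⟩ ⟨q, hq⟩ ⟨r, hr⟩ hrp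
      · rw [hw' _ ha]
        have h7 := h4 ⟨⟨C a, ha⟩, a, rfl⟩
        rw [h7]
        congr 1
        have h8 : (C a : MvPolynomial ι F) = C _ :=
          (⟨⟨C a, ha⟩, a, rfl⟩ : D).2.choose_spec
        exact (C_injective ι F h8).symm
    have h7 := hG2 K w' h6 g g.2
    rw [hw' g g.2] at h7
    have h8 : (fun i => w' (X i)) = fun i => w ⟨X i, hGX i⟩ := funext fun i => hw' _ (hGX i)
    rw [h8] at h7
    exact h7
  let φ : ι → G := fun i => ⟨X i, hGX i⟩
  refine ⟨(fun I' => Ideal.comap (rename φ : MvPolynomial ι F →ₐ[F] MvPolynomial G F) I') '' B,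
    hB.image _, ?_⟩
  intro Q₀ hQ₀
  let y := Q₀.pt
  let w : G → Q₀.fld := fun g => aeval y (g : MvPolynomial ι F)
  have hwφ : w ∘ φ = y := by
    funext i
    exact aeval_X y i
  have hw : ∀ f ∈ univY T.card c, aeval (w ∘ m) f = 0 := by
    rw [hmean]
    refine ⟨fun p q r hr => ?_, fun g => ?_, fun f => ?_⟩
    · change aeval y (r : MvPolynomial ι F) = _
      rw [hr, map_add, map_pow]
    · change aeval y (g.1 : MvPolynomial ι F) = _
      have h8 := g.2.choose_spec
      conv_lhs => rw [h8]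
      rw [aeval_C]
    · change aeval y (f : MvPolynomial ι F) = 0
      rw [PP.aeval_pt_eq_zero]
      exact hQ₀ (by rw [← hs]; exact Ideal.subset_span f.2)
  obtain ⟨P, h3, h4, h5, h6⟩ := hB2 (PP.ofPt w) (by
    rw [Ideal.map_le_iff_le_comap]
    intro f hf
    rw [Ideal.mem_comap, PP.mem_ofPt, aeval_rename]
    exact hw f hf)
  rw [PP.df_ofPt] at h6
  have hP : ∀ f ∈ univY T.card c, aeval (P.pt ∘ m) f = 0 := by
    intro f hf
    have h7 := h4 (Ideal.mem_map_of_mem _ hf)
    rw [← PP.aeval_pt_eq_zero] at h7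
    rw [← aeval_rename]
    exact h7
  have hP2 := hdet _ P.pt hP
  have hP3 := ((hmean _ P.pt).1 hP).2.2
  obtain ⟨Q, hQ⟩ : ∃ Q : PP F ι, Q = PP.ofPt (P.pt ∘ φ) := ⟨_, rfl⟩
  refine ⟨Q, ⟨P.I, h3, ?_⟩, ?_, ?_, ?_⟩
  · rw [hQ]
    ext f
    rw [Ideal.mem_comap, PP.mem_ofPt, ← PP.aeval_pt_eq_zero, aeval_rename]
  · rw [hQ, ← hs, Ideal.span_le]
    intro f hf
    change aeval (P.pt ∘ φ) f = 0
    have h7 := hP2 ⟨f, hGs f hf⟩
    rw [hP3 ⟨f, hf⟩] at h7
    exact h7.symm
  · intro f hf
    rw [hQ, PP.mem_ofPt] at hf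
    rw [← PP.aeval_pt_eq_zero]
    have h7 : rename φ f ∈ (PP.ofPt w : PP F G).I := by
      apply h5
      rw [← PP.aeval_pt_eq_zero, aeval_rename]
      exact hf
    rw [PP.mem_ofPt, aeval_rename, hwφ] at h7
    exact h7
  · rw [hQ, PP.df_ofPt]
    have h7 := dg_proj (𝓘 := 𝓘) P.pt w φ (fun f hf => by
      rw [PP.aeval_pt_eq_zero] at hf
      exact h5 hf) (fun g => by
        rw [hP2 g]
        refine isAlgebraic_algebraMap (A := P.fld)
          (⟨aeval (P.pt ∘ φ) (g : MvPolynomial ι F), ?_⟩ :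
            Algebra.adjoin F (Set.range (P.pt ∘ φ)))
        rw [Algebra.adjoin_range_eq_range_aeval]
        exact ⟨_, rfl⟩) h6
    rw [hwφ] at h7
    exact h7

end

end Pool.Agent.R948.YY
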