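import Pool.Agent.R948.YD
import Pool.Agent.R948.JMod

/-!
# Special subvarieties of `Y(1)^n`
-/

set_option autoImplicit false
set_option linter.unusedSectionVars false
set_option linter.style.haveILetI false

namespace Pool.Agent.R948.Y1

open MvPolynomial UpperHalfPlane
open H294ZP (jj IsCM)

section Definitions

variable {ι κ : Type}

/-- The zero locus in `ℂ ^ ι` of a set of polynomials. -/
def zeros (S : Set (MvPolynomial ι ℂ)) : Set (ι → ℂ) := {x | ∀ f ∈ S, MvPolynomial.eval x f = 0}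

/-- Subvarieties of `Y(1) ^ ι = ℂ ^ ι`: irreducible Zariski closed subsets. -/
structure Subvariety (A : Set (ι → ℂ)) : Prop where
  closed : ∃ S : Set (MvPolynomial ι ℂ), A = zeros S
  nonempty : A.Nonempty
  irreducible : ∀ S S' : Set (MvPolynomial ι ℂ), A ⊆ zeros S ∪ zeros S' →
    A ⊆ zeros S ∨ A ⊆ zeros S'

/-- The ideal of the polynomials vanishing on a subset of `ℂ ^ ι`. -/
def van (A : Set (ι → ℂ)) : Ideal (MvPolynomial ι ℂ) where
  carrier := {f | ∀ x ∈ A, MvPolynomial.eval x f = 0}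
  zero_mem' := fun _ _ => map_zero _
  add_mem' := fun {f g} hf hg x hx => by rw [map_add, hf x hx, hg x hx, add_zero]
  smul_mem' := fun f g hg x hx => by rw [smul_eq_mul, map_mul, hg x hx, mul_zero]

/-- The dimension of a subvariety: the transcendence degree of its coordinate ring. -/
noncomputable def vdim (A : Set (ι → ℂ)) : ℕ :=
  Cardinal.toNat (Algebra.trdeg ℂ (MvPolynomial ι ℂ ⧸ van A))

/-- The Zariski closure. -/
def zcl (A : Set (ι → ℂ)) : Set (ι → ℂ) := zeros (van A : Set (MvPolynomial ι ℂ))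

/-- The data of a special subvariety of dimension `r` of `Y(1) ^ ι`: a map from the coordinates to
`r` classes (`none` for the constant coordinates), onto the classes, an integral matrix of positive
determinant for each coordinate, and the values of the constant coordinates, which are singular
moduli. -/
structure SpecialDatum (ι : Type) (r : ℕ) where
  cls : ι → Option (Fin r)
  surj : ∀ l : Fin r, ∃ i, cls i = some l
  mat : ι → Matrix (Fin 2) (Fin 2) ℤ
  det_pos : ∀ i, 0 < (mat i).det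
  const : ι → ℂ
  cm : ∀ i, ∃ τ : ℍ, IsCM τ ∧ const i = jj τ

/-- The points `x` with `x i = const i` for the constant coordinates, and
`x i = j (w)`, `w = (mat i) (z l)` for the coordinates of class `l`, where `z 1, …, z r` are free in
the upper half plane. -/
def SpecialDatum.locus {r : ℕ} (Z : SpecialDatum ι r) : Set (ι → ℂ) :=
  {x | ∃ z : Fin r → ℍ, ∀ i, (Z.cls i = none → x i = Z.const i) ∧
    ∀ l, Z.cls i = some l → ∃ w : ℍ,
      (w : ℂ) * (Z.mat i 1 0 * z l + Z.mat i 1 1) = Z.mat i 0 0 * z l + Z.mat i 0 1 ∧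
      x i = jj w}

/-- The least dimension of a special subvariety of `Y(1) ^ ι` containing `A`. The special
subvarieties are the Zariski closures of the sets `Z.locus`. -/
noncomputable def specialDim (A : Set (ι → ℂ)) : ℕ :=
  sInf {r | ∃ Z : SpecialDatum ι r, A ⊆ zcl Z.locus}

/-- The defect of a subvariety. -/
noncomputable def defect (A : Set (ι → ℂ)) : ℤ := specialDim A - vdim A

/-- `A` is an optimal subvariety for `V`. -/
def Optimal (A V : Set (ι → ℂ)) : Prop :=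
  Subvariety A ∧ A ⊆ V ∧ ∀ B, Subvariety B → A ⊂ B → B ⊆ V → ¬ defect B ≤ defect A

/-- The product of the `M`-th power of the surface `z = x ^ 2 + y` in `Y(1) ^ 3` and of the point
`c` of `Y(1) ^ κ`. -/
def universal (M : ℕ) (c : κ → ℂ) : Set ((Fin M × Fin 3) ⊕ κ → ℂ) :=
  {x | (∀ i, x (Sum.inl (i, 2)) = x (Sum.inl (i, 0)) ^ 2 + x (Sum.inl (i, 1))) ∧
    ∀ j, x (Sum.inr j) = c j}

end Definitions

section

variable {ι κ : Type} [Fintype ι] [Fintype κ]

open YY JJ

theorem van_anti {A B : Set (ι → ℂ)} (h : A ⊆ B) : van B ≤ van A :=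
  fun _ hf x hx => hf x (h hx)

theorem zeros_anti {S T : Set (MvPolynomial ι ℂ)} (h : S ⊆ T) : zeros T ⊆ zeros S :=
  fun _ hx f hf => hx f (h hf)

theorem subset_zeros_van (A : Set (ι → ℂ)) : A ⊆ zeros (van A : Set (MvPolynomial ι ℂ)) :=
  fun x hx _ hf => hf x hx

theorem eq_of_closed {A : Set (ι → ℂ)} (h : ∃ S : Set (MvPolynomial ι ℂ), A = zeros S) :
    zeros (van A : Set (MvPolynomial ι ℂ)) = A := by
  obtain ⟨S, rfl⟩ := h
  refine Set.Subset.antisymm (fun x hx f hf => hx f fun y hy => hy f hf) (subset_zeros_van _)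

theorem Subvariety.prime {A : Set (ι → ℂ)} (h : Subvariety A) : (van A).IsPrime := by
  refine ⟨fun h1 => ?_, fun {f g} hfg => ?_⟩
  · obtain ⟨x, hx⟩ := h.nonempty
    have h2 : (1 : MvPolynomial ι ℂ) ∈ van A := by rw [h1]; trivial
    have h3 := h2 x hx
    rw [map_one] at h3
    exact one_ne_zero h3
  · have h1 : A ⊆ zeros {f} ∪ zeros {g} := by
      intro x hx
      have h2 := hfg x hx
      rw [map_mul] at h2
      rcases mul_eq_zero.1 h2 with h3 | h3
      · exact Or.inl fun f' hf' => by rw [Set.mem_singleton_iff.1 hf']; exact h3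
      · exact Or.inr fun f' hf' => by rw [Set.mem_singleton_iff.1 hf']; exact h3
    rcases h.irreducible _ _ h1 with h2 | h2
    · exact Or.inl fun x hx => h2 hx f rfl
    · exact Or.inr fun x hx => h2 hx g rfl

theorem Subvariety.of_prime {A : Set (ι → ℂ)} (h : ∃ S : Set (MvPolynomial ι ℂ), A = zeros S)
    (hp : (van A).IsPrime) : Subvariety A := by
  refine ⟨h, ?_, ?_⟩
  · by_contra hne
    rw [Set.not_nonempty_iff_eq_empty] at hne
    apply hp.ne_top
    rw [Ideal.eq_top_iff_one]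
    intro x hx
    rw [hne] at hx
    exact hx.elim
  · intro S S' hsub
    by_contra hcon
    rw [not_or] at hcon
    obtain ⟨h1, h2⟩ := hcon
    rw [Set.not_subset] at h1 h2
    obtain ⟨x, hx, hx2⟩ := h1
    obtain ⟨y, hy, hy2⟩ := h2
    simp only [zeros, Set.mem_ofPred_eq, not_forall] at hx2 hy2
    obtain ⟨f, hf, hf2⟩ := hx2
    obtain ⟨g, hg, hg2⟩ := hy2
    have h3 : f * g ∈ van A := by
      intro z hz
      rw [map_mul]
      rcases hsub hz with h4 | h4
      · rw [h4 f hf, zero_mul]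
      · rw [h4 g hg, mul_zero]
    rcases hp.mem_or_mem h3 with h4 | h4
    · exact hf2 (h4 x hx)
    · exact hg2 (h4 y hy)

/-- the prime of a subvariety -/
def toPP {A : Set (ι → ℂ)} (h : Subvariety A) : PP ℂ ι := ⟨van A, h.prime⟩

/-- Hilbert's theorem -/
theorem van_zeros (P : PP ℂ ι) : van (zeros (P.I : Set (MvPolynomial ι ℂ))) = P.I := by
  refine le_antisymm (fun f hf => ?_) (fun f hf _ hx => hx f hf)
  have h1 : f ∈ vanishingIdeal ℂ (zeroLocus ℂ P.I) := by
    intro x hx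
    exact hf x fun g hg => hx g hg
  rwa [IsPrime.vanishingIdeal_zeroLocus] at h1

theorem sub_zeros (P : PP ℂ ι) : Subvariety (zeros (P.I : Set (MvPolynomial ι ℂ))) :=
  Subvariety.of_prime ⟨_, rfl⟩ (by rw [van_zeros]; exact P.prime)

theorem vdim_eq {A : Set (ι → ℂ)} (h : Subvariety A) : vdim A = tdP (toPP h).I := by
  have h1 := tdP_eq (toPP h).I
  rw [vdim]
  change Cardinal.toNat (Algebra.trdeg ℂ (MvPolynomial ι ℂ ⧸ (toPP h).I)) = _
  rw [← h1, Cardinal.toNat_natCast]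

theorem toPP_zeros (P : PP ℂ ι) : toPP (sub_zeros P) = P := PP.ext' (van_zeros P)

theorem mem_van_zcl {A B : Set (ι → ℂ)} (h : A ⊆ zcl B) {f : MvPolynomial ι ℂ} (hf : f ∈ van B) :
    f ∈ van A := fun _ hx => h hx f hf

/-! ### The special dimension -/

theorem rel_iff {K : Type} [Field K] [Algebra ℂ K] {x y : K} :
    YY.rel yStr x y ↔ ∃ N : ℕ, 0 < N ∧ ev x y (Phi N) = 0 := by
  constructor
  · rintro ⟨_, ⟨N, hN, rfl⟩, h⟩
    exact ⟨N, hN, h⟩
  · rintro ⟨N, hN, h⟩
    exact ⟨_, ⟨N, hN, rfl⟩, h⟩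

/-- two coordinates of the same class are isogenous -/
theorem isoN_of_mat {z w w' : ℍ} {g g' : Matrix (Fin 2) (Fin 2) ℤ} (hg : 0 < g.det)
    (hg' : 0 < g'.det) (hw : (w : ℂ) * (g 1 0 * z + g 1 1) = g 0 0 * z + g 0 1)
    (hw' : (w' : ℂ) * (g' 1 0 * z + g' 1 1) = g' 0 0 * z + g' 0 1) :
    IsoN (g.det.toNat * g'.det.toNat) (jj w) (jj w') := by
  have h1 : IsoN g.det.toNat (jj z) (jj w) := by
    refine ⟨z, w, g 0 0, g 0 1, g 1 0, g 1 1, ?_, hw, rfl, rfl⟩
    rw [Int.toNat_of_nonneg hg.le, Matrix.det_fin_two]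
  have h2 : IsoN g'.det.toNat (jj z) (jj w') := by
    refine ⟨z, w', g' 0 0, g' 0 1, g' 1 0, g' 1 1, ?_, hw', rfl, rfl⟩
    rw [Int.toNat_of_nonneg hg'.le, Matrix.det_fin_two]
  exact isoN_trans (isoN_symm h1) h2

/-- the rank is at most the dimension of a special subvariety -/
theorem rk_le_of_datum {A : Set (ι → ℂ)} (hA : Subvariety A) {r : ℕ} (Z : SpecialDatum ι r)
    (h : A ⊆ zcl Z.locus) : rk yStr (toPP hA).pt ≤ r := by
  classical
  have hcls : ∀ i, ¬ sp yStr ((toPP hA).pt i) → Z.cls i ≠ none := by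
    intro i hi h1
    apply hi
    have h2 : (X i - C (Z.const i) : MvPolynomial ι ℂ) ∈ van Z.locus := by
      rintro x ⟨z, hz⟩
      rw [map_sub, eval_X, eval_C, (hz i).1 h1, sub_self]
    have h3 : (X i - C (Z.const i) : MvPolynomial ι ℂ) ∈ (toPP hA).I := mem_van_zcl h h2
    rw [← PP.aeval_pt_eq_zero, map_sub, aeval_X, aeval_C, sub_eq_zero] at h3
    exact ⟨Z.const i, Z.cm i, h3.symm⟩
  have hrel : ∀ i i' l, Z.cls i = some l → Z.cls i' = some l →
      YY.rel yStr ((toPP hA).pt i) ((toPP hA).pt i') := by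
    intro i i' l hi hi'
    have hpos : 0 < (Z.mat i).det.toNat * (Z.mat i').det.toNat := by
      have h1 := Z.det_pos i
      have h2 := Z.det_pos i'
      exact Nat.mul_pos (by omega) (by omega)
    rw [rel_iff]
    refine ⟨_, hpos, ?_⟩
    have h2 : rp i i' (Phi ((Z.mat i).det.toNat * (Z.mat i').det.toNat)) ∈ van Z.locus := by
      rintro x ⟨z, hz⟩
      rw [eval_rp]
      obtain ⟨w, hw, hx⟩ := (hz i).2 l hi
      obtain ⟨w', hw', hx'⟩ := (hz i').2 l hi'
      rw [hx, hx', phi_iff hpos]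
      exact isoN_of_mat (Z.det_pos i) (Z.det_pos i') hw hw'
    have h3 : rp i i' (Phi ((Z.mat i).det.toNat * (Z.mat i').det.toNat)) ∈ (toPP hA).I :=
      mem_van_zcl h h2
    rw [← PP.aeval_pt_eq_zero, aeval_rp] at h3
    exact h3
  rcases isEmpty_or_nonempty ι with hem | hem
  · have h0 : cs yStr (toPP hA).pt = ∅ := by
      ext c
      simp [cs]
    rw [rk, h0, Set.ncard_empty]
    exact Nat.zero_le _
  have h1 : ∀ c ∈ cs yStr (toPP hA).pt, ∃ i l, Z.cls i = some l ∧ cl yStr ((toPP hA).pt i) = c := by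
    rintro c ⟨i, hi, rfl⟩
    obtain ⟨l, hl⟩ := Option.ne_none_iff_exists'.1 (hcls i hi)
    exact ⟨i, l, hl, rfl⟩
  have h2 : ∀ c : cs yStr (toPP hA).pt, ∃ l : Fin r, ∃ i, Z.cls i = some l ∧
      cl yStr ((toPP hA).pt i) = c := by
    rintro ⟨c, hc⟩
    obtain ⟨i, l, h3, h4⟩ := h1 c hc
    exact ⟨l, i, h3, h4⟩
  choose g hg using h2
  have hinj : Function.Injective g := by
    intro c c' hcc
    obtain ⟨i, h3, h4⟩ := hg c
    obtain ⟨i', h3', h4'⟩ := hg c'
    apply Subtype.ext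
    rw [← h4, ← h4', cl_eq]
    exact hrel i i' (g c) h3 (by rw [h3', hcc])
  have hfin := cs_finite (𝓘 := yStr) (toPP hA).pt
  have : Finite (cs yStr (toPP hA).pt) := hfin
  have h3 := Nat.card_le_card_of_injective g hinj
  rw [Nat.card_eq_fintype_card (α := Fin r), Fintype.card_fin] at h3
  exact h3

/-- finitely many matrices suffice for the isogenies of degree `N` -/
theorem exists_mats {N : ℕ} (hN : 0 < N) : ∃ 𝓜 : Finset (Matrix (Fin 2) (Fin 2) ℤ),
    (∀ g ∈ 𝓜, 0 < g.det) ∧ 1 ∈ 𝓜 ∧ ∀ (τ : ℍ) (y : ℂ), ev (jj τ) y (Phi N) = 0 →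
      ∃ g ∈ 𝓜, ∃ w : ℍ, (w : ℂ) * (g 1 0 * τ + g 1 1) = g 0 0 * τ + g 0 1 ∧ y = jj w := by
  classical
  obtain ⟨ι, _, _, a, d, b, h, h1, h2, h3, h4⟩ := H294ZP.TF676.tf H294ZP.ta1.1 N hN
  refine ⟨insert 1 (Finset.univ.image fun k => !![(a k : ℤ), b k; 0, (d k : ℤ)]), ?_,
    Finset.mem_insert_self _ _, ?_⟩
  · intro g hg
    rcases Finset.mem_insert.1 hg with rfl | hg
    · rw [Matrix.det_one]
      exact one_pos
    · obtain ⟨k, -, rfl⟩ := Finset.mem_image.1 hg
      obtain ⟨ha, hd, -⟩ := h1 k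
      rw [Matrix.det_fin_two_of, mul_zero, sub_zero]
      exact_mod_cast Nat.mul_pos ha hd
  · intro τ y hy
    rw [phi_iff hN] at hy
    obtain ⟨τ', w, p, q, r, s, h5, h6, h7, rfl⟩ := hy
    obtain ⟨p', q', r', s', h8, h9⟩ := jj_inj h7.symm
    have h10 := comp_rel h9 h6
    obtain ⟨k, hk⟩ := h4 _ _ _ _ (by
      linear_combination (p * s - q * r) * h8 + h5) τ w h10
    refine ⟨_, Finset.mem_insert_of_mem (Finset.mem_image.2 ⟨k, Finset.mem_univ k, rfl⟩), h k τ,
      ?_, hk⟩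
    have h11 := h2 k τ
    simp only [Matrix.of_apply, Matrix.cons_val', Matrix.cons_val_zero, Matrix.cons_val_one,
      Matrix.cons_val_fin_one]
    push_cast
    linear_combination h11

theorem cm_I : IsCM UpperHalfPlane.I := ⟨1, 0, 1, one_ne_zero, by
  rw [UpperHalfPlane.coe_I, Complex.I_sq]
  norm_num⟩

/-- there is a special subvariety of dimension equal to the rank -/
theorem exists_datum {A : Set (ι → ℂ)} (hA : Subvariety A) :
    ∃ Z : SpecialDatum ι (rk yStr (toPP hA).pt), A ⊆ zcl Z.locus := by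
  classical
  obtain ⟨z, hz⟩ : ∃ z, z = (toPP hA).pt := ⟨_, rfl⟩
  have hfin := cs_finite (𝓘 := yStr) z
  have hFin : Finite (cs yStr z) := hfin
  have hcard : Nat.card (cs yStr z) = rk yStr z := rfl
  rw [← hz, ← hcard]
  let e : cs yStr z ≃ Fin (Nat.card (cs yStr z)) := Finite.equivFin _
  -- the classes
  let cls : ι → Option (Fin (Nat.card (cs yStr z))) := fun i =>
    if h : ¬ sp yStr (z i) then some (e ⟨cl yStr (z i), i, h, rfl⟩) else none
  have hcls1 : ∀ i, cls i = none → sp yStr (z i) := by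
    intro i hi
    by_contra h
    simp only [cls, dif_pos h] at hi
    exact absurd hi (by simp)
  have hcls2 : ∀ i l, cls i = some l → cl yStr (z i) = (e.symm l).1 := by
    intro i l hi
    by_cases h : ¬ sp yStr (z i)
    · simp only [cls, dif_pos h, Option.some.injEq] at hi
      rw [← hi, Equiv.symm_apply_apply]
    · simp only [cls, dif_neg h] at hi
      exact absurd hi (by simp)
  have hrep : ∀ l, ∃ i, ¬ sp yStr (z i) ∧ cl yStr (z i) = (e.symm l).1 := fun l => (e.symm l).2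
  choose rep hrep1 hrep2 using hrep
  have hsurj : ∀ l, ∃ i, cls i = some l := by
    intro l
    refine ⟨rep l, ?_⟩
    simp only [cls, dif_pos (hrep1 l), Option.some.injEq]
    rw [← e.symm.injective.eq_iff, Equiv.symm_apply_apply]
    exact Subtype.ext (hrep2 l)
  -- the degrees of the isogenies
  have hN : ∀ i, ∃ N : ℕ, 0 < N ∧ ∀ l, cls i = some l →
      ev (z (rep l)) (z i) (Phi N) = 0 := by
    intro i
    by_cases h : ∃ l, cls i = some l
    · obtain ⟨l, hl⟩ := h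
      have h1 : YY.rel yStr (z (rep l)) (z i) := by
        rw [← cl_eq, hrep2 l, hcls2 i l hl]
      obtain ⟨N, hN, h2⟩ := rel_iff.1 h1
      refine ⟨N, hN, fun l' hl' => ?_⟩
      rw [hl] at hl'
      rw [← Option.some.inj hl']
      exact h2
    · exact ⟨1, one_pos, fun l hl => absurd ⟨l, hl⟩ h⟩
  choose N hN1 hN2 using hN
  have hM : ∀ i, ∃ 𝓜 : Finset (Matrix (Fin 2) (Fin 2) ℤ),
    (∀ g ∈ 𝓜, 0 < g.det) ∧ 1 ∈ 𝓜 ∧ ∀ (τ : ℍ) (y : ℂ), ev (jj τ) y (Phi (N i)) = 0 →
      ∃ g ∈ 𝓜, ∃ w : ℍ, (w : ℂ) * (g 1 0 * τ + g 1 1) = g 0 0 * τ + g 0 1 ∧ y = jj w :=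
    fun i => exists_mats (hN1 i)
  choose 𝓜 hM1 hM2 hM3 using hM
  -- the constants
  have hconst : ∀ i, ∃ c : ℂ, (∃ τ : ℍ, IsCM τ ∧ c = jj τ) ∧
      (sp yStr (z i) → algebraMap ℂ _ c = z i) := by
    intro i
    by_cases h : sp yStr (z i)
    · obtain ⟨c, hc, hc2⟩ := h
      exact ⟨c, hc, fun _ => hc2⟩
    · exact ⟨jj UpperHalfPlane.I, ⟨_, cm_I, rfl⟩, fun h' => absurd h' h⟩
  choose c hc1 hc2 using hconst
  let Z : (∀ i, {g // g ∈ 𝓜 i}) → SpecialDatum ι (Nat.card (cs yStr z)) := fun t =>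
    { cls := cls
      surj := hsurj
      mat := fun i => (t i).1
      det_pos := fun i => hM1 i _ (t i).2
      const := c
      cm := hc1 }
  have hmem : ∀ x ∈ A, ∃ t, x ∈ (Z t).locus := by
    intro x hx
    choose τ hτ using fun l => jj_surj (x (rep l))
    have h1 : ∀ i, ∃ g : {g // g ∈ 𝓜 i}, ∀ l, cls i = some l → ∃ w : ℍ,
        (w : ℂ) * (g.1 1 0 * τ l + g.1 1 1) = g.1 0 0 * τ l + g.1 0 1 ∧ x i = jj w := by
      intro i
      by_cases h : ∃ l, cls i = some l
      · obtain ⟨l, hl⟩ := h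
        have h2 : rp (rep l) i (Phi (N i)) ∈ (toPP hA).I := by
          rw [← PP.aeval_pt_eq_zero, aeval_rp, ← hz]
          exact hN2 i l hl
        have h3 := h2 x hx
        rw [eval_rp, ← hτ l] at h3
        obtain ⟨g, hg, w, hw1, hw2⟩ := hM3 i (τ l) (x i) h3
        refine ⟨⟨g, hg⟩, fun l' hl' => ?_⟩
        rw [hl] at hl'
        rw [← Option.some.inj hl']
        exact ⟨w, hw1, hw2⟩
      · exact ⟨⟨1, hM2 i⟩, fun l hl => absurd ⟨l, hl⟩ h⟩
    choose t ht using h1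
    refine ⟨t, τ, fun i => ⟨fun hi => ?_, fun l hl => ht i l hl⟩⟩
    have h2 : (X i - C (c i) : MvPolynomial ι ℂ) ∈ (toPP hA).I := by
      rw [← PP.aeval_pt_eq_zero, map_sub, aeval_X, aeval_C, ← hz, hc2 i (hcls1 i hi), sub_self]
    have h3 := h2 x hx
    rw [map_sub, eval_X, eval_C, sub_eq_zero] at h3
    exact h3
  by_contra hcon
  push Not at hcon
  have h1 : ∀ t, ∃ f, f ∈ van (Z t).locus ∧ f ∉ van A := by
    intro t
    have h2 := hcon (Z t)
    rw [Set.not_subset] at h2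
    obtain ⟨x, hx, hx2⟩ := h2
    simp only [zcl, zeros, Set.mem_ofPred_eq, not_forall] at hx2
    obtain ⟨f, hf, hf2⟩ := hx2
    exact ⟨f, hf, fun h3 => hf2 (h3 x hx)⟩
  choose f hf1 hf2 using h1
  have h2 : ∏ t, f t ∈ van A := by
    intro x hx
    obtain ⟨t, ht⟩ := hmem x hx
    rw [map_prod]
    exact Finset.prod_eq_zero (Finset.mem_univ t) (hf1 t x ht)
  have hp := hA.prime
  obtain ⟨t, -, ht⟩ := hp.prod_mem_iff.1 h2
  exact hf2 t ht

theorem specialDim_eq {A : Set (ι → ℂ)} (hA : Subvariety A) :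
    specialDim A = rk yStr (toPP hA).pt := by
  apply le_antisymm
  · obtain ⟨Z, hZ⟩ := exists_datum hA
    exact Nat.sInf_le ⟨Z, hZ⟩
  · refine le_csInf ⟨_, exists_datum hA⟩ ?_
    rintro r ⟨Z, hZ⟩
    exact rk_le_of_datum hA Z hZ

theorem defect_eq {A : Set (ι → ℂ)} (hA : Subvariety A) : defect A = (toPP hA).df yStr := by
  rw [defect, specialDim_eq hA, vdim_eq hA, PP.df, dg, PP.td_pt]

theorem defect_zeros (P : PP ℂ ι) :
    defect (zeros (P.I : Set (MvPolynomial ι ℂ))) = P.df yStr := by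
  rw [defect_eq (sub_zeros P), toPP_zeros]

/-! ### Optimal subvarieties -/

theorem finite_optimal {V : Set (ι → ℂ)} (hV : ∃ S : Set (MvPolynomial ι ℂ), V = zeros S)
    (h : FinY yStr (van V)) : {A | Optimal A V}.Finite := by
  obtain ⟨B, hB, h⟩ := h
  refine Set.Finite.of_finite_image (f := van) (hB.subset ?_) ?_
  · rintro _ ⟨A, ⟨hA, hAV, hopt⟩, rfl⟩
    obtain ⟨P, hP1, hP2, hP3, hP4⟩ := h (toPP hA) (van_anti hAV)
    have h1 : A ⊆ zeros (P.I : Set (MvPolynomial ι ℂ)) :=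
      (subset_zeros_van A).trans (zeros_anti hP3)
    have h2 : zeros (P.I : Set (MvPolynomial ι ℂ)) ⊆ V := by
      have h3 := zeros_anti (ι := ι) (S := (van V : Set (MvPolynomial ι ℂ))) hP2
      rwa [eq_of_closed hV] at h3
    by_cases heq : A = zeros (P.I : Set (MvPolynomial ι ℂ))
    · rw [heq, van_zeros]
      exact hP1
    · exfalso
      refine hopt _ (sub_zeros P) (lt_of_le_of_ne h1 heq) h2 ?_
      rw [defect_zeros P, defect_eq hA]
      exact hP4
  · rintro A ⟨hA, -, -⟩ A' ⟨hA', -, -⟩ h1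
    rw [← eq_of_closed hA.closed, ← eq_of_closed hA'.closed, h1]

theorem fin_of_optimal {V : Set (ι → ℂ)} (hV : ∃ S : Set (MvPolynomial ι ℂ), V = zeros S)
    (h : {A | Optimal A V}.Finite) : FinY yStr (van V) := by
  refine ⟨van '' {A | Optimal A V}, h.image _, fun Q₀ hQ₀ => ?_⟩
  let s : Set ℕ := {n | ∃ P : PP ℂ ι, van V ≤ P.I ∧ P.I ≤ Q₀.I ∧
    P.df yStr ≤ Q₀.df yStr ∧ tdP P.I = n}
  have hs1 : s.Nonempty := ⟨_, Q₀, hQ₀, le_rfl, le_rfl, rfl⟩
  have hs2 : BddAbove s := ⟨Fintype.card ι, by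
    rintro _ ⟨P, -, -, -, rfl⟩
    exact tdP_le_card _⟩
  obtain ⟨P, h1, h2, h3, h4⟩ := Nat.sSup_mem hs1 hs2
  have hPV : zeros (P.I : Set (MvPolynomial ι ℂ)) ⊆ V := by
    have h5 := zeros_anti (ι := ι) (S := (van V : Set (MvPolynomial ι ℂ))) h1
    rwa [eq_of_closed hV] at h5
  refine ⟨P, ⟨zeros (P.I : Set (MvPolynomial ι ℂ)), ⟨sub_zeros P, hPV, ?_⟩, van_zeros P⟩,
    h1, h2, h3⟩
  intro B hB hAB hBV hdef
  rw [defect_zeros P, defect_eq hB] at hdef
  have h5 : (toPP hB).I ≤ P.I := by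
    have h6 := van_anti hAB.le
    rw [van_zeros] at h6
    exact h6
  have h6 : (toPP hB).I ≠ P.I := by
    intro h7
    apply hAB.ne
    rw [← eq_of_closed hB.closed]
    exact congrArg (fun J : Ideal (MvPolynomial ι ℂ) =>
      zeros (J : Set (MvPolynomial ι ℂ))) h7.symm
  have h7 : tdP P.I < tdP (toPP hB).I := tdP_strict (lt_of_le_of_ne h5 h6)
  have h8 : tdP (toPP hB).I ∈ s := ⟨toPP hB, van_anti hBV, h5.trans h2, hdef.trans h3, rfl⟩
  have h9 := le_csSup hs2 h8
  omega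

/-- optimal subvarieties of reducible varieties -/
theorem finite_of_irreducible {V : Set (ι → ℂ)}
    (hV : ∃ S : Set (MvPolynomial ι ℂ), V = zeros S)
    (h : ∀ V' : Set (ι → ℂ), Subvariety V' → {A | Optimal A V'}.Finite) :
    {A | Optimal A V}.Finite := by
  have hfin := Ideal.finite_minimalPrimes_of_isNoetherianRing (MvPolynomial ι ℂ) (van V)
  refine (hfin.biUnion (t := fun p => {A | Optimal A (zeros (p : Set (MvPolynomial ι ℂ))) ∧
    Subvariety (zeros (p : Set (MvPolynomial ι ℂ)))}) fun p hp => ?_).subset ?_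
  · by_cases hsub : Subvariety (zeros (p : Set (MvPolynomial ι ℂ)))
    · exact (h _ hsub).subset fun A hA => hA.1
    · refine Set.finite_empty.subset fun A hA => hsub hA.2
  · rintro A ⟨hA, hAV, hopt⟩
    have hp := hA.prime
    obtain ⟨p, hp1, hp2⟩ := Ideal.exists_minimalPrimes_le (van_anti hAV)
    obtain ⟨P, rfl⟩ : ∃ P : PP ℂ ι, P.I = p := ⟨⟨p, hp1.1.1⟩, rfl⟩
    have h5 : zeros (P.I : Set (MvPolynomial ι ℂ)) ⊆ V := by
      have h5 := zeros_anti (ι := ι) (S := (van V : Set (MvPolynomial ι ℂ))) hp1.1.2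
      rwa [eq_of_closed hV] at h5
    refine Set.mem_biUnion hp1 ⟨⟨hA, (subset_zeros_van A).trans (zeros_anti hp2), ?_⟩,
      sub_zeros P⟩
    exact fun B hB hAB hBV => hopt B hB hAB (hBV.trans h5)

theorem zeros_univY (M : ℕ) (c : κ → ℂ) :
    zeros (univY M c : Set (MvPolynomial ((Fin M × Fin 3) ⊕ κ) ℂ)) = universal M c := by
  ext x
  have h1 : x ∈ zeros (univY M c : Set (MvPolynomial _ ℂ)) ↔
      ∀ f ∈ univY M c, aeval x f = 0 := Iff.rfl
  rw [h1, univY_iff]
  exact Iff.rfl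

/-- **The universal varieties.** -/
theorem universal_iff :
    (∀ (ι : Type) [Fintype ι] (V : Set (ι → ℂ)), Subvariety V → {A | Optimal A V}.Finite) ↔
    ∀ (κ : Type) [Fintype κ] (c : κ → ℂ) (M : ℕ), {A | Optimal A (universal M c)}.Finite := by
  constructor
  · intro h κ _ c M
    refine finite_of_irreducible ?_ fun V' hV' => h _ V' hV'
    rw [← zeros_univY]
    exact ⟨_, rfl⟩
  · intro h ι _ V hV
    refine finite_optimal hV.closed ?_
    refine finY_all two_ne_zero ?_ (van V)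
    intro κ _ c M
    have h1 : ∃ S : Set (MvPolynomial ((Fin M × Fin 3) ⊕ κ) ℂ), universal M c = zeros S := by
      rw [← zeros_univY]
      exact ⟨_, rfl⟩
    obtain ⟨B, hB, h2⟩ := fin_of_optimal h1 (h κ c M)
    have h3 : univY M c ≤ van (universal M c) := by
      intro f hf x hx
      rw [← zeros_univY] at hx
      exact hx f hf
    refine ⟨B, hB, fun Q₀ hQ₀ => ?_⟩
    obtain ⟨P, h4, h5, h6, h7⟩ := h2 Q₀ (by
      rw [← van_zeros Q₀]
      apply van_anti
      rw [← zeros_univY]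
      exact zeros_anti hQ₀)
    exact ⟨P, h4, h3.trans h5, h6, h7⟩

end

end Pool.Agent.R948.Y1
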