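import Pool.Agent.R948.Sharp

/-!
# Points whose monomials lie on a variety with finitely many optimal subvarieties
-/

set_option autoImplicit false
set_option linter.unusedSectionVars false
set_option linter.style.haveILetI false

namespace Pool.Agent.R948

open MvPolynomial

section

variable {F : Type} [Field F] {ι κ : Type} [Fintype ι] [Fintype κ]

/-- Finiteness in the form: there are finitely many primes `P ⊇ I` such that each prime containing
`I` contains one of them with at most the same defect. -/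
def Fin' (I : Ideal (MvPolynomial ι F)) : Prop :=
  ∃ B : Set (Ideal (MvPolynomial ι F)), B.Finite ∧ ∀ Q₀ : TP F ι, I ≤ Q₀.I →
    ∃ P : TP F ι, P.I ∈ B ∧ I ≤ P.I ∧ P.I ≤ Q₀.I ∧ P.df ≤ Q₀.df

variable {K : Type} [Field K] [Algebra F K]

/-- a unit of the field as a unit of an extension -/
noncomputable def uo (K : Type) [Field K] [Algebra F K] (t : Fˣ) : Kˣ :=
  Units.map (algebraMap F K).toMonoidHom t

theorem val_uo (t : Fˣ) : ((uo K t : Kˣ) : K) = algebraMap F K t := rfl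

variable [DecidableEq κ]

/-- the list of binomials of the graph of a monomial map and of a given list -/
noncomputable def gr (m : κ → ι → ℤ) (t : κ → Fˣ) (l : List ((ι → ℤ) × F)) :
    List ((κ ⊕ ι → ℤ) × F) :=
  (Finset.univ.toList.map fun j : κ =>
    ((Sum.elim (Pi.single j 1) (fun i => -(m j i)) : κ ⊕ ι → ℤ), (t j : F))) ++
  l.map fun e => ((Sum.elim 0 e.1 : κ ⊕ ι → ℤ), e.2)

theorem mon_graph (m : κ → ι → ℤ) (b : κ → Kˣ) (y : ι → Kˣ) (j : κ) (u : Kˣ) :
    mon (Sum.elim b y) (Sum.elim (Pi.single j 1) (fun i => -(m j i)) : κ ⊕ ι → ℤ) = u ↔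
      b j = u * mon y (m j) := by
  rw [mon_sum]
  simp only [Sum.elim_inl, Sum.elim_inr]
  have h3 : mon b (Pi.single j 1 : κ → ℤ) = b j := by
    rw [mon, Finset.prod_eq_single j]
    · simp
    · intro j' _ hj'
      rw [Pi.single_eq_of_ne hj', zpow_zero]
    · intro h
      exact absurd (Finset.mem_univ j) h
  have h4 : mon y (fun i => -(m j i)) = (mon y (m j))⁻¹ := mon_neg y (m j)
  rw [h3, h4]
  exact mul_inv_eq_iff_eq_mul

theorem mon_lift (b : κ → Kˣ) (y : ι → Kˣ) (c : ι → ℤ) :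
    mon (Sum.elim b y) (Sum.elim 0 c : κ ⊕ ι → ℤ) = mon y c := by
  rw [mon_sum]
  simp only [Sum.elim_inl, Sum.elim_inr]
  exact (congrArg (· * mon y c) (mon_zero b)).trans (one_mul _)

/-- the list `gr` is satisfied -/
theorem gr_iff (m : κ → ι → ℤ) (t : κ → Fˣ) (l : List ((ι → ℤ) × F)) (b : κ → Kˣ) (y : ι → Kˣ) :
    (∀ e ∈ gr m t l, ((mon (Sum.elim b y) e.1 : Kˣ) : K) = algebraMap F K e.2) ↔
      (∀ j, b j = uo K (t j) * mon y (m j)) ∧
      ∀ e ∈ l, ((mon y e.1 : Kˣ) : K) = algebraMap F K e.2 := by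
  constructor
  · intro h
    refine ⟨fun j => ?_, fun e he => ?_⟩
    · have h1 := h _ (List.mem_append_left _ (List.mem_map.2
        ⟨j, Finset.mem_toList.2 (Finset.mem_univ j), rfl⟩))
      rw [← mon_graph]
      exact Units.ext h1
    · have h1 := h _ (List.mem_append_right _ (List.mem_map.2 ⟨e, he, rfl⟩))
      rw [mon_lift] at h1
      exact h1
  · rintro ⟨h1, h2⟩ e he
    rcases List.mem_append.1 he with he | he
    · obtain ⟨j, -, rfl⟩ := List.mem_map.1 he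
      have h3 := (mon_graph m b y j (uo K (t j))).2 (h1 j)
      rw [h3]
      rfl
    · obtain ⟨e', he', rfl⟩ := List.mem_map.1 he
      rw [mon_lift]
      exact h2 e' he'

/-- **Main claim.** -/
theorem claimZ [IsAlgClosed F] (I : Ideal (MvPolynomial κ F)) (hI : Fin' I) (m : κ → ι → ℤ)
    (t : κ → Fˣ) (ht : ∀ j, ∃ N : ℕ, 0 < N ∧ t j ^ N = 1) (l : List ((ι → ℤ) × F))
    (hl : ∀ e ∈ l, ∃ N : ℕ, 0 < N ∧ e.2 ^ N = 1) :
    ∃ B : Set (Ideal (MvPolynomial ι F)), B.Finite ∧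
      ∀ (K : Type) [Field K] [Algebra F K] (y : ι → Kˣ),
        (∀ f ∈ I, aeval (un fun j => uo K (t j) * mon y (m j)) f = 0) →
        (∀ e ∈ l, ((mon y e.1 : Kˣ) : K) = algebraMap F K e.2) →
        ∃ Q : TP F ι, Q.I ∈ B ∧ (∀ f ∈ Q.I, aeval (un y) f = 0) ∧ Q.df ≤ df F y ∧
          ∃ (K' : Type) (_ : Field K') (_ : Algebra F K') (z : ι → K'ˣ), Spec F Q.pt z ∧
            Spec F z Q.pt ∧
            (∀ f ∈ I, aeval (un fun j => uo K' (t j) * mon z (m j)) f = 0) ∧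
            ∀ e ∈ l, ((mon z e.1 : K'ˣ) : K') = algebraMap F K' e.2 := by
  obtain ⟨B, hB, hB2⟩ := hI
  refine ⟨⋃ J ∈ B, (Ideal.comap (rename Sum.inr : MvPolynomial ι F →ₐ[F]
    MvPolynomial (κ ⊕ ι) F)) '' cutset (shI ι J) (gr m t l),
    hB.biUnion fun J _ => (cutset_finite _ _).image _, ?_⟩
  intro K _ _ y hy1 hy2
  let b : κ → Kˣ := fun j => uo K (t j) * mon y (m j)
  obtain ⟨P, hP1, hP2, hP3, hP4⟩ := hB2 (TP.ofPt b) (fun f hf => hy1 f hf)
  have htK : ∀ j, ∃ N : ℕ, 0 < N ∧ uo K (t j) ^ N = 1 := by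
    intro j
    obtain ⟨N, hN, h⟩ := ht j
    refine ⟨N, hN, ?_⟩
    rw [uo, ← map_pow, h, map_one]
  -- the point of the graph
  let Q₀ : TP F (κ ⊕ ι) := TP.ofPt (Sum.elim b y)
  have hPQ₀ : (sharp ι P).I ≤ Q₀.I := fun f hf => sharp_le P b y (fun g hg => hP3 hg) f hf
  have hgr : ∀ e ∈ gr m t l, (∃ N : ℕ, 0 < N ∧ e.2 ^ N = 1) ∧ binom e.2 e.1 ∈ Q₀.I := by
    intro e he
    constructor
    · rcases List.mem_append.1 he with he | he
      · obtain ⟨j, -, rfl⟩ := List.mem_map.1 he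
        obtain ⟨N, hN, h⟩ := ht j
        exact ⟨N, hN, by rw [← Units.val_pow_eq_pow_val, h, Units.val_one]⟩
      · obtain ⟨e', he', rfl⟩ := List.mem_map.1 he
        exact hl e' he'
    · change aeval (un (Sum.elim b y)) _ = 0
      rw [aeval_binom]
      exact (gr_iff m t l b y).2 ⟨fun j => rfl, hy2⟩ e he
  obtain ⟨Q', h1, h2, h3, h4, h5⟩ := cut (gr m t l) (sharp ι P) Q₀ hPQ₀ hgr
  -- the two parts of the generic point
  let bq : κ → Q'.fldˣ := fun j => Q'.pt (Sum.inl j)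
  let yq : ι → Q'.fldˣ := fun i => Q'.pt (Sum.inr i)
  have hpt : Q'.pt = Sum.elim bq yq := by
    funext k
    rcases k with j | i <;> rfl
  have hgrq : ∀ e ∈ gr m t l, ((mon (Sum.elim bq yq) e.1 : Q'.fldˣ) : Q'.fld) =
      algebraMap F Q'.fld e.2 := by
    intro e he
    rw [← hpt, ← binom_mem]
    exact h4 e he
  rw [gr_iff] at hgrq
  obtain ⟨hg1, hg2⟩ := hgrq
  have hbI : ∀ f ∈ I, aeval (un bq) f = 0 := by
    intro f hf
    have h6 : rename Sum.inl f ∈ Q'.I := h2 ((rename_inl_mem_sharp P f).2 (hP2 hf))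
    rw [← TP.aeval_pt_eq_zero, aeval_rename] at h6
    exact h6
  have hcomap : (TP.ofPt yq : TP F ι).I = Q'.I.comap (rename Sum.inr : MvPolynomial ι F →ₐ[F]
      MvPolynomial (κ ⊕ ι) F) := by
    ext f
    rw [Ideal.mem_comap, TP.mem_ofPt, ← TP.aeval_pt_eq_zero, aeval_rename]
    rfl
  have hbq : bq = fun j => uo Q'.fld (t j) * mon yq (m j) := funext hg1
  -- the prime
  obtain ⟨Q, hQ⟩ : ∃ Q : TP F ι, Q = TP.ofPt yq := ⟨_, rfl⟩
  have hs1 : Spec F Q.pt yq := fun f hf => by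
    rw [TP.aeval_pt_eq_zero, hQ] at hf
    exact hf
  have hs2 : Spec F yq Q.pt := fun f hf => by
    rw [TP.aeval_pt_eq_zero, hQ]
    exact hf
  refine ⟨Q, ?_, ?_, ?_, Q'.fld, inferInstance, inferInstance, yq, hs1, hs2, ?_, hg2⟩
  · refine Set.mem_biUnion hP1 ⟨Q'.I, h1, ?_⟩
    rw [hQ, hcomap]
  · intro f hf
    rw [hQ, hcomap, Ideal.mem_comap] at hf
    have h6 : aeval (un (Sum.elim b y)) (rename Sum.inr f) = 0 := h3 hf
    rw [aeval_rename] at h6
    exact h6
  · calc Q.df = df F yq := by rw [hQ, TP.df_ofPt]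
      _ ≤ df F (Sum.elim bq yq) := df_le_sum' bq yq
      _ = Q'.df := by rw [← hpt]; rfl
      _ ≤ (sharp ι P).df := h5
      _ ≤ P.df := df_sharp_le P
      _ ≤ df F b := by rw [TP.df_ofPt] at hP4; exact hP4
      _ ≤ df F (Sum.elim b y) := df_le_sum b y
      _ = df F (Sum.elim y b) := df_sum_comm b y
      _ ≤ df F y := df_sum_le y b m (fun j => uo K (t j)) htK fun j => rfl
  · rw [← hbq]
    exact hbI

end

end Pool.Agent.R948
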