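import Pool.Agent.R948.ZPf

/-!
# Hypersurface sections through a given subvariety
-/

set_option autoImplicit false
set_option linter.unusedSectionVars false
set_option linter.style.haveILetI false

namespace Pool.Agent.R948.ZP

open MvPolynomial

section

variable {K : Type} [Field K] [IsAlgClosed K] {ι : Type} [Fintype ι]

/-- the subvariety given by a homogeneous prime ideal -/
theorem van_inter {X V W : Set (ι → K)} (hX : QuasiProjective X) (hV : V ⊆ X)
    (hW : W.Nonempty) (hWX : W ⊆ X) (P : Ideal (MvPolynomial ι K)) [hP : P.IsPrime]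
    (h1 : van V ≤ P) (h2 : P ≤ van W) :
    van (X ∩ zeros (P : Set (MvPolynomial ι K))) = P := by
  obtain ⟨F, G, hFG⟩ := hX.locallyClosed
  apply le_antisymm
  · obtain ⟨x, hx⟩ := hW
    have hxX := hWX hx
    rw [hFG] at hxX
    have hxG := hxX.2
    simp only [zeros, Set.mem_ofPred_eq, not_forall] at hxG
    obtain ⟨g, hg, hgx⟩ := hxG
    intro f hf
    have h3 : f * g ∈ P := by
      rw [mem_prime_iff]
      intro y hy
      rw [map_mul]
      by_cases hyX : y ∈ X
      · have h2 : y ∈ X ∩ zeros (P : Set (MvPolynomial ι K)) := ⟨hyX, fun g' hg' => hy g' hg'⟩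
        rw [hf y h2, zero_mul]
      · have h3 : y ∈ zeros F := by
          intro f' hf'
          refine hy f' (h1 fun z hz => ?_)
          have h5 := hV hz
          rw [hFG] at h5
          exact h5.1 f' hf'
        have h6 : y ∈ zeros G := by
          by_contra hcon
          exact hyX (by rw [hFG]; exact ⟨h3, hcon⟩)
        rw [h6 g hg, mul_zero]
    exact (hP.mem_or_mem h3).resolve_right fun h2' => hgx (h2 h2' x hx)
  · exact fun f hf x hx => hx.2 f hf

attribute [local instance] MvPolynomial.gradedAlgebra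

theorem comp_mem_of_homogeneous {P : Ideal (MvPolynomial ι K)}
    (hP : P.IsHomogeneous (homogeneousSubmodule ι K)) {f : MvPolynomial ι K} (hf : f ∈ P)
    (n : ℕ) : homogeneousComponent n f ∈ P := by
  have h1 := hP n hf
  rwa [← MvPolynomial.decomposition.decompose'_apply]

theorem closed_of_homogeneous {X : Set (ι → K)} (hX : IsCone X) {P : Ideal (MvPolynomial ι K)}
    (hP : P.IsHomogeneous (homogeneousSubmodule ι K)) :
    Closed X (X ∩ zeros (P : Set (MvPolynomial ι K))) := by
  refine ⟨fun x hx c hc => ⟨hX x hx.1 c hc, ?_⟩, _, rfl⟩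
  exact cone_of_hom _ (fun f hf n => comp_mem_of_homogeneous hP hf n) x hx.2 c hc

/-- Krull's principal ideal theorem -/
theorem krull {X V W : Set (ι → K)} (hX : QuasiProjective X) (hV : Subvariety X V)
    {F : MvPolynomial ι K} {N : ℕ} (hF : F.IsHomogeneous N)
    (hW : IsComponent X W (V ∩ (X ∩ zeros {F}))) : vd V ≤ vd W + 1 := by
  classical
  have hXc := hX.cone
  haveI := hV.prime hXc
  haveI := hW.1.prime hXc
  have hWV : van V ≤ van W := van_anti (hW.2.1.trans Set.inter_subset_left)
  have hFW : F ∈ van W := fun x hx => (hW.2.1 hx).2.2 F rfl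
  have hle : van V ⊔ Ideal.span {F} ≤ van W :=
    sup_le hWV ((Ideal.span_singleton_le_iff_mem _).2 hFW)
  obtain ⟨Q, hQ, hQW⟩ := Ideal.exists_minimalPrimes_le hle
  haveI hQp : Q.IsPrime := hQ.1.1
  have hQV : van V ≤ Q := le_sup_left.trans hQ.1.2
  have hFQ : F ∈ Q := hQ.1.2 (Ideal.mem_sup_right (Ideal.mem_span_singleton_self F))
  -- homogeneity
  have hcore : (Q.homogeneousCore (homogeneousSubmodule ι K)).toIdeal = Q := by
    have h1 : (Q.homogeneousCore (homogeneousSubmodule ι K)).toIdeal.IsPrime :=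
      hQp.homogeneousCore
    refine le_antisymm (Ideal.toIdeal_homogeneousCore_le _ Q) (hQ.2 ⟨h1, ?_⟩
      (Ideal.toIdeal_homogeneousCore_le _ Q))
    refine sup_le ?_ ((Ideal.span_singleton_le_iff_mem _).2 ?_)
    · have h2 := (van_isHomogeneous hV.closed.1).toIdeal_homogeneousCore_eq_self
      rw [← h2]
      exact Ideal.homogeneousCore_mono _ hQV
    · exact Ideal.mem_homogeneousCore_of_homogeneous_of_mem ⟨N, hF⟩ hFQ
  have hQh : Q.IsHomogeneous (homogeneousSubmodule ι K) := by
    rw [← hcore]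
    exact (Q.homogeneousCore (homogeneousSubmodule ι K)).isHomogeneous
  let W' := X ∩ zeros (Q : Set (MvPolynomial ι K))
  have hvan : van W' = Q := van_inter hX hV.subset hW.1.nonempty hW.1.subset Q hQV hQW
  have hW' : Subvariety X W' := by
    refine Subvariety.of_prime (closed_of_homogeneous hXc hQh) ?_
    rw [hvan]
    exact hQp
  have hWW' : W ⊆ W' := fun x hx => ⟨hW.1.subset hx, fun f hf => hQW hf x hx⟩
  have hW'V : W' ⊆ V ∩ (X ∩ zeros {F}) := by
    intro x hx
    refine ⟨?_, hx.1, fun f hf => ?_⟩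
    · rw [← hV.closed.eq]
      exact ⟨hx.1, fun f hf => hx.2 f (hQV hf)⟩
    · rw [Set.mem_singleton_iff.1 hf]
      exact hx.2 F hFQ
  have heq : W' = W := hW.2.2 W' hW' hWW' hW'V
  have hQ' : van W ∈ (van V ⊔ Ideal.span {F}).minimalPrimes := by
    rw [← heq, hvan]
    exact hQ
  rw [vd_eq, vd_eq]
  exact tdP_drop F hQ'

end

section

variable {k K : Type} [Field k] [Field K] [Algebra k K] {ι : Type} [Fintype ι] [IsAlgClosed k]

/-- a combination with linearly independent coefficients -/
theorem mem_of_comb (P : Ideal (MvPolynomial ι k)) [P.IsPrime] {σ : Type} [Fintype σ]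
    (G : σ → MvPolynomial ι k) (u : σ → K) (hu : LinearIndependent k u)
    (h : ∑ m, C (u m) * MvPolynomial.map (algebraMap k K) (G m) ∈
      P.map (MvPolynomial.map (algebraMap k K))) (m : σ) : G m ∈ P := by
  rw [mem_prime_iff]
  intro z hz
  have h1 := eval_zero_of_map P h hz
  rw [map_sum] at h1
  have h2 : ∑ m, (eval z (G m)) • u m = 0 := by
    rw [← h1]
    refine Finset.sum_congr rfl fun m _ => ?_
    rw [map_mul, eval_C, eval_map_alg, Algebra.smul_def, mul_comm]
  exact Fintype.linearIndependent_iff.1 hu _ h2 m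

end

section

variable {K : Type} [Field K] [IsAlgClosed K] {ι : Type} [Fintype ι]

/-- a generic hypersurface through `V` -/
theorem exists_hypersurface [Uncountable K] {X : Set (ι → K)} (hX : QuasiProjective X)
    {V : Set (ι → K)} (hV : Subvariety X V) (𝒟 : Set (Set (ι → K))) (h𝒟 : 𝒟.Countable)
    (hD : ∀ D ∈ 𝒟, Subvariety X D) :
    ∃ (F : MvPolynomial ι K) (N : ℕ), F.IsHomogeneous N ∧ F ∈ van V ∧
      ∀ D ∈ 𝒟, ∀ B, Subvariety X B → B ⊆ D → F ∈ van B → ¬ B ⊆ V →
        ∃ B', Subvariety X B' ∧ B ⊂ B' ∧ B' ⊆ D ∧ (∀ E ∈ 𝒟, B ⊆ E → B' ⊆ E) ∧ ¬ B' ⊆ V := by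
  classical
  have hXc := hX.cone
  -- the field of definition
  choose CS hCS hCS2 using fun S' : Set (ι → K) => exists_coeffs (van S')
  let Call : Set K := CS V ∪ (⋃ S' ∈ 𝒟, CS S')
  have hCall : Call.Countable :=
    (hCS V).countable.union (h𝒟.biUnion fun S' _ => (hCS S').countable)
  obtain ⟨k, _, _, hkc, hkn, hsub⟩ := exists_field Call hCall
  have hVd : Def k V := hCS2 V k fun c hc => hsub (Or.inl hc)
  have hDd : ∀ D ∈ 𝒟, Def k D := fun D hD' => hCS2 D k fun c hc =>
    hsub (Or.inr (Set.mem_biUnion hD' hc))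
  -- homogeneous generators
  obtain ⟨s, hs⟩ := (IsNoetherian.noetherian (cont k V) : (cont k V).FG)
  let N := s.sup MvPolynomial.totalDegree
  let σ := {f // f ∈ s} × Fin (N + 1) × ι
  let G : σ → MvPolynomial ι k := fun m =>
    MvPolynomial.X m.2.2 ^ (N - (m.2.1 : ℕ)) * homogeneousComponent (m.2.1 : ℕ) m.1.1
  have hGh : ∀ m, (G m).IsHomogeneous N := by
    intro m
    have h1 : (MvPolynomial.X m.2.2 ^ (N - (m.2.1 : ℕ)) : MvPolynomial ι k).IsHomogeneous
        (1 * (N - (m.2.1 : ℕ))) := (isHomogeneous_X k m.2.2).pow _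
    have h2 := h1.mul (homogeneousComponent_isHomogeneous (m.2.1 : ℕ) m.1.1)
    have h3 : 1 * (N - (m.2.1 : ℕ)) + (m.2.1 : ℕ) = N := by
      have := m.2.1.2
      omega
    rw [h3] at h2
    exact h2
  have hcomp : ∀ f ∈ cont k V, ∀ n, homogeneousComponent n f ∈ cont k V := by
    intro f hf n
    have h1 := van_comp hV.closed.1 (Ideal.mem_comap.1 hf) n
    rw [map_homComp] at h1
    exact h1
  have hGV : ∀ m, G m ∈ cont k V := by
    intro m
    refine Ideal.mul_mem_left _ _ (hcomp _ ?_ _)
    rw [← hs]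
    exact Ideal.subset_span m.1.2
  have hGz : ∀ x ∈ X, (∀ m, aeval x (G m) = 0) → x ∈ V := by
    intro x hx hG
    have hx0 : x ≠ 0 := fun h => hX.zero (h ▸ hx)
    obtain ⟨j, hj⟩ := Function.ne_iff.1 hx0
    have hj' : x j ≠ 0 := hj
    have h1 : ∀ f ∈ s, aeval x f = 0 := by
      intro f hf
      rw [← sum_homogeneousComponent f, map_sum]
      refine Finset.sum_eq_zero fun n hn => ?_
      have hn' : n < N + 1 := by
        have h2 : f.totalDegree ≤ N := Finset.le_sup (f := MvPolynomial.totalDegree) hf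
        rw [Finset.mem_range] at hn
        omega
      have h3 := hG (⟨f, hf⟩, ⟨n, hn'⟩, j)
      simp only [G, map_mul, map_pow, aeval_X] at h3
      exact (mul_eq_zero.1 h3).resolve_left (pow_ne_zero _ hj')
    rw [← hV.closed.eq]
    refine ⟨hx, fun f hf => ?_⟩
    have h2 : (cont k V).map (MvPolynomial.map (algebraMap k K)) ≤ RingHom.ker (eval x) := by
      rw [Ideal.map_le_iff_le_comap, ← hs, Ideal.span_le]
      intro g hg
      rw [SetLike.mem_coe, Ideal.mem_comap, RingHom.mem_ker, eval_map_eq]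
      exact h1 g hg
    have h3 : f ∈ van V := hf
    rw [← hVd] at h3
    exact h2 h3
  obtain ⟨u, hu⟩ := exists_indep (k := k) (K := K) σ
  have hul : LinearIndependent k u := hu.linearIndependent
  let F : MvPolynomial ι K := ∑ m, C (u m) * MvPolynomial.map (algebraMap k K) (G m)
  refine ⟨F, N, ?_, ?_, ?_⟩
  · refine IsHomogeneous.sum _ _ _ fun m _ => ?_
    have h1 := (isHomogeneous_C ι (u m)).mul ((hGh m).map (algebraMap k K))
    rwa [zero_add] at h1
  · exact Ideal.sum_mem _ fun m _ => Ideal.mul_mem_left _ _ (hGV m)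
  · intro D hD' B hB hBD hFB hBV
    haveI := cont_prime (k := k) hXc hB
    let B' := clo k X B
    have hB' : Subvariety X B' := clo_sub hX hB (hD D hD') (hDd D hD') hBD
    have hBB' : B ⊆ B' := subset_clo hB.subset
    have hB'D : B' ⊆ D := clo_subset (hD D hD').closed (hDd D hD') (cont_anti hBD)
    have hvan : van B' = (cont k B).map (MvPolynomial.map (algebraMap k K)) :=
      van_clo hX hB (hD D hD') (hDd D hD') hBD
    refine ⟨B', hB', Set.ssubset_iff_subset_ne.2 ⟨hBB', fun he => hBV ?_⟩, hB'D,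
      fun E hE hBE => clo_subset (hD E hE).closed (hDd E hE) (cont_anti hBE),
      fun h => hBV (hBB'.trans h)⟩
    have h1 : F ∈ (cont k B).map (MvPolynomial.map (algebraMap k K)) := by
      rw [← hvan, ← he]
      exact hFB
    have h2 := fun m => mem_of_comb (cont k B) G u hul h1 m
    intro x hx
    refine hGz x (hB.subset hx) fun m => ?_
    rw [← eval_map_eq]
    exact h2 m x hx

end

end Pool.Agent.R948.ZP
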