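import Pool.Agent.R948.ZGa

/-!
# Just unlikely intersections suffice
-/

set_option autoImplicit false
set_option linter.unusedSectionVars false
set_option linter.style.haveILetI false

namespace Pool.Agent.R948.ZP

open MvPolynomial

section Definitions

variable {K : Type} [Field K] {ι : Type} [Fintype ι]

/-- Pink's question: for a subvariety `Z` of a special subvariety and an integer `d`, if the points
`x` of `Z` with `dim ⟨x⟩ ≤ d` (the points of defect at most `d`) are Zariski dense in `Z`, then the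
defect of `Z` is at most `d`. -/
def DefectForm (X : Set (ι → K)) (𝒮 : Set (Set (ι → K))) : Prop :=
  ∀ T ∈ 𝒮, ∀ Z, Subvariety X Z → Z ⊆ T → ∀ d : ℤ,
    (∀ W, Closed X W → (∀ x ∈ Z, defect 𝒮 (line x) ≤ d → x ∈ W) → Z ⊆ W) → defect 𝒮 Z ≤ d

/-- The level `D`: every subvariety of a special subvariety has only finitely many optimal
subvarieties `A` with `dim ⟨A⟩ = D`. -/
def LevelForm (X : Set (ι → K)) (𝒮 : Set (Set (ι → K))) (D : ℤ) : Prop :=
  ∀ T ∈ 𝒮, ∀ V, Subvariety X V → V ⊆ T → {A | Optimal X 𝒮 V A ∧ dim (hull 𝒮 A) = D}.Finite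

/-- The level `D`, for points. -/
def LevelPointForm (X : Set (ι → K)) (𝒮 : Set (Set (ι → K))) (D : ℤ) : Prop :=
  ∀ T ∈ 𝒮, ∀ V, Subvariety X V → V ⊆ T →
    {A | Optimal X 𝒮 V A ∧ dim A = 0 ∧ dim (hull 𝒮 A) = D}.Finite

/-- Just unlikely intersections of level `D`: a subvariety `V` of a special subvariety `T`, not
contained in a smaller special subvariety and with `dim V = dim T - D - 1`, has only finitely many
optimal points `p` with `dim ⟨p⟩ = D`. -/
def JustUnlikelyForm (X : Set (ι → K)) (𝒮 : Set (Set (ι → K))) (D : ℤ) : Prop :=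
  ∀ T ∈ 𝒮, ∀ V, Subvariety X V → V ⊆ T → (∀ S ∈ 𝒮, S ⊂ T → ¬ V ⊆ S) →
    dim V = dim T - D - 1 → {A | Optimal X 𝒮 V A ∧ dim A = 0 ∧ dim (hull 𝒮 A) = D}.Finite

end Definitions

section

variable {K : Type} [Field K] [IsAlgClosed K] {ι : Type} [Fintype ι]
  {X : Set (ι → K)} {𝒮 : Set (Set (ι → K))}

/-- a subvariety of codimension `c` of `T` through `V` which meets all special subvarieties, away
from `V`, in the expected dimension -/
theorem exists_enlarge [Uncountable K] (hX : QuasiProjective X) (h𝒮 : SpecialStructure X 𝒮)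
    {V T : Set (ι → K)} (hV : Subvariety X V) (hT : T ∈ 𝒮) (hVT : V ⊆ T) (c : ℕ) :
    vd V + c ≤ vd T → ∃ V', Subvariety X V' ∧ V ⊆ V' ∧ V' ⊆ T ∧ vd V' + c = vd T ∧
      ∀ S ∈ 𝒮, ∀ B, Subvariety X B → B ⊆ V' → B ⊆ S → B ⊆ V ∨ vd B + c ≤ vd S := by
  have hXc := hX.cone
  induction c with
  | zero =>
    intro _
    refine ⟨T, h𝒮.subvariety T hT, hVT, le_rfl, by omega, fun S hS B hB _ hBS => Or.inr ?_⟩
    exact vd_mono hXc hB (h𝒮.subvariety S hS) hBS
  | succ c ih =>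
    intro hc
    obtain ⟨V', hV', hVV', hV'T, hd, hP⟩ := ih (by omega)
    have hne : ¬ V' ⊆ V := by
      intro h
      have := vd_mono hXc hV' hV h
      omega
    obtain ⟨F, N, hF, hFV, hgen⟩ := exists_hypersurface hX hV (insert V' 𝒮)
      (h𝒮.countable.insert V') (by
        rintro D (rfl | hD)
        · exact hV'
        · exact h𝒮.subvariety D hD)
    have hVF : V ⊆ V' ∩ (X ∩ zeros {F}) := fun x hx =>
      ⟨hVV' hx, hV.subset hx, fun f hf => by rw [Set.mem_singleton_iff.1 hf]; exact hFV x hx⟩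
    obtain ⟨U, hU, hVU⟩ := exists_component hXc hV hVF
    have hUV' : U ⊆ V' := hU.2.1.trans Set.inter_subset_left
    have hFU : F ∈ van U := fun x hx => (hU.2.1 hx).2.2 F rfl
    have h1 := krull hX hV' hF hU
    have h2 : vd U < vd V' := by
      refine vd_strict hXc hU.1 hV' (Set.ssubset_iff_subset_ne.2 ⟨hUV', ?_⟩)
      rintro rfl
      obtain ⟨B', hB', hUB', hB'U, -, -⟩ := hgen U (Set.mem_insert _ _) U hU.1 le_rfl hFU hne
      exact hUB'.not_subset hB'U
    refine ⟨U, hU.1, hVU, hUV'.trans hV'T, by omega, fun S hS B hB hBU hBS => ?_⟩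
    by_cases hBV : B ⊆ V
    · exact Or.inl hBV
    · right
      obtain ⟨B', hB', hBB', hB'V', hB'S, hB'V⟩ := hgen V' (Set.mem_insert _ _) B hB
        (hBU.trans hUV') (van_anti hBU hFU) hBV
      have h3 := vd_strict hXc hB hB' hBB'
      rcases hP S hS B' hB' hB'V' (hB'S S (Set.mem_insert_of_mem _ hS) hBS) with h4 | h4
      · exact absurd h4 hB'V
      · omega

/-- points of level `D` -/
theorem points_of_justUnlikely [Uncountable K] (hX : QuasiProjective X)
    (h𝒮 : SpecialStructure X 𝒮) {D : ℤ} (h : JustUnlikelyForm X 𝒮 D) : LevelPointForm X 𝒮 D := by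
  intro T₀ hT₀ V hV hVT₀
  have hXc := hX.cone
  haveI : Infinite K := IsAlgClosed.instInfinite
  -- the hull
  let T := hull 𝒮 V
  have hT : T ∈ 𝒮 := hull_mem hXc h𝒮 hV hT₀ hVT₀
  have hVT : V ⊆ T := subset_hull V
  by_cases hex : ∃ p, (Optimal X 𝒮 V p ∧ dim p = 0 ∧ dim (hull 𝒮 p) = D) ∧ p ≠ V
  swap
  · push Not at hex
    exact (Set.finite_singleton V).subset fun p hp => hex p hp
  obtain ⟨p, ⟨hp, hp0, hpD⟩, hpV⟩ := hex
  have h1 := hp.2.2 V hV (Set.ssubset_iff_subset_ne.2 ⟨hp.2.1, hpV⟩) le_rfl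
  rw [not_le, defect, defect, hp0, hpD, sub_zero, dim_eq, dim_eq] at h1
  have hD0 : 0 ≤ D := by
    rw [← hpD, dim_eq]
    have h2 := vd_mono hXc hp.1 (h𝒮.subvariety _ (hull_mem hXc h𝒮 hp.1 hT (hp.2.1.trans hVT)))
      (subset_hull p)
    rw [dim_eq] at hp0
    omega
  obtain ⟨D', rfl⟩ := Int.eq_ofNat_of_zero_le hD0
  obtain ⟨V', hV', hVV', hV'T, hd, hP⟩ := exists_enlarge hX h𝒮 hV hT hVT (D' + 1) (by
    have h3 : vd (hull 𝒮 V) = vd T := rfl
    omega)
  have hgen : ∀ S ∈ 𝒮, S ⊂ T → ¬ V' ⊆ S := fun S hS hST hV'S =>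
    hST.2 (hull_subset hS (hVV'.trans hV'S))
  refine (h T hT V' hV' hV'T hgen (by rw [dim_eq, dim_eq]; omega)).subset ?_
  rintro q ⟨hq, hq0, hqD⟩
  refine ⟨⟨hq.1, hq.2.1.trans hVV', fun B hB hqB hBV' hdef => ?_⟩, hq0, hqD⟩
  have hS : hull 𝒮 B ∈ 𝒮 := hull_mem hXc h𝒮 hB hT (hBV'.trans hV'T)
  rcases hP _ hS B hB hBV' (subset_hull B) with h3 | h3
  · exact hq.2.2 B hB hqB h3 hdef
  · rw [defect, defect, hq0, hqD, dim_eq, dim_eq] at hdef
    omega

end

end Pool.Agent.R948.ZP
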