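import Pool.Agent.R948.Pr

/-!
# Subvarieties of quasi-projective varieties, special subvarieties

Subsets of the projective space with homogeneous coordinates indexed by `ι` are represented by their
cones: sets of nonzero vectors stable under multiplication by nonzero scalars.
-/

set_option autoImplicit false
set_option linter.unusedSectionVars false
set_option linter.style.haveILetI false

namespace Pool.Agent.R948.ZP

open MvPolynomial

section Definitions

variable {K : Type} [Field K] {ι : Type} [Fintype ι]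

/-- The common zeros in the affine space of a set of polynomials. -/
def zeros (F : Set (MvPolynomial ι K)) : Set (ι → K) := {x | ∀ f ∈ F, eval x f = 0}

/-- Stability under nonzero scalars. -/
def IsCone (A : Set (ι → K)) : Prop := ∀ x ∈ A, ∀ c : K, c ≠ 0 → c • x ∈ A

/-- (The cone over) a quasi-projective variety: a locally closed subset of projective space. -/
structure QuasiProjective (X : Set (ι → K)) : Prop where
  cone : IsCone X
  zero : (0 : ι → K) ∉ X
  locallyClosed : ∃ F G : Set (MvPolynomial ι K), X = zeros F \ zeros G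

/-- Zariski closed subsets of `X`. -/
def Closed (X W : Set (ι → K)) : Prop :=
  IsCone W ∧ ∃ F : Set (MvPolynomial ι K), W = X ∩ zeros F

/-- Subvarieties of `X`: irreducible Zariski closed subsets. -/
structure Subvariety (X A : Set (ι → K)) : Prop where
  closed : Closed X A
  nonempty : A.Nonempty
  irreducible : ∀ B C : Set (ι → K), Closed X B → Closed X C → A ⊆ B ∪ C → A ⊆ B ∨ A ⊆ C

/-- `C` is an irreducible component of the closed subset `Z` of `X`. -/
def IsComponent (X C Z : Set (ι → K)) : Prop :=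
  Subvariety X C ∧ C ⊆ Z ∧ ∀ D, Subvariety X D → C ⊆ D → D ⊆ Z → D = C

/-- The ideal of all polynomials vanishing on a set. -/
def van (A : Set (ι → K)) : Ideal (MvPolynomial ι K) where
  carrier := {f | ∀ x ∈ A, eval x f = 0}
  zero_mem' := fun _ _ => map_zero _
  add_mem' := fun {f g} hf hg x hx => by rw [map_add, hf x hx, hg x hx, add_zero]
  smul_mem' := fun f g hg x hx => by rw [smul_eq_mul, map_mul, hg x hx, mul_zero]

/-- The dimension of a subvariety of projective space: the transcendence degree of the homogeneous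
coordinate ring (the dimension of the cone) minus one. -/
noncomputable def dim (A : Set (ι → K)) : ℤ :=
  (Cardinal.toNat (Algebra.trdeg K (MvPolynomial ι K ⧸ van A)) : ℤ) - 1

/-- A special structure on `X`: a countable collection of subvarieties of `X` which contains the
irreducible components of the intersections of its members. -/
structure SpecialStructure (X : Set (ι → K)) (𝒮 : Set (Set (ι → K))) : Prop where
  countable : 𝒮.Countable
  subvariety : ∀ S ∈ 𝒮, Subvariety X S
  inter : ∀ S ∈ 𝒮, ∀ T ∈ 𝒮, ∀ C, IsComponent X C (S ∩ T) → C ∈ 𝒮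

/-- The smallest special subvariety containing `A`. -/
def hull (𝒮 : Set (Set (ι → K))) (A : Set (ι → K)) : Set (ι → K) := ⋂₀ {S | S ∈ 𝒮 ∧ A ⊆ S}

/-- The defect. -/
noncomputable def defect (𝒮 : Set (Set (ι → K))) (A : Set (ι → K)) : ℤ := dim (hull 𝒮 A) - dim A

/-- `A` is an optimal subvariety of `V`. -/
def Optimal (X : Set (ι → K)) (𝒮 : Set (Set (ι → K))) (V A : Set (ι → K)) : Prop :=
  Subvariety X A ∧ A ⊆ V ∧
    ∀ B, Subvariety X B → A ⊂ B → B ⊆ V → ¬ defect 𝒮 B ≤ defect 𝒮 A

/-- `A` is an atypical intersection of `Z` and `V` with respect to `T`. -/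
def AtypicalIntersection (X : Set (ι → K)) (T V Z A : Set (ι → K)) : Prop :=
  IsComponent X A (V ∩ Z) ∧ dim A > dim Z + dim V - dim T

/-- `A` is an atypical subvariety of `V` in `T`. -/
def Atypical (X : Set (ι → K)) (𝒮 : Set (Set (ι → K))) (T V A : Set (ι → K)) : Prop :=
  ∃ Z ∈ 𝒮, Z ⊆ T ∧ AtypicalIntersection X T V Z A

/-- Atypical intersections, the form of the problem: for a subvariety `V` of a special subvariety
`T`, `V ≠ T`, and all sequences of special subvarieties `Z_n` of `T` and atypical intersections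
`W_n` of `Z_n` and `V`, the union of the `W_n` is contained in a finite union of special
subvarieties of `T` different from `T`. -/
def SequenceForm (X : Set (ι → K)) (𝒮 : Set (Set (ι → K))) : Prop :=
  ∀ T ∈ 𝒮, ∀ V, Subvariety X V → V ⊂ T → ∀ Z W : ℕ → Set (ι → K),
    (∀ n, Z n ∈ 𝒮 ∧ Z n ⊆ T ∧ AtypicalIntersection X T V (Z n) (W n)) →
    ∃ 𝓕 : Set (Set (ι → K)), 𝓕.Finite ∧ (∀ S ∈ 𝓕, S ∈ 𝒮 ∧ S ⊂ T) ∧ (⋃ n, W n) ⊆ ⋃₀ 𝓕

/-- Zilber's form: the atypical subvarieties of a subvariety `V` of a special subvariety `T` are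
contained in finitely many of them. -/
def ZilberForm (X : Set (ι → K)) (𝒮 : Set (Set (ι → K))) : Prop :=
  ∀ T ∈ 𝒮, ∀ V, Subvariety X V → V ⊆ T →
    ∃ 𝓕 : Set (Set (ι → K)), 𝓕.Finite ∧ (∀ A ∈ 𝓕, Atypical X 𝒮 T V A) ∧
      ⋃₀ {A | Atypical X 𝒮 T V A} = ⋃₀ 𝓕

/-- The form with optimal subvarieties: every subvariety of a special subvariety has only finitely
many optimal subvarieties. -/
def OptimalForm (X : Set (ι → K)) (𝒮 : Set (Set (ι → K))) : Prop :=
  ∀ T ∈ 𝒮, ∀ V, Subvariety X V → V ⊆ T → {A | Optimal X 𝒮 V A}.Finite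

/-- The form with optimal points. -/
def PointForm (X : Set (ι → K)) (𝒮 : Set (Set (ι → K))) : Prop :=
  ∀ T ∈ 𝒮, ∀ V, Subvariety X V → V ⊆ T → {A | Optimal X 𝒮 V A ∧ dim A = 0}.Finite

/-- Pink's form: if the subvariety `V` of the special subvariety `T` is not contained in a special
subvariety of `T` other than `T`, then the intersection of `V` with the union of the special
subvarieties `S` of `T` with `dim S < dim T - dim V` is not Zariski dense in `V`. -/
def PinkForm (X : Set (ι → K)) (𝒮 : Set (Set (ι → K))) : Prop :=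
  ∀ T ∈ 𝒮, ∀ V, Subvariety X V → V ⊆ T → (∀ S ∈ 𝒮, S ⊂ T → ¬ V ⊆ S) →
    ∃ W, Closed X W ∧ ¬ V ⊆ W ∧
      ∀ S ∈ 𝒮, S ⊆ T → dim S < dim T - dim V → V ∩ S ⊆ W

end Definitions

section

variable {K : Type} [Field K] {ι : Type} [Fintype ι]

theorem mem_van {A : Set (ι → K)} {f : MvPolynomial ι K} : f ∈ van A ↔ ∀ x ∈ A, eval x f = 0 :=
  Iff.rfl

theorem van_anti {A B : Set (ι → K)} (h : A ⊆ B) : van B ≤ van A := fun _ hf x hx => hf x (h hx)

theorem subset_zeros_van (A : Set (ι → K)) : A ⊆ zeros (van A : Set (MvPolynomial ι K)) :=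
  fun x hx _ hf => hf x hx

theorem Closed.subset {X W : Set (ι → K)} (h : Closed X W) : W ⊆ X := by
  obtain ⟨-, F, rfl⟩ := h
  exact Set.inter_subset_left

theorem Closed.eq {X W : Set (ι → K)} (h : Closed X W) :
    X ∩ zeros (van W : Set (MvPolynomial ι K)) = W := by
  obtain ⟨-, F, rfl⟩ := h
  refine Set.Subset.antisymm (fun x hx => ⟨hx.1, fun f hf => hx.2 f fun y hy => hy.2 f hf⟩)
    fun x hx => ⟨hx.1, fun f hf => hf x hx⟩

theorem Closed.le_of_van {X A W : Set (ι → K)} (hA : A ⊆ X) (h : Closed X W)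
    (hv : van W ≤ van A) : A ⊆ W := by
  rw [← h.eq]
  exact fun x hx => ⟨hA hx, fun f hf => hv hf x hx⟩

theorem closed_empty (X : Set (ι → K)) : Closed X ∅ := by
  refine ⟨fun x hx => hx.elim, {1}, ?_⟩
  symm
  rw [Set.eq_empty_iff_forall_notMem]
  rintro x ⟨-, hx⟩
  have := hx 1 rfl
  rw [map_one] at this
  exact one_ne_zero this

theorem closed_self {X : Set (ι → K)} (hX : IsCone X) : Closed X X :=
  ⟨hX, ∅, by
    symm
    rw [Set.inter_eq_left]
    exact fun x _ f hf => hf.elim⟩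

theorem Closed.union {X A B : Set (ι → K)} (hA : Closed X A) (hB : Closed X B) :
    Closed X (A ∪ B) := by
  refine ⟨fun x hx c hc => hx.imp (fun h => hA.1 x h c hc) (fun h => hB.1 x h c hc), ?_⟩
  obtain ⟨-, F, rfl⟩ := hA
  obtain ⟨-, G, rfl⟩ := hB
  refine ⟨{h | ∃ f ∈ F, ∃ g ∈ G, h = f * g}, ?_⟩
  ext x
  constructor
  · rintro (⟨h1, h2⟩ | ⟨h1, h2⟩)
    · refine ⟨h1, ?_⟩
      rintro _ ⟨f, hf, g, hg, rfl⟩
      rw [map_mul, h2 f hf, zero_mul]
    · refine ⟨h1, ?_⟩
      rintro _ ⟨f, hf, g, hg, rfl⟩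
      rw [map_mul, h2 g hg, mul_zero]
  · rintro ⟨h1, h2⟩
    by_cases h : ∀ f ∈ F, eval x f = 0
    · exact Or.inl ⟨h1, h⟩
    · push Not at h
      obtain ⟨f, hf, hf2⟩ := h
      refine Or.inr ⟨h1, fun g hg => ?_⟩
      have h3 := h2 (f * g) ⟨f, hf, g, hg, rfl⟩
      rw [map_mul] at h3
      exact (mul_eq_zero.1 h3).resolve_left hf2

theorem Closed.inter {X A B : Set (ι → K)} (hA : Closed X A) (hB : Closed X B) :
    Closed X (A ∩ B) := by
  refine ⟨fun x hx c hc => ⟨hA.1 x hx.1 c hc, hB.1 x hx.2 c hc⟩, ?_⟩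
  obtain ⟨-, F, rfl⟩ := hA
  obtain ⟨-, G, rfl⟩ := hB
  refine ⟨F ∪ G, ?_⟩
  ext x
  constructor
  · rintro ⟨⟨h1, h2⟩, h3, h4⟩
    exact ⟨h1, fun f hf => hf.elim (h2 f) (h4 f)⟩
  · rintro ⟨h1, h2⟩
    exact ⟨⟨h1, fun f hf => h2 f (Or.inl hf)⟩, h1, fun f hf => h2 f (Or.inr hf)⟩

theorem closed_sUnion {X : Set (ι → K)} {𝓕 : Set (Set (ι → K))} (hf : 𝓕.Finite)
    (h : ∀ A ∈ 𝓕, Closed X A) : Closed X (⋃₀ 𝓕) := by
  induction 𝓕, hf using Set.Finite.induction_on with
  | empty => rw [Set.sUnion_empty]; exact closed_empty X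
  | @insert a s _ _ ih =>
    rw [Set.sUnion_insert]
    exact (h a (Set.mem_insert _ _)).union (ih fun A hA => h A (Set.mem_insert_of_mem _ hA))

theorem Subvariety.subset {X A : Set (ι → K)} (h : Subvariety X A) : A ⊆ X := h.closed.subset

/-- a subvariety in a finite union of closed sets -/
theorem Subvariety.mem_of_sUnion {X A : Set (ι → K)} (hA : Subvariety X A)
    {𝓕 : Set (Set (ι → K))} (hf : 𝓕.Finite) (h : ∀ B ∈ 𝓕, Closed X B) (hs : A ⊆ ⋃₀ 𝓕) :
    ∃ B ∈ 𝓕, A ⊆ B := by
  induction 𝓕, hf using Set.Finite.induction_on with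
  | empty =>
    obtain ⟨x, hx⟩ := hA.nonempty
    obtain ⟨B, hB, -⟩ := hs hx
    exact hB.elim
  | @insert a s _ hs' ih =>
    rw [Set.sUnion_insert] at hs
    rcases hA.irreducible a (⋃₀ s) (h a (Set.mem_insert _ _))
      (closed_sUnion hs' fun B hB => h B (Set.mem_insert_of_mem _ hB)) hs with h1 | h1
    · exact ⟨a, Set.mem_insert _ _, h1⟩
    · obtain ⟨B, hB, hB2⟩ := ih (fun B hB => h B (Set.mem_insert_of_mem _ hB)) h1
      exact ⟨B, Set.mem_insert_of_mem _ hB, hB2⟩

/-- decomposition into finitely many subvarieties -/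
theorem exists_decomp (X : Set (ι → K)) {W : Set (ι → K)} (hW : Closed X W) :
    ∃ 𝓕 : Set (Set (ι → K)), 𝓕.Finite ∧ (∀ A ∈ 𝓕, Subvariety X A) ∧ ⋃₀ 𝓕 = W := by
  classical
  have hwf : WellFounded ((· > ·) : Ideal (MvPolynomial ι K) → _ → Prop) :=
    (inferInstance : WellFoundedGT (Ideal (MvPolynomial ι K))).wf
  suffices H : ∀ I : Ideal (MvPolynomial ι K), ∀ W : Set (ι → K), Closed X W → van W = I →
      ∃ 𝓕 : Set (Set (ι → K)), 𝓕.Finite ∧ (∀ A ∈ 𝓕, Subvariety X A) ∧ ⋃₀ 𝓕 = W from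
    H _ W hW rfl
  intro I
  induction I using hwf.induction with
  | _ I ih =>
    rintro W hW rfl
    by_cases hne : W.Nonempty
    swap
    · rw [Set.not_nonempty_iff_eq_empty] at hne
      exact ⟨∅, Set.finite_empty, fun A hA => hA.elim, by rw [Set.sUnion_empty, hne]⟩
    by_cases hirr : ∀ B C : Set (ι → K), Closed X B → Closed X C → W ⊆ B ∪ C → W ⊆ B ∨ W ⊆ C
    · refine ⟨{W}, Set.finite_singleton _, fun A hA => ?_, Set.sUnion_singleton _⟩
      rw [Set.mem_singleton_iff.1 hA]
      exact ⟨hW, hne, hirr⟩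
    · push Not at hirr
      obtain ⟨B, C, hB, hC, hBC, hB2, hC2⟩ := hirr
      have key : ∀ D : Set (ι → K), Closed X D → ¬ W ⊆ D → van (W ∩ D) > van W := by
        intro D hD hWD
        refine lt_of_le_of_ne (van_anti Set.inter_subset_left) fun h => hWD ?_
        have h1 : W = W ∩ D := by
          conv_lhs => rw [← hW.eq, h, (hW.inter hD).eq]
        rw [h1]
        exact Set.inter_subset_right
      obtain ⟨F1, hf1, hs1, hu1⟩ := ih _ (key B hB hB2) _ (hW.inter hB) rfl
      obtain ⟨F2, hf2, hs2, hu2⟩ := ih _ (key C hC hC2) _ (hW.inter hC) rfl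
      refine ⟨F1 ∪ F2, hf1.union hf2, fun A hA => hA.elim (hs1 A) (hs2 A), ?_⟩
      rw [Set.sUnion_union, hu1, hu2, ← Set.inter_union_distrib_left, Set.inter_eq_left]
      exact hBC

/-- homogeneous polynomials on multiples of a vector -/
theorem eval_smul_of_hom {f : MvPolynomial ι K} {n : ℕ} (hf : f.IsHomogeneous n) (c : K)
    (x : ι → K) : eval (c • x) f = c ^ n * eval x f := by
  rw [eval_eq', eval_eq', Finset.mul_sum]
  refine Finset.sum_congr rfl fun d hd => ?_
  have h1 : ∑ i, d i = n := by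
    have h := hf (mem_support_iff.1 hd)
    rw [Finsupp.weight_apply, Finsupp.sum_fintype _ _ (by simp)] at h
    simpa using h
  have h2 : ∏ i, (c • x) i ^ d i = c ^ n * ∏ i, x i ^ d i := by
    simp only [Pi.smul_apply, smul_eq_mul, mul_pow]
    rw [Finset.prod_mul_distrib, Finset.prod_pow_eq_pow_sum, h1]
  rw [h2]
  ring

/-- the vanishing ideal of a cone is homogeneous -/
theorem van_comp [Infinite K] {A : Set (ι → K)} (hA : IsCone A) {f : MvPolynomial ι K}
    (hf : f ∈ van A) (n : ℕ) : homogeneousComponent n f ∈ van A := by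
  classical
  intro x hx
  let p : Polynomial K := ∑ d ∈ Finset.range (f.totalDegree + 1),
    Polynomial.C (eval x (homogeneousComponent d f)) * Polynomial.X ^ d
  have hp : ∀ c : K, c ≠ 0 → p.eval c = 0 := by
    intro c hc
    have h1 := hf (c • x) (hA x hx c hc)
    rw [← sum_homogeneousComponent f, map_sum] at h1
    rw [Polynomial.eval_finsetSum, ← h1]
    refine Finset.sum_congr rfl fun d _ => ?_
    rw [Polynomial.eval_mul, Polynomial.eval_C, Polynomial.eval_pow, Polynomial.eval_X,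
      eval_smul_of_hom (homogeneousComponent_isHomogeneous d f), mul_comm]
  have hp0 : p = 0 := by
    by_contra hne
    have h1 : ({0}ᶜ : Set K) ⊆ (p.roots.toFinset : Set K) := by
      intro c hc
      rw [Finset.mem_coe, Multiset.mem_toFinset, Polynomial.mem_roots hne]
      exact hp c hc
    have h2 : ({0}ᶜ : Set K).Finite := (Finset.finite_toSet _).subset h1
    have h3 : (Set.univ : Set K).Finite := by
      rw [← Set.union_compl_self ({0} : Set K)]
      exact (Set.finite_singleton _).union h2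
    exact Set.infinite_univ h3
  by_cases hn : n ∈ Finset.range (f.totalDegree + 1)
  · have h1 : p.coeff n = eval x (homogeneousComponent n f) := by
      rw [Polynomial.finsetSum_coeff, Finset.sum_eq_single n]
      · rw [Polynomial.coeff_C_mul, Polynomial.coeff_X_pow_self, mul_one]
      · intro d _ hd
        rw [Polynomial.coeff_C_mul, Polynomial.coeff_X_pow, if_neg (Ne.symm hd), mul_zero]
      · exact fun h => absurd hn h
    rw [← h1, hp0, Polynomial.coeff_zero]
  · rw [homogeneousComponent_eq_zero _ _ (by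
      rw [Finset.mem_range, not_lt] at hn
      omega), map_zero]

/-- a cone cut out by homogeneous polynomials -/
theorem cone_of_hom (F : Set (MvPolynomial ι K)) (h : ∀ f ∈ F, ∀ n, homogeneousComponent n f ∈ F) :
    IsCone (zeros F) := by
  intro x hx c _ f hf
  rw [← sum_homogeneousComponent f, map_sum]
  refine Finset.sum_eq_zero fun d _ => ?_
  rw [eval_smul_of_hom (homogeneousComponent_isHomogeneous d f), hx _ (h f hf d), mul_zero]

attribute [local instance] MvPolynomial.gradedAlgebra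

theorem van_isHomogeneous [Infinite K] {A : Set (ι → K)} (hA : IsCone A) :
    (van A).IsHomogeneous (homogeneousSubmodule ι K) := by
  intro n f hf
  have h1 := van_comp hA hf n
  rw [← MvPolynomial.decomposition.decompose'_apply] at h1
  exact h1

theorem Subvariety.prime [Infinite K] {X A : Set (ι → K)} (hX : IsCone X) (h : Subvariety X A) :
    (van A).IsPrime := by
  refine (van_isHomogeneous h.closed.1).isPrime_of_homogeneous_mem_or_mem (fun h1 => ?_) ?_
  · obtain ⟨x, hx⟩ := h.nonempty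
    have h2 : (1 : MvPolynomial ι K) ∈ van A := by rw [h1]; trivial
    have h3 := h2 x hx
    rw [map_one] at h3
    exact one_ne_zero h3
  · rintro f g ⟨m, hm⟩ ⟨n, hn⟩ hfg
    have hcl : ∀ (f : MvPolynomial ι K) (m : ℕ), f ∈ homogeneousSubmodule ι K m →
        Closed X (X ∩ zeros {f}) := by
      intro f m hm
      refine ⟨fun x hx c hc => ⟨hX x hx.1 c hc, ?_⟩, {f}, rfl⟩
      intro f' hf'
      rw [Set.mem_singleton_iff] at hf'
      rw [hf', eval_smul_of_hom ((mem_homogeneousSubmodule m f).1 hm), hx.2 f rfl, mul_zero]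
    have h1 : A ⊆ (X ∩ zeros {f}) ∪ (X ∩ zeros {g}) := by
      intro x hx
      have h2 := hfg x hx
      rw [map_mul] at h2
      rcases mul_eq_zero.1 h2 with h3 | h3
      · exact Or.inl ⟨h.subset hx, fun f' hf' => by rw [Set.mem_singleton_iff.1 hf']; exact h3⟩
      · exact Or.inr ⟨h.subset hx, fun f' hf' => by rw [Set.mem_singleton_iff.1 hf']; exact h3⟩
    rcases h.irreducible _ _ (hcl f m hm) (hcl g n hn) h1 with h2 | h2
    · exact Or.inl fun x hx => (h2 hx).2 f rfl
    · exact Or.inr fun x hx => (h2 hx).2 g rfl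

theorem Subvariety.of_prime {X A : Set (ι → K)} (h : Closed X A) (hp : (van A).IsPrime) :
    Subvariety X A := by
  refine ⟨h, ?_, ?_⟩
  · by_contra hne
    rw [Set.not_nonempty_iff_eq_empty] at hne
    apply hp.ne_top
    rw [Ideal.eq_top_iff_one]
    intro x hx
    rw [hne] at hx
    exact hx.elim
  · rintro B C ⟨-, S, rfl⟩ ⟨-, S', rfl⟩ hsub
    by_contra hcon
    rw [not_or] at hcon
    obtain ⟨h1, h2⟩ := hcon
    rw [Set.not_subset] at h1 h2
    obtain ⟨x, hx, hx2⟩ := h1
    obtain ⟨y, hy, hy2⟩ := h2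
    have hx3 : ¬ x ∈ zeros S := fun h3 => hx2 ⟨h.subset hx, h3⟩
    have hy3 : ¬ y ∈ zeros S' := fun h3 => hy2 ⟨h.subset hy, h3⟩
    simp only [zeros, Set.mem_ofPred_eq, not_forall] at hx3 hy3
    obtain ⟨f, hf, hf2⟩ := hx3
    obtain ⟨g, hg, hg2⟩ := hy3
    have h3 : f * g ∈ van A := by
      intro z hz
      rw [map_mul]
      rcases hsub hz with h4 | h4
      · rw [h4.2 f hf, zero_mul]
      · rw [h4.2 g hg, mul_zero]
    rcases hp.mem_or_mem h3 with h4 | h4
    · exact hf2 (h4 x hx)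
    · exact hg2 (h4 y hy)

/-- the dimension of the cone -/
noncomputable def vd (A : Set (ι → K)) : ℕ :=
  Cardinal.toNat (Algebra.trdeg K (MvPolynomial ι K ⧸ van A))

theorem dim_eq (A : Set (ι → K)) : dim A = (vd A : ℤ) - 1 := rfl

theorem vd_eq (A : Set (ι → K)) [(van A).IsPrime] : vd A = tdP (van A) := by
  have h1 := tdP_eq (van A)
  rw [vd, ← h1, Cardinal.toNat_natCast]

theorem vd_mono [Infinite K] {X A B : Set (ι → K)} (hX : IsCone X) (hA : Subvariety X A)
    (hB : Subvariety X B) (h : A ⊆ B) : vd A ≤ vd B := by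
  haveI := hA.prime hX
  haveI := hB.prime hX
  rw [vd_eq, vd_eq]
  exact tdP_mono (van_anti h)

theorem vd_strict [Infinite K] {X A B : Set (ι → K)} (hX : IsCone X) (hA : Subvariety X A)
    (hB : Subvariety X B) (h : A ⊂ B) : vd A < vd B := by
  haveI := hA.prime hX
  haveI := hB.prime hX
  rw [vd_eq, vd_eq]
  refine tdP_strict (lt_of_le_of_ne (van_anti h.subset) fun he => h.ne ?_)
  rw [← hA.closed.eq, ← hB.closed.eq, he]

theorem vd_le_card [Infinite K] {X A : Set (ι → K)} (hX : IsCone X) (hA : Subvariety X A) :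
    vd A ≤ Fintype.card ι := by
  haveI := hA.prime hX
  rw [vd_eq]
  exact tdP_le_card (van A)

theorem eq_of_vd [Infinite K] {X A B : Set (ι → K)} (hX : IsCone X) (hA : Subvariety X A)
    (hB : Subvariety X B) (h : A ⊆ B) (h2 : vd B ≤ vd A) : A = B := by
  by_contra hne
  have := vd_strict hX hA hB (Set.ssubset_iff_subset_ne.2 ⟨h, hne⟩)
  omega

/-- a maximal subvariety with a property -/
theorem exists_maximal [Infinite K] {X : Set (ι → K)} (hX : IsCone X)
    (p : Set (ι → K) → Prop) {A : Set (ι → K)} (hA : Subvariety X A) (hp : p A) :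
    ∃ B, Subvariety X B ∧ A ⊆ B ∧ p B ∧ ∀ C, Subvariety X C → B ⊆ C → p C → C = B := by
  classical
  have hex : ∃ n, ∃ B, Subvariety X B ∧ A ⊆ B ∧ p B ∧ vd B = n := ⟨_, A, hA, le_rfl, hp, rfl⟩
  have hbd : ∀ n, (∃ B, Subvariety X B ∧ A ⊆ B ∧ p B ∧ vd B = n) → n ≤ Fintype.card ι := by
    rintro n ⟨B, hB, -, -, rfl⟩
    exact vd_le_card hX hB
  obtain ⟨B, hB, hAB, hpB, hn⟩ := Nat.findGreatest_spec
    (P := fun n => ∃ B, Subvariety X B ∧ A ⊆ B ∧ p B ∧ vd B = n) (hbd _ hex.choose_spec)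
    hex.choose_spec
  refine ⟨B, hB, hAB, hpB, fun C hC hBC hpC => ?_⟩
  refine (eq_of_vd hX hB hC hBC ?_).symm
  rw [hn]
  exact Nat.le_findGreatest (hbd _ ⟨C, hC, hAB.trans hBC, hpC, rfl⟩)
    ⟨C, hC, hAB.trans hBC, hpC, rfl⟩

theorem exists_component [Infinite K] {X : Set (ι → K)} (hX : IsCone X) {A Z : Set (ι → K)}
    (hA : Subvariety X A) (h : A ⊆ Z) : ∃ C, IsComponent X C Z ∧ A ⊆ C := by
  obtain ⟨C, hC, hAC, hCZ, hmax⟩ := exists_maximal hX (fun B => B ⊆ Z) hA h
  exact ⟨C, ⟨hC, hCZ, hmax⟩, hAC⟩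

theorem components_finite {X Z : Set (ι → K)} (hZ : Closed X Z) :
    {C | IsComponent X C Z}.Finite := by
  obtain ⟨𝓕, hf, hs, hu⟩ := exists_decomp X hZ
  refine hf.subset ?_
  rintro C ⟨hC, hCZ, hmax⟩
  rw [← hu] at hCZ
  obtain ⟨B, hB, hCB⟩ := hC.mem_of_sUnion hf (fun B hB => (hs B hB).closed) hCZ
  have h1 := hmax B (hs B hB) hCB (by rw [← hu]; exact Set.subset_sUnion_of_mem hB)
  rw [← h1]
  exact hB

end

end Pool.Agent.R948.ZP
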