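import Pool.Agent.R948.ZPa

/-!
# Formal implications between the forms of the Zilber–Pink conjecture
-/

set_option autoImplicit false
set_option linter.unusedSectionVars false
set_option linter.style.haveILetI false

namespace Pool.Agent.R948.ZP

open MvPolynomial

variable {K : Type} [Field K] {ι : Type} [Fintype ι]

/-! ### points -/

/-- the point of projective space given by a vector -/
def line (x : ι → K) : Set (ι → K) := {y | ∃ c : K, c ≠ 0 ∧ y = c • x}

theorem mem_line (x : ι → K) : x ∈ line x := ⟨1, one_ne_zero, (one_smul _ _).symm⟩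

theorem line_cone (x : ι → K) : IsCone (line x) := by
  rintro _ ⟨c, hc, rfl⟩ d hd
  exact ⟨d * c, mul_ne_zero hd hc, (mul_smul _ _ _).symm⟩

theorem line_subset {A : Set (ι → K)} (hA : IsCone A) {x : ι → K} (hx : x ∈ A) : line x ⊆ A := by
  rintro _ ⟨c, hc, rfl⟩
  exact hA x hx c hc

/-- the parametrisation of a line -/
noncomputable def lp (x : ι → K) : ι → Polynomial K := fun i => Polynomial.C (x i) * Polynomial.X

theorem eval_lp (x : ι → K) (f : MvPolynomial ι K) (c : K) :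
    (aeval (lp x) f).eval c = eval (c • x) f := by
  induction f using MvPolynomial.induction_on with
  | C a => simp [Polynomial.algebraMap_eq]
  | add p q hp hq => rw [map_add, Polynomial.eval_add, hp, hq, map_add]
  | mul_X p i hp =>
    rw [map_mul, Polynomial.eval_mul, hp, map_mul, aeval_X, eval_X, lp, Polynomial.eval_mul,
      Polynomial.eval_C, Polynomial.eval_X, Pi.smul_apply, smul_eq_mul, mul_comm (x i)]

theorem mem_van_line [Infinite K] (x : ι → K) (f : MvPolynomial ι K) :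
    f ∈ van (line x) ↔ aeval (lp x) f = 0 := by
  classical
  constructor
  · intro hf
    by_contra hne
    have h1 : ({0}ᶜ : Set K) ⊆ ((aeval (lp x) f).roots.toFinset : Set K) := by
      intro c hc
      rw [Finset.mem_coe, Multiset.mem_toFinset, Polynomial.mem_roots hne, Polynomial.IsRoot.def,
        eval_lp]
      exact hf _ ⟨c, hc, rfl⟩
    have h2 : ({0}ᶜ : Set K).Finite := (Finset.finite_toSet _).subset h1
    have h3 : (Set.univ : Set K).Finite := by
      rw [← Set.union_compl_self ({0} : Set K)]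
      exact (Set.finite_singleton _).union h2
    exact Set.infinite_univ h3
  · rintro hf _ ⟨c, _, rfl⟩
    rw [← eval_lp, hf, Polynomial.eval_zero]

theorem line_sub [Infinite K] {X : Set (ι → K)} (hX : IsCone X) (h0 : (0 : ι → K) ∉ X)
    {x : ι → K} (hx : x ∈ X) : Subvariety X (line x) := by
  have hx0 : x ≠ 0 := fun h => h0 (h ▸ hx)
  obtain ⟨j, hj⟩ := Function.ne_iff.1 hx0
  refine Subvariety.of_prime ⟨line_cone x,
    {f | ∃ i, f = MvPolynomial.X i * C (x j) - MvPolynomial.X j * C (x i)}, ?_⟩ ?_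
  · refine Set.Subset.antisymm (fun y hy => ⟨line_subset hX hx hy, ?_⟩) ?_
    · obtain ⟨c, -, rfl⟩ := hy
      rintro _ ⟨i, rfl⟩
      simp only [map_sub, map_mul, eval_X, eval_C, Pi.smul_apply, smul_eq_mul]
      ring
    · rintro y ⟨hy, hy2⟩
      have hy3 : y = (y j / x j) • x := by
        funext i
        have h1 := hy2 _ ⟨i, rfl⟩
        simp only [map_sub, map_mul, eval_X, eval_C] at h1
        rw [Pi.smul_apply, smul_eq_mul]
        have hj' : x j ≠ 0 := hj
        field_simp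
        linear_combination h1
      refine ⟨y j / x j, fun h => ?_, hy3⟩
      rw [h, zero_smul] at hy3
      exact h0 (hy3 ▸ hy)
  · have h1 : van (line x) = RingHom.ker (aeval (lp x) : MvPolynomial ι K →ₐ[K] Polynomial K) := by
      ext f
      exact mem_van_line x f
    rw [h1]
    exact RingHom.ker_isPrime _

theorem vd_line [Infinite K] {X : Set (ι → K)} (hX : IsCone X) (h0 : (0 : ι → K) ∉ X)
    {x : ι → K} (hx : x ∈ X) : vd (line x) = 1 := by
  haveI := (line_sub hX h0 hx).prime hX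
  have hx0 : x ≠ 0 := fun h => h0 (h ▸ hx)
  obtain ⟨j, hj⟩ := Function.ne_iff.1 hx0
  rw [vd_eq]
  apply le_antisymm
  · have h1 : tdP (van (line x)) ≤ td K (lp x) :=
      tdP_le_td _ _ fun f hf => (mem_van_line x f).2 hf
    refine h1.trans ((td_le_of_alg (w := fun _ : Unit => (Polynomial.X : Polynomial K)) K
      fun i => ?_).trans (td_le_card K _))
    have h2 : lp x i ∈ Algebra.adjoin K (Set.range fun _ : Unit => (Polynomial.X : Polynomial K)) :=
      mul_mem (Subalgebra.algebraMap_mem _ (x i)) (Algebra.subset_adjoin ⟨(), rfl⟩)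
    exact isAlgebraic_algebraMap (⟨lp x i, h2⟩ : Algebra.adjoin K
      (Set.range fun _ : Unit => (Polynomial.X : Polynomial K)))
  · have h1 : td K (lp x) ≤ tdP (van (line x)) :=
      td_le_tdP _ _ fun f hf => (mem_van_line x f).1 hf
    refine le_trans ?_ h1
    have h2 : td K (fun _ : Unit => (Polynomial.X : Polynomial K)) ≤ td K (lp x) := by
      refine td_le_of_alg K fun _ => ?_
      have h3 : (Polynomial.X : Polynomial K) ∈ Algebra.adjoin K (Set.range (lp x)) := by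
        have h4 : (Polynomial.X : Polynomial K) = Polynomial.C (x j)⁻¹ * lp x j := by
          have hj' : x j ≠ 0 := hj
          rw [lp, ← mul_assoc, ← Polynomial.C_mul, inv_mul_cancel₀ hj', Polynomial.C_1, one_mul]
        rw [h4]
        exact mul_mem (Subalgebra.algebraMap_mem _ (x j)⁻¹) (Algebra.subset_adjoin ⟨j, rfl⟩)
      exact isAlgebraic_algebraMap (⟨Polynomial.X, h3⟩ : Algebra.adjoin K (Set.range (lp x)))
    refine le_trans ?_ h2
    have h5 := le_td (F := K) (z := fun _ : Unit => (Polynomial.X : Polynomial K))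
      (S := {()}) (by
        rw [algebraicIndependent_unique_type_iff]
        exact Polynomial.transcendental_X K)
    simpa using h5

/-! ### special subvarieties -/

variable {X : Set (ι → K)} {𝒮 : Set (Set (ι → K))}

theorem subset_hull (A : Set (ι → K)) : A ⊆ hull 𝒮 A := fun _ hx _ hS => hS.2 hx

theorem hull_subset {A S : Set (ι → K)} (hS : S ∈ 𝒮) (h : A ⊆ S) : hull 𝒮 A ⊆ S :=
  fun _ hx => hx S ⟨hS, h⟩

theorem hull_mono {A B : Set (ι → K)} (h : A ⊆ B) : hull 𝒮 A ⊆ hull 𝒮 B :=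
  fun _ hx S hS => hx S ⟨hS.1, h.trans hS.2⟩

theorem hull_mem [Infinite K] (hX : IsCone X) (h𝒮 : SpecialStructure X 𝒮) {A T : Set (ι → K)}
    (hA : Subvariety X A) (hT : T ∈ 𝒮) (h : A ⊆ T) : hull 𝒮 A ∈ 𝒮 := by
  classical
  have hex : ∃ n, ∃ S ∈ 𝒮, A ⊆ S ∧ vd S = n := ⟨_, T, hT, h, rfl⟩
  obtain ⟨S₀, hS₀, hAS₀, hn⟩ := Nat.find_spec hex
  have hmin : ∀ S ∈ 𝒮, A ⊆ S → vd S₀ ≤ vd S := by
    intro S hS hAS
    rw [hn]
    exact Nat.find_min' hex ⟨S, hS, hAS, rfl⟩
  have h1 : hull 𝒮 A = S₀ := by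
    refine Set.Subset.antisymm (hull_subset hS₀ hAS₀) fun x hx S hS => ?_
    obtain ⟨C, hC, hAC⟩ := exists_component hX hA (Set.subset_inter hAS₀ hS.2)
    have hC2 := h𝒮.inter S₀ hS₀ S hS.1 C hC
    have h2 : C = S₀ := eq_of_vd hX hC.1 (h𝒮.subvariety _ hS₀)
      (hC.2.1.trans Set.inter_subset_left) (hmin C hC2 hAC)
    have h3 : x ∈ C := h2 ▸ hx
    exact (hC.2.1 h3).2
  rw [h1]
  exact hS₀

/-- every subvariety of `V` is contained in an optimal one of at most the same defect -/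
theorem exists_optimal [Infinite K] (hX : IsCone X) {A V : Set (ι → K)} (hA : Subvariety X A)
    (h : A ⊆ V) : ∃ B, Optimal X 𝒮 V B ∧ A ⊆ B ∧ defect 𝒮 B ≤ defect 𝒮 A := by
  obtain ⟨B, hB, hAB, ⟨hBV, hBd⟩, hmax⟩ := exists_maximal hX
    (fun B => B ⊆ V ∧ defect 𝒮 B ≤ defect 𝒮 A) hA ⟨h, le_rfl⟩
  refine ⟨B, ⟨hB, hBV, fun C hC hBC hCV hd => ?_⟩, hAB, hBd⟩
  exact hBC.ne (hmax C hC hBC.subset ⟨hCV, hd.trans hBd⟩).symm

/-- an optimal subvariety of small defect is atypical -/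
theorem optimal_atypical [Infinite K] (hX : IsCone X) (h𝒮 : SpecialStructure X 𝒮)
    {B V T : Set (ι → K)} (hT : T ∈ 𝒮) (hVT : V ⊆ T) (hB : Optimal X 𝒮 V B)
    (hd : defect 𝒮 B < dim T - dim V) : Atypical X 𝒮 T V B := by
  have hBT : B ⊆ T := hB.2.1.trans hVT
  have hh := hull_mem hX h𝒮 hB.1 hT hBT
  refine ⟨hull 𝒮 B, hh, hull_subset hT hBT, ⟨hB.1, Set.subset_inter hB.2.1 (subset_hull B),
    fun D hD hBD hDV => ?_⟩, ?_⟩
  · by_contra hne
    have hBD' : B ⊂ D := Set.ssubset_iff_subset_ne.2 ⟨hBD, Ne.symm hne⟩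
    refine hB.2.2 D hD hBD' (hDV.trans Set.inter_subset_left) ?_
    have h1 := vd_strict hX hB.1 hD hBD'
    have h2 : hull 𝒮 D ⊆ hull 𝒮 B := hull_subset hh (hDV.trans Set.inter_subset_right)
    have h3 : hull 𝒮 D = hull 𝒮 B := Set.Subset.antisymm h2 (hull_mono hBD)
    rw [defect, defect, h3, dim_eq D, dim_eq B]
    omega
  · rw [defect] at hd
    linarith

theorem defect_le_of_component [Infinite K] (hX : IsCone X) (h𝒮 : SpecialStructure X 𝒮)
    {A V Z T : Set (ι → K)} (hZ : Z ∈ 𝒮) (hA : AtypicalIntersection X T V Z A) :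
    defect 𝒮 A < dim T - dim V := by
  obtain ⟨⟨hA1, hA2, -⟩, hd⟩ := hA
  have hAZ : A ⊆ Z := hA2.trans Set.inter_subset_right
  have h1 : vd (hull 𝒮 A) ≤ vd Z := vd_mono hX
    (h𝒮.subvariety _ (hull_mem hX h𝒮 hA1 hZ hAZ)) (h𝒮.subvariety _ hZ) (hull_subset hZ hAZ)
  rw [defect]
  rw [dim_eq A, dim_eq Z] at hd
  rw [dim_eq A, dim_eq (hull 𝒮 A)]
  omega

theorem zilber_of_optimal [Infinite K] (hX : IsCone X) (h𝒮 : SpecialStructure X 𝒮)
    (h : OptimalForm X 𝒮) : ZilberForm X 𝒮 := by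
  intro T hT V hV hVT
  refine ⟨{B | Optimal X 𝒮 V B} ∩ {B | Atypical X 𝒮 T V B}, (h T hT V hV hVT).inter_of_left _,
    fun A hA => hA.2, ?_⟩
  refine Set.Subset.antisymm ?_ (Set.sUnion_subset_sUnion Set.inter_subset_right)
  rintro x ⟨A, ⟨Z, hZ, hZT, hA⟩, hx⟩
  obtain ⟨B, hB, hAB, hBd⟩ := exists_optimal (𝒮 := 𝒮) hX hA.1.1
    (hA.1.2.1.trans Set.inter_subset_left)
  refine ⟨B, ⟨hB, ?_⟩, hAB hx⟩
  exact optimal_atypical hX h𝒮 hT hVT hB (hBd.trans_lt (defect_le_of_component hX h𝒮 hZ hA))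

theorem sequence_of_optimal [Infinite K] (hX : IsCone X) (h𝒮 : SpecialStructure X 𝒮)
    (h : OptimalForm X 𝒮) : SequenceForm X 𝒮 := by
  intro T hT V hV hVT Z W hZW
  by_cases hh : hull 𝒮 V = T
  · have hfin : ({B | Optimal X 𝒮 V B} ∩ {B | defect 𝒮 B < dim T - dim V}).Finite :=
      (h T hT V hV hVT.subset).inter_of_left _
    refine ⟨hull 𝒮 '' ({B | Optimal X 𝒮 V B} ∩ {B | defect 𝒮 B < dim T - dim V}),
      hfin.image _, ?_, ?_⟩
    · rintro _ ⟨B, ⟨hB, hBd⟩, rfl⟩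
      have hBT : B ⊆ T := hB.2.1.trans hVT.subset
      refine ⟨hull_mem hX h𝒮 hB.1 hT hBT, Set.ssubset_iff_subset_ne.2
        ⟨hull_subset hT hBT, fun he => ?_⟩⟩
      have h1 : defect 𝒮 B < dim T - dim V := hBd
      have h2 := vd_mono hX hB.1 hV hB.2.1
      rw [defect, he, dim_eq B, dim_eq V] at h1
      omega
    · intro x hx
      obtain ⟨n, hx⟩ := Set.mem_iUnion.1 hx
      obtain ⟨h1, -, h3⟩ := hZW n
      obtain ⟨B, hB, hAB, hBd⟩ := exists_optimal (𝒮 := 𝒮) hX h3.1.1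
        (h3.1.2.1.trans Set.inter_subset_left)
      exact ⟨_, ⟨B, ⟨hB, hBd.trans_lt (defect_le_of_component hX h𝒮 h1 h3)⟩, rfl⟩,
        subset_hull B (hAB hx)⟩
  · refine ⟨{hull 𝒮 V}, Set.finite_singleton _, ?_, ?_⟩
    · intro S hS
      rw [Set.mem_singleton_iff.1 hS]
      exact ⟨hull_mem hX h𝒮 hV hT hVT.subset, Set.ssubset_iff_subset_ne.2
        ⟨hull_subset hT hVT.subset, hh⟩⟩
    · intro x hx
      obtain ⟨n, hx⟩ := Set.mem_iUnion.1 hx
      exact ⟨_, rfl, subset_hull V ((hZW n).2.2.1.2.1 hx).1⟩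

/-- the atypical intersection through a point -/
theorem exists_atypical [Infinite K] (hX : IsCone X) (h0 : (0 : ι → K) ∉ X)
    (h𝒮 : SpecialStructure X 𝒮) {T V S : Set (ι → K)} (hS : S ∈ 𝒮) (hV : Subvariety X V)
    (hd : dim S < dim T - dim V) {x : ι → K} (hx : x ∈ V ∩ S) :
    ∃ A, AtypicalIntersection X T V S A ∧ x ∈ A := by
  have hxX : x ∈ X := hV.subset hx.1
  have h1 : line x ⊆ V ∩ S := Set.subset_inter (line_subset hV.closed.1 hx.1)
    (line_subset (h𝒮.subvariety _ hS).closed.1 hx.2)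
  obtain ⟨A, hA, hxA⟩ := exists_component hX (line_sub hX h0 hxX) h1
  refine ⟨A, ⟨hA, ?_⟩, hxA (mem_line x)⟩
  have h2 := vd_mono hX (line_sub hX h0 hxX) hA.1 hxA
  rw [vd_line hX h0 hxX] at h2
  rw [dim_eq A]
  omega

theorem pink_of_zilber [Infinite K] (hX : IsCone X) (h0 : (0 : ι → K) ∉ X)
    (h𝒮 : SpecialStructure X 𝒮) (h : ZilberForm X 𝒮) : PinkForm X 𝒮 := by
  intro T hT V hV hVT hgen
  obtain ⟨𝓕, hf, hat, hu⟩ := h T hT V hV hVT
  have hcl : ∀ A ∈ 𝓕, Closed X A := by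
    intro A hA
    obtain ⟨Z, -, -, hAZ, -⟩ := hat A hA
    exact hAZ.1.closed
  refine ⟨⋃₀ 𝓕, closed_sUnion hf hcl, fun hsub => ?_, fun S hS hST hd x hx => ?_⟩
  · obtain ⟨A, hA, hVA⟩ := hV.mem_of_sUnion hf hcl hsub
    obtain ⟨Z, hZ, hZT, hAZ, hd⟩ := hat A hA
    have h1 : A = V := Set.Subset.antisymm (hAZ.2.1.trans Set.inter_subset_left) hVA
    have h2 : V ⊆ Z := by
      rw [← h1]
      exact hAZ.2.1.trans Set.inter_subset_right
    have h3 : Z = T := by
      by_contra hne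
      exact hgen Z hZ (Set.ssubset_iff_subset_ne.2 ⟨hZT, hne⟩) h2
    rw [h1, h3] at hd
    linarith
  · rw [← hu]
    obtain ⟨A, hA, hxA⟩ := exists_atypical hX h0 h𝒮 hS hV hd hx
    exact ⟨A, ⟨S, hS, hST, hA⟩, hxA⟩

theorem pink_of_sequence [Infinite K] (hX : IsCone X) (h0 : (0 : ι → K) ∉ X)
    (h𝒮 : SpecialStructure X 𝒮) (h : SequenceForm X 𝒮) : PinkForm X 𝒮 := by
  intro T hT V hV hVT hgen
  rcases eq_or_ne V T with rfl | hne
  · refine ⟨∅, closed_empty X, fun h1 => ?_, fun S hS _ hd => ?_⟩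
    · obtain ⟨x, hx⟩ := hV.nonempty
      exact (h1 hx).elim
    · exfalso
      obtain ⟨x, hx⟩ := (h𝒮.subvariety _ hS).nonempty
      have hxX := (h𝒮.subvariety _ hS).subset hx
      have h2 := vd_mono hX (line_sub hX h0 hxX) (h𝒮.subvariety _ hS)
        (line_subset (h𝒮.subvariety _ hS).closed.1 hx)
      rw [vd_line hX h0 hxX] at h2
      rw [dim_eq S, sub_self] at hd
      omega
  · have hVT' : V ⊂ T := Set.ssubset_iff_subset_ne.2 ⟨hVT, hne⟩
    let P : Set (Set (ι → K) × Set (ι → K)) :=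
      {p | p.1 ∈ 𝒮 ∧ p.1 ⊆ T ∧ AtypicalIntersection X T V p.1 p.2}
    have hP : P.Countable := by
      have h1 : P ⊆ ⋃ S ∈ 𝒮, (fun C => (S, C)) '' {C | IsComponent X C (V ∩ S)} := by
        rintro ⟨S, A⟩ ⟨h1, -, h3⟩
        exact Set.mem_biUnion h1 ⟨A, h3.1, rfl⟩
      refine Set.Countable.mono h1 (h𝒮.countable.biUnion fun S hS => ?_)
      exact ((components_finite (hV.closed.inter (h𝒮.subvariety _ hS).closed)).image _).countable
    rcases P.eq_empty_or_nonempty with hPe | hPn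
    · refine ⟨∅, closed_empty X, fun h1 => ?_, fun S hS hST hd x hx => ?_⟩
      · obtain ⟨x, hx⟩ := hV.nonempty
        exact (h1 hx).elim
      · obtain ⟨A, hA, -⟩ := exists_atypical hX h0 h𝒮 hS hV hd hx
        have h2 : ((S, A) : Set (ι → K) × Set (ι → K)) ∈ P := ⟨hS, hST, hA⟩
        rw [hPe] at h2
        exact h2.elim
    · obtain ⟨g, hg⟩ := hP.exists_eq_range hPn
      have hg2 : ∀ n, g n ∈ P := fun n => by rw [hg]; exact ⟨n, rfl⟩
      obtain ⟨𝓕, hf, hp, hu⟩ := h T hT V hV hVT' (fun n => (g n).1) (fun n => (g n).2)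
        (fun n => hg2 n)
      have hcl : ∀ S ∈ 𝓕, Closed X S := fun S hS => (h𝒮.subvariety _ (hp S hS).1).closed
      refine ⟨⋃₀ 𝓕, closed_sUnion hf hcl, fun hsub => ?_, fun S hS hST hd x hx => ?_⟩
      · obtain ⟨A, hA, hVA⟩ := hV.mem_of_sUnion hf hcl hsub
        exact hgen A (hp A hA).1 (hp A hA).2 hVA
      · obtain ⟨A, hA, hxA⟩ := exists_atypical hX h0 h𝒮 hS hV hd hx
        have h2 : ((S, A) : Set (ι → K) × Set (ι → K)) ∈ P := ⟨hS, hST, hA⟩
        rw [hg] at h2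
        obtain ⟨n, hn⟩ := h2
        refine hu (Set.mem_iUnion.2 ⟨n, ?_⟩)
        rw [hn]
        exact hxA

theorem point_of_pink [Infinite K] (hX : IsCone X) (h𝒮 : SpecialStructure X 𝒮)
    (h : PinkForm X 𝒮) : PointForm X 𝒮 := by
  classical
  intro T hT
  suffices H : ∀ n : ℕ, ∀ V, Subvariety X V → V ⊆ T → vd V = n →
      {A | Optimal X 𝒮 V A ∧ dim A = 0}.Finite from fun V hV hVT => H _ V hV hVT rfl
  intro n
  induction n using Nat.strong_induction_on with
  | _ n ih =>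
    rintro V hV hVT rfl
    have hT' := hull_mem hX h𝒮 hV hT hVT
    obtain ⟨W, hW, hVW, hWS⟩ := h (hull 𝒮 V) hT' V hV (subset_hull V)
      (fun S hS hSs hVS => hSs.2 (hull_subset hS hVS))
    obtain ⟨𝓕, hf, hs, hu⟩ := exists_decomp X (hV.closed.inter hW)
    have hlt : ∀ U ∈ 𝓕, vd U < vd V := by
      intro U hU
      have h1 : U ⊆ V ∩ W := by
        rw [← hu]
        exact Set.subset_sUnion_of_mem hU
      refine vd_strict hX (hs U hU) hV ⟨h1.trans Set.inter_subset_left, fun h2 => hVW ?_⟩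
      exact h2.trans (h1.trans Set.inter_subset_right)
    have hfin : (⋃ U ∈ 𝓕, {A | Optimal X 𝒮 U A ∧ dim A = 0}).Finite := by
      refine hf.biUnion fun U hU => ?_
      refine ih _ (hlt U hU) U (hs U hU) ?_ rfl
      have h1 : U ⊆ V ∩ W := by
        rw [← hu]
        exact Set.subset_sUnion_of_mem hU
      exact (h1.trans Set.inter_subset_left).trans hVT
    refine (hfin.union (Set.finite_singleton V)).subset ?_
    rintro p ⟨hp, hp0⟩
    rcases eq_or_ne p V with rfl | hne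
    · exact Or.inr rfl
    left
    have hpV : p ⊂ V := Set.ssubset_iff_subset_ne.2 ⟨hp.2.1, hne⟩
    have h1 := hp.2.2 V hV hpV le_rfl
    rw [not_le, defect, defect, hp0] at h1
    have h2 : p ⊆ W := by
      refine fun x hx => hWS (hull 𝒮 p) (hull_mem hX h𝒮 hp.1 hT (hp.2.1.trans hVT))
        (hull_subset hT' (hp.2.1.trans (subset_hull V))) (by linarith) ⟨hp.2.1 hx, subset_hull p hx⟩
    obtain ⟨U, hU, hpU⟩ := hp.1.mem_of_sUnion hf (fun U hU => (hs U hU).closed)
      (by rw [hu]; exact Set.subset_inter hp.2.1 h2)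
    refine Set.mem_biUnion hU ⟨⟨hp.1, hpU, fun B hB hpB hBU => ?_⟩, hp0⟩
    refine hp.2.2 B hB hpB (hBU.trans ?_)
    have h3 : U ⊆ V ∩ W := by
      rw [← hu]
      exact Set.subset_sUnion_of_mem hU
    exact h3.trans Set.inter_subset_left

end Pool.Agent.R948.ZP
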