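import Pool.Agent.R948.Pr

/-!
# Base change of prime ideals from an algebraically closed field; generic points
-/

set_option autoImplicit false
set_option linter.unusedSectionVars false
set_option linter.style.haveILetI false

namespace Pool.Agent.R948.ZP

open MvPolynomial

section

variable {k K : Type} [Field k] [Field K] [Algebra k K] {ι : Type}

/-- a basis of the extension -/
noncomputable abbrev bas (k K : Type) [Field k] [Field K] [Algebra k K] :
    Module.Basis (Module.Basis.ofVectorSpaceIndex k K) k K := Module.Basis.ofVectorSpace k K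

/-- the components of a polynomial -/
noncomputable def comp (e : Module.Basis.ofVectorSpaceIndex k K) (f : MvPolynomial ι K) :
    MvPolynomial ι k := ∑ m ∈ f.support, monomial m ((bas k K).coord e (coeff m f))

theorem coeff_comp (e : Module.Basis.ofVectorSpaceIndex k K) (f : MvPolynomial ι K)
    (m : ι →₀ ℕ) : coeff m (comp e f) = (bas k K).coord e (coeff m f) := by
  classical
  rw [comp, coeff_sum]
  by_cases hm : m ∈ f.support
  · rw [Finset.sum_eq_single m]
    · rw [coeff_monomial, if_pos rfl]
    · intro m' _ hne
      rw [coeff_monomial, if_neg hne]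
    · exact fun h => absurd hm h
  · rw [notMem_support_iff] at hm
    rw [hm, map_zero]
    refine Finset.sum_eq_zero fun m' hm' => ?_
    rw [coeff_monomial, if_neg]
    rintro rfl
    rw [mem_support_iff] at hm'
    exact hm' hm

theorem comp_add (e : Module.Basis.ofVectorSpaceIndex k K) (f g : MvPolynomial ι K) :
    comp e (f + g) = comp e f + comp e g := by
  ext m
  rw [coeff_add, coeff_comp, coeff_comp, coeff_comp, coeff_add, map_add]

theorem comp_monomial (e : Module.Basis.ofVectorSpaceIndex k K) (m : ι →₀ ℕ) (c : K) :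
    comp e (monomial m c) = monomial m ((bas k K).coord e c) := by
  classical
  ext m'
  rw [coeff_comp, coeff_monomial, coeff_monomial]
  split_ifs
  · rfl
  · rw [map_zero]

theorem comp_rename {κ : Type} (e : Module.Basis.ofVectorSpaceIndex k K) (g : κ → ι)
    (f : MvPolynomial κ K) : comp e (rename g f) = rename g (comp e f) := by
  induction f using MvPolynomial.monomial_add_induction_on with
  | C a =>
    rw [← monomial_zero', rename_monomial, comp_monomial, comp_monomial, rename_monomial]
  | monomial_add a b f _ _ ih =>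
    rw [map_add, comp_add, comp_add, map_add, ih, rename_monomial, comp_monomial, comp_monomial,
      rename_monomial]

theorem eval_comp [Fintype ι] (e : Module.Basis.ofVectorSpaceIndex k K) (f : MvPolynomial ι K)
    (z : ι → k) : eval z (comp e f) =
      (bas k K).coord e (eval (fun i => algebraMap k K (z i)) f) := by
  rw [comp, map_sum, eval_eq', map_sum]
  refine Finset.sum_congr rfl fun m _ => ?_
  have h1 : ∏ i, (algebraMap k K (z i)) ^ m i = algebraMap k K (∏ i, z i ^ m i) := by
    rw [map_prod]
    refine Finset.prod_congr rfl fun i _ => ?_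
    rw [map_pow]
  rw [h1, mul_comm, ← Algebra.smul_def, map_smul, smul_eq_mul, eval_monomial, Finsupp.prod_fintype]
  · ring
  · intro i
    rw [pow_zero]

theorem eq_sum_comp (f : MvPolynomial ι K) : ∃ E : Finset (Module.Basis.ofVectorSpaceIndex k K),
    f = ∑ e ∈ E, C (bas k K e) * MvPolynomial.map (algebraMap k K) (comp e f) := by
  classical
  refine ⟨f.support.biUnion fun m => ((bas k K).repr (coeff m f)).support, ?_⟩
  ext m
  rw [coeff_sum]
  have h1 : ∀ e, coeff m (C (bas k K e) * MvPolynomial.map (algebraMap k K) (comp e f)) =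
      (bas k K).repr (coeff m f) e • bas k K e := by
    intro e
    rw [coeff_C_mul, coeff_map, coeff_comp, Algebra.smul_def, mul_comm]
    rfl
  rw [Finset.sum_congr rfl fun e _ => h1 e]
  by_cases hm : m ∈ f.support
  · have h2 := (bas k K).linearCombination_repr (coeff m f)
    rw [Finsupp.linearCombination_apply, Finsupp.sum] at h2
    refine h2.symm.trans (Finset.sum_subset (Finset.subset_biUnion_of_mem
      (fun m => ((bas k K).repr (coeff m f)).support) hm) fun e _ he => ?_)
    rw [Finsupp.notMem_support_iff] at he
    rw [he, zero_smul]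
  · rw [notMem_support_iff] at hm
    rw [hm]
    simp

variable [Fintype ι] [IsAlgClosed k]

theorem mem_prime_iff (P : Ideal (MvPolynomial ι k)) [P.IsPrime] (f : MvPolynomial ι k) :
    f ∈ P ↔ ∀ z : ι → k, (∀ g ∈ P, eval z g = 0) → eval z f = 0 := by
  constructor
  · exact fun h z hz => hz f h
  · intro h
    rw [← IsPrime.vanishingIdeal_zeroLocus (k := k) (K := k) P]
    intro z hz
    exact h z fun g hg => hz g hg

theorem eval_map_alg (z : ι → k) (g : MvPolynomial ι k) :
    eval (fun i => algebraMap k K (z i)) (MvPolynomial.map (algebraMap k K) g) =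
      algebraMap k K (eval z g) := by
  have h1 := MvPolynomial.aeval_algebraMap_apply K z g
  rw [MvPolynomial.eval_map]
  exact h1

theorem eval_zero_of_map (P : Ideal (MvPolynomial ι k)) {f : MvPolynomial ι K}
    (hf : f ∈ P.map (MvPolynomial.map (algebraMap k K))) {z : ι → k}
    (hz : ∀ g ∈ P, eval z g = 0) : eval (fun i => algebraMap k K (z i)) f = 0 := by
  have h1 : P.map (MvPolynomial.map (algebraMap k K)) ≤
      RingHom.ker (eval (fun i => algebraMap k K (z i))) := by
    rw [Ideal.map_le_iff_le_comap]
    intro g hg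
    rw [Ideal.mem_comap, RingHom.mem_ker, eval_map_alg, hz g hg, map_zero]
  exact h1 hf

theorem mem_map_iff (P : Ideal (MvPolynomial ι k)) [P.IsPrime] (f : MvPolynomial ι K) :
    f ∈ P.map (MvPolynomial.map (algebraMap k K)) ↔ ∀ e, comp (k := k) e f ∈ P := by
  constructor
  · intro hf e
    rw [mem_prime_iff]
    intro z hz
    rw [eval_comp, eval_zero_of_map P hf hz, map_zero]
  · intro h
    obtain ⟨E, hE⟩ := eq_sum_comp (k := k) f
    rw [hE]
    exact Ideal.sum_mem _ fun e _ => Ideal.mul_mem_left _ _ (Ideal.mem_map_of_mem _ (h e))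

theorem map_prime (P : Ideal (MvPolynomial ι k)) [hP : P.IsPrime] :
    (P.map (MvPolynomial.map (algebraMap k K)) : Ideal (MvPolynomial ι K)).IsPrime := by
  refine ⟨fun h1 => ?_, fun {f g} hfg => ?_⟩
  · have h2 : ¬ (1 : MvPolynomial ι k) ∈ P := fun h => hP.ne_top ((Ideal.eq_top_iff_one _).2 h)
    rw [mem_prime_iff] at h2
    push Not at h2
    obtain ⟨z, hz, -⟩ := h2
    have h3 : (1 : MvPolynomial ι K) ∈ P.map (MvPolynomial.map (algebraMap k K)) := by
      rw [h1]; trivial
    have h4 := eval_zero_of_map P h3 hz
    rw [map_one] at h4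
    exact one_ne_zero h4
  · rw [mem_map_iff, mem_map_iff]
    by_contra hcon
    rw [not_or] at hcon
    push Not at hcon
    obtain ⟨⟨e, he⟩, e', he'⟩ := hcon
    have h2 : ¬ comp (k := k) e f * comp e' g ∈ P := fun h => (hP.mem_or_mem h).elim he he'
    rw [mem_prime_iff] at h2
    push Not at h2
    obtain ⟨z, hz, hz2⟩ := h2
    rw [map_mul] at hz2
    have h3 := eval_zero_of_map P hfg hz
    rw [map_mul] at h3
    rcases mul_eq_zero.1 h3 with h4 | h4
    · apply hz2
      rw [eval_comp, h4, map_zero, zero_mul]
    · apply hz2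
      rw [eval_comp e' g, h4, map_zero, mul_zero]

theorem comap_map (P : Ideal (MvPolynomial ι k)) [hP : P.IsPrime] :
    (P.map (MvPolynomial.map (algebraMap k K)) : Ideal (MvPolynomial ι K)).comap
      (MvPolynomial.map (algebraMap k K)) = P := by
  refine le_antisymm (fun g hg => ?_) Ideal.le_comap_map
  rw [mem_prime_iff]
  intro z hz
  have h1 := eval_zero_of_map P (Ideal.mem_comap.1 hg) hz
  rw [eval_map_alg] at h1
  exact (map_eq_zero_iff _ (algebraMap k K).injective).1 h1

/-- the dimension does not change -/
theorem tdP_le_map (P : Ideal (MvPolynomial ι k)) [hP : P.IsPrime]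
    (Q : Ideal (MvPolynomial ι K)) [Q.IsPrime]
    (hQ : Q = P.map (MvPolynomial.map (algebraMap k K))) : tdP P ≤ tdP Q := by
  classical
  obtain ⟨S, hS, hind, -⟩ := exists_td k (cp P)
  have h1 : AlgebraicIndependent K (fun i : S => cp Q i) := by
    rw [algebraicIndependent_iff]
    intro p hp
    have h2 : rename Subtype.val p ∈ Q := by
      rw [← aeval_cp_eq_zero, aeval_rename]
      exact hp
    rw [hQ, mem_map_iff] at h2
    have h3 : ∀ e, comp (k := k) e p = 0 := by
      intro e
      have h4 := h2 e
      rw [comp_rename, ← aeval_cp_eq_zero, aeval_rename] at h4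
      exact algebraicIndependent_iff.1 hind _ h4
    obtain ⟨E, hE⟩ := eq_sum_comp (k := k) p
    rw [hE]
    refine Finset.sum_eq_zero fun e _ => ?_
    rw [h3 e, map_zero, mul_zero]
  rw [tdP, ← hS]
  exact le_td K h1

end

end Pool.Agent.R948.ZP
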