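import Pool.Agent.R948.ZPc
import Pool.Agent.R948.GenA

/-!
# Countable algebraically closed fields of definition, generic points
-/

set_option autoImplicit false
set_option linter.unusedSectionVars false
set_option linter.style.haveILetI false

namespace Pool.Agent.R948.ZP

open MvPolynomial

/-- countable algebraically closed subfields -/
theorem exists_field {K : Type} [Field K] [IsAlgClosed K] (C : Set K) (hC : C.Countable) :
    ∃ (k : Type) (_ : Field k) (_ : Algebra k K), IsAlgClosed k ∧ Countable k ∧
      C ⊆ Set.range (algebraMap k K) := by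
  let F := Subfield.closure C
  have hF : Countable F := by
    rw [← Cardinal.mk_le_aleph0_iff]
    refine (Subfield.cardinalMk_closure_le_max C).trans ?_
    rw [max_le_iff]
    exact ⟨Cardinal.mk_le_aleph0_iff.2 hC.to_subtype, le_rfl⟩
  refine ⟨algebraicClosure F K, inferInstance, inferInstance, IsAlgClosure.isAlgClosed F, ?_, ?_⟩
  · rw [← Cardinal.mk_le_aleph0_iff]
    refine (Algebra.IsAlgebraic.cardinalMk_le_max F (algebraicClosure F K)).trans ?_
    rw [max_le_iff]
    exact ⟨Cardinal.mk_le_aleph0_iff.2 hF, le_rfl⟩
  · intro c hc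
    have h1 : c ∈ F := Subfield.subset_closure hc
    refine ⟨algebraMap F (algebraicClosure F K) ⟨c, h1⟩, ?_⟩
    rfl

/-- algebraically independent elements -/
theorem exists_indep {k K : Type} [Field k] [Field K] [Algebra k K] [IsAlgClosed K] [Countable k]
    [Uncountable K] (σ : Type) [Finite σ] : ∃ t : σ → K, AlgebraicIndependent k t := by
  classical
  obtain ⟨ι, x, hx⟩ := exists_isTranscendenceBasis' k K
  have hinf : Infinite ι := by
    by_contra hfin
    rw [not_infinite_iff_finite] at hfin
    have h1 := IsAlgClosed.cardinal_le_max_transcendence_basis' x hx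
    have h2 : Cardinal.mk K ≤ Cardinal.aleph0 := by
      refine h1.trans ?_
      rw [max_le_iff, max_le_iff]
      exact ⟨⟨Cardinal.mk_le_aleph0_iff.2 inferInstance, Cardinal.mk_le_aleph0_iff.2 inferInstance⟩,
        le_rfl⟩
    rw [Cardinal.mk_le_aleph0_iff] at h2
    exact not_countable (α := K) h2
  obtain ⟨n, ⟨e⟩⟩ := Finite.exists_equiv_fin σ
  let g : σ → ι := fun s => Infinite.natEmbedding ι (e s)
  have hg : Function.Injective g := by
    intro a b hab
    have h1 := (Infinite.natEmbedding ι).injective hab
    exact e.injective (Fin.ext h1)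
  exact ⟨x ∘ g, hx.1.comp g hg⟩

section

variable {k K : Type} [Field k] [Field K] [Algebra k K] {ι : Type} [Fintype ι]

/-- generic points with prescribed coordinates in a transcendence basis -/
theorem exists_generic [IsAlgClosed K] (P : Ideal (MvPolynomial ι k)) [hP : P.IsPrime]
    (S : Finset ι) (hS : AlgebraicIndependent k (fun i : S => cp P i)) (hc : tdP P ≤ S.card)
    (t : S → K) (ht : AlgebraicIndependent k t) :
    ∃ p : ι → K, (∀ f : MvPolynomial ι k, aeval p f = 0 ↔ f ∈ P) ∧ ∀ j : S, p j = t j := by
  classical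
  let A := MvPolynomial ι k ⧸ P
  let E := FractionRing A
  let y : ι → E := fun i => algebraMap A E (cp P i)
  have hy : ∀ f : MvPolynomial ι k, aeval y f = algebraMap A E (aeval (cp P) f) := by
    intro f
    exact MvPolynomial.aeval_algebraMap_apply E (cp P) f
  have hy0 : ∀ f : MvPolynomial ι k, aeval y f = 0 ↔ f ∈ P := by
    intro f
    rw [hy, map_eq_zero_iff _ (IsFractionRing.injective A E), aeval_cp_eq_zero]
  have hSy : AlgebraicIndependent k (fun i : S => y i) :=
    hS.map' (f := IsScalarTower.toAlgHom k A E) (IsFractionRing.injective A E)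
  have htd : td k y ≤ S.card :=
    le_trans (td_le_of_ker k fun f hf => (hy0 f).2 ((aeval_cp_eq_zero P f).1 hf)) hc
  have halg : ∀ i, IsAlgebraic (Algebra.adjoin k (Set.range fun i : S => y i)) (y i) := by
    intro i
    by_contra hcon
    have h1 : AlgebraicIndependent k (fun o : Option S => o.elim (y i) (fun i : S => y i)) :=
      (hSy.option_iff_transcendental (y i)).2 hcon
    have h2 := card_le_td h1
    rw [Fintype.card_option, Fintype.card_coe] at h2
    have h3 : td k (fun o : Option S => o.elim (y i) (fun i : S => y i)) ≤ td k y := by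
      refine td_le_of_alg k fun o => ?_
      cases o with
      | none => exact alg_of_range (F := k) y i
      | some j => exact alg_of_range (F := k) y j
    omega
  have hb : IsTranscendenceBasis k (fun i : S => y i) := by
    rw [hSy.isTranscendenceBasis_iff_isAlgebraic]
    refine ⟨fun a => ?_⟩
    have h1 : IsAlgebraic (Algebra.adjoin k (Set.range y)) a := by
      obtain ⟨x, z, hz, rfl⟩ := IsFractionRing.div_surjective (A := A) a
      obtain ⟨f, rfl⟩ := Ideal.Quotient.mk_surjective x
      obtain ⟨g, rfl⟩ := Ideal.Quotient.mk_surjective z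
      rw [← aeval_cp, ← aeval_cp, ← hy, ← hy, div_eq_mul_inv]
      have hm : ∀ f : MvPolynomial ι k, IsAlgebraic (Algebra.adjoin k (Set.range y))
          (aeval y f) := by
        intro f
        refine isAlgebraic_algebraMap (A := E)
          (⟨aeval y f, ?_⟩ : Algebra.adjoin k (Set.range y))
        rw [Algebra.adjoin_range_eq_range_aeval]
        exact ⟨f, rfl⟩
      exact (hm f).mul (IsAlgebraic.inv_iff.2 (hm g))
    refine h1.adjoin_of_forall_isAlgebraic ?_
    rintro x ⟨⟨i, rfl⟩, -⟩
    exact halg i
  haveI := hb.isAlgebraic_field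
  let L := IntermediateField.adjoin k (Set.range fun i : S => y i)
  let ψ : L →ₐ[k] K := (IsFractionRing.liftAlgHom (K := FractionRing (MvPolynomial S k))
    (algebraicIndependent_iff_injective_aeval.1 ht)).comp hSy.aevalEquivField.symm.toAlgHom
  obtain ⟨φ, hφ⟩ := IsAlgClosed.surjective_domRestrict_of_isAlgebraic (E := E) ψ
  have hφ2 : ∀ a : L, φ a = ψ a := fun a => by rw [← hφ]; rfl
  refine ⟨fun i => φ (y i), fun f => ?_, fun j => ?_⟩
  · have h1 : aeval (fun i => φ (y i)) f = φ (aeval y f) := by
      rw [← comp_aeval_apply]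
    rw [h1, map_eq_zero φ, hy0]
  · have hmem : y j ∈ L := IntermediateField.subset_adjoin _ _ ⟨j, rfl⟩
    have h1 : hSy.aevalEquivField (algebraMap (MvPolynomial S k)
        (FractionRing (MvPolynomial S k)) (X j)) = (⟨y j, hmem⟩ : L) := by
      apply Subtype.ext
      rw [hSy.aevalEquivField_algebraMap_apply_coe, aeval_X]
    have h2 : φ (y j) = ψ ⟨y j, hmem⟩ := hφ2 ⟨y j, hmem⟩
    change φ (y j) = t j
    rw [h2, ← h1]
    change IsFractionRing.liftAlgHom (algebraicIndependent_iff_injective_aeval.1 ht)
      (hSy.aevalEquivField.symm (hSy.aevalEquivField _)) = _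
    rw [AlgEquiv.symm_apply_apply, IsFractionRing.liftAlgHom_apply, IsFractionRing.lift_algebraMap]
    change aeval t (X j) = t j
    rw [aeval_X]

end

end Pool.Agent.R948.ZP
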