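import Pool.Agent.R948.ZPb
import Pool.Agent.R948.ZPd

/-!
# Fields of definition, the closure of a subvariety over a subfield
-/

set_option autoImplicit false
set_option linter.unusedSectionVars false
set_option linter.style.haveILetI false

namespace Pool.Agent.R948.ZP

open MvPolynomial

section

variable {K : Type} [Field K] {ι : Type} [Fintype ι]

/-- a finite set of coefficients of generators -/
theorem exists_coeffs (I : Ideal (MvPolynomial ι K)) : ∃ C : Set K, C.Finite ∧
    ∀ (k : Type) [Field k] [Algebra k K], C ⊆ Set.range (algebraMap k K) →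
      (I.comap (MvPolynomial.map (algebraMap k K))).map (MvPolynomial.map (algebraMap k K)) = I := by
  classical
  obtain ⟨s, hs⟩ := (IsNoetherian.noetherian I : I.FG)
  refine ⟨⋃ f ∈ s, (f.coeffs : Set K), Set.Finite.biUnion s.finite_toSet
    fun f _ => Finset.finite_toSet _, fun k _ _ hC => ?_⟩
  refine le_antisymm Ideal.map_comap_le ?_
  rw [← hs]
  refine Ideal.span_le.2 fun f hf => ?_
  have h1 : f ∈ Set.range (MvPolynomial.map (algebraMap k K)) := by
    rw [mem_range_map_iff_coeffs_subset]
    refine (Set.Subset.trans ?_ hC)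
    intro c hc
    exact Set.mem_biUnion (Finset.mem_coe.1 hf) hc
  obtain ⟨g, rfl⟩ := h1
  exact Ideal.mem_map_of_mem _ (Ideal.mem_comap.2 (Ideal.subset_span hf))

end

section

variable {k K : Type} [Field k] [Field K] [Algebra k K] {ι : Type} [Fintype ι]

/-- the polynomials over `k` vanishing on a set -/
noncomputable def cont (k : Type) [Field k] {K : Type} [Field K] [Algebra k K] {ι : Type}
    [Fintype ι] (A : Set (ι → K)) : Ideal (MvPolynomial ι k) :=
  (van A).comap (MvPolynomial.map (algebraMap k K))

/-- defined over `k` -/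
def Def (k : Type) [Field k] {K : Type} [Field K] [Algebra k K] {ι : Type}
    [Fintype ι] (A : Set (ι → K)) : Prop :=
  (cont k A).map (MvPolynomial.map (algebraMap k K)) = van A

theorem cont_prime [Infinite K] {X A : Set (ι → K)} (hX : IsCone X) (hA : Subvariety X A) :
    (cont k A).IsPrime := by
  haveI := hA.prime hX
  exact Ideal.comap_isPrime _ _

theorem map_cont_le (A : Set (ι → K)) :
    (cont k A).map (MvPolynomial.map (algebraMap k K)) ≤ van A := Ideal.map_comap_le

theorem van_le_of_cont {A B : Set (ι → K)} (hA : Def k A) (h : cont k A ≤ cont k B) :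
    van A ≤ van B := by
  rw [← hA]
  exact (Ideal.map_mono h).trans (map_cont_le B)

theorem eval_map_eq (p : ι → K) (g : MvPolynomial ι k) :
    eval p (MvPolynomial.map (algebraMap k K) g) = aeval p g := by
  rw [eval_map]
  rfl

/-- the closure over `k` -/
noncomputable def clo (k : Type) [Field k] {K : Type} [Field K] [Algebra k K] {ι : Type}
    [Fintype ι] (X A : Set (ι → K)) : Set (ι → K) :=
  X ∩ zeros (MvPolynomial.map (algebraMap k K) '' (cont k A : Set (MvPolynomial ι k)))

theorem mem_clo {X A : Set (ι → K)} {x : ι → K} :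
    x ∈ clo k X A ↔ x ∈ X ∧ ∀ g ∈ cont k A, aeval x g = 0 := by
  constructor
  · rintro ⟨h1, h2⟩
    refine ⟨h1, fun g hg => ?_⟩
    rw [← eval_map_eq]
    exact h2 _ ⟨g, hg, rfl⟩
  · rintro ⟨h1, h2⟩
    refine ⟨h1, ?_⟩
    rintro _ ⟨g, hg, rfl⟩
    rw [eval_map_eq]
    exact h2 g hg

theorem subset_clo {X A : Set (ι → K)} (hA : A ⊆ X) : A ⊆ clo k X A :=
  fun x hx => mem_clo.2 ⟨hA hx, fun g hg => by rw [← eval_map_eq]; exact hg x hx⟩

theorem clo_subset {X A B : Set (ι → K)} (hB : Closed X B) (hBd : Def k B)
    (h : cont k B ≤ cont k A) : clo k X A ⊆ B := by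
  rw [← hB.eq, ← hBd]
  intro x hx
  rw [mem_clo] at hx
  refine ⟨hx.1, fun f hf => ?_⟩
  have h1 : (cont k B).map (MvPolynomial.map (algebraMap k K)) ≤ RingHom.ker (eval x) := by
    rw [Ideal.map_le_iff_le_comap]
    intro g hg
    rw [Ideal.mem_comap, RingHom.mem_ker, eval_map_eq]
    exact hx.2 g (h hg)
  exact h1 hf

theorem cont_anti {A B : Set (ι → K)} (h : A ⊆ B) : cont k B ≤ cont k A :=
  Ideal.comap_mono (van_anti h)

theorem map_homComp (n : ℕ) (g : MvPolynomial ι k) :
    homogeneousComponent n (MvPolynomial.map (algebraMap k K) g) =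
      MvPolynomial.map (algebraMap k K) (homogeneousComponent n g) := by
  ext m
  rw [coeff_homogeneousComponent, coeff_map, coeff_map, coeff_homogeneousComponent]
  split_ifs
  · rfl
  · rw [map_zero]

theorem clo_closed [Infinite K] {X A : Set (ι → K)} (hX : IsCone X) (hA : IsCone A) :
    Closed X (clo k X A) := by
  refine ⟨fun x hx c hc => ⟨hX x hx.1 c hc, ?_⟩, _, rfl⟩
  refine cone_of_hom _ ?_ x hx.2 c hc
  rintro _ ⟨g, hg, rfl⟩ n
  rw [map_homComp]
  refine ⟨_, ?_, rfl⟩
  have h1 := van_comp hA (Ideal.mem_comap.1 hg) n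
  rw [map_homComp] at h1
  exact h1

variable [IsAlgClosed k] [IsAlgClosed K]

theorem van_clo {X A V : Set (ι → K)} (hX : QuasiProjective X) (hA : Subvariety X A)
    (hV : Subvariety X V) (hVd : Def k V) (hAV : A ⊆ V) :
    van (clo k X A) = (cont k A).map (MvPolynomial.map (algebraMap k K)) := by
  haveI := cont_prime (k := k) hX.cone hA
  haveI := map_prime (K := K) (cont k A)
  obtain ⟨F, G, hFG⟩ := hX.locallyClosed
  apply le_antisymm
  · obtain ⟨x, hx⟩ := hA.nonempty
    have hxX := hA.subset hx
    rw [hFG] at hxX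
    have hxG := hxX.2
    simp only [zeros, Set.mem_ofPred_eq, not_forall] at hxG
    obtain ⟨g, hg, hgx⟩ := hxG
    intro f hf
    have h1 : f * g ∈ (cont k A).map (MvPolynomial.map (algebraMap k K)) := by
      rw [mem_prime_iff]
      intro y hy
      rw [map_mul]
      by_cases hyX : y ∈ X
      · have h2 : y ∈ clo k X A := mem_clo.2 ⟨hyX, fun g' hg' => by
          rw [← eval_map_eq]; exact hy _ (Ideal.mem_map_of_mem _ hg')⟩
        rw [hf y h2, zero_mul]
      · have h3 : y ∈ zeros F := by
          intro f' hf'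
          have h4 : f' ∈ van V := by
            intro z hz
            have h5 := hV.subset hz
            rw [hFG] at h5
            exact h5.1 f' hf'
          rw [← hVd] at h4
          exact hy f' (Ideal.map_mono (cont_anti hAV) h4)
        have h6 : y ∈ zeros G := by
          by_contra hcon
          exact hyX (by rw [hFG]; exact ⟨h3, hcon⟩)
        rw [h6 g hg, mul_zero]
    refine (Ideal.IsPrime.mem_or_mem inferInstance h1).resolve_right fun h2 => hgx ?_
    exact map_cont_le A h2 x hx
  · rw [Ideal.map_le_iff_le_comap]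
    intro g hg x hx
    rw [eval_map_eq]
    exact (mem_clo.1 hx).2 g hg

theorem clo_sub {X A V : Set (ι → K)} (hX : QuasiProjective X) (hA : Subvariety X A)
    (hV : Subvariety X V) (hVd : Def k V) (hAV : A ⊆ V) : Subvariety X (clo k X A) := by
  haveI := cont_prime (k := k) hX.cone hA
  refine Subvariety.of_prime (clo_closed hX.cone hA.closed.1) ?_
  rw [van_clo hX hA hV hVd hAV]
  exact map_prime (K := K) (cont k A)

theorem vd_clo {X A V : Set (ι → K)} (hX : QuasiProjective X) (hA : Subvariety X A)
    (hV : Subvariety X V) (hVd : Def k V) (hAV : A ⊆ V) [(cont k A).IsPrime] :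
    tdP (cont k A) ≤ vd (clo k X A) := by
  haveI := (clo_sub hX hA hV hVd hAV).prime hX.cone
  rw [vd_eq]
  exact tdP_le_map _ _ (van_clo hX hA hV hVd hAV)

end

section

variable {k K : Type} [Field k] [Field K] [Algebra k K] {ι κ : Type} [Fintype ι] [Fintype κ]

theorem td_sum_le {E : Type} [Field E] [Algebra k E] (w : ι → E) (c : E) :
    td k (Sum.elim w (fun _ : Unit => c)) ≤ td k w + 1 := by
  classical
  obtain ⟨S, hS, hind, -⟩ := exists_td k (Sum.elim w (fun _ : Unit => c))
  rw [← hS]
  let S' : Finset ι := Finset.univ.filter fun i => Sum.inl i ∈ S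
  have h1 : AlgebraicIndependent k (fun i : S' => w i) := by
    let g : S' → S := fun i => ⟨Sum.inl i.1, (Finset.mem_filter.1 i.2).2⟩
    have hg : Function.Injective g := by
      intro a b hab
      have h2 := congrArg Subtype.val hab
      exact Subtype.ext (Sum.inl_injective h2)
    exact hind.comp g hg
  have h2 := le_td k h1
  have h3 : S ⊆ (S'.image Sum.inl) ∪ {Sum.inr ()} := by
    intro s hs
    rcases s with i | ⟨⟩
    · exact Finset.mem_union_left _ (Finset.mem_image_of_mem _ (by
        rw [Finset.mem_filter]; exact ⟨Finset.mem_univ _, hs⟩))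
    · exact Finset.mem_union_right _ (Finset.mem_singleton_self _)
  have h4 := (Finset.card_le_card h3).trans (Finset.card_union_le _ _)
  rw [Finset.card_singleton] at h4
  have h5 := Finset.card_image_le (s := S') (f := (Sum.inl : ι → ι ⊕ Unit))
  omega

/-- the dimension drops at least by the number of transcendental ratios -/
theorem dim_ineq [Infinite K] {X B : Set (ι → K)} (hX : IsCone X) (hB : Subvariety X B)
    [(cont k B).IsPrime] (S : Finset ι) (t : S → K) (ht : AlgebraicIndependent k t)
    (hrel : ∀ i j : S, MvPolynomial.X i.1 * C (t j) - MvPolynomial.X j.1 * C (t i) ∈ van B)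
    (hne : ∀ j : S, MvPolynomial.X j.1 ∉ van B) : vd B + S.card ≤ tdP (cont k B) + 1 := by
  classical
  haveI := hB.prime hX
  rw [vd_eq]
  rcases S.eq_empty_or_nonempty with rfl | ⟨j₀, hj₀⟩
  · -- no condition
    rw [Finset.card_empty, add_zero]
    have h1 : tdP (van B) ≤ td k (cp (van B)) := by
      obtain ⟨S, hS, hind, -⟩ := exists_td K (cp (van B))
      rw [tdP, ← hS]
      exact le_td k (hind.restrictScalars (algebraMap k K).injective)
    have h2 : td k (cp (van B)) ≤ tdP (cont k B) := by
      refine td_le_tdP _ _ fun f hf => ?_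
      have h3 : aeval (cp (van B)) f = aeval (cp (van B)) (MvPolynomial.map (algebraMap k K) f) := by
        rw [aeval_map_algebraMap]
      rw [h3, aeval_cp_eq_zero]
      exact hf
    omega
  · let A := MvPolynomial ι K ⧸ van B
    let E := FractionRing A
    let y : ι → E := fun i => algebraMap A E (cp (van B) i)
    have hyK : ∀ f : MvPolynomial ι K, aeval y f = algebraMap A E (aeval (cp (van B)) f) :=
      fun f => MvPolynomial.aeval_algebraMap_apply E (cp (van B)) f
    have hy0 : ∀ f : MvPolynomial ι K, aeval y f = 0 ↔ f ∈ van B := by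
      intro f
      rw [hyK, map_eq_zero_iff _ (IsFractionRing.injective A E), aeval_cp_eq_zero]
    let w : S → K := fun j => t j / t ⟨j₀, hj₀⟩
    have ht0 : t ⟨j₀, hj₀⟩ ≠ 0 := ht.ne_zero _
    have hy0' : y j₀ ≠ 0 := by
      intro h
      apply hne ⟨j₀, hj₀⟩
      rw [← hy0, aeval_X]
      exact h
    have hw : ∀ j : S, algebraMap K E (w j) = y j / y j₀ := by
      intro j
      have h1 := (hy0 _).2 (hrel j ⟨j₀, hj₀⟩)
      rw [map_sub, map_mul, map_mul, aeval_X, aeval_X, aeval_C, aeval_C] at h1
      have h2 : algebraMap K E (t ⟨j₀, hj₀⟩) ≠ 0 := by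
        rw [Ne, map_eq_zero_iff _ (algebraMap K E).injective]
        exact ht0
      rw [map_div₀]
      rw [div_eq_div_iff h2 hy0']
      linear_combination -h1
    have h1 : tdP (van B) ≤ td K y := tdP_le_td _ _ fun f hf => (hy0 f).1 hf
    have h2 : S.card ≤ td k w + 1 := by
      have h3 : S.card ≤ td k t := by
        have := card_le_td ht
        rwa [Fintype.card_coe] at this
      refine h3.trans (le_trans (td_le_of_alg k fun j => ?_) (td_sum_le w (t ⟨j₀, hj₀⟩)))
      have h4 : t j = w j * t ⟨j₀, hj₀⟩ := by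
        rw [div_mul_cancel₀ _ ht0]
      rw [h4]
      exact (alg_of_range (F := k) (Sum.elim w (fun _ : Unit => t ⟨j₀, hj₀⟩)) (Sum.inl j)).mul
        (alg_of_range (F := k) (Sum.elim w (fun _ : Unit => t ⟨j₀, hj₀⟩)) (Sum.inr ()))
    have h3 := td_add_le (F := k) (k := K) (K := E) y w
    have h4 : td k (Sum.elim y (fun j => algebraMap K E (w j))) ≤ td k y := by
      refine td_le_of_alg k fun s => ?_
      rcases s with i | j
      · exact alg_of_range (F := k) y i
      · change IsAlgebraic _ (algebraMap K E (w j))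
        rw [hw j, div_eq_mul_inv]
        exact (alg_of_range (F := k) y j.1).mul (IsAlgebraic.inv_iff.2 (alg_of_range (F := k) y j₀))
    have h5 : td k y ≤ tdP (cont k B) := by
      refine td_le_tdP _ _ fun f hf => ?_
      have h6 : aeval y f = aeval y (MvPolynomial.map (algebraMap k K) f) := by
        rw [aeval_map_algebraMap]
      rw [h6, hy0]
      exact hf
    omega

end

end Pool.Agent.R948.ZP
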