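import Pool.Agent.R948.ZPe

/-!
# Optimal points suffice
-/

set_option autoImplicit false
set_option linter.unusedSectionVars false
set_option linter.style.haveILetI false

namespace Pool.Agent.R948.ZP

open MvPolynomial

variable {K : Type} [Field K] [IsAlgClosed K] {ι : Type} [Fintype ι]
  {X : Set (ι → K)} {𝒮 : Set (Set (ι → K))}

/-- sections by linear subspaces through a point -/
def sect {S : Finset ι} (t : S → K) : Set (ι → K) := {x | ∀ i j : S, x i * t j = x j * t i}

theorem sect_closed (hX : IsCone X) {S : Finset ι} (t : S → K) : Closed X (X ∩ sect t) := by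
  refine ⟨fun x hx c hc => ⟨hX x hx.1 c hc, fun i j => ?_⟩,
    {f | ∃ i j : S, f = MvPolynomial.X i.1 * C (t j) - MvPolynomial.X j.1 * C (t i)}, ?_⟩
  · have := hx.2 i j
    simp only [Pi.smul_apply, smul_eq_mul]
    linear_combination c * this
  · ext x
    constructor
    · rintro ⟨h1, h2⟩
      refine ⟨h1, ?_⟩
      rintro _ ⟨i, j, rfl⟩
      simp only [map_sub, map_mul, eval_X, eval_C]
      rw [h2 i j, sub_self]
    · rintro ⟨h1, h2⟩
      refine ⟨h1, fun i j => ?_⟩
      have h3 := h2 _ ⟨i, j, rfl⟩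
      simp only [map_sub, map_mul, eval_X, eval_C] at h3
      exact sub_eq_zero.1 h3

/-- the key step: a generic point of an optimal subvariety on a generic linear section is an
optimal point of this section -/
theorem optimal_line {k : Type} [Field k] [Algebra k K] [IsAlgClosed k]
    (hX : QuasiProjective X) (h𝒮 : SpecialStructure X 𝒮) (hd𝒮 : ∀ S ∈ 𝒮, Def k S)
    {V A : Set (ι → K)} (hV : Subvariety X V) (hVd : Def k V)
    (hA : Optimal X 𝒮 V A)
    (S : Finset ι) (hS : vd A = S.card) (t : S → K) (ht : AlgebraicIndependent k t)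
    {p : ι → K} (hpA : p ∈ A) (hp : ∀ f : MvPolynomial ι k, aeval p f = 0 ↔ f ∈ cont k A)
    (hpt : ∀ j : S, p j = t j) {W : Set (ι → K)}
    (hWV : W ⊆ V) (hWs : W ⊆ sect t) (hpW : line p ⊆ W) : Optimal X 𝒮 W (line p) := by
  have hpX : p ∈ X := hA.1.subset hpA
  have hline := line_sub hX.cone hX.zero hpX
  refine ⟨hline, hpW, fun B hB hpB hBW hdef => ?_⟩
  haveI := cont_prime (k := k) hX.cone hB
  have hBV : B ⊆ V := hBW.trans hWV
  have hpB' : p ∈ B := hpB.subset (mem_line p)
  -- the hull of the point is the hull of `A`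
  have hh1 : ∀ S' ∈ 𝒮, line p ⊆ S' → A ⊆ S' := by
    intro S' hS' hpS'
    refine Closed.le_of_van hA.1.subset (h𝒮.subvariety _ hS').closed (van_le_of_cont (hd𝒮 _ hS') ?_)
    intro g hg
    rw [← hp, ← eval_map_eq]
    exact hg p (hpS' (mem_line p))
  have hhull1 : hull 𝒮 (line p) = hull 𝒮 A := by
    refine Set.Subset.antisymm (hull_mono (line_subset hA.1.closed.1 hpA)) ?_
    intro x hx S' hS'
    exact hx S' ⟨hS'.1, hh1 S' hS'.1 hS'.2⟩
  -- the closure of `B`
  let B' := clo k X B
  have hB' : Subvariety X B' := clo_sub hX hB hV hVd hBV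
  have hBB' : B ⊆ B' := subset_clo hB.subset
  have hB'V : B' ⊆ V := clo_subset hV.closed hVd (cont_anti hBV)
  have hhull2 : hull 𝒮 B' = hull 𝒮 B := by
    refine Set.Subset.antisymm ?_ (hull_mono hBB')
    intro x hx S' hS'
    exact hx S' ⟨hS'.1, clo_subset (h𝒮.subvariety _ hS'.1).closed (hd𝒮 _ hS'.1)
      (cont_anti hS'.2)⟩
  have hAB' : A ⊆ B' := by
    intro x hx
    refine mem_clo.2 ⟨hA.1.subset hx, fun g hg => ?_⟩
    have h1 : aeval p g = 0 := by
      rw [← eval_map_eq]
      exact hg p hpB'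
    rw [hp] at h1
    rw [← eval_map_eq]
    exact h1 x hx
  have hrel : ∀ i j : S, MvPolynomial.X i.1 * C (t j) - MvPolynomial.X j.1 * C (t i) ∈ van B := by
    intro i j x hx
    simp only [map_sub, map_mul, eval_X, eval_C]
    rw [hWs (hBW hx) i j, sub_self]
  have hne : ∀ j : S, MvPolynomial.X j.1 ∉ van B := by
    intro j hj
    have h1 := hj p hpB'
    rw [eval_X, hpt j] at h1
    exact ht.ne_zero j h1
  have h1 := dim_ineq (k := k) hX.cone hB S t ht hrel hne
  have h2 : tdP (cont k B) ≤ vd B' := vd_clo (k := k) hX hB hV hVd hBV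
  have h3 := vd_strict hX.cone hline hB hpB
  rw [vd_line hX.cone hX.zero hpX] at h3
  have h4 : defect 𝒮 B' ≤ defect 𝒮 A := by
    rw [defect, defect, hhull1, dim_eq B, dim_eq (line p), vd_line hX.cone hX.zero hpX] at hdef
    rw [defect, defect, hhull2, dim_eq B', dim_eq A, hS]
    have h5 : (vd B : ℤ) + S.card ≤ vd B' + 1 := by exact_mod_cast (by omega : vd B + S.card ≤ vd B' + 1)
    push_cast at hdef ⊢
    linarith
  rcases eq_or_ne A B' with he | hne'
  · have h6 : vd B' = S.card := by rw [← he, hS]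
    have h7 : vd B + S.card ≤ vd B' + 1 := by omega
    omega
  · exact hA.2.2 B' hB' (Set.ssubset_iff_subset_ne.2 ⟨hAB', hne'⟩) hB'V h4

theorem optimal_of_point [Uncountable K] (hX : QuasiProjective X) (h𝒮 : SpecialStructure X 𝒮)
    (h : PointForm X 𝒮) : OptimalForm X 𝒮 := by
  classical
  intro T hT V hV hVT
  by_contra hinf
  rw [← Set.Infinite] at hinf
  have hXc := hX.cone
  -- transcendence bases
  let Q : Finset ι → Set (ι → K) → Prop := fun S A => Optimal X 𝒮 V A ∧ vd A = S.card ∧
    AlgebraicIndependent K (fun i : S => cp (van A) i)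
  have hex : ∃ S : Finset ι, {A | Q S A}.Infinite := by
    by_contra hcon
    push Not at hcon
    apply hinf
    have hsub : {A | Optimal X 𝒮 V A} ⊆ ⋃ S : Finset ι, {A | Q S A} := by
      intro A hA
      haveI := hA.1.prime hXc
      obtain ⟨S, hS, hind, -⟩ := exists_td K (cp (van A))
      exact Set.mem_iUnion.2 ⟨S, hA, by rw [vd_eq, hS]; rfl, hind⟩
    exact (Set.finite_iUnion fun S => hcon S).subset hsub
  obtain ⟨S, hSinf⟩ := hex
  let a : ℕ → Set (ι → K) := fun n => (Set.Infinite.natEmbedding _ hSinf n : Set (ι → K))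
  have ha : ∀ n, Q S (a n) := fun n => (Set.Infinite.natEmbedding _ hSinf n).2
  have hainj : Function.Injective a := fun m n hmn =>
    (Set.Infinite.natEmbedding _ hSinf).injective (Subtype.ext hmn)
  obtain ⟨F, G, hFG⟩ := hX.locallyClosed
  -- polynomials not vanishing on the subvarieties
  have hg : ∀ n, ∃ g ∈ G, g ∉ van (a n) := by
    intro n
    obtain ⟨x, hx⟩ := (ha n).1.1.nonempty
    have hxX := (ha n).1.1.subset hx
    rw [hFG] at hxX
    have hxG := hxX.2
    simp only [zeros, Set.mem_ofPred_eq, not_forall] at hxG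
    obtain ⟨g, hg, hgx⟩ := hxG
    exact ⟨g, hg, fun h1 => hgx (h1 x hx)⟩
  choose g hgG hgv using hg
  -- the field of definition
  obtain ⟨CV, hCV, hCV2⟩ := exists_coeffs (van V)
  choose CA hCA hCA2 using fun n => exists_coeffs (van (a n))
  choose CS hCS hCS2 using fun S' : Set (ι → K) => exists_coeffs (van S')
  let Call : Set K := CV ∪ (⋃ n, CA n) ∪ (⋃ S' ∈ 𝒮, CS S') ∪ (⋃ n, ((g n).coeffs : Set K))
  have hCall : Call.Countable := by
    refine ((hCV.countable.union (Set.countable_iUnion fun n => (hCA n).countable)).union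
      (h𝒮.countable.biUnion fun S' _ => (hCS S').countable)).union
      (Set.countable_iUnion fun n => (Finset.finite_toSet _).countable)
  obtain ⟨k, _, _, hkc, hkn, hsub⟩ := exists_field Call hCall
  have hVd : Def k V := hCV2 k fun c hc => hsub (Or.inl (Or.inl (Or.inl hc)))
  have hAd : ∀ n, Def k (a n) := fun n => hCA2 n k fun c hc =>
    hsub (Or.inl (Or.inl (Or.inr (Set.mem_iUnion.2 ⟨n, hc⟩))))
  have hSd : ∀ S' ∈ 𝒮, Def k S' := fun S' hS' => hCS2 S' k fun c hc =>
    hsub (Or.inl (Or.inr (Set.mem_biUnion hS' hc)))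
  have hgd : ∀ n, ∃ g' : MvPolynomial ι k, MvPolynomial.map (algebraMap k K) g' = g n := by
    intro n
    have h1 : g n ∈ Set.range (MvPolynomial.map (algebraMap k K)) := by
      rw [mem_range_map_iff_coeffs_subset]
      exact fun c hc => hsub (Or.inr (Set.mem_iUnion.2 ⟨n, hc⟩))
    exact h1
  obtain ⟨t, ht⟩ := exists_indep (k := k) (K := K) S
  -- the generic points
  have hpt : ∀ n, ∃ p : ι → K, (∀ f : MvPolynomial ι k, aeval p f = 0 ↔ f ∈ cont k (a n)) ∧
      ∀ j : S, p j = t j := by
    intro n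
    haveI := (ha n).1.1.prime hXc
    haveI := cont_prime (k := k) hXc (ha n).1.1
    refine exists_generic (cont k (a n)) S ?_ ?_ t ht
    · rw [algebraicIndependent_iff]
      intro f hf
      have h1 : rename Subtype.val f ∈ cont k (a n) := by
        rw [← aeval_cp_eq_zero, aeval_rename]
        exact hf
      have h2 : MvPolynomial.map (algebraMap k K) (rename Subtype.val f) ∈ van (a n) := h1
      rw [map_rename, ← aeval_cp_eq_zero, aeval_rename] at h2
      have h3 := algebraicIndependent_iff.1 (ha n).2.2 _ h2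
      exact MvPolynomial.map_injective _ (algebraMap k K).injective (by rw [h3, map_zero])
    · rw [← (ha n).2.1, vd_eq]
      exact tdP_le_map _ _ (hAd n).symm
  choose p hp hpt using hpt
  have hpA : ∀ n, p n ∈ a n := by
    intro n
    have h1 : p n ∈ zeros (van (a n) : Set (MvPolynomial ι K)) := by
      intro f hf
      have h2 : (cont k (a n)).map (MvPolynomial.map (algebraMap k K)) ≤
          RingHom.ker (eval (p n)) := by
        rw [Ideal.map_le_iff_le_comap]
        intro f' hf'
        rw [Ideal.mem_comap, RingHom.mem_ker, eval_map_eq]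
        exact (hp n f').2 hf'
      have h3 : f ∈ (cont k (a n)).map (MvPolynomial.map (algebraMap k K)) := by
        rw [hAd n]
        exact hf
      exact h2 h3
    rw [← (ha n).1.1.closed.eq]
    refine ⟨?_, h1⟩
    rw [hFG]
    refine ⟨fun f hf => h1 f fun x hx => ?_, fun h2 => ?_⟩
    · have h3 := (ha n).1.1.subset hx
      rw [hFG] at h3
      exact h3.1 f hf
    · obtain ⟨g', hg'⟩ := hgd n
      have h3 := h2 (g n) (hgG n)
      rw [← hg', eval_map_eq, hp] at h3
      apply hgv n
      rw [← hg']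
      exact h3
  have hpX : ∀ n, p n ∈ X := fun n => (ha n).1.1.subset (hpA n)
  -- the section
  have hZ : Closed X (V ∩ (X ∩ sect t)) := hV.closed.inter (sect_closed hXc t)
  obtain ⟨𝓕, hf, hs, hu⟩ := exists_decomp X hZ
  have hsZ : ∀ W ∈ 𝓕, W ⊆ V ∩ (X ∩ sect t) := by
    intro W hW
    rw [← hu]
    exact Set.subset_sUnion_of_mem hW
  have hfin : (⋃ W ∈ 𝓕, {A | Optimal X 𝒮 W A ∧ dim A = 0}).Finite := by
    refine hf.biUnion fun W hW => ?_
    exact h T hT W (hs W hW) (((hsZ W hW).trans Set.inter_subset_left).trans hVT)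
  refine Set.infinite_of_injective_forall_mem (f := fun n => line (p n)) ?_ ?_ hfin
  · intro m n hmn
    obtain ⟨j₀, hj₀⟩ : S.Nonempty := by
      rw [← Finset.card_pos, ← (ha m).2.1]
      have h1 := vd_mono hXc (line_sub hXc hX.zero (hpX m)) (ha m).1.1
        (line_subset (ha m).1.1.closed.1 (hpA m))
      rw [vd_line hXc hX.zero (hpX m)] at h1
      omega
    have h1 : p m ∈ line (p n) := by
      have h2 : line (p m) = line (p n) := hmn
      rw [← h2]
      exact mem_line _
    obtain ⟨c, -, hc⟩ := h1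
    have h2 := congrFun hc j₀
    rw [Pi.smul_apply, hpt m ⟨j₀, hj₀⟩, hpt n ⟨j₀, hj₀⟩, smul_eq_mul] at h2
    have h3 : c = 1 := by
      have h4 : t ⟨j₀, hj₀⟩ ≠ 0 := ht.ne_zero _
      have h5 : (c - 1) * t ⟨j₀, hj₀⟩ = 0 := by linear_combination -h2
      rcases mul_eq_zero.1 h5 with h6 | h6
      · exact sub_eq_zero.1 h6
      · exact absurd h6 h4
    rw [h3, one_smul] at hc
    have h4 : cont k (a m) = cont k (a n) := by
      ext f
      rw [← hp m, ← hp n, hc]
    apply hainj
    rw [← (ha m).1.1.closed.eq, ← (ha n).1.1.closed.eq, ← hAd m, ← hAd n, h4]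
  · intro n
    have h1 : line (p n) ⊆ ⋃₀ 𝓕 := by
      rw [hu]
      refine Set.subset_inter (line_subset hV.closed.1 ((ha n).1.2.1 (hpA n)))
        (line_subset (sect_closed hXc t).1 ⟨hpX n, fun i j => ?_⟩)
      rw [hpt n i, hpt n j]
      ring
    obtain ⟨W, hW, hpW⟩ := (line_sub hXc hX.zero (hpX n)).mem_of_sUnion hf
      (fun W hW => (hs W hW).closed) h1
    refine Set.mem_biUnion hW ⟨?_, ?_⟩
    · exact optimal_line hX h𝒮 hSd hV hVd (ha n).1 S (ha n).2.1 t ht (hpA n)
        (hp n) (hpt n) ((hsZ W hW).trans Set.inter_subset_left)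
        (((hsZ W hW).trans Set.inter_subset_right).trans Set.inter_subset_right) hpW
    · rw [dim_eq, vd_line hXc hX.zero (hpX n)]
      norm_num

/-- **The forms of the Zilber–Pink conjecture are equivalent.** -/
theorem forms_tfae [Uncountable K] (hX : QuasiProjective X) (h𝒮 : SpecialStructure X 𝒮) :
    List.TFAE [SequenceForm X 𝒮, ZilberForm X 𝒮, OptimalForm X 𝒮, PointForm X 𝒮,
      PinkForm X 𝒮] := by
  haveI : Infinite K := IsAlgClosed.instInfinite
  tfae_have 3 → 1 := sequence_of_optimal hX.cone h𝒮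
  tfae_have 3 → 2 := zilber_of_optimal hX.cone h𝒮
  tfae_have 1 → 5 := pink_of_sequence hX.cone hX.zero h𝒮
  tfae_have 2 → 5 := pink_of_zilber hX.cone hX.zero h𝒮
  tfae_have 5 → 4 := point_of_pink hX.cone h𝒮
  tfae_have 4 → 3 := optimal_of_point hX h𝒮
  tfae_finish

end Pool.Agent.R948.ZP
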